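import Pool.Agent.Lib.MP_79da24_ag.Fin

set_option autoImplicit false

/-!
# Polynomial automorphisms of the plane.
-/

namespace Pool.Agent.LZ


open MvPolynomial

private noncomputable def Aut1_map (α : MvPolynomial (Fin 2) ℂ ≃ₐ[ℂ] MvPolynomial (Fin 2) ℂ)
    (p : Fin 2 → ℂ) : Fin 2 → ℂ := fun i => eval p (α (X i))

private theorem Aut1_eval (α : MvPolynomial (Fin 2) ℂ ≃ₐ[ℂ] MvPolynomial (Fin 2) ℂ)
    (p : Fin 2 → ℂ) (g : MvPolynomial (Fin 2) ℂ) : eval p (α g) = eval (Aut1_map α p) g := by
  have h : (aeval p : MvPolynomial (Fin 2) ℂ →ₐ[ℂ] ℂ).comp (α : MvPolynomial (Fin 2) ℂ →ₐ[ℂ] _) =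
      (aeval (Aut1_map α p) : MvPolynomial (Fin 2) ℂ →ₐ[ℂ] ℂ) := by
    apply MvPolynomial.algHom_ext
    intro i
    simp [Aut1_map, MvPolynomial.coe_aeval_eq_eval]
  have := DFunLike.congr_fun h g
  simpa [MvPolynomial.coe_aeval_eq_eval] using this

private theorem Aut1_inv (α : MvPolynomial (Fin 2) ℂ ≃ₐ[ℂ] MvPolynomial (Fin 2) ℂ)
    (p : Fin 2 → ℂ) : Aut1_map α (Aut1_map α.symm p) = p := by
  funext i
  show eval (Aut1_map α.symm p) (α (X i)) = p i
  rw [← Aut1_eval]
  simp

private theorem Aut1_cont (α : MvPolynomial (Fin 2) ℂ ≃ₐ[ℂ] MvPolynomial (Fin 2) ℂ) :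
    Continuous (Aut1_map α) :=
  continuous_pi fun i => MvPolynomial.continuous_eval (α (X i))

private theorem Aut1_chain (α : MvPolynomial (Fin 2) ℂ ≃ₐ[ℂ] MvPolynomial (Fin 2) ℂ)
    (g : MvPolynomial (Fin 2) ℂ) (j : Fin 2) :
    pderiv j (α g) = ∑ i, α (pderiv i g) * pderiv j (α (X i)) := by
  induction g using MvPolynomial.induction_on with
  | C a =>
    have : α (C a) = C a := by
      have := α.commutes a
      simpa [MvPolynomial.algebraMap_eq] using this
    simp [this]
  | add p q hp hq =>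
    simp only [map_add, hp, hq, add_mul, Finset.sum_add_distrib]
  | mul_X p k hp =>
    simp only [map_mul, Derivation.leibniz, smul_eq_mul, hp, map_add, pderiv_X, add_mul,
      Finset.sum_add_distrib]
    rw [Finset.mul_sum]
    congr 1
    · rw [Finset.sum_eq_single k]
      · simp
      · intro i _ hi
        simp [Pi.single_apply, hi, Ne.symm hi]
      · intro h
        exact absurd (Finset.mem_univ k) h
    · refine Finset.sum_congr rfl fun i _ => ?_
      ring

private theorem Aut1_sing (α : MvPolynomial (Fin 2) ℂ ≃ₐ[ℂ] MvPolynomial (Fin 2) ℂ)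
    (f : MvPolynomial (Fin 2) ℂ) (p : Fin 2 → ℂ) (h : Aut1_map α p ∈ SingPts f) :
    p ∈ SingPts (α f) := by
  refine ⟨?_, fun j => ?_⟩
  · rw [Aut1_eval]
    exact h.1
  · rw [Aut1_chain, map_sum]
    refine Finset.sum_eq_zero fun i _ => ?_
    rw [map_mul, Aut1_eval, h.2 i, zero_mul]

/-- (AUT-1) Invariance under polynomial automorphisms. -/
theorem aut_invariance (f : MvPolynomial (Fin 2) ℂ)
    (α : MvPolynomial (Fin 2) ℂ ≃ₐ[ℂ] MvPolynomial (Fin 2) ℂ) :
    ((SingPts (α f)).Finite → (SingPts f).Finite) ∧ (SingPts f).ncard = (SingPts (α f)).ncard ∧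
      Module.rank ℚ (H1Q (Zer f)) = Module.rank ℚ (H1Q (Zer (α f))) := by
  have hss : α.symm.symm = α := by
    ext; simp
  have inv1 : ∀ p, Aut1_map α (Aut1_map α.symm p) = p := Aut1_inv α
  have inv2 : ∀ p, Aut1_map α.symm (Aut1_map α p) = p := by
    intro p
    have := Aut1_inv α.symm p
    rwa [hss] at this
  have himg : SingPts f = Aut1_map α '' SingPts (α f) := by
    ext q
    constructor
    · intro hq
      refine ⟨Aut1_map α.symm q, Aut1_sing α f _ ?_, inv1 q⟩
      rw [inv1]
      exact hq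
    · rintro ⟨p, hp, rfl⟩
      have h1 := Aut1_sing α.symm (α f) (Aut1_map α p) (by rw [inv2]; exact hp)
      simpa using h1
  have hinj : Function.Injective (Aut1_map α) := Function.LeftInverse.injective inv2
  refine ⟨fun h => ?_, ?_, ?_⟩
  · rw [himg]
    exact h.image _
  · rw [himg, Set.ncard_image_of_injective _ hinj]
  · let e : (Fin 2 → ℂ) ≃ₜ (Fin 2 → ℂ) :=
      { toFun := Aut1_map α
        invFun := Aut1_map α.symm
        left_inv := inv2
        right_inv := inv1
        continuous_toFun := Aut1_cont α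
        continuous_invFun := Aut1_cont α.symm }
    have e' : Zer (α f) ≃ₜ Zer f := e.subtype (fun p => by
      show eval p (α f) = 0 ↔ eval (Aut1_map α p) f = 0
      rw [Aut1_eval])
    exact (rank_H1Q_homeo e').symm




open MvPolynomial

private theorem Aut2_expand (A : Fin 2 → MvPolynomial (Fin 2) ℂ) (f : MvPolynomial (Fin 2) ℂ) :
    aeval A f = ∑ m ∈ f.support, C (coeff m f) * (A 0 ^ m 0 * A 1 ^ m 1) := by
  rw [aeval_def, eval₂_eq']
  apply Finset.sum_congr rfl
  intro m _
  rw [Fin.prod_univ_two]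
  rfl

private theorem Aut2_expand' (A : Fin 2 → Polynomial ℂ) (f : MvPolynomial (Fin 2) ℂ) :
    aeval A f = ∑ m ∈ f.support, Polynomial.C (coeff m f) * (A 0 ^ m 0 * A 1 ^ m 1) := by
  rw [aeval_def, eval₂_eq']
  apply Finset.sum_congr rfl
  intro m _
  rw [Fin.prod_univ_two]
  rfl

private theorem Aut2_sum (m : Fin 2 →₀ ℕ) : (m.sum fun _ e => e) = m 0 + m 1 := by
  rw [Finsupp.sum_fintype _ _ (fun _ => rfl), Fin.sum_univ_two]

private theorem Aut2_totalDegree (A : Fin 2 → MvPolynomial (Fin 2) ℂ)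
    (h0 : (A 0).totalDegree ≤ 1) (h1 : (A 1).totalDegree ≤ 1) (f : MvPolynomial (Fin 2) ℂ) :
    (aeval A f).totalDegree ≤ f.totalDegree := by
  rw [Aut2_expand]
  apply totalDegree_finsetSum_le
  intro m hm
  have h2 := le_totalDegree hm
  rw [Aut2_sum] at h2
  have h3 : (A 0 ^ m 0).totalDegree ≤ m 0 := by
    have h := totalDegree_pow (A 0) (m 0)
    have h' : m 0 * (A 0).totalDegree ≤ m 0 * 1 := Nat.mul_le_mul le_rfl h0
    omega
  have h4 : (A 1 ^ m 1).totalDegree ≤ m 1 := by
    have h := totalDegree_pow (A 1) (m 1)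
    have h' : m 1 * (A 1).totalDegree ≤ m 1 * 1 := Nat.mul_le_mul le_rfl h1
    omega
  have h5 := totalDegree_mul (C (coeff m f)) (A 0 ^ m 0 * A 1 ^ m 1)
  have h6 := totalDegree_mul (A 0 ^ m 0) (A 1 ^ m 1)
  rw [totalDegree_C] at h5
  omega

private theorem Aut2_eq_single {m : Fin 2 →₀ ℕ} {d : ℕ} (h0 : m 0 = 0) (h1 : m 1 = d) :
    m = Finsupp.single 1 d := by
  ext i
  fin_cases i
  · change m 0 = (Finsupp.single (1 : Fin 2) d) 0
    rw [h0, Finsupp.single_eq_of_ne (by decide)]
  · change m 1 = (Finsupp.single (1 : Fin 2) d) 1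
    rw [h1, Finsupp.single_eq_same]

private theorem Aut2_degreeOf {g : MvPolynomial (Fin 2) ℂ} {d : ℕ} (hd : 0 < d)
    (hg : g.totalDegree ≤ d) (h0 : coeff (Finsupp.single 1 d) g = 0) :
    degreeOf 1 g + 1 ≤ d := by
  apply Nat.succ_le_of_lt
  rw [degreeOf_lt_iff hd]
  intro m hm
  have h2 := le_totalDegree hm
  rw [Aut2_sum] at h2
  by_contra hcon
  have h3 : m 1 = d := by omega
  have h4 : m 0 = 0 := by omega
  rw [Aut2_eq_single h4 h3] at hm
  exact (mem_support_iff.mp hm) h0

private theorem Aut2_coeff (g : MvPolynomial (Fin 2) ℂ) (d : ℕ) :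
    (aeval ![(0 : Polynomial ℂ), Polynomial.X] g).coeff d = coeff (Finsupp.single 1 d) g := by
  classical
  induction g using MvPolynomial.induction_on' with
  | monomial u a =>
    rw [aeval_monomial, coeff_monomial, Finsupp.prod_fintype _ _ (fun _ => pow_zero _),
      Fin.prod_univ_two]
    change (Polynomial.C a * ((0 : Polynomial ℂ) ^ u 0 * Polynomial.X ^ u 1)).coeff d = _
    rw [Polynomial.coeff_C_mul]
    by_cases hu : u 0 = 0
    · rw [hu, pow_zero, one_mul, Polynomial.coeff_X_pow]
      by_cases hu1 : d = u 1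
      · rw [if_pos hu1, mul_one, if_pos (Aut2_eq_single hu hu1.symm)]
      · rw [if_neg hu1, mul_zero, if_neg]
        intro h
        apply hu1
        rw [h, Finsupp.single_eq_same]
    · rw [zero_pow hu, zero_mul, Polynomial.coeff_zero, mul_zero, if_neg]
      intro h
      apply hu
      rw [h, Finsupp.single_eq_of_ne (by decide)]
  | add p q hp hq =>
    rw [map_add, Polynomial.coeff_add, hp, hq, coeff_add]

private theorem Aut2_root (f : MvPolynomial (Fin 2) ℂ) {d : ℕ} (hd : 0 < d)
    (h0 : coeff (Finsupp.single 1 d) f ≠ 0) : ∃ v : ℂ,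
      (aeval ![(Polynomial.X : Polynomial ℂ), Polynomial.C v * Polynomial.X] f).coeff d = 0 := by
  classical
  set q : Polynomial ℂ := ∑ m ∈ f.support.filter (fun m => m 0 + m 1 = d),
    Polynomial.C (coeff m f) * Polynomial.X ^ m 1 with hq
  have hqd : q.coeff d = coeff (Finsupp.single 1 d) f := by
    rw [hq, Polynomial.finsetSum_coeff]
    rw [Finset.sum_eq_single (Finsupp.single 1 d)]
    · rw [Polynomial.coeff_C_mul, Polynomial.coeff_X_pow, if_pos, mul_one]
      rw [Finsupp.single_eq_same]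
    · intro m hm hne
      rw [Finset.mem_filter] at hm
      rw [Polynomial.coeff_C_mul, Polynomial.coeff_X_pow, if_neg, mul_zero]
      intro h
      exact hne (Aut2_eq_single (by omega) h.symm)
    · intro hm
      exfalso
      apply hm
      rw [Finset.mem_filter]
      refine ⟨mem_support_iff.mpr h0, ?_⟩
      rw [Finsupp.single_eq_same, Finsupp.single_eq_of_ne (by decide)]
      omega
  have hdeg : q.degree ≠ 0 := by
    intro h
    have h1 : q.natDegree = 0 := Polynomial.natDegree_eq_of_degree_eq_some h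
    have h2 : q.coeff d = 0 := Polynomial.coeff_eq_zero_of_natDegree_lt (by omega)
    exact h0 (hqd.symm.trans h2)
  obtain ⟨v, hv⟩ := IsAlgClosed.exists_root q hdeg
  refine ⟨v, ?_⟩
  rw [Aut2_expand', Polynomial.finsetSum_coeff]
  have h3 : ∀ m ∈ f.support, (Polynomial.C (coeff m f) *
      ((![(Polynomial.X : Polynomial ℂ), Polynomial.C v * Polynomial.X] 0) ^ m 0 *
        (![(Polynomial.X : Polynomial ℂ), Polynomial.C v * Polynomial.X] 1) ^ m 1)).coeff d =
      if m 0 + m 1 = d then coeff m f * v ^ m 1 else 0 := by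
    intro m _
    change (Polynomial.C (coeff m f) * (Polynomial.X ^ m 0 *
      (Polynomial.C v * Polynomial.X) ^ m 1)).coeff d = _
    have h4 : (Polynomial.X : Polynomial ℂ) ^ m 0 * (Polynomial.C v * Polynomial.X) ^ m 1 =
        Polynomial.C (v ^ m 1) * Polynomial.X ^ (m 0 + m 1) := by
      rw [mul_pow, Polynomial.C_pow, pow_add]
      ring
    rw [h4, Polynomial.coeff_C_mul, Polynomial.coeff_C_mul, Polynomial.coeff_X_pow]
    by_cases h5 : m 0 + m 1 = d
    · rw [if_pos h5, if_pos h5.symm, mul_one]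
    · rw [if_neg h5, if_neg (fun h => h5 h.symm), mul_zero, mul_zero]
  rw [Finset.sum_congr rfl h3, ← Finset.sum_filter]
  have h6 : q.eval v = ∑ m ∈ f.support.filter (fun m => m 0 + m 1 = d),
      coeff m f * v ^ m 1 := by
    rw [hq, Polynomial.eval_finsetSum]
    apply Finset.sum_congr rfl
    intro m _
    rw [Polynomial.eval_mul, Polynomial.eval_C, Polynomial.eval_pow, Polynomial.eval_X]
  rw [← h6]
  exact hv

private theorem Aut2_pos (f : MvPolynomial (Fin 2) ℂ) (hf : Irreducible f)
    (hd : 2 ≤ f.totalDegree) (α : MvPolynomial (Fin 2) ℂ ≃ₐ[ℂ] MvPolynomial (Fin 2) ℂ)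
    (hα : (α.symm (X 0)).totalDegree ≤ 1) : 0 < degreeOf 1 (α f) := by
  by_contra hcon
  have h0 : degreeOf 1 (α f) = 0 := by omega
  have h1 : α f ∈ supported ℂ ({0} : Set (Fin 2)) := by
    rw [mem_supported]
    intro i hi
    fin_cases i
    · rfl
    · exfalso
      have h2 : (1 : Fin 2) ∈ (α f).vars := hi
      rw [mem_vars_iff_degreeOf_ne_zero] at h2
      exact h2 h0
  rw [supported_eq_adjoin_X, Set.image_singleton, Algebra.adjoin_singleton_eq_range_aeval,
    AlgHom.mem_range] at h1
  obtain ⟨h, hh⟩ := h1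
  have hirr : Irreducible (α f) := (MulEquiv.irreducible_iff α).mpr hf
  set φ : MvPolynomial (Fin 2) ℂ →ₐ[ℂ] Polynomial ℂ := aeval (fun _ => Polynomial.X) with hφ
  have hφι : ∀ a : Polynomial ℂ, φ (Polynomial.aeval (X 0 : MvPolynomial (Fin 2) ℂ) a) = a := by
    intro a
    have h3 : φ.comp (Polynomial.aeval (X 0 : MvPolynomial (Fin 2) ℂ)) = AlgHom.id ℂ _ := by
      apply Polynomial.algHom_ext
      rw [AlgHom.comp_apply, Polynomial.aeval_X, hφ, aeval_X]
      rfl
    exact DFunLike.congr_fun h3 a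
  have hhirr : Irreducible h := by
    rw [← hh] at hirr
    refine ⟨?_, ?_⟩
    · intro hu
      exact hirr.not_isUnit (hu.map (Polynomial.aeval (X 0 : MvPolynomial (Fin 2) ℂ)))
    · intro a b hab
      have h4 : Polynomial.aeval (X 0 : MvPolynomial (Fin 2) ℂ) h =
          Polynomial.aeval (X 0) a * Polynomial.aeval (X 0) b := by
        rw [hab, map_mul]
      rcases hirr.isUnit_or_isUnit h4 with h5 | h5
      · left
        have h6 := h5.map φ
        rw [hφι] at h6
        exact h6
      · right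
        have h6 := h5.map φ
        rw [hφι] at h6
        exact h6
  have hdeg : h.degree = 1 := IsAlgClosed.degree_eq_one_of_irreducible ℂ hhirr
  have hform : h = Polynomial.C (h.coeff 1) * Polynomial.X + Polynomial.C (h.coeff 0) :=
    Polynomial.eq_X_add_C_of_degree_le_one hdeg.le
  have hαf : α f = C (h.coeff 1) * X 0 + C (h.coeff 0) := by
    rw [← hh]
    conv_lhs => rw [hform]
    rw [map_add, map_mul, Polynomial.aeval_X, Polynomial.aeval_C, Polynomial.aeval_C]
    rfl
  have hff : f = C (h.coeff 1) * α.symm (X 0) + C (h.coeff 0) := by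
    have h7 : f = α.symm (α f) := (α.symm_apply_apply f).symm
    rw [h7, hαf, map_add, map_mul]
    have h8 : ∀ c : ℂ, α.symm (C c) = C c := fun c => α.symm.commutes c
    rw [h8, h8]
  have h9 := totalDegree_add (C (h.coeff 1) * α.symm (X 0)) (C (h.coeff 0))
  have h10 := totalDegree_mul (C (h.coeff 1)) (α.symm (X 0))
  rw [totalDegree_C] at h9 h10
  rw [← hff] at h9
  have h11 := max_le (h10.trans (by omega : 0 + (α.symm (X 0)).totalDegree ≤ 1)) (Nat.zero_le 1)
  omega

/-- (AUT-2)
Proof. Let `d = f.totalDegree ≥ 2` and `g = homogeneousComponent d f ≠ 0`, a binary form of degree `d`. There is `(u, v) ≠ (0, 0)` in `ℂ²` with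
`eval ![u, v] g = 0`: if the coefficient of `X₁^d` in `g` is zero take `(0, 1)`; otherwise the polynomial `g(1, T)`... in the variable `T` has degree `d ≥ 1`
and a root `v` (algebraically closed), take `(1, v)`. Let `α` be the linear automorphism `X 0 ↦ a X 0 + u X 1`, `X 1 ↦ b X 0 + v X 1` with
`a v - b u ≠ 0` (for `(0, 1)`: `α = id`, i.e. `AlgEquiv.refl`, for `(1, v)`: `X 0 ↦ X 1`, `X 1 ↦ X 0 + v X 1` with inverse `X 0 ↦ X 1 - v X 0`, `X 1 ↦ X 0`:
check: `X 0 ↦ X 1 ↦ X 0`... build with `AlgEquiv.ofAlgHom (aeval ..) (aeval ..)` and `MvPolynomial.algHom_ext`).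
`α` does not raise the total degree (each `α (X i)` has total degree `≤ 1`; e.g. `totalDegree_aeval_le`-like or by hand on monomials), and the coefficient
of `X₁^d` (exponent `single 1 d`) in `α f` is `eval ![u, v] g = 0`. (Way to see it: substitute `X 0 = 0`: `α f` at `(0, T)` is the one-variable
polynomial `f(u T, v T)`, whose coefficient of `T^d` is `g(u, v)`.) Hence `degreeOf 1 (α f) ≤ d - 1`: a monomial `X₀^i X₁^j` of `α f` has `i + j ≤ d`
(`le_totalDegree`) so `j ≤ d`, and `j = d` only for `X₁^d`.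
`0 < degreeOf 1 (α f)`: otherwise `α f` is a polynomial in `X 0` only: `α f = Polynomial.aeval (X 0) h`; it is irreducible (`MulEquiv.irreducible_iff`), so
`h` is irreducible in `ℂ[T]` (a factorisation of `h` gives one of `α f`; units correspond), so `h` has degree 1 (`IsAlgClosed.degree_eq_one_of_irreducible`), so `α f`
has total degree `≤ 1` and so has `f = α.symm (α f)` (`α.symm` is linear as well), contradiction with `2 ≤ d`.
(You may choose other formulations; helper lemmas are welcome. Fin.lean has `singPts_univariate`.) -/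
theorem exists_linear_aut (f : MvPolynomial (Fin 2) ℂ) (hf : Irreducible f)
    (hd : 2 ≤ f.totalDegree) :
    ∃ α : MvPolynomial (Fin 2) ℂ ≃ₐ[ℂ] MvPolynomial (Fin 2) ℂ,
      0 < degreeOf 1 (α f) ∧ degreeOf 1 (α f) + 1 ≤ f.totalDegree := by
  have hd0 : 0 < f.totalDegree := by omega
  by_cases h0 : coeff (Finsupp.single 1 f.totalDegree) f = 0
  · refine ⟨AlgEquiv.refl, ?_, ?_⟩
    · apply Aut2_pos f hf hd
      change (X 0 : MvPolynomial (Fin 2) ℂ).totalDegree ≤ 1
      rw [totalDegree_X]
    · exact Aut2_degreeOf hd0 le_rfl h0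
  · obtain ⟨v, hv⟩ := Aut2_root f hd0 h0
    have hA1 : (X 1 : MvPolynomial (Fin 2) ℂ).totalDegree ≤ 1 := by rw [totalDegree_X]
    have hA0 : (X 0 : MvPolynomial (Fin 2) ℂ).totalDegree ≤ 1 := by rw [totalDegree_X]
    have hCX : ∀ i : Fin 2, (C v * X i : MvPolynomial (Fin 2) ℂ).totalDegree ≤ 1 := by
      intro i
      have h := totalDegree_mul (C v) (X i : MvPolynomial (Fin 2) ℂ)
      rw [totalDegree_C, totalDegree_X] at h
      omega
    let A : Fin 2 → MvPolynomial (Fin 2) ℂ := ![X 1, X 0 + C v * X 1]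
    let B : Fin 2 → MvPolynomial (Fin 2) ℂ := ![X 1 - C v * X 0, X 0]
    have hAB : (aeval A).comp (aeval B) = AlgHom.id ℂ (MvPolynomial (Fin 2) ℂ) := by
      apply MvPolynomial.algHom_ext
      intro i
      rw [AlgHom.comp_apply, aeval_X, AlgHom.id_apply]
      fin_cases i
      · change aeval A (X 1 - C v * X 0) = X 0
        rw [map_sub, map_mul, aeval_X, aeval_X]
        change (X 0 + C v * X 1) - aeval A (algebraMap ℂ _ v) * X 1 = X 0
        rw [AlgHom.commutes]
        change (X 0 + C v * X 1) - C v * X 1 = X 0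
        ring
      · change aeval A (X 0) = X 1
        rw [aeval_X]
        rfl
    have hBA : (aeval B).comp (aeval A) = AlgHom.id ℂ (MvPolynomial (Fin 2) ℂ) := by
      apply MvPolynomial.algHom_ext
      intro i
      rw [AlgHom.comp_apply, aeval_X, AlgHom.id_apply]
      fin_cases i
      · change aeval B (X 1) = X 0
        rw [aeval_X]
        rfl
      · change aeval B (X 0 + C v * X 1) = X 1
        rw [map_add, map_mul, aeval_X, aeval_X]
        change (X 1 - C v * X 0) + aeval B (algebraMap ℂ _ v) * X 0 = X 1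
        rw [AlgHom.commutes]
        change (X 1 - C v * X 0) + C v * X 0 = X 1
        ring
    let α : MvPolynomial (Fin 2) ℂ ≃ₐ[ℂ] MvPolynomial (Fin 2) ℂ :=
      AlgEquiv.ofAlgHom (aeval A) (aeval B) hAB hBA
    have hα : ∀ g, α g = aeval A g := fun g => rfl
    refine ⟨α, ?_, ?_⟩
    · apply Aut2_pos f hf hd
      change (aeval B (X 0)).totalDegree ≤ 1
      rw [aeval_X]
      change (X 1 - C v * X 0 : MvPolynomial (Fin 2) ℂ).totalDegree ≤ 1
      exact (totalDegree_sub _ _).trans (max_le hA1 (hCX 0))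
    · apply Aut2_degreeOf hd0
      · rw [hα]
        apply Aut2_totalDegree
        · exact hA1
        · exact (totalDegree_add _ _).trans (max_le hA0 (hCX 1))
      · rw [← Aut2_coeff, ← hv, hα]
        have h12 : (aeval ![(0 : Polynomial ℂ), Polynomial.X]).comp (aeval A) =
            (aeval ![(Polynomial.X : Polynomial ℂ), Polynomial.C v * Polynomial.X] :
              MvPolynomial (Fin 2) ℂ →ₐ[ℂ] Polynomial ℂ) := by
          apply MvPolynomial.algHom_ext
          intro i
          rw [AlgHom.comp_apply, aeval_X, aeval_X]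
          fin_cases i
          · change aeval ![(0 : Polynomial ℂ), Polynomial.X] (X 1) = Polynomial.X
            rw [aeval_X]
            rfl
          · change aeval ![(0 : Polynomial ℂ), Polynomial.X] (X 0 + C v * X 1) =
              Polynomial.C v * Polynomial.X
            rw [map_add, map_mul, aeval_X, aeval_X]
            change 0 + aeval ![(0 : Polynomial ℂ), Polynomial.X] (algebraMap ℂ _ v) *
              Polynomial.X = Polynomial.C v * Polynomial.X
            rw [AlgHom.commutes, zero_add]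
            rfl
        have h13 := DFunLike.congr_fun h12 f
        rw [AlgHom.comp_apply] at h13
        rw [h13]


end Pool.Agent.LZ
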