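import Pool.Agent.Lib.MP_79da24_ag.Poly

set_option autoImplicit false

/-!
# Generic fibres.
-/

namespace Pool.Agent.LZ


open Polynomial

/-- (GEN-1)
Proof. If `spec z F = F.map (evalRingHom z) = 0` then every coefficient of `F` vanishes at `z`, so `C (X - C z) ∣ F` (`C_dvd_iff_dvd_coeff`,
`dvd_iff_isRoot`). `F` irreducible: `F = C (X - C z) * G`; `C (X - C z)` is not a unit (its evaluation at `z` is zero / natDegree), so `G` is a unit of
`ℂ[X][X]`, hence of natDegree 0, so `F.natDegree = 0`, contradiction. -/
theorem spec_ne_zero (F : Polynomial (Polynomial ℂ)) (hF : Irreducible F)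
    (hn : 0 < F.natDegree) (z : ℂ) : spec z F ≠ 0 := by
  intro h0
  have h1 : C (X - C z) ∣ F := by
    rw [C_dvd_iff_dvd_coeff]
    intro i
    rw [dvd_iff_isRoot, IsRoot.def]
    have h2 := congrArg (fun p => coeff p i) h0
    simpa [spec] using h2
  obtain ⟨G, hG⟩ := h1
  have hu : ¬IsUnit (C (X - C z) : Polynomial (Polynomial ℂ)) := by
    rw [isUnit_C]
    exact not_isUnit_X_sub_C z
  have hGu : IsUnit G := (hF.isUnit_or_isUnit hG).resolve_left hu
  have hd : G.natDegree = 0 := natDegree_eq_zero_of_isUnit hGu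
  rw [hG, natDegree_C_mul (X_sub_C_ne_zero z), hd] at hn
  exact lt_irrefl _ hn

/-- (GEN-2)
Proof. `F` irreducible with positive degree is primitive (`Irreducible.isPrimitive`, needs `F.natDegree ≠ 0`), so its image `G` in `K[Y]`,
`K = FractionRing ℂ[X]` (or `RatFunc ℂ`), is irreducible (Gauss: `IsPrimitive.irreducible_iff_irreducible_map_fraction_map`). `K` has
characteristic zero, so `G` is separable (`Irreducible.separable`): `IsCoprime G (derivative G)`: `U * G + V * derivative G = 1` in `K[Y]`.
Clear denominators (`IsLocalization.integerNormalization`, or `IsLocalization.exist_integer_multiples`/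
`IsLocalization.exists_...common denominators` of all coefficients of `U` and `V`): there is `r ≠ 0` in `ℂ[X]` and `u, v ∈ ℂ[X][Y]` with
`u.map = C r * U`, `v.map = C r * V`. Then `(u * F + v * derivative F).map = (C r).map`, and `ℂ[X] → K` is injective (`map_injective`). -/
theorem exists_bezout (F : Polynomial (Polynomial ℂ)) (hF : Irreducible F)
    (hn : 0 < F.natDegree) :
    ∃ (u v : Polynomial (Polynomial ℂ)) (r : Polynomial ℂ), r ≠ 0 ∧
      u * F + v * derivative F = C r := by
  have hp : F.IsPrimitive := hF.isPrimitive hn.ne'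
  have hi : Irreducible (F.map (algebraMap (Polynomial ℂ) (RatFunc ℂ))) :=
    (hp.irreducible_iff_irreducible_map_fraction_map (K := RatFunc ℂ)).1 hF
  have hs : (F.map (algebraMap (Polynomial ℂ) (RatFunc ℂ))).Separable := hi.separable
  obtain ⟨U, V, hUV⟩ := hs
  obtain ⟨b, hb, hbU⟩ := IsLocalization.integerNormalization_spec (nonZeroDivisors (Polynomial ℂ)) U
  obtain ⟨c, hc, hcV⟩ := IsLocalization.integerNormalization_spec (nonZeroDivisors (Polynomial ℂ)) V
  generalize IsLocalization.integerNormalization (nonZeroDivisors (Polynomial ℂ)) U = u at hbU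
  generalize IsLocalization.integerNormalization (nonZeroDivisors (Polynomial ℂ)) V = v at hcV
  have hb0 : b ≠ 0 := nonZeroDivisors.ne_zero hb
  have hc0 : c ≠ 0 := nonZeroDivisors.ne_zero hc
  refine ⟨C c * u, C b * v, b * c, mul_ne_zero hb0 hc0, ?_⟩
  have hinj : Function.Injective (Polynomial.map (algebraMap (Polynomial ℂ) (RatFunc ℂ))) :=
    map_injective _ (IsFractionRing.injective (Polynomial ℂ) (RatFunc ℂ))
  apply hinj
  have hs : ∀ (x : Polynomial ℂ) (P : Polynomial (RatFunc ℂ)), x • P = C (algebraMap (Polynomial ℂ) (RatFunc ℂ) x) * P := by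
    intro x P
    rw [← smul_eq_C_mul, algebraMap_smul]
  rw [hs] at hbU hcV
  rw [Polynomial.map_add, Polynomial.map_mul, Polynomial.map_mul, Polynomial.map_mul, Polynomial.map_mul, map_C, map_C,
    map_C, hbU, hcV, map_mul, C_mul, ← Polynomial.derivative_map]
  linear_combination (C (algebraMap (Polynomial ℂ) (RatFunc ℂ) b) * C (algebraMap (Polynomial ℂ) (RatFunc ℂ) c)) * hUV

/-- (GEN-3)
Proof. Let `S` be the finite set of the roots of `r * F.leadingCoeff` (`≠ 0`), `r` from GEN-2. For `z ∉ S`: `spec z F = F.map (evalRingHom z)` has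
natDegree `n = F.natDegree` (the leading coefficient does not vanish at `z`: `natDegree_map_of_leadingCoeff_ne_zero`), and applying the ring hom to the
identity: `u_z * spec z F + v_z * derivative (spec z F) = C (r.eval z)` with `r.eval z ≠ 0`, so no common root:
`spec z F` is separable (`Separable`, multiply by `C (r.eval z)⁻¹`), so `roots.Nodup` (`nodup_roots`) and `card roots = natDegree` (`IsAlgClosed`,
`splits_iff_card_roots`, `IsAlgClosed.card_roots_eq_natDegree`-like). So `nr (spec z F) = roots.toFinset.card = roots.card = n`. -/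
theorem exists_generic (F : Polynomial (Polynomial ℂ)) (hF : Irreducible F)
    (hn : 0 < F.natDegree) :
    ∃ S : Finset ℂ, ∀ z, z ∉ S → nr (spec z F) = F.natDegree := by
  obtain ⟨u, v, r, hr, h⟩ := exists_bezout F hF hn
  have hl : F.leadingCoeff ≠ 0 := leadingCoeff_ne_zero.2 hF.ne_zero
  refine ⟨(r * F.leadingCoeff).roots.toFinset, fun z hz => ?_⟩
  have h1 : (r * F.leadingCoeff).eval z ≠ 0 := by
    intro h0
    apply hz
    rw [Multiset.mem_toFinset, mem_roots (mul_ne_zero hr hl)]
    exact h0
  rw [eval_mul] at h1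
  have hr1 : r.eval z ≠ 0 := left_ne_zero_of_mul h1
  have hl1 : evalRingHom z F.leadingCoeff ≠ 0 := right_ne_zero_of_mul h1
  have hd : (spec z F).natDegree = F.natDegree := natDegree_map_of_leadingCoeff_ne_zero _ hl1
  have h2 : u.map (evalRingHom z) * spec z F + v.map (evalRingHom z) * derivative (spec z F) = C (r.eval z) := by
    have h3 := congrArg (fun p => Polynomial.map (evalRingHom z) p) h
    simp only [Polynomial.map_add, Polynomial.map_mul, Polynomial.map_C] at h3
    rw [← Polynomial.derivative_map] at h3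
    exact h3
  have hsep : (spec z F).Separable := by
    refine ⟨C (r.eval z)⁻¹ * u.map (evalRingHom z), C (r.eval z)⁻¹ * v.map (evalRingHom z), ?_⟩
    rw [mul_assoc, mul_assoc, ← mul_add, h2, ← C_mul, inv_mul_cancel₀ hr1, C_1]
  unfold nr
  rw [Multiset.toFinset_card_of_nodup (nodup_roots hsep), ← hd]
  exact (IsAlgClosed.splits (spec z F)).natDegree_eq_card_roots.symm


end Pool.Agent.LZ
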