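import Pool.Agent.Lib.MP_79da24_ag.SH1

set_option autoImplicit false

/-!
# Path potentials.
-/

namespace Pool.Agent.LZ

theorem exists_lift_path {X : Type} [TopologicalSpace X] (φ : C(X, Circle))
    (γ : C(unitInterval, X)) (a : ℝ) (ha : Circle.exp a = φ (γ 0)) :
    ∃ L : C(unitInterval, ℝ), IsLift φ γ L ∧ L 0 = a := by
  refine ⟨Circle.isCoveringMap_exp.liftPath (φ.comp γ) a ha.symm, ?_, ?_⟩
  · intro t
    exact congrFun (Circle.isCoveringMap_exp.liftPath_lifts (φ.comp γ) a ha.symm) t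
  · exact Circle.isCoveringMap_exp.liftPath_zero (φ.comp γ) a ha.symm

theorem lift_trans {X : Type} [TopologicalSpace X] (φ : C(X, Circle)) {x y z : X}
    (γ : Path x y) (γ' : Path y z) (L L' : C(unitInterval, ℝ))
    (hL : IsLift φ γ.toContinuousMap L) (hL' : IsLift φ γ'.toContinuousMap L') (h : L 1 = L' 0) :
    ∃ M : C(unitInterval, ℝ), IsLift φ (γ.trans γ').toContinuousMap M ∧ M 0 = L 0 ∧ M 1 = L' 1 := by
  let P : Path (L 0) (L 1) := ⟨L, rfl, rfl⟩
  let P' : Path (L 1) (L' 1) := ⟨L', h.symm, rfl⟩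
  refine ⟨(P.trans P').toContinuousMap, ?_, (P.trans P').source, (P.trans P').target⟩
  intro t
  show Circle.exp ((P.trans P') t) = φ ((γ.trans γ') t)
  rw [Path.trans_apply, Path.trans_apply]
  split_ifs with ht
  · exact hL _
  · exact hL' _

theorem exists_potential {X : Type} [TopologicalSpace X] {E : Type} [Fintype E]
    (φ : E → C(X, Circle)) (k : E → ℝ)
    (hk : ∀ (γ : C(unitInterval, X)), γ 0 = γ 1 →
      ∀ L : E → C(unitInterval, ℝ), (∀ e, IsLift (φ e) γ (L e)) →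
        ∑ e, k e * (L e 1 - L e 0) = 0) :
    ∃ h : X → ℝ, ∀ (γ : C(unitInterval, X)) (L : E → C(unitInterval, ℝ)),
      (∀ e, IsLift (φ e) γ (L e)) → h (γ 1) - h (γ 0) = ∑ e, k e * (L e 1 - L e 0) := by
  classical
  let b : X → X := fun x => Quotient.out (s := pathSetoid X) (Quotient.mk (pathSetoid X) x)
  have hb : ∀ x, Joined (b x) x := fun x => Quotient.mk_out (s := pathSetoid X) x
  have hbb : ∀ x y, Joined x y → b x = b y := by
    intro x y hxy
    show Quotient.out (s := pathSetoid X) _ = Quotient.out (s := pathSetoid X) _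
    congr 1
    exact Quotient.sound (s := pathSetoid X) hxy
  have hlift : ∀ (e : E) (γ : C(unitInterval, X)), ∃ L : C(unitInterval, ℝ), IsLift (φ e) γ L := by
    intro e γ
    obtain ⟨a, ha⟩ := Circle.exp_surjective (φ e (γ 0))
    obtain ⟨L, hL, -⟩ := exists_lift_path (φ e) γ a ha
    exact ⟨L, hL⟩
  let P : ∀ x, Path (b x) x := fun x => (hb x).somePath
  choose ℓ hℓ using hlift
  refine ⟨fun x => ∑ e, k e * (ℓ e (P x).toContinuousMap 1 - ℓ e (P x).toContinuousMap 0), ?_⟩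
  intro γ L hL
  have hbe : b (γ 0) = b (γ 1) := hbb _ _ ⟨⟨γ, rfl, rfl⟩⟩
  -- the loop
  let G : Path (γ 0) (γ 1) := ⟨γ, rfl, rfl⟩
  let Q : Path (γ 1) (b (γ 0)) := ((P (γ 1)).symm).cast rfl hbe
  have h1 : ∀ e, ∃ M : C(unitInterval, ℝ),
      IsLift (φ e) ((P (γ 0)).trans (G.trans Q)).toContinuousMap M ∧
      M 1 - M 0 = (ℓ e (P (γ 0)).toContinuousMap 1 - ℓ e (P (γ 0)).toContinuousMap 0) +
        (L e 1 - L e 0) - (ℓ e (P (γ 1)).toContinuousMap 1 - ℓ e (P (γ 1)).toContinuousMap 0) := by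
    intro e
    have hA : IsLift (φ e) (P (γ 0)).toContinuousMap (ℓ e (P (γ 0)).toContinuousMap) := hℓ _ _
    have hB : IsLift (φ e) (P (γ 1)).toContinuousMap (ℓ e (P (γ 1)).toContinuousMap) := hℓ _ _
    obtain ⟨L3, hL3, hL30⟩ := exists_lift_path (φ e) Q.toContinuousMap (L e 1) (by
      rw [hL e 1]
      show _ = φ e (Q 0)
      rw [Q.source])
    obtain ⟨N, hN, hN0, hN1⟩ := lift_trans (φ e) G Q (L e) L3 (hL e) hL3 hL30.symm
    obtain ⟨N2, hN2, hN20⟩ := exists_lift_path (φ e) (G.trans Q).toContinuousMap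
      (ℓ e (P (γ 0)).toContinuousMap 1) (by
        rw [hA 1]
        show φ e ((P (γ 0)) 1) = φ e ((G.trans Q) 0)
        rw [Path.source, Path.target])
    obtain ⟨R, hR, hR0, hR1⟩ := lift_trans (φ e) (P (γ 0)) (G.trans Q) _ N2 hA hN2 hN20.symm
    refine ⟨R, hR, ?_⟩
    have d1 : N2 1 - N2 0 = N 1 - N 0 := lift_diff N2 N (fun t => by rw [hN2 t, hN t]) 1 0
    let Bs : C(unitInterval, ℝ) := (ℓ e (P (γ 1)).toContinuousMap).comp ⟨unitInterval.symm, by fun_prop⟩
    have hBs : IsLift (φ e) Q.toContinuousMap Bs := by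
      intro t
      exact hB (unitInterval.symm t)
    have d2 : L3 1 - L3 0 = Bs 1 - Bs 0 := lift_diff L3 Bs (fun t => by rw [hL3 t, hBs t]) 1 0
    have d3 : Bs 1 = ℓ e (P (γ 1)).toContinuousMap 0 := by
      show ℓ e (P (γ 1)).toContinuousMap (unitInterval.symm 1) = _
      rw [unitInterval.symm_one]
    have d4 : Bs 0 = ℓ e (P (γ 1)).toContinuousMap 1 := by
      show ℓ e (P (γ 1)).toContinuousMap (unitInterval.symm 0) = _
      rw [unitInterval.symm_zero]
    rw [d3, d4] at d2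
    rw [hR0, hR1]
    rw [hN0, hN1] at d1
    rw [hL30] at d2
    rw [hN20] at d1
    linarith
  choose M hM hM' using h1
  have h2 := hk ((P (γ 0)).trans (G.trans Q)).toContinuousMap (by
    show ((P (γ 0)).trans (G.trans Q)) 0 = ((P (γ 0)).trans (G.trans Q)) 1
    simp) M hM
  simp only [hM'] at h2
  simp only [← Finset.sum_sub_distrib]
  rw [← sub_eq_zero, ← neg_eq_zero, ← h2, ← Finset.sum_sub_distrib, ← Finset.sum_neg_distrib]
  refine Finset.sum_congr rfl fun e _ => ?_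
  ring

end Pool.Agent.LZ
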