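import Pool.Agent.Lib.MP_79da24_ag.RL
import Pool.Agent.Lib.MP_79da24_ag.PP

set_option autoImplicit false

/-!
# The graph bound: edges with dual circle valued functions.
-/

namespace Pool.Agent.LZ

theorem graph_bound {X : Type} [TopologicalSpace X] {E V : Type} [Fintype E] [Fintype V]
    [Nonempty V] (φ : E → C(X, Circle)) (src tgt : E → V) (pt : V → X)
    (H : ∀ e : E, ∃ γ : C(unitInterval, X),
      JoinedIn {x | ∀ e', φ e' x = 1} (pt (src e)) (γ 0) ∧
      JoinedIn {x | ∀ e', φ e' x = 1} (pt (tgt e)) (γ 1) ∧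
      (∀ e', e' ≠ e → ∀ t, φ e' (γ t) = 1) ∧
      ∃ ℓ : C(unitInterval, ℝ), (∀ t, φ e (γ t) = Circle.exp (ℓ t)) ∧ ℓ 1 ≠ ℓ 0) :
    (Fintype.card E : Cardinal) + 1 ≤ Module.rank ℚ (H1Q X) + (Fintype.card V : Cardinal) := by
  classical
  choose γ hsrc htgt hoff ℓ hℓ hne using H
  let C : (V → ℝ) →ₗ[ℝ] (E → ℝ) :=
    { toFun := fun u e => (u (tgt e) - u (src e)) / (ℓ e 1 - ℓ e 0)
      map_add' := by
        intro u v
        funext e
        simp only [Pi.add_apply]
        ring
      map_smul' := by
        intro a u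
        funext e
        simp only [Pi.smul_apply, smul_eq_mul, RingHom.id_apply]
        ring }
  have hC : ∀ u e, C u e = (u (tgt e) - u (src e)) / (ℓ e 1 - ℓ e 0) := fun _ _ => rfl
  have hW : ∀ k : E → ℝ, (∀ (γ : C(unitInterval, X)), γ 0 = γ 1 →
      ∀ L : E → C(unitInterval, ℝ), (∀ e, IsLift (φ e) γ (L e)) →
        ∑ e, k e * (L e 1 - L e 0) = 0) → k ∈ LinearMap.range C := by
    intro k hk
    obtain ⟨h, hh⟩ := exists_potential φ k hk
    have hconst : ∀ x y, JoinedIn {x | ∀ e', φ e' x = 1} x y → h x = h y := by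
      intro x y hxy
      have := hh hxy.somePath.toContinuousMap (fun _ => ContinuousMap.const _ 0) (by
        intro e t
        show Circle.exp 0 = φ e (hxy.somePath t)
        rw [Circle.exp_zero]
        exact (hxy.somePath_mem t e).symm)
      simp only [ContinuousMap.const_apply, sub_self, mul_zero, Finset.sum_const_zero] at this
      have h3 : h (hxy.somePath 1) - h (hxy.somePath 0) = 0 := this
      rw [Path.target, Path.source] at h3
      linarith
    refine ⟨fun v => h (pt v), ?_⟩
    funext e
    rw [hC, hconst _ _ (hsrc e), hconst _ _ (htgt e)]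
    rw [hh (γ e) (fun e' => if e' = e then ℓ e else ContinuousMap.const _ 0) (by
      intro e' t
      by_cases he : e' = e
      · subst he
        simp only [if_true]
        exact (hℓ e' t).symm
      · simp only [he, if_false]
        show Circle.exp 0 = _
        rw [Circle.exp_zero, hoff e e' he])]
    rw [Finset.sum_eq_single e]
    · simp only [if_true]
      have : ℓ e 1 - ℓ e 0 ≠ 0 := sub_ne_zero.mpr (hne e)
      field_simp
    · intro e' _ he
      simp [he]
    · intro he
      exact absurd (Finset.mem_univ e) he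
  have h1 := rank_bound φ (LinearMap.range C) hW
  have h2 := C.finrank_range_add_finrank_ker
  have h3 : Module.finrank ℝ (V → ℝ) = Fintype.card V := Module.finrank_fintype_fun_eq_card ℝ
  have h4 : 0 < Module.finrank ℝ (LinearMap.ker C) := by
    rw [Module.finrank_pos_iff]
    obtain ⟨v⟩ := ‹Nonempty V›
    refine ⟨⟨⟨fun _ => 1, ?_⟩, 0, ?_⟩⟩
    · rw [LinearMap.mem_ker]
      funext e
      rw [hC]
      simp
    · intro h
      have := congrArg (fun f : LinearMap.ker C => (f : V → ℝ) v) h
      simp at this
  have h5 : Module.finrank ℝ (LinearMap.range C) + 1 ≤ Fintype.card V := by omega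
  calc (Fintype.card E : Cardinal) + 1
      ≤ (Module.rank ℚ (H1Q X) + (Module.finrank ℝ (LinearMap.range C) : Cardinal)) + 1 := by
        gcongr
    _ = Module.rank ℚ (H1Q X) + ((Module.finrank ℝ (LinearMap.range C) + 1 : ℕ) : Cardinal) := by
        push_cast
        rw [add_assoc]
    _ ≤ _ := by
        gcongr

end Pool.Agent.LZ
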