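import Pool.Agent.Lib.MP_79da24_ag.Geo

set_option autoImplicit false

/-!
# Sections of a covering over simply connected sets.
-/

namespace Pool.Agent.LZ


/-- (SECT-1) sections over a simply connected open set (`CovData`, `IsSec` are in Geo.lean).
Proof. Let `p : Γ → ℂ`, `p q = q.1.1`, `hD.cov : IsCoveringMapOn p Sᶜ`. `U` is an open subset of `ℂ`, hence
locally path connected (`IsOpen.locallyPathConnectedSpace` or similar name), and simply connected. By
`IsCoveringMapOn.existsUnique_continuousMap_lifts` (Mathlib.Topology.Homotopy.Lifting) applied to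
`f : C(U, ℂ) := ⟨Subtype.val, _⟩`: for every `a₀ ∈ U` and `e₀ ∈ Γ` with `p e₀ = a₀` there is a unique `F : C(U, Γ)`
with `F a₀ = e₀` and `p ∘ F = f`. Fix a base point `z₀ ∈ U`. The fibre `{y | (z₀, y) ∈ Γ}` has `ncard = n > 0`,
so it is finite and there is a bijection (`Set.ncard`, `Finite.equivFinOfCardEq`, ...) `y : Fin n ≃ fibre`. Let `F i` be
the lift with `F i z₀ = (z₀, y i)` and `s i z := if h : z ∈ U then (F i ⟨z, h⟩).1.2 else 0`. `ContinuousOn (s i) U`:
`continuousOn_iff_continuous_restrict` (or its current name).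
inj: if `s i z = s j z` with `z ∈ U` then `F i ⟨z,_⟩ = F j ⟨z,_⟩` (the first components are both `z`), so `F i = F j` by
uniqueness of the lift through that point at `a₀ = z`; evaluate at `z₀`: `y i = y j`, `i = j`.
mem_iff: (←) `F i ⟨z,_⟩ ∈ Γ` has first component `z`. (→) given `(z, y) ∈ Γ`, let `G` be the lift through it at `z`;
`G z₀ = (z₀, y i)` for some `i`, so `G = F i` by uniqueness at `z₀`, so `s i z = y`. -/
theorem exists_sections {Γ : Set (ℂ × ℂ)} {S : Finset ℂ} {n : ℕ} (hD : CovData Γ S n)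
    (U : Set ℂ) (hU : IsOpen U) (hne : U.Nonempty) (hUS : U ⊆ ((S : Set ℂ)ᶜ))
    (hc : SimplyConnectedSpace U) : ∃ s : Fin n → ℂ → ℂ, IsSec Γ U n s := by
  classical
  have : LocallyPathConnectedSpace U := hU.locallyPathConnectedSpace
  set f : C(U, ℂ) := ⟨Subtype.val, continuous_subtype_val⟩ with hf
  have key : ∀ (z : U) (e : Γ), e.1.1 = (z : ℂ) →
      ∃! F : C(U, Γ), F z = e ∧ (fun p : Γ => p.1.1) ∘ F = f := by
    intro z e he
    exact hD.cov.existsUnique_continuousMap_lifts f (a₀ := z) (e₀ := e) he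
      (fun a => hUS a.2)
  obtain ⟨z₀, hz₀⟩ := hne
  have hz₀S : z₀ ∉ S := fun h => hUS hz₀ h
  have hcard : {y : ℂ | (z₀, y) ∈ Γ}.ncard = n := hD.card z₀ hz₀S
  have hfin : {y : ℂ | (z₀, y) ∈ Γ}.Finite := by
    apply Set.finite_of_ncard_pos
    rw [hcard]
    exact hD.npos
  have : Finite {y : ℂ | (z₀, y) ∈ Γ} := hfin
  have hnat : Nat.card {y : ℂ | (z₀, y) ∈ Γ} = n := by
    rw [Nat.card_coe_set_eq]
    exact hcard
  let y : {y : ℂ | (z₀, y) ∈ Γ} ≃ Fin n := Finite.equivFinOfCardEq hnat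
  -- the lifts
  have hex : ∀ i : Fin n, ∃ F : C(U, Γ), F ⟨z₀, hz₀⟩ = ⟨(z₀, ((y.symm i : _) : ℂ)), (y.symm i).2⟩ ∧
      (fun p : Γ => p.1.1) ∘ F = f := by
    intro i
    obtain ⟨F, hF, -⟩ := key ⟨z₀, hz₀⟩ ⟨(z₀, ((y.symm i : _) : ℂ)), (y.symm i).2⟩ rfl
    exact ⟨F, hF⟩
  choose F hF0 hFp using hex
  have hFz : ∀ (i : Fin n) (z : U), (F i z).1.1 = (z : ℂ) := fun i z => congrFun (hFp i) z
  have huniq : ∀ (G G' : C(U, Γ)) (z : U), (fun p : Γ => p.1.1) ∘ G = f →
      (fun p : Γ => p.1.1) ∘ G' = f → G z = G' z → G = G' := by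
    intro G G' z hG hG' hz
    exact (key z (G' z) (congrFun hG' z)).unique ⟨hz, hG⟩ ⟨rfl, hG'⟩
  refine ⟨fun i z => if h : z ∈ U then (F i ⟨z, h⟩).1.2 else 0, ?_, ?_, ?_⟩
  · intro i
    rw [continuousOn_iff_continuous_domRestrict]
    have h1 : Continuous fun z : U => (F i z).1.2 :=
      continuous_snd.comp (continuous_subtype_val.comp (F i).continuous)
    have h2 : Set.domRestrict U (fun z : ℂ => if h : z ∈ U then (F i ⟨z, h⟩).1.2 else 0) =
        fun z : U => (F i z).1.2 := by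
      funext z
      simp only [Set.domRestrict_apply]
      exact dif_pos z.2
    rw [h2]
    exact h1
  · intro z hz i j hij
    simp only [dif_pos hz] at hij
    have h1 : F i ⟨z, hz⟩ = F j ⟨z, hz⟩ := by
      apply Subtype.ext
      exact Prod.ext ((hFz i ⟨z, hz⟩).trans (hFz j ⟨z, hz⟩).symm) hij
    have h2 : F i = F j := huniq _ _ _ (hFp i) (hFp j) h1
    have h3 : F i ⟨z₀, hz₀⟩ = F j ⟨z₀, hz₀⟩ := by rw [h2]
    rw [hF0, hF0] at h3
    have h4 : ((y.symm i : _) : ℂ) = ((y.symm j : _) : ℂ) := by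
      have := congrArg (fun q : Γ => q.1.2) h3
      exact this
    exact y.symm.injective (Subtype.ext h4)
  · intro z hz w
    constructor
    · intro hw
      obtain ⟨G, ⟨hG1, hG2⟩, -⟩ := key ⟨z, hz⟩ ⟨(z, w), hw⟩ rfl
      have hG0 : (G ⟨z₀, hz₀⟩).1.1 = z₀ := congrFun hG2 ⟨z₀, hz₀⟩
      have hmem : (z₀, (G ⟨z₀, hz₀⟩).1.2) ∈ Γ := by
        have h5 := (G ⟨z₀, hz₀⟩).2
        have h6 : (G ⟨z₀, hz₀⟩).1 = (z₀, (G ⟨z₀, hz₀⟩).1.2) := Prod.ext hG0 rfl
        rw [h6] at h5
        exact h5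
      refine ⟨y ⟨(G ⟨z₀, hz₀⟩).1.2, hmem⟩, ?_⟩
      have h7 : F (y ⟨(G ⟨z₀, hz₀⟩).1.2, hmem⟩) = G := by
        apply huniq _ _ ⟨z₀, hz₀⟩ (hFp _) hG2
        rw [hF0]
        apply Subtype.ext
        refine Prod.ext hG0.symm ?_
        simp only [Equiv.symm_apply_apply]
      simp only [dif_pos hz]
      rw [h7, hG1]
    · rintro ⟨i, hi⟩
      simp only [dif_pos hz] at hi
      have h5 := (F i ⟨z, hz⟩).2
      have h6 : (F i ⟨z, hz⟩).1 = (z, w) := Prod.ext (hFz i ⟨z, hz⟩) hi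
      rw [h6] at h5
      exact h5




/-- (SECT-2) the sheets are open in `Γ`.
Proof. Put `W = {p : Γ | p.1.1 ∈ U}` (open in `Γ`). For `p₀` in the sheet `i`: for `j ≠ i`, `s j p₀.1.1 ≠ s i p₀.1.1 = p₀.1.2`
(`h.inj`), and the functions `p ↦ p.1.2`, `p ↦ s j p.1.1` are continuous at `p₀` (within `W`, which is a neighbourhood, as
`s j` is continuous at the interior point `p₀.1.1`). So for `p ∈ Γ` near `p₀`: `p.1.1 ∈ U` and `p.1.2 ≠ s j p.1.1` for all `j ≠ i`
(finite intersection of neighbourhoods, `ContinuousAt.ne`-type lemma / `Filter.eventually_all`). But `(p.1.1, p.1.2) ∈ Γ`, so by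
`h.mem_iff` there is some `j` with `s j p.1.1 = p.1.2`; hence `j = i`. Use `isOpen_iff_mem_nhds`. -/
theorem IsSec.isOpen_sheet {Γ : Set (ℂ × ℂ)} {U : Set ℂ} {n : ℕ} {s : Fin n → ℂ → ℂ}
    (h : IsSec Γ U n s) (hU : IsOpen U) (i : Fin n) :
    IsOpen {p : Γ | p.1.1 ∈ U ∧ p.1.2 = s i p.1.1} := by
  rw [isOpen_iff_mem_nhds]
  rintro p₀ ⟨hp1, hp2⟩
  have hfst : ContinuousAt (fun p : Γ => p.1.1) p₀ :=
    (continuous_fst.comp continuous_subtype_val).continuousAt
  have hsnd : ContinuousAt (fun p : Γ => p.1.2) p₀ :=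
    (continuous_snd.comp continuous_subtype_val).continuousAt
  have hW : ∀ᶠ p : Γ in nhds p₀, p.1.1 ∈ U := hfst (hU.mem_nhds hp1)
  have hne : ∀ j : Fin n, ∀ᶠ p : Γ in nhds p₀, j ≠ i → p.1.2 ≠ s j p.1.1 := by
    intro j
    by_cases hji : j = i
    · exact Filter.Eventually.of_forall fun p hp => absurd hji hp
    · have hcj : ContinuousAt (s j) p₀.1.1 := (h.cont j).continuousAt (hU.mem_nhds hp1)
      have hcj' : ContinuousAt (fun p : Γ => s j p.1.1) p₀ :=
        ContinuousAt.comp (f := fun p : Γ => p.1.1) (g := s j) hcj hfst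
      have hn : p₀.1.2 ≠ s j p₀.1.1 := by
        rw [hp2]
        intro he
        exact hji (h.inj _ hp1 i j he).symm
      have := (ContinuousAt.ne_iff_eventually_ne hsnd hcj').mp hn
      filter_upwards [this] with p hp _
      exact hp
  have hall : ∀ᶠ p : Γ in nhds p₀, ∀ j : Fin n, j ≠ i → p.1.2 ≠ s j p.1.1 :=
    Filter.eventually_all.mpr hne
  filter_upwards [hW, hall] with p hpU hpj
  refine ⟨hpU, ?_⟩
  obtain ⟨j, hj⟩ := (h.mem_iff _ hpU p.1.2).mp p.2
  by_cases hji : j = i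
  · rw [← hj, hji]
  · exact absurd hj.symm (hpj j hji)

/-- (SECT-3) two systems of sections over a connected set agree up to numbering.
Proof. For `z ∈ T`, `(z, s i z) ∈ Γ` (`hs.mem`), so by `ht.mem_iff` there is `j` with `t j z = s i z`, unique by `ht.inj`.
So `T` is covered by the finitely many sets `A j = {z ∈ T | s i z = t j z}`, pairwise disjoint, each relatively closed in `T`
(continuity), hence each relatively open in `T` too. As `T` is preconnected and nonempty one of them is all of `T`.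
(In Lean: work in the subtype `T` with `PreconnectedSpace T`; `A j` is closed in the subtype; it is open since its complement is
the finite union of the other closed sets; use `IsClopen.eq_univ` for the `j` that contains a chosen point.) -/
theorem IsSec.match {Γ : Set (ℂ × ℂ)} {T : Set ℂ} {n : ℕ} {s t : Fin n → ℂ → ℂ}
    (hs : IsSec Γ T n s) (ht : IsSec Γ T n t) (hT : IsPreconnected T) (hne : T.Nonempty)
    (i : Fin n) : ∃ j, ∀ z ∈ T, s i z = t j z := by
  have : PreconnectedSpace T := isPreconnected_iff_preconnectedSpace.mp hT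
  have hsc : Continuous fun z : T => s i z := (hs.cont i).domRestrict
  have htc : ∀ j, Continuous fun z : T => t j z := fun j => (ht.cont j).domRestrict
  have hcl : ∀ j, IsClosed {z : T | s i z = t j z} := fun j => isClosed_eq hsc (htc j)
  have hex : ∀ z : T, ∃ j, t j z = s i z := fun z =>
    (ht.mem_iff z.1 z.2 (s i z)).mp (hs.mem z.2 i)
  obtain ⟨z₀, hz₀⟩ := hne
  obtain ⟨j, hj⟩ := hex ⟨z₀, hz₀⟩
  have hcompl : {z : T | s i z = t j z}ᶜ = ⋃ k ∈ {k : Fin n | k ≠ j}, {z : T | s i z = t k z} := by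
    ext z
    simp only [Set.mem_compl_iff, Set.mem_ofPred_eq, Set.mem_iUnion, exists_prop]
    constructor
    · intro hz
      obtain ⟨k, hk⟩ := hex z
      refine ⟨k, ?_, hk.symm⟩
      rintro rfl
      exact hz hk.symm
    · rintro ⟨k, hk, hkz⟩ hz
      exact hk (ht.inj z.1 z.2 k j (hkz.symm.trans hz))
  have hop : IsOpen {z : T | s i z = t j z} := by
    rw [← isClosed_compl_iff, hcompl]
    exact (Set.toFinite _).isClosed_biUnion fun k _ => hcl k
  have huniv : {z : T | s i z = t j z} = Set.univ :=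
    IsClopen.eq_univ ⟨hcl j, hop⟩ ⟨⟨z₀, hz₀⟩, hj.symm⟩
  refine ⟨j, fun z hz => ?_⟩
  have : (⟨z, hz⟩ : T) ∈ {z : T | s i z = t j z} := by
    rw [huniv]
    trivial
  exact this


end Pool.Agent.LZ
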