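import Pool.Agent.Lib.MP_79da24_ag.Geo
import Pool.Agent.Lib.MP_79da24_ag.Sect

set_option autoImplicit false

/-!
# The circle valued functions attached to the edges.
-/

namespace Pool.Agent.LZ


open Filter Topology Real

/-- (GLUE-1)
Proof. `continuous_iff_continuousAt`. At `x ∈ O`: `g =ᶠ[𝓝 x] f` and `f` is continuous at `x` (`O` is a neighbourhood). At `x ∉ O`:
`𝓝 x = 𝓝[O] x ⊔ 𝓝[Oᶜ] x` (`nhdsWithin_union`/`nhdsWithin_univ`, `tendsto_sup`); on `𝓝[O] x`, `g = f → y₀ = g x`
(`tendsto_nhdsWithin_congr`); on `𝓝[Oᶜ] x`, `g = y₀`. -/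
theorem continuous_glue {X Y : Type} [TopologicalSpace X] [TopologicalSpace Y] (O : Set X)
    (hO : IsOpen O) (f g : X → Y) (y₀ : Y) (hf : ContinuousOn f O)
    (hb : ∀ x, x ∉ O → Tendsto f (𝓝[O] x) (𝓝 y₀)) (hg1 : ∀ x ∈ O, g x = f x)
    (hg2 : ∀ x, x ∉ O → g x = y₀) : Continuous g := by
  rw [continuous_iff_continuousAt]
  intro x
  by_cases hx : x ∈ O
  · have h1 : g =ᶠ[𝓝 x] f := Filter.eventually_of_mem (hO.mem_nhds hx) hg1
    exact (hf.continuousAt (hO.mem_nhds hx)).congr h1.symm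
  · rw [ContinuousAt, hg2 x hx]
    have h1 : 𝓝 x = 𝓝[O] x ⊔ 𝓝[Oᶜ] x := by
      rw [← nhdsWithin_union, Set.union_compl_self, nhdsWithin_univ]
    rw [h1]
    refine Tendsto.sup ?_ ?_
    · exact tendsto_nhdsWithin_congr (fun z hz => (hg1 z hz).symm) (hb x hx)
    · exact tendsto_nhdsWithin_congr (f := fun _ => y₀) (fun z hz => (hg2 z hz).symm)
        tendsto_const_nhds

/-- (GLUE-2) The function attached to a sheet which is bounded near `c`.
Proof. Let `O = {p : Γ | p.1.1 ∈ Om S ∧ p.1.2 = s i p.1.1}` (open: `IsSec.isOpen_sheet`, `isOpen_Om`) and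
`f p = Circle.exp (2π min 1 (rho c p.1.1 / ε))`, continuous on all of `Γ` (`continuous_rho`). Apply `continuous_glue` with `y₀ = 1`
and `g p = if p ∈ O then f p else 1`. For `x ∉ O` we must show `Tendsto f (𝓝[O] x) (𝓝 1)`. If `x` is not in the closure of `O`
then `𝓝[O] x = ⊥`. Otherwise `x.1.1 ∉ Om S`: indeed if `x.1.1 ∈ Om S` then `x.1.2 = s j x.1.1` for some `j` (`hs.mem_iff`), `j ≠ i`
as `x ∉ O`, and the sheet `j` is an open neighbourhood of `x` disjoint from `O` (`hs.inj`). So `rho c' x.1.1 ≤ 0`, hence `= 0`,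
for some `c' ∈ S`. If `c' = c` then `f x = Circle.exp 0 = 1`. If `c' ≠ c` then `|x.1.1.im - c'.im| ≤ rho c' x.1.1 = 0 < 2ε` so by
`Sep.im_far` (with roles `c := c'`, `c' := c`) `2ε < |x.1.1.im - c.im| ≤ rho c x.1.1`, so `min 1 _ = 1` and
`f x = Circle.exp (2π) = 1` (`Circle.exp_two_pi`). In both cases `f x = 1` and `f` is continuous at `x`, so
`Tendsto f (𝓝[O] x) (𝓝 1)`. -/
theorem exists_near_fun {Γ : Set (ℂ × ℂ)} {S : Finset ℂ} {n : ℕ} {ε : ℝ} (hS : Sep S ε)
    {s : Fin n → ℂ → ℂ} (hs : IsSec Γ (Om S) n s) {c : ℂ} (hc : c ∈ S) (i : Fin n) :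
    ∃ φ : C(Γ, Circle),
      (∀ p : Γ, p.1.1 ∈ Om S → p.1.2 = s i p.1.1 →
        φ p = Circle.exp (2 * π * min 1 (rho c p.1.1 / ε))) ∧
      (∀ p : Γ, ¬ (p.1.1 ∈ Om S ∧ p.1.2 = s i p.1.1) → φ p = 1) := by
  classical
  set O : Set Γ := {p | p.1.1 ∈ Om S ∧ p.1.2 = s i p.1.1} with hO
  have hOo : IsOpen O := hs.isOpen_sheet (isOpen_Om S) i
  set f : Γ → Circle := fun p => Circle.exp (2 * π * min 1 (rho c p.1.1 / ε)) with hf
  have hfc : Continuous f := by
    have h1 : Continuous fun p : Γ => rho c p.1.1 :=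
      (continuous_rho c).comp (continuous_fst.comp continuous_subtype_val)
    exact Circle.exp.continuous.comp (by fun_prop)
  have hε := hS.1
  have hg : Continuous (fun p : Γ => if p ∈ O then f p else 1) := by
    refine continuous_glue O hOo f _ 1 hfc.continuousOn ?_ (fun x hx => if_pos hx)
      (fun x hx => if_neg hx)
    intro x hx
    by_cases hxS : x.1.1 ∈ Om S
    · obtain ⟨j, hj⟩ := (hs.mem_iff x.1.1 hxS x.1.2).1 x.2
      have hji : j ≠ i := by
        rintro rfl
        exact hx ⟨hxS, hj.symm⟩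
      have h1 : {p : Γ | p.1.1 ∈ Om S ∧ p.1.2 = s j p.1.1} ∈ 𝓝 x :=
        (hs.isOpen_sheet (isOpen_Om S) j).mem_nhds ⟨hxS, hj.symm⟩
      have h2 : 𝓝[O] x = ⊥ := by
        rw [← Filter.empty_mem_iff_bot, mem_nhdsWithin_iff_exists_mem_nhds_inter]
        refine ⟨_, h1, ?_⟩
        rintro p ⟨⟨hp1, hp2⟩, hp3, hp4⟩
        exact hji (hs.inj _ hp1 j i (hp2.symm.trans hp4))
      rw [h2]
      exact tendsto_bot
    · have hfx : f x = 1 := by
        have h1 : ∃ c' ∈ S, rho c' x.1.1 ≤ 0 := by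
          by_contra hcon
          push Not at hcon
          exact hxS hcon
        obtain ⟨c', hc', h0⟩ := h1
        by_cases hcc : c' = c
        · subst hcc
          have h2 : rho c' x.1.1 = 0 := le_antisymm h0 (rho_nonneg _ _)
          show Circle.exp (2 * π * min 1 (rho c' x.1.1 / ε)) = 1
          rw [h2, zero_div, min_eq_right zero_le_one, mul_zero, Circle.exp_zero]
        · have h2 : |x.1.1.im - c'.im| < 2 * ε := by
            have := abs_im_le_rho c' x.1.1
            linarith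
          have h3 := hS.im_far hc' hc hcc h2
          have h4 := abs_im_le_rho c x.1.1
          have h5 : 1 ≤ rho c x.1.1 / ε := by
            rw [le_div_iff₀ hε]
            linarith
          show Circle.exp (2 * π * min 1 (rho c x.1.1 / ε)) = 1
          rw [min_eq_left h5, mul_one, Circle.exp_two_pi]
      rw [← hfx]
      exact hfc.continuousAt.tendsto.mono_left nhdsWithin_le_nhds
  exact ⟨⟨_, hg⟩, fun p h1 h2 => if_pos ⟨h1, h2⟩, fun p h => if_neg h⟩




open Filter Topology Real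

private theorem Glue2_aux1 (s T ε : ℝ) (hm : 0 < min s ε) (h : min s ε ≤ |T|) :
    Circle.exp (π - π * max (-1) (min 1 (T / min s ε))) = 1 := by
  rcases le_or_gt 0 T with hT | hT
  · rw [abs_of_nonneg hT] at h
    have h1 : 1 ≤ T / min s ε := by rwa [one_le_div hm]
    rw [min_eq_left h1, max_eq_right (by norm_num : (-1 : ℝ) ≤ 1)]
    simp
  · rw [abs_of_neg hT] at h
    have h1 : T / min s ε ≤ -1 := by
      rw [div_le_iff₀ hm]
      linarith
    rw [min_eq_right (by linarith : T / min s ε ≤ 1), max_eq_left h1]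
    have h2 : π - π * (-1) = 2 * π := by ring
    rw [h2, Circle.exp_two_pi]

/-- (GLUE-3) The function attached to a lift of the half strip which is unbounded near `c`. 
Proof. `O = {p : Γ | p.1.1 ∈ Bx c ε ∧ p.1.2 = t i p.1.1}` (open: `IsSec.isOpen_sheet`, `isOpen_Bx`),
`f p = Circle.exp (π - π * max (-1) (min 1 (T / min s ε)))` with `s = p.1.1.re - c.re`, `T = p.1.1.im - c.im`; on `O` we have
`s > 0`, so `min s ε > 0` and `f` is continuous on `O` (`ContinuousOn.div`). Apply `continuous_glue` with `y₀ = 1`,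
`g p = if p ∈ O then f p else 1`. Let `x ∉ O`, `s₀ = x.1.1.re - c.re`, `T₀ = x.1.1.im - c.im`. Note first: (*) if `0 < min s ε ≤ |T|` then
the value `π - π * max (-1) (min 1 (T / min s ε))` is `0` (if `T > 0`) or `2π` (if `T < 0`), so `f p = 1`.
If `x` is not in the closure of `O`, `𝓝[O] x = ⊥`. Assume it is in the closure. Then (closedness of `≤` conditions) `0 ≤ s₀`,
`|T₀| ≤ 2ε`. Also `x.1.1 ∉ Bx c ε` (otherwise `x` is on another sheet `j ≠ i`, an open neighbourhood of `x` disjoint from `O`, by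
`ht.mem_iff`, `ht.inj`). So `s₀ = 0` or `|T₀| = 2ε`. If `T₀ ≠ 0`: in both cases `min s₀ ε < |T₀|` (if `s₀ = 0` it is `0`, if `|T₀| = 2ε` it is
`≤ ε < 2ε`), so by continuity `min s ε < |T|` for `p` near `x`, so by (*) `f p = 1` for `p ∈ O` near `x`: the limit is `1`
(`tendsto_const_nhds.congr'`). If `T₀ = 0`: then `|T₀| = 2ε` is impossible, so `s₀ = 0` and `x.1.1 = c`; then `‖x.1.2‖ < M` by `hM`; near `x`
in `Γ` we have `‖p.1.2‖ < M` and `p.1.1 ∈ ball c δ`, so by `hfar` no such `p` is in `O`: contradiction with `x ∈ closure O`. -/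
theorem exists_far_fun {Γ : Set (ℂ × ℂ)} {n : ℕ} {ε : ℝ} (hε : 0 < ε)
    {c : ℂ} {t : Fin n → ℂ → ℂ} (ht : IsSec Γ (Bx c ε) n t) (i : Fin n)
    (M δ : ℝ) (hδ : 0 < δ) (hM : ∀ y, (c, y) ∈ Γ → ‖y‖ < M)
    (hfar : ∀ z ∈ Bx c ε ∩ Metric.ball c δ, M < ‖t i z‖) :
    ∃ φ : C(Γ, Circle),
      (∀ p : Γ, p.1.1 ∈ Bx c ε → p.1.2 = t i p.1.1 →
        φ p = Circle.exp (π - π * max (-1) (min 1
          ((p.1.1.im - c.im) / min (p.1.1.re - c.re) ε)))) ∧
      (∀ p : Γ, ¬ (p.1.1 ∈ Bx c ε ∧ p.1.2 = t i p.1.1) → φ p = 1) := by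
  classical
  set O : Set Γ := {p : Γ | p.1.1 ∈ Bx c ε ∧ p.1.2 = t i p.1.1} with hOdef
  have hO : IsOpen O := ht.isOpen_sheet (isOpen_Bx c ε) i
  have hfst : Continuous (fun p : Γ => p.1.1) := continuous_fst.comp continuous_subtype_val
  have hsnd : Continuous (fun p : Γ => p.1.2) := continuous_snd.comp continuous_subtype_val
  have hs : Continuous (fun p : Γ => p.1.1.re - c.re) :=
    (Complex.continuous_re.comp hfst).sub continuous_const
  have hT : Continuous (fun p : Γ => p.1.1.im - c.im) :=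
    (Complex.continuous_im.comp hfst).sub continuous_const
  have hmin : Continuous (fun p : Γ => min (p.1.1.re - c.re) ε) := hs.min continuous_const
  let f : Γ → Circle := fun p => Circle.exp (π - π * max (-1) (min 1
          ((p.1.1.im - c.im) / min (p.1.1.re - c.re) ε)))
  let g : Γ → Circle := fun p => if p ∈ O then f p else 1
  have hpos : ∀ p ∈ O, 0 < min (p.1.1.re - c.re) ε := by
    rintro p ⟨h1, -⟩
    exact lt_min (sub_pos.mpr h1.1) hε
  have hf : ContinuousOn f O := by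
    have h1 : ContinuousOn (fun p : Γ => (p.1.1.im - c.im) / min (p.1.1.re - c.re) ε) O :=
      hT.continuousOn.div hmin.continuousOn (fun p hp => (hpos p hp).ne')
    have h2 : Continuous (fun v : ℝ => Circle.exp (π - π * max (-1) (min 1 v))) := by
      fun_prop
    exact h2.comp_continuousOn h1
  have hb : ∀ x, x ∉ O → Tendsto f (𝓝[O] x) (𝓝 1) := by
    intro x hx
    by_cases hcl : x ∈ closure O
    swap
    · have : 𝓝[O] x = ⊥ := by
        rw [mem_closure_iff_nhdsWithin_neBot, not_neBot] at hcl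
        exact hcl
      rw [this]
      exact tendsto_bot
    have hs0 : 0 ≤ x.1.1.re - c.re := by
      have hc1 : IsClosed {p : Γ | 0 ≤ p.1.1.re - c.re} := isClosed_le continuous_const hs
      exact (hc1.closure_subset_iff.mpr (fun p hp => (sub_pos.mpr hp.1.1).le)) hcl
    have hxB : x.1.1 ∉ Bx c ε := by
      intro hxB
      obtain ⟨j, hj⟩ := (ht.mem_iff x.1.1 hxB x.1.2).mp x.2
      have hO' : IsOpen {p : Γ | p.1.1 ∈ Bx c ε ∧ p.1.2 = t j p.1.1} :=
        ht.isOpen_sheet (isOpen_Bx c ε) j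
      obtain ⟨p, hp1, hp2⟩ := mem_closure_iff.mp hcl _ hO' ⟨hxB, hj.symm⟩
      have hij : i = j := ht.inj p.1.1 hp1.1 i j (hp2.2.symm.trans hp1.2)
      subst hij
      exact hx ⟨hxB, hj.symm⟩
    by_cases hT0 : x.1.1.im - c.im = 0
    · exfalso
      have hs0' : x.1.1.re - c.re = 0 := by
        by_contra hne
        have hp : 0 < x.1.1.re - c.re := lt_of_le_of_ne hs0 (Ne.symm hne)
        apply hxB
        refine ⟨by linarith, ?_⟩
        rw [hT0, abs_zero]
        linarith
      have hxc : x.1.1 = c := Complex.ext (by linarith) (by linarith)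
      have hxM : ‖x.1.2‖ < M := by
        apply hM
        have := x.2
        rw [← hxc]
        exact this
      have hN : IsOpen ({p : Γ | ‖p.1.2‖ < M} ∩ (fun p : Γ => p.1.1) ⁻¹' Metric.ball c δ) :=
        (isOpen_lt hsnd.norm continuous_const).inter (Metric.isOpen_ball.preimage hfst)
      obtain ⟨p, ⟨hp1, hp2⟩, hp3⟩ := mem_closure_iff.mp hcl _ hN ⟨hxM, by
        simp only [Set.mem_preimage]
        rw [hxc]
        exact Metric.mem_ball_self hδ⟩
      have h1 := hfar p.1.1 ⟨hp3.1, hp2⟩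
      rw [← hp3.2] at h1
      have h2 : ‖p.1.2‖ < M := hp1
      linarith
    · have hlt : min (x.1.1.re - c.re) ε < |x.1.1.im - c.im| := by
        rcases eq_or_lt_of_le hs0 with h | h
        · calc min (x.1.1.re - c.re) ε ≤ x.1.1.re - c.re := min_le_left _ _
            _ = 0 := h.symm
            _ < _ := abs_pos.mpr hT0
        · have h2 : 2 * ε ≤ |x.1.1.im - c.im| := by
            by_contra hcon
            exact hxB ⟨by linarith, not_le.mp hcon⟩
          calc min (x.1.1.re - c.re) ε ≤ ε := min_le_right _ _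
            _ < 2 * ε := by linarith
            _ ≤ _ := h2
      have hev : ∀ᶠ p in 𝓝[O] x, (1 : Circle) = f p := by
        have h1 : ∀ᶠ p in 𝓝 x, min ((p : Γ).1.1.re - c.re) ε < |p.1.1.im - c.im| :=
          (isOpen_lt hmin hT.abs).mem_nhds hlt
        filter_upwards [nhdsWithin_le_nhds h1, self_mem_nhdsWithin] with p hp1 hp2
        exact (Glue2_aux1 _ _ _ (hpos p hp2) hp1.le).symm
      exact tendsto_const_nhds.congr' hev
  have hg : Continuous g := by
    refine continuous_glue O hO f g 1 hf hb ?_ ?_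
    · intro x hx
      exact if_pos hx
    · intro x hx
      exact if_neg hx
  refine ⟨⟨g, hg⟩, ?_, ?_⟩
  · intro p h1 h2
    exact if_pos (show p ∈ O from ⟨h1, h2⟩)
  · intro p h
    exact if_neg h


end Pool.Agent.LZ
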