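import Pool.Agent.Lib.MP_79da24_ag.Defs

set_option autoImplicit false

/-!
# Homeomorphism invariance of the Betti number.
-/

namespace Pool.Agent.LZ

open CategoryTheory

theorem rank_H1Q_homeo {X Y : Type} [TopologicalSpace X] [TopologicalSpace Y] (e : X ≃ₜ Y) :
    Module.rank ℚ (H1Q X) = Module.rank ℚ (H1Q Y) := by
  let i : TopCat.of X ≅ TopCat.of Y := TopCat.isoOfHomeo e
  let j : H1Q X ≅ H1Q Y := (((AlgebraicTopology.singularHomologyFunctor (ModuleCat.{0} ℚ) 1).obj
    (ModuleCat.of ℚ ℚ))).mapIso i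
  exact j.toLinearEquiv.rank_eq

end Pool.Agent.LZ
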