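import Pool.Agent.Lib.MP_79da24_ag.Geo

set_option autoImplicit false

/-!
# Local behaviour near a point of the exceptional set.
-/

namespace Pool.Agent.LZ


open Filter Topology

private theorem Loc_gap {Γ : Set (ℂ × ℂ)} (hΓ : IsClosed Γ) (c y₀ : ℂ) (ρ : ℝ)
    (h : ∀ y, (c, y) ∈ Γ → ‖y - y₀‖ ≠ ρ) :
    ∃ δ : ℝ, 0 < δ ∧ ∀ z ∈ Metric.ball c δ, ∀ y, (z, y) ∈ Γ → ‖y - y₀‖ ≠ ρ := by
  have h1 : ({c} : Set ℂ) ×ˢ Metric.sphere y₀ ρ ⊆ Γᶜ := by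
    rintro ⟨z, y⟩ ⟨hz, hy⟩ h2
    have hz' : z = c := hz
    subst hz'
    exact h y h2 (mem_sphere_iff_norm.1 hy)
  obtain ⟨u, v, hu, -, hcu, hsv, huv⟩ :=
    generalized_tube_lemma isCompact_singleton (isCompact_sphere y₀ ρ) hΓ.isOpen_compl h1
  obtain ⟨δ, hδ, hδu⟩ := Metric.isOpen_iff.1 hu c (hcu rfl)
  refine ⟨δ, hδ, fun z hz y hy h2 => ?_⟩
  exact huv (Set.mk_mem_prod (hδu hz) (hsv (mem_sphere_iff_norm.2 h2))) hy

private theorem Loc_nf {X : Type} [TopologicalSpace X] {T : Set X} (hT : IsPreconnected T) {g : X → ℝ}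
    (hg : ContinuousOn g T) (M : ℝ) (hM : ∀ z ∈ T, g z ≠ M) : (∀ z ∈ T, g z < M) ∨ (∀ z ∈ T, M < g z) := by
  by_contra h
  rw [not_or] at h
  obtain ⟨h1, h2⟩ := h
  push Not at h1 h2
  obtain ⟨a, ha, ha'⟩ := h1
  obtain ⟨b, hb, hb'⟩ := h2
  obtain ⟨z, hz, hz'⟩ := hT.intermediate_value hb ha hg ⟨hb', ha'⟩
  exact hM z hz hz'

/-- (LOC-1)
Proof. Let `M > 0` be larger than `‖y‖` for all `y` of the finite fibre (e.g. `1 + ∑ ‖y‖` or a bound from `Set.Finite.bddAbove`).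
The sphere `K = Metric.sphere 0 M` in `ℂ` is compact and `{c} ×ˢ K` does not meet the closed set `Γ`. By the tube lemma
(`generalized_tube_lemma`, `isCompact_singleton`, `isCompact_sphere`, open set `Γᶜ`) there is an open `D ∋ c` with `D ×ˢ K ⊆ Γᶜ`;
take `δ ≤ δ₀` with `ball c δ ⊆ D`. -/
theorem exists_gap {Γ : Set (ℂ × ℂ)} (hΓ : IsClosed Γ) (c : ℂ)
    (hfin : {y : ℂ | (c, y) ∈ Γ}.Finite) (δ₀ : ℝ) (hδ₀ : 0 < δ₀) :
    ∃ M δ : ℝ, 0 < δ ∧ δ ≤ δ₀ ∧ (∀ y, (c, y) ∈ Γ → ‖y‖ < M) ∧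
      ∀ z ∈ Metric.ball c δ, ∀ y, (z, y) ∈ Γ → ‖y‖ ≠ M := by
  obtain ⟨B, hB⟩ := (hfin.image fun y : ℂ => ‖y‖).bddAbove
  have h1 : ∀ y, (c, y) ∈ Γ → ‖y‖ < B + 1 := fun y hy =>
    lt_of_le_of_lt (hB (Set.mem_image_of_mem (fun y : ℂ => ‖y‖) hy)) (lt_add_one B)
  obtain ⟨δ, hδ, h2⟩ := Loc_gap hΓ c 0 (B + 1) fun y hy => by
    rw [sub_zero]
    exact (h1 y hy).ne
  refine ⟨B + 1, min δ δ₀, lt_min hδ hδ₀, min_le_right _ _, h1, fun z hz y hy => ?_⟩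
  have h3 := h2 z (Metric.ball_subset_ball (min_le_left _ _) hz) y hy
  rwa [sub_zero] at h3

/-- (LOC-2)
Proof. `f '' T`, or the image of `T` under `z ↦ ‖f z‖`, is preconnected in `ℝ`, hence order connected, and does not contain `M`.
If both kinds of values occurred, `M` would be a value (intermediate value theorem, `IsPreconnected.intermediate_value`). -/
theorem near_or_far {T : Set ℂ} (hT : IsPreconnected T) {f : ℂ → ℂ} (hf : ContinuousOn f T)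
    (M : ℝ) (hM : ∀ z ∈ T, ‖f z‖ ≠ M) : (∀ z ∈ T, ‖f z‖ < M) ∨ (∀ z ∈ T, M < ‖f z‖) :=
  Loc_nf hT hf.norm M hM

/-- (LOC-3) A bounded branch converges as `s → 0+`, as the fibre over `c` is finite.
Proof. Let `Y = {y | (c, y) ∈ Γ}` (finite). Step 1: for every open `O ⊇ Y` there is `η ∈ (0, δ)` with `f s ∈ O` for all
`s ∈ (0, η)`: `K = closedBall 0 M \ O` is compact and `{c} ×ˢ K` is disjoint from the closed `Γ`, so by the tube lemma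
(`generalized_tube_lemma`) `(c - s, y) ∉ Γ` for small `s` and `y ∈ K`; but `(c - s, f s) ∈ Γ` and `‖f s‖ ≤ M`.
(In particular `Y` is nonempty: take `O = ∅`.) Step 2: choose a cluster point: by step 1 with `O_ρ = ⋃_{y ∈ Y} ball y ρ` and `ρ`
less than half of the minimal distance of distinct points of `Y`, for `s ∈ (0, η)` we have `f s ∈ O_ρ`; the balls are disjoint and
open, and `f '' (0, η)` is preconnected, so `f s` lies in a single ball `ball y₀ ρ₀` for all `s ∈ (0, η₀)` (fix this `ρ₀`, `y₀`).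
Step 3: for every `0 < ρ ≤ ρ₀`, step 1 gives `η` with `f s ∈ O_ρ` on `(0, η)`; a point of `O_ρ ∩ ball y₀ ρ₀` lies in `ball y₀ ρ`
(otherwise it is in `ball y ρ ⊆ ball y ρ₀` with `y ≠ y₀`, disjoint from `ball y₀ ρ₀`). So `f s → y₀`.
(Alternative proof: the cluster points of `f` along `𝓝[>] 0` form a nonempty connected set contained in the finite set `Y`.) -/
theorem exists_limit {Γ : Set (ℂ × ℂ)} (hΓ : IsClosed Γ) (c : ℂ)
    (hfin : {y : ℂ | (c, y) ∈ Γ}.Finite) (f : ℝ → ℂ) (δ M : ℝ) (hδ : 0 < δ)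
    (hf : ContinuousOn f (Set.Ioo 0 δ))
    (hmem : ∀ s ∈ Set.Ioo 0 δ, (c - (s : ℂ), f s) ∈ Γ) (hM : ∀ s ∈ Set.Ioo 0 δ, ‖f s‖ ≤ M) :
    ∃ y, (c, y) ∈ Γ ∧ Tendsto f (𝓝[>] 0) (𝓝 y) := by
  have hI : Set.Ioo (0 : ℝ) δ ∈ 𝓝[>] (0 : ℝ) := Ioo_mem_nhdsGT hδ
  -- a cluster point
  have h1 : map f (𝓝[>] (0 : ℝ)) ≤ 𝓟 (Metric.closedBall (0 : ℂ) M) := by
    rw [le_principal_iff, mem_map]
    filter_upwards [hI] with s hs
    exact mem_closedBall_zero_iff.2 (hM s hs)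
  obtain ⟨y₀, -, hy₀⟩ := isCompact_closedBall (0 : ℂ) M h1
  have h2 : ∀ V ∈ 𝓝 y₀, ∃ᶠ s in 𝓝[>] (0 : ℝ), f s ∈ V := mapClusterPt_iff_frequently.1 hy₀
  have hlim : Tendsto (fun s : ℝ => c - (s : ℂ)) (𝓝[>] 0) (𝓝 c) := by
    have h3 : Tendsto (fun s : ℝ => c - (s : ℂ)) (𝓝 0) (𝓝 (c - ((0 : ℝ) : ℂ))) :=
      (continuous_const.sub Complex.continuous_ofReal).tendsto 0
    rw [Complex.ofReal_zero, sub_zero] at h3
    exact h3.mono_left nhdsWithin_le_nhds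
  have h3 : (c, y₀) ∈ Γ := by
    by_contra hn
    have h4 : Γᶜ ∈ 𝓝 (c, y₀) := hΓ.isOpen_compl.mem_nhds hn
    obtain ⟨U, hU, V, hV, hUV⟩ := mem_nhds_prod_iff.1 h4
    obtain ⟨s, h5, h6, h7⟩ := ((h2 V hV).and_eventually ((hlim.eventually hU).and hI)).exists
    exact hUV (Set.mk_mem_prod h6 h5) (hmem s h7)
  refine ⟨y₀, h3, ?_⟩
  rw [Metric.tendsto_nhds]
  intro ε hε
  -- a radius which is not the distance of a point of the fibre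
  obtain ⟨ρ, ⟨hρ0, hρε⟩, hρ⟩ : ∃ ρ ∈ Set.Ioo (0 : ℝ) ε, ρ ∉ (fun y : ℂ => ‖y - y₀‖) '' {y : ℂ | (c, y) ∈ Γ} := by
    by_contra hn
    push Not at hn
    exact (Set.Ioo_infinite hε) ((hfin.image fun y : ℂ => ‖y - y₀‖).subset hn)
  obtain ⟨η, hη, h4⟩ := Loc_gap hΓ c y₀ ρ fun y hy h5 => hρ ⟨y, hy, h5⟩
  have hm : 0 < min δ η := lt_min hδ hη
  have h5 : ∀ s ∈ Set.Ioo 0 (min δ η), ‖f s - y₀‖ ≠ ρ := by
    intro s hs
    refine h4 (c - (s : ℂ)) ?_ (f s) (hmem s ⟨hs.1, hs.2.trans_le (min_le_left _ _)⟩)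
    rw [mem_ball_iff_norm, sub_sub_cancel_left, norm_neg, Complex.norm_real, Real.norm_of_nonneg hs.1.le]
    exact hs.2.trans_le (min_le_right _ _)
  have h6 : ContinuousOn (fun s => ‖f s - y₀‖) (Set.Ioo 0 (min δ η)) :=
    ((hf.mono (Set.Ioo_subset_Ioo_right (min_le_left _ _))).sub continuousOn_const).norm
  have hI' : Set.Ioo (0 : ℝ) (min δ η) ∈ 𝓝[>] (0 : ℝ) := Ioo_mem_nhdsGT hm
  rcases Loc_nf isPreconnected_Ioo h6 ρ h5 with h7 | h7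
  · filter_upwards [hI'] with s hs
    rw [dist_eq_norm]
    exact (h7 s hs).trans hρε
  · exfalso
    obtain ⟨s, h8, h9⟩ := ((h2 _ (Metric.ball_mem_nhds y₀ hρ0)).and_eventually hI').exists
    rw [mem_ball_iff_norm] at h8
    exact lt_asymm h8 (h7 s h9)


end Pool.Agent.LZ
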