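import Pool.Agent.Lib.MP_79da24_ag.Slit
import Pool.Agent.Lib.MP_79da24_ag.Sect
import Pool.Agent.Lib.MP_79da24_ag.Loc
import Pool.Agent.Lib.MP_79da24_ag.Glue
import Pool.Agent.Lib.MP_79da24_ag.GB
import Pool.Agent.Lib.MP_79da24_ag.HI

set_option autoImplicit false

/-!
# The lower bound for the first Betti number.
-/

namespace Pool.Agent.LZ


open Filter Topology Real

theorem clamp_one {s ε T : ℝ} (hs : 0 < s) (hε : 0 < ε) (hT : min s ε ≤ |T|) :
    Circle.exp (π - π * max (-1) (min 1 (T / min s ε))) = 1 := by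
  have hm : 0 < min s ε := lt_min hs hε
  rcases le_or_gt 0 T with h | h
  · rw [abs_of_nonneg h] at hT
    have h1 : 1 ≤ T / min s ε := by rwa [le_div_iff₀ hm, one_mul]
    rw [min_eq_left h1, max_eq_right (by norm_num)]
    simp
  · rw [abs_of_neg h] at hT
    have h1 : T / min s ε ≤ -1 := by rw [div_le_iff₀ hm]; linarith
    rw [min_eq_right (h1.trans (by norm_num)), max_eq_left h1]
    rw [show π - π * -1 = 2 * π by ring]
    exact Circle.exp_two_pi

theorem exp_min_one {r ε : ℝ} (hε : 0 < ε) (h : ε ≤ r) :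
    Circle.exp (2 * π * min 1 (r / ε)) = 1 := by
  have h1 : 1 ≤ r / ε := by rwa [le_div_iff₀ hε, one_mul]
  rw [min_eq_left h1, mul_one]
  exact Circle.exp_two_pi

theorem nonempty_Om0 (S : Finset ℂ) (ε : ℝ) : (Om0 S ε).Nonempty := by
  obtain ⟨A, hA⟩ : ∃ A : ℝ, ∀ c ∈ S, A ≤ c.re - ε := by
    obtain ⟨A, hA⟩ := (S.image (fun c : ℂ => c.re - ε)).bddBelow
    exact ⟨A, fun c hc => hA (Finset.mem_coe.mpr (Finset.mem_image_of_mem _ hc))⟩
  refine ⟨(A : ℂ), fun c hc => ?_⟩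
  have h1 := re_le_rho c (A : ℂ)
  have h2 := hA c hc
  rw [Complex.ofReal_re] at h1
  linarith

/-- paths of the base lift to paths in a sheet -/
theorem joinedIn_sheet {Γ : Set (ℂ × ℂ)} {S : Finset ℂ} {n : ℕ} {ε : ℝ} (hε : 0 < ε)
    {s : Fin n → ℂ → ℂ} (hs : IsSec Γ (Om S) n s) (A : Set Γ)
    (hA : ∀ p : Γ, p.1.1 ∈ Om0 S ε → p ∈ A) (i : Fin n) {z z' : ℂ} (hz : z ∈ Om0 S ε)
    (hz' : z' ∈ Om0 S ε) (p p' : Γ) (hp : p.1 = (z, s i z)) (hp' : p'.1 = (z', s i z')) :
    JoinedIn A p p' := by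
  have hsub := Om0_subset_Om S ε hε
  obtain ⟨γ, hγ⟩ := joinedIn_Om0 S ε hz hz'
  have hcont : Continuous fun u => s i (γ u) :=
    (hs.cont i).comp_continuous γ.continuous (fun u => hsub (hγ u))
  have hmem : ∀ u, (γ u, s i (γ u)) ∈ Γ := fun u => hs.mem (hsub (hγ u)) i
  refine ⟨⟨⟨fun u => ⟨(γ u, s i (γ u)), hmem u⟩, ?_⟩, ?_, ?_⟩, ?_⟩
  · exact Continuous.subtype_mk (γ.continuous.prodMk hcont) _
  · apply Subtype.ext
    simp only [hp]
    rw [γ.source]
  · apply Subtype.ext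
    simp only [hp']
    rw [γ.target]
  · intro u
    exact hA _ (hγ u)

theorem sub_mem_Om {S : Finset ℂ} {ε : ℝ} (hS : Sep S ε) {c : ℂ} (hc : c ∈ S) {r : ℝ}
    (hr : 0 < r) : c - (r : ℂ) ∈ Om S := by
  intro c' hc'
  by_cases h : c = c'
  · subst h
    have h1 := re_le_rho c (c - (r : ℂ))
    simp only [Complex.sub_re, Complex.ofReal_re] at h1
    linarith
  · have h1 := abs_im_le_rho c' (c - (r : ℂ))
    have h2 := hS.2 c hc c' hc' h
    simp only [Complex.sub_im, Complex.ofReal_im, sub_zero] at h1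
    linarith [hS.1]

theorem near_path {Γ : Set (ℂ × ℂ)} {S : Finset ℂ} {n : ℕ} {ε : ℝ} (hS : Sep S ε)
    {s : Fin n → ℂ → ℂ} (hs : IsSec Γ (Om S) n s) (hΓ : IsClosed Γ) {c : ℂ} (hc : c ∈ S)
    (hfin : {y : ℂ | (c, y) ∈ Γ}.Finite) (M δ : ℝ) (hδ : 0 < δ) (i : Fin n)
    (hnear : ∀ z ∈ Metric.ball c δ ∩ Om S, ‖s i z‖ < M) :
    ∃ (y : ℂ) (γ : C(unitInterval, Γ)), (c, y) ∈ Γ ∧
      (γ 1).1 = (c, y) ∧ ∀ u : unitInterval, u ≠ 1 →
        (γ u).1 = (c - ((ε * (1 - (u : ℝ)) : ℝ) : ℂ), s i (c - ((ε * (1 - (u : ℝ)) : ℝ) : ℂ))) := by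
  have hcont0 : ContinuousOn (fun r : ℝ => s i (c - (r : ℂ))) (Set.Ioi 0) :=
    (hs.cont i).comp (by fun_prop) (fun r hr => sub_mem_Om hS hc hr)
  obtain ⟨y, hy, hlim⟩ := exists_limit hΓ c hfin (fun r => s i (c - (r : ℂ))) δ M hδ
    (hcont0.mono (fun r hr => hr.1))
    (fun r hr => hs.mem (sub_mem_Om hS hc hr.1) i)
    (fun r hr => by
      refine (hnear _ ⟨?_, sub_mem_Om hS hc hr.1⟩).le
      rw [Metric.mem_ball, dist_eq_norm]
      simp only [sub_sub_cancel_left, norm_neg, Complex.norm_real, Real.norm_eq_abs]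
      rw [abs_of_pos hr.1]
      exact hr.2)
  classical
  let F : ℝ → ℂ := fun r => if r ≤ 0 then y else s i (c - (r : ℂ))
  have hF0 : F 0 = y := by simp [F]
  have hF1 : ∀ r, 0 < r → F r = s i (c - (r : ℂ)) := fun r hr => by simp [F, not_le.mpr hr]
  have hFc : ContinuousOn F (Set.Ici 0) := by
    intro r hr
    rcases eq_or_lt_of_le (show (0 : ℝ) ≤ r from hr) with h | h
    · subst h
      rw [← continuousWithinAt_Ioi_iff_Ici, ContinuousWithinAt, hF0]
      refine hlim.congr' ?_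
      filter_upwards [self_mem_nhdsWithin] with r hr
      rw [hF1 r hr]
    · have h1 : ContinuousAt (fun r : ℝ => s i (c - (r : ℂ))) r :=
        hcont0.continuousAt (Ioi_mem_nhds h)
      refine (h1.congr ?_).continuousWithinAt
      filter_upwards [Ioi_mem_nhds h] with r hr
      rw [hF1 r hr]
  have hε := hS.1
  have hmem : ∀ u : unitInterval,
      (c - ((ε * (1 - (u : ℝ)) : ℝ) : ℂ), F (ε * (1 - (u : ℝ)))) ∈ Γ := by
    intro u
    rcases eq_or_lt_of_le (show (0 : ℝ) ≤ ε * (1 - (u : ℝ)) from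
      mul_nonneg hε.le (by linarith [u.2.2])) with h | h
    · rw [← h, hF0]
      simpa using hy
    · rw [hF1 _ h]
      exact hs.mem (sub_mem_Om hS hc h) i
  refine ⟨y, ⟨fun u => ⟨_, hmem u⟩, ?_⟩, hy, ?_, ?_⟩
  · refine Continuous.subtype_mk (Continuous.prodMk (by fun_prop) ?_) _
    refine hFc.comp_continuous (by fun_prop) (fun u => ?_)
    exact mul_nonneg hε.le (by linarith [u.2.2])
  · show (c - ((ε * (1 - ((1 : unitInterval) : ℝ)) : ℝ) : ℂ), F (ε * (1 - ((1 : unitInterval) : ℝ)))) = (c, y)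
    simp [hF0]
  · intro u hu
    show (c - ((ε * (1 - (u : ℝ)) : ℝ) : ℂ), F (ε * (1 - (u : ℝ)))) = _
    rw [hF1]
    have h1 : (u : ℝ) < 1 := lt_of_le_of_ne u.2.2 (fun h => hu (Subtype.ext h))
    exact mul_pos hε (by linarith)

theorem cross_mem_Bx {c : ℂ} {ε T : ℝ} (hε : 0 < ε) (hT : |T| ≤ ε) :
    (⟨c.re + ε, c.im + T⟩ : ℂ) ∈ Bx c ε := by
  refine ⟨?_, ?_⟩
  · show c.re < c.re + ε
    linarith
  · show |c.im + T - c.im| < 2 * ε
    rw [add_sub_cancel_left]
    linarith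

theorem far_path {Γ : Set (ℂ × ℂ)} {n : ℕ} {ε : ℝ} (hε : 0 < ε) {c : ℂ}
    {t : Fin n → ℂ → ℂ} (ht : IsSec Γ (Bx c ε) n t) (j : Fin n) :
    ∃ γ : C(unitInterval, Γ), ∀ u : unitInterval,
        (γ u).1 = ((⟨c.re + ε, c.im + ε * (1 - 2 * (u : ℝ))⟩ : ℂ),
          t j (⟨c.re + ε, c.im + ε * (1 - 2 * (u : ℝ))⟩ : ℂ)) := by
  have hz : ∀ u : unitInterval, (⟨c.re + ε, c.im + ε * (1 - 2 * (u : ℝ))⟩ : ℂ) ∈ Bx c ε := by
    intro u
    apply cross_mem_Bx hε
    rw [abs_mul, abs_of_pos hε]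
    have h1 : |1 - 2 * (u : ℝ)| ≤ 1 := by
      rw [abs_le]
      constructor <;> linarith [u.2.1, u.2.2]
    nlinarith
  have hzc : Continuous fun u : unitInterval => (⟨c.re + ε, c.im + ε * (1 - 2 * (u : ℝ))⟩ : ℂ) := by
    have h1 : (fun u : unitInterval => (⟨c.re + ε, c.im + ε * (1 - 2 * (u : ℝ))⟩ : ℂ)) =
        fun u : unitInterval => ((c.re + ε : ℝ) : ℂ) + ((c.im + ε * (1 - 2 * (u : ℝ)) : ℝ) : ℂ) * Complex.I := by
      funext u
      apply Complex.ext <;> simp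
    rw [h1]
    fun_prop
  refine ⟨⟨fun u => ⟨_, ht.mem (hz u) j⟩, ?_⟩, fun u => rfl⟩
  exact Continuous.subtype_mk (hzc.prodMk ((ht.cont j).comp_continuous hzc hz)) _

/-- (RB-1) -/
theorem rank_bound_sep {Γ : Set (ℂ × ℂ)} {S : Finset ℂ} {n : ℕ} (hD : CovData Γ S n) {ε : ℝ}
    (hS : Sep S ε) :
    ((n * S.card + 1 : ℕ) : Cardinal) ≤ Module.rank ℚ (H1Q Γ) +
      ((n + ∑ c ∈ S, {y : ℂ | (c, y) ∈ Γ}.ncard : ℕ) : Cardinal) := by
  classical
  have hε := hS.1
  -- sections over the slit domain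
  have hcOm : ContractibleSpace (Om S) := contractible_Om S
  obtain ⟨s, hs⟩ := exists_sections hD (Om S) (isOpen_Om S) (nonempty_Om S) (Om_subset S)
    inferInstance
  -- sections over the half strips
  have ht0 : ∀ c : S, ∃ t : Fin n → ℂ → ℂ, IsSec Γ (Bx c ε) n t := by
    intro c
    have hcB : ContractibleSpace (Bx c ε) := contractible_Bx c ε hε
    exact exists_sections hD (Bx c ε) (isOpen_Bx c ε)
      ⟨_, cross_mem_Bx (T := 0) hε (by simp [hε.le])⟩ (Bx_subset hS c.2) inferInstance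
  choose t ht using ht0
  -- radii
  have hgap : ∀ c : S, ∃ M δ : ℝ, 0 < δ ∧ δ ≤ ε ∧ (∀ y, ((c : ℂ), y) ∈ Γ → ‖y‖ < M) ∧
      ∀ z ∈ Metric.ball (c : ℂ) δ, ∀ y, (z, y) ∈ Γ → ‖y‖ ≠ M :=
    fun c => exists_gap hD.closed c (hD.fin c c.2) ε hε
  choose M δ hδ hδε hM hgap using hgap
  -- upper and lower parts of the half strips
  let Tp : S → Set ℂ := fun c => Bx c ε ∩ {z | (c : ℂ).im < z.im}
  let Tm : S → Set ℂ := fun c => Bx c ε ∩ {z | z.im < (c : ℂ).im}
  have hTpO : ∀ c, Tp c ⊆ Om S := fun c z hz => Bx_Om hS c.2 hz.1 (ne_of_gt hz.2)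
  have hTmO : ∀ c, Tm c ⊆ Om S := fun c z hz => Bx_Om hS c.2 hz.1 (ne_of_lt hz.2)
  have hTpc : ∀ c, IsPreconnected (Tp c) := fun c =>
    ((convex_Bx c ε).inter (convex_halfSpace_im_gt _)).isPreconnected
  have hTmc : ∀ c, IsPreconnected (Tm c) := fun c =>
    ((convex_Bx c ε).inter (convex_halfSpace_im_lt _)).isPreconnected
  -- test points close to `c`
  let zp : S → ℂ := fun c => ⟨(c : ℂ).re + δ c / 4, (c : ℂ).im + δ c / 4⟩
  let zm : S → ℂ := fun c => ⟨(c : ℂ).re + δ c / 4, (c : ℂ).im - δ c / 4⟩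
  have hzp : ∀ c, zp c ∈ Tp c := by
    intro c
    refine ⟨⟨?_, ?_⟩, ?_⟩
    · show (c : ℂ).re < (c : ℂ).re + δ c / 4
      linarith [hδ c]
    · show |(c : ℂ).im + δ c / 4 - (c : ℂ).im| < 2 * ε
      rw [add_sub_cancel_left, abs_of_pos (by linarith [hδ c])]
      linarith [hδ c, hδε c]
    · show (c : ℂ).im < (c : ℂ).im + δ c / 4
      linarith [hδ c]
  have hzm : ∀ c, zm c ∈ Tm c := by
    intro c
    refine ⟨⟨?_, ?_⟩, ?_⟩
    · show (c : ℂ).re < (c : ℂ).re + δ c / 4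
      linarith [hδ c]
    · show |(c : ℂ).im - δ c / 4 - (c : ℂ).im| < 2 * ε
      rw [sub_sub_cancel_left, abs_neg, abs_of_pos (by linarith [hδ c])]
      linarith [hδ c, hδε c]
    · show (c : ℂ).im - δ c / 4 < (c : ℂ).im
      linarith [hδ c]
  have hball : ∀ (c : S) (z : ℂ), |z.re - (c : ℂ).re| ≤ δ c / 4 → |z.im - (c : ℂ).im| ≤ δ c / 4 →
      z ∈ Metric.ball (c : ℂ) (δ c) := by
    intro c z h1 h2
    rw [Metric.mem_ball, dist_eq_norm]
    have h3 := Complex.norm_le_abs_re_add_abs_im (z - c)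
    simp only [Complex.sub_re, Complex.sub_im] at h3
    linarith [hδ c]
  have hzpb : ∀ c : S, zp c ∈ Metric.ball (c : ℂ) (δ c) := by
    intro c
    apply hball
    · show |(c : ℂ).re + δ c / 4 - (c : ℂ).re| ≤ _
      rw [add_sub_cancel_left, abs_of_pos (by linarith [hδ c])]
    · show |(c : ℂ).im + δ c / 4 - (c : ℂ).im| ≤ _
      rw [add_sub_cancel_left, abs_of_pos (by linarith [hδ c])]
  have hzmb : ∀ c : S, zm c ∈ Metric.ball (c : ℂ) (δ c) := by
    intro c
    apply hball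
    · show |(c : ℂ).re + δ c / 4 - (c : ℂ).re| ≤ _
      rw [add_sub_cancel_left, abs_of_pos (by linarith [hδ c])]
    · show |(c : ℂ).im - δ c / 4 - (c : ℂ).im| ≤ _
      rw [sub_sub_cancel_left, abs_neg, abs_of_pos (by linarith [hδ c])]
  -- matchings
  have hup : ∀ (c : S) (i : Fin n), ∃ j, ∀ z ∈ Tp c, s i z = t c j z := fun c i =>
    (hs.mono (hTpO c)).match ((ht c).mono Set.inter_subset_left) (hTpc c) ⟨_, hzp c⟩ i
  choose up hup using hup
  have hlo : ∀ (c : S) (j : Fin n), ∃ i, ∀ z ∈ Tm c, t c j z = s i z := fun c j =>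
    ((ht c).mono Set.inter_subset_left).match (hs.mono (hTmO c)) (hTmc c) ⟨_, hzm c⟩ j
  choose lo hlo using hlo
  have hupinj : ∀ c i i', up c i = up c i' → i = i' := by
    intro c i i' h
    apply hs.inj _ (hTpO c (hzp c))
    rw [hup c i _ (hzp c), hup c i' _ (hzp c), h]
  -- near and far
  let Near : Fin n → S → Prop := fun i c => ∀ z ∈ Metric.ball (c : ℂ) (δ c) ∩ Om S, ‖s i z‖ < M c
  have hdich : ∀ i c, ¬ Near i c → ∀ z ∈ Metric.ball (c : ℂ) (δ c) ∩ Om S, M c < ‖s i z‖ := by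
    intro i c hn
    rcases near_or_far (preconnected_slitBall hS c.2 (hδ c) ((hδε c).trans (by linarith)))
      ((hs.cont i).mono Set.inter_subset_right) (M c)
      (fun z hz => hgap c z hz.1 _ (hs.mem hz.2 i)) with h | h
    · exact absurd h hn
    · exact h
  have hfarT : ∀ i c, ¬ Near i c → ∀ z ∈ Bx (c : ℂ) ε ∩ Metric.ball (c : ℂ) (δ c),
      M c < ‖t c (up c i) z‖ := by
    intro i c hn
    have hpc : IsPreconnected (Bx (c : ℂ) ε ∩ Metric.ball (c : ℂ) (δ c)) :=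
      ((convex_Bx c ε).inter (convex_ball _ _)).isPreconnected
    rcases near_or_far hpc (((ht c).cont (up c i)).mono Set.inter_subset_left) (M c)
      (fun z hz => hgap c z hz.2 _ ((ht c).mem hz.1 _)) with h | h
    · exfalso
      have h1 := h (zp c) ⟨(hzp c).1, hzpb c⟩
      rw [← hup c i _ (hzp c)] at h1
      have h2 := hdich i c hn (zp c) ⟨hzpb c, hTpO c (hzp c)⟩
      exact lt_asymm h1 h2
    · exact h
  have hfarlo : ∀ i c, ¬ Near i c → ¬ Near (lo c (up c i)) c := by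
    intro i c hn hn'
    have h1 := hfarT i c hn (zm c) ⟨(hzm c).1, hzmb c⟩
    have h2 := hn' (zm c) ⟨hzmb c, hTmO c (hzm c)⟩
    rw [← hlo c (up c i) _ (hzm c)] at h2
    exact lt_asymm h1 h2
  -- the functions
  have hfun : ∀ e : Fin n × S, ∃ φ : C(Γ, Circle),
      (Near e.1 e.2 →
        (∀ p : Γ, p.1.1 ∈ Om S → p.1.2 = s e.1 p.1.1 →
          φ p = Circle.exp (2 * π * min 1 (rho e.2 p.1.1 / ε))) ∧
        (∀ p : Γ, ¬ (p.1.1 ∈ Om S ∧ p.1.2 = s e.1 p.1.1) → φ p = 1)) ∧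
      (¬ Near e.1 e.2 →
        (∀ p : Γ, p.1.1 ∈ Bx (e.2 : ℂ) ε → p.1.2 = t e.2 (up e.2 e.1) p.1.1 →
          φ p = Circle.exp (π - π * max (-1) (min 1
            ((p.1.1.im - (e.2 : ℂ).im) / min (p.1.1.re - (e.2 : ℂ).re) ε)))) ∧
        (∀ p : Γ, ¬ (p.1.1 ∈ Bx (e.2 : ℂ) ε ∧ p.1.2 = t e.2 (up e.2 e.1) p.1.1) → φ p = 1)) := by
    intro e
    by_cases h : Near e.1 e.2
    · obtain ⟨φ, h1, h2⟩ := exists_near_fun hS hs e.2.2 e.1
      exact ⟨φ, fun _ => ⟨h1, h2⟩, fun h' => absurd h h'⟩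
    · obtain ⟨φ, h1, h2⟩ := exists_far_fun hε (ht e.2) (up e.2 e.1) (M e.2) (δ e.2) (hδ e.2) (hM e.2)
        (hfarT e.1 e.2 h)
      exact ⟨φ, fun h' => absurd h' h, fun _ => ⟨h1, h2⟩⟩
  choose φ hφn hφf using hfun
  -- values of the functions at points with given first coordinate
  have val1 : ∀ (e : Fin n × S) (p : Γ), p.1.1 ∈ Om0 S ε → φ e p = 1 := by
    intro e p hp
    by_cases h : Near e.1 e.2
    · by_cases h' : p.1.1 ∈ Om S ∧ p.1.2 = s e.1 p.1.1
      · rw [(hφn e h).1 p h'.1 h'.2]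
        exact exp_min_one hε (hp e.2 e.2.2)
      · exact (hφn e h).2 p h'
    · by_cases h' : p.1.1 ∈ Bx (e.2 : ℂ) ε ∧ p.1.2 = t e.2 (up e.2 e.1) p.1.1
      · rw [(hφf e h).1 p h'.1 h'.2]
        apply clamp_one (by linarith [h'.1.1]) hε
        have h1 := hp e.2 e.2.2
        unfold rho at h1
        rcases le_max_iff.mp h1 with h2 | h2
        · linarith [h'.1.1]
        · exact (min_le_right _ _).trans h2
      · exact (hφf e h).2 p h'
  have val2 : ∀ (e : Fin n × S) (p : Γ), p.1.1 ∈ S → φ e p = 1 := by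
    intro e p hp
    by_cases h : Near e.1 e.2
    · exact (hφn e h).2 p (fun h' => Om_subset S h'.1 hp)
    · exact (hφf e h).2 p (fun h' => Bx_subset hS e.2.2 h'.1 hp)
  -- points far from the horizontal line of `e.2`
  have val3 : ∀ (e : Fin n × S) (p : Γ), 2 * ε ≤ |p.1.1.im - (e.2 : ℂ).im| → φ e p = 1 := by
    intro e p hp
    by_cases h : Near e.1 e.2
    · by_cases h' : p.1.1 ∈ Om S ∧ p.1.2 = s e.1 p.1.1
      · rw [(hφn e h).1 p h'.1 h'.2]
        apply exp_min_one hε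
        have := abs_im_le_rho (e.2 : ℂ) p.1.1
        linarith
      · exact (hφn e h).2 p h'
    · exact (hφf e h).2 p (fun h' => absurd h'.1.2 (not_lt.mpr hp))
  -- the graph
  have hfi : ∀ c : S, Finite {y : ℂ | ((c : ℂ), y) ∈ Γ} := fun c => (hD.fin c c.2).to_subtype
  let hft : ∀ c : S, Fintype {y : ℂ | ((c : ℂ), y) ∈ Γ} := fun c => Fintype.ofFinite _
  obtain ⟨z0, hz0⟩ := nonempty_Om0 S ε
  have hz0O : z0 ∈ Om S := Om0_subset_Om S ε hε hz0
  let pt : Fin n ⊕ (Σ c : S, {y : ℂ | ((c : ℂ), y) ∈ Γ}) → Γ := fun v =>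
    match v with
    | Sum.inl i => ⟨(z0, s i z0), hs.mem hz0O i⟩
    | Sum.inr q => ⟨((q.1 : ℂ), (q.2 : ℂ)), q.2.2⟩
  have hn : 0 < n := hD.npos
  have : Nonempty (Fin n ⊕ (Σ c : S, {y : ℂ | ((c : ℂ), y) ∈ Γ})) := ⟨Sum.inl ⟨0, hn⟩⟩
  have hedge : ∀ e : Fin n × S, ∃ tg : Fin n ⊕ (Σ c : S, {y : ℂ | ((c : ℂ), y) ∈ Γ}),
      ∃ γ : C(unitInterval, Γ),
      JoinedIn {x | ∀ e', φ e' x = 1} (pt (Sum.inl e.1)) (γ 0) ∧
      JoinedIn {x | ∀ e', φ e' x = 1} (pt tg) (γ 1) ∧
      (∀ e', e' ≠ e → ∀ u, φ e' (γ u) = 1) ∧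
      ∃ ℓ : C(unitInterval, ℝ), (∀ u, φ e (γ u) = Circle.exp (ℓ u)) ∧ ℓ 1 ≠ ℓ 0 := by
    rintro ⟨i, c⟩
    have hA : ∀ p : Γ, p.1.1 ∈ Om0 S ε → p ∈ {x | ∀ e', φ e' x = 1} := fun p hp e' => val1 e' p hp
    by_cases hN : Near i c
    · obtain ⟨y, γ, hy, hγ1, hγ⟩ := near_path hS hs hD.closed c.2 (hD.fin c c.2) (M c) (δ c)
        (hδ c) i hN
      have h01 : (0 : unitInterval) ≠ 1 := zero_ne_one
      refine ⟨Sum.inr ⟨c, y, hy⟩, γ, ?_, ?_, ?_, ?_⟩
      · refine joinedIn_sheet hε hs _ hA i hz0 ?_ _ _ rfl (hγ 0 h01)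
        intro c' hc'
        by_cases h : (c : ℂ) = c'
        · have h1 := re_le_rho c' ((c : ℂ) - ((ε * (1 - ((0 : unitInterval) : ℝ)) : ℝ) : ℂ))
          rw [← h] at h1 ⊢
          simp only [Complex.sub_re, Complex.ofReal_re, Set.Icc.coe_zero] at h1
          simp only [Set.Icc.coe_zero]
          linarith
        · have h1 := abs_im_le_rho c' ((c : ℂ) - ((ε * (1 - ((0 : unitInterval) : ℝ)) : ℝ) : ℂ))
          have h2 := hS.2 c c.2 c' hc' h
          simp only [Complex.sub_im, Complex.ofReal_im, sub_zero] at h1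
          linarith
      · have h1 : pt (Sum.inr ⟨c, y, hy⟩) = γ 1 := Subtype.ext hγ1.symm
        rw [h1]
        refine JoinedIn.refl (fun e' => val2 e' _ ?_)
        rw [hγ1]
        exact c.2
      · rintro ⟨i', c'⟩ hne u
        by_cases hu : u = 1
        · subst hu
          apply val2
          rw [hγ1]
          exact c.2
        · have hu' := hγ u hu
          have hr : 0 < ε * (1 - (u : ℝ)) := by
            have h1 : (u : ℝ) < 1 := lt_of_le_of_ne u.2.2 (fun h => hu (Subtype.ext h))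
            exact mul_pos hε (by linarith)
          by_cases hcc : c' = c
          · subst hcc
            have hii : i' ≠ i := fun h => hne (by rw [h])
            by_cases hN' : Near i' c'
            · refine (hφn (i', c') hN').2 _ (fun h' => ?_)
              obtain ⟨h1, h2⟩ := h'
              rw [hu'] at h1 h2
              exact hii (hs.inj _ h1 _ _ h2).symm
            · refine (hφf (i', c') hN').2 _ (fun h' => ?_)
              have h1 := h'.1.1
              rw [hu'] at h1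
              simp only [Complex.sub_re, Complex.ofReal_re] at h1
              linarith
          · apply val3
            rw [hu']
            have h2 := hS.2 c c.2 c' c'.2 (fun h => hcc (Subtype.ext h).symm)
            simp only [Complex.sub_im, Complex.ofReal_im, sub_zero]
            linarith
      · refine ⟨⟨fun u => 2 * π * (1 - (u : ℝ)), by fun_prop⟩, ?_, ?_⟩
        · intro u
          show φ (i, c) (γ u) = Circle.exp (2 * π * (1 - (u : ℝ)))
          by_cases hu : u = 1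
          · subst hu
            rw [val2]
            · simp
            · rw [hγ1]
              exact c.2
          · have hu' := hγ u hu
            have hu1 : (u : ℝ) < 1 := lt_of_le_of_ne u.2.2 (fun h => hu (Subtype.ext h))
            have hr : 0 < ε * (1 - (u : ℝ)) := mul_pos hε (by linarith)
            rw [(hφn (i, c) hN).1 (γ u) (by rw [hu']; exact sub_mem_Om hS c.2 hr) (by rw [hu'])]
            congr 2
            rw [hu']
            have h1 : rho (c : ℂ) ((c : ℂ) - ((ε * (1 - (u : ℝ)) : ℝ) : ℂ)) = ε * (1 - (u : ℝ)) := by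
              unfold rho
              simp only [Complex.sub_re, Complex.ofReal_re, Complex.sub_im, Complex.ofReal_im,
                sub_zero, sub_self, abs_zero, sub_sub_cancel]
              exact max_eq_left hr.le
            show min 1 (rho (c : ℂ) ((c : ℂ) - ((ε * (1 - (u : ℝ)) : ℝ) : ℂ)) / ε) = 1 - (u : ℝ)
            rw [h1, mul_div_assoc, mul_comm, div_mul_cancel₀ _ hε.ne']
            exact min_eq_right (by linarith [u.2.1])
        · show 2 * π * (1 - ((1 : unitInterval) : ℝ)) ≠ 2 * π * (1 - ((0 : unitInterval) : ℝ))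
          simp [Real.pi_ne_zero]
    · obtain ⟨γ, hγ⟩ := far_path hε (ht c) (up c i)
      have hBx : ∀ u : unitInterval,
          (⟨(c : ℂ).re + ε, (c : ℂ).im + ε * (1 - 2 * (u : ℝ))⟩ : ℂ) ∈ Bx (c : ℂ) ε := by
        intro u
        apply cross_mem_Bx hε
        rw [abs_mul, abs_of_pos hε]
        have h1 : |1 - 2 * (u : ℝ)| ≤ 1 := by
          rw [abs_le]
          constructor <;> linarith [u.2.1, u.2.2]
        nlinarith
      have hOm0 : ∀ T : ℝ, |T| = ε → (⟨(c : ℂ).re + ε, (c : ℂ).im + T⟩ : ℂ) ∈ Om0 S ε := by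
        intro T hT c' hc'
        have h1 := abs_im_le_rho c' (⟨(c : ℂ).re + ε, (c : ℂ).im + T⟩ : ℂ)
        by_cases h : (c : ℂ) = c'
        · rw [← h] at h1 ⊢
          simp only [add_sub_cancel_left] at h1
          rw [hT] at h1
          exact h1
        · have h2 := hS.im_far' (z := (⟨(c : ℂ).re + ε, (c : ℂ).im + T⟩ : ℂ)) c.2 hc' h (by
            simp only [add_sub_cancel_left]
            rw [hT]
            linarith)
          linarith
      have hT0 : (⟨(c : ℂ).re + ε, (c : ℂ).im + ε * (1 - 2 * ((0 : unitInterval) : ℝ))⟩ : ℂ) ∈ Tp c := by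
        refine ⟨hBx 0, ?_⟩
        show (c : ℂ).im < (c : ℂ).im + ε * (1 - 2 * ((0 : unitInterval) : ℝ))
        rw [Set.Icc.coe_zero]
        linarith
      have hT1 : (⟨(c : ℂ).re + ε, (c : ℂ).im + ε * (1 - 2 * ((1 : unitInterval) : ℝ))⟩ : ℂ) ∈ Tm c := by
        refine ⟨hBx 1, ?_⟩
        show (c : ℂ).im + ε * (1 - 2 * ((1 : unitInterval) : ℝ)) < (c : ℂ).im
        rw [Set.Icc.coe_one]
        linarith
      refine ⟨Sum.inl (lo c (up c i)), γ, ?_, ?_, ?_, ?_⟩
      · refine joinedIn_sheet hε hs _ hA i hz0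
          (hOm0 (ε * (1 - 2 * ((0 : unitInterval) : ℝ))) ?_) _ _ rfl ((hγ 0).trans ?_)
        · rw [Set.Icc.coe_zero, mul_zero, sub_zero, mul_one]
          exact abs_of_pos hε
        · rw [hup c i _ hT0]
      · refine joinedIn_sheet hε hs _ hA (lo c (up c i)) hz0
          (hOm0 (ε * (1 - 2 * ((1 : unitInterval) : ℝ))) ?_) _ _ rfl ((hγ 1).trans ?_)
        · rw [Set.Icc.coe_one, show ε * (1 - 2 * (1 : ℝ)) = - ε by ring, abs_neg]
          exact abs_of_pos hε
        · rw [hlo c (up c i) _ hT1]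
      · rintro ⟨i', c'⟩ hne u
        have hu' := hγ u
        by_cases hcc : c' = c
        · subst hcc
          have hii : i' ≠ i := fun h => hne (by rw [h])
          by_cases hN' : Near i' c'
          · refine (hφn (i', c') hN').2 _ (fun h' => ?_)
            obtain ⟨h1, h2⟩ := h'
            rw [hu'] at h1 h2
            simp only at h1 h2
            rcases lt_trichotomy (ε * (1 - 2 * (u : ℝ))) 0 with h3 | h3 | h3
            · have h4 : (⟨(c' : ℂ).re + ε, (c' : ℂ).im + ε * (1 - 2 * (u : ℝ))⟩ : ℂ) ∈ Tm c' := by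
                refine ⟨hBx u, ?_⟩
                show (c' : ℂ).im + ε * (1 - 2 * (u : ℝ)) < (c' : ℂ).im
                linarith
              rw [hlo c' (up c' i) _ h4] at h2
              have h5 := hs.inj _ h1 _ _ h2
              exact hfarlo i c' hN (h5 ▸ hN')
            · have h4 := h1 c' c'.2
              rw [h3, add_zero] at h4
              unfold rho at h4
              simp only [sub_self, abs_zero, sub_add_cancel_left] at h4
              rcases lt_max_iff.mp h4 with h5 | h5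
              · linarith
              · exact lt_irrefl _ h5
            · have h4 : (⟨(c' : ℂ).re + ε, (c' : ℂ).im + ε * (1 - 2 * (u : ℝ))⟩ : ℂ) ∈ Tp c' := by
                refine ⟨hBx u, ?_⟩
                show (c' : ℂ).im < (c' : ℂ).im + ε * (1 - 2 * (u : ℝ))
                linarith
              rw [← hup c' i _ h4] at h2
              exact hii (hs.inj _ h1 _ _ h2).symm
          · refine (hφf (i', c') hN').2 _ (fun h' => ?_)
            obtain ⟨h1, h2⟩ := h'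
            rw [hu'] at h1 h2
            exact hii (hupinj c' _ _ ((ht c').inj _ h1 _ _ h2)).symm
        · apply val3
          rw [hu']
          refine hS.im_far' c.2 c'.2 (fun h => hcc (Subtype.ext h).symm) ?_
          exact (hBx u).2.le
      · refine ⟨⟨fun u => 2 * π * (u : ℝ), by fun_prop⟩, ?_, ?_⟩
        · intro u
          show φ (i, c) (γ u) = Circle.exp (2 * π * (u : ℝ))
          have hu' := hγ u
          rw [(hφf (i, c) hN).1 (γ u) (by rw [hu']; exact hBx u) (by rw [hu'])]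
          congr 1
          rw [hu']
          show π - π * max (-1) (min 1 (((c : ℂ).im + ε * (1 - 2 * (u : ℝ)) - (c : ℂ).im) /
            min ((c : ℂ).re + ε - (c : ℂ).re) ε)) = 2 * π * (u : ℝ)
          rw [add_sub_cancel_left, add_sub_cancel_left, min_self, mul_div_assoc, mul_comm ε,
            div_mul_cancel₀ _ hε.ne', min_eq_right (by linarith [u.2.1]),
            max_eq_right (by linarith [u.2.2])]
          ring
        · show 2 * π * ((1 : unitInterval) : ℝ) ≠ 2 * π * ((0 : unitInterval) : ℝ)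
          simp [Real.pi_ne_zero]
  choose tgt hedge using hedge
  have hmain := graph_bound φ (fun e => Sum.inl e.1) tgt pt hedge
  have hcE : Fintype.card (Fin n × S) = n * S.card := by
    rw [Fintype.card_prod, Fintype.card_fin, Fintype.card_coe]
  have hcV : Fintype.card (Fin n ⊕ (Σ c : S, {y : ℂ | ((c : ℂ), y) ∈ Γ})) =
      n + ∑ c ∈ S, {y : ℂ | (c, y) ∈ Γ}.ncard := by
    rw [Fintype.card_sum, Fintype.card_fin, Fintype.card_sigma]
    congr 1
    rw [← Finset.sum_coe_sort S (fun c => {y : ℂ | (c, y) ∈ Γ}.ncard)]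
    refine Finset.sum_congr rfl fun c _ => ?_
    rw [← Nat.card_eq_fintype_card, Nat.card_coe_set_eq]
  rw [hcE, hcV] at hmain
  push_cast at hmain ⊢
  exact hmain




/-- rotation: all imaginary parts become different -/
theorem RB2_aux1 (S : Finset ℂ) : ∃ s : ℝ, ∀ c ∈ S, ∀ c' ∈ S, c ≠ c' →
    c.im + s * c.re ≠ c'.im + s * c'.re := by
  classical
  obtain ⟨s, hs⟩ := Infinite.exists_notMem_finset
    ((S ×ˢ S).image (fun p : ℂ × ℂ => - (p.1.im - p.2.im) / (p.1.re - p.2.re)))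
  refine ⟨s, fun c hc c' hc' hne h => hs ?_⟩
  rw [Finset.mem_image]
  refine ⟨(c, c'), Finset.mem_product.mpr ⟨hc, hc'⟩, ?_⟩
  have hre : c.re - c'.re ≠ 0 := by
    intro h0
    apply hne
    have h1 : c.re = c'.re := by linarith
    refine Complex.ext h1 ?_
    rw [h1] at h
    linarith
  show - (c.im - c'.im) / (c.re - c'.re) = s
  rw [div_eq_iff hre]
  linarith

/-- a positive lower bound for finitely many positive numbers -/
theorem RB2_aux2 (S : Finset ℂ) (h : ∀ c ∈ S, ∀ c' ∈ S, c ≠ c' → c.im ≠ c'.im) :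
    ∃ ε : ℝ, Sep S ε := by
  classical
  set T : Finset ℝ := ((S ×ˢ S).filter (fun p : ℂ × ℂ => p.1 ≠ p.2)).image
    (fun p : ℂ × ℂ => |p.1.im - p.2.im|) with hT
  have hpos : ∀ x ∈ T, 0 < x := by
    intro x hx
    rw [hT, Finset.mem_image] at hx
    obtain ⟨p, hp, rfl⟩ := hx
    rw [Finset.mem_filter, Finset.mem_product] at hp
    exact abs_pos.mpr (sub_ne_zero.mpr (h p.1 hp.1.1 p.2 hp.1.2 hp.2))
  obtain ⟨m, hm, hmT⟩ : ∃ m : ℝ, 0 < m ∧ ∀ x ∈ T, m ≤ x := by
    rcases T.eq_empty_or_nonempty with he | hne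
    · exact ⟨1, one_pos, fun x hx => by rw [he] at hx; simp at hx⟩
    · exact ⟨T.min' hne, hpos _ (T.min'_mem hne), fun x hx => T.min'_le x hx⟩
  refine ⟨m / 4, by linarith, fun c hc c' hc' hne => ?_⟩
  have h1 := hmT (|c.im - c'.im|) (by
    rw [hT, Finset.mem_image]
    exact ⟨(c, c'), Finset.mem_filter.mpr ⟨Finset.mem_product.mpr ⟨hc, hc'⟩, hne⟩, rfl⟩)
  linarith

/-- (RB-2) -/
theorem rank_bound_cov {Γ : Set (ℂ × ℂ)} {S : Finset ℂ} {n : ℕ} (hD : CovData Γ S n) :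
    ((n * S.card + 1 : ℕ) : Cardinal) ≤ Module.rank ℚ (H1Q Γ) +
      ((n + ∑ c ∈ S, {y : ℂ | (c, y) ∈ Γ}.ncard : ℕ) : Cardinal) := by
  classical
  obtain ⟨s, hs⟩ := RB2_aux1 S
  set ζ : ℂ := 1 + (s : ℂ) * Complex.I with hζ
  have hζ0 : ζ ≠ 0 := by
    intro h0
    have h1 := congrArg Complex.re h0
    simp [hζ] at h1
  have him : ∀ z : ℂ, (ζ * z).im = z.im + s * z.re := by
    intro z
    simp [hζ, Complex.mul_im]
  set Γ' : Set (ℂ × ℂ) := {p | (ζ⁻¹ * p.1, p.2) ∈ Γ} with hΓ'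
  set S' : Finset ℂ := S.image (fun z => ζ * z) with hS'
  have hinj : Function.Injective (fun z : ℂ => ζ * z) := fun a b hab => mul_left_cancel₀ hζ0 hab
  have hmem : ∀ z, ζ * z ∈ S' ↔ z ∈ S := by
    intro z
    rw [hS', Finset.mem_image]
    constructor
    · rintro ⟨a, ha, hab⟩
      rwa [← hinj hab]
    · exact fun hz => ⟨z, hz, rfl⟩
  have hmem' : ∀ z, ζ⁻¹ * z ∈ S ↔ z ∈ S' := by
    intro z
    rw [← hmem, mul_inv_cancel_left₀ hζ0]
  let e : Γ' ≃ₜ Γ :=
    { toFun := fun p => ⟨(ζ⁻¹ * p.1.1, p.1.2), p.2⟩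
      invFun := fun q => ⟨(ζ * q.1.1, q.1.2), by
        show (ζ⁻¹ * (ζ * q.1.1), q.1.2) ∈ Γ
        rw [inv_mul_cancel_left₀ hζ0]
        exact q.2⟩
      left_inv := fun p => by
        apply Subtype.ext
        apply Prod.ext
        · show ζ * (ζ⁻¹ * p.1.1) = p.1.1
          rw [mul_inv_cancel_left₀ hζ0]
        · rfl
      right_inv := fun q => by
        apply Subtype.ext
        apply Prod.ext
        · show ζ⁻¹ * (ζ * q.1.1) = q.1.1
          rw [inv_mul_cancel_left₀ hζ0]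
        · rfl
      continuous_toFun := by
        refine Continuous.subtype_mk ?_ _
        fun_prop
      continuous_invFun := by
        refine Continuous.subtype_mk ?_ _
        fun_prop }
  have hfib : ∀ z, {y : ℂ | (z, y) ∈ Γ'} = {y : ℂ | (ζ⁻¹ * z, y) ∈ Γ} := fun z => rfl
  have hD' : CovData Γ' S' n := by
    refine ⟨?_, hD.npos, ?_, ?_, ?_⟩
    · exact hD.closed.preimage (f := fun p : ℂ × ℂ => (ζ⁻¹ * p.1, p.2)) (by fun_prop)
    · have h1 := (hD.cov.comp_homeomorph e).homeomorph_comp (Homeomorph.mulLeft₀ ζ hζ0)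
      have h2 : (fun p : Γ' => p.1.1) =
          (Homeomorph.mulLeft₀ ζ hζ0) ∘ ((fun p : Γ => p.1.1) ∘ e) := by
        funext p
        show p.1.1 = ζ * (ζ⁻¹ * p.1.1)
        rw [mul_inv_cancel_left₀ hζ0]
      have h3 : ((S' : Set ℂ)ᶜ) = (Homeomorph.mulLeft₀ ζ hζ0).symm ⁻¹' ((S : Set ℂ)ᶜ) := by
        ext z
        have h4 : (Homeomorph.mulLeft₀ ζ hζ0).symm z = ζ⁻¹ * z := rfl
        simp only [Set.mem_compl_iff, Set.mem_preimage, Finset.mem_coe]
        rw [h4, hmem']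
      rw [h2, h3]
      exact h1
    · intro z hz
      rw [hfib]
      exact hD.card _ (fun h => hz ((hmem' z).mp h))
    · intro c hc
      rw [hfib]
      exact hD.fin _ ((hmem' c).mpr hc)
  obtain ⟨ε, hε⟩ := RB2_aux2 S' (by
    intro c hc c' hc' hne
    rw [hS', Finset.mem_image] at hc hc'
    obtain ⟨a, ha, rfl⟩ := hc
    obtain ⟨b, hb, rfl⟩ := hc'
    rw [him, him]
    exact hs a ha b hb (fun hab => hne (by rw [hab])))
  have hmain := rank_bound_sep hD' hε
  have hcard : S'.card = S.card := Finset.card_image_of_injective _ hinj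
  have hsum : ∑ c ∈ S', {y : ℂ | (c, y) ∈ Γ'}.ncard = ∑ c ∈ S, {y : ℂ | (c, y) ∈ Γ}.ncard := by
    rw [hS', Finset.sum_image (fun a _ b _ hab => hinj hab)]
    refine Finset.sum_congr rfl fun c _ => ?_
    rw [hfib, inv_mul_cancel_left₀ hζ0]
  rw [hcard, hsum, rank_H1Q_homeo e] at hmain
  exact hmain


end Pool.Agent.LZ
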