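import Pool.Agent.Lib.MP_79da24_ag.Cover
import Pool.Agent.Lib.MP_79da24_ag.Gen
import Pool.Agent.Lib.MP_79da24_ag.RB

set_option autoImplicit false

/-!
# The bound in terms of the degree.
-/

namespace Pool.Agent.LZ


open Polynomial

/-- (BA-1)
Proof. `∑ z ∈ roots.toFinset, rootMultiplicity z p = card roots ≤ natDegree p` and `rootMultiplicity z p ≥ 1` for all roots, `≥ 2` if moreover
`(derivative p).eval z = 0` (`one_lt_rootMultiplicity_iff_isRoot` or similar). So `nr p + #filter ≤ ∑ rootMultiplicity ≤ natDegree p`. -/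
theorem card_multiple_add_nr_le (p : Polynomial ℂ) (hp : p ≠ 0) :
    (p.roots.toFinset.filter (fun y => (derivative p).eval y = 0)).card + nr p ≤ p.natDegree := by
  classical
  have h1 : ∑ z ∈ p.roots.toFinset, p.roots.count z = Multiset.card p.roots :=
    Multiset.toFinset_sum_count_eq p.roots
  have h2 : Multiset.card p.roots ≤ p.natDegree := card_roots' p
  have h3 : (p.roots.toFinset.filter (fun y => (derivative p).eval y = 0)).card
      = ∑ z ∈ p.roots.toFinset, if (derivative p).eval z = 0 then 1 else 0 := by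
    rw [Finset.card_filter]
  have h4 : nr p = ∑ z ∈ p.roots.toFinset, 1 := by
    rw [nr, Finset.card_eq_sum_ones]
  rw [h3, h4, ← Finset.sum_add_distrib]
  refine le_trans (Finset.sum_le_sum ?_) (h1.trans_le h2)
  intro z hz
  have hz' : p.IsRoot z := (mem_roots hp).1 (Multiset.mem_toFinset.1 hz)
  rw [count_roots]
  have hpos : 0 < p.rootMultiplicity z := (rootMultiplicity_pos hp).2 hz'
  split_ifs with hd
  · have := (one_lt_rootMultiplicity_iff_isRoot hp).2 ⟨hz', hd⟩
    omega
  · omega

/-- (BA-2)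
Proof. `n = F.natDegree`, `S` from `exists_generic`, `hne := spec_ne_zero F hF hn`, `hD := covData_curve F hn S _ hne`,
`rank_bound_cov hD : n * S.card + 1 ≤ rank + (n + ∑ c ∈ S, {y | (c, y) ∈ curve F}.ncard)`; `{y | (c, y) ∈ curve F}.ncard = nr (spec c F)`
(`eval_spec`, root set of a nonzero polynomial, `Set.ncard_coe_finset`).
The set `B = {p | F.evalEval p.1 p.2 = 0 ∧ (derivative F).evalEval p.1 p.2 = 0}`: `p ∈ B` iff `(spec p.1 F).eval p.2 = 0` and
`(derivative (spec p.1 F)).eval p.2 = 0` (`derivative_map`). If `p.1 ∉ S` then `nr (spec z F) = n ≥ natDegree`, and BA-1 shows that there is no such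
`p.2`. So `B` is the image/union over `c ∈ S` of the finite sets of BA-1: `B.ncard ≤ ∑ c ∈ S, (n - nr (spec c F))` (natDegree (spec c F) ≤ n:
`natDegree_map_le`). As `nr ≤ n`: `B.ncard + ∑ nr (spec c F) ≤ n * S.card`. Combine: `B.ncard + ∑ nr + 1 ≤ rank + n + ∑ nr` as cardinals; cancel the
natural number `∑ nr` (e.g. if the rank is `≥ ℵ₀` the claim is trivial as the left side is finite; otherwise it is a natural number
(`Cardinal.lt_aleph0`) and use `exact_mod_cast`/`omega`). -/
theorem bound_a (F : Polynomial (Polynomial ℂ)) (hF : Irreducible F) (hn : 0 < F.natDegree) :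
    {p : ℂ × ℂ | F.evalEval p.1 p.2 = 0 ∧ (derivative F).evalEval p.1 p.2 = 0}.Finite ∧
    (({p : ℂ × ℂ | F.evalEval p.1 p.2 = 0 ∧ (derivative F).evalEval p.1 p.2 = 0}.ncard + 1 : ℕ) :
      Cardinal) ≤ Module.rank ℚ (H1Q (curve F)) + (F.natDegree : Cardinal) := by
  classical
  obtain ⟨S, hS⟩ := exists_generic F hF hn
  have hne := spec_ne_zero F hF hn
  have hD := covData_curve F hn S hS hne
  have hrk := rank_bound_cov hD
  have hdeg : ∀ z, (spec z F).natDegree ≤ F.natDegree := fun z => natDegree_map_le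
  -- the fibres
  have hfib : ∀ c, {y : ℂ | (c, y) ∈ curve F}.ncard = nr (spec c F) := by
    intro c
    have : {y : ℂ | (c, y) ∈ curve F} = ((spec c F).roots.toFinset : Set ℂ) := by
      ext y
      rw [Finset.mem_coe, Multiset.mem_toFinset, mem_roots (hne c)]
      change F.evalEval c y = 0 ↔ (spec c F).eval y = 0
      rw [eval_spec]
    rw [this, Set.ncard_coe_finset]
    rfl
  -- the multiple roots
  let M : ℂ → Finset ℂ := fun c => (spec c F).roots.toFinset.filter (fun y => (derivative (spec c F)).eval y = 0)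
  have hM : ∀ c, (M c).card + nr (spec c F) ≤ F.natDegree := fun c =>
    (card_multiple_add_nr_le (spec c F) (hne c)).trans (hdeg c)
  have hmem : ∀ p : ℂ × ℂ, (F.evalEval p.1 p.2 = 0 ∧ (derivative F).evalEval p.1 p.2 = 0) ↔ p.2 ∈ M p.1 := by
    intro p
    rw [Finset.mem_filter, Multiset.mem_toFinset, mem_roots (hne p.1)]
    have h1 : (derivative (spec p.1 F)).eval p.2 = (derivative F).evalEval p.1 p.2 := by
      rw [← eval_spec]
      simp only [spec, derivative_map]
    rw [h1]
    change _ ↔ (spec p.1 F).eval p.2 = 0 ∧ _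
    rw [eval_spec]
  have hnotS : ∀ c, c ∉ S → M c = ∅ := by
    intro c hc
    have h1 := hM c
    rw [hS c hc] at h1
    exact Finset.card_eq_zero.1 (by omega)
  let B : Finset (ℂ × ℂ) := S.biUnion fun c => (M c).image fun y => (c, y)
  have hB : {p : ℂ × ℂ | F.evalEval p.1 p.2 = 0 ∧ (derivative F).evalEval p.1 p.2 = 0} = (B : Set (ℂ × ℂ)) := by
    ext p
    rw [Set.mem_ofPred_eq, hmem p, Finset.mem_coe, Finset.mem_biUnion]
    constructor
    · intro hp
      refine ⟨p.1, ?_, Finset.mem_image.2 ⟨p.2, hp, rfl⟩⟩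
      by_contra hc
      rw [hnotS _ hc] at hp
      exact absurd hp (Finset.notMem_empty _)
    · rintro ⟨c, _, hp⟩
      obtain ⟨y, hy, rfl⟩ := Finset.mem_image.1 hp
      exact hy
  refine ⟨hB ▸ B.finite_toSet, ?_⟩
  rw [hB, Set.ncard_coe_finset]
  have hcard : B.card ≤ ∑ c ∈ S, (M c).card := by
    refine Finset.card_biUnion_le.trans (Finset.sum_le_sum fun c _ => Finset.card_image_le)
  have hsum : B.card + ∑ c ∈ S, nr (spec c F) ≤ F.natDegree * S.card := by
    have h1 : ∑ c ∈ S, (M c).card + ∑ c ∈ S, nr (spec c F) ≤ ∑ _c ∈ S, F.natDegree := by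
      rw [← Finset.sum_add_distrib]
      exact Finset.sum_le_sum fun c _ => hM c
    rw [Finset.sum_const, smul_eq_mul, mul_comm] at h1
    omega
  have hfib' : ∑ c ∈ S, {y : ℂ | (c, y) ∈ curve F}.ncard = ∑ c ∈ S, nr (spec c F) :=
    Finset.sum_congr rfl fun c _ => hfib c
  rw [hfib'] at hrk
  rcases lt_or_ge (Module.rank ℚ (H1Q (curve F))) Cardinal.aleph0 with hlt | hge
  · obtain ⟨r, hr⟩ := Cardinal.lt_aleph0.1 hlt
    rw [hr] at hrk ⊢
    have h1 : F.natDegree * S.card + 1 ≤ r + (F.natDegree + ∑ c ∈ S, nr (spec c F)) := by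
      exact_mod_cast hrk
    have h2 : B.card + 1 ≤ r + F.natDegree := by omega
    exact_mod_cast h2
  · exact le_trans (Cardinal.natCast_lt_aleph0.le.trans hge) le_self_add


end Pool.Agent.LZ
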