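import Mathlib

set_option autoImplicit false

/-!
# The combinatorial inequality.
-/

namespace Pool.Agent.LZ


/-- (COMB-1)
Proof. Let `J = {i ∈ I | R i = m}`, `k = |J|`. All terms are `≥ 0`. Since `∑ R = 4m - 2 < 4m` and `R ≥ 0`: `k ≤ 3` (as `k m ≤ 4m - 2 < 4 m`, `m ≥ 1`).
For `i ∉ J`: `m - R i ≥ 1`, so `∑_{i ∉ J} (m - R i) R' i ≥ ∑_{i ∉ J} R' i ≥ 4n - 2 - k n`. If `k ≤ 2` this is `≥ 2n - 2 ≥ 2n - 4`. If `k = 3`:
`∑_{i ∉ J} R i = 4m - 2 - 3m = m - 2`, so each `R i ≤ m - 2` for `i ∉ J`, so `m - R i ≥ 2` and the sum is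
`≥ 2 (4n - 2 - 3n) = 2n - 4`. -/
theorem comb_slots {ι : Type} (I : Finset ι) (m n : ℕ) (hm : 1 ≤ m) (hn : 1 ≤ n) (R R' : ι → ℤ)
    (h0 : ∀ i ∈ I, 0 ≤ R i) (h1 : ∀ i ∈ I, R i ≤ m) (h0' : ∀ i ∈ I, 0 ≤ R' i)
    (h1' : ∀ i ∈ I, R' i ≤ n) (hR : ∑ i ∈ I, R i = 4 * m - 2) (hR' : ∑ i ∈ I, R' i = 4 * n - 2) :
    2 * (n : ℤ) - 4 ≤ ∑ i ∈ I, (m - R i) * R' i := by
  classical
  have hs : ∀ f : ι → ℤ, ∑ i ∈ I, f i =
      ∑ i ∈ I.filter (fun i => R i = m), f i + ∑ i ∈ I.filter (fun i => ¬ R i = m), f i :=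
    fun f => (Finset.sum_filter_add_sum_filter_not I _ f).symm
  set J := I.filter (fun i => R i = m) with hJ
  set K := I.filter (fun i => ¬ R i = m) with hK
  have hm' : (1 : ℤ) ≤ m := by exact_mod_cast hm
  have hn' : (1 : ℤ) ≤ n := by exact_mod_cast hn
  have hJR : ∑ i ∈ J, R i = J.card * m := by
    rw [Finset.sum_congr rfl (fun i hi => (Finset.mem_filter.1 hi).2), Finset.sum_const,
      nsmul_eq_mul]
  have hKR : 0 ≤ ∑ i ∈ K, R i :=
    Finset.sum_nonneg fun i hi => h0 i (Finset.mem_filter.1 hi).1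
  have hJR' : ∑ i ∈ J, R' i ≤ J.card * n := by
    have h := Finset.sum_le_card_nsmul J R' n fun i hi => h1' i (Finset.mem_filter.1 hi).1
    rwa [nsmul_eq_mul] at h
  have hJ0 : ∑ i ∈ J, (m - R i) * R' i = 0 := by
    refine Finset.sum_eq_zero fun i hi => ?_
    rw [(Finset.mem_filter.1 hi).2, sub_self, zero_mul]
  rw [hs] at hR hR'
  rw [hs, hJ0, zero_add]
  rw [hJR] at hR
  have hk : (J.card : ℤ) ≤ 3 := by
    by_contra hcon
    push Not at hcon
    have h4 : (4 : ℤ) ≤ J.card := by lia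
    have h5 : 4 * (m : ℤ) ≤ J.card * m := mul_le_mul_of_nonneg_right h4 (by linarith)
    linarith
  by_cases h3 : (J.card : ℤ) = 3
  · rw [h3] at hR hJR'
    have hle : ∀ i ∈ K, R i ≤ m - 2 := by
      intro i hi
      have h6 := Finset.single_le_sum (f := R)
        (fun j hj => h0 j (Finset.mem_filter.1 hj).1) hi
      linarith
    have h7 : ∑ i ∈ K, 2 * R' i ≤ ∑ i ∈ K, (m - R i) * R' i := by
      refine Finset.sum_le_sum fun i hi => ?_
      have h8 := hle i hi
      exact mul_le_mul_of_nonneg_right (by linarith) (h0' i (Finset.mem_filter.1 hi).1)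
    rw [← Finset.mul_sum] at h7
    linarith
  · have hk2 : (J.card : ℤ) ≤ 2 := by lia
    have h7 : ∑ i ∈ K, 1 * R' i ≤ ∑ i ∈ K, (m - R i) * R' i := by
      refine Finset.sum_le_sum fun i hi => ?_
      obtain ⟨hi1, hi2⟩ := Finset.mem_filter.1 hi
      have h8 := h1 i hi1
      have h9 : R i < m := lt_of_le_of_ne h8 hi2
      exact mul_le_mul_of_nonneg_right (by lia) (h0' i hi1)
    simp only [one_mul] at h7
    have h8 : (J.card : ℤ) * n ≤ 2 * n := mul_le_mul_of_nonneg_right hk2 (by linarith)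
    linarith

private theorem Comb_key (m n a b u v : ℤ) (hu : 0 ≤ u) (hua : u ≤ a) (hum : u ≤ m - a)
    (hv : 0 ≤ v) (hvb : v ≤ b) (hvn : v ≤ n - b) :
    2 * (a * b + u * v) ≤ min (2 * a) m * min (2 * b) n +
      max 0 (2 * a - m) * max 0 (2 * b - n) := by
  rcases le_total (2 * a) m with h1 | h1
  · rcases le_total (2 * b) n with h2 | h2
    · rw [min_eq_left h1, min_eq_left h2, max_eq_left (by linarith), max_eq_left (by linarith)]
      have h3 : u * v ≤ a * b := mul_le_mul hua hvb hv (by linarith)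
      nlinarith
    · rw [min_eq_left h1, min_eq_right h2, max_eq_left (by linarith), max_eq_right (by linarith)]
      have h3 : u * v ≤ a * (n - b) := mul_le_mul hua hvn hv (by linarith)
      nlinarith
  · rcases le_total (2 * b) n with h2 | h2
    · rw [min_eq_right h1, min_eq_left h2, max_eq_right (by linarith), max_eq_left (by linarith)]
      have h3 : u * v ≤ (m - a) * b := mul_le_mul hum hvb hv (by linarith)
      nlinarith
    · rw [min_eq_right h1, min_eq_right h2, max_eq_right (by linarith), max_eq_right (by linarith)]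
      have h3 : u * v ≤ (m - a) * (n - b) := mul_le_mul hum hvn hv (by linarith)
      nlinarith

/-- (COMB-2)
Proof. For each `t` define two slots: `r = min (2a) m`, `s = max 0 (2a - m)` (so `r + s = 2a`, `0 ≤ r, s ≤ m` as `a ≤ m`) and
`r' = min (2b) n`, `s' = max 0 (2b - n)`. Claim (integers): `2 (a b + u v) ≤ r r' + s s'`. Indeed put `x = min a (m - a)`, `y = min b (n - b)`, so `u ≤ x`,
`v ≤ y`. `r r' + s s'` with: if `2a ≤ m` : `r = 2a, s = 0, x = a`; else `r = m, s = 2a - m, x = m - a`. If `2a ≤ m` and `2b ≤ n`: `r r' + s s' = 4ab` and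
`2(ab + xy) = 4ab`. If `2a ≤ m`, `2b > n`: `r r' = 2 a n`, `2 (ab + a (n - b)) = 2 a n`. Symmetric case: `r r' = m * 2b`,
`2(ab + (m - a) b) = 2 m b`. If both `>`: `r r' + s s' = m n + (2a - m)(2b - n) = 2mn + 4ab - 2an - 2bm`,
`2 (ab + (m - a)(n - b)) = 2 (2ab + mn - an - bm)`, equal. So equality with `x, y`, and monotone in `u, v`.
Now apply COMB-1 with the index set `T × Bool` (or `T ⊕ T`, or prove COMB-1-like statement directly) where `R (t, false) = r`, `R (t, true) = s`, etc.: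
`∑ R = 2 ∑ a = 4m - 2`, `∑ R' = 4n - 2`. Then `∑ (m - R) R' ≥ 2n - 4`, so `∑ R R' ≤ m (4n - 2) - (2n - 4) = 4mn - 2m - 2n + 4`,
so `∑ (ab + uv) ≤ 2mn - m - n + 2`. (Type `ι : Type`, so `ι × Bool : Type` is fine.) -/
theorem comb {ι : Type} (T : Finset ι) (m n : ℕ) (hm : 1 ≤ m) (hn : 1 ≤ n)
    (a b u v : ι → ℕ) (ha : ∀ t ∈ T, a t ≤ m) (hb : ∀ t ∈ T, b t ≤ n)
    (hu1 : ∀ t ∈ T, u t ≤ a t) (hu2 : ∀ t ∈ T, u t ≤ m - a t)
    (hv1 : ∀ t ∈ T, v t ≤ b t) (hv2 : ∀ t ∈ T, v t ≤ n - b t)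
    (hA : ∑ t ∈ T, a t = 2 * m - 1) (hB : ∑ t ∈ T, b t = 2 * n - 1) :
    ∑ t ∈ T, (a t * b t + u t * v t) + m + n ≤ 2 * m * n + 2 := by
  set R : ι × Bool → ℤ := fun p => if p.2 then max 0 (2 * (a p.1 : ℤ) - m)
    else min (2 * (a p.1 : ℤ)) m with hR
  set R' : ι × Bool → ℤ := fun p => if p.2 then max 0 (2 * (b p.1 : ℤ) - n)
    else min (2 * (b p.1 : ℤ)) n with hR'
  have hbool : ∀ f : ι × Bool → ℤ, ∑ p ∈ T ×ˢ (Finset.univ : Finset Bool), f p =
      ∑ t ∈ T, (f (t, true) + f (t, false)) := by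
    intro f
    rw [Finset.sum_product]
    refine Finset.sum_congr rfl fun t _ => ?_
    rw [Fintype.sum_bool]
  have hmm : ∀ x y : ℤ, max 0 (x - y) + min x y = x := by
    intro x y
    rcases le_total x y with h | h
    · rw [max_eq_left (by linarith), min_eq_left h, zero_add]
    · rw [max_eq_right (by linarith), min_eq_right h]
      ring
  have hsR : ∑ p ∈ T ×ˢ (Finset.univ : Finset Bool), R p = 4 * m - 2 := by
    rw [hbool]
    have h1 : ∀ t ∈ T, R (t, true) + R (t, false) = 2 * (a t : ℤ) := fun t _ => hmm _ _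
    rw [Finset.sum_congr rfl h1, ← Finset.mul_sum, ← Nat.cast_sum, hA]
    lia
  have hsR' : ∑ p ∈ T ×ˢ (Finset.univ : Finset Bool), R' p = 4 * n - 2 := by
    rw [hbool]
    have h1 : ∀ t ∈ T, R' (t, true) + R' (t, false) = 2 * (b t : ℤ) := fun t _ => hmm _ _
    rw [Finset.sum_congr rfl h1, ← Finset.mul_sum, ← Nat.cast_sum, hB]
    lia
  have key := comb_slots (T ×ˢ (Finset.univ : Finset Bool)) m n hm hn R R' ?_ ?_ ?_ ?_ hsR hsR'
  · have h1 : ∑ p ∈ T ×ˢ (Finset.univ : Finset Bool), (m - R p) * R' p =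
        m * (4 * n - 2) - ∑ p ∈ T ×ˢ (Finset.univ : Finset Bool), R p * R' p := by
      rw [← hsR', Finset.mul_sum, ← Finset.sum_sub_distrib]
      refine Finset.sum_congr rfl fun p _ => ?_
      ring
    have h2 : 2 * ∑ t ∈ T, ((a t : ℤ) * b t + u t * v t) ≤
        ∑ p ∈ T ×ˢ (Finset.univ : Finset Bool), R p * R' p := by
      rw [hbool, Finset.mul_sum]
      refine Finset.sum_le_sum fun t ht => ?_
      have h3 := ha t ht
      have h4 := hb t ht
      have h5 := hu1 t ht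
      have h6 := hu2 t ht
      have h7 := hv1 t ht
      have h8 := hv2 t ht
      have h9 := Comb_key m n (a t) (b t) (u t) (v t) (by positivity) (by exact_mod_cast h5)
        (by lia) (by positivity) (by exact_mod_cast h7) (by lia)
      rw [add_comm (R (t, true) * R' (t, true))]
      exact h9
    rw [h1] at key
    have h3 : ∑ t ∈ T, ((a t : ℤ) * b t + u t * v t) =
        ((∑ t ∈ T, (a t * b t + u t * v t) : ℕ) : ℤ) := by
      push_cast
      rfl
    rw [h3] at h2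
    have h4 : (((∑ t ∈ T, (a t * b t + u t * v t)) + m + n : ℕ) : ℤ) ≤
        ((2 * m * n + 2 : ℕ) : ℤ) := by
      push_cast at h2 ⊢
      nlinarith
    exact_mod_cast h4
  · rintro ⟨t, c⟩ _
    cases c
    · show 0 ≤ min (2 * (a t : ℤ)) m
      exact le_min (by positivity) (by positivity)
    · exact le_max_left _ _
  · rintro ⟨t, c⟩ ht
    have h1 := ha t (Finset.mem_product.1 ht).1
    cases c
    · exact min_le_right _ _
    · show max 0 (2 * (a t : ℤ) - m) ≤ m
      exact max_le (by positivity) (by lia)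
  · rintro ⟨t, c⟩ _
    cases c
    · show 0 ≤ min (2 * (b t : ℤ)) n
      exact le_min (by positivity) (by positivity)
    · exact le_max_left _ _
  · rintro ⟨t, c⟩ ht
    have h1 := hb t (Finset.mem_product.1 ht).1
    cases c
    · exact min_le_right _ _
    · show max 0 (2 * (b t : ℤ) - n) ≤ n
      exact max_le (by positivity) (by lia)


end Pool.Agent.LZ
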