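import Pool.Agent.Lib.MP_79da24_ag.RH
import Pool.Agent.Lib.MP_79da24_ag.Comb
import Pool.Agent.Lib.MP_79da24_ag.BA

set_option autoImplicit false

/-!
# The bound for curves of tensor rank two.
-/

namespace Pool.Agent.LZ


open Polynomial

/-- The polynomial `a(x) b(Y) - c(x) d(Y)`. -/
noncomputable def FF (a b c d : Polynomial ℂ) : Polynomial (Polynomial ℂ) :=
  C a * b.map C - C c * d.map C




open Polynomial

/-! Basic properties of `FF a b c d = C a * b.map C - C c * d.map C`. -/

theorem evalEval_FF (a b c d : Polynomial ℂ) (x y : ℂ) :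
    (FF a b c d).evalEval x y = a.eval x * b.eval y - c.eval x * d.eval y := by
  simp only [FF, evalEval_sub, evalEval_mul, evalEval_C, evalEval_map_C]

/-- The coefficient of `Y^k` is `a * C (b.coeff k) - c * C (d.coeff k)`: zero for `k > n`. For `k = n` not both `b.coeff n`, `d.coeff n` vanish
(`n ≥ 1` is the maximum of the degrees). If `C β * a = C δ * c` with `(β, δ) ≠ (0, 0)` then (`m ≥ 1`, coprime) contradiction: e.g. `β ≠ 0`: `c ∣ a`, so
`c` is a unit and then `a` is constant, so `m = 0`; this is `pen_ne_zero` up to a constant factor. -/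
theorem natDegree_FF (a b c d : Polynomial ℂ) (hac : IsCoprime a c)
    (m n : ℕ) (hm : m = max a.natDegree c.natDegree) (hn : n = max b.natDegree d.natDegree)
    (hm1 : 1 ≤ m) (hn1 : 1 ≤ n) : (FF a b c d).natDegree = n := by
  have hcoeff : ∀ k, (FF a b c d).coeff k = a * C (b.coeff k) - c * C (d.coeff k) := by
    intro k
    simp only [FF, coeff_sub, coeff_C_mul, coeff_map]
  apply le_antisymm
  · rw [natDegree_le_iff_coeff_eq_zero]
    intro k hk
    rw [hcoeff, coeff_eq_zero_of_natDegree_lt (by omega), coeff_eq_zero_of_natDegree_lt (p := d) (by omega)]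
    simp only [map_zero, mul_zero, sub_zero]
  · apply le_natDegree_of_ne_zero
    rw [hcoeff]
    intro h0
    -- not both leading coefficients vanish
    have hne : b.coeff n ≠ 0 ∨ d.coeff n ≠ 0 := by
      rcases le_total d.natDegree b.natDegree with h | h
      · left
        have : n = b.natDegree := by omega
        rw [this]
        have hb : b ≠ 0 := by
          rintro rfl
          rw [natDegree_zero] at this
          omega
        exact leadingCoeff_ne_zero.2 hb
      · right
        have : n = d.natDegree := by omega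
        rw [this]
        have hb : d ≠ 0 := by
          rintro rfl
          rw [natDegree_zero] at this
          omega
        exact leadingCoeff_ne_zero.2 hb
    rcases hne with hβ | hδ
    · -- `a = C (δ / β) * c`
      refine pen_ne_zero a c hac m hm hm1 (some (d.coeff n / b.coeff n)) ?_
      have h1 : C (b.coeff n) * (a - C (d.coeff n / b.coeff n) * c) = 0 := by
        rw [mul_sub, ← mul_assoc, ← C_mul, mul_div_cancel₀ _ hβ, ← h0]
        ring
      rcases mul_eq_zero.1 h1 with h2 | h2
      · exact absurd (C_eq_zero.1 h2) hβ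
      · exact h2
    · by_cases hβ : b.coeff n = 0
      · refine pen_ne_zero a c hac m hm hm1 none ?_
        rw [hβ, map_zero, mul_zero, zero_sub, neg_eq_zero] at h0
        rcases mul_eq_zero.1 h0 with h2 | h2
        · exact h2
        · exact absurd (C_eq_zero.1 h2) hδ
      · refine pen_ne_zero a c hac m hm hm1 (some (d.coeff n / b.coeff n)) ?_
        have h1 : C (b.coeff n) * (a - C (d.coeff n / b.coeff n) * c) = 0 := by
          rw [mul_sub, ← mul_assoc, ← C_mul, mul_div_cancel₀ _ hβ, ← h0]
          ring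
        rcases mul_eq_zero.1 h1 with h2 | h2
        · exact absurd (C_eq_zero.1 h2) hβ
        · exact h2

/-- `spec x (FF a b c d) = C (a.eval x) * b - C (c.eval x) * d`. If `t = none`: `c.eval x = 0`, `a.eval x ≠ 0` (coprime), and
`pen d b none = b`: `κ = a.eval x`. If `t = some s`: `a.eval x = s * c.eval x` and `c.eval x ≠ 0` (otherwise both vanish), `pen d b (some s) = d - C s * b`,
`κ = - c.eval x`. -/
theorem spec_FF (a b c d : Polynomial ℂ) (hac : IsCoprime a c) (x : ℂ) (t : Option ℂ)
    (ht : (pen a c t).eval x = 0) :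
    ∃ κ : ℂ, κ ≠ 0 ∧ spec x (FF a b c d) = C κ * pen d b t := by
  have hspec : spec x (FF a b c d) = C (a.eval x) * b - C (c.eval x) * d := by
    have h1 : ∀ p : Polynomial ℂ, (p.map C).map (evalRingHom x) = p := by
      intro p
      rw [Polynomial.map_map]
      have : (evalRingHom x).comp (C : ℂ →+* Polynomial ℂ) = RingHom.id ℂ := by
        ext z
        simp
      rw [this, Polynomial.map_id]
    simp only [spec, FF, Polynomial.map_sub, Polynomial.map_mul, Polynomial.map_C, h1, coe_evalRingHom]
  obtain ⟨u, v, huv⟩ := hac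
  have hev : u.eval x * a.eval x + v.eval x * c.eval x = 1 := by
    have := congrArg (Polynomial.eval x) huv
    simpa only [eval_add, eval_mul, eval_one] using this
  cases t with
  | none =>
    have hc : c.eval x = 0 := ht
    refine ⟨a.eval x, ?_, ?_⟩
    · intro ha
      rw [ha, hc] at hev
      simp at hev
    · rw [hspec, hc, map_zero, zero_mul, sub_zero]
      rfl
  | some s =>
    have ha : a.eval x = s * c.eval x := by
      have h1 : (a - C s * c).eval x = 0 := ht
      rw [eval_sub, eval_mul, eval_C, sub_eq_zero] at h1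
      exact h1
    refine ⟨-c.eval x, ?_, ?_⟩
    · intro hc
      rw [neg_eq_zero] at hc
      rw [ha, hc] at hev
      simp at hev
    · rw [hspec, ha]
      change _ = C (-c.eval x) * (d - C s * b)
      rw [C_mul, C_neg]
      ring

/-- First part: `card_multiple_add_nr_le` and `natDegree ≤ m`. Second: `Finset.card_filter_le`. -/
theorem mult_le (p : Polynomial ℂ) (hp : p ≠ 0) (m : ℕ) (hm : p.natDegree ≤ m) :
    (p.roots.toFinset.filter (fun y => (derivative p).eval y = 0)).card ≤ m - nr p ∧
    (p.roots.toFinset.filter (fun y => (derivative p).eval y = 0)).card ≤ nr p := by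
  have h1 := card_multiple_add_nr_le p hp
  refine ⟨by omega, ?_⟩
  exact Finset.card_filter_le _ _

/-- The partial derivatives of `FF` at a point over `t`: multiple roots. Let `(pen a c t).eval x = 0` and `(pen d b t).eval y = 0`. Then
`a'(x) b(y) = c'(x) d(y)` iff `(derivative (pen a c t)).eval x = 0`, and `a(x) b'(y) = c(x) d'(y)` iff `(derivative (pen d b t)).eval y = 0`.
Proof. `t = none`: `c x = 0`, `a x ≠ 0`, `b y = 0`, `d y ≠ 0` (coprimality of `b`, `d`): the first equation says `c' x * d y = 0`; the second `a x * b' y = 0`.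
`t = some s`: `a x = s c x`, `c x ≠ 0`; `d y = s b y`, `b y ≠ 0`; first: `(a' x - s c' x) b y = 0`; second: `c x (s b' y - d' y) = 0`. -/
theorem partials_iff (a b c d : Polynomial ℂ) (hac : IsCoprime a c) (hbd : IsCoprime b d) (x y : ℂ) (t : Option ℂ)
    (hx : (pen a c t).eval x = 0) (hy : (pen d b t).eval y = 0) :
    ((derivative a).eval x * b.eval y = (derivative c).eval x * d.eval y ↔ (derivative (pen a c t)).eval x = 0) ∧
    (a.eval x * (derivative b).eval y = c.eval x * (derivative d).eval y ↔ (derivative (pen d b t)).eval y = 0) := by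
  obtain ⟨u, v, huv⟩ := hac
  obtain ⟨u', v', huv'⟩ := hbd
  have hev : u.eval x * a.eval x + v.eval x * c.eval x = 1 := by
    have := congrArg (Polynomial.eval x) huv
    simpa only [eval_add, eval_mul, eval_one] using this
  have hev' : u'.eval y * b.eval y + v'.eval y * d.eval y = 1 := by
    have := congrArg (Polynomial.eval y) huv'
    simpa only [eval_add, eval_mul, eval_one] using this
  cases t with
  | none =>
    have hc : c.eval x = 0 := hx
    have hb : b.eval y = 0 := hy
    have ha : a.eval x ≠ 0 := by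
      intro ha
      rw [ha, hc] at hev
      simp at hev
    have hd : d.eval y ≠ 0 := by
      intro hd
      rw [hb, hd] at hev'
      simp at hev'
    change _ ∧ (_ ↔ _)
    constructor
    · change _ ↔ (derivative c).eval x = 0
      rw [hb, mul_zero, eq_comm, mul_eq_zero]
      exact ⟨fun h => h.resolve_right hd, Or.inl⟩
    · change _ ↔ (derivative b).eval y = 0
      rw [hc, zero_mul, mul_eq_zero]
      exact ⟨fun h => h.resolve_left ha, Or.inr⟩
  | some s =>
    have ha : a.eval x = s * c.eval x := by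
      have h1 : (a - C s * c).eval x = 0 := hx
      rw [eval_sub, eval_mul, eval_C, sub_eq_zero] at h1
      exact h1
    have hd : d.eval y = s * b.eval y := by
      have h1 : (d - C s * b).eval y = 0 := hy
      rw [eval_sub, eval_mul, eval_C, sub_eq_zero] at h1
      exact h1
    have hc0 : c.eval x ≠ 0 := by
      intro hc
      rw [ha, hc] at hev
      simp at hev
    have hb0 : b.eval y ≠ 0 := by
      intro hb
      rw [hd, hb] at hev'
      simp at hev'
    constructor
    · change _ ↔ (derivative (a - C s * c)).eval x = 0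
      have h1 : (derivative (a - C s * c)).eval x = (derivative a).eval x - s * (derivative c).eval x := by
        simp only [derivative_sub, derivative_mul, derivative_C, zero_mul, zero_add, eval_sub, eval_mul, eval_C]
      rw [h1, hd]
      constructor
      · intro h
        have h2 : ((derivative a).eval x - s * (derivative c).eval x) * b.eval y = 0 := by
          linear_combination h
        exact (mul_eq_zero.1 h2).resolve_right hb0
      · intro h
        linear_combination b.eval y * h
    · change _ ↔ (derivative (d - C s * b)).eval y = 0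
      have h1 : (derivative (d - C s * b)).eval y = (derivative d).eval y - s * (derivative b).eval y := by
        simp only [derivative_sub, derivative_mul, derivative_C, zero_mul, zero_add, eval_sub, eval_mul, eval_C]
      rw [h1, ha]
      constructor
      · intro h
        have h2 : c.eval x * ((derivative d).eval y - s * (derivative b).eval y) = 0 := by
          linear_combination -h
        exact (mul_eq_zero.1 h2).resolve_left hc0
      · intro h
        linear_combination -c.eval x * h

/-- Points of the curve: `a x * b y = c x * d y` iff the parameters agree. `→`: let `t` be the parameter of `x` (`pen_unique`), use `spec_FF`/direct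
computation. -/
theorem mem_curve_iff (a b c d : Polynomial ℂ) (hac : IsCoprime a c) (hbd : IsCoprime b d) (x y : ℂ) :
    a.eval x * b.eval y = c.eval x * d.eval y ↔ ∃ t, (pen a c t).eval x = 0 ∧ (pen d b t).eval y = 0 := by
  obtain ⟨t, ht, -⟩ := pen_unique a c hac x
  have key : ∀ t, (pen a c t).eval x = 0 →
      (a.eval x * b.eval y = c.eval x * d.eval y ↔ (pen d b t).eval y = 0) := by
    intro t ht
    obtain ⟨κ, hκ, h⟩ := spec_FF a b c d hac x t ht
    have h1 : (FF a b c d).evalEval x y = κ * (pen d b t).eval y := by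
      rw [← eval_spec, h, eval_mul, eval_C]
    rw [evalEval_FF] at h1
    rw [← sub_eq_zero, h1, mul_eq_zero]
    exact ⟨fun h => h.resolve_left hκ, Or.inr⟩
  constructor
  · intro h
    exact ⟨t, ht, (key t ht).1 h⟩
  · rintro ⟨t', ht', h'⟩
    exact (key t' ht').2 h'




open Polynomial

private theorem BB2_arith {ι : Type} (T : Finset ι) (m n r : ℕ) (p q u v : ι → ℕ)
    (hm : 1 ≤ m) (hn : 1 ≤ n) (hp : ∀ t ∈ T, p t ≤ m) (hq : ∀ t ∈ T, q t ≤ n)
    (hu1 : ∀ t ∈ T, u t ≤ m - p t) (hu2 : ∀ t ∈ T, u t ≤ p t)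
    (hv1 : ∀ t ∈ T, v t ≤ n - q t) (hv2 : ∀ t ∈ T, v t ≤ q t)
    (hA : ∑ t ∈ T, (m - p t) = 2 * m - 1) (hB : ∑ t ∈ T, (n - q t) = 2 * n - 1)
    (hr : n * ∑ t ∈ T, p t + 1 ≤ r + (n + ∑ t ∈ T, p t * q t)) :
    ∑ t ∈ T, u t * v t ≤ r + 1 := by
  have h1 := comb T m n hm hn (fun t => m - p t) (fun t => n - q t) u v
    (fun t _ => Nat.sub_le _ _) (fun t _ => Nat.sub_le _ _) hu1
    (fun t ht => by
      have h2 := hu2 t ht
      have h3 := hp t ht
      lia) hv1
    (fun t ht => by
      have h2 := hv2 t ht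
      have h3 := hq t ht
      lia) hA hB
  have e1 : ∑ t ∈ T, p t * (n - q t) + ∑ t ∈ T, p t * q t = n * ∑ t ∈ T, p t := by
    rw [← Finset.sum_add_distrib, Finset.mul_sum]
    refine Finset.sum_congr rfl fun t ht => ?_
    rw [← mul_add, Nat.sub_add_cancel (hq t ht), mul_comm]
  have e2 : ∑ t ∈ T, p t * (n - q t) + ∑ t ∈ T, (m - p t) * (n - q t) = m * (2 * n - 1) := by
    rw [← Finset.sum_add_distrib, ← hB, Finset.mul_sum]
    refine Finset.sum_congr rfl fun t ht => ?_
    rw [← add_mul, Nat.add_sub_cancel' (hp t ht)]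
  have e3 : m * (2 * n - 1) + m = 2 * m * n := by
    obtain ⟨n', rfl⟩ : ∃ n', n = n' + 1 := ⟨n - 1, by lia⟩
    have h2 : 2 * (n' + 1) - 1 = 2 * n' + 1 := by lia
    rw [h2]
    ring
  rw [Finset.sum_add_distrib] at h1
  lia

private theorem BB2_nr_C (κ : ℂ) (hκ : κ ≠ 0) (p : Polynomial ℂ) : nr (C κ * p) = nr p := by
  unfold nr
  rw [roots_C_mul p hκ]

private theorem BB2_ncard (F : Polynomial (Polynomial ℂ)) (x : ℂ) (h : spec x F ≠ 0) :
    {y : ℂ | (x, y) ∈ curve F}.ncard = nr (spec x F) := by
  have h1 : {y : ℂ | (x, y) ∈ curve F} = ↑(spec x F).roots.toFinset := by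
    ext y
    rw [Finset.mem_coe, Multiset.mem_toFinset, mem_roots h, IsRoot.def, eval_spec]
    rfl
  rw [h1, Set.ncard_coe_finset]
  rfl

/-- the pencil data of a point `x` -/
private theorem BB2_spec (a b c d : Polynomial ℂ) (hac : IsCoprime a c) (x : ℂ) (t : Option ℂ)
    (ht : (pen a c t).eval x = 0) : nr (spec x (FF a b c d)) = nr (pen d b t) := by
  obtain ⟨κ, hκ, h⟩ := spec_FF a b c d hac x t ht
  rw [h, BB2_nr_C κ hκ]

/-- (BB-4)  Notation `P t = pen a c t`, `Q t = pen d b t`, both nonzero (`pen_ne_zero`; for `Q` with `IsCoprime d b`,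
`n = max d.natDegree b.natDegree`), of natDegree `≤ m` resp. `≤ n`.
Proof. `riemann_hurwitz a c` gives `T₁`, `riemann_hurwitz d b` gives `T₂`; `T = T₁ ∪ T₂`. `A t = m - nr (P t)`, `B t = n - nr (Q t)`; both vanish off `T`
and `∑ t ∈ T, A t = 2m - 1`, `∑ t ∈ T, B t = 2n - 1` (`Finset.sum_subset`).
`S = T.biUnion (fun t => (P t).roots.toFinset)`: for `x ∉ S` the parameter `t` of `x` (`pen_unique`) is not in `T`, so `nr (Q t) = n`, and `nr (spec x (FF a b c d)) = nr (Q t)`
(`spec_FF`: nonzero constant multiple, `roots_C_mul`), `= n = natDegree (FF ..)` (`natDegree_FF`). `spec x (FF ..) ≠ 0` always. So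
`covData_curve` and `rank_bound_cov` apply: `n * S.card + 1 ≤ rank + (n + ∑ x ∈ S, {y | (x,y) ∈ curve}.ncard)`, and
`{y | (x, y) ∈ curve}.ncard = nr (spec x FF) = nr (Q t)` for `x ∈ roots of P t`. The sets `(P t).roots.toFinset` are pairwise disjoint (`pen_unique`), so
`S.card = ∑ t ∈ T, nr (P t)` and `∑ x ∈ S, ncard = ∑ t ∈ T, nr (P t) * nr (Q t)`. Hence (naturals if the rank is finite)
`∑ t ∈ T, nr (P t) * B t + 1 ≤ rank + n`, where `nr (P t) = m - A t`.
Singular set `Σ`: by `mem_curve_iff`, `partials_iff` it is the union over `t` of `U t ×ˢ V t`, `U t = (P t).roots.toFinset.filter (derivative (P t) = 0)`,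
`V t` likewise for `Q t`. If `t ∉ T` then `U t = ∅` (`card ≤ m - nr (P t) = 0`, `mult_le`). So `Σ` is finite and `Σ.ncard ≤ ∑ t ∈ T, u t * v t`
(`u t = (U t).card`, `v t = (V t).card`). `mult_le` gives `u t ≤ A t`, `u t ≤ nr (P t) = m - A t`, same for `v`.
`comb` gives `∑ (A t * B t + u t * v t) + m + n ≤ 2 m n + 2`. Finally `∑ nr (P t) * B t = m (2n - 1) - ∑ A t * B t`, so
`Σ.ncard + m (2n-1) - ∑ nr(P t) B t + m + n ≤ 2 m n + 2`, i.e. `Σ.ncard + n ≤ ∑ nr (P t) B t + 2 ≤ rank + n + 1`. (If the rank is `≥ ℵ₀` the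
claim is trivial.) -/
theorem bound_b_core (a b c d : Polynomial ℂ) (hac : IsCoprime a c) (hbd : IsCoprime b d)
    (m n : ℕ) (hm : m = max a.natDegree c.natDegree) (hn : n = max b.natDegree d.natDegree)
    (hm1 : 1 ≤ m) (hn1 : 1 ≤ n) :
    {p : ℂ × ℂ | a.eval p.1 * b.eval p.2 = c.eval p.1 * d.eval p.2 ∧
      (derivative a).eval p.1 * b.eval p.2 = (derivative c).eval p.1 * d.eval p.2 ∧
      a.eval p.1 * (derivative b).eval p.2 = c.eval p.1 * (derivative d).eval p.2}.Finite ∧
    (({p : ℂ × ℂ | a.eval p.1 * b.eval p.2 = c.eval p.1 * d.eval p.2 ∧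
      (derivative a).eval p.1 * b.eval p.2 = (derivative c).eval p.1 * d.eval p.2 ∧
      a.eval p.1 * (derivative b).eval p.2 = c.eval p.1 * (derivative d).eval p.2}.ncard : ℕ) :
      Cardinal) ≤ Module.rank ℚ (H1Q (curve (FF a b c d))) + 1 := by
  classical
  have hn' : n = max d.natDegree b.natDegree := by rw [hn, max_comm]
  have hdb : IsCoprime d b := hbd.symm
  obtain ⟨T₁, hT₁, hT₁s⟩ := riemann_hurwitz a c hac m hm hm1
  obtain ⟨T₂, hT₂, hT₂s⟩ := riemann_hurwitz d b hdb n hn' hn1
  set T : Finset (Option ℂ) := T₁ ∪ T₂ with hT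
  have hP0 : ∀ t, pen a c t ≠ 0 := fun t => pen_ne_zero a c hac m hm hm1 t
  have hQ0 : ∀ t, pen d b t ≠ 0 := fun t => pen_ne_zero d b hdb n hn' hn1 t
  have hPm : ∀ t, (pen a c t).natDegree ≤ m := fun t => pen_natDegree_le a c m hm t
  have hQn : ∀ t, (pen d b t).natDegree ≤ n := fun t => pen_natDegree_le d b n hn' t
  have hpm : ∀ t, nr (pen a c t) ≤ m := fun t => (nr_le_natDegree _).trans (hPm t)
  have hqn : ∀ t, nr (pen d b t) ≤ n := fun t => (nr_le_natDegree _).trans (hQn t)
  have hA : ∑ t ∈ T, (m - nr (pen a c t)) = 2 * m - 1 := by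
    rw [← hT₁s]
    refine (Finset.sum_subset Finset.subset_union_left fun t _ ht => ?_).symm
    rw [hT₁ t ht, Nat.sub_self]
  have hB : ∑ t ∈ T, (n - nr (pen d b t)) = 2 * n - 1 := by
    rw [← hT₂s]
    refine (Finset.sum_subset Finset.subset_union_right fun t _ ht => ?_).symm
    rw [hT₂ t ht, Nat.sub_self]
  -- the exceptional points
  have hmemP : ∀ t x, x ∈ (pen a c t).roots.toFinset ↔ (pen a c t).eval x = 0 := by
    intro t x
    rw [Multiset.mem_toFinset, mem_roots (hP0 t), IsRoot.def]
  have hmemQ : ∀ t x, x ∈ (pen d b t).roots.toFinset ↔ (pen d b t).eval x = 0 := by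
    intro t x
    rw [Multiset.mem_toFinset, mem_roots (hQ0 t), IsRoot.def]
  set S : Finset ℂ := T.biUnion fun t => (pen a c t).roots.toFinset with hS
  have hdeg : (FF a b c d).natDegree = n := natDegree_FF a b c d hac m n hm hn hm1 hn1
  have hne : ∀ z, spec z (FF a b c d) ≠ 0 := by
    intro z
    obtain ⟨t, ht, -⟩ := pen_unique a c hac z
    obtain ⟨κ, hκ, h⟩ := spec_FF a b c d hac z t ht
    rw [h]
    exact mul_ne_zero (C_ne_zero.2 hκ) (hQ0 t)
  have hSout : ∀ z, z ∉ S → nr (spec z (FF a b c d)) = (FF a b c d).natDegree := by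
    intro z hz
    obtain ⟨t, ht, -⟩ := pen_unique a c hac z
    rw [BB2_spec a b c d hac z t ht, hdeg]
    refine hT₂ t fun ht2 => hz ?_
    exact Finset.mem_biUnion.2 ⟨t, Finset.mem_union_right _ ht2, (hmemP t z).2 ht⟩
  have hcov := covData_curve (FF a b c d) (by rw [hdeg]; exact hn1) S hSout hne
  rw [hdeg] at hcov
  have hrank := rank_bound_cov hcov
  have hdisj : ((T : Finset (Option ℂ)) : Set (Option ℂ)).PairwiseDisjoint
      fun t => (pen a c t).roots.toFinset := by
    intro t _ t' _ htt
    refine Finset.disjoint_left.2 fun x hx hx' => htt ?_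
    obtain ⟨t0, -, ht0⟩ := pen_unique a c hac x
    rw [ht0 t ((hmemP t x).1 hx), ht0 t' ((hmemP t' x).1 hx')]
  have hScard : S.card = ∑ t ∈ T, nr (pen a c t) := by
    rw [hS, Finset.card_biUnion hdisj]
    rfl
  have hSsum : ∑ x ∈ S, {y : ℂ | (x, y) ∈ curve (FF a b c d)}.ncard =
      ∑ t ∈ T, nr (pen a c t) * nr (pen d b t) := by
    rw [hS, Finset.sum_biUnion hdisj]
    refine Finset.sum_congr rfl fun t _ => ?_
    have h1 : ∀ x ∈ (pen a c t).roots.toFinset,
        {y : ℂ | (x, y) ∈ curve (FF a b c d)}.ncard = nr (pen d b t) := by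
      intro x hx
      rw [BB2_ncard _ _ (hne x), BB2_spec a b c d hac x t ((hmemP t x).1 hx)]
    rw [Finset.sum_congr rfl h1, Finset.sum_const, smul_eq_mul]
    rfl
  rw [hScard, hSsum] at hrank
  -- the singular set
  set U : Option ℂ → Finset ℂ := fun t =>
    (pen a c t).roots.toFinset.filter (fun y => (derivative (pen a c t)).eval y = 0) with hU
  set V : Option ℂ → Finset ℂ := fun t =>
    (pen d b t).roots.toFinset.filter (fun y => (derivative (pen d b t)).eval y = 0) with hV
  have hu := fun t => mult_le (pen a c t) (hP0 t) m (hPm t)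
  have hv := fun t => mult_le (pen d b t) (hQ0 t) n (hQn t)
  set G : Set (ℂ × ℂ) := {p : ℂ × ℂ | a.eval p.1 * b.eval p.2 = c.eval p.1 * d.eval p.2 ∧
      (derivative a).eval p.1 * b.eval p.2 = (derivative c).eval p.1 * d.eval p.2 ∧
      a.eval p.1 * (derivative b).eval p.2 = c.eval p.1 * (derivative d).eval p.2} with hG
  have hsub : G ⊆ ↑(T.biUnion fun t => U t ×ˢ V t) := by
    rintro ⟨x, y⟩ ⟨h1, h2, h3⟩
    simp only at h1 h2 h3
    obtain ⟨t, htx, hty⟩ := (mem_curve_iff a b c d hac hbd x y).1 h1
    obtain ⟨h4, h5⟩ := partials_iff a b c d hac hbd x y t htx hty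
    have hxU : x ∈ U t := Finset.mem_filter.2 ⟨(hmemP t x).2 htx, h4.1 h2⟩
    have hyV : y ∈ V t := Finset.mem_filter.2 ⟨(hmemQ t y).2 hty, h5.1 h3⟩
    have htT : t ∈ T := by
      by_contra hc
      have h6 : t ∉ T₁ := fun h7 => hc (Finset.mem_union_left _ h7)
      have h7 := (hu t).1
      rw [hT₁ t h6, Nat.sub_self] at h7
      have h8 : 0 < (U t).card := Finset.card_pos.2 ⟨x, hxU⟩
      exact absurd h7 (not_le.2 h8)
    rw [Finset.mem_coe, Finset.mem_biUnion]
    exact ⟨t, htT, Finset.mem_product.2 ⟨hxU, hyV⟩⟩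
  have hfin : G.Finite := (Finset.finite_toSet _).subset hsub
  refine ⟨hfin, ?_⟩
  have hcard : G.ncard ≤ ∑ t ∈ T, (U t).card * (V t).card := by
    have h1 := Set.ncard_le_ncard hsub (Finset.finite_toSet _)
    rw [Set.ncard_coe_finset] at h1
    refine h1.trans (Finset.card_biUnion_le.trans (le_of_eq ?_))
    exact Finset.sum_congr rfl fun t _ => Finset.card_product _ _
  rcases lt_or_ge (Module.rank ℚ (H1Q (curve (FF a b c d)))) Cardinal.aleph0 with hlt | hge
  · obtain ⟨r, hr⟩ := Cardinal.lt_aleph0.1 hlt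
    rw [hr] at hrank ⊢
    have h1 : n * ∑ t ∈ T, nr (pen a c t) + 1 ≤
        r + (n + ∑ t ∈ T, nr (pen a c t) * nr (pen d b t)) := by
      exact_mod_cast hrank
    have h2 := BB2_arith T m n r (fun t => nr (pen a c t)) (fun t => nr (pen d b t))
      (fun t => (U t).card) (fun t => (V t).card) hm1 hn1 (fun t _ => hpm t) (fun t _ => hqn t)
      (fun t _ => (hu t).1) (fun t _ => (hu t).2) (fun t _ => (hv t).1) (fun t _ => (hv t).2)
      hA hB h1
    exact_mod_cast hcard.trans h2
  · exact ((Cardinal.natCast_lt_aleph0 (n := G.ncard)).le.trans hge).trans (self_le_add_right _ _)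


end Pool.Agent.LZ
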