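import Pool.Agent.Lib.MP_79da24_ag.Poly
import Pool.Agent.Lib.MP_79da24_ag.HI

set_option autoImplicit false

/-!
# From `MvPolynomial (Fin 2)` to iterated polynomials.
-/

namespace Pool.Agent.LZ


open Polynomial

/-- The zero set of `f ∈ ℂ[X₀, X₁]`, with the Euclidean topology. -/
abbrev Zer (f : MvPolynomial (Fin 2) ℂ) : Type := {z : Fin 2 → ℂ // MvPolynomial.eval z f = 0}

/-- The singular points of the curve `f = 0`. -/
def SingPts (f : MvPolynomial (Fin 2) ℂ) : Set (Fin 2 → ℂ) :=
  {p | MvPolynomial.eval p f = 0 ∧ ∀ i : Fin 2, MvPolynomial.eval p (MvPolynomial.pderiv i f) = 0}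

/-- `ℂ[X₀, X₁] → ℂ[x][Y]`, `X₀ ↦ x`, `X₁ ↦ Y`. -/
noncomputable def toBi : MvPolynomial (Fin 2) ℂ →ₐ[ℂ] Polynomial (Polynomial ℂ) :=
  MvPolynomial.aeval (fun i : Fin 2 => if i = 0 then C X else X)




open Polynomial



private theorem Bi1_X0 : toBi (MvPolynomial.X 0) = C X := by
  simp [toBi]

private theorem Bi1_X1 : toBi (MvPolynomial.X 1) = X := by
  simp [toBi]

/-- The inverse map. -/
private noncomputable def Bi1_inv : Polynomial (Polynomial ℂ) →+* MvPolynomial (Fin 2) ℂ :=
  Polynomial.eval₂RingHom (Polynomial.eval₂RingHom MvPolynomial.C (MvPolynomial.X 0))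
    (MvPolynomial.X 1)

/-- Inverse: `Polynomial.eval₂RingHom (Polynomial.eval₂RingHom MvPolynomial.C (X 0)) (X 1)` (or with `aeval`); both compositions are
the identity by `MvPolynomial.algHom_ext`/`ringHom_ext` and `Polynomial.ringHom_ext`. (Alternative: build it from `MvPolynomial.finSuccEquiv`; the
direct way is easier.) -/
theorem bijective_toBi : Function.Bijective toBi := by
  have h1 : (Bi1_inv.comp (toBi : MvPolynomial (Fin 2) ℂ →+* Polynomial (Polynomial ℂ))) =
      RingHom.id _ := by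
    apply MvPolynomial.ringHom_ext
    · intro r
      simp [Bi1_inv]
    · intro i
      fin_cases i
      · simp [Bi1_inv, Bi1_X0]
      · simp [Bi1_inv, Bi1_X1]
  have h2 : ((toBi : MvPolynomial (Fin 2) ℂ →+* Polynomial (Polynomial ℂ)).comp Bi1_inv) =
      RingHom.id _ := by
    apply Polynomial.ringHom_ext'
    · apply Polynomial.ringHom_ext'
      · ext a
        simp [Bi1_inv]
      · simp [Bi1_inv, Bi1_X0]
    · simp [Bi1_inv, Bi1_X1]
  refine Function.bijective_iff_has_inverse.mpr ⟨Bi1_inv, ?_, ?_⟩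
  · intro f
    exact congrArg (fun g => g f) h1
  · intro f
    exact congrArg (fun g => g f) h2

/-- Both sides are ring homs in `f` (`evalEvalRingHom`), agree on constants and on `X 0`, `X 1`; or `MvPolynomial.induction_on`. -/
theorem evalEval_toBi (f : MvPolynomial (Fin 2) ℂ) (p : Fin 2 → ℂ) :
    (toBi f).evalEval (p 0) (p 1) = MvPolynomial.eval p f := by
  induction f using MvPolynomial.induction_on with
  | C a => simp [Polynomial.evalEval]
  | add f g hf hg => simp [map_add, hf, hg, Polynomial.evalEval_add]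
  | mul_X f i hf =>
    rw [map_mul, map_mul, Polynomial.evalEval_mul, hf]
    congr 1
    fin_cases i
    · simp [Bi1_X0, Polynomial.evalEval]
    · simp [Bi1_X1, Polynomial.evalEval]

/-- `MvPolynomial.induction_on` with the Leibniz rule (`derivative_mul`, `Derivation.leibniz`, `pderiv_X`). -/
theorem derivative_toBi (f : MvPolynomial (Fin 2) ℂ) :
    derivative (toBi f) = toBi (MvPolynomial.pderiv 1 f) := by
  induction f using MvPolynomial.induction_on with
  | C a => simp
  | add f g hf hg => simp [map_add, hf, hg]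
  | mul_X f i hf =>
    rw [map_mul, derivative_mul, hf, Derivation.leibniz]
    fin_cases i
    · simp [Bi1_X0, MvPolynomial.pderiv_X, mul_comm]
    · simp [Bi1_X1, MvPolynomial.pderiv_X, mul_comm, add_comm]




open Polynomial



/-- The finitely supported function `0 ↦ j`, `1 ↦ k`. -/
private noncomputable def Bi2_e (j k : ℕ) : Fin 2 →₀ ℕ := Finsupp.single 0 j + Finsupp.single 1 k

private theorem Bi2_e0 (j k : ℕ) : Bi2_e j k 0 = j := by
  simp [Bi2_e]

private theorem Bi2_e1 (j k : ℕ) : Bi2_e j k 1 = k := by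
  simp [Bi2_e]

private theorem Bi2_eq_iff (m : Fin 2 →₀ ℕ) (j k : ℕ) : m = Bi2_e j k ↔ m 0 = j ∧ m 1 = k := by
  constructor
  · rintro rfl
    exact ⟨Bi2_e0 j k, Bi2_e1 j k⟩
  · rintro ⟨h0, h1⟩
    ext i
    fin_cases i
    · exact h0.trans (Bi2_e0 j k).symm
    · exact h1.trans (Bi2_e1 j k).symm

private theorem Bi2_monomial (m : Fin 2 →₀ ℕ) (a : ℂ) :
    toBi (MvPolynomial.monomial m a) = C (C a * X ^ (m 0)) * X ^ (m 1) := by
  rw [toBi, MvPolynomial.aeval_monomial, Finsupp.prod_fintype _ _ (fun i => pow_zero _),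
    Fin.prod_univ_two, if_pos rfl, if_neg (by decide), Polynomial.algebraMap_apply, Polynomial.algebraMap_apply,
    C_mul, C_pow, mul_assoc]
  rfl

private theorem Bi2_coeff (f : MvPolynomial (Fin 2) ℂ) (j k : ℕ) :
    ((toBi f).coeff k).coeff j = MvPolynomial.coeff (Bi2_e j k) f := by
  induction f using MvPolynomial.induction_on' with
  | monomial m a =>
    rw [Bi2_monomial, coeff_C_mul_X_pow, MvPolynomial.coeff_monomial]
    by_cases h1 : k = m 1
    · rw [if_pos h1, coeff_C_mul_X_pow]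
      by_cases h0 : j = m 0
      · rw [if_pos h0, if_pos ((Bi2_eq_iff m j k).2 ⟨h0.symm, h1.symm⟩)]
      · rw [if_neg h0, if_neg (fun h => h0 ((Bi2_eq_iff m j k).1 h).1.symm)]
    · rw [if_neg h1, coeff_zero, if_neg (fun h => h1 ((Bi2_eq_iff m j k).1 h).2.symm)]
  | add p q hp hq =>
    rw [map_add, coeff_add, coeff_add, MvPolynomial.coeff_add, hp, hq]

/-- (BI-4) `f = ∑_{m ∈ support} coeff m f * X₀^{m 0} X₁^{m 1}`, `toBi f = ∑ C (C (coeff m f) * X^(m 0)) * X^(m 1)`, so
`((toBi f).coeff k).coeff j = MvPolynomial.coeff (single 0 j + single 1 k) f` (prove this first, e.g. by `MvPolynomial.induction_on'` / linearity on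
monomials: `monomial m a ↦ monomial (m 1) (monomial (m 0) a)`). Then `natDegree ≤ k ↔ ∀ j > k, coeff j = 0` and `degreeOf_le_iff`
(`∀ m ∈ support, m 1 ≤ k`): prove both inequalities. -/
theorem natDegree_toBi (f : MvPolynomial (Fin 2) ℂ) :
    (toBi f).natDegree = MvPolynomial.degreeOf 1 f := by
  apply le_antisymm
  · rw [natDegree_le_iff_coeff_eq_zero]
    intro k hk
    ext j
    rw [Bi2_coeff, coeff_zero]
    by_contra hne
    have h1 : Bi2_e j k ∈ f.support := MvPolynomial.mem_support_iff.2 hne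
    have h2 := MvPolynomial.degreeOf_le_iff.1 (le_refl (MvPolynomial.degreeOf 1 f)) _ h1
    rw [Bi2_e1] at h2
    omega
  · rw [MvPolynomial.degreeOf_le_iff]
    intro m hm
    apply le_natDegree_of_ne_zero
    intro h0
    have h1 := Bi2_coeff f (m 0) (m 1)
    rw [h0, coeff_zero, ← (Bi2_eq_iff m (m 0) (m 1)).2 ⟨rfl, rfl⟩] at h1
    exact MvPolynomial.mem_support_iff.1 hm h1.symm

/-- (BI-5) The homeomorphism `curve (toBi f) ≃ₜ Zer f`, `(x, y) ↦ ![x, y]`, inverse `z ↦ (z 0, z 1)` (`evalEval_toBi`), and `rank_H1Q_homeo` of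
HI.lean. -/
theorem rank_H1Q_toBi (f : MvPolynomial (Fin 2) ℂ) :
    Module.rank ℚ (H1Q (curve (toBi f))) = Module.rank ℚ (H1Q (Zer f)) := by
  have h1 : ∀ p : ℂ × ℂ, p ∈ curve (toBi f) → MvPolynomial.eval ![p.1, p.2] f = 0 := by
    intro p hp
    rw [← evalEval_toBi]
    exact hp
  have h2 : ∀ z : Fin 2 → ℂ, MvPolynomial.eval z f = 0 → (z 0, z 1) ∈ curve (toBi f) := by
    intro z hz
    rw [← evalEval_toBi] at hz
    exact hz
  have c1 : Continuous fun p : ℂ × ℂ => (![p.1, p.2] : Fin 2 → ℂ) := by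
    refine continuous_pi fun i => ?_
    fin_cases i
    · exact continuous_fst
    · exact continuous_snd
  have c2 : Continuous fun z : Fin 2 → ℂ => (z 0, z 1) :=
    (continuous_apply 0).prodMk (continuous_apply 1)
  let e : curve (toBi f) ≃ₜ Zer f :=
    { toFun := fun p => ⟨![p.1.1, p.1.2], h1 p.1 p.2⟩
      invFun := fun z => ⟨(z.1 0, z.1 1), h2 z.1 z.2⟩
      left_inv := fun p => Subtype.ext (Prod.ext rfl rfl)
      right_inv := fun z => Subtype.ext (by
        funext i
        fin_cases i <;> rfl)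
      continuous_toFun := (c1.comp continuous_subtype_val).subtype_mk _
      continuous_invFun := (c2.comp continuous_subtype_val).subtype_mk _ }
  exact rank_H1Q_homeo e


end Pool.Agent.LZ
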