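import Pool.Agent.Lib.MP_79da24_ag.TD

set_option autoImplicit false

namespace Pool.Agent.LZ

open Polynomial Filter Topology Metric

/-- (GlA1) Proof. `EventuallyEq.deriv` and `EventuallyEq.eq_of_nhds` (use `eventually_eventually_nhds`). -/
theorem Lq_congr {n : ℕ} {s t : Fin n → ℂ → ℂ} {z : ℂ} {i j i' j' : Fin n} (hi : t i =ᶠ[𝓝 z] s i')
    (hj : t j =ᶠ[𝓝 z] s j') : Lq t i j =ᶠ[𝓝 z] Lq s i' j' := by
  filter_upwards [hi.eventuallyEq_nhds, hj.eventuallyEq_nhds] with w h1 h2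
  unfold Lq
  rw [h1.deriv_eq, h2.deriv_eq, h1.eq_of_nhds, h2.eq_of_nhds]

/-- (GlA2) -/
theorem qq_congr {n : ℕ} {s t : Fin n → ℂ → ℂ} {z : ℂ} {i j k i' j' k' : Fin n} (hi : t i =ᶠ[𝓝 z] s i')
    (hj : t j =ᶠ[𝓝 z] s j') (hk : t k =ᶠ[𝓝 z] s k') : qq t i j k =ᶠ[𝓝 z] qq s i' j' k' := by
  filter_upwards [Lq_congr hi hj, Lq_congr hi hk, hj, hk] with w h1 h2 h3 h4
  unfold qq
  rw [h1, h2, h3, h4]

/-- (GlA3) -/
theorem Zg_congr {n : ℕ} {s t : Fin n → ℂ → ℂ} {z : ℂ} {i j k i' j' k' : Fin n} (hi : t i =ᶠ[𝓝 z] s i')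
    (hj : t j =ᶠ[𝓝 z] s j') (hk : t k =ᶠ[𝓝 z] s k') : Zg t i j k z ↔ Zg s i' j' k' z := by
  exact Filter.eventually_congr ((qq_congr hi hj hk).mono fun w hw => by rw [hw])

/-- (GlA4) -/
theorem Qt_congr {n : ℕ} {s t : Fin n → ℂ → ℂ} {z : ℂ} (c₀ : ℂ) {i j k i' j' k' : Fin n} (hi : t i =ᶠ[𝓝 z] s i')
    (hj : t j =ᶠ[𝓝 z] s j') (hk : t k =ᶠ[𝓝 z] s k') : Qt c₀ t (i, j, k) z = Qt c₀ s (i', j', k') z := by
  unfold Qt
  dsimp only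
  by_cases h : Zg t i j k z
  · rw [if_pos h, if_pos ((Zg_congr hi hj hk).1 h), hj.eq_of_nhds, hk.eq_of_nhds]
  · rw [if_neg h, if_neg (fun h' => h ((Zg_congr hi hj hk).2 h')), (qq_congr hi hj hk).eq_of_nhds]

private theorem GlA_ps {n : ℕ} {s t : Fin n → ℂ → ℂ} {z : ℂ} (σ : Equiv.Perm (Fin n))
    (h : ∀ i, t i =ᶠ[𝓝 z] s (σ i)) : Ps t z = Ps s z := by
  unfold Ps
  refine Finset.prod_equiv (Equiv.prodCongr σ σ) ?_ ?_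
  · rintro ⟨i, j⟩
    simp [P2]
  · rintro ⟨i, j⟩ _
    simp [(h i).eq_of_nhds, (h j).eq_of_nhds]

/-- (GlA5) Proof. Reindex both products by `σ` (`Finset.prod_bij'`/`Finset.prod_equiv` with the equivalence
`Equiv.prodCongr σ (Equiv.prodCongr σ σ)`; `T3 n`, `P2 n` are invariant as `σ` is injective) and use GlA4 and `EventuallyEq.eq_of_nhds`. -/
theorem Psi_congr {n : ℕ} {s t : Fin n → ℂ → ℂ} {z : ℂ} (c₀ : ℂ) (b : ℕ) (σ : Equiv.Perm (Fin n))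
    (h : ∀ i, t i =ᶠ[𝓝 z] s (σ i)) : Psi c₀ b t z = Psi c₀ b s z := by
  unfold Psi
  rw [GlA_ps σ h]
  refine congrArg (fun x => x * Ps s z ^ b) ?_
  refine Finset.prod_equiv (Equiv.prodCongr σ (Equiv.prodCongr σ σ)) ?_ ?_
  · rintro ⟨i, j, k⟩
    simp [T3]
  · rintro ⟨i, j, k⟩ _
    exact Qt_congr c₀ (h i) (h j) (h k)

/-- (GlA6) Proof. The same for `Ps`. -/
theorem Ps_congr {n : ℕ} {s t : Fin n → ℂ → ℂ} {z : ℂ} (σ : Equiv.Perm (Fin n))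
    (h : ∀ i, t i =ᶠ[𝓝 z] s (σ i)) : Ps t z = Ps s z := by
  exact GlA_ps σ h

end Pool.Agent.LZ
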