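import Pool.Agent.Lib.MP_79da24_ag.Poly
import Pool.Agent.Lib.MP_79da24_ag.Sect

set_option autoImplicit false

/-!
# The projection of a plane curve is a covering outside a finite set.
-/

namespace Pool.Agent.LZ


open Polynomial

private theorem Cover1_sum (F : Polynomial (Polynomial ℂ)) (x y : ℂ) :
    F.evalEval x y = ∑ i ∈ Finset.range (F.natDegree + 1), (F.coeff i).eval x * y ^ i := by
  rw [Polynomial.evalEval, Polynomial.eval_eq_sum_range (p := F) (C y), Polynomial.eval_finsetSum]
  refine Finset.sum_congr rfl (fun i _ => ?_)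
  rw [Polynomial.eval_mul, Polynomial.eval_pow, Polynomial.eval_C]

private theorem Cover1_cd (F : Polynomial (Polynomial ℂ)) :
    ContDiff ℂ 1 (fun p : ℂ × ℂ => F.evalEval p.1 p.2) := by
  have h : (fun p : ℂ × ℂ => F.evalEval p.1 p.2) =
      fun p : ℂ × ℂ => ∑ i ∈ Finset.range (F.natDegree + 1), (F.coeff i).eval p.1 * p.2 ^ i := by
    funext p
    exact Cover1_sum F p.1 p.2
  rw [h]
  refine ContDiff.sum (fun i _ => ?_)
  have hp : ContDiff ℂ 1 (fun x : ℂ => (F.coeff i).eval x) := by
    have h2 : (fun x : ℂ => (F.coeff i).eval x) =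
        fun x : ℂ => ∑ j ∈ Finset.range ((F.coeff i).natDegree + 1), (F.coeff i).coeff j * x ^ j := by
      funext x
      exact Polynomial.eval_eq_sum_range x
    rw [h2]
    exact ContDiff.sum (fun j _ => contDiff_const.mul (contDiff_id.pow j))
  exact (hp.comp contDiff_fst).mul (contDiff_snd.pow i)

private theorem Cover1_dy (F : Polynomial (Polynomial ℂ)) (x y : ℂ) :
    HasDerivAt (fun y : ℂ => F.evalEval x y) ((derivative F).evalEval x y) y := by
  have h1 : ∀ (P : Polynomial (Polynomial ℂ)) (y : ℂ), P.evalEval x y =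
      (P.map (Polynomial.evalRingHom x)).eval y := by
    intro P y
    exact (Polynomial.map_evalRingHom_eval x y P).symm
  have h2 : (fun y : ℂ => F.evalEval x y) = fun y => (F.map (Polynomial.evalRingHom x)).eval y := by
    funext y
    exact h1 F y
  rw [h2, h1, ← Polynomial.derivative_map]
  exact Polynomial.hasDerivAt _ _

/-- (COV-1) local continuous section through a simple root.
Proof A (implicit function theorem): the map `G : ℂ × ℂ → ℂ`, `G (x, y) = F.evalEval x y` is polynomial, hence `C^1`; its derivative in the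
`y` direction at `(z₀, y₀)` is `(derivative F).evalEval z₀ y₀ ≠ 0`. Apply the inverse function theorem to `(x, y) ↦ (x, G (x, y))`, or
`HasStrictFDerivAt.implicitFunction...`.
Proof B (elementary, continuity of roots, no calculus): it is enough to find `D` open around `z₀` and for each `z ∈ D` a root `g z` of
`spec z F` depending continuously on `z`. One can use Mathlib's results if there are any.
(`evalEval`: inner variable first: `F.evalEval x y = eval x (eval (C y) F)`; `map_evalRingHom_eval`.)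
Deliver any proof. -/
theorem exists_local_section (F : Polynomial (Polynomial ℂ)) (z₀ y₀ : ℂ)
    (h0 : F.evalEval z₀ y₀ = 0) (h1 : (derivative F).evalEval z₀ y₀ ≠ 0) :
    ∃ (D : Set ℂ) (g : ℂ → ℂ), IsOpen D ∧ z₀ ∈ D ∧ ContinuousOn g D ∧ g z₀ = y₀ ∧
      ∀ z ∈ D, F.evalEval z (g z) = 0 := by
  set G : ℂ × ℂ → ℂ := fun p => F.evalEval p.1 p.2 with hG
  have hGc : ContDiff ℂ 1 G := Cover1_cd F
  have hGs : HasStrictFDerivAt G (fderiv ℂ G (z₀, y₀)) (z₀, y₀) :=
    hGc.contDiffAt.hasStrictFDerivAt one_ne_zero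
  set f' : ℂ × ℂ →L[ℂ] ℂ := fderiv ℂ G (z₀, y₀) with hf'
  have hb : f' (0, 1) = (derivative F).evalEval z₀ y₀ := by
    have h2 : HasDerivAt (fun y : ℂ => ((z₀, y) : ℂ × ℂ)) ((0, 1) : ℂ × ℂ) y₀ :=
      (hasDerivAt_const y₀ z₀).prodMk (hasDerivAt_id y₀)
    have h3 : HasDerivAt (fun y : ℂ => G (z₀, y)) (f' (0, 1)) y₀ :=
      hGs.hasFDerivAt.comp_hasDerivAt y₀ h2
    exact h3.unique (Cover1_dy F z₀ y₀)
  set b : ℂ := f' (0, 1) with hbdef
  have hb0 : b ≠ 0 := by
    rw [hb]
    exact h1
  set a : ℂ := f' (1, 0) with hadef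
  have hab : ∀ u v : ℂ, f' (u, v) = a * u + b * v := by
    intro u v
    have e : ((u, v) : ℂ × ℂ) = u • ((1, 0) : ℂ × ℂ) + v • ((0, 1) : ℂ × ℂ) := by
      ext <;> simp
    rw [e, map_add, map_smul, map_smul, smul_eq_mul, smul_eq_mul, mul_comm u, mul_comm v]
  set H' : ℂ × ℂ →L[ℂ] ℂ × ℂ := (ContinuousLinearMap.fst ℂ ℂ ℂ).prod f' with hH'
  set K' : ℂ × ℂ →L[ℂ] ℂ × ℂ := (ContinuousLinearMap.fst ℂ ℂ ℂ).prod
    (b⁻¹ • (ContinuousLinearMap.snd ℂ ℂ ℂ - a • ContinuousLinearMap.fst ℂ ℂ ℂ)) with hK'
  have hl : Function.LeftInverse K' H' := by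
    rintro ⟨u, v⟩
    show ((u, b⁻¹ * (f' (u, v) - a * u)) : ℂ × ℂ) = (u, v)
    rw [hab]
    congr 1
    field_simp
    ring
  have hr : Function.RightInverse K' H' := by
    rintro ⟨u, v⟩
    show ((u, f' (u, b⁻¹ * (v - a * u))) : ℂ × ℂ) = (u, v)
    rw [hab]
    congr 1
    field_simp
    ring
  set e : (ℂ × ℂ) ≃L[ℂ] (ℂ × ℂ) := ContinuousLinearEquiv.equivOfInverse H' K' hl hr with he
  set H : ℂ × ℂ → ℂ × ℂ := fun p => (p.1, G p) with hH
  have hHs : HasStrictFDerivAt H (e : (ℂ × ℂ) →L[ℂ] (ℂ × ℂ)) (z₀, y₀) :=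
    hasStrictFDerivAt_fst.prodMk hGs
  set φ := hHs.toOpenPartialHomeomorph H with hφ
  have hsrc : ((z₀, y₀) : ℂ × ℂ) ∈ φ.source := hHs.mem_toOpenPartialHomeomorph_source
  have hcoe : ∀ p, φ p = H p := fun p => rfl
  have hH0 : H (z₀, y₀) = (z₀, 0) := by
    show ((z₀, F.evalEval z₀ y₀) : ℂ × ℂ) = (z₀, 0)
    rw [h0]
  have htgt : ((z₀, 0) : ℂ × ℂ) ∈ φ.target := by
    rw [← hH0, ← hcoe]
    exact φ.map_source hsrc
  have hi : Continuous (fun z : ℂ => ((z, 0) : ℂ × ℂ)) := by fun_prop
  refine ⟨(fun z : ℂ => ((z, 0) : ℂ × ℂ)) ⁻¹' φ.target, fun z => (φ.symm (z, 0)).2,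
    φ.open_target.preimage hi, htgt, ?_, ?_, ?_⟩
  · refine continuous_snd.comp_continuousOn (φ.continuousOn_symm.comp hi.continuousOn ?_)
    intro z hz
    exact hz
  · have h4 : φ.symm (H (z₀, y₀)) = (z₀, y₀) := φ.left_inv hsrc
    rw [hH0] at h4
    show (φ.symm (z₀, 0)).2 = y₀
    rw [h4]
  · intro z hz
    have h5 : H (φ.symm (z, 0)) = (z, 0) := φ.right_inv hz
    have h6 : (φ.symm (z, 0)).1 = z := congrArg Prod.fst h5
    have h7 : G (φ.symm (z, 0)) = 0 := congrArg Prod.snd h5
    have h8 : F.evalEval (φ.symm (z, 0)).1 (φ.symm (z, 0)).2 = 0 := h7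
    rw [h6] at h8
    exact h8




open Polynomial

/-- (COV-2) from local sections to an evenly covered point.
Proof. `IsEvenlyCovered f x I` (Mathlib.Topology.Covering.Basic) is: `DiscreteTopology I ∧ ∃ U, x ∈ U ∧ IsOpen U ∧ IsOpen (f ⁻¹' U) ∧
∃ H : f ⁻¹' U ≃ₜ U × I, ∀ x, (H x).1.1 = f x`. Show it with `I = Fin n`, `U = D`, and pass to the fibre with
`IsEvenlyCovered.to_isEvenlyCovered_preimage`. The homeomorphism: `H p = (p.1.1, the unique i with s i p.1.1 = p.1.2)`, inverse
`(z, i) ↦ (z, s i z)` (in `Γ` by `hs.mem`). The map `p ↦ i` is continuous to the discrete `Fin n` because the sheets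
`{p | p.1.1 ∈ D ∧ p.1.2 = s i p.1.1}` are open (`IsSec.isOpen_sheet`). The inverse is continuous:
`U × Fin n` with `Fin n` discrete, `s i` continuous on `D`
(`continuous_prod_of_discrete_right`-type lemma, or `continuous_iff_continuousAt`). -/
theorem isEvenlyCovered_of_sections {Γ : Set (ℂ × ℂ)} {D : Set ℂ} (hD : IsOpen D) {z₀ : ℂ}
    (hz₀ : z₀ ∈ D) {n : ℕ} {s : Fin n → ℂ → ℂ} (hs : IsSec Γ D n s) :
    IsEvenlyCovered (fun p : Γ => p.1.1) z₀ ((fun p : Γ => p.1.1) ⁻¹' {z₀}) := by
  classical
  have hfc : Continuous (fun p : Γ => p.1.1) := continuous_fst.comp continuous_subtype_val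
  have hopen : IsOpen ((fun p : Γ => p.1.1) ⁻¹' D) := hD.preimage hfc
  have hch : ∀ p : ((fun p : Γ => p.1.1) ⁻¹' D), ∃ i, s i p.1.1.1 = p.1.1.2 := fun p =>
    (hs.mem_iff p.1.1.1 p.2 p.1.1.2).mp p.1.2
  choose idx hidx using hch
  have hcont : Continuous idx := by
    rw [continuous_discrete_rng]
    intro i
    have hi := (hs.isOpen_sheet hD i).preimage
      (continuous_subtype_val : Continuous (Subtype.val : ((fun p : Γ => p.1.1) ⁻¹' D) → Γ))
    have heq : idx ⁻¹' {i} = Subtype.val ⁻¹' {p : Γ | p.1.1 ∈ D ∧ p.1.2 = s i p.1.1} := by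
      ext p
      simp only [Set.mem_preimage, Set.mem_singleton_iff, Set.mem_ofPred_eq]
      constructor
      · intro h
        refine ⟨p.2, ?_⟩
        rw [← h]
        exact (hidx p).symm
      · rintro ⟨h1, h2⟩
        exact hs.inj _ h1 _ _ ((hidx p).trans h2)
    rw [heq]
    exact hi
  have hinv : Continuous (fun q : D × Fin n => s q.2 q.1.1) := by
    rw [continuous_prod_of_discrete_right]
    intro i
    exact (hs.cont i).comp_continuous continuous_subtype_val (fun x => x.2)
  let H : ((fun p : Γ => p.1.1) ⁻¹' D) ≃ₜ D × Fin n :=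
    { toFun := fun p => (⟨p.1.1.1, p.2⟩, idx p)
      invFun := fun q => ⟨⟨(q.1.1, s q.2 q.1.1), hs.mem q.1.2 q.2⟩, q.1.2⟩
      left_inv := by
        intro p
        apply Subtype.ext
        apply Subtype.ext
        apply Prod.ext
        · rfl
        · exact hidx p
      right_inv := by
        rintro ⟨z, i⟩
        apply Prod.ext
        · rfl
        · exact hs.inj z.1 z.2 _ _
            (hidx ⟨⟨(z.1, s i z.1), hs.mem z.2 i⟩, z.2⟩)
      continuous_toFun := by
        refine Continuous.prodMk ?_ hcont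
        exact Continuous.subtype_mk (hfc.comp continuous_subtype_val) _
      continuous_invFun := by
        refine Continuous.subtype_mk (Continuous.subtype_mk ?_ _) _
        exact (continuous_subtype_val.comp continuous_fst).prodMk hinv }
  have hE : IsEvenlyCovered (fun p : Γ => p.1.1) z₀ (Fin n) :=
    ⟨inferInstance, D, hz₀, hD, hopen, H, fun x => rfl⟩
  exact hE.to_isEvenlyCovered_preimage




open Polynomial

private theorem Cover3_coeff (F : Polynomial (Polynomial ℂ)) (z : ℂ) (i : ℕ) :
    (spec z F).coeff i = (F.coeff i).eval z := by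
  simp [spec, coeff_map]

private theorem Cover3_natDegree_le (F : Polynomial (Polynomial ℂ)) (z : ℂ) :
    (spec z F).natDegree ≤ F.natDegree := natDegree_map_le

private theorem Cover3_mem (F : Polynomial (Polynomial ℂ)) (z y : ℂ) (h : spec z F ≠ 0) :
    y ∈ (spec z F).roots.toFinset ↔ (z, y) ∈ curve F := by
  rw [Multiset.mem_toFinset, mem_roots h, IsRoot.def, eval_spec]
  rfl

private theorem Cover3_continuous (F : Polynomial (Polynomial ℂ)) :
    Continuous fun p : ℂ × ℂ => F.evalEval p.1 p.2 := by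
  have h : (fun p : ℂ × ℂ => F.evalEval p.1 p.2) = fun p : ℂ × ℂ =>
      ∑ i ∈ Finset.range (F.natDegree + 1), (F.coeff i).eval p.1 * p.2 ^ i := by
    funext p
    rw [← eval_spec, eval_eq_sum_range' (Nat.lt_succ_of_le (Cover3_natDegree_le F p.1))]
    exact Finset.sum_congr rfl fun i _ => by rw [Cover3_coeff]
  rw [h]
  refine continuous_finsetSum _ fun i _ => ?_
  exact ((F.coeff i).continuous.comp continuous_fst).mul (continuous_snd.pow i)

/-- (COV-3)
Proof. `p₀ = spec z₀ F = F.map (evalRingHom z₀)` has degree `≤ n = F.natDegree` and `n` distinct roots `y_1, ..., y_n` (`nr` is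
`p.roots.toFinset.card`; if `n = 0` everything is empty/ see below), so `p₀ ≠ 0` (if `n > 0`), `roots.card ≤ natDegree p₀ ≤ n` forces `roots.Nodup`, and
each root is simple: `(derivative p₀).eval y_i ≠ 0`, that is `(derivative F).evalEval z₀ y_i ≠ 0` (`derivative_map`). Take the sections
`g_i` on `D_i` from `exists_local_section`. Intersect the `D_i` and shrink: by continuity of `g_i` at `z₀` and `y_i ≠ y_j`, on a smaller open `D ∋ z₀`
all `g_i z` are distinct (`‖g_i z - y_i‖ < ρ` with `2ρ ≤` minimal distance). Moreover shrink such that `spec z F ≠ 0` for `z ∈ D`: the coefficient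
`(F.leadingCoeff).eval z` is nonzero at `z₀` (because `p₀` has `n` distinct roots its natDegree is `n`; if `n > 0`), so nonzero near `z₀`.
Then for `z ∈ D` the polynomial `spec z F` is nonzero of degree `≤ n` with the `n` distinct roots `g_i z`, so its roots are exactly these
(`Finset.eq_of_subset_of_card_le`, `card_roots'`). That is `mem_iff`. Case `n = 0`: the hypothesis says `nr (spec z₀ F) = 0`; `F = C r` with
`r : ℂ[X]`; the statement needs `r.eval z ≠ 0` near `z₀`, which may fail if `r.eval z₀ = 0` (the zero polynomial has no roots in Mathlib),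
therefore the hypothesis `hn` is assumed. -/
theorem exists_local_isSec (F : Polynomial (Polynomial ℂ)) (hn : 0 < F.natDegree) (z₀ : ℂ)
    (h : nr (spec z₀ F) = F.natDegree) :
    ∃ (D : Set ℂ) (s : Fin F.natDegree → ℂ → ℂ), IsOpen D ∧ z₀ ∈ D ∧
      IsSec (curve F) D F.natDegree s := by
  classical
  have hp0 : spec z₀ F ≠ 0 := by
    intro h0
    rw [h0] at h
    simp only [nr, roots_zero, Multiset.toFinset_zero, Finset.card_empty] at h
    omega
  have hc1 : (spec z₀ F).roots.toFinset.card ≤ Multiset.card (spec z₀ F).roots :=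
    Multiset.toFinset_card_le _
  have hc2 : Multiset.card (spec z₀ F).roots ≤ (spec z₀ F).natDegree := card_roots' _
  have hc3 := Cover3_natDegree_le F z₀
  have hc4 : (spec z₀ F).roots.toFinset.card = F.natDegree := h
  have hnd : (spec z₀ F).roots.Nodup := by
    rw [← Multiset.toFinset_card_eq_card_iff_nodup]
    omega
  have hdeg : (spec z₀ F).natDegree = F.natDegree := by omega
  have hlead : F.leadingCoeff.eval z₀ ≠ 0 := by
    have h1 : (spec z₀ F).coeff F.natDegree ≠ 0 := by
      rw [← hdeg]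
      exact leadingCoeff_ne_zero.2 hp0
    rw [Cover3_coeff] at h1
    exact h1
  have hcard : Fintype.card (Fin F.natDegree) = Fintype.card (spec z₀ F).roots.toFinset := by
    rw [Fintype.card_fin, Fintype.card_coe, hc4]
  let e : Fin F.natDegree ≃ (spec z₀ F).roots.toFinset := Fintype.equivOfCardEq hcard
  have hroot : ∀ i, (spec z₀ F).IsRoot (e i : ℂ) := by
    intro i
    have h1 := (e i).2
    rw [Multiset.mem_toFinset, mem_roots hp0] at h1
    exact h1
  have h0 : ∀ i, F.evalEval z₀ (e i : ℂ) = 0 := by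
    intro i
    rw [← eval_spec]
    exact hroot i
  have h1 : ∀ i, (derivative F).evalEval z₀ (e i : ℂ) ≠ 0 := by
    intro i hi
    have hd : (derivative (spec z₀ F)).IsRoot (e i : ℂ) := by
      have h2 : derivative (spec z₀ F) = spec z₀ (derivative F) := by
        simp only [spec, derivative_map]
      rw [IsRoot.def, h2, eval_spec]
      exact hi
    have h3 : 1 < (spec z₀ F).rootMultiplicity (e i : ℂ) :=
      (one_lt_rootMultiplicity_iff_isRoot hp0).2 ⟨hroot i, hd⟩
    have h4 : (spec z₀ F).roots.count (e i : ℂ) ≤ 1 := Multiset.nodup_iff_count_le_one.1 hnd _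
    rw [count_roots] at h4
    omega
  choose D g hDo hDz hgc hg0 hgF using fun i => exists_local_section F z₀ (e i : ℂ) (h0 i) (h1 i)
  have hca : ∀ i, ContinuousAt (g i) z₀ := fun i =>
    (hgc i).continuousAt ((hDo i).mem_nhds (hDz i))
  have ev1 : ∀ᶠ z in nhds z₀, ∀ i, z ∈ D i :=
    Filter.eventually_all.2 fun i => (hDo i).mem_nhds (hDz i)
  have ev2 : ∀ᶠ z in nhds z₀, ∀ i j, i ≠ j → g i z ≠ g j z := by
    refine Filter.eventually_all.2 fun i => Filter.eventually_all.2 fun j => ?_
    by_cases hij : i = j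
    · exact Filter.Eventually.of_forall fun z hne => absurd hij hne
    · have hne : g i z₀ ≠ g j z₀ := by
        rw [hg0, hg0]
        intro hh
        exact hij (e.injective (Subtype.ext hh))
      exact (((hca i).sub (hca j)).eventually_ne (sub_ne_zero.2 hne)).mono
        fun z hz _ => sub_ne_zero.1 hz
  have ev3 : ∀ᶠ z in nhds z₀, F.leadingCoeff.eval z ≠ 0 :=
    F.leadingCoeff.continuous.continuousAt.eventually_ne hlead
  obtain ⟨U, hU, hUo, hUz⟩ := eventually_nhds_iff.1 (ev1.and (ev2.and ev3))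
  refine ⟨U, g, hUo, hUz, ⟨fun i => ?_, ?_, ?_⟩⟩
  · exact (hgc i).mono fun z hz => (hU z hz).1 i
  · intro z hz i j hij
    by_contra hne
    exact (hU z hz).2.1 i j hne hij
  · intro z hz y
    have hinj : Function.Injective fun i => g i z := by
      intro i j hij
      by_contra hne
      exact (hU z hz).2.1 i j hne hij
    have hsp : spec z F ≠ 0 := by
      intro h2
      have h3 : (spec z F).coeff F.natDegree = 0 := by rw [h2, coeff_zero]
      rw [Cover3_coeff] at h3
      exact (hU z hz).2.2 h3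
    have hsub : Finset.univ.image (fun i => g i z) ⊆ (spec z F).roots.toFinset := by
      intro w hw
      obtain ⟨i, -, hi⟩ := Finset.mem_image.1 hw
      rw [Cover3_mem F z w hsp]
      rw [← hi]
      exact hgF i z ((hU z hz).1 i)
    have hcard2 : (spec z F).roots.toFinset.card ≤ (Finset.univ.image (fun i => g i z)).card := by
      rw [Finset.card_image_of_injective _ hinj, Finset.card_univ, Fintype.card_fin]
      exact (Multiset.toFinset_card_le _).trans ((card_roots' _).trans (Cover3_natDegree_le F z))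
    have heq := Finset.eq_of_subset_of_card_le hsub hcard2
    rw [← Cover3_mem F z y hsp, ← heq]
    simp only [Finset.mem_image, Finset.mem_univ, true_and]

/-- (COV-4)
Proof. closed: `curve F` is the zero set of the continuous function `(x, y) ↦ F.evalEval x y` (polynomial; prove continuity by
`Polynomial.induction`/ `eval₂`/ sums, e.g. `evalEval` as a finite sum `∑ i, (F.coeff i).eval x * y ^ i` via `eval_eq_sum_range`).
cov: for `z₀ ∉ S`, `hS` and COV-3 and `isEvenlyCovered_of_sections` (`IsCoveringMapOn` unfolds to `∀ x ∈ s, IsEvenlyCovered f x (f ⁻¹' {x})`).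
card: `{y | (z, y) ∈ curve F}` is the root set of `spec z F ≠ 0` (`eval_spec`), i.e. the coercion of `(spec z F).roots.toFinset`,
`Set.ncard_coe_finset`. fin: the same. -/
theorem covData_curve (F : Polynomial (Polynomial ℂ)) (hn : 0 < F.natDegree) (S : Finset ℂ)
    (hS : ∀ z, z ∉ S → nr (spec z F) = F.natDegree) (hne : ∀ z, spec z F ≠ 0) :
    CovData (curve F) S F.natDegree := by
  classical
  have hset : ∀ z, {y : ℂ | (z, y) ∈ curve F} = ((spec z F).roots.toFinset : Set ℂ) := by
    intro z
    ext y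
    rw [Finset.mem_coe, Cover3_mem F z y (hne z)]
    rfl
  refine ⟨?_, hn, ?_, ?_, ?_⟩
  · exact isClosed_eq (Cover3_continuous F) continuous_const
  · intro z₀ hz₀
    obtain ⟨D, s, hD, hz, hs⟩ := exists_local_isSec F hn z₀ (hS z₀ hz₀)
    exact isEvenlyCovered_of_sections hD hz hs
  · intro z hz
    rw [hset z, Set.ncard_coe_finset]
    exact hS z hz
  · intro c _
    rw [hset c]
    exact Finset.finite_toSet _


end Pool.Agent.LZ
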