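import Pool.Agent.Lib.MP_79da24_ag.TD
import Pool.Agent.Lib.MP_79da24_ag.Cover

set_option autoImplicit false

namespace Pool.Agent.LZ

open Polynomial Filter Topology Metric

private theorem HsA_sum (F : Polynomial (Polynomial ℂ)) (x y : ℂ) :
    F.evalEval x y = ∑ i ∈ Finset.range (F.natDegree + 1), (F.coeff i).eval x * y ^ i := by
  rw [Polynomial.evalEval, Polynomial.eval_eq_sum_range (p := F) (C y), Polynomial.eval_finsetSum]
  refine Finset.sum_congr rfl (fun i _ => ?_)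
  rw [Polynomial.eval_mul, Polynomial.eval_pow, Polynomial.eval_C]

private theorem HsA_cd (F : Polynomial (Polynomial ℂ)) :
    ContDiff ℂ 1 (fun p : ℂ × ℂ => F.evalEval p.1 p.2) := by
  have h : (fun p : ℂ × ℂ => F.evalEval p.1 p.2) =
      fun p : ℂ × ℂ => ∑ i ∈ Finset.range (F.natDegree + 1), (F.coeff i).eval p.1 * p.2 ^ i := by
    funext p
    exact HsA_sum F p.1 p.2
  rw [h]
  refine ContDiff.sum (fun i _ => ?_)
  have hp : ContDiff ℂ 1 (fun x : ℂ => (F.coeff i).eval x) := by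
    have h2 : (fun x : ℂ => (F.coeff i).eval x) =
        fun x : ℂ => ∑ j ∈ Finset.range ((F.coeff i).natDegree + 1), (F.coeff i).coeff j * x ^ j := by
      funext x
      exact Polynomial.eval_eq_sum_range x
    rw [h2]
    exact ContDiff.sum (fun j _ => contDiff_const.mul (contDiff_id.pow j))
  exact (hp.comp contDiff_fst).mul (contDiff_snd.pow i)

private theorem HsA_dy (F : Polynomial (Polynomial ℂ)) (x y : ℂ) :
    HasDerivAt (fun y : ℂ => F.evalEval x y) ((derivative F).evalEval x y) y := by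
  have h1 : ∀ (P : Polynomial (Polynomial ℂ)) (y : ℂ), P.evalEval x y =
      (P.map (Polynomial.evalRingHom x)).eval y := by
    intro P y
    exact (Polynomial.map_evalRingHom_eval x y P).symm
  have h2 : (fun y : ℂ => F.evalEval x y) = fun y => (F.map (Polynomial.evalRingHom x)).eval y := by
    funext y
    exact h1 F y
  rw [h2, h1, ← Polynomial.derivative_map]
  exact Polynomial.hasDerivAt _ _

/-- At a point with the maximal number of roots every root is simple. -/
private theorem HsA_simple (F : Polynomial (Polynomial ℂ)) (hn : 0 < F.natDegree) (z₀ y₀ : ℂ)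
    (h : nr (spec z₀ F) = F.natDegree) (h0 : F.evalEval z₀ y₀ = 0) :
    (derivative F).evalEval z₀ y₀ ≠ 0 := by
  classical
  have hp0 : spec z₀ F ≠ 0 := by
    intro h0
    rw [h0] at h
    simp only [nr, roots_zero, Multiset.toFinset_zero, Finset.card_empty] at h
    omega
  have hc1 : (spec z₀ F).roots.toFinset.card ≤ Multiset.card (spec z₀ F).roots :=
    Multiset.toFinset_card_le _
  have hc2 : Multiset.card (spec z₀ F).roots ≤ (spec z₀ F).natDegree := card_roots' _
  have hc3 : (spec z₀ F).natDegree ≤ F.natDegree := natDegree_map_le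
  have hc4 : (spec z₀ F).roots.toFinset.card = F.natDegree := h
  have hnd : (spec z₀ F).roots.Nodup := by
    rw [← Multiset.toFinset_card_eq_card_iff_nodup]
    omega
  intro hi
  have hr : (spec z₀ F).IsRoot y₀ := by
    rw [IsRoot.def, eval_spec]
    exact h0
  have hd : (derivative (spec z₀ F)).IsRoot y₀ := by
    have h2 : derivative (spec z₀ F) = spec z₀ (derivative F) := by
      simp only [spec, derivative_map]
    rw [IsRoot.def, h2, eval_spec]
    exact hi
  have h3 : 1 < (spec z₀ F).rootMultiplicity y₀ :=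
    (one_lt_rootMultiplicity_iff_isRoot hp0).2 ⟨hr, hd⟩
  have h4 : (spec z₀ F).roots.count y₀ ≤ 1 := Multiset.nodup_iff_count_le_one.1 hnd _
  rw [count_roots] at h4
  omega

/-- A continuous solution of `G (z, s z) = 0` through a point with nonzero derivative in the second variable is differentiable. -/
private theorem HsA_diff (G : ℂ × ℂ → ℂ) (f' : ℂ × ℂ →L[ℂ] ℂ) (z₀ : ℂ) (s : ℂ → ℂ)
    (hG : HasFDerivAt G f' (z₀, s z₀)) (hb : f' (0, 1) ≠ 0) (hs : ContinuousAt s z₀)
    (h0 : ∀ᶠ z in 𝓝 z₀, G (z, s z) = 0) : DifferentiableAt ℂ s z₀ := by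
  set a : ℂ := f' (1, 0) with ha
  set b : ℂ := f' (0, 1) with hbd
  have hab : ∀ u v : ℂ, f' (u, v) = a * u + b * v := by
    intro u v
    have e : ((u, v) : ℂ × ℂ) = u • ((1, 0) : ℂ × ℂ) + v • ((0, 1) : ℂ × ℂ) := by
      ext <;> simp
    rw [e, map_add, map_smul, map_smul, smul_eq_mul, smul_eq_mul, mul_comm u, mul_comm v]
  have hG0 : G (z₀, s z₀) = 0 := h0.self_of_nhds
  have ht : Tendsto (fun z : ℂ => ((z, s z) : ℂ × ℂ)) (𝓝 z₀) (𝓝 (z₀, s z₀)) :=
    (continuousAt_id.prodMk hs)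
  have h1 := (hasFDerivAt_iff_isLittleO.1 hG).comp_tendsto ht
  have hbpos : 0 < ‖b‖ := norm_pos_iff.2 hb
  -- the basic estimate
  have key : ∀ c : ℝ, 0 < c → ∀ᶠ z in 𝓝 z₀,
      ‖a * (z - z₀) + b * (s z - s z₀)‖ ≤ c * (‖z - z₀‖ + ‖s z - s z₀‖) := by
    intro c hc
    have h2 := (Asymptotics.isLittleO_iff.1 h1) hc
    filter_upwards [h2, h0] with z hz hz0
    simp only [Function.comp] at hz
    rw [hz0, hG0, sub_zero, zero_sub, norm_neg, Prod.mk_sub_mk, hab] at hz
    refine hz.trans (mul_le_mul_of_nonneg_left ?_ hc.le)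
    rw [Prod.norm_def]
    exact max_le (le_add_of_nonneg_right (norm_nonneg _)) (le_add_of_nonneg_left (norm_nonneg _))
  -- Lipschitz bound
  have hL : ∀ᶠ z in 𝓝 z₀, ‖s z - s z₀‖ ≤ (2 * ‖a‖ / ‖b‖ + 1) * ‖z - z₀‖ := by
    filter_upwards [key (‖b‖ / 2) (by positivity)] with z hz
    have h3 : ‖b‖ * ‖s z - s z₀‖ ≤ ‖a * (z - z₀) + b * (s z - s z₀)‖ + ‖a‖ * ‖z - z₀‖ := by
      rw [← norm_mul, ← norm_mul]
      have e : b * (s z - s z₀) = (a * (z - z₀) + b * (s z - s z₀)) - a * (z - z₀) := by ring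
      calc ‖b * (s z - s z₀)‖ = ‖(a * (z - z₀) + b * (s z - s z₀)) - a * (z - z₀)‖ := by rw [← e]
        _ ≤ _ := norm_sub_le _ _
    have h4 : ‖b‖ * ‖s z - s z₀‖ ≤ (2 * ‖a‖ + ‖b‖) * ‖z - z₀‖ := by nlinarith
    have e : (2 * ‖a‖ / ‖b‖ + 1) * ‖z - z₀‖ = (2 * ‖a‖ + ‖b‖) * ‖z - z₀‖ / ‖b‖ := by
      field_simp
    rw [e, le_div_iff₀ hbpos]
    linarith
  have hd : HasDerivAt s (-a / b) z₀ := by
    rw [hasDerivAt_iff_isLittleO, Asymptotics.isLittleO_iff]
    intro c hc
    set M : ℝ := 2 * ‖a‖ / ‖b‖ + 2 with hM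
    have hMpos : 0 < M := by positivity
    filter_upwards [key (c * ‖b‖ / M) (by positivity), hL] with z hz hz2
    have e : s z - s z₀ - (z - z₀) • (-a / b) = (a * (z - z₀) + b * (s z - s z₀)) / b := by
      rw [smul_eq_mul]
      field_simp
      ring
    rw [e, norm_div, div_le_iff₀ hbpos]
    refine hz.trans ?_
    have h5 : ‖z - z₀‖ + ‖s z - s z₀‖ ≤ M * ‖z - z₀‖ := by
      rw [hM]
      nlinarith
    calc c * ‖b‖ / M * (‖z - z₀‖ + ‖s z - s z₀‖) ≤ c * ‖b‖ / M * (M * ‖z - z₀‖) :=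
          mul_le_mul_of_nonneg_left h5 (by positivity)
      _ = c * ‖z - z₀‖ * ‖b‖ := by
          field_simp
  exact hd.differentiableAt

/-- (HsA) continuous sections of an algebraic equation are holomorphic.
Proof. Only `diff` is not contained in `IsSec` (`(z, y) ∈ curve F` is by definition `F.evalEval z y = 0`). Let `z₀ ∈ U`, `y₀ = s i z₀`,
`G (z, y) = F.evalEval z y` (a polynomial map `ℂ × ℂ → ℂ`, see `Cover1_cd` in Cover.lean, a private lemma: copy it).
`spec z₀ F` has `nr = n = F.natDegree ≥ natDegree` distinct roots, so its roots are nodup and `y₀` is a simple root, i.e.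
`(derivative F).evalEval z₀ y₀ ≠ 0` (the same argument is in the proof of `exists_local_isSec` in Cover.lean). Hence `b = ∂_y G (z₀, y₀) ≠ 0`.
Let `a = ∂_x G (z₀, y₀)`. As `G` is strictly (Fréchet) differentiable at `(z₀, y₀)` and `s i` is continuous at `z₀` (interior point of `U`) and
`G (z, s i z) = 0 = G (z₀, y₀)` near `z₀`: `a (z - z₀) + b (s i z - y₀) = o(|z - z₀| + |s i z - y₀|)`. For `z` near `z₀` the right side is
`≤ (|b| / 2) (|z - z₀| + |s i z - y₀|)`, so `|s i z - y₀| ≤ C |z - z₀|`, so the right side is `o(|z - z₀|)` and `s i` has derivative `-a / b` at `z₀`.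
(Alternative: `HasStrictFDerivAt` implicit function theorem, or factor `G(z,y) - G(z₀,y₀) = A(z,y)(z - z₀) + B(y)(y - y₀)` with polynomials `A`, `B`
(`Polynomial` divided differences) and divide: `(s i z - y₀)/(z - z₀) = - A(z, s i z) / B(s i z)`, whose limit exists by continuity, `B(y₀) = b ≠ 0`.) -/
theorem hsec_of_isSec (F : Polynomial (Polynomial ℂ)) (hn : 0 < F.natDegree) {U : Set ℂ} (hU : IsOpen U)
    {s : Fin F.natDegree → ℂ → ℂ} (h : IsSec (curve F) U F.natDegree s)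
    (hnr : ∀ z ∈ U, nr (spec z F) = F.natDegree) : HSec F F.natDegree U s := by
  refine ⟨hU, ?_, h.inj, h.mem_iff⟩
  intro i z₀ hz₀
  have h0 : ∀ z ∈ U, F.evalEval z (s i z) = 0 := fun z hz => (h.mem_iff z hz (s i z)).2 ⟨i, rfl⟩
  have hs : ContinuousAt (s i) z₀ := (h.cont i).continuousAt (hU.mem_nhds hz₀)
  have h1 : (derivative F).evalEval z₀ (s i z₀) ≠ 0 :=
    HsA_simple F hn z₀ (s i z₀) (hnr z₀ hz₀) (h0 z₀ hz₀)
  have hG : HasFDerivAt (fun p : ℂ × ℂ => F.evalEval p.1 p.2)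
      (fderiv ℂ (fun p : ℂ × ℂ => F.evalEval p.1 p.2) (z₀, s i z₀)) (z₀, s i z₀) :=
    ((HsA_cd F).contDiffAt.differentiableAt one_ne_zero).hasFDerivAt
  refine (HsA_diff _ _ z₀ (s i) hG ?_ hs ?_).differentiableWithinAt
  · have h2 : HasDerivAt (fun y : ℂ => ((z₀, y) : ℂ × ℂ)) ((0, 1) : ℂ × ℂ) (s i z₀) :=
      (hasDerivAt_const (s i z₀) z₀).prodMk (hasDerivAt_id (s i z₀))
    have h3 := hG.comp_hasDerivAt (s i z₀) h2
    have h4 := h3.unique (HsA_dy F z₀ (s i z₀))
    rw [h4]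
    exact h1
  · filter_upwards [hU.mem_nhds hz₀] with z hz
    exact h0 z hz

end Pool.Agent.LZ
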