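import Pool.Agent.Lib.MP_79da24_ag.TD
import Pool.Agent.Lib.MP_79da24_ag.Cover
import Pool.Agent.Lib.MP_79da24_ag.Gen
import Pool.Agent.Lib.MP_79da24_ag.HsA

set_option autoImplicit false

namespace Pool.Agent.LZ

open Polynomial Filter Topology Metric

/-- Standing assumptions: `S` is the set of zeros of the leading coefficient and of the discriminant. -/
structure Std (F : Polynomial (Polynomial ℂ)) (S : Finset ℂ) : Prop where
  npos : 0 < F.natDegree
  ne : ∀ z, spec z F ≠ 0
  mem : ∀ z, z ∈ S ↔ (F.leadingCoeff * F.discr).eval z = 0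
  dne : F.discr ≠ 0

private theorem Std_coeff (F : Polynomial (Polynomial ℂ)) (z : ℂ) (i : ℕ) :
    (spec z F).coeff i = (F.coeff i).eval z := by
  simp [spec, coeff_map]

private theorem Std_card (g : Polynomial ℂ) : Multiset.card g.roots = g.natDegree :=
  (IsAlgClosed.splits g).natDegree_eq_card_roots.symm

/-- Where the leading coefficient does not vanish the discriminant decides the separability. -/
private theorem Std_sep {F : Polynomial (Polynomial ℂ)} (hn : 0 < F.natDegree) {z : ℂ}
    (hl : F.leadingCoeff.eval z ≠ 0) : F.discr.eval z = 0 ↔ ¬ (spec z F).Separable := by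
  have hl1 : evalRingHom z F.leadingCoeff ≠ 0 := hl
  have hd : (spec z F).natDegree = F.natDegree := natDegree_map_of_leadingCoeff_ne_zero _ hl1
  have h0 : spec z F ≠ 0 := by
    intro h
    rw [h, natDegree_zero] at hd
    omega
  have hdd : (derivative (spec z F)).natDegree = F.natDegree - 1 := by
    rw [← hd]
    exact natDegree_derivative _
  have h1 := resultant_deriv (f := F) (natDegree_pos_iff_degree_pos.1 hn)
  have h2 : resultant (spec z F) (derivative (spec z F)) =
      (-1) ^ (F.natDegree * (F.natDegree - 1) / 2) * F.leadingCoeff.eval z * F.discr.eval z := by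
    have h3 := resultant_map_map F (derivative F) F.natDegree (F.natDegree - 1) (evalRingHom z)
    rw [h1] at h3
    have h4 : (derivative F).map (evalRingHom z) = derivative (spec z F) := by
      rw [spec, derivative_map]
    rw [h4] at h3
    rw [hd, hdd]
    simpa [spec] using h3
  have h5 : resultant (spec z F) (derivative (spec z F)) = 0 ↔ F.discr.eval z = 0 := by
    rw [h2]
    constructor
    · intro h
      rcases mul_eq_zero.1 h with h | h
      · rcases mul_eq_zero.1 h with h | h
        · exact absurd h (pow_ne_zero _ (neg_ne_zero.2 one_ne_zero))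
        · exact absurd h hl
      · exact h
    · intro h
      rw [h, mul_zero]
  rw [← h5, resultant_eq_zero_iff]
  constructor
  · rintro ⟨-, h⟩
    exact h
  · intro h
    exact ⟨Or.inl h0, h⟩

/-- (StdA) Proof. `n = F.natDegree ≥ 1`. `Polynomial.resultant_deriv` (over `ℂ[x]`): `resultant F F' n (n-1) = ± lc(F) * discr F`. Apply the ring hom
`evalRingHom z` (`resultant_map_map`, `derivative_map`): with `g = spec z F = F.map (evalRingHom z)`:
`resultant g g' n (n-1) = ± lc(F)(z) * discr(F)(z)`. If `lc(F)(z) ≠ 0` then `g.natDegree = n` (`natDegree_map_of_leadingCoeff_ne_zero`),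
and `discr(F)(z) ≠ 0` gives `resultant g g' n (n-1) ≠ 0`. If `n ≥ 1`, `g'` has natDegree `n - 1` (characteristic zero), and `resultant_eq_zero_iff`
(Mathlib) or `resultant_eq_prod_eval`/`exists_mul_add_mul_eq_C_resultant` shows that `g` and `g'` have no common root (are coprime), so `g` is
separable, `roots.Nodup` (`nodup_roots`) and `nr g = card roots = natDegree g = n` (`IsAlgClosed`), exactly as at the end of `exists_generic` (Gen.lean). -/
theorem Std.nr_eq {F : Polynomial (Polynomial ℂ)} {S : Finset ℂ} (h : Std F S) {z : ℂ} (hz : z ∉ S) :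
    nr (spec z F) = F.natDegree := by
  have h1 : ¬ (F.leadingCoeff * F.discr).eval z = 0 := fun h2 => hz ((h.mem z).2 h2)
  rw [eval_mul] at h1
  have hl : F.leadingCoeff.eval z ≠ 0 := left_ne_zero_of_mul h1
  have hd : F.discr.eval z ≠ 0 := right_ne_zero_of_mul h1
  have hsep : (spec z F).Separable := by
    by_contra hc
    exact hd ((Std_sep h.npos hl).2 hc)
  have hl1 : evalRingHom z F.leadingCoeff ≠ 0 := hl
  have hdeg : (spec z F).natDegree = F.natDegree := natDegree_map_of_leadingCoeff_ne_zero _ hl1
  unfold nr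
  rw [Multiset.toFinset_card_of_nodup (nodup_roots hsep), ← hdeg]
  exact Std_card _

/-- (StdB) Proof. If `lc(F)(c) = 0` then `natDegree (spec c F) < n` and `nr ≤ natDegree` (`card_roots'`). Otherwise `discr(F)(c) = 0`,
`natDegree (spec c F) = n`, and the formula of StdA shows `resultant g g' n (n-1) = 0`, so `g, g'` have a common root
(`resultant_eq_zero_iff`, `g ≠ 0`, natDegree `g' = n-1`): a multiple root, so `nr g < card roots ≤ n`. -/
theorem Std.nr_lt {F : Polynomial (Polynomial ℂ)} {S : Finset ℂ} (h : Std F S) {c : ℂ} (hc : c ∈ S) :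
    nr (spec c F) < F.natDegree := by
  have h1 := (h.mem c).1 hc
  rw [eval_mul] at h1
  have h2 : nr (spec c F) ≤ Multiset.card (spec c F).roots := Multiset.toFinset_card_le _
  have h3 : Multiset.card (spec c F).roots = (spec c F).natDegree := Std_card _
  have h4 : (spec c F).natDegree ≤ F.natDegree := natDegree_map_le
  by_cases hl : F.leadingCoeff.eval c = 0
  · have h5 : (spec c F).natDegree ≠ F.natDegree := by
      intro h6
      have h7 : (spec c F).coeff (spec c F).natDegree ≠ 0 := leadingCoeff_ne_zero.2 (h.ne c)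
      rw [h6, Std_coeff] at h7
      exact h7 hl
    omega
  · have hd : F.discr.eval c = 0 := (mul_eq_zero.1 h1).resolve_left hl
    have hsep : ¬ (spec c F).Separable := (Std_sep h.npos hl).1 hd
    have hnd : ¬ (spec c F).roots.Nodup := by
      intro h6
      exact hsep ((nodup_roots_iff_of_splits (h.ne c) (IsAlgClosed.splits _)).1 h6)
    have h7 : nr (spec c F) ≠ Multiset.card (spec c F).roots := by
      intro h8
      exact hnd (Multiset.toFinset_card_eq_card_iff_nodup.1 h8)
    omega

/-- (StdC) Proof. `S = (F.leadingCoeff * F.discr).roots.toFinset`. `ne` is `spec_ne_zero` (Gen.lean). `dne`: otherwise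
`resultant F F' n (n-1) = 0` in the domain `ℂ[x]`, hence (map to the fraction field `K = RatFunc ℂ` or `FractionRing ℂ[X]`, `resultant_map_map`,
`resultant_eq_zero_iff`) `F` and `F'` are not coprime over `K`; but `exists_bezout` (Gen.lean) gives `u F + v F' = C r` with `r ≠ 0`, which shows
coprimality. (Alternatively: by `exists_bezout` choose `z` with `r(z) ≠ 0`, `lc(F)(z) ≠ 0`: there `spec z F` is separable and of degree `n`, so its
resultant with its derivative is `≠ 0`, but it is the value at `z` of `± lc * discr`.) -/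
theorem exists_std (F : Polynomial (Polynomial ℂ)) (hF : Irreducible F) (hn : 0 < F.natDegree) :
    ∃ S : Finset ℂ, Std F S := by
  obtain ⟨S₀, hS₀⟩ := exists_generic F hF hn
  have hne : ∀ z, spec z F ≠ 0 := spec_ne_zero F hF hn
  have hl0 : F.leadingCoeff ≠ 0 := leadingCoeff_ne_zero.2 hF.ne_zero
  obtain ⟨z, hz⟩ := Infinite.exists_notMem_finset (S₀ ∪ F.leadingCoeff.roots.toFinset)
  rw [Finset.mem_union, not_or] at hz
  have hl : F.leadingCoeff.eval z ≠ 0 := by
    intro h0
    apply hz.2
    rw [Multiset.mem_toFinset, mem_roots hl0]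
    exact h0
  have hl1 : evalRingHom z F.leadingCoeff ≠ 0 := hl
  have hdeg : (spec z F).natDegree = F.natDegree := natDegree_map_of_leadingCoeff_ne_zero _ hl1
  have hnd : (spec z F).roots.Nodup := by
    rw [← Multiset.toFinset_card_eq_card_iff_nodup, Std_card, hdeg]
    exact hS₀ z hz.1
  have hsep : (spec z F).Separable :=
    (nodup_roots_iff_of_splits (hne z) (IsAlgClosed.splits _)).1 hnd
  have hd0 : F.discr ≠ 0 := by
    intro h0
    have h1 := (Std_sep hn hl).1 (by rw [h0, eval_zero])
    exact h1 hsep
  refine ⟨(F.leadingCoeff * F.discr).roots.toFinset, hn, hne, fun w => ?_, hd0⟩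
  rw [Multiset.mem_toFinset, mem_roots (mul_ne_zero hl0 hd0)]
  rfl

/-- (StdD) Proof. `covData_curve F h.npos S h.nr_eq h.ne`, `exists_sections` on the ball (it is convex and nonempty, hence contractible
(`Convex.contractibleSpace`), hence simply connected (`SimplyConnectedSpace.ofContractible` or similar instance)), then `hsec_of_isSec`. -/
theorem Std.exists_hsec {F : Polynomial (Polynomial ℂ)} {S : Finset ℂ} (h : Std F S) (z₀ : ℂ) {r : ℝ} (hr : 0 < r)
    (hb : ball z₀ r ⊆ ((S : Set ℂ)ᶜ)) : ∃ s, HSec F F.natDegree (ball z₀ r) s := by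
  have hD := covData_curve F h.npos S (fun z hz => h.nr_eq hz) h.ne
  have hcs : ContractibleSpace (ball z₀ r) := contractibleSpace_ball hr
  have hsc : SimplyConnectedSpace (ball z₀ r) := inferInstance
  obtain ⟨s, hs⟩ := exists_sections hD (ball z₀ r) isOpen_ball (nonempty_ball.2 hr) hb hsc
  exact ⟨s, hsec_of_isSec F h.npos isOpen_ball hs fun z hz => h.nr_eq fun hzS => hb hz hzS⟩

/-- (StdE) Proof. `S` is finite, so `Sᶜ` is open: `Metric.isOpen_iff`; then StdD. -/
theorem Std.exists_hsec' {F : Polynomial (Polynomial ℂ)} {S : Finset ℂ} (h : Std F S) {z : ℂ} (hz : z ∉ S) :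
    ∃ r > 0, ball z r ⊆ ((S : Set ℂ)ᶜ) ∧ ∃ s, HSec F F.natDegree (ball z r) s := by
  have ho : IsOpen ((S : Set ℂ)ᶜ) := S.finite_toSet.isClosed.isOpen_compl
  obtain ⟨r, hr, hb⟩ := Metric.isOpen_iff.1 ho z hz
  exact ⟨r, hr, hb, h.exists_hsec z hr hb⟩

end Pool.Agent.LZ
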