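import Pool.Agent.Lib.MP_79da24_ag.TD
import Pool.Agent.Lib.MP_79da24_ag.Std

set_option autoImplicit false

namespace Pool.Agent.LZ

open Polynomial Filter Topology Metric

theorem GrA_Ps {n : ℕ} (s : Fin n → ℂ → ℂ) (z : ℂ) :
    Ps s z = ∏ i, ∏ j ∈ Finset.univ.erase i, (s i z - s j z) := by
  unfold Ps P2
  rw [Finset.prod_filter, Fintype.prod_prod_type]
  refine Finset.prod_congr rfl fun i _ => ?_
  rw [← Finset.prod_filter]
  refine Finset.prod_congr ?_ fun _ _ => rfl
  ext j
  simp [eq_comm]

theorem GrA_deriv {n : ℕ} (a : ℂ) (y : Fin n → ℂ) (i : Fin n) :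
    (derivative (C a * ∏ j, (X - C (y j)))).eval (y i) = a * ∏ j ∈ Finset.univ.erase i, (y i - y j) := by
  have h1 : (C a * ∏ j, (X - C (y j)) : Polynomial ℂ) =
      (X - C (y i)) * (C a * ∏ j ∈ Finset.univ.erase i, (X - C (y j))) := by
    rw [← Finset.mul_prod_erase Finset.univ _ (Finset.mem_univ i)]
    ring
  rw [h1, derivative_mul, derivative_X_sub_C, one_mul, eval_add]
  rw [eval_mul (p := X - C (y i)), eval_sub, eval_X,
    eval_C, sub_self, zero_mul, add_zero, eval_mul, eval_C, eval_prod]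
  congr 1
  refine Finset.prod_congr rfl fun j _ => ?_
  rw [eval_sub, eval_X, eval_C]

/-- (GrA) the discriminant in terms of the roots.
Proof. `n = F.natDegree ≥ 1`, `g = spec z F`, `a = lc(F)(z) ≠ 0`, so `g` has natDegree `n` and leading coefficient `a`, and its roots are the `n` distinct
numbers `s i z` (`h.mem_iff`, `h.inj`, `eval_spec`): `g = C a * ∏ i, (X - C (s i z))`, `g.roots = Finset.univ.val.map (fun i => s i z)`.
`resultant_deriv` over `ℂ[x]`, then the ring hom `evalRingHom z` (`resultant_map_map`, `derivative_map`):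
`resultant g g' n (n-1) = ± a * discr(F)(z)`. By `resultant_eq_prod_eval` (`g` splits): `resultant g g' n (n-1) = a ^ (n-1) * ∏ over roots, g'(y)`.
`g'(s i z) = a * ∏_{j ≠ i} (s i z - s j z)` (`eval_derivative`/`derivative_prod`; Mathlib has `Polynomial.eval_multiset_prod_X_sub_C_derivative` or similar).
So `‖a‖ ‖discr(z)‖ = ‖a‖ ^ (n-1) ‖a‖ ^ n ∏_{i ≠ j} ‖s i z - s j z‖`, i.e. after cancelling `‖a‖`: exponent `2n-2`.
(`Ps s z = ∏ t ∈ P2 n, ...` is the double product: `Finset.prod_filter`/`Finset.prod_sigma`, `P2 n = univ.filter (t.1 ≠ t.2)`.) -/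
theorem norm_Ps_mul (F : Polynomial (Polynomial ℂ)) (hn : 0 < F.natDegree) {U : Set ℂ} {s : Fin F.natDegree → ℂ → ℂ}
    (h : HSec F F.natDegree U s) {z : ℂ} (hz : z ∈ U) (hl : F.leadingCoeff.eval z ≠ 0) :
    ‖Ps s z‖ * ‖F.leadingCoeff.eval z‖ ^ (2 * F.natDegree - 2) = ‖F.discr.eval z‖ := by
  have hn1 : 1 ≤ F.natDegree := hn
  have hl1 : evalRingHom z F.leadingCoeff ≠ 0 := hl
  have hd : (spec z F).natDegree = F.natDegree := natDegree_map_of_leadingCoeff_ne_zero _ hl1
  have hlc : (spec z F).leadingCoeff = F.leadingCoeff.eval z := leadingCoeff_map_of_leadingCoeff_ne_zero _ hl1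
  have hne : spec z F ≠ 0 := by
    intro h0
    rw [h0, leadingCoeff_zero] at hlc
    exact hl hlc.symm
  have hsp : (spec z F).Splits := IsAlgClosed.splits _
  have hinj : Function.Injective (fun i => s i z) := fun i j hij => h.inj z hz i j hij
  have hR : (Finset.univ.val.map (fun i => s i z) : Multiset ℂ) = (spec z F).roots := by
    have hnd : (Finset.univ.val.map (fun i => s i z) : Multiset ℂ).Nodup :=
      Multiset.Nodup.map hinj Finset.univ.nodup
    refine Multiset.eq_of_le_of_card_le ((Multiset.le_iff_subset hnd).mpr ?_) ?_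
    · intro y hy
      obtain ⟨i, _, hi⟩ := Multiset.mem_map.mp hy
      rw [mem_roots hne, IsRoot.def, eval_spec]
      exact (h.mem_iff z hz y).mpr ⟨i, hi⟩
    · rw [Multiset.card_map, ← hsp.natDegree_eq_card_roots, hd]
      simp
  have hg : spec z F = C (F.leadingCoeff.eval z) * ∏ i, (X - C (s i z)) := by
    have h1 := hsp.eq_prod_roots
    rw [hlc, ← hR, Multiset.map_map] at h1
    exact h1
  have hres1 : resultant (spec z F) (derivative (spec z F)) F.natDegree (F.natDegree - 1) =
      evalRingHom z (resultant F (derivative F) F.natDegree (F.natDegree - 1)) := by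
    rw [← resultant_map_map, ← derivative_map]
    rfl
  have hres2 : resultant (spec z F) (derivative (spec z F)) F.natDegree (F.natDegree - 1) =
      F.leadingCoeff.eval z ^ (F.natDegree - 1) * ∏ i, (derivative (spec z F)).eval (s i z) := by
    have h1 := resultant_eq_prod_eval (spec z F) (derivative (spec z F)) (F.natDegree - 1)
      (by rw [← hd]; exact natDegree_derivative_le _) hsp
    rw [hd, hlc, ← hR, Multiset.map_map] at h1
    exact h1
  rw [resultant_deriv (natDegree_pos_iff_degree_pos.mp hn)] at hres1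
  have hev : ∀ i, (derivative (spec z F)).eval (s i z) =
      F.leadingCoeff.eval z * ∏ j ∈ Finset.univ.erase i, (s i z - s j z) := by
    intro i
    rw [hg]
    exact GrA_deriv _ (fun i => s i z) i
  have hkey : F.leadingCoeff.eval z ^ (F.natDegree - 1) *
      (F.leadingCoeff.eval z ^ F.natDegree * Ps s z) =
      (-1) ^ (F.natDegree * (F.natDegree - 1) / 2) * F.leadingCoeff.eval z * F.discr.eval z := by
    have h1 : ∏ i, (derivative (spec z F)).eval (s i z) = F.leadingCoeff.eval z ^ F.natDegree * Ps s z := by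
      rw [GrA_Ps, Finset.prod_congr rfl (fun i _ => hev i), Finset.prod_mul_distrib, Finset.prod_const,
        Finset.card_univ, Fintype.card_fin]
    rw [← h1, ← hres2, hres1]
    simp
  have hnorm := congrArg norm hkey
  rw [norm_mul, norm_mul, norm_mul, norm_mul, norm_pow, norm_pow, norm_pow, norm_neg, norm_one, one_pow, one_mul]
    at hnorm
  have ha : ‖F.leadingCoeff.eval z‖ ≠ 0 := norm_ne_zero_iff.mpr hl
  apply mul_left_cancel₀ ha
  rw [← hnorm]
  have he : F.natDegree - 1 + F.natDegree = 1 + (2 * F.natDegree - 2) := by omega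
  calc ‖F.leadingCoeff.eval z‖ * (‖Ps s z‖ * ‖F.leadingCoeff.eval z‖ ^ (2 * F.natDegree - 2))
      = ‖F.leadingCoeff.eval z‖ ^ (1 + (2 * F.natDegree - 2)) * ‖Ps s z‖ := by rw [pow_add, pow_one]; ring
    _ = ‖F.leadingCoeff.eval z‖ ^ (F.natDegree - 1) * (‖F.leadingCoeff.eval z‖ ^ F.natDegree * ‖Ps s z‖) := by
        rw [← he, pow_add]; ring

end Pool.Agent.LZ
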