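import Pool.Agent.Lib.MP_79da24_ag.TD
import Pool.Agent.Lib.MP_79da24_ag.Std
import Pool.Agent.Lib.MP_79da24_ag.GrA

set_option autoImplicit false

namespace Pool.Agent.LZ

open Polynomial Filter Topology Metric

private theorem GrB_sum (F : Polynomial (Polynomial ℂ)) (x y : ℂ) :
    F.evalEval x y = ∑ i ∈ Finset.range (F.natDegree + 1), (F.coeff i).eval x * y ^ i := by
  rw [Polynomial.evalEval, Polynomial.eval_eq_sum_range (p := F) (C y), Polynomial.eval_finsetSum]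
  refine Finset.sum_congr rfl (fun i _ => ?_)
  rw [Polynomial.eval_mul, Polynomial.eval_pow, Polynomial.eval_C]

/-- (GrB1) a root bound. Proof. `y` is a root of `spec z F = ∑ a_k(z) Y^k` of degree `n` with leading coefficient `a = a_n(z) ≠ 0`. If `‖y‖ > 1` then
`a y = - ∑_{k<n} a_k y^{k-n+1}`, so `‖a‖ ‖y‖ ≤ ∑_{k<n} ‖a_k‖`. (`F.evalEval z y = ∑ k ∈ range (n+1), (F.coeff k).eval z * y ^ k`, see `Cover1_sum` in
Cover.lean.) -/
theorem norm_root_le (F : Polynomial (Polynomial ℂ)) {z y : ℂ} (hy : F.evalEval z y = 0)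
    (hl : F.leadingCoeff.eval z ≠ 0) :
    ‖y‖ ≤ 1 + (∑ k ∈ Finset.range F.natDegree, ‖(F.coeff k).eval z‖) / ‖F.leadingCoeff.eval z‖ := by
  have ha : 0 < ‖F.leadingCoeff.eval z‖ := norm_pos_iff.mpr hl
  have hS : 0 ≤ ∑ k ∈ Finset.range F.natDegree, ‖(F.coeff k).eval z‖ :=
    Finset.sum_nonneg fun k _ => norm_nonneg _
  by_cases h1 : ‖y‖ ≤ 1
  · have := div_nonneg hS ha.le
    linarith
  have h1' : 1 < ‖y‖ := not_le.mp h1
  have hy0 : 0 < ‖y‖ := by linarith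
  rw [GrB_sum, Finset.sum_range_succ] at hy
  have hn : F.natDegree ≠ 0 := by
    intro h0
    rw [h0] at hy
    simp only [Finset.range_zero, Finset.sum_empty, pow_zero, mul_one, zero_add] at hy
    apply hl
    rw [Polynomial.leadingCoeff, h0]
    exact hy
  obtain ⟨m, hm⟩ := Nat.exists_eq_succ_of_ne_zero hn
  have h2 : F.leadingCoeff.eval z * y ^ F.natDegree =
      -∑ i ∈ Finset.range F.natDegree, (F.coeff i).eval z * y ^ i := by
    rw [Polynomial.leadingCoeff]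
    linear_combination hy
  have h3 : ‖F.leadingCoeff.eval z‖ * ‖y‖ ^ F.natDegree ≤
      (∑ k ∈ Finset.range F.natDegree, ‖(F.coeff k).eval z‖) * ‖y‖ ^ m := by
    calc ‖F.leadingCoeff.eval z‖ * ‖y‖ ^ F.natDegree = ‖F.leadingCoeff.eval z * y ^ F.natDegree‖ := by
          rw [norm_mul, norm_pow]
      _ = ‖∑ i ∈ Finset.range F.natDegree, (F.coeff i).eval z * y ^ i‖ := by rw [h2, norm_neg]
      _ ≤ ∑ i ∈ Finset.range F.natDegree, ‖(F.coeff i).eval z * y ^ i‖ := norm_sum_le _ _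
      _ ≤ ∑ i ∈ Finset.range F.natDegree, ‖(F.coeff i).eval z‖ * ‖y‖ ^ m := by
          refine Finset.sum_le_sum fun i hi => ?_
          rw [norm_mul, norm_pow]
          refine mul_le_mul_of_nonneg_left ?_ (norm_nonneg _)
          have hi' : i ≤ m := by
            have := Finset.mem_range.mp hi
            omega
          exact pow_le_pow_right₀ h1'.le hi'
      _ = _ := by rw [Finset.sum_mul]
  have h4 : ‖F.leadingCoeff.eval z‖ * ‖y‖ ≤ ∑ k ∈ Finset.range F.natDegree, ‖(F.coeff k).eval z‖ := by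
    have hpm : 0 < ‖y‖ ^ m := pow_pos hy0 m
    have e : ‖y‖ ^ F.natDegree = ‖y‖ * ‖y‖ ^ m := by
      rw [hm, Nat.succ_eq_add_one, pow_succ]
      ring
    rw [e, ← mul_assoc] at h3
    exact le_of_mul_le_mul_right h3 hpm
  have h5 : ‖y‖ ≤ (∑ k ∈ Finset.range F.natDegree, ‖(F.coeff k).eval z‖) / ‖F.leadingCoeff.eval z‖ := by
    rw [le_div_iff₀ ha]
    linarith [mul_comm ‖F.leadingCoeff.eval z‖ ‖y‖]
  linarith

/-- (GrB2) Proof. A nonzero polynomial `p` satisfies `κ ρ^m ≤ ‖p z‖` for `ρ = ‖z - c‖` small positive: `p = (X - c)^m q`, `q c ≠ 0`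
(`Polynomial.exists_eq_pow_rootMultiplicity_mul_and_not_dvd`), continuity of `q`; in particular `ρ^(m+1) ≤ ‖p z‖` and `≠ 0` for small `ρ`. Also every
polynomial is bounded near `c`. -/
theorem poly_lower_near {p : Polynomial ℂ} (hp : p ≠ 0) (c : ℂ) :
    ∃ K : ℕ, ∃ η : ℝ, 0 < η ∧ ∀ z, 0 < ‖z - c‖ → ‖z - c‖ < η → ‖z - c‖ ^ K ≤ ‖p.eval z‖ := by
  obtain ⟨q, hq1, hq2⟩ := Polynomial.exists_eq_pow_rootMultiplicity_mul_and_not_dvd p hp c
  have hqc : q.eval c ≠ 0 := by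
    intro h
    exact hq2 (Polynomial.dvd_iff_isRoot.mpr h)
  have hqp : 0 < ‖q.eval c‖ := norm_pos_iff.mpr hqc
  have hcont : ContinuousAt (fun z : ℂ => ‖q.eval z‖) c := q.continuous.norm.continuousAt
  have hev : ∀ᶠ z in 𝓝 c, ‖q.eval c‖ / 2 < ‖q.eval z‖ :=
    hcont.eventually (lt_mem_nhds (by linarith : ‖q.eval c‖ / 2 < ‖q.eval c‖))
  obtain ⟨η, hη, hη2⟩ := Metric.eventually_nhds_iff.mp hev
  refine ⟨p.rootMultiplicity c + 1, min η (‖q.eval c‖ / 2), lt_min hη (by linarith), ?_⟩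
  intro z hz0 hz
  have hz1 : ‖z - c‖ < η := lt_of_lt_of_le hz (min_le_left _ _)
  have hz2 : ‖z - c‖ < ‖q.eval c‖ / 2 := lt_of_lt_of_le hz (min_le_right _ _)
  have h1 := hη2 (by rw [dist_eq_norm]; exact hz1 : dist z c < η)
  have h2 : ‖p.eval z‖ = ‖z - c‖ ^ p.rootMultiplicity c * ‖q.eval z‖ := by
    conv_lhs => rw [hq1]
    rw [Polynomial.eval_mul, Polynomial.eval_pow, Polynomial.eval_sub, Polynomial.eval_X, Polynomial.eval_C,
      norm_mul, norm_pow]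
  rw [h2, pow_succ]
  refine mul_le_mul_of_nonneg_left ?_ (pow_nonneg (norm_nonneg _) _)
  linarith

/-- (GrB3) growth of the roots and of their differences near a point `c` (in `S` or not).
Proof. Let `ρ = ‖z - c‖`. By GrB2 for `lc(F) ≠ 0` and `discr(F) ≠ 0` (`h.dne`): `ρ^K₁ ≤ ‖lc(z)‖`, `ρ^K₁ ≤ ‖discr(z)‖` for small `ρ > 0`
(so `z ∉ S` by `h.mem`), all `‖a_k(z)‖ ≤ A`. GrB1: `‖s i z‖ ≤ 1 + nA ρ^{-K₁} ≤ ρ^{-K₂}` for small `ρ`. Hence `‖s i z - s j z‖ ≤ 2 ρ^{-K₂} ≤ ρ^{-K₂-1}`.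
`Ps s z = ∏ over n(n-1)` pairs, GrA: `‖Ps s z‖ = ‖discr(z)‖ / ‖lc(z)‖^{2n-2} ≥ ρ^{K₁} / A'^{2n-2}`, and all but one factor of the product are
`≤ ρ^{-K₂-1}` (`≥ 1`), so the remaining factor is `≥ ρ^{K₁ + n²(K₂+1)} / A'^{2n-2} ≥ ρ^{K₃}` for small `ρ`
(`Finset.prod_erase_mul`/`Finset.mul_prod_erase`, `Finset.prod_le_pow_card`). Take `K = max` of everything (powers of `ρ < 1` are decreasing in the exponent). -/
theorem growth_near {F : Polynomial (Polynomial ℂ)} {S : Finset ℂ} (h : Std F S) (c : ℂ) :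
    ∃ K : ℕ, ∃ η : ℝ, 0 < η ∧ η < 1 / 3 ∧ ∀ z, 0 < ‖z - c‖ → ‖z - c‖ < η → z ∉ S ∧
      ∀ (U : Set ℂ) (s : Fin F.natDegree → ℂ → ℂ), HSec F F.natDegree U s → z ∈ U → ∀ i j, i ≠ j →
        ‖z - c‖ ^ K ≤ ‖s i z - s j z‖ ∧ ‖s i z - s j z‖ ≤ (‖z - c‖ ^ K)⁻¹ := by
  have hF : F ≠ 0 := by
    intro h0
    have := h.npos
    rw [h0, natDegree_zero] at this
    exact absurd this (lt_irrefl 0)
  have hlc : F.leadingCoeff ≠ 0 := Polynomial.leadingCoeff_ne_zero.mpr hF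
  obtain ⟨K1, η1, hη1, hK1⟩ := poly_lower_near hlc c
  obtain ⟨K2, η2, hη2, hK2⟩ := poly_lower_near h.dne c
  set n := F.natDegree with hn
  set N0 : ℕ := (P2 n).card with hN0
  set A : ℝ := (∑ k ∈ Finset.range n, ‖(F.coeff k).eval c‖) + 1 with hA
  set A' : ℝ := ‖F.leadingCoeff.eval c‖ + 1 with hA'
  have hA0 : 0 < A := by
    have : 0 ≤ ∑ k ∈ Finset.range n, ‖(F.coeff k).eval c‖ := Finset.sum_nonneg fun k _ => norm_nonneg _
    linarith
  have hA'0 : 1 ≤ A' := by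
    have := norm_nonneg (F.leadingCoeff.eval c)
    linarith
  have hev1 : ∀ᶠ z in 𝓝 c, ∑ k ∈ Finset.range n, ‖(F.coeff k).eval z‖ < A := by
    have hc : ContinuousAt (fun z : ℂ => ∑ k ∈ Finset.range n, ‖(F.coeff k).eval z‖) c := by
      refine Continuous.continuousAt ?_
      exact continuous_finsetSum _ fun k _ => (F.coeff k).continuous.norm
    exact hc.eventually (gt_mem_nhds (by linarith))
  have hev2 : ∀ᶠ z in 𝓝 c, ‖F.leadingCoeff.eval z‖ < A' := by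
    have hc : ContinuousAt (fun z : ℂ => ‖F.leadingCoeff.eval z‖) c :=
      F.leadingCoeff.continuous.norm.continuousAt
    exact hc.eventually (gt_mem_nhds (by linarith))
  obtain ⟨η3, hη3, h3⟩ := Metric.eventually_nhds_iff.mp (hev1.and hev2)
  have hA'p : 0 < A' ^ (2 * n - 2) := pow_pos (by linarith) _
  set η : ℝ := min (min (min η1 η2) (min η3 (1 / 4))) (min (1 / (2 * (1 + A))) (1 / A' ^ (2 * n - 2))) with hη
  have hηpos : 0 < η := by
    refine lt_min (lt_min (lt_min hη1 hη2) (lt_min hη3 (by norm_num))) (lt_min ?_ ?_)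
    · positivity
    · positivity
  refine ⟨K2 + (K1 + 1) * N0 + 1 + (K1 + 1), η, hηpos, ?_, ?_⟩
  · have : η ≤ 1 / 4 := (min_le_left _ _).trans ((min_le_right _ _).trans (min_le_right _ _))
    linarith
  intro z hz0 hz
  set ρ : ℝ := ‖z - c‖ with hρ
  have e1 : ρ < η1 := lt_of_lt_of_le hz ((min_le_left _ _).trans ((min_le_left _ _).trans (min_le_left _ _)))
  have e2 : ρ < η2 := lt_of_lt_of_le hz ((min_le_left _ _).trans ((min_le_left _ _).trans (min_le_right _ _)))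
  have e3 : ρ < η3 := lt_of_lt_of_le hz ((min_le_left _ _).trans ((min_le_right _ _).trans (min_le_left _ _)))
  have e4 : ρ < 1 / 4 := lt_of_lt_of_le hz ((min_le_left _ _).trans ((min_le_right _ _).trans (min_le_right _ _)))
  have e5 : ρ < 1 / (2 * (1 + A)) := lt_of_lt_of_le hz ((min_le_right _ _).trans (min_le_left _ _))
  have e6 : ρ < 1 / A' ^ (2 * n - 2) := lt_of_lt_of_le hz ((min_le_right _ _).trans (min_le_right _ _))
  have hρ1 : ρ ≤ 1 := by linarith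
  have g1 := hK1 z hz0 e1
  have g2 := hK2 z hz0 e2
  obtain ⟨g3, g4⟩ := h3 (by rw [dist_eq_norm]; exact e3 : dist z c < η3)
  rw [← hρ] at g1 g2
  have hpK1 : 0 < ρ ^ K1 := pow_pos hz0 _
  have hpK2 : 0 < ρ ^ K2 := pow_pos hz0 _
  have hlz : 0 < ‖F.leadingCoeff.eval z‖ := lt_of_lt_of_le hpK1 g1
  have hdz : 0 < ‖F.discr.eval z‖ := lt_of_lt_of_le hpK2 g2
  have hlz' : F.leadingCoeff.eval z ≠ 0 := norm_pos_iff.mp hlz
  have hdz' : F.discr.eval z ≠ 0 := norm_pos_iff.mp hdz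
  have hzS : z ∉ S := by
    rw [h.mem, Polynomial.eval_mul]
    exact mul_ne_zero hlz' hdz'
  refine ⟨hzS, ?_⟩
  intro U s hs hzU i j hij
  -- roots
  have hroot : ∀ i, ‖s i z‖ ≤ 1 + A / ρ ^ K1 := by
    intro i
    have h4 : F.evalEval z (s i z) = 0 := (hs.mem_iff z hzU _).mpr ⟨i, rfl⟩
    refine (norm_root_le F h4 hlz').trans ?_
    have h5 : (∑ k ∈ Finset.range F.natDegree, ‖(F.coeff k).eval z‖) / ‖F.leadingCoeff.eval z‖ ≤ A / ρ ^ K1 := by
      rw [← hn]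
      exact div_le_div₀ hA0.le g3.le hpK1 g1
    linarith
  set B : ℝ := (ρ ^ (K1 + 1))⁻¹ with hB
  have hpK11 : 0 < ρ ^ (K1 + 1) := pow_pos hz0 _
  have hB1 : 1 ≤ B := by
    rw [hB]
    exact (one_le_inv₀ hpK11).mpr (pow_le_one₀ hz0.le hρ1)
  have hdiff : ∀ i j, ‖s i z - s j z‖ ≤ B := by
    intro i j
    have h4 : ‖s i z - s j z‖ ≤ 2 * (1 + A / ρ ^ K1) := by
      have := norm_sub_le (s i z) (s j z)
      linarith [hroot i, hroot j]
    refine h4.trans ?_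
    rw [hB, ← one_div, le_div_iff₀ hpK11, pow_succ]
    have h5 : 2 * (1 + A / ρ ^ K1) * (ρ ^ K1 * ρ) = 2 * (ρ ^ K1 + A) * ρ := by
      field_simp
    rw [h5]
    have h6 : ρ ^ K1 ≤ 1 := pow_le_one₀ hz0.le hρ1
    have h7 : 2 * (ρ ^ K1 + A) ≤ 2 * (1 + A) := by linarith
    have h8 : ρ * (2 * (1 + A)) < 1 := (lt_div_iff₀ (by linarith)).mp e5
    calc 2 * (ρ ^ K1 + A) * ρ ≤ 2 * (1 + A) * ρ := mul_le_mul_of_nonneg_right h7 hz0.le
      _ ≤ 1 := by linarith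
  have hPs := norm_Ps_mul F h.npos hs hzU hlz'
  have hprod : ‖Ps s z‖ ≤ ‖s i z - s j z‖ * B ^ N0 := by
    have hmem : (i, j) ∈ P2 n := mem_P2.mpr hij
    have e : ‖Ps s z‖ = ∏ t ∈ P2 n, ‖s t.1 z - s t.2 z‖ := by
      rw [Ps, norm_prod]
    rw [e, ← Finset.mul_prod_erase (P2 n) (fun t => ‖s t.1 z - s t.2 z‖) hmem]
    refine mul_le_mul_of_nonneg_left ?_ (norm_nonneg _)
    calc ∏ t ∈ (P2 n).erase (i, j), ‖s t.1 z - s t.2 z‖ ≤ ∏ _t ∈ (P2 n).erase (i, j), B :=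
          Finset.prod_le_prod (fun t _ => norm_nonneg _) fun t _ => hdiff t.1 t.2
      _ = B ^ ((P2 n).erase (i, j)).card := Finset.prod_const _
      _ ≤ B ^ N0 := pow_le_pow_right₀ hB1 (Finset.card_le_card (Finset.erase_subset _ _))
  have hlow : ρ ^ K2 ≤ ‖s i z - s j z‖ * B ^ N0 * A' ^ (2 * n - 2) := by
    calc ρ ^ K2 ≤ ‖F.discr.eval z‖ := g2
      _ = ‖Ps s z‖ * ‖F.leadingCoeff.eval z‖ ^ (2 * n - 2) := hPs.symm
      _ ≤ (‖s i z - s j z‖ * B ^ N0) * A' ^ (2 * n - 2) := by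
          refine mul_le_mul hprod ?_ (by positivity) ?_
          · exact pow_le_pow_left₀ (norm_nonneg _) g4.le _
          · have : 0 ≤ B := by linarith
            positivity
  have hBN : B ^ N0 * ρ ^ ((K1 + 1) * N0) = 1 := by
    rw [hB, inv_pow, ← pow_mul]
    exact inv_mul_cancel₀ (pow_pos hz0 _).ne'
  have hx0 : 0 ≤ ‖s i z - s j z‖ := norm_nonneg _
  have hmain : ρ ^ (K2 + (K1 + 1) * N0 + 1) ≤ ‖s i z - s j z‖ := by
    have h8 : ρ * A' ^ (2 * n - 2) < 1 := (lt_div_iff₀ hA'p).mp e6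
    have hpN : 0 < ρ ^ ((K1 + 1) * N0) := pow_pos hz0 _
    calc ρ ^ (K2 + (K1 + 1) * N0 + 1) = ρ ^ K2 * (ρ ^ ((K1 + 1) * N0) * ρ) := by
          rw [pow_succ, pow_add]
          ring
      _ ≤ (‖s i z - s j z‖ * B ^ N0 * A' ^ (2 * n - 2)) * (ρ ^ ((K1 + 1) * N0) * ρ) :=
          mul_le_mul_of_nonneg_right hlow (by positivity)
      _ = ‖s i z - s j z‖ * (B ^ N0 * ρ ^ ((K1 + 1) * N0)) * (ρ * A' ^ (2 * n - 2)) := by ring
      _ = ‖s i z - s j z‖ * (ρ * A' ^ (2 * n - 2)) := by rw [hBN, mul_one]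
      _ ≤ ‖s i z - s j z‖ * 1 := mul_le_mul_of_nonneg_left h8.le hx0
      _ = ‖s i z - s j z‖ := mul_one _
  constructor
  · refine le_trans ?_ hmain
    exact pow_le_pow_of_le_one hz0.le hρ1 (by omega)
  · refine (hdiff i j).trans ?_
    rw [hB]
    refine inv_anti₀ (pow_pos hz0 _) ?_
    exact pow_le_pow_of_le_one hz0.le hρ1 (by omega)

end Pool.Agent.LZ
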