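import Pool.Agent.Lib.MP_79da24_ag.TD

set_option autoImplicit false
set_option linter.unusedSectionVars false

namespace Pool.Agent.LZ

open Polynomial Filter Topology Metric

/-- (HsC) Proof. Take a ball `T ∋ z` with `T ⊆ U ∩ V` (both open). `(hs.mono ..).isSec` and `(ht.mono ..).isSec` are `IsSec (curve F) T n`.
By `IsSec.match` (Sect.lean; `T` is convex hence preconnected) for every `i` there is `σ i` with `t i w = s (σ i) w` for all `w ∈ T`.
`σ` is injective: `σ i = σ j` gives `t i z = t j z`, `i = j` by `ht.inj`. So `σ` is a bijection (`Finite.injective_iff_bijective`,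
`Equiv.ofBijective`). -/
theorem hsec_match {F : Polynomial (Polynomial ℂ)} {n : ℕ} {U V : Set ℂ} {s t : Fin n → ℂ → ℂ}
    (hs : HSec F n U s) (ht : HSec F n V t) {z : ℂ} (hz : z ∈ U) (hz' : z ∈ V) :
    ∃ σ : Equiv.Perm (Fin n), ∀ i, t i =ᶠ[𝓝 z] s (σ i) := by
  have hop : IsOpen (U ∩ V) := hs.isOpen.inter ht.isOpen
  obtain ⟨r, hr, hball⟩ := Metric.isOpen_iff.mp hop z ⟨hz, hz'⟩
  have hU : ball z r ⊆ U := fun w hw => (hball hw).1
  have hV : ball z r ⊆ V := fun w hw => (hball hw).2
  have hs' := (hs.mono isOpen_ball hU).isSec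
  have ht' := (ht.mono isOpen_ball hV).isSec
  have hpc : IsPreconnected (ball z r) := (convex_ball z r).isPreconnected
  have hzb : z ∈ ball z r := mem_ball_self hr
  have key : ∀ i, ∃ j, ∀ w ∈ ball z r, t i w = s j w := by
    intro i
    exact IsSec.match ht' hs' hpc ⟨z, hzb⟩ i
  choose σ hσ using key
  have hinj : Function.Injective σ := by
    intro i j hij
    apply ht.inj z hz'
    rw [hσ i z hzb, hσ j z hzb, hij]
  refine ⟨Equiv.ofBijective σ (Finite.injective_iff_bijective.mp hinj), ?_⟩
  intro i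
  filter_upwards [isOpen_ball.mem_nhds hzb] with w hw
  exact hσ i w hw

end Pool.Agent.LZ
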