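import Pool.Agent.Lib.MP_79da24_ag.TD

set_option autoImplicit false

namespace Pool.Agent.LZ

open Polynomial Filter Topology Metric

/-- (LdA) logarithmic derivative of a holomorphic function without zeros on a disc.
Proof. `u` has no zero on the ball `B`. `g = deriv u / u` is holomorphic on `B` (`DifferentiableOn.deriv`, open set) and has a primitive `h` on `B`
(Mathlib: holomorphic functions on discs have primitives, e.g. `DifferentiableOn.isExactOn_ball` / `Complex.IsExactOn`, search `isExactOn`), normalised by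
`h z₀ = 0`. Then `(u * exp (-h))' = 0`, so `u = u z₀ * exp h` on `B` (constant on the convex ball), `Re h z = log ‖u z‖ - log ‖u z₀‖ ≤ b - a < M := b - a + 1`.
Borel-Caratheodory (`Complex.borelCaratheodory_zero` in Mathlib.Analysis.Complex.BorelCaratheodory, for balls centred at `0`: apply it to
`w ↦ h (z₀ + w)`): `‖h (z₀ + w)‖ ≤ 2 M ‖w‖ / (r - ‖w‖)`; dividing by `‖w‖` and letting `w → 0`: `‖h' z₀‖ ≤ 2 M / r`
(or: for `‖w‖ < r / 2` one has `‖h (z₀ + w)‖ ≤ (4 M / r) ‖w‖`, so `‖deriv h z₀‖ ≤ 4 M / r` by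
`norm_deriv_le_of_lip'`-like lemma / `HasDerivAt.le_of_lip'`). And `h' z₀ = u' z₀ / u z₀`. -/
theorem norm_logDeriv_le {u : ℂ → ℂ} {z₀ : ℂ} {r a b : ℝ} (hr : 0 < r) (hu : DifferentiableOn ℂ u (ball z₀ r))
    (h : ∀ z ∈ ball z₀ r, Real.exp a ≤ ‖u z‖ ∧ ‖u z‖ ≤ Real.exp b) :
    ‖deriv u z₀ / u z₀‖ ≤ 4 * (b - a + 1) / r := by
  have hz₀ : z₀ ∈ ball z₀ r := mem_ball_self hr
  have hne : ∀ z ∈ ball z₀ r, u z ≠ 0 := by
    intro z hz h0
    have := (h z hz).1
    rw [h0, norm_zero] at this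
    exact absurd this (not_le.mpr (Real.exp_pos a))
  have hba : a ≤ b := by
    have := (h z₀ hz₀).1.trans (h z₀ hz₀).2
    exact Real.exp_le_exp.mp this
  have hg : DifferentiableOn ℂ (fun z => deriv u z / u z) (ball z₀ r) :=
    (hu.deriv isOpen_ball).div hu hne
  obtain ⟨η, hη0, hη⟩ := hg.isExactOn_ball.with_val_at z₀ 0
  have hud : ∀ z ∈ ball z₀ r, HasDerivAt u (deriv u z) z := fun z hz =>
    ((hu z hz).differentiableAt (isOpen_ball.mem_nhds hz)).hasDerivAt
  have hk : ∀ z ∈ ball z₀ r, HasDerivAt (fun w => u w * Complex.exp (-η w)) 0 z := by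
    intro z hz
    have h1 := (hud z hz).mul ((hη z hz).neg.cexp)
    refine h1.congr_deriv ?_
    have h2 : u z * (deriv u z / u z) = deriv u z := mul_div_cancel₀ _ (hne z hz)
    linear_combination (-Complex.exp (-η z)) * h2
  have hconst : ∀ z ∈ ball z₀ r, u z * Complex.exp (-η z) = u z₀ := by
    intro z hz
    have h1 := isOpen_ball.is_const_of_deriv_eq_zero (𝕜 := ℂ) (f := fun w => u w * Complex.exp (-η w))
      (convex_ball z₀ r).isPreconnected
      (fun w hw => (hk w hw).differentiableAt.differentiableWithinAt)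
      (fun w hw => (hk w hw).deriv) hz hz₀
    simpa [hη0] using h1
  have hexp : ∀ z ∈ ball z₀ r, u z = u z₀ * Complex.exp (η z) := by
    intro z hz
    rw [← hconst z hz, mul_assoc, ← Complex.exp_add]
    simp
  have hre : ∀ z ∈ ball z₀ r, (η z).re ≤ b - a := by
    intro z hz
    have h1 : ‖u z‖ = ‖u z₀‖ * Real.exp (η z).re := by
      rw [hexp z hz, norm_mul, Complex.norm_exp]
    have h2 : Real.exp a * Real.exp (η z).re ≤ Real.exp b := by
      calc Real.exp a * Real.exp (η z).re ≤ ‖u z₀‖ * Real.exp (η z).re :=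
            mul_le_mul_of_nonneg_right (h z₀ hz₀).1 (Real.exp_pos _).le
        _ = ‖u z‖ := h1.symm
        _ ≤ Real.exp b := (h z hz).2
    rw [← Real.exp_add] at h2
    have := Real.exp_le_exp.mp h2
    linarith
  set M : ℝ := b - a + 1 with hM
  have hMpos : 0 < M := by rw [hM]; linarith
  have hf : DifferentiableOn ℂ (fun w => η (z₀ + w)) (ball 0 r) := by
    intro w hw
    have hw' : z₀ + w ∈ ball z₀ r := by
      simpa [mem_ball, dist_eq_norm] using hw
    exact ((hη _ hw').differentiableAt.comp w (by fun_prop)).differentiableWithinAt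
  have hBC : ∀ w ∈ ball (0 : ℂ) r, ‖η (z₀ + w)‖ ≤ 2 * M * ‖w‖ / (r - ‖w‖) := by
    intro w hw
    refine Complex.borelCaratheodory_zero (f := fun w => η (z₀ + w)) hMpos hf ?_ hr hw (by simpa using hη0)
    intro x hx
    have hx' : z₀ + x ∈ ball z₀ r := by
      simpa [mem_ball, dist_eq_norm] using hx
    have := hre _ hx'
    show (η (z₀ + x)).re ≤ M
    rw [hM]; linarith
  have hder : HasDerivAt η (deriv u z₀ / u z₀) z₀ := hη z₀ hz₀
  have hle : ‖deriv u z₀ / u z₀‖ ≤ 4 * M / r := by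
    refine hder.le_of_lip' (by positivity) ?_
    have hnb : ball z₀ (r / 2) ∈ 𝓝 z₀ := ball_mem_nhds z₀ (by positivity)
    filter_upwards [hnb] with x hx
    rw [hη0, sub_zero]
    have hxw : ‖x - z₀‖ < r / 2 := by simpa [mem_ball, dist_eq_norm] using hx
    have hmem : x - z₀ ∈ ball (0 : ℂ) r := by
      rw [mem_ball_zero_iff]; linarith
    have h1 := hBC (x - z₀) hmem
    rw [add_sub_cancel] at h1
    refine h1.trans ?_
    have hden : r / 2 ≤ r - ‖x - z₀‖ := by linarith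
    have hr2 : 0 < r / 2 := by positivity
    calc 2 * M * ‖x - z₀‖ / (r - ‖x - z₀‖) ≤ 2 * M * ‖x - z₀‖ / (r / 2) := by
          gcongr
      _ = 4 * M / r * ‖x - z₀‖ := by field_simp; ring
  exact hle

/-- (LdB) the same with powers: if `ρ ^ K ≤ ‖u‖ ≤ (ρ ^ K)⁻¹` on the ball, `0 < ρ < 1`.
Proof. LdA with `a = K log ρ`, `b = -K log ρ` (`Real.exp_log`, `Real.exp_nat_mul`): the bound is `4 (2 K (-log ρ) + 1) / r`. -/
theorem norm_logDeriv_le' {u : ℂ → ℂ} {z₀ : ℂ} {r ρ : ℝ} (K : ℕ) (hr : 0 < r) (hρ : 0 < ρ) (hρ1 : ρ < 1)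
    (hu : DifferentiableOn ℂ u (ball z₀ r))
    (h : ∀ z ∈ ball z₀ r, ρ ^ K ≤ ‖u z‖ ∧ ‖u z‖ ≤ (ρ ^ K)⁻¹) :
    ‖deriv u z₀ / u z₀‖ ≤ 4 * (2 * K * (-Real.log ρ) + 1) / r := by
  have h1 : Real.exp (K * Real.log ρ) = ρ ^ K := by
    rw [Real.exp_nat_mul, Real.exp_log hρ]
  have h2 : Real.exp (-(K * Real.log ρ)) = (ρ ^ K)⁻¹ := by
    rw [Real.exp_neg, h1]
  have h3 := norm_logDeriv_le (a := K * Real.log ρ) (b := -(K * Real.log ρ)) hr hu (by
    intro z hz
    rw [h1, h2]
    exact h z hz)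
  refine h3.trans (le_of_eq ?_)
  ring

end Pool.Agent.LZ
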