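import Pool.Agent.Lib.MP_79da24_ag.TD
import Pool.Agent.Lib.MP_79da24_ag.Std
import Pool.Agent.Lib.MP_79da24_ag.HsC
import Pool.Agent.Lib.MP_79da24_ag.GlA
import Pool.Agent.Lib.MP_79da24_ag.LdA
import Pool.Agent.Lib.MP_79da24_ag.GrB

set_option autoImplicit false

namespace Pool.Agent.LZ

open Polynomial Filter Topology Metric

/-- (BlA) the first divided differences near a point `c`.
Proof. `K`, `η₀` from `growth_near h c`. Let `η = min (η₀ / 2) ...`, `ρ = ‖z - c‖ < η`, `r = ρ / 2`. All points `w` of `ball z r` have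
`ρ/2 < ‖w - c‖ < 3ρ/2 < η₀`, so `w ∉ S`, and `h.exists_hsec z` gives `HSec F n (ball z r) t`. By `hsec_match` `s l =ᶠ[𝓝 z] t (σ l)` so
`Lq s i j z = Lq t (σ i) (σ j) z` (GlA1 with the roles: `hsec_match ht hs`). Let `u w = t (σ i) w - t (σ j) w`; by `growth_near` for `t` at the points of the ball:
`‖w - c‖^K ≤ ‖u w‖ ≤ (‖w - c‖^K)⁻¹`, so `(ρ/2)^K ≤ ‖u w‖ ≤ ((ρ/2)^K)⁻¹`. `norm_logDeriv_le'` (LdB) with `ρ/2`:
`‖Lq t _ _ z‖ = ‖deriv u z / u z‖ ≤ 4 (2K(-log(ρ/2)) + 1) / (ρ/2)` and `-log(ρ/2) = -log ρ + log 2 ≤ 2 (-log ρ)`, `1 ≤ -log ρ` as `ρ < 1/3`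
(`Real.log_two_lt_d9`, `exp 1 < 3`), so the bound is `≤ C (-log ρ)/ρ` with `C = 8 (4K + 1)`. (`deriv (t a - t b) = deriv (t a) - deriv (t b)` at `z`.) -/
theorem Lq_near {F : Polynomial (Polynomial ℂ)} {S : Finset ℂ} (h : Std F S) (c : ℂ) :
    ∃ C η : ℝ, 0 < C ∧ 0 < η ∧ η < 1 / 3 ∧ ∀ z, 0 < ‖z - c‖ → ‖z - c‖ < η → z ∉ S ∧
      ∀ (U : Set ℂ) (s : Fin F.natDegree → ℂ → ℂ), HSec F F.natDegree U s → z ∈ U → ∀ i j, i ≠ j →
        ‖Lq s i j z‖ ≤ C * (-Real.log ‖z - c‖) / ‖z - c‖ := by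
  obtain ⟨K, η₀, hη₀, hη₀3, hg⟩ := growth_near h c
  refine ⟨8 * (4 * K + 1), η₀ / 2, by positivity, by positivity, by linarith, fun z hz0 hz1 => ?_⟩
  refine ⟨(hg z hz0 (by linarith)).1, fun U s hs hzU i j hij => ?_⟩
  obtain ⟨ρ, hρ⟩ : ∃ ρ, ρ = ‖z - c‖ := ⟨_, rfl⟩
  rw [← hρ] at hz0 hz1 ⊢
  have hw : ∀ w ∈ ball z (ρ / 2), ρ / 2 ≤ ‖w - c‖ ∧ ‖w - c‖ < η₀ := by
    intro w hw
    rw [mem_ball, dist_eq_norm] at hw
    have h1 : ‖z - c‖ ≤ ‖z - w‖ + ‖w - c‖ := by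
      have := norm_add_le (z - w) (w - c)
      rwa [sub_add_sub_cancel] at this
    have h2 : ‖w - c‖ ≤ ‖w - z‖ + ‖z - c‖ := by
      have := norm_add_le (w - z) (z - c)
      rwa [sub_add_sub_cancel] at this
    rw [← hρ] at h1 h2
    rw [norm_sub_rev] at h1
    constructor <;> linarith
  have hb : ball z (ρ / 2) ⊆ ((S : Set ℂ)ᶜ) := by
    intro w hwb hwS
    have h1 := hw w hwb
    exact (hg w (by linarith) h1.2).1 hwS
  obtain ⟨t, ht⟩ := h.exists_hsec z (show 0 < ρ / 2 by positivity) hb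
  have hzb : z ∈ ball z (ρ / 2) := mem_ball_self (by positivity)
  obtain ⟨σ, hσ⟩ := hsec_match ht hs hzb hzU
  have hL : Lq s i j z = Lq t (σ i) (σ j) z := (Lq_congr (hσ i) (hσ j)).eq_of_nhds
  have hσij : σ i ≠ σ j := fun h0 => hij (σ.injective h0)
  have hd : ∀ k, DifferentiableAt ℂ (t k) z := fun k => (ht.diff k).differentiableAt (ht.isOpen.mem_nhds hzb)
  have hu : DifferentiableOn ℂ (fun w => t (σ i) w - t (σ j) w) (ball z (ρ / 2)) := (ht.diff _).sub (ht.diff _)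
  have hbd := norm_logDeriv_le' (u := fun w => t (σ i) w - t (σ j) w) (z₀ := z) (r := ρ / 2) (ρ := ρ / 2) K
    (by positivity) (by positivity) (by linarith) hu (by
      intro w hwb
      obtain ⟨h1, h2⟩ := hw w hwb
      obtain ⟨h3, h4⟩ := (hg w (by linarith) h2).2 _ t ht hwb (σ i) (σ j) hσij
      have h5 : (ρ / 2) ^ K ≤ ‖w - c‖ ^ K := pow_le_pow_left₀ (by positivity) h1 K
      refine ⟨h5.trans h3, h4.trans ?_⟩
      exact inv_anti₀ (by positivity) h5)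
  have hder : deriv (fun w => t (σ i) w - t (σ j) w) z = deriv (t (σ i)) z - deriv (t (σ j)) z :=
    deriv_fun_sub (hd _) (hd _)
  rw [hder] at hbd
  rw [hL]
  refine hbd.trans ?_
  have hlog : Real.log (ρ / 2) = Real.log ρ - Real.log 2 := Real.log_div hz0.ne' two_ne_zero
  have hlog2 : Real.log 2 ≤ 1 := by
    have := Real.log_two_lt_d9
    linarith
  have hL1 : 1 ≤ - Real.log ρ := by
    have h1 : Real.log ρ ≤ Real.log (Real.exp (-1)) := by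
      apply Real.log_le_log hz0
      have h2 : Real.exp 1 < 3 := by
        have := Real.exp_one_lt_d9
        linarith
      have h3 : (1 / 3 : ℝ) < Real.exp (-1) := by
        rw [Real.exp_neg, one_div]
        exact (inv_lt_inv₀ (by norm_num) (Real.exp_pos 1)).2 h2
      linarith
    rw [Real.log_exp] at h1
    linarith
  rw [hlog, div_le_div_iff₀ (by positivity) hz0]
  have hK : (0 : ℝ) ≤ K := Nat.cast_nonneg K
  have h1 : 2 * (K : ℝ) * (-(Real.log ρ - Real.log 2)) + 1 ≤ (4 * K + 1) * (-Real.log ρ) := by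
    have h2 : (K : ℝ) * Real.log 2 ≤ K * (-Real.log ρ) := mul_le_mul_of_nonneg_left (hlog2.trans hL1) hK
    nlinarith
  have h2 : 4 * (2 * (K : ℝ) * (-(Real.log ρ - Real.log 2)) + 1) * ρ ≤ 4 * ((4 * K + 1) * (-Real.log ρ)) * ρ :=
    mul_le_mul_of_nonneg_right (mul_le_mul_of_nonneg_left h1 (by norm_num)) hz0.le
  calc _ ≤ 4 * ((4 * K + 1) * (-Real.log ρ)) * ρ := h2
    _ = 8 * (4 * ↑K + 1) * -Real.log ρ * (ρ / 2) := by ring

end Pool.Agent.LZ
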