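import Pool.Agent.Lib.MP_79da24_ag.TD
import Pool.Agent.Lib.MP_79da24_ag.Std
import Pool.Agent.Lib.MP_79da24_ag.GrA
import Pool.Agent.Lib.MP_79da24_ag.GrB

set_option autoImplicit false

namespace Pool.Agent.LZ

open Polynomial Filter Topology Metric

private theorem GrC_upper (p : Polynomial ℂ) {z : ℂ} (hz : 1 ≤ ‖z‖) {D : ℕ} (hD : p.natDegree ≤ D) :
    ‖p.eval z‖ ≤ (∑ k ∈ Finset.range (p.natDegree + 1), ‖p.coeff k‖) * ‖z‖ ^ D := by
  rw [Polynomial.eval_eq_sum_range]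
  refine (norm_sum_le _ _).trans ?_
  rw [Finset.sum_mul]
  refine Finset.sum_le_sum fun k hk => ?_
  rw [norm_mul, norm_pow]
  refine mul_le_mul_of_nonneg_left ?_ (norm_nonneg _)
  refine pow_le_pow_right₀ hz ?_
  have := Finset.mem_range.mp hk
  omega

/-- (GrC1) a nonzero polynomial near infinity. Proof. `p.isEquivalent_atTop_lead`-type lemma over `ℂ`, or by hand: `p z = a z^m (1 + o(1))`;
or the reverse polynomial. Both bounds: `κ ‖z‖^m ≤ ‖p z‖ ≤ κ' ‖z‖^m`, `m = natDegree p`. -/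
theorem poly_bounds_infty {p : Polynomial ℂ} (hp : p ≠ 0) :
    ∃ κ κ' R : ℝ, 0 < κ ∧ 0 < κ' ∧ 1 < R ∧ ∀ z : ℂ, R < ‖z‖ →
      κ * ‖z‖ ^ p.natDegree ≤ ‖p.eval z‖ ∧ ‖p.eval z‖ ≤ κ' * ‖z‖ ^ p.natDegree := by
  have ha : 0 < ‖p.coeff p.natDegree‖ := by
    rw [norm_pos_iff]
    exact Polynomial.leadingCoeff_ne_zero.mpr hp
  set a : ℝ := ‖p.coeff p.natDegree‖ with hadef
  set T : ℝ := ∑ k ∈ Finset.range p.natDegree, ‖p.coeff k‖ with hT
  have hT0 : 0 ≤ T := Finset.sum_nonneg fun k _ => norm_nonneg _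
  refine ⟨a / 2, T + a, 2 * T / a + 2, by linarith, by linarith, ?_, ?_⟩
  · have : 0 ≤ 2 * T / a := by positivity
    linarith
  intro z hz
  have hz1 : 1 ≤ ‖z‖ := by
    have : 0 ≤ 2 * T / a := by positivity
    linarith
  have hz0 : 0 < ‖z‖ := by linarith
  have hzT : 2 * T ≤ a * ‖z‖ := by
    have h1 : 2 * T / a ≤ ‖z‖ := by linarith
    have h2 := (div_le_iff₀ ha).mp h1
    linarith [mul_comm ‖z‖ a]
  set m := p.natDegree with hm
  have hsum : p.eval z = (∑ k ∈ Finset.range m, p.coeff k * z ^ k) + p.coeff m * z ^ m := by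
    rw [Polynomial.eval_eq_sum_range, Finset.sum_range_succ]
  have hrest : ‖∑ k ∈ Finset.range m, p.coeff k * z ^ k‖ * ‖z‖ ≤ T * ‖z‖ ^ m := by
    calc ‖∑ k ∈ Finset.range m, p.coeff k * z ^ k‖ * ‖z‖
        ≤ (∑ k ∈ Finset.range m, ‖p.coeff k * z ^ k‖) * ‖z‖ :=
          mul_le_mul_of_nonneg_right (norm_sum_le _ _) hz0.le
      _ = ∑ k ∈ Finset.range m, ‖p.coeff k‖ * ‖z‖ ^ (k + 1) := by
          rw [Finset.sum_mul]
          refine Finset.sum_congr rfl fun k _ => ?_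
          rw [norm_mul, norm_pow, pow_succ, mul_assoc]
      _ ≤ ∑ k ∈ Finset.range m, ‖p.coeff k‖ * ‖z‖ ^ m := by
          refine Finset.sum_le_sum fun k hk => ?_
          refine mul_le_mul_of_nonneg_left ?_ (norm_nonneg _)
          exact pow_le_pow_right₀ hz1 (Finset.mem_range.mp hk)
      _ = T * ‖z‖ ^ m := by rw [← Finset.sum_mul]
  have hrest2 : ‖∑ k ∈ Finset.range m, p.coeff k * z ^ k‖ ≤ a / 2 * ‖z‖ ^ m := by
    have h1 : T * ‖z‖ ^ m ≤ (a / 2 * ‖z‖ ^ m) * ‖z‖ := by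
      calc T * ‖z‖ ^ m ≤ (a * ‖z‖ / 2) * ‖z‖ ^ m :=
            mul_le_mul_of_nonneg_right (by linarith) (by positivity)
        _ = (a / 2 * ‖z‖ ^ m) * ‖z‖ := by ring
    exact le_of_mul_le_mul_right (hrest.trans h1) hz0
  have hlead : ‖p.coeff m * z ^ m‖ = a * ‖z‖ ^ m := by rw [norm_mul, norm_pow]
  have hpm : 0 < ‖z‖ ^ m := pow_pos hz0 m
  constructor
  · have h1 : ‖p.coeff m * z ^ m‖ ≤ ‖p.eval z‖ + ‖∑ k ∈ Finset.range m, p.coeff k * z ^ k‖ := by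
      have e : p.coeff m * z ^ m = p.eval z - ∑ k ∈ Finset.range m, p.coeff k * z ^ k := by
        rw [hsum]
        ring
      rw [e]
      exact norm_sub_le _ _
    rw [hlead] at h1
    linarith
  · rw [hsum]
    refine (norm_add_le _ _).trans ?_
    rw [hlead]
    have h2 : ‖∑ k ∈ Finset.range m, p.coeff k * z ^ k‖ ≤ T * ‖z‖ ^ m := by
      have h3 : ‖∑ k ∈ Finset.range m, p.coeff k * z ^ k‖ * 1 ≤
          ‖∑ k ∈ Finset.range m, p.coeff k * z ^ k‖ * ‖z‖ :=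
        mul_le_mul_of_nonneg_left hz1 (norm_nonneg _)
      linarith
    linarith

private theorem GrC_S {F : Polynomial (Polynomial ℂ)} {S : Finset ℂ} (h : Std F S) : F ≠ 0 := by
  intro h0
  have := h.npos
  rw [h0, natDegree_zero] at this
  exact absurd this (lt_irrefl 0)

/-- (GrC2) growth of the differences of the roots near infinity. Proof. As GrB3, with `‖z‖` in place of `1/ρ`: for `‖z‖ > R`: `z ∉ S` (`S` is finite),
`‖lc(z)‖ ≥ κ > 0`, `‖discr(z)‖ ≥ κ`, `‖a_k(z)‖ ≤ A ‖z‖^d`, `‖s i z‖ ≤ 1 + nA‖z‖^d/κ ≤ ‖z‖^{K₂}`, differences `≤ ‖z‖^{K₂+1}`,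
`‖Ps s z‖ ≥ κ / ‖lc(z)‖^{2n-2} ≥ ‖z‖^{-K₁}`, so every difference is `≥ ‖z‖^{-K₃}` (divide by the other factors). -/
theorem growth_infty {F : Polynomial (Polynomial ℂ)} {S : Finset ℂ} (h : Std F S) :
    ∃ K : ℕ, ∃ R : ℝ, 3 < R ∧ ∀ z, R < ‖z‖ → z ∉ S ∧
      ∀ (U : Set ℂ) (s : Fin F.natDegree → ℂ → ℂ), HSec F F.natDegree U s → z ∈ U → ∀ i j, i ≠ j →
        (‖z‖ ^ K)⁻¹ ≤ ‖s i z - s j z‖ ∧ ‖s i z - s j z‖ ≤ ‖z‖ ^ K := by
  have hlc : F.leadingCoeff ≠ 0 := Polynomial.leadingCoeff_ne_zero.mpr (GrC_S h)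
  obtain ⟨k1, k1', R1, hk1, hk1', hR1, hb1⟩ := poly_bounds_infty hlc
  obtain ⟨k2, k2', R2, hk2, hk2', hR2, hb2⟩ := poly_bounds_infty h.dne
  set n := F.natDegree with hn
  set N0 : ℕ := (P2 n).card with hN0
  set m : ℕ := F.leadingCoeff.natDegree with hm
  set D : ℕ := ∑ k ∈ Finset.range n, (F.coeff k).natDegree with hD
  set A : ℝ := ∑ k ∈ Finset.range n, ∑ i ∈ Finset.range ((F.coeff k).natDegree + 1), ‖(F.coeff k).coeff i‖ with hA
  have hA0 : 0 ≤ A := Finset.sum_nonneg fun k _ => Finset.sum_nonneg fun i _ => norm_nonneg _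
  set M : ℝ := 2 * (1 + A / k1) with hM
  have hM0 : 0 < M := by positivity
  set W : ℝ := k1' ^ (2 * n - 2) / k2 with hW
  have hW0 : 0 < W := by positivity
  refine ⟨(D + 1) * N0 + m * (2 * n - 2) + 1 + (D + 1), R1 + R2 + M + W + 3, by linarith, ?_⟩
  intro z hz
  have e1 : R1 < ‖z‖ := by linarith
  have e2 : R2 < ‖z‖ := by linarith
  have e3 : M ≤ ‖z‖ := by linarith
  have e4 : W ≤ ‖z‖ := by linarith
  have e5 : 1 ≤ ‖z‖ := by linarith
  have e0 : 0 < ‖z‖ := by linarith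
  set x : ℝ := ‖z‖ with hx
  have g1 := hb1 z e1
  have g2 := hb2 z e2
  rw [← hx] at g1 g2
  have hl1 : k1 ≤ ‖F.leadingCoeff.eval z‖ := by
    refine le_trans ?_ g1.1
    have : 1 ≤ x ^ m := one_le_pow₀ e5
    calc k1 = k1 * 1 := (mul_one _).symm
      _ ≤ k1 * x ^ m := mul_le_mul_of_nonneg_left this hk1.le
  have hd1 : k2 ≤ ‖F.discr.eval z‖ := by
    refine le_trans ?_ g2.1
    have : 1 ≤ x ^ F.discr.natDegree := one_le_pow₀ e5
    calc k2 = k2 * 1 := (mul_one _).symm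
      _ ≤ k2 * x ^ F.discr.natDegree := mul_le_mul_of_nonneg_left this hk2.le
  have hlz : 0 < ‖F.leadingCoeff.eval z‖ := lt_of_lt_of_le hk1 hl1
  have hdz : 0 < ‖F.discr.eval z‖ := lt_of_lt_of_le hk2 hd1
  have hlz' : F.leadingCoeff.eval z ≠ 0 := norm_pos_iff.mp hlz
  have hdz' : F.discr.eval z ≠ 0 := norm_pos_iff.mp hdz
  have hzS : z ∉ S := by
    rw [h.mem, Polynomial.eval_mul]
    exact mul_ne_zero hlz' hdz'
  refine ⟨hzS, ?_⟩
  intro U s hs hzU i j hij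
  have hcoef : ∑ k ∈ Finset.range n, ‖(F.coeff k).eval z‖ ≤ A * x ^ D := by
    rw [hA, Finset.sum_mul]
    refine Finset.sum_le_sum fun k hk => ?_
    exact GrC_upper (F.coeff k) e5 (Finset.single_le_sum (f := fun k => (F.coeff k).natDegree)
      (fun _ _ => Nat.zero_le _) hk)
  have hxD : 1 ≤ x ^ D := one_le_pow₀ e5
  have hroot : ∀ i, ‖s i z‖ ≤ (1 + A / k1) * x ^ D := by
    intro i
    have h4 : F.evalEval z (s i z) = 0 := (hs.mem_iff z hzU _).mpr ⟨i, rfl⟩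
    refine (norm_root_le F h4 hlz').trans ?_
    have h5 : (∑ k ∈ Finset.range F.natDegree, ‖(F.coeff k).eval z‖) / ‖F.leadingCoeff.eval z‖ ≤
        A * x ^ D / k1 := by
      rw [← hn]
      exact div_le_div₀ (by positivity) hcoef hk1 hl1
    have h6 : A * x ^ D / k1 = A / k1 * x ^ D := by ring
    rw [h6] at h5
    have h7 : (1 + A / k1) * x ^ D = x ^ D + A / k1 * x ^ D := by ring
    rw [h7]
    linarith
  set B : ℝ := x ^ (D + 1) with hB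
  have hB1 : 1 ≤ B := one_le_pow₀ e5
  have hdiff : ∀ i j, ‖s i z - s j z‖ ≤ B := by
    intro i j
    have h4 : ‖s i z - s j z‖ ≤ M * x ^ D := by
      have := norm_sub_le (s i z) (s j z)
      have h8 := hroot i
      have h9 := hroot j
      rw [hM]
      linarith
    refine h4.trans ?_
    rw [hB, pow_succ, mul_comm]
    exact mul_le_mul_of_nonneg_left e3 (by positivity)
  have hPs := norm_Ps_mul F h.npos hs hzU hlz'
  have hprod : ‖Ps s z‖ ≤ ‖s i z - s j z‖ * B ^ N0 := by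
    have hmem : (i, j) ∈ P2 n := mem_P2.mpr hij
    have e : ‖Ps s z‖ = ∏ t ∈ P2 n, ‖s t.1 z - s t.2 z‖ := by
      rw [Ps, norm_prod]
    rw [e, ← Finset.mul_prod_erase (P2 n) (fun t => ‖s t.1 z - s t.2 z‖) hmem]
    refine mul_le_mul_of_nonneg_left ?_ (norm_nonneg _)
    calc ∏ t ∈ (P2 n).erase (i, j), ‖s t.1 z - s t.2 z‖ ≤ ∏ _t ∈ (P2 n).erase (i, j), B :=
          Finset.prod_le_prod (fun t _ => norm_nonneg _) fun t _ => hdiff t.1 t.2
      _ = B ^ ((P2 n).erase (i, j)).card := Finset.prod_const _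
      _ ≤ B ^ N0 := pow_le_pow_right₀ hB1 (Finset.card_le_card (Finset.erase_subset _ _))
  have hx0 : 0 ≤ ‖s i z - s j z‖ := norm_nonneg _
  have hlow : k2 ≤ ‖s i z - s j z‖ * B ^ N0 * (k1' * x ^ m) ^ (2 * n - 2) := by
    calc k2 ≤ ‖F.discr.eval z‖ := hd1
      _ = ‖Ps s z‖ * ‖F.leadingCoeff.eval z‖ ^ (2 * n - 2) := hPs.symm
      _ ≤ (‖s i z - s j z‖ * B ^ N0) * (k1' * x ^ m) ^ (2 * n - 2) := by
          refine mul_le_mul hprod ?_ (by positivity) (by positivity)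
          exact pow_le_pow_left₀ (norm_nonneg _) g1.2 _
  have hmain : 1 ≤ ‖s i z - s j z‖ * x ^ ((D + 1) * N0 + m * (2 * n - 2) + 1) := by
    have h8 : ‖s i z - s j z‖ * B ^ N0 * (k1' * x ^ m) ^ (2 * n - 2) =
        k2 * (W * (‖s i z - s j z‖ * x ^ ((D + 1) * N0 + m * (2 * n - 2)))) := by
      rw [hB, hW, mul_pow, ← pow_mul, ← pow_mul, pow_add]
      field_simp
    rw [h8] at hlow
    have h9 : 1 ≤ W * (‖s i z - s j z‖ * x ^ ((D + 1) * N0 + m * (2 * n - 2))) := by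
      have h10 : k2 * 1 ≤ k2 * (W * (‖s i z - s j z‖ * x ^ ((D + 1) * N0 + m * (2 * n - 2)))) := by
        rw [mul_one]
        exact hlow
      exact le_of_mul_le_mul_left h10 hk2
    refine h9.trans ?_
    rw [pow_succ]
    have h11 : 0 ≤ ‖s i z - s j z‖ * x ^ ((D + 1) * N0 + m * (2 * n - 2)) := by positivity
    calc W * (‖s i z - s j z‖ * x ^ ((D + 1) * N0 + m * (2 * n - 2)))
        ≤ x * (‖s i z - s j z‖ * x ^ ((D + 1) * N0 + m * (2 * n - 2))) :=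
          mul_le_mul_of_nonneg_right e4 h11
      _ = _ := by ring
  constructor
  · have hp : 0 < x ^ ((D + 1) * N0 + m * (2 * n - 2) + 1 + (D + 1)) := pow_pos e0 _
    rw [← one_div, div_le_iff₀ hp]
    refine hmain.trans (mul_le_mul_of_nonneg_left ?_ hx0)
    exact pow_le_pow_right₀ e5 (by omega)
  · refine (hdiff i j).trans ?_
    rw [hB]
    exact pow_le_pow_right₀ e5 (by omega)

/-- (GrC3) the exact growth of the product of the differences.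
Proof. GrA and GrC1: `‖Ps s z‖ = ‖discr(z)‖ / ‖lc(z)‖^{2n-2} ≥ κ ‖z‖^{D + 2(n-1) deg lc} / (κ' ‖z‖^{deg lc})^{2n-2}`, and `2n-2 = 2(n-1)`. -/
theorem Ps_lower_infty {F : Polynomial (Polynomial ℂ)} {S : Finset ℂ} (h : Std F S) (D : ℕ)
    (hD : F.discr.natDegree = D + 2 * (F.natDegree - 1) * F.leadingCoeff.natDegree) :
    ∃ κ R : ℝ, 0 < κ ∧ 1 < R ∧ ∀ z, R < ‖z‖ →
      ∀ (U : Set ℂ) (s : Fin F.natDegree → ℂ → ℂ), HSec F F.natDegree U s → z ∈ U →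
        κ * ‖z‖ ^ D ≤ ‖Ps s z‖ := by
  have hlc : F.leadingCoeff ≠ 0 := Polynomial.leadingCoeff_ne_zero.mpr (GrC_S h)
  obtain ⟨k1, k1', R1, hk1, hk1', hR1, hb1⟩ := poly_bounds_infty hlc
  obtain ⟨k2, k2', R2, hk2, hk2', hR2, hb2⟩ := poly_bounds_infty h.dne
  refine ⟨k2 / k1' ^ (2 * F.natDegree - 2), R1 + R2, by positivity, by linarith, ?_⟩
  intro z hz U s hs hzU
  have e1 : R1 < ‖z‖ := by linarith
  have e2 : R2 < ‖z‖ := by linarith
  have e0 : 0 < ‖z‖ := by linarith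
  have g1 := hb1 z e1
  have g2 := hb2 z e2
  have hlz : 0 < ‖F.leadingCoeff.eval z‖ := lt_of_lt_of_le (by positivity) g1.1
  have hlz' : F.leadingCoeff.eval z ≠ 0 := norm_pos_iff.mp hlz
  have hPs := norm_Ps_mul F h.npos hs hzU hlz'
  have hexp : ∀ n m : ℕ, 2 * (n - 1) * m = m * (2 * n - 2) := by
    intro n m
    have h1 : 2 * n - 2 = 2 * (n - 1) := by omega
    rw [h1]
    ring
  rw [hD, hexp, pow_add] at g2
  generalize hm : F.leadingCoeff.natDegree = m at *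
  generalize hn : 2 * F.natDegree - 2 = e at *
  have hP0 : 0 ≤ ‖Ps s z‖ := norm_nonneg _
  have h1 : k2 * (‖z‖ ^ D * ‖z‖ ^ (m * e)) ≤
      ‖Ps s z‖ * (k1' ^ e * ‖z‖ ^ (m * e)) := by
    calc k2 * (‖z‖ ^ D * ‖z‖ ^ (m * e)) ≤ ‖F.discr.eval z‖ := g2.1
      _ = ‖Ps s z‖ * ‖F.leadingCoeff.eval z‖ ^ e := hPs.symm
      _ ≤ ‖Ps s z‖ * (k1' * ‖z‖ ^ m) ^ e :=
          mul_le_mul_of_nonneg_left (pow_le_pow_left₀ (norm_nonneg _) g1.2 _) hP0
      _ = _ := by rw [mul_pow, ← pow_mul]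
  have h2 : 0 < ‖z‖ ^ (m * e) := pow_pos e0 _
  have h3 : k2 * ‖z‖ ^ D ≤ ‖Ps s z‖ * k1' ^ e := by
    have h4 : k2 * ‖z‖ ^ D * ‖z‖ ^ (m * e) ≤
        ‖Ps s z‖ * k1' ^ e * ‖z‖ ^ (m * e) := by
      calc k2 * ‖z‖ ^ D * ‖z‖ ^ (m * e) = k2 * (‖z‖ ^ D * ‖z‖ ^ (m * e)) := by ring
        _ ≤ _ := h1
        _ = _ := by ring
    exact le_of_mul_le_mul_right h4 h2
  have h5 : 0 < k1' ^ e := pow_pos hk1' _
  rw [div_mul_eq_mul_div, div_le_iff₀ h5]
  exact h3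

end Pool.Agent.LZ
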