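import Pool.Agent.Lib.MP_79da24_ag.TD
import Pool.Agent.Lib.MP_79da24_ag.Std
import Pool.Agent.Lib.MP_79da24_ag.HsC
import Pool.Agent.Lib.MP_79da24_ag.GlA
import Pool.Agent.Lib.MP_79da24_ag.LdA
import Pool.Agent.Lib.MP_79da24_ag.GrC

set_option autoImplicit false

namespace Pool.Agent.LZ

open Polynomial Filter Topology Metric

/-- (BlB) the first divided differences near infinity.
Proof. As BlA: `K`, `R₀` from `growth_infty h`; `‖z‖ > R := 2 R₀`, `r = ‖z‖ / 2`; the points `w` of `ball z r` have `‖z‖/2 < ‖w‖ < 3‖z‖/2`, `‖w‖ > R₀`, so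
`w ∉ S`; sections `t` on `ball z r`; `‖w‖ < 2‖z‖` gives `(‖w‖^K)⁻¹ ≥ ((2‖z‖)^K)⁻¹`. LdB with `ρ = 1 / (2‖z‖) < 1`:
`ρ^K ≤ ‖u w‖ ≤ (ρ^K)⁻¹`, so `‖Lq s i j z‖ ≤ 4 (2K log(2‖z‖) + 1) / (‖z‖/2) ≤ C log ‖z‖ / ‖z‖`. -/
theorem Lq_infty {F : Polynomial (Polynomial ℂ)} {S : Finset ℂ} (h : Std F S) :
    ∃ C R : ℝ, 0 < C ∧ 3 < R ∧ ∀ z, R < ‖z‖ → z ∉ S ∧
      ∀ (U : Set ℂ) (s : Fin F.natDegree → ℂ → ℂ), HSec F F.natDegree U s → z ∈ U → ∀ i j, i ≠ j →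
        ‖Lq s i j z‖ ≤ C * Real.log ‖z‖ / ‖z‖ := by
  obtain ⟨K, R₀, hR₀, hg⟩ := growth_infty h
  refine ⟨8 * (4 * K + 1), 2 * R₀, by positivity, by linarith, ?_⟩
  intro z hz
  have hz0 : 0 < ‖z‖ := by linarith
  have hz1 : R₀ < ‖z‖ := by linarith
  refine ⟨(hg z hz1).1, ?_⟩
  intro U s hs hzU i j hij
  have hr : 0 < ‖z‖ / 2 := by linarith
  have hw : ∀ w ∈ ball z (‖z‖ / 2), R₀ < ‖w‖ ∧ ‖w‖ ≤ 2 * ‖z‖ := by
    intro w hw
    rw [mem_ball, dist_eq_norm] at hw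
    have h1 : ‖z‖ ≤ ‖w‖ + ‖w - z‖ := by
      have h2 := norm_sub_le w (w - z)
      have h3 : w - (w - z) = z := by ring
      rw [h3] at h2
      exact h2
    have h4 : ‖w‖ ≤ ‖z‖ + ‖w - z‖ := by
      have h2 := norm_add_le z (w - z)
      have h3 : z + (w - z) = w := by ring
      rw [h3] at h2
      exact h2
    constructor
    · linarith
    · linarith
  have hb : ball z (‖z‖ / 2) ⊆ ((S : Set ℂ)ᶜ) := by
    intro w hwb
    exact fun hS => (hg w (hw w hwb).1).1 (by exact_mod_cast hS)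
  obtain ⟨t, ht⟩ := h.exists_hsec z hr hb
  have hzb : z ∈ ball z (‖z‖ / 2) := mem_ball_self hr
  obtain ⟨σ, hσ⟩ := hsec_match ht hs hzb hzU
  have hL : Lq s i j z = Lq t (σ i) (σ j) z := (Lq_congr (hσ i) (hσ j)).eq_of_nhds
  have hσij : σ i ≠ σ j := fun h0 => hij (σ.injective h0)
  have hnhds : ball z (‖z‖ / 2) ∈ 𝓝 z := isOpen_ball.mem_nhds hzb
  have hdi : DifferentiableAt ℂ (t (σ i)) z := (ht.diff (σ i)).differentiableAt hnhds
  have hdj : DifferentiableAt ℂ (t (σ j)) z := (ht.diff (σ j)).differentiableAt hnhds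
  have hu : DifferentiableOn ℂ (fun w => t (σ i) w - t (σ j) w) (ball z (‖z‖ / 2)) :=
    (ht.diff (σ i)).sub (ht.diff (σ j))
  have hρ : 0 < 1 / (2 * ‖z‖) := by positivity
  have hρ1 : 1 / (2 * ‖z‖) < 1 := by
    rw [div_lt_one (by positivity)]
    linarith
  have hbd : ∀ w ∈ ball z (‖z‖ / 2), (1 / (2 * ‖z‖)) ^ K ≤ ‖t (σ i) w - t (σ j) w‖ ∧
      ‖t (σ i) w - t (σ j) w‖ ≤ ((1 / (2 * ‖z‖)) ^ K)⁻¹ := by
    intro w hwb
    obtain ⟨h1, h2⟩ := hw w hwb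
    obtain ⟨h3, h4⟩ := (hg w h1).2 _ t ht hwb (σ i) (σ j) hσij
    have hw0 : 0 < ‖w‖ := by linarith
    have h5 : ‖w‖ ^ K ≤ (2 * ‖z‖) ^ K := pow_le_pow_left₀ hw0.le h2 K
    have h6 : (1 / (2 * ‖z‖)) ^ K = ((2 * ‖z‖) ^ K)⁻¹ := by
      rw [one_div, inv_pow]
    rw [h6, inv_inv]
    refine ⟨le_trans ?_ h3, h4.trans h5⟩
    exact inv_anti₀ (by positivity) h5
  have hld := norm_logDeriv_le' K hr hρ hρ1 hu hbd
  have hderiv : deriv (fun w => t (σ i) w - t (σ j) w) z = deriv (t (σ i)) z - deriv (t (σ j)) z := by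
    have h1 := deriv_sub hdi hdj
    have h2 : (fun w => t (σ i) w - t (σ j) w) = t (σ i) - t (σ j) := rfl
    rw [h2]
    exact h1
  have hLq : Lq t (σ i) (σ j) z = deriv (fun w => t (σ i) w - t (σ j) w) z / (t (σ i) z - t (σ j) z) := by
    rw [hderiv]
    rfl
  rw [hL, hLq]
  refine hld.trans ?_
  have hlog : -Real.log (1 / (2 * ‖z‖)) = Real.log 2 + Real.log ‖z‖ := by
    rw [one_div, Real.log_inv, neg_neg, Real.log_mul (by norm_num) hz0.ne']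
  have hl2 : Real.log 2 ≤ Real.log ‖z‖ := Real.log_le_log (by norm_num) (by linarith)
  have hl1 : 1 ≤ Real.log ‖z‖ := by
    rw [Real.le_log_iff_exp_le hz0]
    have h3 := Real.exp_one_lt_d9
    linarith
  rw [hlog]
  have hK : (0 : ℝ) ≤ K := Nat.cast_nonneg K
  have hA : 4 * (2 * (K : ℝ) * (Real.log 2 + Real.log ‖z‖) + 1) ≤ 4 * (4 * K + 1) * Real.log ‖z‖ := by
    have h7 : (K : ℝ) * (Real.log 2 + Real.log ‖z‖) ≤ K * (2 * Real.log ‖z‖) :=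
      mul_le_mul_of_nonneg_left (by linarith) hK
    nlinarith
  rw [div_le_div_iff₀ hr hz0]
  nlinarith [mul_le_mul_of_nonneg_right hA hz0.le]

end Pool.Agent.LZ
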