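import Pool.Agent.Lib.MP_79da24_ag.ClD

set_option autoImplicit false

namespace Pool.Agent.LZ

open Polynomial Filter Topology Metric

private theorem ClA_sum (F : Polynomial (Polynomial ℂ)) (x y : ℂ) :
    F.evalEval x y = ∑ i ∈ Finset.range (F.natDegree + 1), (F.coeff i).eval x * y ^ i := by
  rw [Polynomial.evalEval, Polynomial.eval_eq_sum_range (p := F) (C y), Polynomial.eval_finsetSum]
  refine Finset.sum_congr rfl (fun i _ => ?_)
  rw [Polynomial.eval_mul, Polynomial.eval_pow, Polynomial.eval_C]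

/-- polynomials are Lipschitz near a point -/
private theorem ClA_lip1 (p : Polynomial ℂ) (c : ℂ) :
    ∃ A : ℝ, 0 ≤ A ∧ ∀ z, ‖z - c‖ < 1 → ‖p.eval c - p.eval z‖ ≤ A * ‖z - c‖ := by
  have hd : X - C c ∣ p - C (p.eval c) := by
    rw [Polynomial.dvd_iff_isRoot]
    simp
  obtain ⟨q, hq⟩ := hd
  obtain ⟨A, hA⟩ := (isCompact_closedBall c 1).exists_bound_of_continuousOn (f := fun z => q.eval z)
    q.continuous.continuousOn
  refine ⟨max A 0, le_max_right _ _, fun z hz => ?_⟩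
  have h1 : p.eval z - p.eval c = (z - c) * q.eval z := by
    have h2 := congrArg (fun r : Polynomial ℂ => r.eval z) hq
    simpa using h2
  rw [← norm_neg, neg_sub, h1, norm_mul, mul_comm]
  have h3 : ‖q.eval z‖ ≤ A := hA z (by
    rw [mem_closedBall, dist_eq_norm]
    exact hz.le)
  exact mul_le_mul_of_nonneg_right (h3.trans (le_max_left _ _)) (norm_nonneg _)

/-- the values of `F` are Lipschitz in the first variable -/
private theorem ClA_lip (F : Polynomial (Polynomial ℂ)) (c : ℂ) (R : ℝ) (hR : 0 ≤ R) :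
    ∃ A : ℝ, 0 < A ∧ ∀ z y, ‖z - c‖ < 1 → ‖y‖ ≤ R → ‖F.evalEval c y - F.evalEval z y‖ ≤ A * ‖z - c‖ := by
  choose A hA0 hA using fun i : ℕ => ClA_lip1 (F.coeff i) c
  refine ⟨1 + ∑ i ∈ Finset.range (F.natDegree + 1), A i * R ^ i, ?_, fun z y hz hy => ?_⟩
  · have : 0 ≤ ∑ i ∈ Finset.range (F.natDegree + 1), A i * R ^ i :=
      Finset.sum_nonneg fun i _ => mul_nonneg (hA0 i) (pow_nonneg hR i)
    linarith
  · rw [ClA_sum, ClA_sum, ← Finset.sum_sub_distrib]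
    refine (norm_sum_le _ _).trans ?_
    have h1 : ∀ i ∈ Finset.range (F.natDegree + 1),
        ‖(F.coeff i).eval c * y ^ i - (F.coeff i).eval z * y ^ i‖ ≤ (A i * R ^ i) * ‖z - c‖ := by
      intro i _
      rw [← sub_mul, norm_mul, norm_pow]
      have h2 := hA i z hz
      have h3 : ‖y‖ ^ i ≤ R ^ i := pow_le_pow_left₀ (norm_nonneg _) hy i
      calc ‖(F.coeff i).eval c - (F.coeff i).eval z‖ * ‖y‖ ^ i ≤ (A i * ‖z - c‖) * R ^ i :=
            mul_le_mul h2 h3 (pow_nonneg (norm_nonneg _) _) (mul_nonneg (hA0 i) (norm_nonneg _))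
        _ = (A i * R ^ i) * ‖z - c‖ := by ring
    refine (Finset.sum_le_sum h1).trans ?_
    rw [← Finset.sum_mul]
    have := norm_nonneg (z - c)
    nlinarith

/-- separation of the roots -/
private theorem ClA_sep (E : Finset ℂ) :
    ∃ ε : ℝ, 0 < ε ∧ ε ≤ 1 / 4 ∧ ∀ P ∈ E, ∀ P' ∈ E, P ≠ P' → 4 * ε ≤ ‖P - P'‖ := by
  have h1 : ∀ᶠ ε in 𝓝[>] (0 : ℝ), ∀ P ∈ E, ∀ P' ∈ E, P ≠ P' → 4 * ε ≤ ‖P - P'‖ := by
    rw [Filter.eventually_all_finset]
    intro P _
    rw [Filter.eventually_all_finset]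
    intro P' _
    by_cases hPP : P = P'
    · exact Filter.Eventually.of_forall fun ε h => absurd hPP h
    · have hpos : 0 < ‖P - P'‖ := norm_pos_iff.2 (sub_ne_zero.2 hPP)
      have h2 : ∀ᶠ ε in 𝓝 (0 : ℝ), ε < ‖P - P'‖ / 4 := Iio_mem_nhds (by linarith)
      filter_upwards [nhdsWithin_le_nhds h2] with ε hε _
      linarith
  have h2 : ∀ᶠ ε in 𝓝[>] (0 : ℝ), ε ≤ 1 / 4 := nhdsWithin_le_nhds (Iic_mem_nhds (by norm_num))
  have h3 : ∀ᶠ ε in 𝓝[>] (0 : ℝ), 0 < ε := self_mem_nhdsWithin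
  obtain ⟨ε, h⟩ := (h1.and (h2.and h3)).exists
  exact ⟨ε, h.2.2, h.2.1, h.1⟩

/-- (ClA) Proof. `g = spec c F ≠ 0`, `E = g.roots.toFinset`, `e_P = rootMultiplicity P g ≥ 1`. `ε ∈ (0, 1/4]` with `4ε ≤ ‖P - P'‖` for `P ≠ P'` in `E`
(finite set), `R ≥ 1` with `‖P‖ + 1 ≤ R`. `g = C a * ∏_{P ∈ E} (X - C P)^{e_P}` with `a ≠ 0`
(`Polynomial.C_leadingCoeff_mul_prod_multiset_X_sub_C`, `IsAlgClosed`; `Finset.prod_multiset_map_count`). Let `‖y‖ ≤ R + 1`, `F.evalEval z y = 0`,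
`‖z - c‖ < 1`. Then `‖g.eval y‖ = ‖F.evalEval c y - F.evalEval z y‖ ≤ A ‖z - c‖`, `A` depending only on `F, c, R`
(`F.evalEval z y = ∑ k (F.coeff k).eval z * y^k`; each polynomial `F.coeff k` is Lipschitz on the bounded set `ball c 1`; or: `F.evalEval` is a polynomial
function of two variables, `C^1`, so Lipschitz on the compact convex set `closedBall c 1 ×ˢ closedBall 0 (R+1)`; write `A` for a bound of the Lipschitz constant).
Let `P ∈ E` be a nearest root to `y` (if `E = ∅` then `g` is a nonzero constant and `‖g.eval y‖ = ‖a‖ ≤ A‖z-c‖` is impossible for small `‖z - c‖`). For `P' ≠ P`: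
`‖y - P'‖ ≥ ‖P - P'‖/2 ≥ 2ε`. So `‖a‖ ‖y - P‖^{e_P} (2ε)^{n} ≤ ‖g.eval y‖ ≤ A ‖z - c‖` if `2ε ≤ 1` (the number of the other factors, with multiplicity, is
`≤ n = F.natDegree`), i.e. `‖y - P‖^{e_P} ≤ B ‖z - c‖`, `‖y - P‖ ≤ B^{1/e_P} ‖z-c‖^{1/e_P} ≤ C ‖z - c‖^{1/e_P}`, `C = max 1 B` (`Real.rpow`,
`Real.pow_rpow_inv_natCast`, `Real.mul_rpow`). For `‖z - c‖ < η` small: `C ‖z-c‖^{1/e_P} ≤ C ‖z - c‖^{1/n} < ε` (`e_P ≤ n`, `‖z-c‖ < 1`). -/
theorem exists_clus0 {F : Polynomial (Polynomial ℂ)} {S : Finset ℂ} (h : Std F S) (c : ℂ) :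
    ∃ ε R C η : ℝ, Clus0 F c ε R C η := by
  classical
  set g := spec c F with hg
  set n := F.natDegree with hn
  have hg0 : g ≠ 0 := h.ne c
  have ha0 : g.leadingCoeff ≠ 0 := Polynomial.leadingCoeff_ne_zero.2 hg0
  have hn0 : 0 < n := h.npos
  obtain ⟨ε, hε0, hε4, hsep⟩ := ClA_sep g.roots.toFinset
  set R : ℝ := 1 + ∑ P ∈ g.roots.toFinset, ‖P‖ with hRdef
  have hsum0 : 0 ≤ ∑ P ∈ g.roots.toFinset, ‖P‖ := Finset.sum_nonneg fun P _ => norm_nonneg P
  have hR1 : 1 ≤ R := by linarith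
  have hbd : ∀ P ∈ g.roots.toFinset, ‖P‖ + 1 ≤ R := by
    intro P hP
    have h1 := Finset.single_le_sum (f := fun P : ℂ => ‖P‖) (fun P _ => norm_nonneg P) hP
    linarith
  obtain ⟨A, hA0, hA⟩ := ClA_lip F c (R + 1) (by linarith)
  have ha : 0 < ‖g.leadingCoeff‖ := norm_pos_iff.2 ha0
  set D : ℝ := ‖g.leadingCoeff‖ * (2 * ε) ^ n with hD
  have hD0 : 0 < D := by positivity
  set B : ℝ := A / D with hB
  have hB0 : 0 < B := div_pos hA0 hD0
  set C₁ : ℝ := max 1 B with hC₁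
  have hC1 : 1 ≤ C₁ := le_max_left _ _
  have hCB : B ≤ C₁ := le_max_right _ _
  set η : ℝ := min (1 / 4) (min ((ε / (2 * C₁)) ^ n) (‖g.leadingCoeff‖ / (2 * A))) with hη
  have hη0 : 0 < η := by
    rw [hη]
    refine lt_min (by norm_num) (lt_min ?_ ?_)
    · positivity
    · positivity
  refine ⟨ε, R, C₁, η, hε0, by linarith, by linarith, by linarith, hη0, ?_, hsep, hbd, ?_⟩
  · exact lt_of_le_of_lt (min_le_left _ _) (by norm_num)
  intro z y hz hy
  by_cases hfar : R + 1 < ‖y‖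
  · exact Or.inl hfar
  right
  push Not at hfar
  have hz4 : ‖z - c‖ < 1 / 4 := lt_of_lt_of_le hz (min_le_left _ _)
  have hz2 : ‖z - c‖ < (ε / (2 * C₁)) ^ n := lt_of_lt_of_le hz ((min_le_right _ _).trans (min_le_left _ _))
  have hz3 : ‖z - c‖ < ‖g.leadingCoeff‖ / (2 * A) := lt_of_lt_of_le hz ((min_le_right _ _).trans (min_le_right _ _))
  have hρ0 : 0 ≤ ‖z - c‖ := norm_nonneg _
  have h1 : ‖g.eval y‖ ≤ A * ‖z - c‖ := by
    have h2 := hA z y (by linarith) hfar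
    rw [hy, sub_zero, ← eval_spec] at h2
    exact h2
  have hval : g.eval y = g.leadingCoeff * ∏ P ∈ g.roots.toFinset, (y - P) ^ g.rootMultiplicity P := by
    rw [(IsAlgClosed.splits g).eval_eq_prod_roots y, Finset.prod_multiset_map_count]
    congr 1
    refine Finset.prod_congr rfl fun P _ => ?_
    rw [Polynomial.count_roots]
  have hnorm : ‖g.eval y‖ = ‖g.leadingCoeff‖ * ∏ P ∈ g.roots.toFinset, ‖y - P‖ ^ g.rootMultiplicity P := by
    rw [hval, norm_mul, norm_prod]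
    congr 1
    refine Finset.prod_congr rfl fun P _ => ?_
    rw [norm_pow]
  have hcard : ∑ P ∈ g.roots.toFinset, g.rootMultiplicity P ≤ n := by
    have e : ∑ P ∈ g.roots.toFinset, g.rootMultiplicity P = Multiset.card g.roots := by
      rw [← Multiset.toFinset_sum_count_eq]
      exact Finset.sum_congr rfl fun P _ => (Polynomial.count_roots _).symm
    rw [e]
    refine (Polynomial.card_roots' g).trans ?_
    rw [hg]
    exact Polynomial.natDegree_map_le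
  have hne : g.roots.toFinset.Nonempty := by
    by_contra hemp
    rw [Finset.not_nonempty_iff_eq_empty] at hemp
    rw [hnorm, hemp, Finset.prod_empty, mul_one] at h1
    have h2 : A * ‖z - c‖ < A * (‖g.leadingCoeff‖ / (2 * A)) := mul_lt_mul_of_pos_left hz3 hA0
    have h3 : A * (‖g.leadingCoeff‖ / (2 * A)) = ‖g.leadingCoeff‖ / 2 := by
      field_simp
    linarith
  obtain ⟨P, hP, hmin⟩ := Finset.exists_min_image g.roots.toFinset (fun P => ‖y - P‖) hne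
  refine ⟨P, hP, ?_⟩
  have hfar' : ∀ P' ∈ g.roots.toFinset.erase P, 2 * ε ≤ ‖y - P'‖ := by
    intro P' hP'
    obtain ⟨hne', hP''⟩ := Finset.mem_erase.1 hP'
    have h2 := hsep P hP P' hP'' (Ne.symm hne')
    have h3 := hmin P' hP''
    have h4 : ‖P - P'‖ ≤ ‖y - P'‖ + ‖y - P‖ := by
      have e : P - P' = (y - P') - (y - P) := by ring
      rw [e]
      exact norm_sub_le _ _
    linarith
  have he0 : g.rootMultiplicity P ≠ 0 := by
    have h6 : P ∈ g.roots := Multiset.mem_toFinset.1 hP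
    rw [← Polynomial.count_roots]
    exact (Multiset.count_pos.2 h6).ne'
  have hen : g.rootMultiplicity P ≤ n :=
    (Finset.single_le_sum (f := fun P => g.rootMultiplicity P) (fun _ _ => Nat.zero_le _) hP).trans hcard
  have hprod : (2 * ε) ^ n ≤ ∏ P' ∈ g.roots.toFinset.erase P, ‖y - P'‖ ^ g.rootMultiplicity P' := by
    have h2 : ∏ P' ∈ g.roots.toFinset.erase P, (2 * ε) ^ g.rootMultiplicity P' ≤
        ∏ P' ∈ g.roots.toFinset.erase P, ‖y - P'‖ ^ g.rootMultiplicity P' := by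
      refine Finset.prod_le_prod (fun _ _ => by positivity) fun P' hP' => ?_
      exact pow_le_pow_left₀ (by positivity) (hfar' P' hP') _
    refine le_trans ?_ h2
    rw [Finset.prod_pow_eq_pow_sum]
    refine pow_le_pow_of_le_one (by positivity) (by linarith) ?_
    exact (Finset.sum_le_sum_of_subset (Finset.erase_subset _ _)).trans hcard
  have hmain : D * ‖y - P‖ ^ g.rootMultiplicity P ≤ A * ‖z - c‖ := by
    refine le_trans ?_ h1
    rw [hnorm, ← Finset.mul_prod_erase _ _ hP, hD]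
    have h2 : 0 ≤ ‖g.leadingCoeff‖ * ‖y - P‖ ^ g.rootMultiplicity P := by positivity
    calc ‖g.leadingCoeff‖ * (2 * ε) ^ n * ‖y - P‖ ^ g.rootMultiplicity P
        = (‖g.leadingCoeff‖ * ‖y - P‖ ^ g.rootMultiplicity P) * (2 * ε) ^ n := by ring
      _ ≤ (‖g.leadingCoeff‖ * ‖y - P‖ ^ g.rootMultiplicity P) *
          ∏ P' ∈ g.roots.toFinset.erase P, ‖y - P'‖ ^ g.rootMultiplicity P' :=
          mul_le_mul_of_nonneg_left hprod h2
      _ = _ := by ring
  have hmain2 : ‖y - P‖ ^ g.rootMultiplicity P ≤ B * ‖z - c‖ := by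
    rw [hB, div_mul_eq_mul_div, le_div_iff₀ hD0]
    linarith [hmain]
  set e : ℕ := g.rootMultiplicity P with he
  have he1 : (0 : ℝ) < (e : ℝ) := by exact_mod_cast Nat.pos_of_ne_zero he0
  have he1' : (1 : ℝ) ≤ (e : ℝ) := by exact_mod_cast Nat.one_le_iff_ne_zero.2 he0
  have hyP : ‖y - P‖ ≤ C₁ * ‖z - c‖ ^ (1 / (e : ℝ)) := by
    have h2 : ‖y - P‖ = (‖y - P‖ ^ e) ^ (1 / (e : ℝ)) := by
      rw [one_div, Real.pow_rpow_inv_natCast (norm_nonneg _) he0]
    rw [h2]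
    have h3 : (‖y - P‖ ^ e) ^ (1 / (e : ℝ)) ≤ (B * ‖z - c‖) ^ (1 / (e : ℝ)) :=
      Real.rpow_le_rpow (by positivity) hmain2 (by positivity)
    refine h3.trans ?_
    rw [Real.mul_rpow hB0.le hρ0]
    refine mul_le_mul_of_nonneg_right ?_ (Real.rpow_nonneg hρ0 _)
    calc B ^ (1 / (e : ℝ)) ≤ C₁ ^ (1 / (e : ℝ)) := Real.rpow_le_rpow hB0.le hCB (by positivity)
      _ ≤ C₁ ^ (1 : ℝ) := by
        apply Real.rpow_le_rpow_of_exponent_le hC1
        rw [div_le_one he1]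
        exact he1'
      _ = C₁ := Real.rpow_one _
  refine ⟨?_, hyP⟩
  refine lt_of_le_of_lt hyP ?_
  have hn1 : (0 : ℝ) < (n : ℝ) := by exact_mod_cast hn0
  have h4 : ‖z - c‖ ^ (1 / (e : ℝ)) ≤ ‖z - c‖ ^ (1 / (n : ℝ)) := by
    apply Real.rpow_le_rpow_of_exponent_ge' hρ0 (by linarith) (by positivity)
    apply one_div_le_one_div_of_le he1
    exact_mod_cast hen
  have h5 : ‖z - c‖ ^ (1 / (n : ℝ)) ≤ ε / (2 * C₁) := by
    have h6 : ‖z - c‖ ^ (1 / (n : ℝ)) ≤ ((ε / (2 * C₁)) ^ n) ^ (1 / (n : ℝ)) :=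
      Real.rpow_le_rpow hρ0 hz2.le (by positivity)
    rw [one_div, Real.pow_rpow_inv_natCast (by positivity) hn0.ne'] at h6
    rw [one_div]
    exact h6
  have hC0 : 0 < C₁ := by linarith
  calc C₁ * ‖z - c‖ ^ (1 / (e : ℝ)) ≤ C₁ * (ε / (2 * C₁)) :=
        mul_le_mul_of_nonneg_left (h4.trans h5) hC0.le
    _ = ε / 2 := by field_simp
    _ < ε := by linarith

end Pool.Agent.LZ
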