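import Pool.Agent.Lib.MP_79da24_ag.ClD
import Pool.Agent.Lib.MP_79da24_ag.GrB

set_option autoImplicit false

namespace Pool.Agent.LZ

open Polynomial Filter Topology Metric

private theorem ClB_ms (N : ℂ → Prop) [DecidablePred N] {f g : ℂ → ℝ} (hf : ∀ t, 0 ≤ f t) (hg : ∀ t, 0 ≤ g t) {u : ℝ} (hu : 0 ≤ u)
    (M : Multiset ℂ) (h : ∀ t ∈ M, (N t → f t ≤ u * 2 * g t) ∧ (¬ N t → f t ≤ 2 * g t)) :
    (M.map f).prod ≤ u ^ (Multiset.card (M.filter N)) * 2 ^ (Multiset.card M) * (M.map g).prod := by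
  induction M using Multiset.induction_on with
  | empty => simp
  | cons t M ih =>
    have ih' := ih fun t ht => h t (Multiset.mem_cons_of_mem ht)
    have ht := h t (Multiset.mem_cons_self t M)
    have h0 : 0 ≤ (M.map f).prod := Multiset.prod_nonneg fun a ha => by
      obtain ⟨b, -, rfl⟩ := Multiset.mem_map.mp ha
      exact hf b
    have h1 : 0 ≤ (M.map g).prod := Multiset.prod_nonneg fun a ha => by
      obtain ⟨b, -, rfl⟩ := Multiset.mem_map.mp ha
      exact hg b
    rw [Multiset.map_cons, Multiset.prod_cons, Multiset.map_cons, Multiset.prod_cons, Multiset.card_cons]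
    by_cases hN : N t
    · rw [Multiset.filter_cons_of_pos _ hN, Multiset.card_cons]
      calc f t * (M.map f).prod ≤ (u * 2 * g t) * (u ^ (Multiset.card (M.filter N)) * 2 ^ (Multiset.card M) * (M.map g).prod) :=
            mul_le_mul (ht.1 hN) ih' h0 (mul_nonneg (by positivity) (hg t))
        _ = _ := by ring
    · rw [Multiset.filter_cons_of_neg _ hN]
      calc f t * (M.map f).prod ≤ (2 * g t) * (u ^ (Multiset.card (M.filter N)) * 2 ^ (Multiset.card M) * (M.map g).prod) :=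
            mul_le_mul (ht.2 hN) ih' h0 (mul_nonneg (by norm_num) (hg t))
        _ = _ := by ring

open Classical in
private theorem ClB_eval {P : ℂ} {ε δ : ℝ} (hδ : 0 < δ) (hδε : δ ≤ ε / 2) {p : Polynomial ℂ} {n : ℕ} (hn : Multiset.card p.roots ≤ n)
    (H : ∀ t ∈ p.roots, ‖t - P‖ ≤ δ / 2 ∨ 2 * ε ≤ ‖t - P‖) :
    ‖p.eval (P + δ)‖ ≤ (3 * (δ / ε)) ^ (Multiset.card (p.roots.filter fun t => ‖t - P‖ < ε)) * 2 ^ n * ‖p.eval (P + ε)‖ ∧
    ‖p.eval (P + ε)‖ ≤ (4 / (δ / ε)) ^ (Multiset.card (p.roots.filter fun t => ‖t - P‖ < ε)) * 2 ^ n * ‖p.eval (P + δ)‖ := by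
  have hε : 0 < ε := by linarith
  have hx : 0 < δ / ε := div_pos hδ hε
  have hev : ∀ y : ℂ, ‖p.eval y‖ = ‖p.leadingCoeff‖ * (p.roots.map fun t => ‖y - t‖).prod := by
    intro y
    have h1 : p.eval y = p.leadingCoeff * (p.roots.map fun t => y - t).prod := by
      conv_lhs => rw [(IsAlgClosed.splits p).eq_prod_roots]
      rw [eval_mul, eval_C, eval_multiset_prod, Multiset.map_map]
      simp
    rw [h1, norm_mul]
    congr 1
    have h2 := map_multiset_prod (normHom : ℂ →*₀ ℝ) (p.roots.map fun t => y - t)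
    rw [Multiset.map_map] at h2
    exact h2
  have e1 : ∀ t : ℂ, ‖(P + δ) - t‖ ≤ δ + ‖t - P‖ := fun t => by
    have h1 : (P + δ) - t = (δ : ℂ) - (t - P) := by ring
    rw [h1]
    refine (norm_sub_le _ _).trans ?_
    rw [Complex.norm_real, Real.norm_of_nonneg hδ.le]
  have e2 : ∀ t : ℂ, δ - ‖t - P‖ ≤ ‖(P + δ) - t‖ := fun t => by
    have h1 : (P + δ) - t = (δ : ℂ) - (t - P) := by ring
    rw [h1]
    refine le_trans ?_ (norm_sub_norm_le _ _)
    rw [Complex.norm_real, Real.norm_of_nonneg hδ.le]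
  have e3 : ∀ t : ℂ, ‖t - P‖ - δ ≤ ‖(P + δ) - t‖ := fun t => by
    have h1 : ‖(P + δ) - t‖ = ‖(t - P) - δ‖ := by
      rw [← norm_neg]
      congr 1
      ring
    rw [h1]
    refine le_trans ?_ (norm_sub_norm_le _ _)
    rw [Complex.norm_real, Real.norm_of_nonneg hδ.le]
  have f1 : ∀ t : ℂ, ‖(P + ε) - t‖ ≤ ε + ‖t - P‖ := fun t => by
    have h1 : (P + ε) - t = (ε : ℂ) - (t - P) := by ring
    rw [h1]
    refine (norm_sub_le _ _).trans ?_
    rw [Complex.norm_real, Real.norm_of_nonneg hε.le]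
  have f2 : ∀ t : ℂ, ε - ‖t - P‖ ≤ ‖(P + ε) - t‖ := fun t => by
    have h1 : (P + ε) - t = (ε : ℂ) - (t - P) := by ring
    rw [h1]
    refine le_trans ?_ (norm_sub_norm_le _ _)
    rw [Complex.norm_real, Real.norm_of_nonneg hε.le]
  have f3 : ∀ t : ℂ, ‖t - P‖ - ε ≤ ‖(P + ε) - t‖ := fun t => by
    have h1 : ‖(P + ε) - t‖ = ‖(t - P) - ε‖ := by
      rw [← norm_neg]
      congr 1
      ring
    rw [h1]
    refine le_trans ?_ (norm_sub_norm_le _ _)
    rw [Complex.norm_real, Real.norm_of_nonneg hε.le]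
  have hc : (2 : ℝ) ^ (Multiset.card p.roots) ≤ 2 ^ n := pow_le_pow_right₀ (by norm_num) hn
  have hnn : ∀ y : ℂ, 0 ≤ (p.roots.map fun t => ‖y - t‖).prod := fun y => Multiset.prod_nonneg fun a ha => by
    obtain ⟨b, -, rfl⟩ := Multiset.mem_map.mp ha
    exact norm_nonneg _
  constructor
  · rw [hev, hev]
    have h1 := ClB_ms (fun t => ‖t - P‖ < ε) (f := fun t => ‖(P + δ) - t‖) (g := fun t => ‖(P + ε) - t‖) (fun t => norm_nonneg _)
      (fun t => norm_nonneg _) (u := 3 * (δ / ε)) (by positivity) p.roots (fun t ht => by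
        refine ⟨fun hN => ?_, fun hN => ?_⟩
        · rcases H t ht with h2 | h2
          · have h3 := e1 t
            have h4 := f2 t
            have h5 : ‖(P + δ) - t‖ ≤ 3 / 2 * δ := by linarith
            have h6 : 3 / 4 * ε ≤ ‖(P + ε) - t‖ := by linarith
            calc ‖(P + δ) - t‖ ≤ 3 / 2 * δ := h5
              _ ≤ 3 * (δ / ε) * 2 * (3 / 4 * ε) := by
                have h7 : 3 * (δ / ε) * 2 * (3 / 4 * ε) = 9 / 2 * δ := by
                  field_simp
                  ring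
                rw [h7]
                linarith
              _ ≤ _ := by gcongr
          · linarith
        · rcases H t ht with h2 | h2
          · exfalso
            apply hN
            linarith
          · have h3 := f3 t
            have h4 : ‖(P + δ) - t‖ ≤ ‖(P + ε) - t‖ + ‖((δ : ℂ) - ε)‖ := by
              have h5 : (P + δ) - t = ((P + ε) - t) + ((δ : ℂ) - ε) := by ring
              rw [h5]
              exact norm_add_le _ _
            have h6 : ‖((δ : ℂ) - ε)‖ = ε - δ := by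
              rw [← Complex.ofReal_sub, Complex.norm_real, Real.norm_eq_abs, abs_of_nonpos (by linarith)]
              ring
            show ‖(P + δ) - t‖ ≤ 2 * ‖(P + ε) - t‖
            linarith)
    calc ‖p.leadingCoeff‖ * (p.roots.map fun t => ‖(P + δ) - t‖).prod
        ≤ ‖p.leadingCoeff‖ * ((3 * (δ / ε)) ^ (Multiset.card (p.roots.filter fun t => ‖t - P‖ < ε)) * 2 ^ (Multiset.card p.roots) *
            (p.roots.map fun t => ‖(P + ε) - t‖).prod) := mul_le_mul_of_nonneg_left h1 (norm_nonneg _)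
      _ ≤ ‖p.leadingCoeff‖ * ((3 * (δ / ε)) ^ (Multiset.card (p.roots.filter fun t => ‖t - P‖ < ε)) * 2 ^ n *
            (p.roots.map fun t => ‖(P + ε) - t‖).prod) := by
          refine mul_le_mul_of_nonneg_left (mul_le_mul_of_nonneg_right (mul_le_mul_of_nonneg_left hc (by positivity)) (hnn _)) (norm_nonneg _)
      _ = _ := by ring
  · rw [hev, hev]
    have h1 := ClB_ms (fun t => ‖t - P‖ < ε) (f := fun t => ‖(P + ε) - t‖) (g := fun t => ‖(P + δ) - t‖) (fun t => norm_nonneg _)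
      (fun t => norm_nonneg _) (u := 4 / (δ / ε)) (by positivity) p.roots (fun t ht => by
        refine ⟨fun hN => ?_, fun hN => ?_⟩
        · rcases H t ht with h2 | h2
          · have h3 := f1 t
            have h4 := e2 t
            have h5 : ‖(P + ε) - t‖ ≤ 5 / 4 * ε := by linarith
            have h6 : 1 / 2 * δ ≤ ‖(P + δ) - t‖ := by linarith
            calc ‖(P + ε) - t‖ ≤ 5 / 4 * ε := h5
              _ ≤ 4 / (δ / ε) * 2 * (1 / 2 * δ) := by
                have h7 : 4 / (δ / ε) * 2 * (1 / 2 * δ) = 4 * ε := by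
                  field_simp
                rw [h7]
                linarith
              _ ≤ _ := by gcongr
          · linarith
        · rcases H t ht with h2 | h2
          · exfalso
            apply hN
            linarith
          · have h3 := e3 t
            have h4 : ‖(P + ε) - t‖ ≤ ‖(P + δ) - t‖ + ‖((ε : ℂ) - δ)‖ := by
              have h5 : (P + ε) - t = ((P + δ) - t) + ((ε : ℂ) - δ) := by ring
              rw [h5]
              exact norm_add_le _ _
            have h6 : ‖((ε : ℂ) - δ)‖ = ε - δ := by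
              rw [← Complex.ofReal_sub, Complex.norm_real, Real.norm_eq_abs, abs_of_nonneg (by linarith)]
            show ‖(P + ε) - t‖ ≤ 2 * ‖(P + δ) - t‖
            linarith)
    calc ‖p.leadingCoeff‖ * (p.roots.map fun t => ‖(P + ε) - t‖).prod
        ≤ ‖p.leadingCoeff‖ * ((4 / (δ / ε)) ^ (Multiset.card (p.roots.filter fun t => ‖t - P‖ < ε)) * 2 ^ (Multiset.card p.roots) *
            (p.roots.map fun t => ‖(P + δ) - t‖).prod) := mul_le_mul_of_nonneg_left h1 (norm_nonneg _)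
      _ ≤ ‖p.leadingCoeff‖ * ((4 / (δ / ε)) ^ (Multiset.card (p.roots.filter fun t => ‖t - P‖ < ε)) * 2 ^ n *
            (p.roots.map fun t => ‖(P + δ) - t‖).prod) := by
          refine mul_le_mul_of_nonneg_left (mul_le_mul_of_nonneg_right (mul_le_mul_of_nonneg_left hc (by positivity)) (hnn _)) (norm_nonneg _)
      _ = _ := by ring

open Classical in
private theorem ClB_le {P : ℂ} {ε δ : ℝ} (hδ : 0 < δ) (hδε : δ ≤ ε / 2) {p q : Polynomial ℂ} {n : ℕ}
    (hx : δ / ε * 4 ^ (3 * n + 1) < 1)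
    (hn : Multiset.card p.roots ≤ n) (hn' : Multiset.card q.roots ≤ n)
    (H : ∀ t ∈ p.roots, ‖t - P‖ ≤ δ / 2 ∨ 2 * ε ≤ ‖t - P‖) (H' : ∀ t ∈ q.roots, ‖t - P‖ ≤ δ / 2 ∨ 2 * ε ≤ ‖t - P‖)
    (h1 : ‖p.eval (P + δ)‖ ≤ 2 * ‖q.eval (P + δ)‖) (h2 : ‖q.eval (P + ε)‖ ≤ 2 * ‖p.eval (P + ε)‖) (h3 : p.eval (P + ε) ≠ 0) :
    Multiset.card (q.roots.filter fun t => ‖t - P‖ < ε) ≤ Multiset.card (p.roots.filter fun t => ‖t - P‖ < ε) := by
  by_contra hlt
  push Not at hlt
  have hε : 0 < ε := by linarith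
  have hx0 : 0 < δ / ε := div_pos hδ hε
  have hx1 : δ / ε ≤ 1 := by
    rw [div_le_one hε]
    linarith
  have a1 := (ClB_eval hδ hδε hn H).2
  have a2 := (ClB_eval hδ hδε hn' H').1
  have hm : Multiset.card (p.roots.filter fun t => ‖t - P‖ < ε) ≤ n := (Multiset.card_le_card (Multiset.filter_le _ _)).trans hn
  have he : Multiset.card (q.roots.filter fun t => ‖t - P‖ < ε) ≤ n := (Multiset.card_le_card (Multiset.filter_le _ _)).trans hn'
  generalize Multiset.card (p.roots.filter fun t => ‖t - P‖ < ε) = m at *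
  generalize Multiset.card (q.roots.filter fun t => ‖t - P‖ < ε) = e at *
  generalize δ / ε = x at *
  have h4 : 0 < ‖p.eval (P + ε)‖ := norm_pos_iff.mpr h3
  have b1 : ‖p.eval (P + ε)‖ ≤ ((4 / x) ^ m * (3 * x) ^ e * 4 ^ (n + 1)) * ‖p.eval (P + ε)‖ := by
    calc ‖p.eval (P + ε)‖ ≤ (4 / x) ^ m * 2 ^ n * ‖p.eval (P + δ)‖ := a1
      _ ≤ (4 / x) ^ m * 2 ^ n * (2 * ‖q.eval (P + δ)‖) := by gcongr
      _ ≤ (4 / x) ^ m * 2 ^ n * (2 * ((3 * x) ^ e * 2 ^ n * ‖q.eval (P + ε)‖)) := by gcongr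
      _ ≤ (4 / x) ^ m * 2 ^ n * (2 * ((3 * x) ^ e * 2 ^ n * (2 * ‖p.eval (P + ε)‖))) := by gcongr
      _ = ((4 / x) ^ m * (3 * x) ^ e * (2 ^ n * 2 ^ n * 4)) * ‖p.eval (P + ε)‖ := by ring
      _ = ((4 / x) ^ m * (3 * x) ^ e * 4 ^ (n + 1)) * ‖p.eval (P + ε)‖ := by
        rw [← mul_pow]
        norm_num [pow_succ]
  have b2 : (4 / x) ^ m * (3 * x) ^ e * 4 ^ (n + 1) < 1 := by
    obtain ⟨k, rfl⟩ : ∃ k, e = m + 1 + k := ⟨e - m - 1, by omega⟩
    have c1 : (4 / x) ^ m * (3 * x) ^ (m + 1 + k) * 4 ^ (n + 1) = (4 ^ m * 3 ^ (m + 1 + k) * 4 ^ (n + 1)) * (x * x ^ k) := by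
      rw [div_pow, mul_pow, pow_add x, pow_add x]
      field_simp
    rw [c1]
    have c2 : x ^ k ≤ 1 := pow_le_one₀ hx0.le hx1
    have c3 : (3 : ℝ) ^ (m + 1 + k) ≤ 4 ^ n := (pow_le_pow_left₀ (by norm_num) (by norm_num) _).trans (pow_le_pow_right₀ (by norm_num) he)
    have c4 : (4 : ℝ) ^ m ≤ 4 ^ n := pow_le_pow_right₀ (by norm_num) hm
    calc (4 ^ m * 3 ^ (m + 1 + k) * 4 ^ (n + 1)) * (x * x ^ k) ≤ (4 ^ n * 4 ^ n * 4 ^ (n + 1)) * (x * 1) := by gcongr
      _ = x * 4 ^ (3 * n + 1) := by ring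
      _ < 1 := hx
  have b3 : ((4 / x) ^ m * (3 * x) ^ e * 4 ^ (n + 1)) * ‖p.eval (P + ε)‖ < 1 * ‖p.eval (P + ε)‖ := mul_lt_mul_of_pos_right b2 h4
  linarith

/-- (ClB) the number of roots near `P` is the multiplicity.
Proof. `η' ≤ η`, such that `0 < ‖z - c‖ < η'` implies `z ∉ S` (finite set; or `growth_near`). Fix `P₀ ∈ E = (spec c F).roots.toFinset`, `e = e_{P₀}`, `g = spec c F`.
For `z` near `c` and `HSec F n U s`, `z ∈ U`: `F.evalEval z y = lc(z) ∏_i (y - s i z)` for all `y` (the roots of `spec z F` are exactly the `s i z`, all simple,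
degree `n`, as `z ∉ S`). Let `m = card {i | ‖s i z - P₀‖ < ε}`. Compare the two points `y₁ = P₀ + δ` and `y₂ = P₀ + ε·(3/2)`, `0 < δ ≤ ε/2` real small.
Then `F.evalEval z y₁ / F.evalEval z y₂ = ∏_i (y₁ - s i z)/(y₂ - s i z)`. For `i` far (`‖s i z‖ > R + 1`) or near another `P' ≠ P₀`
(`‖s i z - P'‖ < ε`, `‖P' - P₀‖ ≥ 4ε`): all distances `‖y₁ - s i z‖`, `‖y₂ - s i z‖` are `≥ ε` and differ by at most `2ε`, so the quotient is between
`1/3` and `3` in norm. For `i` near `P₀`, i.e. `‖s i z - P₀‖ ≤ C‖z - c‖^{1/e} ≤ δ/2` when `‖z - c‖` is small enough (depending on `δ`):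
`δ/2 ≤ ‖y₁ - s i z‖ ≤ 2δ` and `ε ≤ ‖y₂ - s i z‖ ≤ 2ε`. So `(δ/4ε)^m 3^{-n} ≤ ‖F(z,y₁)/F(z,y₂)‖ ≤ (2δ/ε)^m 3^n`.
(If the `P` of the dichotomy for a near root is unique: `‖y - P‖ < ε`, `‖y - P'‖ < ε` gives `‖P - P'‖ < 2ε`.)
The same estimate holds for `z = c`: `g(y) = a ∏_P (y - P)^{e_P}` gives (with the far roots absent)
`(δ/2ε)^e 3^{-n} ≤ ‖g(y₁)/g(y₂)‖ ≤ (δ/ε)^e 3^n` (here `‖y₁ - P₀‖ = δ`, `‖y₂ - P₀‖ = 3ε/2`). By continuity of `z ↦ F.evalEval z y_i` at `c` (fixed `δ`), for
`‖z - c‖` small (depending on `δ`) the quotient for `z` is within a factor `2` of the quotient for `c`. So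
`(δ/4ε)^m 3^{-n} ≤ 2 (δ/ε)^e 3^n` and `(δ/2ε)^e 3^{-n} ≤ 2 (2δ/ε)^m 3^n`. As `m, e ≤ n`: if `m < e` the first gives `δ^{m-e} ≤ const(ε, n)`, i.e.
`1 ≤ const · δ`; if `m > e` the second gives `1 ≤ const · δ`. Fix `δ` with `const · δ < 1`: then `m = e`. Take the minimum of the finitely many `η'` over `P₀ ∈ E`.
(`nS`: finite set `S`. You may choose any other proof, e.g. Rouche or continuity of roots.) -/
theorem exists_clus_of_clus0 {F : Polynomial (Polynomial ℂ)} {S : Finset ℂ} (h : Std F S) {c : ℂ} {ε R C η : ℝ}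
    (h0 : Clus0 F c ε R C η) : ∃ η', 0 < η' ∧ η' ≤ η ∧ Clus F S c ε R C η' := by
  classical
  obtain ⟨K, η₁, hη₁, -, hgr⟩ := growth_near h c
  have hε := h0.εpos
  set n := F.natDegree with hn
  set g := spec c F with hg
  set E := g.roots.toFinset with hE
  have hg0 : g ≠ 0 := h.ne c
  set δ : ℝ := ε * (1 / (2 * 4 ^ (3 * n + 1))) with hδdef
  have h4 : (1 : ℝ) ≤ 4 ^ (3 * n + 1) := one_le_pow₀ (by norm_num)
  have hδ : 0 < δ := by positivity
  have hxv : δ / ε = 1 / (2 * 4 ^ (3 * n + 1)) := by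
    rw [hδdef]
    field_simp
  have hx : δ / ε * 4 ^ (3 * n + 1) < 1 := by
    rw [hxv]
    have : (1 : ℝ) / (2 * 4 ^ (3 * n + 1)) * 4 ^ (3 * n + 1) = 1 / 2 := by
      field_simp
    rw [this]
    norm_num
  have hδε : δ ≤ ε / 2 := by
    rw [hδdef]
    have : (1 : ℝ) / (2 * 4 ^ (3 * n + 1)) ≤ 1 / 2 := by
      apply one_div_le_one_div_of_le (by norm_num)
      linarith
    nlinarith
  have hdeg : ∀ z, Multiset.card (spec z F).roots ≤ n := fun z =>
    (card_roots' _).trans (natDegree_map_le)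
  have hcont : ∀ y : ℂ, Continuous fun z => ‖F.evalEval z y‖ := fun y => by
    have : (fun z => ‖F.evalEval z y‖) = fun z => ‖(Polynomial.eval (Polynomial.C y) F).eval z‖ := rfl
    rw [this]
    exact (Polynomial.continuous _).norm
  have hgr' : ∀ P ∈ E, ∀ r : ℝ, 0 < r → r ≤ ε → g.eval (P + r) ≠ 0 := by
    intro P hP r hr hrε h5
    have h6 : P + r ∈ E := by
      rw [hE, Multiset.mem_toFinset, mem_roots hg0]
      exact h5
    have h7 : P ≠ P + r := by
      intro h8
      have h9 : (r : ℂ) = 0 := by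
        have := h8
        simpa using this.symm
      exact hr.ne' (by exact_mod_cast h9)
    have h8 := h0.sep P hP (P + r) h6 h7
    have h9 : ‖P - (P + r)‖ = r := by
      have : P - (P + r) = -(r : ℂ) := by ring
      rw [this, norm_neg, Complex.norm_real, Real.norm_of_nonneg hr.le]
    rw [h9] at h8
    linarith
  have hmul : ∀ P ∈ E, 0 < g.rootMultiplicity P := by
    intro P hP
    rw [hE, Multiset.mem_toFinset] at hP
    exact (rootMultiplicity_pos hg0).mpr ((mem_roots hg0).mp hP)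
  -- the eventual estimates
  have hev : ∀ᶠ z in 𝓝 c, ∀ P ∈ E, (C * ‖z - c‖ ^ (1 / (g.rootMultiplicity P : ℝ)) ≤ δ / 2 ∧
      (‖F.evalEval z (P + δ)‖ ≤ 2 * ‖F.evalEval c (P + δ)‖ ∧ ‖F.evalEval c (P + δ)‖ ≤ 2 * ‖F.evalEval z (P + δ)‖) ∧
      (‖F.evalEval z (P + ε)‖ ≤ 2 * ‖F.evalEval c (P + ε)‖ ∧ ‖F.evalEval c (P + ε)‖ ≤ 2 * ‖F.evalEval z (P + ε)‖)) := by
    rw [Filter.eventually_all_finset]
    intro P hP
    have hpos : (0 : ℝ) < 1 / (g.rootMultiplicity P : ℝ) := by
      have := hmul P hP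
      positivity
    have hfac : ∀ r : ℝ, 0 < r → r ≤ ε → ∀ᶠ z in 𝓝 c, (‖F.evalEval z (P + r)‖ ≤ 2 * ‖F.evalEval c (P + r)‖ ∧
        ‖F.evalEval c (P + r)‖ ≤ 2 * ‖F.evalEval z (P + r)‖) := by
      intro r hr hrε
      have h5 : 0 < ‖F.evalEval c (P + r)‖ := by
        rw [norm_pos_iff, ← eval_spec]
        exact hgr' P hP r hr hrε
      have h6 : ∀ᶠ z in 𝓝 c, ‖F.evalEval z (P + r)‖ < 2 * ‖F.evalEval c (P + r)‖ :=
        (hcont (P + r)).continuousAt.eventually_lt continuousAt_const (by linarith)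
      have h7 : ∀ᶠ z in 𝓝 c, ‖F.evalEval c (P + r)‖ < 2 * ‖F.evalEval z (P + r)‖ :=
        ContinuousAt.eventually_lt continuousAt_const ((hcont (P + r)).continuousAt.const_mul 2) (by linarith)
      filter_upwards [h6, h7] with z h8 h9
      exact ⟨h8.le, h9.le⟩
    have h6 : ∀ᶠ z in 𝓝 c, C * ‖z - c‖ ^ (1 / (g.rootMultiplicity P : ℝ)) < δ / 2 := by
      have h7 : Continuous fun z : ℂ => C * ‖z - c‖ ^ (1 / (g.rootMultiplicity P : ℝ)) :=
        continuous_const.mul ((continuous_id.sub continuous_const).norm.rpow_const fun _ => Or.inr hpos.le)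
      refine h7.continuousAt.eventually_lt continuousAt_const ?_
      rw [sub_self, norm_zero, Real.zero_rpow hpos.ne', mul_zero]
      positivity
    filter_upwards [h6, hfac δ hδ (by linarith), hfac ε hε le_rfl] with z h8 h9 h10
    exact ⟨h8.le, h9, h10⟩
  obtain ⟨η₂, hη₂, hball⟩ := Metric.eventually_nhds_iff.mp hev
  refine ⟨min η (min η₁ η₂), lt_min h0.ηpos (lt_min hη₁ hη₂), min_le_left _ _, ?_⟩
  refine { εpos := h0.εpos, εle := h0.εle, Rpos := h0.Rpos, Cpos := h0.Cpos, ηpos := lt_min h0.ηpos (lt_min hη₁ hη₂),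
           ηlt := (min_le_left _ _).trans_lt h0.ηlt, sep := h0.sep, bd := h0.bd,
           dich := fun z y hz => h0.dich z y (hz.trans_le (min_le_left _ _)), nS := ?_, count := ?_ }
  · intro z hz hz'
    exact (hgr z hz (hz'.trans_le ((min_le_right _ _).trans (min_le_left _ _)))).1
  · intro z hz hz' U s hs hzU P hP
    have hzη : ‖z - c‖ < η := hz'.trans_le (min_le_left _ _)
    have hzS : z ∉ S := (hgr z hz (hz'.trans_le ((min_le_right _ _).trans (min_le_left _ _)))).1
    obtain ⟨k1, ⟨k2, k3⟩, k4, k5⟩ := hball (y := z) (by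
      rw [dist_eq_norm]
      exact hz'.trans_le ((min_le_right _ _).trans (min_le_right _ _))) P hP
    -- the roots of the specialisation at `z`
    have hroots : (spec z F).roots = (Finset.univ : Finset (Fin n)).val.map fun i => s i z := by
      have hnd : (spec z F).roots.Nodup := by
        rw [← Multiset.toFinset_card_eq_card_iff_nodup]
        have h5 : (spec z F).roots.toFinset.card = n := h.nr_eq hzS
        have h6 := Multiset.toFinset_card_le (spec z F).roots
        have h7 := hdeg z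
        omega
      have hnd' : ((Finset.univ : Finset (Fin n)).val.map fun i => s i z).Nodup :=
        (Multiset.nodup_map_iff_of_injective (fun i j hij => hs.inj z hzU i j hij)).mpr Finset.univ.nodup
      rw [hnd.ext hnd']
      intro a
      rw [mem_roots (h.ne z), IsRoot.def, eval_spec, hs.mem_iff z hzU a]
      simp
    have hcz : (Finset.univ.filter fun i => ‖s i z - P‖ < ε).card =
        Multiset.card ((spec z F).roots.filter fun t => ‖t - P‖ < ε) := by
      rw [hroots, Multiset.filter_map, Multiset.card_map]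
      rfl
    have hcg : g.rootMultiplicity P = Multiset.card (g.roots.filter fun t => ‖t - P‖ < ε) := by
      have h5 : (g.roots.filter fun t => ‖t - P‖ < ε) = g.roots.filter fun t => t = P := by
        refine Multiset.filter_congr fun t ht => ⟨fun h6 => ?_, fun h6 => ?_⟩
        · by_contra h7
          have h8 := h0.sep t (Multiset.mem_toFinset.mpr ht) P hP h7
          linarith
        · rw [h6, sub_self, norm_zero]
          exact hε
      rw [h5, ← count_roots, Multiset.filter_eq', Multiset.card_replicate]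
    have Hz : ∀ t ∈ (spec z F).roots, ‖t - P‖ ≤ δ / 2 ∨ 2 * ε ≤ ‖t - P‖ := by
      intro t ht
      have h5 : F.evalEval z t = 0 := by
        rw [← eval_spec]
        exact (mem_roots (h.ne z)).mp ht
      rcases h0.dich z t hzη h5 with h6 | ⟨P', hP', h6, h7⟩
      · right
        have h7 := h0.bd P hP
        have h8 : ‖t‖ ≤ ‖t - P‖ + ‖P‖ := by
          have := norm_add_le (t - P) P
          rwa [sub_add_cancel] at this
        have h9 := h0.εle
        linarith
      · by_cases h8 : P' = P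
        · left
          rw [h8] at h7
          exact h7.trans k1
        · right
          have h9 := h0.sep P' hP' P hP h8
          have h10 : ‖P' - P‖ ≤ ‖t - P'‖ + ‖t - P‖ := by
            have := norm_sub_le (t - P) (t - P')
            have e : (t - P) - (t - P') = P' - P := by ring
            rw [e] at this
            linarith
          linarith
    have Hg : ∀ t ∈ g.roots, ‖t - P‖ ≤ δ / 2 ∨ 2 * ε ≤ ‖t - P‖ := by
      intro t ht
      by_cases h8 : t = P
      · left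
        rw [h8, sub_self, norm_zero]
        positivity
      · right
        have h9 := h0.sep t (Multiset.mem_toFinset.mpr ht) P hP h8
        linarith
    have hzε : (spec z F).eval (P + ε) ≠ 0 := by
      intro h5
      rw [eval_spec] at h5
      have h6 := hgr' P hP ε hε le_rfl
      rw [h5, norm_zero, mul_zero] at k5
      apply h6
      rw [eval_spec]
      exact norm_le_zero_iff.mp k5
    rw [hcz, hcg]
    apply le_antisymm
    · exact ClB_le hδ hδε hx (hdeg c) (hdeg z) Hg Hz (by rw [eval_spec, eval_spec]; exact k3) (by rw [eval_spec, eval_spec]; exact k4)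
        (hgr' P hP ε hε le_rfl)
    · exact ClB_le hδ hδε hx (hdeg z) (hdeg c) Hz Hg (by rw [eval_spec, eval_spec]; exact k2) (by rw [eval_spec, eval_spec]; exact k5) hzε

end Pool.Agent.LZ
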