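import Pool.Agent.Lib.MP_79da24_ag.ClA
import Pool.Agent.Lib.MP_79da24_ag.ClB

set_option autoImplicit false

namespace Pool.Agent.LZ

open Polynomial Filter Topology Metric

theorem exists_clus {F : Polynomial (Polynomial ℂ)} {S : Finset ℂ} (h : Std F S) (c : ℂ) :
    ∃ ε R C η : ℝ, Clus F S c ε R C η := by
  obtain ⟨ε, R, C, η, h0⟩ := exists_clus0 h c
  obtain ⟨η', _, _, h1⟩ := exists_clus_of_clus0 h h0
  exact ⟨ε, R, C, η', h1⟩

end Pool.Agent.LZ
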