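import Pool.Agent.Lib.MP_79da24_ag.TD
import Pool.Agent.Lib.MP_79da24_ag.Std

set_option autoImplicit false

namespace Pool.Agent.LZ

open Polynomial Filter Topology Metric

/-- The roots of `F(z, ·)` for `z` near `c`: either near one of the roots `P` of `F(c, ·)` or far away. -/
structure Clus0 (F : Polynomial (Polynomial ℂ)) (c : ℂ) (ε R C η : ℝ) : Prop where
  εpos : 0 < ε
  εle : ε ≤ 1
  Rpos : 0 < R
  Cpos : 0 < C
  ηpos : 0 < η
  ηlt : η < 1 / 3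
  sep : ∀ P ∈ (spec c F).roots.toFinset, ∀ P' ∈ (spec c F).roots.toFinset, P ≠ P' → 4 * ε ≤ ‖P - P'‖
  bd : ∀ P ∈ (spec c F).roots.toFinset, ‖P‖ + 1 ≤ R
  dich : ∀ z y : ℂ, ‖z - c‖ < η → F.evalEval z y = 0 → R + 1 < ‖y‖ ∨
    ∃ P ∈ (spec c F).roots.toFinset, ‖y - P‖ < ε ∧
      ‖y - P‖ ≤ C * ‖z - c‖ ^ (1 / ((spec c F).rootMultiplicity P : ℝ))

/-- Moreover the number of the roots near `P` is the multiplicity of `P`. -/
structure Clus (F : Polynomial (Polynomial ℂ)) (S : Finset ℂ) (c : ℂ) (ε R C η : ℝ) : Prop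
    extends Clus0 F c ε R C η where
  nS : ∀ z, 0 < ‖z - c‖ → ‖z - c‖ < η → z ∉ S
  count : ∀ z, 0 < ‖z - c‖ → ‖z - c‖ < η → ∀ (U : Set ℂ) (s : Fin F.natDegree → ℂ → ℂ),
    HSec F F.natDegree U s → z ∈ U → ∀ P ∈ (spec c F).roots.toFinset,
      (Finset.univ.filter fun i => ‖s i z - P‖ < ε).card = (spec c F).rootMultiplicity P

end Pool.Agent.LZ
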