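import Pool.Agent.Lib.MP_79da24_ag.SgD

set_option autoImplicit false

namespace Pool.Agent.LZ

open Polynomial Filter Topology Metric

/-- (ClS1) a singular point is a multiple root of the fibre. Proof. `(spec c F).eval P = 0` and `(derivative (spec c F)).eval P = 0`
(`eval_spec`, `derivative_map`), `one_lt_rootMultiplicity_iff_isRoot` (as in BA.lean). -/
theorem SgP.two_le {F : Polynomial (Polynomial ℂ)} {c P : ℂ} (hne : spec c F ≠ 0) (h : SgP F c P) :
    2 ≤ (spec c F).rootMultiplicity P := by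
  obtain ⟨h1, h2, -⟩ := h
  have h3 : (spec c F).IsRoot P := by
    rw [IsRoot.def, eval_spec]
    exact h1
  have h4 : (derivative (spec c F)).IsRoot P := by
    have h5 : (derivative (spec c F)).eval P = (derivative F).evalEval c P := by
      rw [← eval_spec]
      simp only [spec, derivative_map]
    rw [IsRoot.def, h5]
    exact h2
  have := (one_lt_rootMultiplicity_iff_isRoot hne).2 ⟨h3, h4⟩
  omega

private theorem ClS_sum (F : Polynomial (Polynomial ℂ)) (x y : ℂ) :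
    F.evalEval x y = ∑ i ∈ Finset.range (F.natDegree + 1), (F.coeff i).eval x * y ^ i := by
  rw [Polynomial.evalEval, Polynomial.eval_eq_sum_range (p := F) (C y), Polynomial.eval_finsetSum]
  refine Finset.sum_congr rfl (fun i _ => ?_)
  rw [Polynomial.eval_mul, Polynomial.eval_pow, Polynomial.eval_C]

/-- polynomials are Lipschitz near a point -/
private theorem ClS_lip1 (p : Polynomial ℂ) (c : ℂ) :
    ∃ A : ℝ, 0 ≤ A ∧ ∀ z, ‖z - c‖ < 1 → ‖p.eval z - p.eval c‖ ≤ A * ‖z - c‖ := by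
  have hd : X - C c ∣ p - C (p.eval c) := by
    rw [Polynomial.dvd_iff_isRoot]
    simp
  obtain ⟨q, hq⟩ := hd
  obtain ⟨A, hA⟩ := (isCompact_closedBall c 1).exists_bound_of_continuousOn (f := fun z => q.eval z)
    q.continuous.continuousOn
  refine ⟨max A 0, le_max_right _ _, fun z hz => ?_⟩
  have h1 : p.eval z - p.eval c = (z - c) * q.eval z := by
    have h2 := congrArg (fun r : Polynomial ℂ => r.eval z) hq
    simpa using h2
  rw [h1, norm_mul, mul_comm]
  have h3 : ‖q.eval z‖ ≤ A := hA z (by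
    rw [mem_closedBall, dist_eq_norm]
    exact hz.le)
  exact mul_le_mul_of_nonneg_right (h3.trans (le_max_left _ _)) (norm_nonneg _)

/-- the difference quotient of a polynomial -/
private theorem ClS_quot (p : Polynomial ℂ) (c : ℂ) :
    ∃ q : Polynomial ℂ, (∀ z, p.eval z - p.eval c = (z - c) * q.eval z) ∧ q.eval c = (derivative p).eval c := by
  have hd : X - C c ∣ p - C (p.eval c) := by
    rw [Polynomial.dvd_iff_isRoot]
    simp
  obtain ⟨q, hq⟩ := hd
  refine ⟨q, fun z => ?_, ?_⟩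
  · have h2 := congrArg (fun r : Polynomial ℂ => r.eval z) hq
    simpa using h2
  · have h2 := congrArg (fun r : Polynomial ℂ => (derivative r).eval c) hq
    simp only [derivative_sub, derivative_C, derivative_mul, derivative_X, eval_sub, eval_add, eval_mul,
      eval_zero, eval_X, eval_C, eval_one, sub_zero, sub_self, one_mul, zero_mul, add_zero] at h2
    exact h2.symm

/-- powers are Lipschitz on bounded sets -/
private theorem ClS_pow (R : ℝ) (hR : 0 ≤ R) (i : ℕ) :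
    ∃ B : ℝ, 0 ≤ B ∧ ∀ y P : ℂ, ‖y‖ ≤ R → ‖P‖ ≤ R → ‖y ^ i - P ^ i‖ ≤ B * ‖y - P‖ := by
  induction i with
  | zero =>
    refine ⟨0, le_refl _, fun y P _ _ => ?_⟩
    simp
  | succ i ih =>
    obtain ⟨B, hB0, hB⟩ := ih
    refine ⟨R ^ i + B * R, by positivity, fun y P hy hP => ?_⟩
    have h1 : y ^ (i + 1) - P ^ (i + 1) = y ^ i * (y - P) + (y ^ i - P ^ i) * P := by ring
    rw [h1]
    have h2 : ‖y ^ i * (y - P)‖ ≤ R ^ i * ‖y - P‖ := by
      rw [norm_mul, norm_pow]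
      exact mul_le_mul_of_nonneg_right (pow_le_pow_left₀ (norm_nonneg _) hy i) (norm_nonneg _)
    have h3 : ‖(y ^ i - P ^ i) * P‖ ≤ (B * ‖y - P‖) * R := by
      rw [norm_mul]
      exact mul_le_mul (hB y P hy hP) hP (norm_nonneg _) (mul_nonneg hB0 (norm_nonneg _))
    have h4 := norm_add_le (y ^ i * (y - P)) ((y ^ i - P ^ i) * P)
    linarith

/-- the difference of the values of `F` near a singular point -/
private theorem ClS_main (F : Polynomial (Polynomial ℂ)) (c : ℂ) (R : ℝ) (hR : 0 ≤ R) :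
    ∃ A : ℝ, 0 < A ∧ ∀ z y P : ℂ, ‖z - c‖ < 1 → ‖y‖ ≤ R → ‖P‖ ≤ R → deriv (fun x => F.evalEval x P) c = 0 →
      ‖F.evalEval z y - F.evalEval c y‖ ≤ A * ‖z - c‖ * (‖z - c‖ + ‖y - P‖) := by
  choose q hq hqc using fun i : ℕ => ClS_quot (F.coeff i) c
  choose A hA0 hA using fun i : ℕ => ClS_lip1 (q i) c
  choose B hB0 hB using fun i : ℕ => ClS_pow R hR i
  have hT0 : ∀ i, 0 ≤ A i * R ^ i + ‖(q i).eval c‖ * B i := fun i => by
    have := hA0 i
    have := hB0 i
    positivity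
  refine ⟨1 + ∑ i ∈ Finset.range (F.natDegree + 1), (A i * R ^ i + ‖(q i).eval c‖ * B i), ?_,
    fun z y P hz hy hP hd => ?_⟩
  · have : 0 ≤ ∑ i ∈ Finset.range (F.natDegree + 1), (A i * R ^ i + ‖(q i).eval c‖ * B i) :=
      Finset.sum_nonneg fun i _ => hT0 i
    linarith
  have h1 : F.evalEval z y - F.evalEval c y =
      (z - c) * ∑ i ∈ Finset.range (F.natDegree + 1), (q i).eval z * y ^ i := by
    rw [ClS_sum, ClS_sum, ← Finset.sum_sub_distrib, Finset.mul_sum]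
    refine Finset.sum_congr rfl fun i _ => ?_
    rw [← sub_mul, hq i z, mul_assoc]
  have h2 : ∑ i ∈ Finset.range (F.natDegree + 1), (q i).eval c * P ^ i = 0 := by
    have h3 : (fun x => F.evalEval x P) = fun x =>
        (∑ i ∈ Finset.range (F.natDegree + 1), F.coeff i * C (P ^ i)).eval x := by
      funext x
      rw [ClS_sum, Polynomial.eval_finsetSum]
      refine Finset.sum_congr rfl fun i _ => ?_
      rw [eval_mul, eval_C]
    rw [h3, Polynomial.deriv, Polynomial.derivative_sum, Polynomial.eval_finsetSum] at hd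
    rw [← hd]
    refine Finset.sum_congr rfl fun i _ => ?_
    rw [hqc i, derivative_mul, derivative_C, mul_zero, add_zero, eval_mul, eval_C]
  have h3 : ∑ i ∈ Finset.range (F.natDegree + 1), (q i).eval z * y ^ i =
      ∑ i ∈ Finset.range (F.natDegree + 1), ((q i).eval z * y ^ i - (q i).eval c * P ^ i) := by
    rw [Finset.sum_sub_distrib, h2, sub_zero]
  have h4 : ∀ i ∈ Finset.range (F.natDegree + 1), ‖(q i).eval z * y ^ i - (q i).eval c * P ^ i‖ ≤
      (A i * R ^ i + ‖(q i).eval c‖ * B i) * (‖z - c‖ + ‖y - P‖) := by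
    intro i _
    have h5 : (q i).eval z * y ^ i - (q i).eval c * P ^ i =
        ((q i).eval z - (q i).eval c) * y ^ i + (q i).eval c * (y ^ i - P ^ i) := by ring
    rw [h5]
    have h6 : ‖((q i).eval z - (q i).eval c) * y ^ i‖ ≤ (A i * ‖z - c‖) * R ^ i := by
      rw [norm_mul, norm_pow]
      exact mul_le_mul (hA i z hz) (pow_le_pow_left₀ (norm_nonneg _) hy i) (pow_nonneg (norm_nonneg _) _)
        (mul_nonneg (hA0 i) (norm_nonneg _))
    have h7 : ‖(q i).eval c * (y ^ i - P ^ i)‖ ≤ ‖(q i).eval c‖ * (B i * ‖y - P‖) := by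
      rw [norm_mul]
      exact mul_le_mul_of_nonneg_left (hB i y P hy hP) (norm_nonneg _)
    have h8 := norm_add_le (((q i).eval z - (q i).eval c) * y ^ i) ((q i).eval c * (y ^ i - P ^ i))
    have h9 : 0 ≤ A i * R ^ i * ‖y - P‖ := mul_nonneg (mul_nonneg (hA0 i) (pow_nonneg hR i)) (norm_nonneg _)
    have h10 : 0 ≤ ‖(q i).eval c‖ * B i * ‖z - c‖ :=
      mul_nonneg (mul_nonneg (norm_nonneg _) (hB0 i)) (norm_nonneg _)
    calc ‖((q i).eval z - (q i).eval c) * y ^ i + (q i).eval c * (y ^ i - P ^ i)‖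
        ≤ (A i * ‖z - c‖) * R ^ i + ‖(q i).eval c‖ * (B i * ‖y - P‖) := by linarith
      _ ≤ (A i * ‖z - c‖) * R ^ i + ‖(q i).eval c‖ * (B i * ‖y - P‖) +
          (A i * R ^ i * ‖y - P‖ + ‖(q i).eval c‖ * B i * ‖z - c‖) := by linarith
      _ = (A i * R ^ i + ‖(q i).eval c‖ * B i) * (‖z - c‖ + ‖y - P‖) := by ring
  have h5 : ‖∑ i ∈ Finset.range (F.natDegree + 1), (q i).eval z * y ^ i‖ ≤
      (∑ i ∈ Finset.range (F.natDegree + 1), (A i * R ^ i + ‖(q i).eval c‖ * B i)) * (‖z - c‖ + ‖y - P‖) := by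
    rw [h3, Finset.sum_mul]
    exact (norm_sum_le _ _).trans (Finset.sum_le_sum h4)
  rw [h1, norm_mul]
  have h6 : 0 ≤ ‖z - c‖ := norm_nonneg _
  have h7 : 0 ≤ ‖z - c‖ + ‖y - P‖ := add_nonneg h6 (norm_nonneg _)
  calc ‖z - c‖ * ‖∑ i ∈ Finset.range (F.natDegree + 1), (q i).eval z * y ^ i‖
      ≤ ‖z - c‖ * ((∑ i ∈ Finset.range (F.natDegree + 1), (A i * R ^ i + ‖(q i).eval c‖ * B i)) *
        (‖z - c‖ + ‖y - P‖)) := mul_le_mul_of_nonneg_left h5 h6
    _ ≤ ‖z - c‖ * ((∑ i ∈ Finset.range (F.natDegree + 1), (A i * R ^ i + ‖(q i).eval c‖ * B i)) *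
        (‖z - c‖ + ‖y - P‖)) + ‖z - c‖ * (‖z - c‖ + ‖y - P‖) := by
        have := mul_nonneg h6 h7
        linarith
    _ = _ := by ring

/-- lower bound for the value of a polynomial near one of its roots -/
private theorem ClS_low {F : Polynomial (Polynomial ℂ)} {S : Finset ℂ} (h : Std F S) {c : ℂ} {ε R C η : ℝ}
    (hc : Clus F S c ε R C η) {y P : ℂ} (hP : P ∈ (spec c F).roots.toFinset) (hy : ‖y - P‖ < ε) :
    ‖(spec c F).leadingCoeff‖ * ε ^ F.natDegree * ‖y - P‖ ^ (spec c F).rootMultiplicity P ≤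
      ‖(spec c F).eval y‖ := by
  classical
  set g := spec c F with hg
  have hg0 : g ≠ 0 := h.ne c
  have hε := hc.εpos
  have hε1 := hc.εle
  have hval : g.eval y = g.leadingCoeff * ∏ P ∈ g.roots.toFinset, (y - P) ^ g.rootMultiplicity P := by
    rw [(IsAlgClosed.splits g).eval_eq_prod_roots y, Finset.prod_multiset_map_count]
    congr 1
    refine Finset.prod_congr rfl fun P _ => ?_
    rw [Polynomial.count_roots]
  have hnorm : ‖g.eval y‖ = ‖g.leadingCoeff‖ * ∏ P ∈ g.roots.toFinset, ‖y - P‖ ^ g.rootMultiplicity P := by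
    rw [hval, norm_mul, norm_prod]
    congr 1
    refine Finset.prod_congr rfl fun P _ => ?_
    rw [norm_pow]
  have hcard : ∑ P ∈ g.roots.toFinset, g.rootMultiplicity P ≤ F.natDegree := by
    have e : ∑ P ∈ g.roots.toFinset, g.rootMultiplicity P = Multiset.card g.roots := by
      rw [← Multiset.toFinset_sum_count_eq]
      exact Finset.sum_congr rfl fun P _ => (Polynomial.count_roots _).symm
    rw [e]
    refine (Polynomial.card_roots' g).trans ?_
    rw [hg]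
    exact Polynomial.natDegree_map_le
  have hfar' : ∀ P' ∈ g.roots.toFinset.erase P, ε ≤ ‖y - P'‖ := by
    intro P' hP'
    obtain ⟨hne', hP''⟩ := Finset.mem_erase.1 hP'
    have h2 := hc.sep P hP P' hP'' (Ne.symm hne')
    have h4 : ‖P - P'‖ ≤ ‖y - P'‖ + ‖y - P‖ := by
      have e : P - P' = (y - P') - (y - P) := by ring
      rw [e]
      exact norm_sub_le _ _
    linarith
  have hprod : ε ^ F.natDegree ≤ ∏ P' ∈ g.roots.toFinset.erase P, ‖y - P'‖ ^ g.rootMultiplicity P' := by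
    have h2 : ∏ P' ∈ g.roots.toFinset.erase P, ε ^ g.rootMultiplicity P' ≤
        ∏ P' ∈ g.roots.toFinset.erase P, ‖y - P'‖ ^ g.rootMultiplicity P' := by
      refine Finset.prod_le_prod (fun _ _ => by positivity) fun P' hP' => ?_
      exact pow_le_pow_left₀ hε.le (hfar' P' hP') _
    refine le_trans ?_ h2
    rw [Finset.prod_pow_eq_pow_sum]
    refine pow_le_pow_of_le_one hε.le hε1 ?_
    exact (Finset.sum_le_sum_of_subset (Finset.erase_subset _ _)).trans hcard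
  rw [hnorm, ← Finset.mul_prod_erase _ _ hP]
  have h2 : 0 ≤ ‖g.leadingCoeff‖ * ‖y - P‖ ^ g.rootMultiplicity P := by positivity
  calc ‖g.leadingCoeff‖ * ε ^ F.natDegree * ‖y - P‖ ^ g.rootMultiplicity P
      = (‖g.leadingCoeff‖ * ‖y - P‖ ^ g.rootMultiplicity P) * ε ^ F.natDegree := by ring
    _ ≤ (‖g.leadingCoeff‖ * ‖y - P‖ ^ g.rootMultiplicity P) *
        ∏ P' ∈ g.roots.toFinset.erase P, ‖y - P'‖ ^ g.rootMultiplicity P' :=
        mul_le_mul_of_nonneg_left hprod h2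
    _ = _ := by ring

/-- the elementary inequality -/
private theorem ClS_ineq {A κ u ρ : ℝ} (hκ : 0 < κ) (hA : 0 < A) (hu : 0 ≤ u) (hρ : 0 ≤ ρ) (hρ1 : ρ ≤ 1) {m : ℕ}
    (hm : m ≠ 0) (h : κ * u ^ (m + 1) ≤ A * ρ * (ρ + u)) :
    u ≤ max 1 (2 * A / κ) * ρ ^ (1 / (m : ℝ)) := by
  have hm1 : (1 : ℝ) ≤ (m : ℝ) := by exact_mod_cast Nat.one_le_iff_ne_zero.2 hm
  have hm0 : (0 : ℝ) < (m : ℝ) := by linarith
  have hpos : 0 ≤ ρ ^ (1 / (m : ℝ)) := Real.rpow_nonneg hρ _
  rcases le_or_gt u ρ with h1 | h1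
  · have h2 : ρ ≤ ρ ^ (1 / (m : ℝ)) := by
      have h3 : ρ ^ (1 : ℝ) ≤ ρ ^ (1 / (m : ℝ)) := by
        apply Real.rpow_le_rpow_of_exponent_ge' hρ hρ1 (by positivity)
        rw [div_le_one hm0]
        exact hm1
      rwa [Real.rpow_one] at h3
    have h4 : 1 * ρ ^ (1 / (m : ℝ)) ≤ max 1 (2 * A / κ) * ρ ^ (1 / (m : ℝ)) :=
      mul_le_mul_of_nonneg_right (le_max_left _ _) hpos
    linarith
  · have hu0 : 0 < u := lt_of_le_of_lt hρ h1
    have h2 : κ * u ^ (m + 1) ≤ 2 * A * ρ * u := by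
      have h3 : A * ρ * (ρ + u) ≤ A * ρ * (u + u) :=
        mul_le_mul_of_nonneg_left (by linarith) (mul_nonneg hA.le hρ)
      calc κ * u ^ (m + 1) ≤ A * ρ * (u + u) := h.trans h3
        _ = _ := by ring
    have h3 : κ * u ^ m ≤ 2 * A * ρ := by
      have h4 : (κ * u ^ m) * u ≤ (2 * A * ρ) * u := by
        calc (κ * u ^ m) * u = κ * u ^ (m + 1) := by ring
          _ ≤ _ := h2
      exact le_of_mul_le_mul_right h4 hu0
    have h4 : u ^ m ≤ 2 * A / κ * ρ := by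
      rw [div_mul_eq_mul_div, le_div_iff₀ hκ]
      linarith
    have h5 : u = (u ^ m) ^ (1 / (m : ℝ)) := by
      rw [one_div, Real.pow_rpow_inv_natCast hu hm]
    have hB0 : 0 ≤ 2 * A / κ := by positivity
    rw [h5]
    have h6 : (u ^ m) ^ (1 / (m : ℝ)) ≤ (2 * A / κ * ρ) ^ (1 / (m : ℝ)) :=
      Real.rpow_le_rpow (by positivity) h4 (by positivity)
    refine h6.trans ?_
    rw [Real.mul_rpow hB0 hρ]
    refine mul_le_mul_of_nonneg_right ?_ hpos
    calc (2 * A / κ) ^ (1 / (m : ℝ)) ≤ (max 1 (2 * A / κ)) ^ (1 / (m : ℝ)) :=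
          Real.rpow_le_rpow hB0 (le_max_right _ _) (by positivity)
      _ ≤ (max 1 (2 * A / κ)) ^ (1 : ℝ) := by
        apply Real.rpow_le_rpow_of_exponent_le (le_max_left _ _)
        rw [div_le_one hm0]
        exact hm1
      _ = _ := Real.rpow_one _

/-- (ClS2) the roots near a singular point: exponent `1/(e-1)` instead of `1/e`.
Proof. `g = spec c F`, `e = rootMultiplicity P g ≥ 2`, `ρ = ‖z - c‖ < 1`, `u = ‖y - P‖ < ε`. `g = C a * ∏_{P'} (X - C P')^{e_{P'}}`, `‖y - P'‖ ≥ 3ε` for `P' ≠ P`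
(`sep`), so `‖g.eval y‖ ≥ κ u^e` with `κ = ‖a‖ (min 1 (3ε))^n > 0`. `H(z, y) = F.evalEval z y - F.evalEval c y` is a polynomial in `(z, y)` vanishing for
`z = c`: `H(z, y) = (z - c) H₁(z, y)` with a polynomial `H₁` (each coefficient: `(F.coeff k).eval z - (F.coeff k).eval c = (z - c) * q_k.eval z`,
`q_k = (F.coeff k) /ₘ (X - C c)` or `Polynomial.sub_dvd_eval_sub`; `q_k.eval c = (F.coeff k)'(c)`), and `H₁(c, P) = ∑ q_k(c) P^k = ∂_x F(c, P) = 0`
(`deriv (fun x => F.evalEval x P) c = ∑ (derivative (F.coeff k)).eval c * P^k`, by `HasDerivAt` of the finite sum). `H₁` is Lipschitz on bounded sets, so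
`‖H₁(z, y)‖ ≤ A (ρ + u)`. Hence `κ u^e ≤ ‖g.eval y‖ = ‖H(z, y)‖ ≤ A ρ (ρ + u)`. If `u ≤ ρ`: `u ≤ ρ ≤ ρ^{1/(e-1)}` (`ρ ≤ 1`, `e - 1 ≥ 1`). If `ρ < u`:
`κ u^e ≤ 2 A ρ u`, so `u^{e-1} ≤ (2A/κ) ρ` and `u ≤ max 1 (2A/κ) ρ^{1/(e-1)}`. One constant for all the (finitely many) `P`: take the maximum
(induction on the finite set, or `Finset.sup'`, or sum of the constants). -/
theorem sg_close {F : Polynomial (Polynomial ℂ)} {S : Finset ℂ} (h : Std F S) {c : ℂ} {ε R C η : ℝ}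
    (hc : Clus F S c ε R C η) :
    ∃ C' η' : ℝ, 0 < C' ∧ 0 < η' ∧ η' ≤ η ∧ ∀ z y : ℂ, ‖z - c‖ < η' → F.evalEval z y = 0 →
      ∀ P ∈ sg F c, ‖y - P‖ < ε →
        ‖y - P‖ ≤ C' * ‖z - c‖ ^ (1 / (((spec c F).rootMultiplicity P : ℝ) - 1)) := by
  classical
  have hε := hc.εpos
  have hR := hc.Rpos
  have ha : 0 < ‖(spec c F).leadingCoeff‖ := norm_pos_iff.2 (Polynomial.leadingCoeff_ne_zero.2 (h.ne c))
  obtain ⟨A, hA0, hA⟩ := ClS_main F c R hR.le
  refine ⟨max 1 (2 * A / (‖(spec c F).leadingCoeff‖ * ε ^ F.natDegree)), η,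
    lt_of_lt_of_le one_pos (le_max_left _ _), hc.ηpos, le_refl _, ?_⟩
  intro z y hz hy P hP hyP
  have hz1 : ‖z - c‖ < 1 := by linarith [hc.ηlt]
  have hP' : P ∈ (spec c F).roots.toFinset ∧ SgP F c P := by
    unfold sg at hP
    exact Finset.mem_filter.1 hP
  obtain ⟨hPr, hPs⟩ := hP'
  have he := hPs.two_le (h.ne c)
  have hbd := hc.bd P hPr
  have hyR : ‖y‖ ≤ R := by
    have h1 : ‖y‖ ≤ ‖y - P‖ + ‖P‖ := by
      calc ‖y‖ = ‖(y - P) + P‖ := by rw [sub_add_cancel]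
        _ ≤ _ := norm_add_le _ _
    linarith [hc.εle]
  have h1 := hA z y P hz1 hyR (by linarith) hPs.2.2
  have h2 := ClS_low h hc hPr hyP
  rw [hy, zero_sub, norm_neg, ← eval_spec] at h1
  obtain ⟨m, hm⟩ := Nat.exists_eq_add_of_le' (Nat.le_of_lt he)
  have hm0 : m ≠ 0 := by omega
  rw [hm] at h2 ⊢
  have h3 := ClS_ineq (mul_pos ha (pow_pos hε _)) hA0 (norm_nonneg (y - P)) (norm_nonneg (z - c)) hz1.le hm0
    (h2.trans h1)
  have h4 : (((m + 1 : ℕ) : ℝ) - 1) = (m : ℝ) := by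
    push_cast
    ring
  rw [h4]
  exact h3

end Pool.Agent.LZ
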