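import Pool.Agent.Lib.MP_79da24_ag.ClS
import Pool.Agent.Lib.MP_79da24_ag.DbA
import Pool.Agent.Lib.MP_79da24_ag.HsC

set_option autoImplicit false

namespace Pool.Agent.LZ

open Polynomial Filter Topology Metric

/-- Cauchy estimate for a section near `P`, general exponent. -/
theorem DbS_aux {F : Polynomial (Polynomial ℂ)} {S : Finset ℂ} (h : Std F S) {c : ℂ} {ε R C η : ℝ}
    (hc : Clus F S c ε R C η) {C0 η0 : ℝ} (hη0 : η0 ≤ η) (hC : 0 < C0) {P : ℂ}
    (hP : P ∈ (spec c F).roots.toFinset) {β : ℝ} (he2 : 0 ≤ β) (he3 : β ≤ 1)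
    (hb : ∀ w y : ℂ, ‖w - c‖ < η0 → F.evalEval w y = 0 → ‖y - P‖ < ε → ‖y - P‖ ≤ C0 * ‖w - c‖ ^ β) :
    ∀ z, 0 < ‖z - c‖ → ‖z - c‖ < η0 / 2 →
      ∀ (U : Set ℂ) (s : Fin F.natDegree → ℂ → ℂ), HSec F F.natDegree U s → z ∈ U → ∀ i,
        ‖s i z - P‖ < ε → ‖deriv (s i) z‖ ≤ 8 * C0 * ‖z - c‖ ^ (-(1 - β)) := by
  classical
  intro z hz0 hz1 U s hs hzU i hPz
  have hε := hc.εpos
  set ρ : ℝ := ‖z - c‖ with hρ
  have hball : ∀ w ∈ ball z (ρ / 2), ρ / 2 < ‖w - c‖ ∧ ‖w - c‖ < 3 * ρ / 2 := by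
    intro w hw
    rw [mem_ball, dist_eq_norm] at hw
    constructor
    · have h1 : ‖z - c‖ ≤ ‖w - c‖ + ‖w - z‖ := by
        have h2 : z - c = (w - c) - (w - z) := by ring
        rw [h2]
        exact norm_sub_le _ _
      linarith only [h1, hw, hρ]
    · have h1 : ‖w - c‖ ≤ ‖z - c‖ + ‖w - z‖ := by
        have h2 : w - c = (z - c) + (w - z) := by ring
        rw [h2]
        exact norm_add_le _ _
      linarith only [h1, hw, hρ]
  have hlt0 : ∀ w ∈ ball z (ρ / 2), ‖w - c‖ < η0 := fun w hw => by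
    have := (hball w hw).2
    linarith only [this, hz1, hz0]
  have hlt : ∀ w ∈ ball z (ρ / 2), ‖w - c‖ < η := fun w hw => (hlt0 w hw).trans_le hη0
  have hBS : ball z (ρ / 2) ⊆ ((S : Set ℂ)ᶜ) := by
    intro w hw
    have h1 := hc.nS w (by linarith only [(hball w hw).1, hz0]) (hlt w hw)
    simpa using h1
  obtain ⟨t, ht⟩ := h.exists_hsec z (by linarith only [hz0] : 0 < ρ / 2) hBS
  have hzB : z ∈ ball z (ρ / 2) := mem_ball_self (by linarith only [hz0])
  obtain ⟨σ, hσ⟩ := hsec_match hs ht hzU hzB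
  set j := σ.symm i with hj
  have hev : t j =ᶠ[𝓝 z] s i := by
    have := hσ j
    rwa [hj, Equiv.apply_symm_apply] at this
  have hval : t j z = s i z := hev.eq_of_nhds
  have hder : deriv (t j) z = deriv (s i) z := hev.deriv_eq
  have hPn : ∀ y : ℂ, ‖y - P‖ < ε → ‖y‖ < R + 1 := by
    intro y hy
    have h1 := hc.bd P hP
    have h2 : ‖y‖ ≤ ‖y - P‖ + ‖P‖ := by
      have h3 : y = (y - P) + P := by ring
      calc ‖y‖ = ‖(y - P) + P‖ := by rw [← h3]
        _ ≤ _ := norm_add_le _ _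
    linarith only [h1, h2, hy, hc.εle]
  have hsep : ∀ y : ℂ, ‖y - P‖ < ε → ∀ P' ∈ (spec c F).roots.toFinset, ‖y - P'‖ < ε → P' = P := by
    intro y hy P' hP' hy'
    by_contra hne
    have h1 := hc.sep P hP P' hP' (fun h => hne h.symm)
    have h2 : ‖P - P'‖ ≤ ‖y - P'‖ + ‖y - P‖ := by
      have h3 : P - P' = (y - P') - (y - P) := by ring
      rw [h3]
      exact norm_sub_le _ _
    linarith only [h1, h2, hy, hy', hε]
  have hcont : ContinuousOn (t j) (ball z (ρ / 2)) := (ht.diff j).continuousOn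
  set V1 : Set ℂ := ball P ε with hV1
  set V2 : Set ℂ := {y | R + 1 < ‖y‖} ∪ ⋃ P' ∈ (spec c F).roots.toFinset.erase P, ball P' ε with hV2
  have hV2o : IsOpen V2 := by
    refine IsOpen.union (isOpen_lt continuous_const continuous_norm) ?_
    exact isOpen_biUnion fun _ _ => isOpen_ball
  have hu1 : IsOpen (ball z (ρ / 2) ∩ t j ⁻¹' V1) := hcont.isOpen_inter_preimage isOpen_ball isOpen_ball
  have hu2 : IsOpen (ball z (ρ / 2) ∩ t j ⁻¹' V2) := hcont.isOpen_inter_preimage isOpen_ball hV2o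
  have hdisj : Disjoint (ball z (ρ / 2) ∩ t j ⁻¹' V1) (ball z (ρ / 2) ∩ t j ⁻¹' V2) := by
    rw [Set.disjoint_left]
    rintro w ⟨-, hw1⟩ ⟨-, hw2⟩
    have hw1' : ‖t j w - P‖ < ε := by
      have : t j w ∈ ball P ε := hw1
      rwa [mem_ball, dist_eq_norm] at this
    rcases hw2 with hw2 | hw2
    · have h1 : R + 1 < ‖t j w‖ := hw2
      have h2 := hPn _ hw1'
      linarith only [h1, h2]
    · rw [Set.mem_iUnion₂] at hw2
      obtain ⟨P', hP', hw2⟩ := hw2
      rw [mem_ball, dist_eq_norm] at hw2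
      rw [Finset.mem_erase] at hP'
      exact hP'.1 (hsep _ hw1' P' hP'.2 hw2)
  have hdich : ∀ w ∈ ball z (ρ / 2), R + 1 < ‖t j w‖ ∨
      ∃ P' ∈ (spec c F).roots.toFinset, ‖t j w - P'‖ < ε ∧
        ‖t j w - P'‖ ≤ C * ‖w - c‖ ^ (1 / ((spec c F).rootMultiplicity P' : ℝ)) := fun w hw =>
    hc.dich w (t j w) (hlt w hw) ((ht.mem_iff w hw (t j w)).mpr ⟨j, rfl⟩)
  have hcov : ball z (ρ / 2) ⊆ (ball z (ρ / 2) ∩ t j ⁻¹' V1) ∪ (ball z (ρ / 2) ∩ t j ⁻¹' V2) := by
    intro w hw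
    rcases hdich w hw with h1 | ⟨P', hP', h1, -⟩
    · exact Or.inr ⟨hw, Or.inl h1⟩
    · by_cases hPP : P' = P
      · refine Or.inl ⟨hw, ?_⟩
        rw [hPP] at h1
        change t j w ∈ ball P ε
        rwa [mem_ball, dist_eq_norm]
      · refine Or.inr ⟨hw, Or.inr ?_⟩
        rw [Set.mem_iUnion₂]
        refine ⟨P', Finset.mem_erase.mpr ⟨hPP, hP'⟩, ?_⟩
        rwa [mem_ball, dist_eq_norm]
  have hne : (ball z (ρ / 2) ∩ (ball z (ρ / 2) ∩ t j ⁻¹' V1)).Nonempty := by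
    refine ⟨z, hzB, hzB, ?_⟩
    change t j z ∈ ball P ε
    rw [mem_ball, dist_eq_norm, hval]
    exact hPz
  have hpre : IsPreconnected (ball z (ρ / 2)) := (convex_ball z (ρ / 2)).isPreconnected
  have hall := hpre.subset_left_of_subset_union hu1 hu2 hdisj hcov hne
  have hbound : ∀ w ∈ ball z (ρ / 2), ‖t j w - P‖ ≤ 2 * C0 * ρ ^ β := by
    intro w hw
    have hw1 : ‖t j w - P‖ < ε := by
      have : t j w ∈ ball P ε := (hall hw).2
      rwa [mem_ball, dist_eq_norm] at this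
    have h1 : ‖t j w - P‖ ≤ C0 * ‖w - c‖ ^ β :=
      hb w (t j w) (hlt0 w hw) ((ht.mem_iff w hw (t j w)).mpr ⟨j, rfl⟩) hw1
    have h2 : ‖w - c‖ ^ β ≤ (2 * ρ) ^ β := by
      refine Real.rpow_le_rpow (norm_nonneg _) ?_ he2
      linarith only [(hball w hw).2, hz0]
    have h3 : (2 * ρ) ^ β = 2 ^ β * ρ ^ β := Real.mul_rpow (by norm_num) hz0.le
    have h4 : (2 : ℝ) ^ β ≤ 2 := by
      calc (2 : ℝ) ^ β ≤ 2 ^ (1 : ℝ) := Real.rpow_le_rpow_of_exponent_le (by norm_num) he3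
        _ = 2 := Real.rpow_one 2
    have h5 : 0 ≤ ρ ^ β := Real.rpow_nonneg hz0.le _
    calc ‖t j w - P‖ ≤ C0 * ‖w - c‖ ^ β := h1
      _ ≤ C0 * (2 ^ β * ρ ^ β) := by
          rw [← h3]
          exact mul_le_mul_of_nonneg_left h2 hC.le
      _ ≤ C0 * (2 * ρ ^ β) :=
          mul_le_mul_of_nonneg_left (mul_le_mul_of_nonneg_right h4 h5) hC.le
      _ = 2 * C0 * ρ ^ β := by ring
  have hsub : closedBall z (ρ / 4) ⊆ ball z (ρ / 2) :=
    closedBall_subset_ball (by linarith only [hz0])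
  have hd : DiffContOnCl ℂ (fun w => t j w - P) (ball z (ρ / 4)) :=
    ((ht.diff j).sub_const P).diffContOnCl_ball hsub
  have hcau := Complex.norm_deriv_le_of_forall_mem_sphere_norm_le
    (by linarith only [hz0] : 0 < ρ / 4) hd
    (fun w hw => hbound w (hsub (sphere_subset_closedBall hw)))
  rw [deriv_sub_const] at hcau
  rw [← hder]
  refine hcau.trans (le_of_eq ?_)
  have h6 : ρ ^ (-(1 - β)) = ρ ^ β / ρ := by
    rw [show -(1 - β) = β - 1 by ring, Real.rpow_sub hz0, Real.rpow_one]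
  rw [h6]
  field_simp
  ring

/-- (DbS) the velocity of a root near `P`, improved exponent at singular points.
Proof. For `P` not singular this is `deriv_le` (DbA.lean; `om F c P = 1/e`, `if_neg`). For `P` singular: exactly the proof of `deriv_le`
(take `DbA.lean` of the store, file MP_79da24_ag_DbA.lean, as a model) with `sg_close` instead of the bound `C ‖z - c‖^{1/e}` of the dichotomy: on the ball
`ball z (ρ/2)` the section stays `ε`-near `P` and satisfies `‖t j w - P‖ ≤ C' (2ρ)^β`, `β = 1/(e-1) ∈ (0, 1]`, so Cauchy's estimate gives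
`‖deriv‖ ≤ 8 C' ρ^{β - 1} = 8 C' ρ^{-(1 - β)}`. (`om F c P = β`, `if_pos`; `P ∈ sg F c`.) -/
theorem deriv_le2 {F : Polynomial (Polynomial ℂ)} {S : Finset ℂ} (h : Std F S) {c : ℂ} {ε R C η : ℝ}
    (hc : Clus F S c ε R C η) :
    ∃ C' η' : ℝ, 0 < C' ∧ 0 < η' ∧ η' ≤ η ∧ ∀ z, 0 < ‖z - c‖ → ‖z - c‖ < η' →
      ∀ (U : Set ℂ) (s : Fin F.natDegree → ℂ → ℂ), HSec F F.natDegree U s → z ∈ U → ∀ i,
        ∀ P ∈ (spec c F).roots.toFinset, ‖s i z - P‖ < ε →
          ‖deriv (s i) z‖ ≤ C' * ‖z - c‖ ^ (-(1 - om F c P)) := by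
  classical
  obtain ⟨C1, η1, hC1, hη1, hη1', H1⟩ := deriv_le h hc
  obtain ⟨C2, η2, hC2, hη2, hη2', H2⟩ := sg_close h hc
  refine ⟨max C1 (8 * C2), min η1 (η2 / 2), lt_max_of_lt_left hC1,
    lt_min hη1 (by linarith only [hη2]), (min_le_left _ _).trans hη1', ?_⟩
  intro z hz0 hz1 U s hs hzU i P hP hPz
  have hpow : 0 ≤ ‖z - c‖ ^ (-(1 - om F c P)) := Real.rpow_nonneg (norm_nonneg _) _
  have hroot := Multiset.mem_toFinset.mp hP
  have hne : spec c F ≠ 0 := by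
    intro h0
    rw [h0, roots_zero] at hroot
    exact Multiset.notMem_zero _ hroot
  by_cases hsg : SgP F c P
  · have hom : om F c P = 1 / (((spec c F).rootMultiplicity P : ℝ) - 1) := by
      unfold om
      rw [if_pos hsg]
    have he : (2 : ℝ) ≤ ((spec c F).rootMultiplicity P : ℝ) := by exact_mod_cast hsg.two_le hne
    have hβ0 : 0 ≤ 1 / (((spec c F).rootMultiplicity P : ℝ) - 1) :=
      div_nonneg zero_le_one (by linarith only [he])
    have hβ1 : 1 / (((spec c F).rootMultiplicity P : ℝ) - 1) ≤ 1 := by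
      rw [div_le_one (by linarith only [he])]
      linarith only [he]
    have hPsg : P ∈ sg F c := by
      unfold sg
      rw [Finset.mem_filter]
      exact ⟨hP, hsg⟩
    have h1 := DbS_aux h hc hη2' hC2 hP hβ0 hβ1
      (fun w y hw hy hyP => H2 w y hw hy P hPsg hyP) z hz0
      (hz1.trans_le (min_le_right _ _)) U s hs hzU i hPz
    rw [← hom] at h1
    exact h1.trans (mul_le_mul_of_nonneg_right (le_max_right _ _) hpow)
  · have hom : om F c P = 1 / ((spec c F).rootMultiplicity P : ℝ) := by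
      unfold om
      rw [if_neg hsg]
    have h1 := H1 z hz0 (hz1.trans_le (min_le_left _ _)) U s hs hzU i P hP hPz
    rw [← hom] at h1
    exact h1.trans (mul_le_mul_of_nonneg_right (le_max_left _ _) hpow)

end Pool.Agent.LZ
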