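import Mathlib

set_option autoImplicit false

/-!
# Definitions: rational singular homology in degree one, lifts of circle valued functions.
-/

namespace Pool.Agent.LZ

open CategoryTheory

/-- The first singular homology group `H_1(X; ℚ)` (Mathlib's singular homology functor). -/
noncomputable abbrev H1Q (X : Type) [TopologicalSpace X] : ModuleCat.{0} ℚ :=
  ((AlgebraicTopology.singularHomologyFunctor (ModuleCat.{0} ℚ) 1).obj
    (ModuleCat.of ℚ ℚ)).obj (TopCat.of X)

/-- `L` is a real lift of `φ ∘ γ`. -/
def IsLift {X : Type} [TopologicalSpace X] (φ : C(X, Circle)) (γ : C(unitInterval, X))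
    (L : C(unitInterval, ℝ)) : Prop :=
  ∀ t, Circle.exp (L t) = φ (γ t)

end Pool.Agent.LZ
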