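import Pool.Agent.Lib.MP_79da24_ag.Std
import Pool.Agent.Lib.MP_79da24_ag.BA

set_option autoImplicit false

namespace Pool.Agent.LZ

open Polynomial Filter Topology Metric

/-- The maximal cluster size of a fibre (at least `2`): root multiplicities, and the number of the roots which escape to infinity. -/
noncomputable def pcm (n : ℕ) (g : Polynomial ℂ) : ℕ :=
  max 2 (max (n - g.natDegree) (g.roots.toFinset.sup fun P => g.rootMultiplicity P))

/-- (FcA1) Proof. `rootMultiplicity P g ≤ natDegree g ≤ n`. -/
theorem pcm_le {n : ℕ} {g : Polynomial ℂ} (hg : g ≠ 0) (hn : 2 ≤ n) (hd : g.natDegree ≤ n) : pcm n g ≤ n := by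
  have h1 : (g.roots.toFinset.sup fun P => g.rootMultiplicity P) ≤ n := by
    refine Finset.sup_le fun P _ => ?_
    rw [← count_roots]
    exact ((Multiset.count_le_card _ _).trans (card_roots' g)).trans hd
  exact max_le hn (max_le (Nat.sub_le _ _) h1)

/-- (FcA2) -/
theorem le_pcm {n : ℕ} {g : Polynomial ℂ} : 2 ≤ pcm n g ∧ n - g.natDegree ≤ pcm n g ∧
    ∀ P ∈ g.roots.toFinset, g.rootMultiplicity P ≤ pcm n g := by
  refine ⟨le_max_left _ _, (le_max_left _ _).trans (le_max_right _ _), fun P hP => ?_⟩
  exact ((Finset.le_sup (f := fun P => g.rootMultiplicity P) hP).trans (le_max_right _ _)).trans (le_max_right _ _)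

/-- The three cases of the maximum in `pcm`. -/
theorem FcA_cases {n : ℕ} {g : Polynomial ℂ} : pcm n g = 2 ∨ pcm n g = n - g.natDegree ∨
    ∃ P ∈ g.roots.toFinset, pcm n g = g.rootMultiplicity P := by
  have h0 : 2 ≤ pcm n g := le_max_left _ _
  rcases max_choice 2 (max (n - g.natDegree) (g.roots.toFinset.sup fun P => g.rootMultiplicity P)) with h | h
  · exact Or.inl h
  · rcases max_choice (n - g.natDegree) (g.roots.toFinset.sup fun P => g.rootMultiplicity P) with h' | h'
    · exact Or.inr (Or.inl (h.trans h'))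
    · have h2 : pcm n g = g.roots.toFinset.sup fun P => g.rootMultiplicity P := h.trans h'
      have hne : g.roots.toFinset.Nonempty := by
        rw [Finset.nonempty_iff_ne_empty]
        intro he
        rw [h2, he, Finset.sup_empty] at h0
        simp at h0
      obtain ⟨P, hP, hPe⟩ := Finset.exists_mem_eq_sup g.roots.toFinset hne (fun P => g.rootMultiplicity P)
      exact Or.inr (Or.inr ⟨P, hP, h2.trans hPe⟩)

/-- The sum of the multiplicities of the roots is at most the degree. -/
theorem FcA_sum {g : Polynomial ℂ} : ∑ z ∈ g.roots.toFinset, g.rootMultiplicity z ≤ g.natDegree := by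
  have h1 : ∑ z ∈ g.roots.toFinset, g.roots.count z = Multiset.card g.roots :=
    Multiset.toFinset_sum_count_eq g.roots
  simp only [count_roots] at h1
  exact h1.trans_le (card_roots' g)

/-- (FcA3) Proof. Three cases according to the value of the maximum. `2`: `nr g < n`. `n - natDegree g`: `nr g ≤ natDegree g ≤ n`. `e_{P₁}` for a root
`P₁` (`Finset.exists_mem_eq_sup`, the finset of the roots is nonempty if the sup is `≥ 1`): `nr g - 1 + e_{P₁} ≤ ∑_P e_P = card roots ≤ natDegree g ≤ n`. -/
theorem nr_add_pcm_le {n : ℕ} {g : Polynomial ℂ} (hg : g ≠ 0) (hn : 2 ≤ n) (hd : g.natDegree ≤ n) (hlt : nr g < n) :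
    nr g + pcm n g ≤ n + 1 := by
  rcases FcA_cases (n := n) (g := g) with h | h | ⟨P, hP, h⟩
  · omega
  · have h1 : nr g ≤ g.natDegree := (Multiset.toFinset_card_le _).trans (card_roots' g)
    omega
  · have h1 := FcA_sum (g := g)
    rw [← Finset.add_sum_erase _ _ hP] at h1
    have h2 : (g.roots.toFinset.erase P).card ≤ ∑ z ∈ g.roots.toFinset.erase P, g.rootMultiplicity z := by
      rw [Finset.card_eq_sum_ones]
      refine Finset.sum_le_sum fun z hz => ?_
      have hz' : g.IsRoot z := (mem_roots hg).1 (Multiset.mem_toFinset.1 (Finset.mem_of_mem_erase hz))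
      exact (rootMultiplicity_pos hg).2 hz'
    have h3 : (g.roots.toFinset.erase P).card + 1 = nr g := Finset.card_erase_add_one hP
    omega

/-- (FcA4) Proof. `m` = number of the multiple roots. Three cases. `2`: `card_multiple_add_nr_le` (BA.lean) gives `m + nr g ≤ natDegree g ≤ n`.
`n - natDegree g`: the same inequality. `e_{P₁}`: `natDegree g ≥ ∑_P e_P ≥ e_{P₁} + ∑_{P ≠ P₁} (1 + [P multiple]) ≥ e_{P₁} + (nr g - 1) + (m - 1)`. -/
theorem mult_add_pcm_le {n : ℕ} {g : Polynomial ℂ} (hg : g ≠ 0) (hn : 2 ≤ n) (hd : g.natDegree ≤ n) :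
    (g.roots.toFinset.filter (fun y => (derivative g).eval y = 0)).card + pcm n g + nr g ≤ n + 2 := by
  classical
  have h0 := card_multiple_add_nr_le g hg
  rcases FcA_cases (n := n) (g := g) with h | h | ⟨P, hP, h⟩
  · omega
  · omega
  · have h1 := FcA_sum (g := g)
    rw [← Finset.add_sum_erase _ _ hP] at h1
    have h2 : ∑ z ∈ g.roots.toFinset.erase P, ((if (derivative g).eval z = 0 then 1 else 0) + 1) ≤
        ∑ z ∈ g.roots.toFinset.erase P, g.rootMultiplicity z := by
      refine Finset.sum_le_sum fun z hz => ?_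
      have hz' : g.IsRoot z := (mem_roots hg).1 (Multiset.mem_toFinset.1 (Finset.mem_of_mem_erase hz))
      have hpos : 0 < g.rootMultiplicity z := (rootMultiplicity_pos hg).2 hz'
      split_ifs with hd'
      · have := (one_lt_rootMultiplicity_iff_isRoot hg).2 ⟨hz', hd'⟩
        omega
      · omega
    have h3 : (g.roots.toFinset.erase P).card + 1 = nr g := Finset.card_erase_add_one hP
    have h4 : (g.roots.toFinset.filter (fun y => (derivative g).eval y = 0)).card ≤
        (∑ z ∈ g.roots.toFinset.erase P, if (derivative g).eval z = 0 then 1 else 0) + 1 := by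
      rw [Finset.card_filter, ← Finset.add_sum_erase _ _ hP]
      have : (if (derivative g).eval P = 0 then 1 else 0) ≤ 1 := by split_ifs <;> omega
      omega
    rw [Finset.sum_add_distrib, ← Finset.card_eq_sum_ones] at h2
    omega

end Pool.Agent.LZ
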