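import Pool.Agent.Lib.MP_79da24_ag.SgD
import Pool.Agent.Lib.MP_79da24_ag.ClS
import Pool.Agent.Lib.MP_79da24_ag.FcA

set_option autoImplicit false

namespace Pool.Agent.LZ

open Polynomial Filter Topology Metric

theorem FcS_natDegree (F : Polynomial (Polynomial ℂ)) (c : ℂ) : (spec c F).natDegree ≤ F.natDegree :=
  natDegree_map_le

theorem FcS_mem {F : Polynomial (Polynomial ℂ)} {c P : ℂ} (hne : spec c F ≠ 0) : P ∈ sg F c ↔ SgP F c P := by
  classical
  rw [sg, Finset.mem_filter]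
  constructor
  · rintro ⟨-, h⟩
    exact h
  · intro h
    refine ⟨?_, h⟩
    rw [Multiset.mem_toFinset, mem_roots hne, IsRoot, eval_spec]
    exact h.1

/-- The degree of the fibre and the multiplicities at the singular points. -/
theorem FcS_sum {F : Polynomial (Polynomial ℂ)} {c : ℂ} (hne : spec c F ≠ 0) :
    nr (spec c F) + ∑ P ∈ sg F c, ((spec c F).rootMultiplicity P - 1) ≤ F.natDegree := by
  classical
  have h1 := (FcA_sum (g := spec c F)).trans (FcS_natDegree F c)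
  refine le_trans ?_ h1
  have h2 : nr (spec c F) = ∑ z ∈ (spec c F).roots.toFinset, 1 := by
    rw [nr, Finset.card_eq_sum_ones]
  have h3 : ∑ P ∈ sg F c, ((spec c F).rootMultiplicity P - 1) =
      ∑ P ∈ (spec c F).roots.toFinset, if SgP F c P then (spec c F).rootMultiplicity P - 1 else 0 := by
    rw [sg, Finset.sum_filter]
  rw [h2, h3, ← Finset.sum_add_distrib]
  refine Finset.sum_le_sum fun z hz => ?_
  have hz' : (spec c F).IsRoot z := (mem_roots hne).1 (Multiset.mem_toFinset.1 hz)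
  have hpos : 0 < (spec c F).rootMultiplicity z := (rootMultiplicity_pos hne).2 hz'
  split_ifs with hd
  · omega
  · omega

/-- (FcS1) the number of the singular points over `c` in terms of the weight. Let `g = spec c F`, `n = F.natDegree ≥ 4`, `W = 3 (n-1)(n-2)`, `ν = n - nr g`, and
real `a, b ≥ 0` with `a (n-3) + b (n-1) ≥ n - 1` and `a / t + b t ≥ 1` for all natural `t ≥ 2`. Then `W #sg ≤ (a + b) W ν - a EE`.
Proof. For `P ∈ sg` let `t_P = e_P - 1 ≥ 1`. `ν ≥ ∑_{P∈sg} t_P` (as in `EE_nonneg`: `n ≥ natDegree g = ∑ e_P`). By definition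
`EE = W (ν - ∑_{P∈sg} 1/t_P) + 6(n-2) #{t_P = 1}` (`sg2` is the set of the `P ∈ sg` with `t_P = 1`), and `6 (n-2) = W · 2/(n-1)`. So
`a EE = a W ν - W ∑_P a φ(t_P)`, `φ(1) = 1 - 2/(n-1) = (n-3)/(n-1)`, `φ(t) = 1/t` for `t ≥ 2`, hence
`(a + b) W ν - a EE = b W ν + W ∑ a φ(t_P) ≥ W ∑_P (b t_P + a φ(t_P)) ≥ W #sg`. -/
theorem card_sg_le {F : Polynomial (Polynomial ℂ)} {S : Finset ℂ} (h : Std F S) (c : ℂ) (hn : 4 ≤ F.natDegree)
    {a b : ℝ} (ha : 0 ≤ a) (hb : 0 ≤ b)
    (h1 : (F.natDegree : ℝ) - 1 ≤ a * ((F.natDegree : ℝ) - 3) + b * ((F.natDegree : ℝ) - 1))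
    (h2 : ∀ t : ℕ, 2 ≤ t → 1 ≤ a / (t : ℝ) + b * (t : ℝ)) :
    3 * ((F.natDegree : ℝ) - 1) * ((F.natDegree : ℝ) - 2) * ((sg F c).card : ℝ) ≤
      (a + b) * (3 * ((F.natDegree : ℝ) - 1) * ((F.natDegree : ℝ) - 2)) * ((F.natDegree : ℝ) - (nr (spec c F) : ℝ)) -
        a * EE F c := by
  classical
  have hne := h.ne c
  have hS := FcS_sum (F := F) (c := c) hne
  obtain ⟨n, hnn⟩ : ∃ n, n = F.natDegree := ⟨_, rfl⟩
  have hc1 : ((F.natDegree - 1 : ℕ) : ℝ) = (F.natDegree : ℝ) - 1 := by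
    rw [Nat.cast_sub (by omega), Nat.cast_one]
  have hc2 : ((F.natDegree - 2 : ℕ) : ℝ) = (F.natDegree : ℝ) - 2 := by
    rw [Nat.cast_sub (by omega), Nat.cast_ofNat]
  have hn4 : (4 : ℝ) ≤ (F.natDegree : ℝ) := by exact_mod_cast hn
  have hS' : (nr (spec c F) : ℝ) + ∑ P ∈ sg F c, (((spec c F).rootMultiplicity P : ℝ) - 1) ≤ (F.natDegree : ℝ) := by
    have h3 : ((nr (spec c F) + ∑ P ∈ sg F c, ((spec c F).rootMultiplicity P - 1) : ℕ) : ℝ) ≤ (F.natDegree : ℝ) := by
      exact_mod_cast hS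
    rw [Nat.cast_add, Nat.cast_sum] at h3
    refine le_trans (le_of_eq ?_) h3
    congr 1
    refine Finset.sum_congr rfl fun P hP => ?_
    have := SgP.two_le hne ((FcS_mem hne).1 hP)
    rw [Nat.cast_sub (by omega), Nat.cast_one]
  have hsg2 : ((sg2 F c).card : ℝ) = ∑ P ∈ sg F c, if (spec c F).rootMultiplicity P = 2 then (1 : ℝ) else 0 := by
    rw [← Finset.sum_filter, Finset.sum_const, nsmul_eq_mul, mul_one]
    congr 2
    ext P
    simp only [sg2, sg, Finset.mem_filter, and_assoc]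
  rw [EE, hc1, hc2, hsg2]
  set N : ℝ := (F.natDegree : ℝ) with hN
  set ν : ℝ := N - (nr (spec c F) : ℝ) with hν
  have hνge : ∑ P ∈ sg F c, (((spec c F).rootMultiplicity P : ℝ) - 1) ≤ ν := by
    rw [hν]; linarith
  have hterm : ∀ P ∈ sg F c, 3 * (N - 1) * (N - 2) ≤
      b * (3 * (N - 1) * (N - 2)) * (((spec c F).rootMultiplicity P : ℝ) - 1) +
        (a * (3 * (N - 1) * (N - 2)) * (1 / (((spec c F).rootMultiplicity P : ℝ) - 1)) -
          6 * a * (N - 2) * (if (spec c F).rootMultiplicity P = 2 then (1 : ℝ) else 0)) := by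
    intro P hP
    have h2e := SgP.two_le hne ((FcS_mem hne).1 hP)
    split_ifs with he
    · rw [he]
      have h5 : 0 ≤ 3 * (N - 2) * (a * (N - 3) + b * (N - 1) - (N - 1)) :=
        mul_nonneg (by linarith) (by linarith)
      norm_num
      nlinarith [h5]
    · obtain ⟨t, ht⟩ : ∃ t : ℕ, (spec c F).rootMultiplicity P = t + 1 :=
        ⟨(spec c F).rootMultiplicity P - 1, by omega⟩
      have ht2 : 2 ≤ t := by omega
      have h6 := h2 t ht2
      rw [ht]
      have h7 : ((t + 1 : ℕ) : ℝ) - 1 = (t : ℝ) := by push_cast; ring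
      rw [h7]
      have h8 : 0 ≤ 3 * (N - 1) * (N - 2) := by
        have : 0 ≤ (N - 1) * (N - 2) := mul_nonneg (by linarith) (by linarith)
        linarith
      have h9 := mul_le_mul_of_nonneg_left h6 h8
      have h10 : 3 * (N - 1) * (N - 2) * (a / (t : ℝ) + b * (t : ℝ)) =
          b * (3 * (N - 1) * (N - 2)) * (t : ℝ) + (a * (3 * (N - 1) * (N - 2)) * (1 / (t : ℝ)) - 6 * a * (N - 2) * 0) := by
        ring
      rw [← h10]
      linarith
  have hsum := Finset.sum_le_sum hterm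
  rw [Finset.sum_const, nsmul_eq_mul, Finset.sum_add_distrib, Finset.sum_sub_distrib, ← Finset.mul_sum,
    ← Finset.mul_sum, ← Finset.mul_sum] at hsum
  have hW : 0 ≤ b * (3 * (N - 1) * (N - 2)) := by
    have : 0 ≤ (N - 1) * (N - 2) := mul_nonneg (by linarith) (by linarith)
    exact mul_nonneg hb (by linarith)
  have h11 := mul_le_mul_of_nonneg_left hνge hW
  nlinarith [hsum, h11]

/-- (FcS2) Proof. A singular point is a multiple root (`SgP`), so `#sg ≤ ` the number of multiple roots; `mult_add_pcm_le` (FcA4). -/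
theorem card_sg_add_le {F : Polynomial (Polynomial ℂ)} {S : Finset ℂ} (h : Std F S) (c : ℂ) (hn : 2 ≤ F.natDegree) :
    (sg F c).card + pcm F.natDegree (spec c F) + nr (spec c F) ≤ F.natDegree + 2 := by
  classical
  have hne := h.ne c
  have h1 := mult_add_pcm_le hne hn (FcS_natDegree F c)
  have h2 : (sg F c).card ≤ ((spec c F).roots.toFinset.filter (fun y => (derivative (spec c F)).eval y = 0)).card := by
    refine Finset.card_le_card fun P hP => ?_
    have hP' := hP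
    rw [sg, Finset.mem_filter] at hP'
    rw [Finset.mem_filter]
    refine ⟨hP'.1, ?_⟩
    have h3 := SgP.two_le hne hP'.2
    exact ((one_lt_rootMultiplicity_iff_isRoot hne).1 h3).2
  omega

/-- (FcS3) Proof. By `h.nr_eq` all roots of `spec z F`, `z ∉ S`, are simple (n distinct roots, degree `≤ n`), so a singular point lies over `S`.
The set is the (injective) image of the disjoint union of the finite sets `sg F c`, `c ∈ S`. -/
theorem sing_count {F : Polynomial (Polynomial ℂ)} {S : Finset ℂ} (h : Std F S) :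
    {p : ℂ × ℂ | SgP F p.1 p.2}.Finite ∧ {p : ℂ × ℂ | SgP F p.1 p.2}.ncard = ∑ c ∈ S, (sg F c).card := by
  classical
  have hmemS : ∀ c P : ℂ, SgP F c P → c ∈ S := by
    intro c P hP
    by_contra hc
    have h1 := h.nr_eq hc
    have hne := h.ne c
    have h2 := FcS_sum (F := F) (c := c) hne
    have h3 : P ∈ sg F c := (FcS_mem hne).2 hP
    have h4 : (spec c F).rootMultiplicity P - 1 ≤ ∑ P ∈ sg F c, ((spec c F).rootMultiplicity P - 1) :=
      Finset.single_le_sum (f := fun P => (spec c F).rootMultiplicity P - 1) (fun _ _ => Nat.zero_le _) h3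
    have h5 := SgP.two_le hne hP
    omega
  have hset : {p : ℂ × ℂ | SgP F p.1 p.2} =
      (((S.sigma fun c => sg F c).image fun x : (Σ _ : ℂ, ℂ) => (x.1, x.2) : Finset (ℂ × ℂ)) : Set (ℂ × ℂ)) := by
    ext p
    simp only [Set.mem_setOf_eq, Finset.coe_image, Set.mem_image, Finset.mem_coe, Finset.mem_sigma]
    constructor
    · intro hp
      exact ⟨⟨p.1, p.2⟩, ⟨hmemS _ _ hp, (FcS_mem (h.ne _)).2 hp⟩, rfl⟩
    · rintro ⟨x, ⟨-, hx⟩, rfl⟩
      exact (FcS_mem (h.ne _)).1 hx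
  rw [hset]
  refine ⟨Finset.finite_toSet _, ?_⟩
  rw [Set.ncard_coe_finset, Finset.card_image_of_injective, Finset.card_sigma]
  rintro ⟨a, b⟩ ⟨a', b'⟩ hab
  simp only [Prod.mk.injEq] at hab
  obtain ⟨rfl, rfl⟩ := hab
  rfl

end Pool.Agent.LZ
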