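import Pool.Agent.Lib.MP_79da24_ag.MiA
import Pool.Agent.Lib.MP_79da24_ag.FcA

set_option autoImplicit false

namespace Pool.Agent.LZ

open Polynomial Filter Topology Metric

/-- (FiA1) arithmetic. Proof. If `B ≤ 1` or `B ≤ r + 1`: direct. In general over `ℤ`, `(B - 1)(D - W) ≤ (r + x)(D - W) = rD - rW + xD - xW ≤ r D` by
`x D ≤ W (r + x)`. (`nlinarith` or case distinction; note `D - W ≥ 0`.) -/
theorem fi_arith {B r x D W : ℕ} (h1 : B ≤ r + 1 + x) (h2 : x * D ≤ W * (r + x)) (h3 : W ≤ D) :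
    B * D + W ≤ (r + 1) * D + B * W := by
  obtain ⟨E, rfl⟩ := Nat.exists_eq_add_of_le h3
  have h4 : B * E ≤ (r + 1 + x) * E := Nat.mul_le_mul_right E h1
  nlinarith [h2, h4]

/-- (FiA2) the main theorem for `F ∈ ℂ[x][Y]`.
Proof. `n = F.natDegree`, `T = {p | F.evalEval p.1 p.2 = 0 ∧ (derivative F).evalEval p.1 p.2 = 0}`, `B = T.ncard`, `W = 3 (n-1)(n-2)`.
Finiteness: `bound_a`. If `D = 0` then `W = 0` and the claim is trivial. If the rank is `≥ ℵ₀` and `D > 0` the right side is infinite: trivial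
(the left side is a natural number). So let the rank be `r : ℕ` (`Cardinal.lt_aleph0`). If `n ≤ 2` then `W = 0` and `bound_a` gives `B + 1 ≤ r + n ≤ r + 2`. Let `n ≥ 3`, `D > 0`.
`S` from `exists_std`. `discr` has positive degree (`hD`), so it has a root `z` (`IsAlgClosed.exists_root`), `z ∈ S` by `mem`. Let `pc c = pcm n (spec c F)`,
`c₀ ∈ S` with maximal `pc` (`Finset.exists_max_image`), `p = pc c₀`; `2 ≤ p ≤ n` (`natDegree (spec c F) ≤ n`: `natDegree_map_le`), and `main_ineq`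
applies (`le_pcm`): `(n-p) D ≤ W ∑_{c ≠ c₀} ν_c`, `ν_c = n - nr (spec c F)`.
`rank_bound_cov (covData_curve F hn S hstd.nr_eq hstd.ne)`: `n |S| + 1 ≤ r + n + ∑_{c∈S} nr (spec c F)` (`{y | (c, y) ∈ curve F}.ncard = nr (spec c F)`, see the proof of
`bound_a` in BA.lean), i.e. `∑_{c∈S} ν_c + 1 ≤ r + n`. By `nr_add_pcm_le` (`Std.nr_lt`) `ν_{c₀} ≥ p - 1`, so `∑_{c ≠ c₀} ν_c ≤ r + (n - p)`.
`B ≤ ∑_{c ∈ S} m_c`, `m_c` = number of the multiple roots of `spec c F` (as in the proof of `bound_a`: over `z ∉ S` all roots are simple);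
`m_c ≤ ν_c` for `c ≠ c₀` (`card_multiple_add_nr_le`), `m_{c₀} + p ≤ ν_{c₀} + 2` (`mult_add_pcm_le`). So `B + p ≤ ∑ ν_c + 2 ≤ r + n + 1`,
`B ≤ r + 1 + x`, `x = n - p`. `fi_arith` with `x`. -/
theorem final_c (F : Polynomial (Polynomial ℂ)) (hF : Irreducible F) (hn : 0 < F.natDegree) (D : ℕ)
    (hD : F.discr.natDegree = D + 2 * (F.natDegree - 1) * F.leadingCoeff.natDegree)
    (hW : 3 * (F.natDegree - 1) * (F.natDegree - 2) ≤ D) :
    {p : ℂ × ℂ | F.evalEval p.1 p.2 = 0 ∧ (derivative F).evalEval p.1 p.2 = 0}.Finite ∧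
    (({p : ℂ × ℂ | F.evalEval p.1 p.2 = 0 ∧ (derivative F).evalEval p.1 p.2 = 0}.ncard * D +
        3 * (F.natDegree - 1) * (F.natDegree - 2) : ℕ) : Cardinal) ≤
      (Module.rank ℚ (H1Q (curve F)) + 1) * (D : Cardinal) +
        (({p : ℂ × ℂ | F.evalEval p.1 p.2 = 0 ∧ (derivative F).evalEval p.1 p.2 = 0}.ncard *
          (3 * (F.natDegree - 1) * (F.natDegree - 2)) : ℕ) : Cardinal) := by
  classical
  have hba := bound_a F hF hn
  refine ⟨hba.1, ?_⟩
  have hba2 := hba.2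
  -- the trivial cases
  rcases Nat.eq_zero_or_pos D with hD0 | hDpos
  · have hW0 : 3 * (F.natDegree - 1) * (F.natDegree - 2) = 0 := by omega
    rw [hW0, hD0]
    simp
  rcases lt_or_ge (Module.rank ℚ (H1Q (curve F))) Cardinal.aleph0 with hlt | hge
  swap
  · refine le_trans (Cardinal.natCast_lt_aleph0.le.trans (hge.trans ?_)) le_self_add
    have h1 : (1 : Cardinal) ≤ (D : Cardinal) := by exact_mod_cast hDpos
    calc Module.rank ℚ (H1Q (curve F)) ≤ Module.rank ℚ (H1Q (curve F)) + 1 := le_self_add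
      _ = (Module.rank ℚ (H1Q (curve F)) + 1) * 1 := (mul_one _).symm
      _ ≤ _ := mul_le_mul_right h1 _
  obtain ⟨r, hr⟩ := Cardinal.lt_aleph0.1 hlt
  rw [hr] at hba2 ⊢
  have hba3 : {p : ℂ × ℂ | F.evalEval p.1 p.2 = 0 ∧ (derivative F).evalEval p.1 p.2 = 0}.ncard + 1 ≤
      r + F.natDegree := by exact_mod_cast hba2
  suffices hmain : {p : ℂ × ℂ | F.evalEval p.1 p.2 = 0 ∧ (derivative F).evalEval p.1 p.2 = 0}.ncard * D +
        3 * (F.natDegree - 1) * (F.natDegree - 2) ≤ (r + 1) * D +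
        {p : ℂ × ℂ | F.evalEval p.1 p.2 = 0 ∧ (derivative F).evalEval p.1 p.2 = 0}.ncard *
          (3 * (F.natDegree - 1) * (F.natDegree - 2)) by
    exact_mod_cast hmain
  rcases Nat.lt_or_ge F.natDegree 3 with hn2 | hn3
  · have hW0 : 3 * (F.natDegree - 1) * (F.natDegree - 2) = 0 := by
      have : F.natDegree - 2 = 0 := by omega
      rw [this, mul_zero]
    rw [hW0, mul_zero, add_zero, add_zero]
    exact Nat.mul_le_mul_right D (by omega)
  -- the main case
  obtain ⟨S, hS⟩ := exists_std F hF hn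
  have hne := hS.ne
  have hcov := covData_curve F hn S (fun c hc => hS.nr_eq hc) hne
  have hrk := rank_bound_cov hcov
  have hdeg : ∀ z, (spec z F).natDegree ≤ F.natDegree := fun z => natDegree_map_le
  have hfib : ∀ c, {y : ℂ | (c, y) ∈ curve F}.ncard = nr (spec c F) := by
    intro c
    have : {y : ℂ | (c, y) ∈ curve F} = ((spec c F).roots.toFinset : Set ℂ) := by
      ext y
      rw [Finset.mem_coe, Multiset.mem_toFinset, mem_roots (hne c)]
      change F.evalEval c y = 0 ↔ (spec c F).eval y = 0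
      rw [eval_spec]
    rw [this, Set.ncard_coe_finset]
    rfl
  let M : ℂ → Finset ℂ := fun c => (spec c F).roots.toFinset.filter (fun y => (derivative (spec c F)).eval y = 0)
  have hM : ∀ c, (M c).card + nr (spec c F) ≤ F.natDegree := fun c =>
    (card_multiple_add_nr_le (spec c F) (hne c)).trans (hdeg c)
  have hmem : ∀ p : ℂ × ℂ, (F.evalEval p.1 p.2 = 0 ∧ (derivative F).evalEval p.1 p.2 = 0) ↔ p.2 ∈ M p.1 := by
    intro p
    rw [Finset.mem_filter, Multiset.mem_toFinset, mem_roots (hne p.1)]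
    have h1 : (derivative (spec p.1 F)).eval p.2 = (derivative F).evalEval p.1 p.2 := by
      rw [← eval_spec]
      simp only [spec, derivative_map]
    rw [h1]
    change _ ↔ (spec p.1 F).eval p.2 = 0 ∧ _
    rw [eval_spec]
  have hnotS : ∀ c, c ∉ S → M c = ∅ := by
    intro c hc
    have h1 := hM c
    rw [hS.nr_eq hc] at h1
    exact Finset.card_eq_zero.1 (by omega)
  let B : Finset (ℂ × ℂ) := S.biUnion fun c => (M c).image fun y => (c, y)
  have hB : {p : ℂ × ℂ | F.evalEval p.1 p.2 = 0 ∧ (derivative F).evalEval p.1 p.2 = 0} = (B : Set (ℂ × ℂ)) := by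
    ext p
    rw [Set.mem_ofPred_eq, hmem p, Finset.mem_coe, Finset.mem_biUnion]
    constructor
    · intro hp
      refine ⟨p.1, ?_, Finset.mem_image.2 ⟨p.2, hp, rfl⟩⟩
      by_contra hc
      rw [hnotS _ hc] at hp
      exact absurd hp (Finset.notMem_empty _)
    · rintro ⟨c, _, hp⟩
      obtain ⟨y, hy, rfl⟩ := Finset.mem_image.1 hp
      exact hy
  rw [hB, Set.ncard_coe_finset]
  have hcard : B.card ≤ ∑ c ∈ S, (M c).card := by
    refine Finset.card_biUnion_le.trans (Finset.sum_le_sum fun c _ => Finset.card_image_le)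
  -- the exceptional set is not empty
  have hdpos : 0 < F.discr.natDegree := by omega
  obtain ⟨z, hz⟩ : ∃ z, F.discr.IsRoot z := by
    refine IsAlgClosed.exists_root _ ?_
    intro h0
    rw [degree_eq_natDegree hS.dne] at h0
    have : F.discr.natDegree = 0 := by exact_mod_cast h0
    omega
  have hzS : z ∈ S := by
    rw [hS.mem, eval_mul, hz.eq_zero, mul_zero]
  obtain ⟨c₀, hc₀, hmax⟩ := Finset.exists_max_image S (fun c => pcm F.natDegree (spec c F)) ⟨z, hzS⟩
  have hp2 : 2 ≤ pcm F.natDegree (spec c₀ F) := le_pcm.1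
  have hpn : pcm F.natDegree (spec c₀ F) ≤ F.natDegree := pcm_le (hne c₀) (by omega) (hdeg c₀)
  have hineq := main_ineq hS hc₀ D hD hp2 hpn (fun c hc =>
    ⟨fun P hP => (le_pcm.2.2 P hP).trans (hmax c hc), le_pcm.2.1.trans (hmax c hc)⟩)
  have hν₀ := nr_add_pcm_le (hne c₀) (by omega) (hdeg c₀) (hS.nr_lt hc₀)
  have hm₀ : (M c₀).card + pcm F.natDegree (spec c₀ F) + nr (spec c₀ F) ≤ F.natDegree + 2 :=
    mult_add_pcm_le (hne c₀) (by omega) (hdeg c₀)
  generalize pcm F.natDegree (spec c₀ F) = p at hp2 hpn hineq hν₀ hm₀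
  rw [← Finset.mul_sum] at hineq
  have hfib' : ∑ c ∈ S, {y : ℂ | (c, y) ∈ curve F}.ncard = ∑ c ∈ S, nr (spec c F) :=
    Finset.sum_congr rfl fun c _ => hfib c
  rw [hfib', hr] at hrk
  have h1 : F.natDegree * S.card + 1 ≤ r + (F.natDegree + ∑ c ∈ S, nr (spec c F)) := by
    exact_mod_cast hrk
  have h2 : ∑ c ∈ S, (F.natDegree - nr (spec c F)) + ∑ c ∈ S, nr (spec c F) = F.natDegree * S.card := by
    rw [← Finset.sum_add_distrib, mul_comm, ← smul_eq_mul, ← Finset.sum_const]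
    refine Finset.sum_congr rfl fun c hc => ?_
    have := hS.nr_lt hc
    omega
  have h3 : (F.natDegree - nr (spec c₀ F)) + ∑ c ∈ S.erase c₀, (F.natDegree - nr (spec c F)) =
      ∑ c ∈ S, (F.natDegree - nr (spec c F)) := Finset.add_sum_erase S (fun c => F.natDegree - nr (spec c F)) hc₀
  have h4 : (M c₀).card + ∑ c ∈ S.erase c₀, (M c).card = ∑ c ∈ S, (M c).card :=
    Finset.add_sum_erase S (fun c => (M c).card) hc₀
  have h5 : ∑ c ∈ S.erase c₀, (M c).card ≤ ∑ c ∈ S.erase c₀, (F.natDegree - nr (spec c F)) := by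
    refine Finset.sum_le_sum fun c _ => ?_
    have := hM c
    omega
  have h6 : ∑ c ∈ S.erase c₀, (F.natDegree - nr (spec c F)) ≤ r + (F.natDegree - p) := by
    omega
  have h7 : B.card ≤ r + 1 + (F.natDegree - p) := by omega
  refine fi_arith h7 (hineq.trans (Nat.mul_le_mul_left _ h6)) hW

end Pool.Agent.LZ
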