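import Pool.Agent.Lib.MP_79da24_ag.FiA
import Pool.Agent.Lib.MP_79da24_ag.Aut
import Pool.Agent.Lib.MP_79da24_ag.Bi

set_option autoImplicit false

namespace Pool.Agent.LZ

open Polynomial Filter Topology Metric

private theorem FiB_toBi0 (a : Polynomial ℂ) :
    toBi (Polynomial.aeval (MvPolynomial.X 0) a) = Polynomial.C a := by
  induction a using Polynomial.induction_on' with
  | add a b ha hb => simp [ha, hb]
  | monomial n a =>
    rw [← Polynomial.C_mul_X_pow_eq_monomial, map_mul, map_mul, map_pow, map_pow,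
      Polynomial.aeval_X, Polynomial.aeval_C]
    have h1 : toBi (MvPolynomial.X 0) = Polynomial.C Polynomial.X := by simp [toBi]
    have h2 : toBi (algebraMap ℂ (MvPolynomial (Fin 2) ℂ) a) = Polynomial.C (Polynomial.C a) := by
      rw [AlgHom.commutes]
      rfl
    rw [h1, h2, ← map_pow, ← map_mul]

private theorem FiB_inf {κ : Cardinal} (hk : Cardinal.aleph0 ≤ κ) (B : ℕ) :
    (B : Cardinal) ≤ 2 * κ + 1 := by
  have h1 : κ ≤ 2 * κ := by
    calc κ = 1 * κ := (one_mul κ).symm
      _ ≤ 2 * κ := by
        gcongr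
        exact one_le_two
  exact (Cardinal.natCast_lt_aleph0.le.trans hk).trans (h1.trans (self_le_add_right _ _))

/-- (FiB1) Proof. `B D + W ≤ (r + 1) D + B W` and `2W ≤ D`: if `D = 0` then `W = 0`; use the hypothesis `h0`. If the rank is infinite: trivial. Otherwise over
`ℤ`, `(B - 1)(D - W) ≤ r D ≤ 2 r (D - W)` and `D - W > 0`, so `B - 1 ≤ 2r`. -/
theorem fi_arith2 {κ : Cardinal} {B D W : ℕ}
    (h : ((B * D + W : ℕ) : Cardinal) ≤ (κ + 1) * (D : Cardinal) + ((B * W : ℕ) : Cardinal)) (hW : 2 * W ≤ D)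
    (h0 : D = 0 → B ≤ 1) : (B : Cardinal) ≤ 2 * κ + 1 := by
  by_cases hk : κ < Cardinal.aleph0
  · obtain ⟨r, rfl⟩ := Cardinal.lt_aleph0.mp hk
    have h' : B * D + W ≤ (r + 1) * D + B * W := by exact_mod_cast h
    have key : B ≤ 2 * r + 1 := by
      rcases Nat.eq_zero_or_pos D with hD | hD
      · have := h0 hD
        omega
      · by_contra hcon
        have hB : 2 * r + 2 ≤ B := by omega
        obtain ⟨c, rfl⟩ := Nat.exists_eq_add_of_le hB
        obtain ⟨E, rfl⟩ := Nat.exists_eq_add_of_le hW
        nlinarith [Nat.zero_le (r * E), Nat.zero_le (c * W), Nat.zero_le (c * E),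
          Nat.zero_le (r * W)]
    exact_mod_cast key
  · exact FiB_inf (not_lt.mp hk) B

/-- (FiB2) the same for `f ∈ ℂ[X₀, X₁]` and its singular points.
Proof. `F = toBi f`. If `F.natDegree = 0` (`= degreeOf 1 f`, `natDegree_toBi`): then `D = 0` (`F = C a`, `F.discr = 1` by `discr_C`, so `0 = D + 0`) and
`W = 0`, so the first inequality is `0 ≤ ...`; finiteness: for `degreeOf 1 f = 0`, `f` is a polynomial in `X₀` only; `singPts_univariate` (Fin.lean) shows `SingPts f = ∅`
(look at its statement). Otherwise `final_c F` (irreducible: `bijective_toBi` as in `final_a1`), the injection `p ↦ (p 0, p 1)` of `SingPts f` into the set `T` there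
(as in `final_a1`, Fin.lean): `N ≤ B`, where `N = (SingPts f).ncard`. `N D + W ≤ (r+1) D + N W` follows from the same for `B ≥ N`, because
`(B - N) W ≤ (B - N) D`: `N D + W + (B-N) D = B D + W ≤ (r+1) D + B W = (r+1) D + N W + (B - N) W ≤ (r+1) D + N W + (B-N) D`; cancel the natural number
`(B-N) D` (in cardinals: `Cardinal.add_le_add_iff_of_lt_aleph0` or treat the infinite rank separately). `rank_H1Q_toBi`.
Second claim: `D = 0 → N ≤ 1`: `D = 0` and `2W ≤ 0` gives `n ≤ 2`; if `n = 2` and `D = 0`... use `final_a1`: `N + 1 ≤ r + n`, hence for `n ≤ 1`: `N ≤ r`; for `n = 2`: `N ≤ r + 1`; so for `n ≤ 2`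
conclude directly `N ≤ r + 1 ≤ 2r + 1` (for `n = 0`: `N = 0`), and for `n ≥ 3` `D > 0` and `fi_arith2` applies. -/
theorem final_c' (f : MvPolynomial (Fin 2) ℂ) (hf : Irreducible f) (D : ℕ)
    (hD : (toBi f).discr.natDegree = D + 2 * ((toBi f).natDegree - 1) * (toBi f).leadingCoeff.natDegree)
    (hW : 3 * ((toBi f).natDegree - 1) * ((toBi f).natDegree - 2) ≤ D) :
    (SingPts f).Finite ∧
    (((SingPts f).ncard * D + 3 * ((toBi f).natDegree - 1) * ((toBi f).natDegree - 2) : ℕ) : Cardinal) ≤
      (Module.rank ℚ (H1Q (Zer f)) + 1) * (D : Cardinal) +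
        (((SingPts f).ncard * (3 * ((toBi f).natDegree - 1) * ((toBi f).natDegree - 2)) : ℕ) : Cardinal) ∧
    (6 * ((toBi f).natDegree - 1) * ((toBi f).natDegree - 2) ≤ D →
      ((SingPts f).ncard : Cardinal) ≤ 2 * Module.rank ℚ (H1Q (Zer f)) + 1) := by
  rcases Nat.eq_zero_or_pos (toBi f).natDegree with hn | hn
  · -- degree zero in `Y`
    obtain ⟨a, ha⟩ : ∃ a : Polynomial ℂ, toBi f = C a :=
      ⟨_, Polynomial.eq_C_of_natDegree_eq_zero hn⟩
    have hfa : f = Polynomial.aeval (MvPolynomial.X 0) a := by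
      apply bijective_toBi.1
      rw [ha, FiB_toBi0]
    have hS : SingPts f = ∅ := singPts_univariate f hf 0 a hfa
    have hD0 : D = 0 := by
      rw [ha, Polynomial.discr_C] at hD
      simp at hD
      omega
    refine ⟨by rw [hS]; exact Set.finite_empty, ?_, fun _ => ?_⟩
    · rw [hS, hn, hD0]
      simp
    · rw [hS]
      simp
  · have hF : Irreducible (toBi f) := by
      have h := MulEquiv.irreducible_iff (AlgEquiv.ofBijective toBi bijective_toBi) (x := f)
      exact h.2 hf
    obtain ⟨h1, h2⟩ := final_c (toBi f) hF hn D hD hW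
    rw [rank_H1Q_toBi] at h2
    set T : Set (ℂ × ℂ) := {p : ℂ × ℂ | (toBi f).evalEval p.1 p.2 = 0 ∧
      (derivative (toBi f)).evalEval p.1 p.2 = 0} with hT
    have hm : ∀ p ∈ SingPts f, (fun p : Fin 2 → ℂ => (p 0, p 1)) p ∈ T := by
      intro p hp
      refine ⟨?_, ?_⟩
      · change (toBi f).evalEval (p 0) (p 1) = 0
        rw [evalEval_toBi]; exact hp.1
      · change (Polynomial.derivative (toBi f)).evalEval (p 0) (p 1) = 0
        rw [derivative_toBi, evalEval_toBi]; exact hp.2 1
    have hinj : Set.InjOn (fun p : Fin 2 → ℂ => (p 0, p 1)) (SingPts f) := by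
      intro p _ q _ hpq
      have h := Prod.mk.inj hpq
      funext i
      fin_cases i
      · exact h.1
      · exact h.2
    have hNB : (SingPts f).ncard ≤ T.ncard := Set.ncard_le_ncard_of_injOn _ hm hinj h1
    have hfin : (SingPts f).Finite := Set.Finite.of_injOn hm hinj h1
    set N := (SingPts f).ncard with hN
    set B := T.ncard with hB
    set W := 3 * ((toBi f).natDegree - 1) * ((toBi f).natDegree - 2) with hWd
    set κ := Module.rank ℚ (H1Q (Zer f)) with hκ
    have h3 : ((N * D + W : ℕ) : Cardinal) ≤ (κ + 1) * (D : Cardinal) + ((N * W : ℕ) : Cardinal) := by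
      by_cases hk : κ < Cardinal.aleph0
      · obtain ⟨r, hr⟩ := Cardinal.lt_aleph0.mp hk
        rw [hr] at h2 ⊢
        have h2' : B * D + W ≤ (r + 1) * D + B * W := by exact_mod_cast h2
        have h3' : N * D + W ≤ (r + 1) * D + N * W := by
          obtain ⟨c, hc⟩ := Nat.exists_eq_add_of_le hNB
          have hcW : c * W ≤ c * D := Nat.mul_le_mul le_rfl hW
          rw [hc] at h2'
          nlinarith
        exact_mod_cast h3'
      · have hk' : Cardinal.aleph0 ≤ κ := not_lt.mp hk
        rcases Nat.eq_zero_or_pos D with hD0 | hD0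
        · have hW0 : W = 0 := by omega
          rw [hD0, hW0]
          simp
        · have h4 : Cardinal.aleph0 ≤ (κ + 1) * (D : Cardinal) := by
            calc Cardinal.aleph0 ≤ κ := hk'
              _ ≤ κ + 1 := self_le_add_right _ _
              _ = (κ + 1) * 1 := (mul_one _).symm
              _ ≤ (κ + 1) * (D : Cardinal) := by
                gcongr
                exact_mod_cast hD0
          exact (Cardinal.natCast_lt_aleph0.le.trans h4).trans (self_le_add_right _ _)
    refine ⟨hfin, h3, fun h6 => ?_⟩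
    have h6' : 2 * W ≤ D := by
      rw [hWd]
      calc 2 * (3 * ((toBi f).natDegree - 1) * ((toBi f).natDegree - 2)) =
          6 * ((toBi f).natDegree - 1) * ((toBi f).natDegree - 2) := by ring
        _ ≤ D := h6
    rcases le_or_gt (toBi f).natDegree 2 with hn2 | hn2
    · have hi : 0 < MvPolynomial.degreeOf 1 f := by rw [← natDegree_toBi]; exact hn
      obtain ⟨-, h7⟩ := final_a1 f hf hi
      rw [← natDegree_toBi, ← hN, ← hκ] at h7
      have h8 : ((N + 1 : ℕ) : Cardinal) ≤ κ + 2 := by
        refine h7.trans ?_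
        gcongr
        exact_mod_cast hn2
      by_cases hk : κ < Cardinal.aleph0
      · obtain ⟨r, hr⟩ := Cardinal.lt_aleph0.mp hk
        rw [hr] at h8 ⊢
        have h9 : N + 1 ≤ r + 2 := by exact_mod_cast h8
        have h10 : N ≤ 2 * r + 1 := by omega
        exact_mod_cast h10
      · exact FiB_inf (not_lt.mp hk) N
    · refine fi_arith2 h3 h6' ?_
      intro hD0
      exfalso
      have h11 : 0 < W := by
        rw [hWd]
        have h12 : 0 < (toBi f).natDegree - 1 := by omega
        have h13 : 0 < (toBi f).natDegree - 2 := by omega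
        positivity
      omega

end Pool.Agent.LZ
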