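import Pool.Agent.Lib.MP_79da24_ag.MiS
import Pool.Agent.Lib.MP_79da24_ag.FcS
import Pool.Agent.Lib.MP_79da24_ag.FiA

set_option autoImplicit false

namespace Pool.Agent.LZ

open Polynomial Filter Topology Metric

/-- The real arithmetic at the end of `final_s`: the combination of the local counts. -/
private theorem FiS_comb {W N s0 X a D n p r v0 : ℝ} (hW : 0 ≤ W)
    (hN : W * (N - s0) ≤ 2 * W * X - a * ((n - p) * D))
    (hs : s0 ≤ v0 + 2 - p) (hX : X + v0 + 1 ≤ r + n) (hv : p - 1 ≤ v0) :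
    W * N ≤ W * (2 * r + 1) + (n - p) * (2 * W - a * D) := by
  have h1 : W * s0 ≤ W * (v0 + 2 - p) := mul_le_mul_of_nonneg_left hs hW
  have h2 : W * X ≤ W * (r + n - 1 - v0) := mul_le_mul_of_nonneg_left (by linarith) hW
  have h3 : W * (p - 1) ≤ W * v0 := mul_le_mul_of_nonneg_left hv hW
  nlinarith [h1, h2, h3, hN]

private theorem FiS_t1 (t : ℕ) (ht : 2 ≤ t) : (1 : ℝ) ≤ (9 / 5) / (t : ℝ) + (1 / 5) * (t : ℝ) := by
  have h0 : (0 : ℝ) < (t : ℝ) := by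
    have : (2 : ℝ) ≤ (t : ℝ) := by exact_mod_cast ht
    linarith
  have h1 : (9 / 5) / (t : ℝ) + (1 / 5) * (t : ℝ) - 1 = ((t : ℝ) ^ 2 - 5 * (t : ℝ) + 9) / (5 * (t : ℝ)) := by
    field_simp
    ring
  have h2 : 0 ≤ ((t : ℝ) ^ 2 - 5 * (t : ℝ) + 9) / (5 * (t : ℝ)) := by
    refine div_nonneg ?_ (by linarith)
    nlinarith [sq_nonneg ((t : ℝ) - 5 / 2)]
  linarith

private theorem FiS_t2 (t : ℕ) (ht : 2 ≤ t) : (1 : ℝ) ≤ (3 / 2) / (t : ℝ) + (1 / 2) * (t : ℝ) := by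
  have h0 : (0 : ℝ) < (t : ℝ) := by
    have : (2 : ℝ) ≤ (t : ℝ) := by exact_mod_cast ht
    linarith
  have h1 : (3 / 2) / (t : ℝ) + (1 / 2) * (t : ℝ) - 1 = ((t : ℝ) ^ 2 - 2 * (t : ℝ) + 3) / (2 * (t : ℝ)) := by
    field_simp
    ring
  have h2 : 0 ≤ ((t : ℝ) ^ 2 - 2 * (t : ℝ) + 3) / (2 * (t : ℝ)) := by
    refine div_nonneg ?_ (by linarith)
    nlinarith [sq_nonneg ((t : ℝ) - 1)]
  linarith

/-- The last step: from the combined inequality to the bound `2 r + 1`. -/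
private theorem FiS_fin {n p r N D : ℕ} (hn : 4 ≤ n) (hp2 : 2 ≤ p) (hpn : p ≤ n)
    (hW : 10 * (n - 1) * (n - 2) ≤ 3 * D)
    (h5 : 5 ≤ n → 3 * ((n : ℝ) - 1) * ((n : ℝ) - 2) * (N : ℝ) ≤ 3 * ((n : ℝ) - 1) * ((n : ℝ) - 2) * (2 * (r : ℝ) + 1) +
      ((n : ℝ) - (p : ℝ)) * (2 * (3 * ((n : ℝ) - 1) * ((n : ℝ) - 2)) - (9 / 5) * (D : ℝ)))
    (h4 : n = 4 → 3 * ((n : ℝ) - 1) * ((n : ℝ) - 2) * (N : ℝ) ≤ 3 * ((n : ℝ) - 1) * ((n : ℝ) - 2) * (2 * (r : ℝ) + 1) +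
      ((n : ℝ) - (p : ℝ)) * (2 * (3 * ((n : ℝ) - 1) * ((n : ℝ) - 2)) - (3 / 2) * (D : ℝ))) :
    N ≤ 2 * r + 1 := by
  have hWr : 10 * ((n : ℝ) - 1) * ((n : ℝ) - 2) ≤ 3 * (D : ℝ) := by
    have h1 : ((10 * (n - 1) * (n - 2) : ℕ) : ℝ) ≤ ((3 * D : ℕ) : ℝ) := by exact_mod_cast hW
    rw [Nat.cast_mul, Nat.cast_mul, Nat.cast_sub (by omega : 1 ≤ n), Nat.cast_sub (by omega : 2 ≤ n)] at h1
    push_cast at h1
    exact h1
  have hnp : (0 : ℝ) ≤ (n : ℝ) - (p : ℝ) := by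
    have : (p : ℝ) ≤ (n : ℝ) := by exact_mod_cast hpn
    linarith
  have hn4 : (4 : ℝ) ≤ (n : ℝ) := by exact_mod_cast hn
  rcases Nat.lt_or_ge n 5 with h | h
  · have hn' : n = 4 := by omega
    subst hn'
    have h6 := h4 rfl
    have hD : (20 : ℝ) ≤ (D : ℝ) := by
      push_cast at hWr
      linarith
    have hnp2 : ((4 : ℕ) : ℝ) - (p : ℝ) ≤ 2 := by
      have : (2 : ℝ) ≤ (p : ℝ) := by exact_mod_cast hp2
      push_cast
      linarith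
    push_cast at h6 hnp hnp2
    have h7 : (4 - (p : ℝ)) * (2 * (3 * (4 - 1) * (4 - 2)) - 3 / 2 * (D : ℝ)) ≤ (4 - (p : ℝ)) * 6 :=
      mul_le_mul_of_nonneg_left (by linarith) hnp
    have h8 : (N : ℝ) < ((2 * r + 2 : ℕ) : ℝ) := by
      push_cast
      linarith
    have h9 : N < 2 * r + 2 := by exact_mod_cast h8
    omega
  · have h6 := h5 h
    have h7 : ((n : ℝ) - (p : ℝ)) * (2 * (3 * ((n : ℝ) - 1) * ((n : ℝ) - 2)) - (9 / 5) * (D : ℝ)) ≤ 0 :=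
      mul_nonpos_of_nonneg_of_nonpos hnp (by linarith)
    have hWpos : 0 < 3 * ((n : ℝ) - 1) * ((n : ℝ) - 2) := by
      have h1 : 0 < (n : ℝ) - 1 := by linarith
      have h2 : 0 < (n : ℝ) - 2 := by linarith
      positivity
    have h8 : 3 * ((n : ℝ) - 1) * ((n : ℝ) - 2) * (N : ℝ) ≤ 3 * ((n : ℝ) - 1) * ((n : ℝ) - 2) * (2 * (r : ℝ) + 1) := by
      linarith
    have h9 : (N : ℝ) ≤ 2 * (r : ℝ) + 1 := le_of_mul_le_mul_left h8 hWpos
    exact_mod_cast h9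

/-- (FiS1) the final count for `F ∈ ℂ[x][Y]`: the bound `2r + 1`.
Proof. `n = F.natDegree`, `N = {p | SgP F p.1 p.2}.ncard ≤ B = {F = ∂_Y F = 0}.ncard` (subset, finite by `bound_a`). If the rank is infinite: trivial. Let it be `r : ℕ`.
`bound_a`: `B + 1 ≤ r + n`. If `n ≤ 2`: `N ≤ r + 1 ≤ 2r + 1`. If `n = 3`: `W = 3·2·1 = 6`, `3D ≥ 20` so `D ≥ 7`. If `r ≥ 1`: `N ≤ r + 2 ≤ 2r + 1`. If `r = 0`: `final_c` gives
`B D + 6 ≤ D + 6 B`, i.e. `(B - 1)(D - 6) ≤ 0`, `B ≤ 1`.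
Let `n ≥ 4`. `S` from `exists_std`; `D > 0` so `discr` has a root and `S` is nonempty; `c₀ ∈ S` with maximal `p = pcm n (spec c₀ F)`; `2 ≤ p ≤ n`; `main_ineq2` (`le_pcm`) gives
`(n-p) D ≤ ∑_{c≠c₀} EE F c` (all this as in the proof of `final_c`, model MP_79da24_ag_FiA.lean in the store). `ν_c = n - nr (spec c F)`; `∑_{c∈S} ν_c + 1 ≤ r + n` (`rank_bound_cov`),
`ν_{c₀} ≥ p - 1` (`nr_add_pcm_le`). `W = 3(n-1)(n-2)`. `sing_count`, `card_sg_le` for `c ≠ c₀`, `card_sg_add_le` for `c₀`: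
`N ≤ (ν_{c₀} + 2 - p) + (a+b) ∑_{c≠c₀} ν_c - a (n-p) D / W`. With `a + b = 2` and `∑_{c≠c₀} ν_c ≤ r + n - 1 - ν_{c₀}`:
`N ≤ 2r + 2n - p - ν_{c₀} - a (n-p) D/W ≤ 2r + 1 + 2(n-p) - a (n-p) D / W`.
If `n ≥ 5`: `a = 9/5`, `b = 1/5` (`h1`: `9(n-3)/5 + (n-1)/5 ≥ n - 1` iff `n ≥ 23/5`; `h2`: `t = 2, 3, 4` by hand, `t/5 ≥ 1` for `t ≥ 5`). `D/W ≥ 10/9` gives `N ≤ 2r + 1`.
If `n = 4`: `a = 3/2`, `b = 1/2` (`h1`: `3/2 + 3/2 ≥ 3`; `h2`: `3/(2t) + t/2 ≥ 1`: for `t = 2`: `7/4`, for `t ≥ 2` clear), `W = 18`, `3D ≥ 60`, `D ≥ 20`: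
`N ≤ 2r + 1 + (n-p)(2 - (3/2)(20/18)) = 2r + 1 + (n-p)/3 ≤ 2r + 1 + 2/3` as `n - p ≤ 2`; so `N ≤ 2r + 1` (integers). -/
theorem final_s (F : Polynomial (Polynomial ℂ)) (hF : Irreducible F) (hn : 0 < F.natDegree) (D : ℕ)
    (hD : F.discr.natDegree = D + 2 * (F.natDegree - 1) * F.leadingCoeff.natDegree)
    (hW : 10 * (F.natDegree - 1) * (F.natDegree - 2) ≤ 3 * D) :
    ({p : ℂ × ℂ | SgP F p.1 p.2}.ncard : Cardinal) ≤ 2 * Module.rank ℚ (H1Q (curve F)) + 1 := by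
  classical
  have hba := bound_a F hF hn
  have hba2 := hba.2
  have hsub : {p : ℂ × ℂ | SgP F p.1 p.2} ⊆
      {p : ℂ × ℂ | F.evalEval p.1 p.2 = 0 ∧ (derivative F).evalEval p.1 p.2 = 0} :=
    fun p hp => ⟨hp.1, hp.2.1⟩
  have hNB : {p : ℂ × ℂ | SgP F p.1 p.2}.ncard ≤
      {p : ℂ × ℂ | F.evalEval p.1 p.2 = 0 ∧ (derivative F).evalEval p.1 p.2 = 0}.ncard :=
    Set.ncard_le_ncard hsub hba.1
  rcases lt_or_ge (Module.rank ℚ (H1Q (curve F))) Cardinal.aleph0 with hlt | hge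
  swap
  · refine le_trans (Cardinal.natCast_lt_aleph0.le.trans (hge.trans ?_)) le_self_add
    calc Module.rank ℚ (H1Q (curve F)) = 1 * Module.rank ℚ (H1Q (curve F)) := (one_mul _).symm
      _ ≤ 2 * Module.rank ℚ (H1Q (curve F)) := mul_le_mul_left one_le_two _
  obtain ⟨r, hr⟩ := Cardinal.lt_aleph0.1 hlt
  rw [hr] at hba2 ⊢
  have hba3 : {p : ℂ × ℂ | F.evalEval p.1 p.2 = 0 ∧ (derivative F).evalEval p.1 p.2 = 0}.ncard + 1 ≤
      r + F.natDegree := by exact_mod_cast hba2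
  suffices hmain : {p : ℂ × ℂ | SgP F p.1 p.2}.ncard ≤ 2 * r + 1 by exact_mod_cast hmain
  rcases Nat.lt_or_ge F.natDegree 3 with hn2 | hn3
  · omega
  rcases Nat.lt_or_ge F.natDegree 4 with hn3' | hn4
  · have hn' : F.natDegree = 3 := by omega
    rcases Nat.eq_zero_or_pos r with hr0 | hrpos
    · rw [hn'] at hW
      have hfc := (final_c F hF hn D hD (by rw [hn']; omega)).2
      rw [hr, hr0, hn'] at hfc
      have hfc2 : {p : ℂ × ℂ | F.evalEval p.1 p.2 = 0 ∧ (derivative F).evalEval p.1 p.2 = 0}.ncard * D +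
          3 * (3 - 1) * (3 - 2) ≤ (0 + 1) * D +
          {p : ℂ × ℂ | F.evalEval p.1 p.2 = 0 ∧ (derivative F).evalEval p.1 p.2 = 0}.ncard *
            (3 * (3 - 1) * (3 - 2)) := by
        exact_mod_cast hfc
      rw [hr0]
      by_contra hc
      have hB2 : 2 ≤ {p : ℂ × ℂ | F.evalEval p.1 p.2 = 0 ∧ (derivative F).evalEval p.1 p.2 = 0}.ncard := by omega
      generalize {p : ℂ × ℂ | F.evalEval p.1 p.2 = 0 ∧ (derivative F).evalEval p.1 p.2 = 0}.ncard = B at hfc2 hB2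
      have hD7 : 7 ≤ D := by omega
      obtain ⟨E, rfl⟩ := Nat.exists_eq_add_of_le hD7
      obtain ⟨C, rfl⟩ := Nat.exists_eq_add_of_le hB2
      ring_nf at hfc2
      nlinarith [Nat.zero_le (C * E)]
    · omega
  -- the main case
  obtain ⟨S, hS⟩ := exists_std F hF hn
  have hne := hS.ne
  have hcov := covData_curve F hn S (fun c hc => hS.nr_eq hc) hne
  have hrk := rank_bound_cov hcov
  have hdeg : ∀ z, (spec z F).natDegree ≤ F.natDegree := fun z => natDegree_map_le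
  have hfib : ∀ c, {y : ℂ | (c, y) ∈ curve F}.ncard = nr (spec c F) := by
    intro c
    have : {y : ℂ | (c, y) ∈ curve F} = ((spec c F).roots.toFinset : Set ℂ) := by
      ext y
      rw [Finset.mem_coe, Multiset.mem_toFinset, mem_roots (hne c)]
      change F.evalEval c y = 0 ↔ (spec c F).eval y = 0
      rw [eval_spec]
    rw [this, Set.ncard_coe_finset]
    rfl
  rw [(sing_count hS).2]
  -- the exceptional set is not empty
  have hdpos : 0 < F.discr.natDegree := by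
    have h1 : 0 < 10 * (F.natDegree - 1) * (F.natDegree - 2) := by
      have : 0 < F.natDegree - 1 := by omega
      have : 0 < F.natDegree - 2 := by omega
      positivity
    omega
  obtain ⟨z, hz⟩ : ∃ z, F.discr.IsRoot z := by
    refine IsAlgClosed.exists_root _ ?_
    intro h0
    rw [degree_eq_natDegree hS.dne] at h0
    have : F.discr.natDegree = 0 := by exact_mod_cast h0
    omega
  have hzS : z ∈ S := by
    rw [hS.mem, eval_mul, hz.eq_zero, mul_zero]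
  obtain ⟨c₀, hc₀, hmax⟩ := Finset.exists_max_image S (fun c => pcm F.natDegree (spec c F)) ⟨z, hzS⟩
  have hp2 : 2 ≤ pcm F.natDegree (spec c₀ F) := le_pcm.1
  have hpn : pcm F.natDegree (spec c₀ F) ≤ F.natDegree := pcm_le (hne c₀) (by omega) (hdeg c₀)
  have hineq := main_ineq2 hS hc₀ D hD hp2 hpn (fun c hc =>
    ⟨fun P hP => (le_pcm.2.2 P hP).trans (hmax c hc), le_pcm.2.1.trans (hmax c hc)⟩)
  have hν₀ := nr_add_pcm_le (hne c₀) (by omega) (hdeg c₀) (hS.nr_lt hc₀)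
  have hm₀ := card_sg_add_le hS c₀ (by omega)
  generalize pcm F.natDegree (spec c₀ F) = p at hp2 hpn hineq hν₀ hm₀
  have hfib' : ∑ c ∈ S, {y : ℂ | (c, y) ∈ curve F}.ncard = ∑ c ∈ S, nr (spec c F) :=
    Finset.sum_congr rfl fun c _ => hfib c
  rw [hfib', hr] at hrk
  have h1 : F.natDegree * S.card + 1 ≤ r + (F.natDegree + ∑ c ∈ S, nr (spec c F)) := by
    exact_mod_cast hrk
  -- real form of the rank bound
  have h2 : ∑ c ∈ S, ((F.natDegree : ℝ) - (nr (spec c F) : ℝ)) =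
      (F.natDegree : ℝ) * (S.card : ℝ) - ∑ c ∈ S, (nr (spec c F) : ℝ) := by
    rw [Finset.sum_sub_distrib, Finset.sum_const, nsmul_eq_mul, mul_comm]
  have h3 : ((F.natDegree : ℝ) - (nr (spec c₀ F) : ℝ)) +
      ∑ c ∈ S.erase c₀, ((F.natDegree : ℝ) - (nr (spec c F) : ℝ)) =
      ∑ c ∈ S, ((F.natDegree : ℝ) - (nr (spec c F) : ℝ)) :=
    Finset.add_sum_erase S (fun c => (F.natDegree : ℝ) - (nr (spec c F) : ℝ)) hc₀
  have h1r : (F.natDegree : ℝ) * (S.card : ℝ) + 1 ≤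
      (r : ℝ) + ((F.natDegree : ℝ) + ∑ c ∈ S, (nr (spec c F) : ℝ)) := by
    exact_mod_cast h1
  have h4 : (((sg F c₀).card : ℕ) : ℝ) + ∑ c ∈ S.erase c₀, ((sg F c).card : ℝ) =
      ((∑ c ∈ S, (sg F c).card : ℕ) : ℝ) := by
    rw [Nat.cast_sum]
    exact Finset.add_sum_erase S (fun c => ((sg F c).card : ℝ)) hc₀
  have hm₀r : (((sg F c₀).card : ℕ) : ℝ) ≤ ((F.natDegree : ℝ) - (nr (spec c₀ F) : ℝ)) + 2 - (p : ℝ) := by
    have : (((sg F c₀).card + p + nr (spec c₀ F) : ℕ) : ℝ) ≤ ((F.natDegree + 2 : ℕ) : ℝ) := by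
      exact_mod_cast hm₀
    push_cast at this
    linarith
  have hν₀r : (p : ℝ) - 1 ≤ (F.natDegree : ℝ) - (nr (spec c₀ F) : ℝ) := by
    have : ((nr (spec c₀ F) + p : ℕ) : ℝ) ≤ ((F.natDegree + 1 : ℕ) : ℝ) := by
      exact_mod_cast hν₀
    push_cast at this
    linarith
  have hineqr : ((F.natDegree : ℝ) - (p : ℝ)) * (D : ℝ) ≤ ∑ c ∈ S.erase c₀, EE F c := by
    rw [← Nat.cast_sub hpn]
    exact hineq
  have hn4r : (4 : ℝ) ≤ (F.natDegree : ℝ) := by exact_mod_cast hn4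
  have hWnn : 0 ≤ 3 * ((F.natDegree : ℝ) - 1) * ((F.natDegree : ℝ) - 2) := by
    have ha1 : 0 ≤ (F.natDegree : ℝ) - 1 := by linarith
    have ha2 : 0 ≤ (F.natDegree : ℝ) - 2 := by linarith
    positivity
  have hkey : ∀ a b : ℝ, 0 ≤ a → 0 ≤ b → a + b = 2 →
      (F.natDegree : ℝ) - 1 ≤ a * ((F.natDegree : ℝ) - 3) + b * ((F.natDegree : ℝ) - 1) →
      (∀ t : ℕ, 2 ≤ t → 1 ≤ a / (t : ℝ) + b * (t : ℝ)) →
      3 * ((F.natDegree : ℝ) - 1) * ((F.natDegree : ℝ) - 2) * ((∑ c ∈ S, (sg F c).card : ℕ) : ℝ) ≤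
        3 * ((F.natDegree : ℝ) - 1) * ((F.natDegree : ℝ) - 2) * (2 * (r : ℝ) + 1) +
        ((F.natDegree : ℝ) - (p : ℝ)) * (2 * (3 * ((F.natDegree : ℝ) - 1) * ((F.natDegree : ℝ) - 2)) - a * (D : ℝ)) := by
    intro a b ha hb hab hc1 hc2
    have h5 : ∑ c ∈ S.erase c₀, 3 * ((F.natDegree : ℝ) - 1) * ((F.natDegree : ℝ) - 2) * ((sg F c).card : ℝ) ≤
        ∑ c ∈ S.erase c₀, ((a + b) * (3 * ((F.natDegree : ℝ) - 1) * ((F.natDegree : ℝ) - 2)) *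
          ((F.natDegree : ℝ) - (nr (spec c F) : ℝ)) - a * EE F c) :=
      Finset.sum_le_sum fun c _ => card_sg_le hS c hn4 ha hb hc1 hc2
    rw [← Finset.mul_sum, Finset.sum_sub_distrib, ← Finset.mul_sum, ← Finset.mul_sum, hab] at h5
    have h6 : a * (((F.natDegree : ℝ) - (p : ℝ)) * (D : ℝ)) ≤ a * ∑ c ∈ S.erase c₀, EE F c :=
      mul_le_mul_of_nonneg_left hineqr ha
    refine FiS_comb (s0 := (((sg F c₀).card : ℕ) : ℝ))
      (X := ∑ c ∈ S.erase c₀, ((F.natDegree : ℝ) - (nr (spec c F) : ℝ)))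
      (v0 := (F.natDegree : ℝ) - (nr (spec c₀ F) : ℝ)) hWnn ?_ hm₀r ?_ hν₀r
    · have h7 : ((∑ c ∈ S, (sg F c).card : ℕ) : ℝ) - (((sg F c₀).card : ℕ) : ℝ) =
          ∑ c ∈ S.erase c₀, ((sg F c).card : ℝ) := by linarith
      rw [h7]
      linarith
    · linarith
  refine FiS_fin hn4 hp2 hpn hW (fun h5 => ?_) (fun h4' => ?_)
  · have h5r : (5 : ℝ) ≤ (F.natDegree : ℝ) := by exact_mod_cast h5
    exact hkey (9 / 5) (1 / 5) (by norm_num) (by norm_num) (by norm_num) (by linarith) FiS_t1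
  · have h4r : (F.natDegree : ℝ) = 4 := by exact_mod_cast h4'
    exact hkey (3 / 2) (1 / 2) (by norm_num) (by norm_num) (by norm_num) (by rw [h4r]; norm_num) FiS_t2

end Pool.Agent.LZ
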