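import Pool.Agent.Lib.MP_79da24_ag.FiS
import Pool.Agent.Lib.MP_79da24_ag.FiB

set_option autoImplicit false

namespace Pool.Agent.LZ

open Polynomial Filter Topology Metric

private theorem FiT_deriv (f : MvPolynomial (Fin 2) ℂ) (b : ℂ) : ∀ x : ℂ,
    HasDerivAt (fun x => MvPolynomial.eval ![x, b] f)
      (MvPolynomial.eval ![x, b] (MvPolynomial.pderiv 0 f)) x := by
  induction f using MvPolynomial.induction_on with
  | C a =>
    intro x
    simp only [MvPolynomial.eval_C, MvPolynomial.pderiv_C, map_zero]
    exact hasDerivAt_const x a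
  | add f g hf hg =>
    intro x
    simp only [map_add]
    exact (hf x).add (hg x)
  | mul_X f i hf =>
    intro x
    have h1 : HasDerivAt (fun x : ℂ => ![x, b] i)
        (MvPolynomial.eval ![x, b] (MvPolynomial.pderiv 0 (MvPolynomial.X i : MvPolynomial (Fin 2) ℂ))) x := by
      fin_cases i
      · simpa using hasDerivAt_id' x
      · simpa [MvPolynomial.pderiv_X] using hasDerivAt_const x b
    have h2 := (hf x).mul h1
    have e1 : (fun x => MvPolynomial.eval ![x, b] (f * MvPolynomial.X i)) =
        (fun x => MvPolynomial.eval ![x, b] f) * fun x : ℂ => ![x, b] i := by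
      funext y
      simp
    rw [e1, Derivation.leibniz]
    refine h2.congr_deriv ?_
    simp only [smul_eq_mul, map_add, map_mul, MvPolynomial.eval_X]
    ring

/-- (FiT1) Proof. `(toBi f).evalEval (p 0) (p 1) = eval p f` (`evalEval_toBi`), `derivative_toBi` for `∂_Y`, and
`x ↦ (toBi f).evalEval x (p 1) = eval ![x, p 1] f` has derivative `eval p (pderiv 0 f)` at `x = p 0` (prove `HasDerivAt` by
`MvPolynomial.induction_on`, or differentiate the polynomial `aeval (fun i => if i = 0 then X else C (p 1)) f ∈ ℂ[X]`, whose derivative is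
the image of `pderiv 0 f`: `Derivation`/`MvPolynomial.derivation_eq_of_forall_mem_vars`-type argument or induction). -/
theorem sgP_toBi (f : MvPolynomial (Fin 2) ℂ) (p : Fin 2 → ℂ) :
    SgP (toBi f) (p 0) (p 1) ↔ p ∈ SingPts f := by
  have h1 : (toBi f).evalEval (p 0) (p 1) = MvPolynomial.eval p f := evalEval_toBi f p
  have h2 : (derivative (toBi f)).evalEval (p 0) (p 1) =
      MvPolynomial.eval p (MvPolynomial.pderiv 1 f) := by
    rw [derivative_toBi, evalEval_toBi]
  have hp : ![p 0, p 1] = p := by
    funext i
    fin_cases i <;> rfl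
  have h3 : deriv (fun x => (toBi f).evalEval x (p 1)) (p 0) =
      MvPolynomial.eval p (MvPolynomial.pderiv 0 f) := by
    have h4 : (fun x => (toBi f).evalEval x (p 1)) = fun x => MvPolynomial.eval ![x, p 1] f := by
      funext x
      have := evalEval_toBi f ![x, p 1]
      simpa using this
    rw [h4, (FiT_deriv f (p 1) (p 0)).deriv, hp]
  unfold SgP SingPts
  rw [h1, h2, h3]
  simp only [Set.mem_ofPred_eq, Fin.forall_fin_two]
  tauto

/-- (FiT2) Proof. If `(toBi f).natDegree = 0` then `SingPts f = ∅` as in FiB (`final_c'`; model MP_79da24_ag_FiB.lean in the store). Otherwise `final_s (toBi f)`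
(irreducible as in `final_a1`), `rank_H1Q_toBi`, and the bijection `p ↦ (p 0, p 1)` of `SingPts f` with `{p | SgP (toBi f) p.1 p.2}` (FiT1). -/
theorem final_s' (f : MvPolynomial (Fin 2) ℂ) (hf : Irreducible f) (D : ℕ)
    (hD : (toBi f).discr.natDegree = D + 2 * ((toBi f).natDegree - 1) * (toBi f).leadingCoeff.natDegree)
    (hW : 10 * ((toBi f).natDegree - 1) * ((toBi f).natDegree - 2) ≤ 3 * D) :
    ((SingPts f).ncard : Cardinal) ≤ 2 * Module.rank ℚ (H1Q (Zer f)) + 1 := by
  rcases Nat.eq_zero_or_pos (toBi f).natDegree with hn | hn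
  · obtain ⟨a, ha⟩ : ∃ a : Polynomial ℂ, toBi f = C a :=
      ⟨_, Polynomial.eq_C_of_natDegree_eq_zero hn⟩
    have hfa : f = Polynomial.aeval (MvPolynomial.X 0) a := by
      apply bijective_toBi.1
      rw [ha]
      symm
      clear ha hn hD hW
      induction a using Polynomial.induction_on' with
      | add a b ha hb => simp [ha, hb]
      | monomial n a =>
        rw [← Polynomial.C_mul_X_pow_eq_monomial, map_mul, map_mul, map_pow, map_pow,
          Polynomial.aeval_X, Polynomial.aeval_C]
        have h1 : toBi (MvPolynomial.X 0) = Polynomial.C Polynomial.X := by simp [toBi]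
        have h2 : toBi (algebraMap ℂ (MvPolynomial (Fin 2) ℂ) a) = Polynomial.C (Polynomial.C a) := by
          rw [AlgHom.commutes]
          rfl
        rw [h1, h2, ← map_pow, ← map_mul]
    have hS : SingPts f = ∅ := singPts_univariate f hf 0 a hfa
    rw [hS]
    simp
  · have hF : Irreducible (toBi f) := by
      have h := MulEquiv.irreducible_iff (AlgEquiv.ofBijective toBi bijective_toBi) (x := f)
      exact h.2 hf
    have h1 := final_s (toBi f) hF hn D hD hW
    rw [rank_H1Q_toBi] at h1
    have hinj : Set.InjOn (fun p : Fin 2 → ℂ => (p 0, p 1)) (SingPts f) := by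
      intro p _ q _ hpq
      have h := Prod.mk.inj hpq
      funext i
      fin_cases i
      · exact h.1
      · exact h.2
    have hT : {p : ℂ × ℂ | SgP (toBi f) p.1 p.2} = (fun p : Fin 2 → ℂ => (p 0, p 1)) '' SingPts f := by
      ext ⟨a, b⟩
      constructor
      · intro h
        refine ⟨![a, b], ?_, by simp⟩
        exact (sgP_toBi f ![a, b]).mp h
      · rintro ⟨p, hp, hpab⟩
        have h2 := (sgP_toBi f p).mpr hp
        have h3 := Prod.mk.inj hpab
        change SgP (toBi f) a b
        rw [← h3.1, ← h3.2]
        exact h2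
    rw [hT, Set.ncard_image_of_injOn hinj] at h1
    exact h1

end Pool.Agent.LZ
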