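import Pool.Agent.Lib.MP_79da24_ag.Bi
import Pool.Agent.Lib.MP_79da24_ag.BA
import Pool.Agent.Lib.MP_79da24_ag.BB
import Pool.Agent.Lib.MP_79da24_ag.HI

set_option autoImplicit false

/-!
# The final theorems.
-/

namespace Pool.Agent.LZ


open MvPolynomial

/-- (FIN-1)
Proof. `F = toBi f`: irreducible because `toBi` is a ring isomorphism (`MulEquiv.irreducible_iff` with `bijective_toBi`, `AlgEquiv.ofBijective`), natDegree
`= degreeOf 1 f > 0`. The map `p ↦ (p 0, p 1)` is injective and sends `SingPts f` into `{p | F.evalEval p.1 p.2 = 0 ∧ (derivative F).evalEval p.1 p.2 = 0}`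
(`evalEval_toBi`, `derivative_toBi`); so finiteness and `ncard ≤` (`Set.Finite.of_injOn`/`Set.Finite.of_finite_image`, `Set.ncard_le_ncard_of_injOn`).
Then `bound_a` and `rank_H1Q_toBi`. -/
theorem final_a1 (f : MvPolynomial (Fin 2) ℂ) (hf : Irreducible f) (hi : 0 < degreeOf 1 f) :
    (SingPts f).Finite ∧ (((SingPts f).ncard + 1 : ℕ) : Cardinal) ≤
      Module.rank ℚ (H1Q (Zer f)) + (degreeOf 1 f : Cardinal) := by
  have hF : Irreducible (toBi f) := by
    have h := MulEquiv.irreducible_iff (AlgEquiv.ofBijective toBi bijective_toBi) (x := f)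
    exact h.2 hf
  have hn : 0 < (toBi f).natDegree := by rw [natDegree_toBi]; exact hi
  obtain ⟨h1, h2⟩ := bound_a (toBi f) hF hn
  rw [rank_H1Q_toBi, natDegree_toBi] at h2
  have hm : ∀ p ∈ SingPts f, (fun p : Fin 2 → ℂ => (p 0, p 1)) p ∈
      {p : ℂ × ℂ | (toBi f).evalEval p.1 p.2 = 0 ∧
        (Polynomial.derivative (toBi f)).evalEval p.1 p.2 = 0} := by
    intro p hp
    refine ⟨?_, ?_⟩
    · change (toBi f).evalEval (p 0) (p 1) = 0
      rw [evalEval_toBi]; exact hp.1
    · change (Polynomial.derivative (toBi f)).evalEval (p 0) (p 1) = 0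
      rw [derivative_toBi, evalEval_toBi]; exact hp.2 1
  have hinj : Set.InjOn (fun p : Fin 2 → ℂ => (p 0, p 1)) (SingPts f) := by
    intro p _ q _ hpq
    have h := Prod.mk.inj hpq
    funext i
    fin_cases i
    · exact h.1
    · exact h.2
  refine ⟨Set.Finite.of_injOn hm hinj h1, ?_⟩
  refine le_trans ?_ h2
  have h3 := Set.ncard_le_ncard_of_injOn _ hm hinj h1
  exact_mod_cast Nat.succ_le_succ h3

/-- (FIN-2)
Proof. `i = 1` is FIN-1. For `i = 0` apply FIN-1 to `g = rename (Equiv.swap 0 1) f`: irreducible (`renameEquiv`), `degreeOf 1 g = degreeOf 0 f`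
(`degreeOf_rename_of_injective`), `eval p g = eval (p ∘ swap) f` (`eval_rename`), `pderiv (swap i) g = rename swap (pderiv i f)` (`pderiv_rename`), so
`SingPts g` is the image of `SingPts f` under the involution `p ↦ p ∘ swap`, and `Zer g ≃ₜ Zer f` by the same involution, `rank_H1Q_homeo`. -/
theorem final_a (f : MvPolynomial (Fin 2) ℂ) (hf : Irreducible f) (i : Fin 2)
    (hi : 0 < degreeOf i f) :
    (SingPts f).Finite ∧ (((SingPts f).ncard + 1 : ℕ) : Cardinal) ≤
      Module.rank ℚ (H1Q (Zer f)) + (degreeOf i f : Cardinal) := by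
  by_cases hi1 : i = 1
  · subst hi1
    exact final_a1 f hf hi
  have hi0 : i = 0 := by
    fin_cases i
    · rfl
    · exact absurd rfl hi1
  subst hi0
  set σ : Equiv.Perm (Fin 2) := Equiv.swap 0 1 with hσ
  have hσ0 : σ 0 = 1 := Equiv.swap_apply_left 0 1
  have hσσ : ∀ j, σ (σ j) = j := fun j => by rw [hσ]; exact Equiv.swap_apply_self 0 1 j
  have hev : ∀ p : Fin 2 → ℂ, eval p (rename σ f) = eval (p ∘ σ) f := fun p => eval_rename _ _ _
  have hpd : ∀ (j : Fin 2) (p : Fin 2 → ℂ), eval p (pderiv j (rename σ f)) =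
      eval (p ∘ σ) (pderiv (σ j) f) := by
    intro j p
    have h := pderiv_rename (R := ℂ) σ.injective (σ j) f
    rw [hσσ] at h
    rw [h, eval_rename]
  have hg : Irreducible (rename σ f) := by
    have h := MulEquiv.irreducible_iff (renameEquiv ℂ σ) (x := f)
    exact h.2 hf
  have hd : degreeOf 1 (rename σ f) = degreeOf 0 f := by
    have h := degreeOf_rename_of_injective (p := f) σ.injective 0
    rw [hσ0] at h
    exact h
  obtain ⟨h1, h2⟩ := final_a1 (rename σ f) hg (by rw [hd]; exact hi)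
  rw [hd] at h2
  have hinv : ∀ p : Fin 2 → ℂ, (p ∘ σ) ∘ σ = p := by
    intro p
    funext j
    exact congrArg p (hσσ j)
  have hm : ∀ p ∈ SingPts f, (fun p : Fin 2 → ℂ => p ∘ σ) p ∈ SingPts (rename σ f) := by
    intro p hp
    refine ⟨?_, fun j => ?_⟩
    · change eval (p ∘ σ) (rename σ f) = 0
      rw [hev, hinv]; exact hp.1
    · change eval (p ∘ σ) (pderiv j (rename σ f)) = 0
      rw [hpd, hinv]; exact hp.2 (σ j)
  have hinj : Set.InjOn (fun p : Fin 2 → ℂ => p ∘ σ) (SingPts f) := by
    intro p _ q _ hpq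
    have h : (p ∘ σ) ∘ σ = (q ∘ σ) ∘ σ := congrArg (fun r : Fin 2 → ℂ => r ∘ σ) hpq
    rw [hinv, hinv] at h
    exact h
  let e : Zer (rename σ f) ≃ₜ Zer f :=
    { toFun := fun z => ⟨z.1 ∘ σ, by rw [← hev]; exact z.2⟩
      invFun := fun z => ⟨z.1 ∘ σ, by rw [hev, hinv]; exact z.2⟩
      left_inv := fun z => Subtype.ext (hinv z.1)
      right_inv := fun z => Subtype.ext (hinv z.1)
      continuous_toFun := by
        refine Continuous.subtype_mk ?_ _
        exact continuous_pi (fun j => (continuous_apply (σ j)).comp continuous_subtype_val)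
      continuous_invFun := by
        refine Continuous.subtype_mk ?_ _
        exact continuous_pi (fun j => (continuous_apply (σ j)).comp continuous_subtype_val) }
  rw [rank_H1Q_homeo e] at h2
  refine ⟨Set.Finite.of_injOn hm hinj h1, ?_⟩
  refine le_trans ?_ h2
  have h3 := Set.ncard_le_ncard_of_injOn _ hm hinj h1
  exact_mod_cast Nat.succ_le_succ h3




open MvPolynomial

private theorem Fin2_eval (p : Fin 2 → ℂ) (i : Fin 2) (h : Polynomial ℂ) :
    eval p (Polynomial.aeval (X i) h) = h.eval (p i) := by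
  induction h using Polynomial.induction_on' with
  | add a b ha hb => simp [ha, hb]
  | monomial n a => simp [Polynomial.aeval_monomial]

private theorem Fin2_pd (i j : Fin 2) (h : Polynomial ℂ) :
    pderiv i (Polynomial.aeval (X j : MvPolynomial (Fin 2) ℂ) h) =
      Polynomial.aeval (X j) (Polynomial.derivative h) * pderiv i (X j) := by
  rw [Derivation.map_aeval, smul_eq_mul]

private theorem Fin2_unit (p : Fin 2 → ℂ) (g : MvPolynomial (Fin 2) ℂ) (hg : IsUnit g) :
    eval p g ≠ 0 := (hg.map (eval p)).ne_zero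

/-- (FIN-3)
Proof. Suppose `p ∈ SingPts f`. `eval p (aeval (X i) h) = h.eval (p i) = 0` and `pderiv i f = aeval (X i) (derivative h)` gives
`(derivative h).eval (p i) = 0`. So `h = (X - C (p i))^2 * k` (`h ≠ 0`: root multiplicity ≥ 2, or: `h = (X - C r) * q`, `h' = q + (X - C r) q'`, so `q.eval r = 0`,
`q = (X - C r) * k`). Then `f = (X i - C r) * ((X i - C r) * aeval (X i) k)` with `X i - C r` vanishing at `p`, so not a unit; the second factor vanishes
at `p` too so it is not a unit either: contradiction with irreducibility. (`IsUnit g → eval p g ≠ 0` as `eval p` is a ring hom.) -/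
theorem singPts_univariate (f : MvPolynomial (Fin 2) ℂ) (hf : Irreducible f) (i : Fin 2)
    (h : Polynomial ℂ) (hh : f = Polynomial.aeval (X i) h) : SingPts f = ∅ := by
  refine Set.eq_empty_iff_forall_notMem.mpr ?_
  rintro p ⟨h0, h1⟩
  have e0 : h.eval (p i) = 0 := by rw [← Fin2_eval, ← hh]; exact h0
  have e1 : (Polynomial.derivative h).eval (p i) = 0 := by
    have := h1 i
    rw [hh, Fin2_pd, map_mul, Fin2_eval] at this
    simpa using this
  obtain ⟨q, hq⟩ := Polynomial.dvd_iff_isRoot.mpr e0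
  have e2 : q.eval (p i) = 0 := by
    rw [hq, Polynomial.derivative_mul] at e1
    simpa using e1
  have hfac : f = Polynomial.aeval (X i) (Polynomial.X - Polynomial.C (p i)) *
      Polynomial.aeval (X i) q := by
    rw [hh, ← map_mul, ← hq]
  rcases hf.isUnit_or_isUnit hfac with hu | hu
  · apply Fin2_unit p _ hu
    rw [Fin2_eval]
    simp
  · apply Fin2_unit p _ hu
    rw [Fin2_eval, e2]

private theorem Fin2_gcd (f : MvPolynomial (Fin 2) ℂ) (hf : Irreducible f) (i : Fin 2)
    (h : Polynomial ℂ) (g : MvPolynomial (Fin 2) ℂ) (hfg : f = Polynomial.aeval (X i) h * g)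
    (hh : ¬ IsUnit h) : SingPts f = ∅ := by
  have h0 : h ≠ 0 := by
    rintro rfl
    apply hf.ne_zero
    rw [hfg]
    simp
  rcases hf.isUnit_or_isUnit hfg with hu | hu
  · exfalso
    have hd : h.degree ≠ 0 := fun hd => hh (Polynomial.isUnit_iff_degree_eq_zero.mpr hd)
    obtain ⟨r, hr⟩ := IsAlgClosed.exists_root h hd
    apply Fin2_unit (fun _ => r) _ hu
    rw [Fin2_eval]
    exact hr
  · obtain ⟨κ, hκ, hg⟩ := MvPolynomial.isUnit_iff_eq_C_of_isReduced.mp hu
    apply singPts_univariate f hf i (h * Polynomial.C κ)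
    rw [hfg, hg, map_mul, Polynomial.aeval_C]
    rfl

private theorem Fin2_dvd {a c : Polynomial ℂ} (hac : ¬ IsCoprime a c) :
    ∃ h a' c' : Polynomial ℂ, ¬ IsUnit h ∧ a = h * a' ∧ c = h * c' := by
  refine ⟨EuclideanDomain.gcd a c, ?_⟩
  obtain ⟨a', ha⟩ := EuclideanDomain.gcd_dvd_left a c
  obtain ⟨c', hc⟩ := EuclideanDomain.gcd_dvd_right a c
  refine ⟨a', c', ?_, ha, hc⟩
  rw [EuclideanDomain.gcd_isUnit_iff]
  exact hac

private theorem Fin2_toBi0 (a : Polynomial ℂ) :
    toBi (Polynomial.aeval (X 0) a) = Polynomial.C a := by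
  induction a using Polynomial.induction_on' with
  | add a b ha hb => simp [ha, hb]
  | monomial n a =>
    rw [← Polynomial.C_mul_X_pow_eq_monomial, map_mul, map_mul, map_pow, map_pow,
      Polynomial.aeval_X, Polynomial.aeval_C]
    have h1 : toBi (X 0) = Polynomial.C Polynomial.X := by simp [toBi]
    have h2 : toBi (algebraMap ℂ (MvPolynomial (Fin 2) ℂ) a) = Polynomial.C (Polynomial.C a) := by
      rw [AlgHom.commutes]
      rfl
    rw [h1, h2, ← map_pow, ← map_mul]

private theorem Fin2_toBi1 (b : Polynomial ℂ) :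
    toBi (Polynomial.aeval (X 1) b) = b.map Polynomial.C := by
  induction b using Polynomial.induction_on' with
  | add a b ha hb => simp [ha, hb]
  | monomial n a =>
    rw [← Polynomial.C_mul_X_pow_eq_monomial, map_mul, map_mul, map_pow, map_pow,
      Polynomial.aeval_X, Polynomial.aeval_C]
    have h1 : toBi (X 1) = Polynomial.X := by simp [toBi]
    have h2 : toBi (algebraMap ℂ (MvPolynomial (Fin 2) ℂ) a) = Polynomial.C (Polynomial.C a) := by
      rw [AlgHom.commutes]
      rfl
    rw [h1, h2]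
    simp

private theorem Fin2_empty (f : MvPolynomial (Fin 2) ℂ) (h : SingPts f = ∅) :
    (SingPts f).Finite ∧ ((SingPts f).ncard : Cardinal) ≤ Module.rank ℚ (H1Q (Zer f)) + 1 := by
  rw [h]
  refine ⟨Set.finite_empty, ?_⟩
  simp

/-- (FIN-4)
Proof. If `a, c` are not coprime: `h = gcd a c` (EuclideanDomain) is not a unit (and `≠ 0`, else `f = 0`): `a = h a₁`, `c = h c₁`, so
`f = aeval (X 0) h * g` with `g = aeval (X 0) a₁ * aeval (X 1) b - aeval (X 0) c₁ * aeval (X 1) d`. `aeval (X 0) h` is not a unit (a nonconstant `h` has a root `r`: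
it vanishes at points with `p 0 = r`), so `g` is a unit, hence a constant `C κ` (`MvPolynomial.isUnit_iff_eq_C_of_isReduced`-like, or totalDegree), and
`f = aeval (X 0) (C κ * h)`; FIN-3: `SingPts f = ∅`. Same if `b, d` are not coprime (with `X 1`). If `max a.natDegree c.natDegree = 0` then `a, c` are constants
and `f = aeval (X 1) (C a₀ * b - C c₀ * d)`: FIN-3. Same for `b, d`. In the remaining case `toBi f = FF a b c d`
(`toBi (aeval (X 0) a) = C a`, `toBi (aeval (X 1) b) = b.map C`), and `p ↦ (p 0, p 1)` maps `SingPts f` injectively into the set of `bound_b_core`: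
`eval p (aeval (X 0) a) = a.eval (p 0)`, `pderiv 0 f = aeval (X 0) a' * aeval (X 1) b - aeval (X 0) c' * aeval (X 1) d`, and similarly `pderiv 1 f`.
Conclude with `rank_H1Q_toBi`. -/
theorem final_b (f : MvPolynomial (Fin 2) ℂ) (hf : Irreducible f) (a b c d : Polynomial ℂ)
    (h : f = Polynomial.aeval (X 0) a * Polynomial.aeval (X 1) b -
      Polynomial.aeval (X 0) c * Polynomial.aeval (X 1) d) :
    (SingPts f).Finite ∧ ((SingPts f).ncard : Cardinal) ≤ Module.rank ℚ (H1Q (Zer f)) + 1 := by
  by_cases hac : IsCoprime a c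
  swap
  · obtain ⟨k, a', c', hk, ha, hc⟩ := Fin2_dvd hac
    apply Fin2_empty
    refine Fin2_gcd f hf 0 k (Polynomial.aeval (X 0) a' * Polynomial.aeval (X 1) b -
      Polynomial.aeval (X 0) c' * Polynomial.aeval (X 1) d) ?_ hk
    rw [h, ha, hc, map_mul, map_mul]
    ring
  by_cases hbd : IsCoprime b d
  swap
  · obtain ⟨k, b', d', hk, hb, hd⟩ := Fin2_dvd hbd
    apply Fin2_empty
    refine Fin2_gcd f hf 1 k (Polynomial.aeval (X 0) a * Polynomial.aeval (X 1) b' -
      Polynomial.aeval (X 0) c * Polynomial.aeval (X 1) d') ?_ hk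
    rw [h, hb, hd, map_mul, map_mul]
    ring
  by_cases hm : 1 ≤ max a.natDegree c.natDegree
  swap
  · have ha : a.natDegree = 0 := by
      have := le_max_left a.natDegree c.natDegree
      omega
    have hc : c.natDegree = 0 := by
      have := le_max_right a.natDegree c.natDegree
      omega
    apply Fin2_empty
    apply singPts_univariate f hf 1 (Polynomial.C (a.coeff 0) * b - Polynomial.C (c.coeff 0) * d)
    rw [h, map_sub, map_mul, map_mul, Polynomial.aeval_C, Polynomial.aeval_C]
    nth_rewrite 1 [Polynomial.eq_C_of_natDegree_eq_zero ha]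
    nth_rewrite 1 [Polynomial.eq_C_of_natDegree_eq_zero hc]
    rw [Polynomial.aeval_C, Polynomial.aeval_C]
  by_cases hn : 1 ≤ max b.natDegree d.natDegree
  swap
  · have hb : b.natDegree = 0 := by
      have := le_max_left b.natDegree d.natDegree
      omega
    have hd : d.natDegree = 0 := by
      have := le_max_right b.natDegree d.natDegree
      omega
    apply Fin2_empty
    apply singPts_univariate f hf 0 (a * Polynomial.C (b.coeff 0) - c * Polynomial.C (d.coeff 0))
    rw [h, map_sub, map_mul, map_mul, Polynomial.aeval_C, Polynomial.aeval_C]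
    nth_rewrite 1 [Polynomial.eq_C_of_natDegree_eq_zero hb]
    nth_rewrite 1 [Polynomial.eq_C_of_natDegree_eq_zero hd]
    rw [Polynomial.aeval_C, Polynomial.aeval_C]
  have hFF : toBi f = FF a b c d := by
    rw [h, map_sub, map_mul, map_mul, Fin2_toBi0, Fin2_toBi0, Fin2_toBi1, Fin2_toBi1]
    rfl
  obtain ⟨hfin, hcard⟩ := bound_b_core a b c d hac hbd _ _ rfl rfl hm hn
  rw [← hFF, rank_H1Q_toBi] at hcard
  have hinj : Function.Injective (fun p : Fin 2 → ℂ => (p 0, p 1)) := by
    intro p q hpq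
    have h0 := congrArg Prod.fst hpq
    have h1 := congrArg Prod.snd hpq
    funext i
    fin_cases i
    · exact h0
    · exact h1
  have hmaps : Set.MapsTo (fun p : Fin 2 → ℂ => (p 0, p 1)) (SingPts f)
      {p : ℂ × ℂ | a.eval p.1 * b.eval p.2 = c.eval p.1 * d.eval p.2 ∧
      (Polynomial.derivative a).eval p.1 * b.eval p.2 =
        (Polynomial.derivative c).eval p.1 * d.eval p.2 ∧
      a.eval p.1 * (Polynomial.derivative b).eval p.2 =
        c.eval p.1 * (Polynomial.derivative d).eval p.2} := by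
    rintro p ⟨h0, h1⟩
    refine ⟨?_, ?_, ?_⟩
    · rw [h, map_sub, map_mul, map_mul, Fin2_eval, Fin2_eval, Fin2_eval, Fin2_eval] at h0
      exact sub_eq_zero.mp h0
    · have h2 := h1 0
      rw [h, map_sub, Derivation.leibniz, Derivation.leibniz, Fin2_pd, Fin2_pd, Fin2_pd,
        Fin2_pd] at h2
      simp only [pderiv_X_self, smul_eq_mul, mul_one, map_sub, map_add, map_mul, Fin2_eval] at h2
      have h3 : (pderiv (0 : Fin 2)) (X 1 : MvPolynomial (Fin 2) ℂ) = 0 :=
        pderiv_X_of_ne (by decide)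
      rw [h3] at h2
      simp only [map_zero, mul_zero, zero_add] at h2
      have h4 := sub_eq_zero.mp h2
      rw [mul_comm, h4, mul_comm]
    · have h2 := h1 1
      rw [h, map_sub, Derivation.leibniz, Derivation.leibniz, Fin2_pd, Fin2_pd, Fin2_pd,
        Fin2_pd] at h2
      simp only [pderiv_X_self, smul_eq_mul, mul_one, map_sub, map_add, map_mul, Fin2_eval] at h2
      have h3 : (pderiv (1 : Fin 2)) (X 0 : MvPolynomial (Fin 2) ℂ) = 0 :=
        pderiv_X_of_ne (by decide)
      rw [h3] at h2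
      simp only [map_zero, mul_zero, add_zero] at h2
      exact sub_eq_zero.mp h2
  refine ⟨Set.Finite.of_injOn hmaps hinj.injOn hfin, le_trans ?_ hcard⟩
  exact_mod_cast Set.ncard_le_ncard_of_injOn _ hmaps hinj.injOn hfin


end Pool.Agent.LZ
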