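import Mathlib

set_option autoImplicit false

/-!
# Slit domains: definitions and elementary lemmas.
-/

namespace Pool.Agent.LZ

/-- `ℓ^∞` distance to the horizontal ray starting at `c` and going to the right. -/
noncomputable def rho (c z : ℂ) : ℝ := max (c.re - z.re) |z.im - c.im|

/-- The complement of the rays starting at the points of `S`. -/
def Om (S : Finset ℂ) : Set ℂ := {z | ∀ c ∈ S, 0 < rho c z}

/-- The set of points at distance at least `ε` of the rays. -/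
def Om0 (S : Finset ℂ) (ε : ℝ) : Set ℂ := {z | ∀ c ∈ S, ε ≤ rho c z}

/-- The half strip to the right of `c`. -/
def Bx (c : ℂ) (ε : ℝ) : Set ℂ := {z | c.re < z.re ∧ |z.im - c.im| < 2 * ε}

/-- The imaginary parts of the points of `S` are `4ε`-separated. -/
def Sep (S : Finset ℂ) (ε : ℝ) : Prop :=
  0 < ε ∧ ∀ c ∈ S, ∀ c' ∈ S, c ≠ c' → 4 * ε ≤ |c.im - c'.im|

/-- `Γ → ℂ` is a covering with `n` sheets outside the finite set `S`, with finite fibres. -/
structure CovData (Γ : Set (ℂ × ℂ)) (S : Finset ℂ) (n : ℕ) : Prop where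
  closed : IsClosed Γ
  npos : 0 < n
  cov : IsCoveringMapOn (fun p : Γ => p.1.1) ((S : Set ℂ)ᶜ)
  card : ∀ z, z ∉ S → {y : ℂ | (z, y) ∈ Γ}.ncard = n
  fin : ∀ c ∈ S, {y : ℂ | (c, y) ∈ Γ}.Finite

/-- `s` is a family of `n` disjoint continuous sections describing `Γ` over `U`. -/
structure IsSec (Γ : Set (ℂ × ℂ)) (U : Set ℂ) (n : ℕ) (s : Fin n → ℂ → ℂ) : Prop where
  cont : ∀ i, ContinuousOn (s i) U
  inj : ∀ z ∈ U, ∀ i j, s i z = s j z → i = j
  mem_iff : ∀ z ∈ U, ∀ y, (z, y) ∈ Γ ↔ ∃ i, s i z = y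

theorem continuous_rho (c : ℂ) : Continuous (rho c) := by
  unfold rho
  have h1 : Continuous fun z : ℂ => z.re := Complex.continuous_re
  have h2 : Continuous fun z : ℂ => z.im := Complex.continuous_im
  fun_prop

theorem rho_nonneg (c z : ℂ) : 0 ≤ rho c z := (abs_nonneg _).trans (le_max_right _ _)

theorem abs_im_le_rho (c z : ℂ) : |z.im - c.im| ≤ rho c z := le_max_right _ _

theorem re_le_rho (c z : ℂ) : c.re - z.re ≤ rho c z := le_max_left _ _

theorem rho_self (c : ℂ) : rho c c = 0 := by simp [rho]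

theorem rho_sub_left (c : ℂ) (s : ℝ) (hs : 0 ≤ s) (z : ℂ) : rho c z ≤ rho c (z - (s : ℂ)) := by
  unfold rho
  simp only [Complex.sub_re, Complex.ofReal_re, Complex.sub_im, Complex.ofReal_im, sub_zero]
  exact max_le_max (by linarith) le_rfl

theorem isOpen_Om (S : Finset ℂ) : IsOpen (Om S) := by
  have : Om S = ⋂ c ∈ S, {z | 0 < rho c z} := by
    ext z
    simp [Om]
  rw [this]
  exact isOpen_biInter_finset fun c _ => isOpen_lt continuous_const (continuous_rho c)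

theorem Om_subset (S : Finset ℂ) : Om S ⊆ ((S : Set ℂ)ᶜ) := by
  intro z hz hzS
  have := hz z hzS
  rw [rho_self] at this
  exact lt_irrefl _ this

theorem Om0_subset_Om (S : Finset ℂ) (ε : ℝ) (hε : 0 < ε) : Om0 S ε ⊆ Om S :=
  fun _ hz c hc => hε.trans_le (hz c hc)

theorem isOpen_Bx (c : ℂ) (ε : ℝ) : IsOpen (Bx c ε) := by
  have h1 : Continuous fun z : ℂ => z.re := Complex.continuous_re
  have h2 : Continuous fun z : ℂ => z.im := Complex.continuous_im
  have h3 : Continuous fun z : ℂ => |z.im - c.im| := by fun_prop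
  exact (isOpen_lt continuous_const h1).inter (isOpen_lt h3 continuous_const)

theorem convex_Bx (c : ℂ) (ε : ℝ) : Convex ℝ (Bx c ε) := by
  have : Bx c ε = {z : ℂ | c.re < z.re} ∩ ({z : ℂ | z.im < c.im + 2 * ε} ∩ {z : ℂ | c.im - 2 * ε < z.im}) := by
    ext z
    simp only [Bx, Set.mem_ofPred_eq, Set.mem_inter_iff, abs_lt]
    constructor
    · rintro ⟨a, b, d⟩
      exact ⟨a, by linarith, by linarith⟩
    · rintro ⟨a, b, d⟩
      exact ⟨a, by linarith, by linarith⟩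
  rw [this]
  exact (convex_halfSpace_re_gt _).inter ((convex_halfSpace_im_lt _).inter (convex_halfSpace_im_gt _))

theorem Sep.im_far {S : Finset ℂ} {ε : ℝ} (h : Sep S ε) {c c' z : ℂ} (hc : c ∈ S) (hc' : c' ∈ S)
    (hne : c ≠ c') (hz : |z.im - c.im| < 2 * ε) : 2 * ε < |z.im - c'.im| := by
  have h1 := h.2 c hc c' hc' hne
  have h2 : |c.im - c'.im| ≤ |z.im - c.im| + |z.im - c'.im| := by
    have := abs_sub_le c.im z.im c'.im
    rwa [abs_sub_comm c.im z.im] at this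
  linarith

theorem Sep.im_far' {S : Finset ℂ} {ε : ℝ} (h : Sep S ε) {c c' z : ℂ} (hc : c ∈ S) (hc' : c' ∈ S)
    (hne : c ≠ c') (hz : |z.im - c.im| ≤ 2 * ε) : 2 * ε ≤ |z.im - c'.im| := by
  have h1 := h.2 c hc c' hc' hne
  have h2 : |c.im - c'.im| ≤ |z.im - c.im| + |z.im - c'.im| := by
    have := abs_sub_le c.im z.im c'.im
    rwa [abs_sub_comm c.im z.im] at this
  linarith

theorem Bx_subset {S : Finset ℂ} {ε : ℝ} (h : Sep S ε) {c : ℂ} (hc : c ∈ S) :
    Bx c ε ⊆ ((S : Set ℂ)ᶜ) := by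
  intro z hz hzS
  have hne : c ≠ z := by
    rintro rfl
    exact lt_irrefl _ hz.1
  have h1 := h.im_far hc hzS hne hz.2
  simp only [sub_self, abs_zero] at h1
  linarith [h.1]

theorem Bx_Om {S : Finset ℂ} {ε : ℝ} (h : Sep S ε) {c : ℂ} (hc : c ∈ S) {z : ℂ}
    (hz : z ∈ Bx c ε) (him : z.im ≠ c.im) : z ∈ Om S := by
  intro c' hc'
  by_cases hne : c = c'
  · subst hne
    exact (abs_pos.mpr (sub_ne_zero.mpr him)).trans_le (abs_im_le_rho _ _)
  · have h1 := h.im_far hc hc' hne hz.2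
    have := abs_im_le_rho c' z
    linarith [h.1]

theorem IsSec.mono {Γ : Set (ℂ × ℂ)} {U V : Set ℂ} {n : ℕ} {s : Fin n → ℂ → ℂ}
    (h : IsSec Γ U n s) (hV : V ⊆ U) : IsSec Γ V n s :=
  ⟨fun i => (h.cont i).mono hV, fun z hz => h.inj z (hV hz), fun z hz => h.mem_iff z (hV hz)⟩

theorem IsSec.mem {Γ : Set (ℂ × ℂ)} {U : Set ℂ} {n : ℕ} {s : Fin n → ℂ → ℂ}
    (h : IsSec Γ U n s) {z : ℂ} (hz : z ∈ U) (i : Fin n) : (z, s i z) ∈ Γ :=
  (h.mem_iff z hz _).mpr ⟨i, rfl⟩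

end Pool.Agent.LZ
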