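import Pool.Agent.Lib.MP_79da24_ag.TD

set_option autoImplicit false

namespace Pool.Agent.LZ

open Polynomial Filter Topology Metric

/-- (GlB1) Proof. On the open set `U` the functions `s i` are holomorphic, so `deriv (s i)` is (`DifferentiableOn.deriv`), and the denominators do
not vanish (`HSec.sub_ne`). -/
theorem differentiableOn_qq {F : Polynomial (Polynomial ℂ)} {n : ℕ} {U : Set ℂ} {s : Fin n → ℂ → ℂ} (h : HSec F n U s)
    {i j k : Fin n} (hij : i ≠ j) (hik : i ≠ k) (hjk : j ≠ k) : DifferentiableOn ℂ (qq s i j k) U := by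
  have hd : ∀ i, DifferentiableOn ℂ (deriv (s i)) U := fun i => (h.diff i).deriv h.isOpen
  have hL : ∀ a b, a ≠ b → DifferentiableOn ℂ (Lq s a b) U := fun a b hab =>
    ((hd a).sub (hd b)).div ((h.diff a).sub (h.diff b)) fun z hz => h.sub_ne hz hab
  exact ((hL i j hij).sub (hL i k hik)).div ((h.diff j).sub (h.diff k)) fun z hz => h.sub_ne hz hjk

/-- (GlB2) Proof. (←) the ball is a neighbourhood of `z`. (→) identity theorem: `qq s i j k` is analytic on the ball
(`DifferentiableOn.analyticOnNhd`), the ball is preconnected, `AnalyticOnNhd.eqOn_zero_of_preconnected_of_eventuallyEq_zero`. -/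
theorem Zg_iff_ball {F : Polynomial (Polynomial ℂ)} {n : ℕ} {z₀ : ℂ} {r : ℝ} {s : Fin n → ℂ → ℂ}
    (h : HSec F n (ball z₀ r) s) {i j k : Fin n} (hij : i ≠ j) (hik : i ≠ k) (hjk : j ≠ k) {z : ℂ}
    (hz : z ∈ ball z₀ r) : Zg s i j k z ↔ ∀ w ∈ ball z₀ r, qq s i j k w = 0 := by
  constructor
  · intro hZ
    have h1 : AnalyticOnNhd ℂ (qq s i j k) (ball z₀ r) := (differentiableOn_qq h hij hik hjk).analyticOnNhd isOpen_ball
    have h2 := h1.eqOn_zero_of_preconnected_of_eventuallyEq_zero (convex_ball z₀ r).isPreconnected hz hZ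
    exact fun w hw => h2 hw
  · intro hZ
    exact Filter.eventually_of_mem (isOpen_ball.mem_nhds hz) hZ

/-- (GlB3) Proof. `qq` vanishes identically on the ball (GlB2), so `Lq s i j = Lq s i k` there, i.e. the logarithmic derivatives of `u = s i - s j` and
`v = s i - s k` agree: `u' v = u v'` (`deriv_sub`, or `HasDerivAt.sub`), so `(u / v)' = 0` on the ball, and `u / v` is constant `= λ` on it
(convex open set, `IsOpen.is_const_of_deriv_eq_zero` or `Convex.is_const_of_fderivWithin_eq_zero` / `constant_of_has_deriv...`); so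
`s i - s j = λ (s i - s k)`, and `s j - s k = (s i - s k) - (s i - s j) = (1 - λ) (s i - s k)` with `1 - λ ≠ 0` as `s j z ≠ s k z`. Hence
`(s i w - s j w) / (s j w - s k w) = λ / (1 - λ)` for all `w` in the ball. -/
theorem ratio_const {F : Polynomial (Polynomial ℂ)} {n : ℕ} {z₀ : ℂ} {r : ℝ} {s : Fin n → ℂ → ℂ}
    (h : HSec F n (ball z₀ r) s) {i j k : Fin n} (hij : i ≠ j) (hik : i ≠ k) (hjk : j ≠ k) {z : ℂ}
    (hz : z ∈ ball z₀ r) (hg : Zg s i j k z) {w : ℂ} (hw : w ∈ ball z₀ r) :
    (s i w - s j w) / (s j w - s k w) = (s i z - s j z) / (s j z - s k z) := by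
  have hq := (Zg_iff_ball h hij hik hjk hz).mp hg
  have hdiff : ∀ a, ∀ w ∈ ball z₀ r, DifferentiableAt ℂ (s a) w := fun a w hw => (h.diff a).differentiableAt (isOpen_ball.mem_nhds hw)
  -- the quotient `u / v` is constant
  have hder : ∀ w ∈ ball z₀ r, deriv (fun x => (s i x - s j x) / (s i x - s k x)) w = 0 := by
    intro w hw
    have h1 : s i w - s j w ≠ 0 := h.sub_ne hw hij
    have h2 : s i w - s k w ≠ 0 := h.sub_ne hw hik
    have h3 : s j w - s k w ≠ 0 := h.sub_ne hw hjk
    have h4 : Lq s i j w = Lq s i k w := by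
      have h5 := hq w hw
      unfold qq at h5
      rw [div_eq_zero_iff] at h5
      rcases h5 with h5 | h5
      · exact sub_eq_zero.mp h5
      · exact absurd h5 h3
    have hu : HasDerivAt (fun x => s i x - s j x) (deriv (s i) w - deriv (s j) w) w :=
      (hdiff i w hw).hasDerivAt.sub (hdiff j w hw).hasDerivAt
    have hv : HasDerivAt (fun x => s i x - s k x) (deriv (s i) w - deriv (s k) w) w :=
      (hdiff i w hw).hasDerivAt.sub (hdiff k w hw).hasDerivAt
    have h6 := (hu.fun_div hv h2).deriv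
    rw [h6]
    unfold Lq at h4
    rw [div_eq_div_iff h1 h2] at h4
    rw [div_eq_zero_iff]
    left
    linear_combination h4
  have hconst : (s i w - s j w) / (s i w - s k w) = (s i z - s j z) / (s i z - s k z) := by
    have h1 : DifferentiableOn ℂ (fun x => (s i x - s j x) / (s i x - s k x)) (ball z₀ r) :=
      ((h.diff i).sub (h.diff j)).div ((h.diff i).sub (h.diff k)) fun z hz => h.sub_ne hz hik
    exact isOpen_ball.is_const_of_deriv_eq_zero (convex_ball z₀ r).isPreconnected h1 (fun w hw => hder w hw) hw hz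
  have a1 : s i w - s k w ≠ 0 := h.sub_ne hw hik
  have a2 : s j w - s k w ≠ 0 := h.sub_ne hw hjk
  have b1 : s i z - s k z ≠ 0 := h.sub_ne hz hik
  have b2 : s j z - s k z ≠ 0 := h.sub_ne hz hjk
  rw [div_eq_div_iff a1 b1] at hconst
  rw [div_eq_div_iff a2 b2]
  linear_combination hconst

end Pool.Agent.LZ
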