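import Pool.Agent.Lib.MP_79da24_ag.TD
import Pool.Agent.Lib.MP_79da24_ag.HsC
import Pool.Agent.Lib.MP_79da24_ag.GlA
import Pool.Agent.Lib.MP_79da24_ag.GlB

set_option autoImplicit false

namespace Pool.Agent.LZ

open Polynomial Filter Topology Metric

private theorem GlC_Qt {F : Polynomial (Polynomial ℂ)} {n : ℕ} {z₀ : ℂ} {r : ℝ} {s : Fin n → ℂ → ℂ}
    (h : HSec F n (ball z₀ r) s) (hr : 0 < r) {c₀ : ℂ} (hc : c₀ ∉ ball z₀ r)
    {t : Fin n × Fin n × Fin n} (ht : t ∈ T3 n) :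
    DifferentiableOn ℂ (fun w => Qt c₀ s t w) (ball z₀ r) ∧ ∀ᶠ w in 𝓝[≠] z₀, Qt c₀ s t w ≠ 0 := by
  obtain ⟨i, j, k⟩ := t
  obtain ⟨hij, hik, hjk⟩ := mem_T3.1 ht
  have hz₀ : z₀ ∈ ball z₀ r := mem_ball_self hr
  have hnb : ball z₀ r ∈ 𝓝 z₀ := ball_mem_nhds z₀ hr
  by_cases hz : Zg s i j k z₀
  · have h1 : ∀ w ∈ ball z₀ r, Zg s i j k w := fun w hw =>
      (Zg_iff_ball h hij hik hjk hw).2 ((Zg_iff_ball h hij hik hjk hz₀).1 hz)
    have h2 : ∀ w ∈ ball z₀ r, Qt c₀ s (i, j, k) w = 1 / ((w - c₀) * (s j w - s k w)) := by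
      intro w hw
      unfold Qt
      rw [if_pos (h1 w hw)]
    have h3 : ∀ w ∈ ball z₀ r, (w - c₀) * (s j w - s k w) ≠ 0 := by
      intro w hw
      refine mul_ne_zero ?_ (h.sub_ne hw hjk)
      intro h0
      rw [sub_eq_zero] at h0
      exact hc (h0 ▸ hw)
    refine ⟨?_, ?_⟩
    · refine DifferentiableOn.congr ?_ h2
      exact (differentiableOn_const (1 : ℂ)).div
        ((differentiableOn_id.sub (differentiableOn_const c₀)).mul ((h.diff j).sub (h.diff k))) h3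
    · refine Filter.Eventually.filter_mono nhdsWithin_le_nhds ?_
      filter_upwards [hnb] with w hw
      rw [h2 w hw]
      exact one_div_ne_zero (h3 w hw)
  · have h1 : ∀ w ∈ ball z₀ r, ¬ Zg s i j k w := fun w hw hw' =>
      hz ((Zg_iff_ball h hij hik hjk hz₀).2 ((Zg_iff_ball h hij hik hjk hw).1 hw'))
    have h2 : ∀ w ∈ ball z₀ r, Qt c₀ s (i, j, k) w = qq s i j k w := by
      intro w hw
      unfold Qt
      rw [if_neg (h1 w hw)]
    have hd := differentiableOn_qq h hij hik hjk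
    refine ⟨DifferentiableOn.congr hd h2, ?_⟩
    have ha : AnalyticAt ℂ (qq s i j k) z₀ := hd.analyticAt hnb
    rcases ha.eventually_eq_zero_or_eventually_ne_zero with h4 | h4
    · exact absurd h4 hz
    · filter_upwards [h4, mem_nhdsWithin_of_mem_nhds hnb] with w hw hw'
      rw [h2 w hw']
      exact hw

/-- (GlC) the locally defined products glue to a holomorphic function.
Proof. For `z ∉ S` choose `r z`, `sec z` from `hex` and put `Ψ z = Psi c₀ b (sec z) z` (and `0` on `S`; a global definition by `Classical.choose` and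
`dite`). Third claim: for `HSec F n U s`, `z ∈ U`, `z ∉ S`: `hsec_match` (HsC) for `s` and `sec z` at `z`, then `Psi_congr` (GlA5).
Holomorphy at `z₀ ∉ S`: let `B = ball z₀ r`, `s` from `hex`. By the third claim `Ψ w = Psi c₀ b s w` for `w ∈ B`. For `t = (i, j, k) ∈ T3 n` and
`w ∈ B`: by GlB2 `Zg s i j k w ↔ Zg s i j k z₀` (both equivalent to the vanishing on `B`), so on `B` the function `Qt c₀ s t` is equal to the
holomorphic function `w ↦ 1 / ((w - c₀) * (s j w - s k w))` (`w ≠ c₀` as `c₀ ∈ S`) or to the holomorphic function `qq s i j k` (GlB1). So `Ψ` is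
differentiable at `z₀` (`DifferentiableOn.fun_finsetProd` or similar, `pow`).
Nonvanishing: take any `z₀ ∉ S` (`S` is finite, `ℂ` infinite: `Infinite.exists_notMem_finset`), `B`, `s` as before. For every `t ∈ T3 n`: `Qt c₀ s t w ≠ 0` for all
`w ≠ z₀` near `z₀`: in the first case always; in the second case `qq s i j k` is analytic at `z₀` and does not vanish identically near `z₀`
(`AnalyticAt.eventually_eq_zero_or_eventually_ne_zero`). Also `Ps s w ≠ 0` (`Finset.prod_ne_zero_iff`, `HSec.sub_ne`). So `Ψ w ≠ 0` for all `w ≠ z₀`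
near `z₀` (`Filter.eventually_all_finset`; the filter `𝓝[≠] z₀` is `NeBot`). -/
theorem exists_global (F : Polynomial (Polynomial ℂ)) (n : ℕ) (S : Finset ℂ) {c₀ : ℂ} (hc₀ : c₀ ∈ S) (b : ℕ)
    (hex : ∀ z, z ∉ S → ∃ r > 0, ball z r ⊆ ((S : Set ℂ)ᶜ) ∧ ∃ s, HSec F n (ball z r) s) :
    ∃ Ψ : ℂ → ℂ, DifferentiableOn ℂ Ψ ((S : Set ℂ)ᶜ) ∧ (∃ z, z ∉ S ∧ Ψ z ≠ 0) ∧
      ∀ (U : Set ℂ) (s : Fin n → ℂ → ℂ), HSec F n U s → ∀ z ∈ U, z ∉ S → Ψ z = Psi c₀ b s z := by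
  classical
  choose r hr hb sec hsec using hex
  have hthird : ∀ (U : Set ℂ) (s : Fin n → ℂ → ℂ), HSec F n U s → ∀ z ∈ U, ∀ hz : z ∉ S,
      Psi c₀ b (sec z hz) z = Psi c₀ b s z := by
    intro U s hs z hz hzS
    obtain ⟨σ, hσ⟩ := hsec_match hs (hsec z hzS) hz (mem_ball_self (hr z hzS))
    exact Psi_congr c₀ b σ hσ
  have hc : ∀ z (hz : z ∉ S), c₀ ∉ ball z (r z hz) := fun z hz h0 => hb z hz h0 hc₀
  have hball : ∀ z (hz : z ∉ S), ∀ w ∈ ball z (r z hz), w ∉ S := fun z hz w hw h0 =>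
    hb z hz hw h0
  set Ψ : ℂ → ℂ := fun z => if hz : z ∈ S then 0 else Psi c₀ b (sec z hz) z with hΨ
  have hΨ' : ∀ (U : Set ℂ) (s : Fin n → ℂ → ℂ), HSec F n U s → ∀ z ∈ U, z ∉ S →
      Ψ z = Psi c₀ b s z := by
    intro U s hs z hz hzS
    have h1 : Ψ z = Psi c₀ b (sec z hzS) z := by
      simp only [hΨ]
      rw [dif_neg hzS]
    rw [h1]
    exact hthird U s hs z hz hzS
  refine ⟨Ψ, ?_, ?_, hΨ'⟩
  · intro z₀ hz₀
    have hz₀' : z₀ ∉ S := hz₀
    have hs := hsec z₀ hz₀'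
    have hd : DifferentiableOn ℂ (fun w => Psi c₀ b (sec z₀ hz₀') w) (ball z₀ (r z₀ hz₀')) := by
      unfold Psi Ps
      refine DifferentiableOn.mul ?_ (DifferentiableOn.pow ?_ b)
      · refine DifferentiableOn.fun_finsetProd fun t ht => ?_
        exact (GlC_Qt hs (hr z₀ hz₀') (hc z₀ hz₀') ht).1
      · refine DifferentiableOn.fun_finsetProd fun t _ => ?_
        exact (hs.diff t.1).sub (hs.diff t.2)
    have hnb : ball z₀ (r z₀ hz₀') ∈ 𝓝 z₀ := ball_mem_nhds z₀ (hr z₀ hz₀')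
    have h2 : DifferentiableAt ℂ (fun w => Psi c₀ b (sec z₀ hz₀') w) z₀ := hd.differentiableAt hnb
    have h3 : Ψ =ᶠ[𝓝 z₀] fun w => Psi c₀ b (sec z₀ hz₀') w := by
      filter_upwards [hnb] with w hw
      exact hΨ' _ _ hs w hw (hball z₀ hz₀' w hw)
    exact (h2.congr_of_eventuallyEq h3).differentiableWithinAt
  · obtain ⟨z₀, hz₀⟩ := Infinite.exists_notMem_finset S
    have hs := hsec z₀ hz₀
    have hnb : ball z₀ (r z₀ hz₀) ∈ 𝓝 z₀ := ball_mem_nhds z₀ (hr z₀ hz₀)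
    have h1 : ∀ᶠ w in 𝓝[≠] z₀, ∀ t ∈ T3 n, Qt c₀ (sec z₀ hz₀) t w ≠ 0 := by
      rw [Filter.eventually_all_finset]
      intro t ht
      exact (GlC_Qt hs (hr z₀ hz₀) (hc z₀ hz₀) ht).2
    obtain ⟨w, hw, hw'⟩ := (h1.and (mem_nhdsWithin_of_mem_nhds hnb)).exists
    refine ⟨w, hball z₀ hz₀ w hw', ?_⟩
    rw [hΨ' _ _ hs w hw' (hball z₀ hz₀ w hw')]
    unfold Psi Ps
    refine mul_ne_zero (Finset.prod_ne_zero_iff.2 hw) (pow_ne_zero _ ?_)
    refine Finset.prod_ne_zero_iff.2 fun t ht => ?_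
    obtain ⟨i, j⟩ := t
    exact hs.sub_ne hw' (mem_P2.1 ht)

end Pool.Agent.LZ
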