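import Pool.Agent.Lib.MP_79da24_ag.TD

set_option autoImplicit false

namespace Pool.Agent.LZ

open Polynomial Filter Topology Metric

/-- Extension across a finite set of removable singularities. -/
private theorem LiA_ext (S : Finset ℂ) : ∀ (Φ : ℂ → ℂ), DifferentiableOn ℂ Φ ((S : Set ℂ)ᶜ) →
    (∀ c ∈ S, Φ =o[𝓝[≠] c] fun z => (z - c)⁻¹) →
    ∃ G : ℂ → ℂ, Differentiable ℂ G ∧ ∀ z, z ∉ S → G z = Φ z := by
  classical
  induction S using Finset.induction_on with
  | empty =>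
    intro Φ hΦ _
    refine ⟨Φ, ?_, fun _ _ => rfl⟩
    rw [← differentiableOn_univ]
    simpa using hΦ
  | insert c T hc ih =>
    intro Φ hΦ ho
    have hT : ((T : Set ℂ)ᶜ) ∈ 𝓝 c :=
      (Finset.finite_toSet T).isClosed.isOpen_compl.mem_nhds (by simpa using hc)
    have hconst : (fun _ : ℂ => Φ c) =o[𝓝[≠] c] fun z => (z - c)⁻¹ := by
      have h1 : Tendsto (fun z : ℂ => ‖(z - c)⁻¹‖) (𝓝[≠] c) atTop := by
        simp only [norm_inv]
        exact (tendsto_norm_sub_self_nhdsNE c).inv_tendsto_nhdsGT_zero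
      exact Asymptotics.isLittleO_const_left.mpr (Or.inr h1)
    have h1 : DifferentiableOn ℂ (Function.update Φ c (limUnder (𝓝[≠] c) Φ)) ((T : Set ℂ)ᶜ) := by
      refine Complex.differentiableOn_update_limUnder_of_isLittleO hT (hΦ.mono ?_)
        ((ho c (Finset.mem_insert_self _ _)).sub hconst)
      intro z hz hz'
      rw [Finset.mem_coe, Finset.mem_insert] at hz'
      rcases hz' with h | h
      · exact hz.2 h
      · exact hz.1 h
    obtain ⟨G, hG, hG2⟩ := ih _ h1 (fun c' hc' => by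
      have hne : c' ≠ c := fun h => hc (h ▸ hc')
      refine (ho c' (Finset.mem_insert_of_mem hc')).congr' ?_ (Eventually.of_forall fun _ => rfl)
      have h2 : ∀ᶠ z in 𝓝[≠] c', z ≠ c := nhdsWithin_le_nhds (isOpen_ne.mem_nhds hne)
      filter_upwards [h2] with z hz
      rw [Function.update_of_ne hz])
    refine ⟨G, hG, fun z hz => ?_⟩
    rw [Finset.mem_insert, not_or] at hz
    rw [hG2 z hz.2, Function.update_of_ne hz.1]

private theorem LiA_log (c : ℂ) (W : ℕ) :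
    (fun z : ℂ => (-Real.log ‖z - c‖) ^ W) =o[𝓝[≠] c] fun z => (z - c)⁻¹ := by
  have h1 := (isLittleO_abs_log_rpow_rpow_nhdsGT_zero (s := -1) (W : ℝ) (by norm_num)).comp_tendsto
    (tendsto_norm_sub_self_nhdsNE c)
  rw [← Asymptotics.isLittleO_norm_right]
  rw [← Asymptotics.isLittleO_norm_left] at h1 ⊢
  refine h1.congr' (Eventually.of_forall fun z => ?_) (Eventually.of_forall fun z => ?_)
  · simp [Real.rpow_natCast, abs_neg]
  · simp [Real.rpow_neg_one]

/-- (LiA) a Liouville theorem.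
Proof. `Φ z = Ψ z * ∏_{c ∈ S} (z - c)^{k c}` is holomorphic on `Sᶜ`. Near `c ∈ S`: the other factors are bounded, so
`‖Φ z‖ ≤ C' (-log ‖z - c‖)^W = o(‖z - c‖^{-1})` (`Real.isLittleO_pow_log_id_atTop`-type lemma, or `-log ρ ≤ C ρ^{-1/(2(W+1))}`:
`Real.log_le_rpow_div`/`Real.abs_log_mul_self_rpow_lt`), so the singularity is removable:
Mathlib `Complex.differentiableOn_update_limUnder_of_isLittleO` (or apply `..._of_bddAbove` to `(z - c) Φ z` and divide). Doing this for all `c ∈ S` (induction on the finite set, or: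
`G z = Φ z * ∏_{c∈S} (z - c)` extended by `0` is continuous on `ℂ` and holomorphic off the finite set `S`, so entire
(`Complex.differentiableOn_compl_singleton_and_continuousAt_iff`/`DifferentiableOn` on the complement of a finite/countable set + continuity, e.g.
`Complex.hasFPowerSeriesOnBall_of_differentiable_off_countable`)). Simplest: `G z = Ψ z * ∏_{c ∈ S} (z - c)^{k c + 1}` on `Sᶜ`, `G = 0` on `S`; `G → 0` at the points of `S`
because `ρ (-log ρ)^W → 0`; so `G` is continuous and holomorphic off a finite set, hence entire. At infinity `‖G z‖ ≤ C (log ‖z‖)^W ‖z‖^{∑ (k c + 1) - m}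
≤ C' ‖z‖^{|S| - 1/2}` for large `‖z‖` if `∑ k c < m`. `G` vanishes at the `|S|` points of `S`: so `G / ∏_{c∈S}(z - c)` extends to an entire function
(`dslope` repeatedly, or: an entire function with growth `O(‖z‖^{|S|-1/2})` is a polynomial of degree `≤ |S| - 1`, and a polynomial of degree `< |S|` with `|S|` distinct roots
is zero). Either way `G = 0`, so `Ψ = 0` on `Sᶜ`. (For entire functions of polynomial growth see `Differentiable`/Liouville in Mathlib:
`Differentiable.eq_const_of_tendsto_cocompact`, or Cauchy estimates `Complex.norm_iteratedDeriv_le_of_forall_mem_sphere_norm_le`.)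
Alternative: first extend `Φ` across each point (removable singularities) to an entire function tending to `0` at infinity
(`(log‖z‖)^W ‖z‖^{∑ k c - m} → 0`), so it is `0` by Liouville (`Differentiable.apply_eq_of_tendsto_cocompact`). -/
theorem liouville_log {S : Finset ℂ} {Ψ : ℂ → ℂ} (hΨ : DifferentiableOn ℂ Ψ ((S : Set ℂ)ᶜ)) (W m : ℕ) (k : ℂ → ℕ)
    (hnear : ∀ c ∈ S, ∃ C η : ℝ, 0 < η ∧ η < 1 / 3 ∧ ∀ z, 0 < ‖z - c‖ → ‖z - c‖ < η →
      ‖Ψ z‖ ≤ C * (-Real.log ‖z - c‖) ^ W * (‖z - c‖ ^ k c)⁻¹)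
    (hinf : ∃ C R : ℝ, 3 < R ∧ ∀ z, R < ‖z‖ → ‖Ψ z‖ ≤ C * (Real.log ‖z‖) ^ W * (‖z‖ ^ m)⁻¹)
    (hlt : ∑ c ∈ S, k c < m) : ∀ z, z ∉ S → Ψ z = 0 := by
  classical
  set P : ℂ → ℂ := fun z => ∏ c ∈ S, (z - c) ^ k c with hPdef
  have hPd : Differentiable ℂ P := by
    intro z
    exact DifferentiableAt.fun_finset_prod fun c _ => ((differentiableAt_id.sub_const c).pow _)
  have hΦ : DifferentiableOn ℂ (fun z => Ψ z * P z) ((S : Set ℂ)ᶜ) :=
    hΨ.mul hPd.differentiableOn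
  have hnear' : ∀ c ∈ S, (fun z => Ψ z * P z) =o[𝓝[≠] c] fun z => (z - c)⁻¹ := by
    intro c hc
    obtain ⟨C, η, hη, -, hC⟩ := hnear c hc
    refine Asymptotics.IsBigO.trans_isLittleO ?_ (LiA_log c W)
    set Q : ℂ → ℂ := fun z => ∏ c' ∈ S.erase c, (z - c') ^ k c' with hQ
    have hQc : Continuous Q := by
      refine continuous_finset_prod _ fun c' _ => ?_
      exact (continuous_id.sub continuous_const).pow _
    have hQb : ∀ᶠ z in 𝓝[≠] c, ‖Q z‖ ≤ ‖Q c‖ + 1 := by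
      have : ∀ᶠ z in 𝓝 c, ‖Q z‖ < ‖Q c‖ + 1 :=
        (hQc.norm.tendsto c).eventually (gt_mem_nhds (lt_add_one _))
      exact nhdsWithin_le_nhds (this.mono fun z hz => hz.le)
    have hb : ∀ᶠ z in 𝓝[≠] c, ‖z - c‖ < η := by
      have : ∀ᶠ z in 𝓝 c, z ∈ ball c η := ball_mem_nhds c hη
      exact nhdsWithin_le_nhds (this.mono fun z hz => by simpa [dist_eq_norm] using hz)
    refine Asymptotics.IsBigO.of_bound (|C| * (‖Q c‖ + 1)) ?_
    filter_upwards [hQb, hb, self_mem_nhdsWithin] with z h1 h2 h3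
    have h3' : 0 < ‖z - c‖ := norm_pos_iff.mpr (sub_ne_zero.mpr h3)
    have h4 := hC z h3' h2
    have h5 : P z = (z - c) ^ k c * Q z := (Finset.mul_prod_erase S _ hc).symm
    rw [norm_mul, h5, norm_mul, norm_pow]
    have h6 : 0 < ‖z - c‖ ^ k c := by positivity
    calc ‖Ψ z‖ * (‖z - c‖ ^ k c * ‖Q z‖)
        ≤ (C * (-Real.log ‖z - c‖) ^ W * (‖z - c‖ ^ k c)⁻¹) * (‖z - c‖ ^ k c * ‖Q z‖) :=
          mul_le_mul_of_nonneg_right h4 (by positivity)
      _ = C * (-Real.log ‖z - c‖) ^ W * ‖Q z‖ := by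
          field_simp
      _ ≤ |C * (-Real.log ‖z - c‖) ^ W| * (‖Q c‖ + 1) :=
          mul_le_mul (le_abs_self _) h1 (norm_nonneg _) (abs_nonneg _)
      _ = |C| * (‖Q c‖ + 1) * ‖(-Real.log ‖z - c‖) ^ W‖ := by
          rw [abs_mul, Real.norm_eq_abs]
          ring
  obtain ⟨G, hG, hGe⟩ := LiA_ext S _ hΦ hnear'
  have hPbig : ∀ᶠ z in cocompact ℂ, ‖P z‖ ≤ 2 ^ (∑ c ∈ S, k c) * ‖z‖ ^ (∑ c ∈ S, k c) := by
    have h1 : ∀ᶠ z in cocompact ℂ, ∀ c ∈ S, ‖c‖ ≤ ‖z‖ := by
      rw [Filter.eventually_all_finset]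
      intro c _
      exact tendsto_norm_cocompact_atTop.eventually (eventually_ge_atTop ‖c‖)
    filter_upwards [h1] with z hz
    rw [hPdef]
    simp only
    rw [norm_prod, ← mul_pow, ← Finset.prod_pow_eq_pow_sum]
    refine Finset.prod_le_prod (fun _ _ => norm_nonneg _) fun c hc => ?_
    rw [norm_pow]
    refine pow_le_pow_left₀ (norm_nonneg _) ?_ _
    calc ‖z - c‖ ≤ ‖z‖ + ‖c‖ := norm_sub_le _ _
      _ ≤ 2 * ‖z‖ := by linarith only [hz c hc]
  have hG0 : Tendsto G (cocompact ℂ) (𝓝 0) := by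
    obtain ⟨C, R, hR, hC⟩ := hinf
    have h1 : Tendsto (fun z : ℂ => |C| * 2 ^ (∑ c ∈ S, k c) * (Real.log ‖z‖ ^ W / ‖z‖))
        (cocompact ℂ) (𝓝 0) := by
      have h2 : Tendsto (fun x : ℝ => Real.log x ^ W / x) atTop (𝓝 0) := by
        have := (Real.isLittleO_pow_log_id_atTop (n := W)).tendsto_div_nhds_zero
        simpa using this
      have h3 := (h2.comp (tendsto_norm_cocompact_atTop (E := ℂ))).const_mul
        (|C| * 2 ^ (∑ c ∈ S, k c))
      simpa using h3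
    refine squeeze_zero_norm' ?_ h1
    have hS : ∀ᶠ z in cocompact ℂ, z ∉ S :=
      (Finset.finite_toSet S).isCompact.compl_mem_cocompact
    filter_upwards [hPbig, hS, tendsto_norm_cocompact_atTop.eventually (eventually_gt_atTop R)]
      with z hz1 hz2 hz3
    rw [hGe z hz2, norm_mul]
    have hz4 := hC z hz3
    have hz5 : 1 < ‖z‖ := by linarith only [hz3, hR]
    have hlog : 0 ≤ Real.log ‖z‖ := Real.log_nonneg hz5.le
    have hz0 : 0 < ‖z‖ := by linarith only [hz5]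
    have hC' : C * Real.log ‖z‖ ^ W * (‖z‖ ^ m)⁻¹ ≤ |C| * Real.log ‖z‖ ^ W * (‖z‖ ^ m)⁻¹ := by
      have : C ≤ |C| := le_abs_self C
      gcongr
    calc ‖Ψ z‖ * ‖P z‖ ≤ (|C| * Real.log ‖z‖ ^ W * (‖z‖ ^ m)⁻¹) *
          (2 ^ (∑ c ∈ S, k c) * ‖z‖ ^ (∑ c ∈ S, k c)) :=
          mul_le_mul (hz4.trans hC') hz1 (norm_nonneg _) (by positivity)
      _ = |C| * 2 ^ (∑ c ∈ S, k c) * (Real.log ‖z‖ ^ W *
          (‖z‖ ^ (∑ c ∈ S, k c) * (‖z‖ ^ m)⁻¹)) := by ring
      _ ≤ |C| * 2 ^ (∑ c ∈ S, k c) * (Real.log ‖z‖ ^ W * ‖z‖⁻¹) := by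
          have h7 : ‖z‖ ^ (∑ c ∈ S, k c) * (‖z‖ ^ m)⁻¹ ≤ ‖z‖⁻¹ := by
            rw [← div_eq_mul_inv, div_le_iff₀ (by positivity), inv_mul_eq_div,
              le_div_iff₀ hz0, ← pow_succ]
            exact pow_le_pow_right₀ hz5.le hlt
          gcongr
      _ = |C| * 2 ^ (∑ c ∈ S, k c) * (Real.log ‖z‖ ^ W / ‖z‖) := by
          rw [div_eq_mul_inv]
  intro z hz
  have h1 := hG.apply_eq_of_tendsto_cocompact z hG0
  rw [hGe z hz] at h1
  have h2 : P z ≠ 0 := by
    rw [hPdef]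
    simp only
    refine Finset.prod_ne_zero_iff.mpr fun c hc => pow_ne_zero _ (sub_ne_zero.mpr ?_)
    rintro rfl
    exact hz hc
  exact (mul_eq_zero.mp h1).resolve_right h2

end Pool.Agent.LZ
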