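import Pool.Agent.Lib.MP_79da24_ag.TD
import Pool.Agent.Lib.MP_79da24_ag.LiA

set_option autoImplicit false

namespace Pool.Agent.LZ

open Polynomial Filter Topology Metric

/-- (LiS) the Liouville theorem with real exponents.
Proof. As `liouville_log` (LiA.lean; it may be used, or its proof copied from the store). Reduce to it: for `c ∈ S` put `j c = ⌊κ c⌋₊` (`κ c ≥ 0`) and `Φ z = Ψ z ∏_{c∈S} (z - c)^{j c}`:
near `c`: `‖Φ z‖ ≤ C (-log ρ)^W ρ^{-(κ c - j c)}` with `κ c - j c < 1`, so `(z - c) Φ z → 0`: the singularity of `Φ` at `c` is removable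
(`Complex.differentiableOn_update_limUnder_of_isLittleO` or the trick of LiA). So `Φ` is bounded near `c`, i.e.
`‖Ψ z‖ ≤ C' (‖z - c‖^{j c})⁻¹ ≤ C' (-log ρ)^W (..)⁻¹` (`-log ρ ≥ 1`), and `liouville_log` applies with `k = j`: `∑ j c ≤ ∑ κ c < m`. -/
theorem liouville_log2 {S : Finset ℂ} {Ψ : ℂ → ℂ} (hΨ : DifferentiableOn ℂ Ψ ((S : Set ℂ)ᶜ)) (W m : ℕ) (κ : ℂ → ℝ)
    (hκ : ∀ c ∈ S, 0 ≤ κ c)
    (hnear : ∀ c ∈ S, ∃ C η : ℝ, 0 < η ∧ η < 1 / 3 ∧ ∀ z, 0 < ‖z - c‖ → ‖z - c‖ < η →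
      ‖Ψ z‖ ≤ C * (-Real.log ‖z - c‖) ^ W * ‖z - c‖ ^ (-(κ c)))
    (hinf : ∃ C R : ℝ, 3 < R ∧ ∀ z, R < ‖z‖ → ‖Ψ z‖ ≤ C * (Real.log ‖z‖) ^ W * (‖z‖ ^ m)⁻¹)
    (hlt : ∑ c ∈ S, κ c < m) : ∀ z, z ∉ S → Ψ z = 0 := by
  classical
  have hj : ∀ c ∈ S, ((⌊κ c⌋₊ : ℕ) : ℝ) ≤ κ c := fun c hc => Nat.floor_le (hκ c hc)
  refine liouville_log hΨ W m (fun c => ⌊κ c⌋₊) ?_ hinf ?_
  · intro c hc
    obtain ⟨C, η, hη, hη3, hC⟩ := hnear c hc
    set j : ℕ := ⌊κ c⌋₊ with hjd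
    set a : ℝ := κ c - j with had
    have ha1 : a < 1 := by
      have := Nat.lt_floor_add_one (κ c)
      rw [had]
      linarith
    have hopen : IsOpen (((S.erase c : Finset ℂ) : Set ℂ)ᶜ) :=
      (Finset.finite_toSet _).isClosed.isOpen_compl
    have hmem : (((S.erase c : Finset ℂ) : Set ℂ)ᶜ) ∈ 𝓝 c := hopen.mem_nhds (by simp)
    set Φ : ℂ → ℂ := fun z => Ψ z * (z - c) ^ j with hΦd
    have hΦ : DifferentiableOn ℂ Φ ((((S.erase c : Finset ℂ) : Set ℂ)ᶜ) \ {c}) := by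
      have h1 : DifferentiableOn ℂ Ψ ((((S.erase c : Finset ℂ) : Set ℂ)ᶜ) \ {c}) := by
        refine hΨ.mono ?_
        intro z hz hz'
        refine hz.1 ?_
        rw [Finset.mem_coe, Finset.mem_erase]
        exact ⟨hz.2, hz'⟩
      have h2 : Differentiable ℂ (fun z : ℂ => (z - c) ^ j) :=
        (differentiable_id.sub_const c).pow j
      exact h1.mul h2.differentiableOn
    have hbound : ∀ z, 0 < ‖z - c‖ → ‖z - c‖ < η →
        ‖Φ z‖ ≤ |C| * ‖|Real.log ‖z - c‖| ^ (W : ℝ) * ‖z - c‖ ^ (-a)‖ := by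
      intro z hz1 hz2
      have h1 := hC z hz1 hz2
      have hlog : 0 ≤ -Real.log ‖z - c‖ := by
        have : Real.log ‖z - c‖ ≤ 0 := Real.log_nonpos hz1.le (by linarith)
        linarith
      have habs : |Real.log ‖z - c‖| = -Real.log ‖z - c‖ := by
        rw [← abs_neg, abs_of_nonneg hlog]
      have h3 : ‖z - c‖ ^ (-(κ c)) * ‖z - c‖ ^ j = ‖z - c‖ ^ (-a) := by
        rw [← Real.rpow_natCast, ← Real.rpow_add hz1]
        congr 1
        rw [had]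
        ring
      have hp1 : 0 ≤ (-Real.log ‖z - c‖) ^ W := pow_nonneg hlog W
      have hp2 : 0 ≤ ‖z - c‖ ^ (-a) := (Real.rpow_pos_of_pos hz1 _).le
      rw [hΦd]
      simp only [norm_mul, norm_pow]
      rw [habs, Real.rpow_natCast, Real.norm_of_nonneg hp1, Real.norm_of_nonneg hp2]
      calc ‖Ψ z‖ * ‖z - c‖ ^ j
          ≤ (C * (-Real.log ‖z - c‖) ^ W * ‖z - c‖ ^ (-(κ c))) * ‖z - c‖ ^ j := by
            exact mul_le_mul_of_nonneg_right h1 (by positivity)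
        _ = C * ((-Real.log ‖z - c‖) ^ W * (‖z - c‖ ^ (-(κ c)) * ‖z - c‖ ^ j)) := by ring
        _ = C * ((-Real.log ‖z - c‖) ^ W * ‖z - c‖ ^ (-a)) := by rw [h3]
        _ ≤ |C| * ((-Real.log ‖z - c‖) ^ W * ‖z - c‖ ^ (-a)) :=
            mul_le_mul_of_nonneg_right (le_abs_self C) (mul_nonneg hp1 hp2)
    have hev : ∀ᶠ z in 𝓝[≠] c, 0 < ‖z - c‖ ∧ ‖z - c‖ < η := by
      have h1 : ∀ᶠ z in 𝓝 c, z ∈ ball c η := ball_mem_nhds c hη
      filter_upwards [nhdsWithin_le_nhds h1, self_mem_nhdsWithin] with z hz1 hz2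
      refine ⟨norm_pos_iff.mpr (sub_ne_zero.mpr hz2), ?_⟩
      simpa [dist_eq_norm] using hz1
    have hlo : (fun z : ℂ => |Real.log ‖z - c‖| ^ (W : ℝ) * ‖z - c‖ ^ (-a)) =o[𝓝[≠] c]
        fun z => (z - c)⁻¹ := by
      have h1 := (isLittleO_abs_log_rpow_rpow_nhdsGT_zero (s := -(1 - a)) (W : ℝ)
        (by linarith)).comp_tendsto (tendsto_norm_sub_self_nhdsNE c)
      have h2 := h1.mul_isBigO (Asymptotics.isBigO_refl (fun z : ℂ => ‖z - c‖ ^ (-a)) (𝓝[≠] c))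
      rw [← Asymptotics.isLittleO_norm_right]
      refine h2.congr' (Eventually.of_forall fun z => rfl) ?_
      filter_upwards [hev] with z hz
      change ‖z - c‖ ^ (-(1 - a)) * ‖z - c‖ ^ (-a) = ‖(z - c)⁻¹‖
      rw [← Real.rpow_add hz.1, norm_inv, ← Real.rpow_neg_one]
      congr 1
      ring
    have hΦo : Φ =o[𝓝[≠] c] fun z => (z - c)⁻¹ := by
      refine Asymptotics.IsBigO.trans_isLittleO ?_ hlo
      refine Asymptotics.IsBigO.of_bound |C| ?_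
      filter_upwards [hev] with z hz
      exact hbound z hz.1 hz.2
    have hconst : (fun _ : ℂ => Φ c) =o[𝓝[≠] c] fun z => (z - c)⁻¹ := by
      have h1 : Tendsto (fun z : ℂ => ‖(z - c)⁻¹‖) (𝓝[≠] c) atTop := by
        simp only [norm_inv]
        exact (tendsto_norm_sub_self_nhdsNE c).inv_tendsto_nhdsGT_zero
      exact Asymptotics.isLittleO_const_left.mpr (Or.inr h1)
    have hext := Complex.differentiableOn_update_limUnder_of_isLittleO hmem hΦ (hΦo.sub hconst)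
    have hcont : ContinuousAt (Function.update Φ c (limUnder (𝓝[≠] c) Φ)) c :=
      (hext.differentiableAt hmem).continuousAt
    set G := Function.update Φ c (limUnder (𝓝[≠] c) Φ) with hGd
    have hGb : ∀ᶠ z in 𝓝 c, ‖G z‖ < ‖G c‖ + 1 :=
      (hcont.norm).eventually (gt_mem_nhds (lt_add_one _))
    obtain ⟨δ, hδ, hδ2⟩ := Metric.eventually_nhds_iff_ball.mp hGb
    refine ⟨‖G c‖ + 1, min η δ, lt_min hη hδ, lt_of_le_of_lt (min_le_left _ _) hη3, ?_⟩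
    intro z hz1 hz2
    have hz3 : ‖z - c‖ < δ := lt_of_lt_of_le hz2 (min_le_right _ _)
    have hz4 : ‖z - c‖ < η := lt_of_lt_of_le hz2 (min_le_left _ _)
    have hzc : z ≠ c := by
      rintro rfl
      simp at hz1
    have h1 := hδ2 z (by simpa [dist_eq_norm] using hz3)
    rw [hGd, Function.update_of_ne hzc] at h1
    rw [← hGd] at h1
    have h2 : ‖Ψ z‖ * ‖z - c‖ ^ j < ‖G c‖ + 1 := by
      have : ‖Φ z‖ = ‖Ψ z‖ * ‖z - c‖ ^ j := by
        rw [hΦd]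
        simp only [norm_mul, norm_pow]
      rw [← this]
      exact h1
    have h3 : 1 ≤ -Real.log ‖z - c‖ := by
      have h4 : ‖z - c‖ ≤ Real.exp (-1) := by
        have h5 : Real.exp 1 < 3 := by
          have := Real.exp_one_lt_d9
          linarith
        have h6 : (1 / 3 : ℝ) < Real.exp (-1) := by
          rw [Real.exp_neg, one_div]
          exact inv_strictAnti₀ (Real.exp_pos 1) h5
        linarith
      have h7 : Real.log ‖z - c‖ ≤ -1 := (Real.log_le_iff_le_exp hz1).mpr h4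
      linarith
    have h4 : 1 ≤ (-Real.log ‖z - c‖) ^ W := one_le_pow₀ h3
    have hpos : 0 < ‖z - c‖ ^ j := by positivity
    have hG1 : 0 < ‖G c‖ + 1 := by positivity
    calc ‖Ψ z‖ ≤ (‖G c‖ + 1) * (‖z - c‖ ^ j)⁻¹ := by
          rw [← div_eq_mul_inv, le_div_iff₀ hpos]
          exact h2.le
      _ = (‖G c‖ + 1) * 1 * (‖z - c‖ ^ j)⁻¹ := by ring
      _ ≤ (‖G c‖ + 1) * (-Real.log ‖z - c‖) ^ W * (‖z - c‖ ^ j)⁻¹ := by
          gcongr
  · have h1 : ((∑ c ∈ S, ⌊κ c⌋₊ : ℕ) : ℝ) < m := by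
      rw [Nat.cast_sum]
      exact lt_of_le_of_lt (Finset.sum_le_sum hj) hlt
    exact_mod_cast h1

end Pool.Agent.LZ
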