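import Pool.Agent.Lib.MP_79da24_ag.TD

set_option autoImplicit false

namespace Pool.Agent.LZ

open Polynomial Filter Topology Metric

/-- (QbA) the second divided difference is symmetric.
Proof. Put `a = s i z`, `b = s j z`, `c = s k z` (distinct) and `A, B, C` the derivatives. `L_ij = (A - B)/(a - b)` is symmetric,
`qq = (L_ij - L_ik)/(b - c)`. `field_simp; ring` shows `qq * (b - c) = L_ij - L_ik`, `qq * (a - c) = L_ij - L_jk`, and
`qq * (a - b) = L_ik - L_jk` (check the signs: `(a-c) qq = L_ij - L_jk`: both are symmetric expressions of the second divided difference `[a,b,c]`).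
So `‖qq‖ ‖b - c‖ ≤ 2B`, `‖qq‖ ‖a - c‖ ≤ 2B`, `‖qq‖ ‖a - b‖ ≤ 2B` and `dm` is the maximum of the three distances. -/
theorem qq_dm_le {F : Polynomial (Polynomial ℂ)} {n : ℕ} {U : Set ℂ} {s : Fin n → ℂ → ℂ} (h : HSec F n U s)
    {z : ℂ} (hz : z ∈ U) {i j k : Fin n} (hij : i ≠ j) (hik : i ≠ k) (hjk : j ≠ k) {B : ℝ}
    (h1 : ‖Lq s i j z‖ ≤ B) (h2 : ‖Lq s i k z‖ ≤ B) (h3 : ‖Lq s j k z‖ ≤ B) :
    ‖qq s i j k z‖ * dm (fun l => s l z) (i, j, k) ≤ 2 * B := by
  have ha : s i z - s j z ≠ 0 := h.sub_ne hz hij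
  have hb : s i z - s k z ≠ 0 := h.sub_ne hz hik
  have hc : s j z - s k z ≠ 0 := h.sub_ne hz hjk
  have e1 : qq s i j k z * (s j z - s k z) = Lq s i j z - Lq s i k z := by
    unfold qq
    field_simp
  have e2 : qq s i j k z * (s i z - s k z) = Lq s i j z - Lq s j k z := by
    unfold qq Lq
    field_simp
    ring
  have e3 : qq s i j k z * (s i z - s j z) = Lq s i k z - Lq s j k z := by
    unfold qq Lq
    field_simp
    ring
  have n1 : ‖qq s i j k z‖ * ‖s j z - s k z‖ ≤ 2 * B := by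
    rw [← norm_mul, e1]
    refine (norm_sub_le _ _).trans ?_
    linarith only [h1, h2]
  have n2 : ‖qq s i j k z‖ * ‖s i z - s k z‖ ≤ 2 * B := by
    rw [← norm_mul, e2]
    refine (norm_sub_le _ _).trans ?_
    linarith only [h1, h3]
  have n3 : ‖qq s i j k z‖ * ‖s i z - s j z‖ ≤ 2 * B := by
    rw [← norm_mul, e3]
    refine (norm_sub_le _ _).trans ?_
    linarith only [h2, h3]
  unfold dm
  rw [mul_max_of_nonneg _ _ (norm_nonneg _), mul_max_of_nonneg _ _ (norm_nonneg _)]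
  exact max_le n3 (max_le n2 n1)

/-- (QbA2) `dm` is positive, and the modified factor in the degenerate case.
Proof. `dm ≥ ‖s i z - s j z‖ > 0` by `h.sub_ne`. -/
theorem dm_pos {F : Polynomial (Polynomial ℂ)} {n : ℕ} {U : Set ℂ} {s : Fin n → ℂ → ℂ} (h : HSec F n U s)
    {z : ℂ} (hz : z ∈ U) {t : Fin n × Fin n × Fin n} (ht : t ∈ T3 n) : 0 < dm (fun l => s l z) t := by
  have h0 : t.1 ≠ t.2.1 := by
    have := Finset.mem_filter.mp ht
    exact this.2.1
  exact lt_of_lt_of_le (norm_pos_iff.mpr (h.sub_ne hz h0)) (le_max_left _ _)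

/-- (QbA3) Proof. `Qt` is `1 / ((z - c₀) (s j z - s k z))` (`if_pos`), so the left side is `dm / (‖z - c₀‖ ‖s j z - s k z‖) ≤ M / ‖z - c₀‖`. -/
theorem Qt_zg_le {F : Polynomial (Polynomial ℂ)} {n : ℕ} {U : Set ℂ} {s : Fin n → ℂ → ℂ} (h : HSec F n U s)
    {z : ℂ} (hz : z ∈ U) {c₀ : ℂ} (hc : z ≠ c₀) {i j k : Fin n} (hjk : j ≠ k) {M : ℝ}
    (hg : Zg s i j k z) (hM : dm (fun l => s l z) (i, j, k) ≤ M * ‖s j z - s k z‖) :
    ‖Qt c₀ s (i, j, k) z‖ * dm (fun l => s l z) (i, j, k) ≤ M / ‖z - c₀‖ := by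
  have hq : Qt c₀ s (i, j, k) z = 1 / ((z - c₀) * (s j z - s k z)) := by
    unfold Qt
    exact if_pos hg
  have hd : 0 < ‖s j z - s k z‖ := norm_pos_iff.mpr (h.sub_ne hz hjk)
  have hc' : 0 < ‖z - c₀‖ := norm_pos_iff.mpr (sub_ne_zero.mpr hc)
  rw [hq, norm_div, norm_one, norm_mul, div_mul_eq_mul_div, one_mul, div_le_div_iff₀ (by positivity) hc']
  calc dm (fun l => s l z) (i, j, k) * ‖z - c₀‖ ≤ M * ‖s j z - s k z‖ * ‖z - c₀‖ :=
        mul_le_mul_of_nonneg_right hM hc'.le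
    _ = M * (‖z - c₀‖ * ‖s j z - s k z‖) := by ring

end Pool.Agent.LZ
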