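import Pool.Agent.Lib.MP_79da24_ag.TD
import Pool.Agent.Lib.MP_79da24_ag.HsC
import Pool.Agent.Lib.MP_79da24_ag.GlA
import Pool.Agent.Lib.MP_79da24_ag.GlB

set_option autoImplicit false

namespace Pool.Agent.LZ

open Polynomial Filter Topology Metric

open Classical in
/-- The sum of the shapes of the triples of constant shape. -/
noncomputable def ZgAm {n : ℕ} (s : Fin n → ℂ → ℂ) (z : ℂ) : ℝ :=
  ∑ t ∈ T3 n, if Zg s t.1 t.2.1 t.2.2 z then
    ‖s t.1 z - s t.2.1 z‖ / ‖s t.2.1 z - s t.2.2 z‖ else 0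

theorem ZgA_congr {n : ℕ} {s t : Fin n → ℂ → ℂ} {z : ℂ} (σ : Equiv.Perm (Fin n))
    (h : ∀ i, t i =ᶠ[𝓝 z] s (σ i)) : ZgAm t z = ZgAm s z := by
  classical
  unfold ZgAm
  refine Finset.sum_equiv (Equiv.prodCongr σ (Equiv.prodCongr σ σ)) ?_ ?_
  · rintro ⟨i, j, k⟩
    simp only [Equiv.prodCongr_apply, Prod.map, mem_T3, ne_eq, EmbeddingLike.apply_eq_iff_eq]
  · rintro ⟨i, j, k⟩ -
    have h1 : Zg t i j k z ↔ Zg s (σ i) (σ j) (σ k) z := Zg_congr (h i) (h j) (h k)
    have h2 : t i z = s (σ i) z := (h i).eq_of_nhds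
    have h3 : t j z = s (σ j) z := (h j).eq_of_nhds
    have h4 : t k z = s (σ k) z := (h k).eq_of_nhds
    simp only [Equiv.prodCongr_apply, Prod.map, h1, h2, h3, h4]

theorem ZgA_ball {F : Polynomial (Polynomial ℂ)} {n : ℕ} {z₀ : ℂ} {r : ℝ} {s : Fin n → ℂ → ℂ}
    (h : HSec F n (ball z₀ r) s) {z w : ℂ} (hz : z ∈ ball z₀ r) (hw : w ∈ ball z₀ r) :
    ZgAm s z = ZgAm s w := by
  classical
  unfold ZgAm
  refine Finset.sum_congr rfl ?_
  rintro ⟨i, j, k⟩ ht
  obtain ⟨hij, hik, hjk⟩ := mem_T3.mp ht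
  have h1 : Zg s i j k z ↔ Zg s i j k w :=
    (Zg_iff_ball h hij hik hjk hz).trans (Zg_iff_ball h hij hik hjk hw).symm
  by_cases hg : Zg s i j k z
  · have hg' : Zg s i j k w := h1.mp hg
    simp only [hg, hg', if_true]
    rw [← norm_div, ← norm_div, ratio_const h hij hik hjk hz hg hw]
  · have hg' : ¬ Zg s i j k w := fun hh => hg (h1.mpr hh)
    simp only [hg, hg', if_false]

/-- (ZgA) triples with a constant shape have a bounded shape.
Proof. For a family `s` and a point `z` put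
`m s z = ∑ t ∈ T3 n, if Zg s t.1 t.2.1 t.2.2 z then ‖s t.1 z - s t.2.1 z‖ / ‖s t.2.1 z - s t.2.2 z‖ else 0` (classical). As in GlA5, GlC: `m t z = m s z` if
`t i =ᶠ[𝓝 z] s (σ i)` for a permutation `σ` (reindex, `Zg_congr`), so by `hsec_match` there is a function `μ : ℂ → ℝ` with `μ z = m s z` for all
`HSec F n U s`, `z ∈ U`, `z ∉ S`. On a ball `B` with sections `s` (`hex`) `μ` is constant: by GlB2 the set of `t` with `Zg` is the same for all points of
`B` and for these `t` the quotient is constant by GlB3 (`ratio_const`, take norms). So `μ` is locally constant on `Sᶜ`; the complement of a finite set in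
`ℂ` is preconnected (`Set.Countable.isPathConnected_compl_of_one_lt_rank`, `Set.Finite.countable`, rank `ℝ ℂ = 2`), so `μ` is constant `= m₀` on `Sᶜ`
(e.g. via the restriction to the subtype, `IsLocallyConstant`, `PreconnectedSpace`; or `IsPreconnected.constant`).
Take `M = |m₀| + 1` (`Sᶜ` may be assumed to contain the point in question, so no nonemptiness problem). If `Zg s i j k z`: the term of `(i, j, k)` is
`≤ m₀` (all terms are `≥ 0`, `Finset.single_le_sum`), so `‖s i z - s j z‖ ≤ m₀ ‖s j z - s k z‖`, and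
`‖s i z - s k z‖ ≤ ‖s i z - s j z‖ + ‖s j z - s k z‖ ≤ (m₀ + 1) ‖s j z - s k z‖`. -/
theorem exists_zg_bound (F : Polynomial (Polynomial ℂ)) (n : ℕ) (S : Finset ℂ)
    (hex : ∀ z, z ∉ S → ∃ r > 0, ball z r ⊆ ((S : Set ℂ)ᶜ) ∧ ∃ s, HSec F n (ball z r) s) :
    ∃ M : ℝ, 0 < M ∧ ∀ (U : Set ℂ) (s : Fin n → ℂ → ℂ), HSec F n U s → ∀ z ∈ U, z ∉ S →
      ∀ i j k : Fin n, i ≠ j → i ≠ k → j ≠ k → Zg s i j k z →
        dm (fun l => s l z) (i, j, k) ≤ M * ‖s j z - s k z‖ := by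
  classical
  choose! r hr hball sec hsec using hex
  -- the global function
  have hglob : ∀ (U : Set ℂ) (s : Fin n → ℂ → ℂ), HSec F n U s → ∀ z ∈ U, z ∉ S →
      ZgAm (sec z) z = ZgAm s z := by
    intro U s hs z hz hzS
    obtain ⟨σ, hσ⟩ := hsec_match hs (hsec z hzS) hz (mem_ball_self (hr z hzS))
    exact ZgA_congr σ hσ
  have hpre : IsPreconnected ((S : Set ℂ)ᶜ) := by
    refine (Set.Countable.isPathConnected_compl_of_one_lt_rank ?_ ?_).isConnected.isPreconnected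
    · rw [Complex.rank_real_complex]
      exact Nat.one_lt_ofNat
    · exact (Finset.finite_toSet S).countable
  have hconst : ∀ z ∈ ((S : Set ℂ)ᶜ), ∀ w ∈ ((S : Set ℂ)ᶜ), ZgAm (sec z) z = ZgAm (sec w) w := by
    intro z hz w hw
    refine hpre.induction₂ (fun z w => ZgAm (sec z) z = ZgAm (sec w) w) ?_ ?_ ?_ hz hw
    · intro x hx
      have hx' : x ∉ S := fun hh => hx (by simpa using hh)
      have hev : ∀ᶠ y in 𝓝 x, y ∈ ball x (r x) := ball_mem_nhds x (hr x hx')
      refine (hev.filter_mono nhdsWithin_le_nhds).mono ?_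
      intro y hy
      have hy' : y ∉ S := fun hh => hball x hx' hy (by simpa using hh)
      have h1 : ZgAm (sec x) x = ZgAm (sec x) y :=
        ZgA_ball (hsec x hx') (mem_ball_self (hr x hx')) hy
      have h2 : ZgAm (sec y) y = ZgAm (sec x) y := hglob _ _ (hsec x hx') y hy hy'
      exact h1.trans h2.symm
    · intro x y w _ _ _ h1 h2
      exact h1.trans h2
    · intro x y _ _ h1
      exact h1.symm
  by_cases hne : ∃ z₀, z₀ ∉ S
  · obtain ⟨z₀, hz₀⟩ := hne
    have hz₀' : z₀ ∈ ((S : Set ℂ)ᶜ) := by simpa using hz₀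
    refine ⟨|ZgAm (sec z₀) z₀| + 1, by positivity, ?_⟩
    intro U s hs z hz hzS i j k hij hik hjk hg
    have hzS' : z ∈ ((S : Set ℂ)ᶜ) := by simpa using hzS
    have hm : ZgAm s z = ZgAm (sec z₀) z₀ :=
      (hglob U s hs z hz hzS).symm.trans (hconst z hzS' z₀ hz₀')
    have hterm : ‖s i z - s j z‖ / ‖s j z - s k z‖ ≤ ZgAm s z := by
      have hle := Finset.single_le_sum (s := T3 n)
        (f := fun t : Fin n × Fin n × Fin n => if Zg s t.1 t.2.1 t.2.2 z then
          ‖s t.1 z - s t.2.1 z‖ / ‖s t.2.1 z - s t.2.2 z‖ else 0)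
        (fun t _ => by
          split_ifs
          · positivity
          · exact le_refl 0)
        (mem_T3.mpr ⟨hij, hik, hjk⟩ : (i, j, k) ∈ T3 n)
      simp only [hg, if_true] at hle
      unfold ZgAm
      exact hle
    have hpos : 0 < ‖s j z - s k z‖ := norm_pos_iff.mpr (hs.sub_ne hz hjk)
    have h1 : ‖s i z - s j z‖ ≤ |ZgAm (sec z₀) z₀| * ‖s j z - s k z‖ := by
      have h2 : ‖s i z - s j z‖ / ‖s j z - s k z‖ ≤ |ZgAm (sec z₀) z₀| :=
        (hterm.trans hm.le).trans (le_abs_self _)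
      exact (div_le_iff₀ hpos).mp h2
    have h3 : ‖s i z - s k z‖ ≤ ‖s i z - s j z‖ + ‖s j z - s k z‖ := norm_sub_le_norm_sub_add_norm_sub _ _ _
    have h4 : 0 ≤ |ZgAm (sec z₀) z₀| := abs_nonneg _
    have h5 : 0 ≤ |ZgAm (sec z₀) z₀| * ‖s j z - s k z‖ := mul_nonneg h4 hpos.le
    show max ‖s i z - s j z‖ (max ‖s i z - s k z‖ ‖s j z - s k z‖) ≤ _
    refine max_le ?_ (max_le ?_ ?_)
    · nlinarith
    · nlinarith
    · nlinarith
  · refine ⟨1, one_pos, ?_⟩
    intro U s hs z hz hzS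
    exact absurd ⟨z, hzS⟩ hne

end Pool.Agent.LZ
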