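import Pool.Agent.Lib.MP_79da24_ag.TD
import Pool.Agent.Lib.MP_79da24_ag.Std
import Pool.Agent.Lib.MP_79da24_ag.ZgA
import Pool.Agent.Lib.MP_79da24_ag.BlA
import Pool.Agent.Lib.MP_79da24_ag.BlB
import Pool.Agent.Lib.MP_79da24_ag.QbA

set_option autoImplicit false

namespace Pool.Agent.LZ

open Polynomial Filter Topology Metric

private theorem QbB_aux {F : Polynomial (Polynomial ℂ)} {n : ℕ} {U : Set ℂ} {s : Fin n → ℂ → ℂ} (h : HSec F n U s)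
    {z : ℂ} (hz : z ∈ U) {c₀ : ℂ} (hc : z ≠ c₀) {M B : ℝ}
    (hM : ∀ i j k : Fin n, i ≠ j → i ≠ k → j ≠ k → Zg s i j k z →
      dm (fun l => s l z) (i, j, k) ≤ M * ‖s j z - s k z‖) (hM0 : 0 < M) (hB0 : 0 ≤ B)
    (hB : ∀ i j, i ≠ j → ‖Lq s i j z‖ ≤ B) (t : Fin n × Fin n × Fin n) (ht : t ∈ T3 n) :
    ‖Qt c₀ s t z‖ * dm (fun l => s l z) t ≤ 2 * B + M / ‖z - c₀‖ := by
  obtain ⟨i, j, k⟩ := t
  obtain ⟨hij, hik, hjk⟩ := mem_T3.1 ht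
  have hpos : 0 ≤ M / ‖z - c₀‖ := div_nonneg hM0.le (norm_nonneg _)
  by_cases hg : Zg s i j k z
  · have h1 := Qt_zg_le h hz hc hjk hg (hM i j k hij hik hjk hg)
    linarith
  · have e : Qt c₀ s (i, j, k) z = qq s i j k z := by
      unfold Qt
      exact if_neg hg
    rw [e]
    have h1 := qq_dm_le h hz hij hik hjk (hB i j hij) (hB i k hik) (hB j k hjk)
    linarith

/-- (QbB) the modified factors near a point `c`.
Proof. `n = F.natDegree`, `M` from `exists_zg_bound F n S (fun z hz => h.exists_hsec' hz)`, `C₁, η₁` from `Lq_near h c`. For `t = (i, j, k)`, `ρ = ‖z - c‖`: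
if `¬ Zg`: `Qt = qq` and `qq_dm_le` with `B = C₁(-log ρ)/ρ`: `≤ 2 C₁(-log ρ)/ρ`. If `Zg`: `Qt_zg_le`: `≤ M / ‖z - c₀‖`; if `c = c₀` this is
`M/ρ ≤ M (-log ρ)/ρ` as `-log ρ ≥ 1` for `ρ < 1/3`. If `c ≠ c₀` take moreover `η ≤ ‖c - c₀‖/2`: `‖z - c₀‖ ≥ ‖c - c₀‖/2 ≥ ρ` so again `≤ M/ρ`.
(`z ≠ c₀` because `z ∉ S`.) Take `C = 2 C₁ + M`. -/
theorem Qt_near {F : Polynomial (Polynomial ℂ)} {S : Finset ℂ} (h : Std F S) {c₀ : ℂ} (hc₀ : c₀ ∈ S) (c : ℂ) :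
    ∃ C η : ℝ, 0 < C ∧ 0 < η ∧ η < 1 / 3 ∧ ∀ z, 0 < ‖z - c‖ → ‖z - c‖ < η → z ∉ S ∧
      ∀ (U : Set ℂ) (s : Fin F.natDegree → ℂ → ℂ), HSec F F.natDegree U s → z ∈ U → ∀ t ∈ T3 F.natDegree,
        ‖Qt c₀ s t z‖ * dm (fun l => s l z) t ≤ C * (-Real.log ‖z - c‖) / ‖z - c‖ := by
  obtain ⟨M, hM0, hM⟩ := exists_zg_bound F F.natDegree S (fun z hz => h.exists_hsec' hz)
  obtain ⟨C₁, η₁, hC₁, hη₁, hη₁', h1⟩ := Lq_near h c
  have key : ∃ η : ℝ, 0 < η ∧ η ≤ η₁ ∧ ∀ z, ‖z - c‖ < η → ‖z - c‖ ≤ ‖z - c₀‖ := by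
    by_cases hcc : c = c₀
    · subst hcc
      exact ⟨η₁, hη₁, le_rfl, fun z _ => le_rfl⟩
    · have hpos : 0 < ‖c - c₀‖ := norm_pos_iff.2 (sub_ne_zero.2 hcc)
      refine ⟨min η₁ (‖c - c₀‖ / 2), lt_min hη₁ (by linarith), min_le_left _ _, fun z hz => ?_⟩
      have h2 : ‖z - c‖ < ‖c - c₀‖ / 2 := lt_of_lt_of_le hz (min_le_right _ _)
      have h3 : ‖c - c₀‖ ≤ ‖z - c₀‖ + ‖z - c‖ := by
        have e : c - c₀ = (z - c₀) - (z - c) := by ring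
        rw [e]
        exact norm_sub_le _ _
      linarith
  obtain ⟨η, hη, hηle, hk⟩ := key
  refine ⟨2 * C₁ + M, η, by positivity, hη, lt_of_le_of_lt hηle hη₁', fun z hz hz' => ?_⟩
  obtain ⟨hzS, h2⟩ := h1 z hz (lt_of_lt_of_le hz' hηle)
  refine ⟨hzS, fun U s hs hzU t ht => ?_⟩
  have hzc : z ≠ c₀ := fun e => hzS (e ▸ hc₀)
  have hρ3 : ‖z - c‖ < 1 / 3 := lt_trans (lt_of_lt_of_le hz' hηle) hη₁'
  have hlog : 1 ≤ -Real.log ‖z - c‖ := by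
    have h4 : Real.log ‖z - c‖ ≤ Real.log (1 / 3) := Real.log_le_log hz hρ3.le
    have h5 : Real.log (1 / 3 : ℝ) = -Real.log 3 := by
      rw [one_div, Real.log_inv]
    have h6 : 1 ≤ Real.log 3 := by
      rw [Real.le_log_iff_exp_le (by norm_num)]
      have := Real.exp_one_lt_d9
      linarith
    linarith
  have hB0 : 0 ≤ C₁ * (-Real.log ‖z - c‖) / ‖z - c‖ := by positivity
  have h3 := QbB_aux hs hzU hzc (B := C₁ * (-Real.log ‖z - c‖) / ‖z - c‖) (M := M)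
    (fun i j k hij hik hjk hg => hM U s hs z hzU hzS i j k hij hik hjk hg) hM0 hB0
    (fun i j hij => h2 U s hs hzU i j hij) t ht
  refine h3.trans ?_
  have h4 : M / ‖z - c₀‖ ≤ M * (-Real.log ‖z - c‖) / ‖z - c‖ := by
    have h5 : M / ‖z - c₀‖ ≤ M / ‖z - c‖ := by
      apply div_le_div_of_nonneg_left hM0.le hz (hk z hz')
    refine h5.trans ?_
    apply div_le_div_of_nonneg_right _ hz.le
    nlinarith
  have e : (2 * C₁ + M) * (-Real.log ‖z - c‖) / ‖z - c‖ =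
      2 * (C₁ * (-Real.log ‖z - c‖) / ‖z - c‖) + M * (-Real.log ‖z - c‖) / ‖z - c‖ := by ring
  rw [e]
  linarith

/-- (QbC) the modified factors near infinity. Proof. The same with `Lq_infty h`; for `‖z‖ > 2‖c₀‖`: `‖z - c₀‖ ≥ ‖z‖/2`, and
`M / ‖z - c₀‖ ≤ 2M/‖z‖ ≤ 2M log ‖z‖ / ‖z‖` as `log ‖z‖ ≥ 1` for `‖z‖ > 3`. -/
theorem Qt_infty {F : Polynomial (Polynomial ℂ)} {S : Finset ℂ} (h : Std F S) {c₀ : ℂ} (hc₀ : c₀ ∈ S) :
    ∃ C R : ℝ, 0 < C ∧ 3 < R ∧ ∀ z, R < ‖z‖ → z ∉ S ∧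
      ∀ (U : Set ℂ) (s : Fin F.natDegree → ℂ → ℂ), HSec F F.natDegree U s → z ∈ U → ∀ t ∈ T3 F.natDegree,
        ‖Qt c₀ s t z‖ * dm (fun l => s l z) t ≤ C * Real.log ‖z‖ / ‖z‖ := by
  obtain ⟨M, hM0, hM⟩ := exists_zg_bound F F.natDegree S (fun z hz => h.exists_hsec' hz)
  obtain ⟨C₁, R₁, hC₁, hR₁, h1⟩ := Lq_infty h
  refine ⟨2 * C₁ + 2 * M, max R₁ (2 * ‖c₀‖), by positivity, lt_of_lt_of_le hR₁ (le_max_left _ _), fun z hz => ?_⟩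
  have hzR : R₁ < ‖z‖ := lt_of_le_of_lt (le_max_left _ _) hz
  have hzc' : 2 * ‖c₀‖ < ‖z‖ := lt_of_le_of_lt (le_max_right _ _) hz
  obtain ⟨hzS, h2⟩ := h1 z hzR
  refine ⟨hzS, fun U s hs hzU t ht => ?_⟩
  have hzc : z ≠ c₀ := fun e => hzS (e ▸ hc₀)
  have hz3 : 3 < ‖z‖ := lt_trans hR₁ hzR
  have hz0 : 0 < ‖z‖ := by linarith
  have hlog : 1 ≤ Real.log ‖z‖ := by
    have h4 : Real.log 3 ≤ Real.log ‖z‖ := Real.log_le_log (by norm_num) hz3.le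
    have h6 : 1 ≤ Real.log 3 := by
      rw [Real.le_log_iff_exp_le (by norm_num)]
      have := Real.exp_one_lt_d9
      linarith
    linarith
  have hB0 : 0 ≤ C₁ * Real.log ‖z‖ / ‖z‖ := by positivity
  have h3 := QbB_aux hs hzU hzc (B := C₁ * Real.log ‖z‖ / ‖z‖) (M := M)
    (fun i j k hij hik hjk hg => hM U s hs z hzU hzS i j k hij hik hjk hg) hM0 hB0
    (fun i j hij => h2 U s hs hzU i j hij) t ht
  refine h3.trans ?_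
  have hnz : ‖z‖ / 2 ≤ ‖z - c₀‖ := by
    have h7 : ‖z‖ - ‖c₀‖ ≤ ‖z - c₀‖ := norm_sub_norm_le _ _
    linarith
  have h4 : M / ‖z - c₀‖ ≤ 2 * M * Real.log ‖z‖ / ‖z‖ := by
    have h5 : M / ‖z - c₀‖ ≤ M / (‖z‖ / 2) := by
      apply div_le_div_of_nonneg_left hM0.le (by linarith) hnz
    refine h5.trans ?_
    have e : M / (‖z‖ / 2) = 2 * M / ‖z‖ := by
      field_simp
    rw [e]
    apply div_le_div_of_nonneg_right _ hz0.le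
    nlinarith
  have e : (2 * C₁ + 2 * M) * Real.log ‖z‖ / ‖z‖ =
      2 * (C₁ * Real.log ‖z‖ / ‖z‖) + 2 * M * Real.log ‖z‖ / ‖z‖ := by ring
  rw [e]
  linarith

end Pool.Agent.LZ
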