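import Pool.Agent.Lib.MP_79da24_ag.TrA

set_option autoImplicit false

namespace Pool.Agent.LZ

open Polynomial Filter Topology Metric

theorem TrB_card_I {n : ℕ} {i j : Fin n} (h : i ≠ j) :
    (Finset.univ.filter (fun k : Fin n => i ≠ k ∧ j ≠ k)).card = n - 2 := by
  have h1 : (Finset.univ.filter (fun k : Fin n => i ≠ k ∧ j ≠ k)) = Finset.univ \ {i, j} := by
    ext k
    simp only [Finset.mem_filter, Finset.mem_univ, true_and, Finset.mem_sdiff, Finset.mem_insert,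
      Finset.mem_singleton, not_or]
    exact ⟨fun hk => ⟨fun e => hk.1 e.symm, fun e => hk.2 e.symm⟩,
      fun hk => ⟨fun e => hk.1 e.symm, fun e => hk.2 e.symm⟩⟩
  rw [h1, Finset.card_sdiff_of_subset (Finset.subset_univ _), Finset.card_pair h, Finset.card_univ,
    Fintype.card_fin]

theorem TrB_card_P2 (n : ℕ) : (P2 n).card ≤ n ^ 2 := by
  have h1 : (P2 n).card ≤ (Finset.univ : Finset (Fin n × Fin n)).card :=
    Finset.card_le_card (Finset.subset_univ _)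
  rw [Finset.card_univ, Fintype.card_prod, Fintype.card_fin] at h1
  nlinarith

theorem TrB_dm_ge {n : ℕ} (y : Fin n → ℂ) (i j k : Fin n) :
    ‖y i - y j‖ ≤ dm y (i, j, k) ∧ ‖y i - y k‖ ≤ dm y (i, j, k) := by
  unfold dm
  exact ⟨le_max_left _ _, le_trans (le_max_left _ _) (le_max_right _ _)⟩

/-- the bound for one pair. -/
theorem TrB_pair {n p : ℕ} (y : Fin n → ℂ) (hy : Function.Injective y) {ε : ℝ} (hε : 0 < ε) (hε1 : ε ≤ 1)
    (hp : 2 ≤ p) (hpn : p ≤ n) (h : ∀ i, (Finset.univ.filter fun k => ‖y i - y k‖ < ε).card ≤ p)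
    {i j : Fin n} (hij : i ≠ j) :
    (ε / 2) ^ n * ‖y i - y j‖ ^ (p - 2) ≤
      ∏ k ∈ Finset.univ.filter (fun k => i ≠ k ∧ j ≠ k), dm y (i, j, k) := by
  have hd : 0 < ‖y i - y j‖ := norm_pos_iff.mpr (sub_ne_zero.mpr fun e => hij (hy e))
  set d := ‖y i - y j‖ with hddef
  set I := Finset.univ.filter (fun k => i ≠ k ∧ j ≠ k) with hI
  have hcard : I.card = n - 2 := TrB_card_I hij
  have hε2 : 0 < ε / 2 := by linarith
  have hε21 : ε / 2 ≤ 1 := by linarith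
  rcases le_or_gt (ε / 2) d with hc | hc
  · have h1 : d ^ (n - 2) ≤ ∏ k ∈ I, dm y (i, j, k) := by
      rw [← hcard, ← Finset.prod_const]
      exact Finset.prod_le_prod (fun k _ => hd.le) (fun k _ => (TrB_dm_ge y i j k).1)
    refine le_trans ?_ h1
    have h2 : n - 2 = (n - p) + (p - 2) := by omega
    rw [h2, pow_add]
    refine mul_le_mul_of_nonneg_right ?_ (pow_nonneg hd.le _)
    calc (ε / 2) ^ n ≤ (ε / 2) ^ (n - p) := pow_le_pow_of_le_one hε2.le hε21 (Nat.sub_le n p)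
      _ ≤ d ^ (n - p) := pow_le_pow_left₀ hε2.le hc _
  · have hd1 : d ≤ 1 := by linarith
    classical
    set I₁ := I.filter (fun k => ‖y i - y k‖ < ε) with hI₁
    have hc1 : I₁.card ≤ p - 2 := by
      have hsub : insert i (insert j I₁) ⊆ Finset.univ.filter fun k => ‖y i - y k‖ < ε := by
        intro k hk
        rw [Finset.mem_insert, Finset.mem_insert] at hk
        rw [Finset.mem_filter]
        refine ⟨Finset.mem_univ _, ?_⟩
        rcases hk with rfl | rfl | hk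
        · simpa using hε
        · linarith
        · exact (Finset.mem_filter.mp hk).2
      have hj : j ∉ I₁ := by
        intro hj
        have := (Finset.mem_filter.mp (Finset.mem_filter.mp hj).1).2.2
        exact this rfl
      have hi : i ∉ insert j I₁ := by
        intro hi
        rw [Finset.mem_insert] at hi
        rcases hi with hi | hi
        · exact hij hi
        · have := (Finset.mem_filter.mp (Finset.mem_filter.mp hi).1).2.1
          exact this rfl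
      have h3 := Finset.card_le_card hsub
      rw [Finset.card_insert_of_notMem hi, Finset.card_insert_of_notMem hj] at h3
      have h4 := h i
      omega
    have hsplit : ∏ k ∈ I, dm y (i, j, k) =
        (∏ k ∈ I₁, dm y (i, j, k)) * ∏ k ∈ I.filter (fun k => ¬ ‖y i - y k‖ < ε), dm y (i, j, k) := by
      rw [hI₁, Finset.prod_filter_mul_prod_filter_not]
    rw [hsplit]
    have hA : d ^ (p - 2) ≤ ∏ k ∈ I₁, dm y (i, j, k) := by
      calc d ^ (p - 2) ≤ d ^ I₁.card := pow_le_pow_of_le_one hd.le hd1 hc1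
        _ = ∏ k ∈ I₁, d := by rw [Finset.prod_const]
        _ ≤ ∏ k ∈ I₁, dm y (i, j, k) :=
          Finset.prod_le_prod (fun k _ => hd.le) (fun k _ => (TrB_dm_ge y i j k).1)
    have hB : (ε / 2) ^ n ≤ ∏ k ∈ I.filter (fun k => ¬ ‖y i - y k‖ < ε), dm y (i, j, k) := by
      have hcn : (I.filter (fun k => ¬ ‖y i - y k‖ < ε)).card ≤ n := by
        refine le_trans (Finset.card_le_univ _) ?_
        rw [Fintype.card_fin]
      calc (ε / 2) ^ n ≤ (ε / 2) ^ (I.filter (fun k => ¬ ‖y i - y k‖ < ε)).card :=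
            pow_le_pow_of_le_one hε2.le hε21 hcn
        _ = ∏ k ∈ I.filter (fun k => ¬ ‖y i - y k‖ < ε), ε / 2 := by rw [Finset.prod_const]
        _ ≤ ∏ k ∈ I.filter (fun k => ¬ ‖y i - y k‖ < ε), dm y (i, j, k) := by
          refine Finset.prod_le_prod (fun k _ => hε2.le) (fun k hk => ?_)
          have h5 := (Finset.mem_filter.mp hk).2
          have h6 := (TrB_dm_ge y i j k).2
          linarith [not_lt.mp h5]
    calc (ε / 2) ^ n * d ^ (p - 2) = d ^ (p - 2) * (ε / 2) ^ n := mul_comm _ _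
      _ ≤ _ := mul_le_mul hA hB (pow_nonneg hε2.le _) (le_trans (pow_nonneg hd.le _) hA)

/-- (TrB1) Proof. `prod_T3` with `f = dm y`. Fix `a = (i, j)`, `i ≠ j`, `d = ‖y i - y j‖ > 0`, `I = {k | i ≠ k ∧ j ≠ k}`, `card I = n - 2`. For every `k`:
`dm y (i, j, k) ≥ d`, `≥ ‖y i - y k‖`. Claim: `∏_{k ∈ I} dm ≥ (ε/2)^n d^{p-2}`.
Case `d ≥ ε/2`: the product is `≥ d^{n-2} = d^{p-2} d^{n-p} ≥ d^{p-2} (ε/2)^{n-p} ≥ d^{p-2} (ε/2)^n` (`ε/2 ≤ 1`).
Case `d < ε/2`: let `I₁ = {k ∈ I | ‖y i - y k‖ < ε}`; the set `{k | ‖y i - y k‖ < ε}` contains `i`, `j` and `I₁`, so `card I₁ ≤ p - 2`.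
The product is `≥ d^{card I₁} ε^{card (I \ I₁)} ≥ d^{p-2} (ε/2)^n` as `d < 1`, `ε/2 ≤ ε ≤ 1`.
Multiply over the `n (n-1) ≤ n²` pairs: `∏ ≥ (ε/2)^{n · card P2} (∏ d)^{p-2} ≥ (ε/2)^{n^3} (∏ d)^{p-2}` (`Finset.prod_le_prod`, `Finset.prod_pow`,
`pow_le_pow_of_le_one`). -/
theorem prod_dm_ge {n p : ℕ} (y : Fin n → ℂ) (hy : Function.Injective y) {ε : ℝ} (hε : 0 < ε) (hε1 : ε ≤ 1)
    (hp : 2 ≤ p) (hpn : p ≤ n) (h : ∀ i, (Finset.univ.filter fun k => ‖y i - y k‖ < ε).card ≤ p) :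
    (ε / 2) ^ (n ^ 3) * (∏ t ∈ P2 n, ‖y t.1 - y t.2‖) ^ (p - 2) ≤ ∏ t ∈ T3 n, dm y t := by
  rw [prod_T3]
  have hε2 : 0 < ε / 2 := by linarith
  have hε21 : ε / 2 ≤ 1 := by linarith
  have h1 : ∏ a ∈ P2 n, ((ε / 2) ^ n * ‖y a.1 - y a.2‖ ^ (p - 2)) ≤
      ∏ a ∈ P2 n, ∏ k ∈ Finset.univ.filter (fun k => a.1 ≠ k ∧ a.2 ≠ k), dm y (a.1, a.2, k) := by
    refine Finset.prod_le_prod (fun a _ => by positivity) (fun a ha => ?_)
    obtain ⟨i, j⟩ := a
    rw [mem_P2] at ha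
    exact TrB_pair y hy hε hε1 hp hpn h ha
  refine le_trans ?_ h1
  rw [Finset.prod_mul_distrib, Finset.prod_const, Finset.prod_pow, ← pow_mul]
  refine mul_le_mul_of_nonneg_right ?_ (pow_nonneg (Finset.prod_nonneg fun t _ => norm_nonneg _) _)
  refine pow_le_pow_of_le_one hε2.le hε21 ?_
  calc n * (P2 n).card ≤ n * n ^ 2 := Nat.mul_le_mul_left _ (TrB_card_P2 n)
    _ = n ^ 3 := by ring

/-- (TrB2) Proof. `prod_T3`, and for each pair `∏_{k} dm y (i, j, k) ≥ ‖y i - y j‖^{n-2}` (the number of `k` is `n - 2`). -/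
theorem prod_dm_ge' {n : ℕ} (y : Fin n → ℂ) :
    (∏ t ∈ P2 n, ‖y t.1 - y t.2‖) ^ (n - 2) ≤ ∏ t ∈ T3 n, dm y t := by
  rw [prod_T3, ← Finset.prod_pow]
  refine Finset.prod_le_prod (fun a _ => pow_nonneg (norm_nonneg _) _) (fun a ha => ?_)
  obtain ⟨i, j⟩ := a
  rw [mem_P2] at ha
  rw [← TrB_card_I ha, ← Finset.prod_const]
  exact Finset.prod_le_prod (fun k _ => norm_nonneg _) (fun k _ => (TrB_dm_ge y i j k).1)

end Pool.Agent.LZ
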