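import Pool.Agent.Lib.MP_79da24_ag.ClD

set_option autoImplicit false

namespace Pool.Agent.LZ

open Polynomial Filter Topology Metric

/-- (StA1) the number of the far roots.
Proof. Every index `i` satisfies `R + 1 < ‖s i z‖` or `‖s i z - P‖ < ε` for some `P ∈ E` (`dich`, since `F.evalEval z (s i z) = 0` by `mem_iff`); the `P` is
unique (`sep`: two would give `‖P - P'‖ < 2ε`), and the two alternatives exclude each other (`‖s i z‖ < ‖P‖ + ε ≤ R`). So `n = #far + ∑_P #{near P}
= #far + ∑_P e_P = #far + natDegree (spec c F)` (`count`; `∑_{P} rootMultiplicity = card roots = natDegree`: `Multiset.toFinset_sum_count_eq`, `count_roots`,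
`IsAlgClosed.splits _ |>.natDegree_eq_card_roots`). -/
theorem card_far {F : Polynomial (Polynomial ℂ)} {S : Finset ℂ} {c : ℂ} {ε R C η : ℝ} (hc : Clus F S c ε R C η)
    {z : ℂ} (hz : 0 < ‖z - c‖) (hz' : ‖z - c‖ < η) {U : Set ℂ} {s : Fin F.natDegree → ℂ → ℂ}
    (hs : HSec F F.natDegree U s) (hzU : z ∈ U) :
    (Finset.univ.filter fun i => R + 1 < ‖s i z‖).card + (spec c F).natDegree = F.natDegree := by
  classical
  have hdisj : ∀ (P : ℂ), P ∈ (spec c F).roots.toFinset → ∀ y : ℂ, ‖y - P‖ < ε → ‖y‖ < R := by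
    intro P hP y hy
    have h1 := hc.bd P hP
    have h2 : ‖y‖ ≤ ‖y - P‖ + ‖P‖ := by
      have e : y = (y - P) + P := by ring
      calc ‖y‖ = ‖(y - P) + P‖ := by rw [← e]
        _ ≤ _ := norm_add_le _ _
    have h3 := hc.εle
    linarith
  have hpart : (Finset.univ : Finset (Fin F.natDegree)) =
      (Finset.univ.filter fun i => R + 1 < ‖s i z‖) ∪
        (spec c F).roots.toFinset.biUnion (fun P => Finset.univ.filter fun i => ‖s i z - P‖ < ε) := by
    symm
    rw [Finset.eq_univ_iff_forall]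
    intro i
    rw [Finset.mem_union, Finset.mem_filter, Finset.mem_biUnion]
    have h1 : F.evalEval z (s i z) = 0 := (hs.mem_iff z hzU _).2 ⟨i, rfl⟩
    rcases hc.dich z (s i z) hz' h1 with h2 | ⟨P, hP, h2, _⟩
    · exact Or.inl ⟨Finset.mem_univ _, h2⟩
    · exact Or.inr ⟨P, hP, Finset.mem_filter.2 ⟨Finset.mem_univ _, h2⟩⟩
  have h1 : (Finset.univ : Finset (Fin F.natDegree)).card =
      (Finset.univ.filter fun i => R + 1 < ‖s i z‖).card +
        ∑ P ∈ (spec c F).roots.toFinset, (Finset.univ.filter fun i => ‖s i z - P‖ < ε).card := by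
    rw [hpart, Finset.card_union_of_disjoint, Finset.card_biUnion]
    · rw [← hpart]
    · intro P hP P' hP' hne
      rw [Function.onFun, Finset.disjoint_left]
      intro i hi hi'
      rw [Finset.mem_filter] at hi hi'
      have h2 := hc.sep P hP P' hP' hne
      have h3 : ‖P - P'‖ ≤ ‖s i z - P‖ + ‖s i z - P'‖ := by
        have e : P - P' = (s i z - P') - (s i z - P) := by ring
        rw [e]
        refine (norm_sub_le _ _).trans ?_
        rw [add_comm]
      have h4 := hc.εpos
      linarith [hi.2, hi'.2]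
    · rw [Finset.disjoint_left]
      intro i hi hi'
      rw [Finset.mem_filter] at hi
      rw [Finset.mem_biUnion] at hi'
      obtain ⟨P, hP, hi''⟩ := hi'
      rw [Finset.mem_filter] at hi''
      have := hdisj P hP _ hi''.2
      linarith [hi.2]
  have h2 : ∑ P ∈ (spec c F).roots.toFinset, (Finset.univ.filter fun i => ‖s i z - P‖ < ε).card =
      (spec c F).natDegree := by
    rw [Finset.sum_congr rfl fun P hP => hc.count z hz hz' U s hs hzU P hP]
    have h3 : (spec c F).natDegree = Multiset.card (spec c F).roots :=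
      (IsAlgClosed.splits (spec c F)).natDegree_eq_card_roots
    rw [h3, ← Multiset.toFinset_sum_count_eq]
    exact Finset.sum_congr rfl fun P _ => (Polynomial.count_roots _).symm
  rw [Finset.card_univ, Fintype.card_fin, h2] at h1
  exact h1.symm

/-- (StA2) every small disc around a root contains at most `p` roots.
Proof. Case `s i z` near `P` (`‖s i z - P‖ < ε`): if `‖s i z - s k z‖ < ε` then `‖s k z - P‖ < 2ε`; `s k z` is not far (`‖s k z‖ < ‖P‖ + 2ε ≤ ‖P‖ + 2 ≤ R + 1`),
and it is not near another `P'` (`‖P - P'‖ < 3ε < 4ε`), so it is near `P`: the set is contained in `{k | ‖s k z - P‖ < ε}`, of cardinality `e_P ≤ p`.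
Case `s i z` far: then `s k z` with `‖s i z - s k z‖ < ε ≤ 1` satisfies `‖s k z‖ > R`, so it is not near any `P'` (`‖s k z‖ < ‖P'‖ + ε ≤ R`), so it is far:
cardinality `≤ n - natDegree (spec c F) ≤ p` by StA1. -/
theorem star {F : Polynomial (Polynomial ℂ)} {S : Finset ℂ} {c : ℂ} {ε R C η : ℝ} (hc : Clus F S c ε R C η) {p : ℕ}
    (hp : ∀ P ∈ (spec c F).roots.toFinset, (spec c F).rootMultiplicity P ≤ p)
    (hf : F.natDegree - (spec c F).natDegree ≤ p)
    {z : ℂ} (hz : 0 < ‖z - c‖) (hz' : ‖z - c‖ < η) {U : Set ℂ} {s : Fin F.natDegree → ℂ → ℂ}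
    (hs : HSec F F.natDegree U s) (hzU : z ∈ U) (i : Fin F.natDegree) :
    (Finset.univ.filter fun k => ‖s i z - s k z‖ < ε).card ≤ p := by
  classical
  have hroot : ∀ k, F.evalEval z (s k z) = 0 := fun k => (hs.mem_iff z hzU _).2 ⟨k, rfl⟩
  have hε1 := hc.εle
  have hε0 := hc.εpos
  rcases hc.dich z (s i z) hz' (hroot i) with hfar | ⟨P, hP, hnear, _⟩
  · have h1 := card_far hc hz hz' hs hzU
    have h2 : (Finset.univ.filter fun k => ‖s i z - s k z‖ < ε).card ≤
        (Finset.univ.filter fun k => R + 1 < ‖s k z‖).card := by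
      apply Finset.card_le_card
      intro k hk
      rw [Finset.mem_filter] at hk ⊢
      refine ⟨Finset.mem_univ _, ?_⟩
      have h3 : ‖s i z‖ - ‖s k z‖ ≤ ‖s i z - s k z‖ := norm_sub_norm_le _ _
      rcases hc.dich z (s k z) hz' (hroot k) with h4 | ⟨P', hP', h4, _⟩
      · exact h4
      · exfalso
        have h5 := hc.bd P' hP'
        have h6 : ‖s k z‖ - ‖P'‖ ≤ ‖s k z - P'‖ := norm_sub_norm_le _ _
        linarith [hk.2]
    omega
  · have h2 : (Finset.univ.filter fun k => ‖s i z - s k z‖ < ε).card ≤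
        (Finset.univ.filter fun k => ‖s k z - P‖ < ε).card := by
      apply Finset.card_le_card
      intro k hk
      rw [Finset.mem_filter] at hk ⊢
      refine ⟨Finset.mem_univ _, ?_⟩
      have h3 : ‖s k z - P‖ ≤ ‖s i z - P‖ + ‖s i z - s k z‖ := by
        have e : s k z - P = (s i z - P) - (s i z - s k z) := by ring
        rw [e]
        exact norm_sub_le _ _
      rcases hc.dich z (s k z) hz' (hroot k) with h4 | ⟨P', hP', h4, _⟩
      · exfalso
        have h5 := hc.bd P hP
        have h6 : ‖s k z‖ - ‖P‖ ≤ ‖s k z - P‖ := norm_sub_norm_le _ _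
        linarith [hk.2]
      · by_cases hPP : P = P'
        · rw [hPP]
          exact h4
        · exfalso
          have h5 := hc.sep P hP P' hP' hPP
          have h6 : ‖P - P'‖ ≤ ‖s k z - P'‖ + ‖s k z - P‖ := by
            have e : P - P' = (s k z - P') - (s k z - P) := by ring
            rw [e]
            exact norm_sub_le _ _
          linarith [hk.2]
    rw [hc.count z hz hz' U s hs hzU P hP] at h2
    exact h2.trans (hp P hP)

/-- (StA3) the sum of the weights.
Proof. `wt g ε y = 1 - ∑_{P ∈ E, ‖y - P‖ < ε} 1/e_P` (definition in TD.lean, `g = spec c F`). Exchange the sums: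
`∑_i wt = n - ∑_{P ∈ E} #{i | ‖s i z - P‖ < ε} / e_P = n - ∑_{P ∈ E} 1 = n - nr g` by `count` (`e_P ≠ 0` as `P` is a root of `g ≠ 0`;
`nr g = g.roots.toFinset.card`). (`Finset.sum_filter`, `Finset.sum_comm`, `Finset.card_filter`.) -/
theorem sum_wt {F : Polynomial (Polynomial ℂ)} {S : Finset ℂ} {c : ℂ} {ε R C η : ℝ} (hc : Clus F S c ε R C η)
    {z : ℂ} (hz : 0 < ‖z - c‖) (hz' : ‖z - c‖ < η) {U : Set ℂ} {s : Fin F.natDegree → ℂ → ℂ}
    (hs : HSec F F.natDegree U s) (hzU : z ∈ U) :
    ∑ i, wt (spec c F) ε (s i z) = (F.natDegree : ℝ) - (nr (spec c F) : ℝ) := by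
  classical
  unfold wt
  rw [Finset.sum_sub_distrib]
  have e1 : ∑ _i : Fin F.natDegree, (1 : ℝ) = (F.natDegree : ℝ) := by
    rw [Finset.sum_const, Finset.card_univ, Fintype.card_fin, nsmul_eq_mul, mul_one]
  rw [e1]
  have e2 : ∑ i : Fin F.natDegree, ∑ P ∈ (spec c F).roots.toFinset.filter (fun P => ‖s i z - P‖ < ε),
      1 / ((spec c F).rootMultiplicity P : ℝ) = (nr (spec c F) : ℝ) := by
    have e3 : ∀ i : Fin F.natDegree, ∑ P ∈ (spec c F).roots.toFinset.filter (fun P => ‖s i z - P‖ < ε),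
      1 / ((spec c F).rootMultiplicity P : ℝ) = ∑ P ∈ (spec c F).roots.toFinset,
        if ‖s i z - P‖ < ε then 1 / ((spec c F).rootMultiplicity P : ℝ) else 0 := by
      intro i
      rw [Finset.sum_filter]
    rw [Finset.sum_congr rfl fun i _ => e3 i, Finset.sum_comm]
    have e4 : ∀ P ∈ (spec c F).roots.toFinset, ∑ i : Fin F.natDegree,
        (if ‖s i z - P‖ < ε then 1 / ((spec c F).rootMultiplicity P : ℝ) else 0) = 1 := by
      intro P hP
      rw [← Finset.sum_filter, Finset.sum_const, hc.count z hz hz' U s hs hzU P hP, nsmul_eq_mul]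
      have h5 : (spec c F).rootMultiplicity P ≠ 0 := by
        have h6 : P ∈ (spec c F).roots := Multiset.mem_toFinset.1 hP
        rw [← Polynomial.count_roots]
        exact (Multiset.count_pos.2 h6).ne'
      have h7 : ((spec c F).rootMultiplicity P : ℝ) ≠ 0 := by exact_mod_cast h5
      field_simp
    rw [Finset.sum_congr rfl e4, Finset.sum_const, nsmul_eq_mul, mul_one]
    rfl
  rw [e2]

end Pool.Agent.LZ
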