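import Pool.Agent.Lib.MP_79da24_ag.ClD
import Pool.Agent.Lib.MP_79da24_ag.DbA
import Pool.Agent.Lib.MP_79da24_ag.QbB
import Pool.Agent.Lib.MP_79da24_ag.ZgA
import Pool.Agent.Lib.MP_79da24_ag.StA

set_option autoImplicit false

namespace Pool.Agent.LZ

open Polynomial Filter Topology Metric

/-- (WtA1) values of the weight.
Proof. `wt g ε y = 1 - ∑_{P ∈ E, ‖y - P‖ < ε} 1/e_P`. If `‖y - P‖ < ε` then the filter is `{P}` by `sep`. If `y` is far it is empty (`bd`). -/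
theorem wt_near {F : Polynomial (Polynomial ℂ)} {c : ℂ} {ε R C η : ℝ} (hc : Clus0 F c ε R C η) {y P : ℂ}
    (hP : P ∈ (spec c F).roots.toFinset) (hy : ‖y - P‖ < ε) :
    wt (spec c F) ε y = 1 - 1 / ((spec c F).rootMultiplicity P : ℝ) := by
  unfold wt
  have hfil : (spec c F).roots.toFinset.filter (fun Q => ‖y - Q‖ < ε) = {P} := by
    ext Q
    rw [Finset.mem_filter, Finset.mem_singleton]
    constructor
    · rintro ⟨hQ, hyQ⟩
      by_contra hne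
      have h1 := hc.sep Q hQ P hP hne
      have h2 : ‖Q - P‖ ≤ ‖y - P‖ + ‖y - Q‖ := by
        have h3 : Q - P = (y - P) - (y - Q) := by ring
        rw [h3]
        exact norm_sub_le _ _
      have h4 := hc.εpos
      linarith
    · intro h
      rw [h]
      exact ⟨hP, hy⟩
  rw [hfil, Finset.sum_singleton]

theorem wt_far {F : Polynomial (Polynomial ℂ)} {c : ℂ} {ε R C η : ℝ} (hc : Clus0 F c ε R C η) {y : ℂ}
    (hy : R + 1 < ‖y‖) : wt (spec c F) ε y = 1 := by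
  unfold wt
  have hfil : (spec c F).roots.toFinset.filter (fun Q => ‖y - Q‖ < ε) = ∅ := by
    refine Finset.filter_eq_empty_iff.2 ?_
    intro Q hQ hyQ
    have h1 := hc.bd Q hQ
    have h2 : ‖y‖ ≤ ‖y - Q‖ + ‖Q‖ := by
      have h3 : y = (y - Q) + Q := by ring
      calc ‖y‖ = ‖(y - Q) + Q‖ := by rw [← h3]
        _ ≤ _ := norm_add_le _ _
    have h4 := hc.εle
    linarith
  rw [hfil, Finset.sum_empty, sub_zero]

private theorem WtA_mult_pos {g : Polynomial ℂ} {P : ℂ} (hP : P ∈ g.roots.toFinset) : 1 ≤ g.rootMultiplicity P := by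
  rw [Multiset.mem_toFinset] at hP
  rw [← count_roots]
  exact Multiset.one_le_count_iff_mem.2 hP

private theorem WtA_near_bd {F : Polynomial (Polynomial ℂ)} {c : ℂ} {ε R C η : ℝ} (hc : Clus0 F c ε R C η) {y P : ℂ}
    (hP : P ∈ (spec c F).roots.toFinset) (hy : ‖y - P‖ < ε) :
    0 ≤ wt (spec c F) ε y ∧ wt (spec c F) ε y ≤ 1 := by
  rw [wt_near hc hP hy]
  have h1 : (1 : ℝ) ≤ ((spec c F).rootMultiplicity P : ℝ) := by exact_mod_cast WtA_mult_pos hP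
  have h2 : 1 / ((spec c F).rootMultiplicity P : ℝ) ≤ 1 := by
    rw [div_le_one (by linarith)]
    exact h1
  have h3 : 0 ≤ 1 / ((spec c F).rootMultiplicity P : ℝ) := by positivity
  exact ⟨by linarith, by linarith⟩

private theorem WtA_bd1 {F : Polynomial (Polynomial ℂ)} {c : ℂ} {ε R C η : ℝ} (hc : Clus0 F c ε R C η) {y : ℂ}
    (hy : R + 1 < ‖y‖ ∨ ∃ P ∈ (spec c F).roots.toFinset, ‖y - P‖ < ε) :
    0 ≤ wt (spec c F) ε y ∧ wt (spec c F) ε y ≤ 1 := by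
  rcases hy with hy | ⟨P, hP, hy⟩
  · rw [wt_far hc hy]
    exact ⟨zero_le_one, le_refl _⟩
  · exact WtA_near_bd hc hP hy

/-- two roots near the same point have weights of sum at least one -/
private theorem WtA_pair {F : Polynomial (Polynomial ℂ)} {S : Finset ℂ} {c : ℂ} {ε R C η : ℝ} (hc : Clus F S c ε R C η)
    {z : ℂ} (hz : 0 < ‖z - c‖) (hz' : ‖z - c‖ < η) {U : Set ℂ} {s : Fin F.natDegree → ℂ → ℂ}
    (hs : HSec F F.natDegree U s) (hzU : z ∈ U) {i j : Fin F.natDegree} (hij : i ≠ j) {P : ℂ}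
    (hP : P ∈ (spec c F).roots.toFinset) (hi : ‖s i z - P‖ < ε) (hj : ‖s j z - P‖ < ε) :
    1 ≤ wt (spec c F) ε (s i z) + wt (spec c F) ε (s j z) := by
  rw [wt_near hc.toClus0 hP hi, wt_near hc.toClus0 hP hj]
  have h1 := hc.count z hz hz' U s hs hzU P hP
  have h2 : 2 ≤ (spec c F).rootMultiplicity P := by
    rw [← h1]
    have h3 : ({i, j} : Finset (Fin F.natDegree)) ⊆ Finset.univ.filter fun l => ‖s l z - P‖ < ε := by
      intro l hl
      rw [Finset.mem_insert, Finset.mem_singleton] at hl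
      rw [Finset.mem_filter]
      rcases hl with rfl | rfl
      · exact ⟨Finset.mem_univ _, hi⟩
      · exact ⟨Finset.mem_univ _, hj⟩
    have h4 := Finset.card_le_card h3
    rw [Finset.card_pair hij] at h4
    exact h4
  have h5 : (2 : ℝ) ≤ ((spec c F).rootMultiplicity P : ℝ) := by exact_mod_cast h2
  have h6 : 1 / ((spec c F).rootMultiplicity P : ℝ) ≤ 1 / 2 :=
    one_div_le_one_div_of_le (by norm_num) h5
  linarith

private theorem WtA_log {ρ : ℝ} (h0 : 0 < ρ) (h1 : ρ < 1 / 3) : 1 ≤ -Real.log ρ := by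
  have h2 : Real.log ρ ≤ Real.log (1 / 3) := Real.log_le_log h0 h1.le
  have h3 : Real.log (1 / 3) = -Real.log 3 := by
    rw [one_div, Real.log_inv]
  have h4 : (1 : ℝ) < Real.log 3 := by
    rw [Real.lt_log_iff_exp_lt (by norm_num)]
    have h5 := Real.exp_one_lt_d9
    linarith
  linarith

/-- lower bound for the distance of two roots near different points -/
private theorem WtA_sep {F : Polynomial (Polynomial ℂ)} {c : ℂ} {ε R C η : ℝ} (hc : Clus0 F c ε R C η) {y y' P P' : ℂ}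
    (hP : P ∈ (spec c F).roots.toFinset) (hP' : P' ∈ (spec c F).roots.toFinset) (hne : P ≠ P')
    (hy : ‖y - P‖ < ε) (hy' : ‖y' - P'‖ < ε) : 2 * ε ≤ ‖y - y'‖ := by
  have h1 := hc.sep P hP P' hP' hne
  have h2 : P - P' = (y - y') - ((y - P) - (y' - P')) := by ring
  have h3 : ‖P - P'‖ ≤ ‖y - y'‖ + ‖(y - P) - (y' - P')‖ := by
    rw [h2]
    exact norm_sub_le _ _
  have h4 : ‖(y - P) - (y' - P')‖ ≤ ‖y - P‖ + ‖y' - P'‖ := norm_sub_le _ _
  linarith

private theorem WtA_norm {F : Polynomial (Polynomial ℂ)} {c : ℂ} {ε R C η : ℝ} (hc : Clus0 F c ε R C η) {y P : ℂ}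
    (hP : P ∈ (spec c F).roots.toFinset) (hy : ‖y - P‖ < ε) : ‖y‖ ≤ R := by
  have h1 := hc.bd P hP
  have h2 := hc.εle
  have h3 : ‖y‖ ≤ ‖y - P‖ + ‖P‖ := by
    calc ‖y‖ = ‖(y - P) + P‖ := by rw [sub_add_cancel]
      _ ≤ _ := norm_add_le _ _
  linarith

/-- the estimate of `Lq` -/
private theorem WtA_Lq {n : ℕ} {s : Fin n → ℂ → ℂ} {z : ℂ} {i j : Fin n} {ε B : ℝ} (hε : 0 < ε)
    (hd : 2 * ε ≤ ‖s i z - s j z‖) (hi : ‖deriv (s i) z‖ ≤ B) (hj : ‖deriv (s j) z‖ ≤ B) :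
    ‖Lq s i j z‖ ≤ B / ε := by
  unfold Lq
  rw [norm_div]
  have h1 : ‖deriv (s i) z - deriv (s j) z‖ ≤ 2 * B := by
    have := norm_sub_le (deriv (s i) z) (deriv (s j) z)
    linarith
  have h0 : 0 ≤ B := le_trans (norm_nonneg _) hi
  have h2 : B / ε = (2 * B) / (2 * ε) := by
    rw [mul_div_mul_left _ _ (by norm_num : (2 : ℝ) ≠ 0)]
  rw [h2]
  exact div_le_div₀ (by linarith) h1 (by linarith) hd

/-- (WtA2) the modified factors near a point `c ≠ c₀`, with weights.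
Proof. Let `t = (i, j, k) ∈ T3 n`, `ρ = ‖z - c‖`, `g = spec c F`, `w_l = wt g ε (s l z) ∈ [0, 1]` (WtA1: every root is near or far; `e_P ≥ 1`),
`W = w_i + w_j + w_k ≥ 0`; `ρ < 1/3` so `ρ^{-W} ≥ 1` and `-log ρ ≥ 1`. Constants: `M` of `exists_zg_bound`, `C₁, η₁` of `Qt_near h hc₀ c`, `C₂, η₂` of `deriv_le h hc`.
Case `Zg s i j k z`: `Qt_zg_le`: `≤ M / ‖z - c₀‖ ≤ 2M / ‖c - c₀‖` if `ρ ≤ ‖c - c₀‖/2`.
Case `¬ Zg`, and one of the three roots is far or two of them are near the same `P`: then `W ≥ 1`: a far root has weight 1; if `s i z, s j z` are both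
near `P` then `e_P ≥ 2` (by `hc.count`: the filter contains the two distinct indices, so `e_P = card ≥ 2`), so `w_i + w_j = 2 (1 - 1/e_P) ≥ 1`. So by
`Qt_near`: `≤ C₁ (-log ρ) / ρ ≤ C₁ (-log ρ) ρ^{-W}` (`Real.rpow_le_rpow_of_exponent_ge`: `ρ^{-1} ≤ ρ^{-W}` as `ρ ≤ 1`).
Case `¬ Zg`, and the three roots are near three different `P_i, P_j, P_k`: all differences of the roots are `≥ 4ε - 2ε = 2ε` and `dm ≤ 2R`
(`‖s l z‖ ≤ ‖P_l‖ + ε ≤ R`). `Qt = qq`, `‖Lq s i j z‖ ≤ (‖s i'‖ + ‖s j'‖)/(2ε) ≤ (C₂ ρ^{-w_i} + C₂ ρ^{-w_j})/(2ε) ≤ (C₂/ε) ρ^{-W}`, the same for `i k`;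
`‖qq‖ ≤ 2 (C₂/ε) ρ^{-W} / (2ε)`. So the product with `dm` is `≤ (2 R C₂/ε²) ρ^{-W}`. Take `C' = 2M/‖c - c₀‖ + C₁ + 2RC₂/ε²`. -/
theorem Qt_wt {F : Polynomial (Polynomial ℂ)} {S : Finset ℂ} (h : Std F S) {c₀ : ℂ} (hc₀ : c₀ ∈ S) {c : ℂ}
    (hcc : c ≠ c₀) {ε R C η : ℝ} (hc : Clus F S c ε R C η) :
    ∃ C' η' : ℝ, 0 < C' ∧ 0 < η' ∧ η' ≤ η ∧ ∀ z, 0 < ‖z - c‖ → ‖z - c‖ < η' →
      ∀ (U : Set ℂ) (s : Fin F.natDegree → ℂ → ℂ), HSec F F.natDegree U s → z ∈ U → ∀ t ∈ T3 F.natDegree,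
        ‖Qt c₀ s t z‖ * dm (fun l => s l z) t ≤ C' * (-Real.log ‖z - c‖) *
          ‖z - c‖ ^ (-(wt (spec c F) ε (s t.1 z) + wt (spec c F) ε (s t.2.1 z) + wt (spec c F) ε (s t.2.2 z))) := by
  obtain ⟨M, hM0, hM⟩ := exists_zg_bound F F.natDegree S (fun z hz => h.exists_hsec' hz)
  obtain ⟨C₁, η₁, hC₁, hη₁, hη₁', hQ⟩ := Qt_near h hc₀ c
  obtain ⟨C₂, η₂, hC₂, hη₂, hη₂', hD⟩ := deriv_le h hc
  have hcc0 : 0 < ‖c - c₀‖ := norm_pos_iff.2 (sub_ne_zero.2 hcc)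
  have hε := hc.εpos
  have hR := hc.Rpos
  have hK : 0 < 2 * M / ‖c - c₀‖ + C₁ + 2 * R * C₂ / ε ^ 2 := by positivity
  refine ⟨2 * M / ‖c - c₀‖ + C₁ + 2 * R * C₂ / ε ^ 2, min (min η₁ η₂) (‖c - c₀‖ / 2), hK,
    lt_min (lt_min hη₁ hη₂) (by linarith), le_trans (min_le_left _ _) (le_trans (min_le_right _ _) hη₂'), ?_⟩
  rintro z hz hz' U s hs hzU ⟨i, j, k⟩ ht
  obtain ⟨hij, hik, hjk⟩ := mem_T3.1 ht
  have hz1 : ‖z - c‖ < η₁ := lt_of_lt_of_le hz' (le_trans (min_le_left _ _) (min_le_left _ _))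
  have hz2 : ‖z - c‖ < η₂ := lt_of_lt_of_le hz' (le_trans (min_le_left _ _) (min_le_right _ _))
  have hz3 : ‖z - c‖ < ‖c - c₀‖ / 2 := lt_of_lt_of_le hz' (min_le_right _ _)
  have hzη : ‖z - c‖ < η := lt_of_lt_of_le hz2 hη₂'
  have hρ3 : ‖z - c‖ < 1 / 3 := lt_trans hz1 hη₁'
  have hρ1 : ‖z - c‖ ≤ 1 := by linarith
  have hlog := WtA_log hz hρ3
  have hdich : ∀ l, R + 1 < ‖s l z‖ ∨ ∃ P ∈ (spec c F).roots.toFinset, ‖s l z - P‖ < ε := fun l => by
    rcases hc.dich z (s l z) hzη ((hs.mem_iff z hzU (s l z)).2 ⟨l, rfl⟩) with h1 | ⟨P, hP, h1, -⟩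
    · exact Or.inl h1
    · exact Or.inr ⟨P, hP, h1⟩
  have hwi := WtA_bd1 hc.toClus0 (hdich i)
  have hwj := WtA_bd1 hc.toClus0 (hdich j)
  have hwk := WtA_bd1 hc.toClus0 (hdich k)
  show ‖Qt c₀ s (i, j, k) z‖ * dm (fun l => s l z) (i, j, k) ≤ (2 * M / ‖c - c₀‖ + C₁ + 2 * R * C₂ / ε ^ 2) * (-Real.log ‖z - c‖) *
    ‖z - c‖ ^ (-(wt (spec c F) ε (s i z) + wt (spec c F) ε (s j z) + wt (spec c F) ε (s k z)))
  set wi := wt (spec c F) ε (s i z) with hwi'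
  set wj := wt (spec c F) ε (s j z) with hwj'
  set wk := wt (spec c F) ε (s k z) with hwk'
  have hM0' : 0 ≤ 2 * M / ‖c - c₀‖ := by positivity
  have hR0' : 0 ≤ 2 * R * C₂ / ε ^ 2 := by positivity
  have hpow1 : (1 : ℝ) ≤ ‖z - c‖ ^ (-(wi + wj + wk)) := by
    have h1 := Real.rpow_le_rpow_of_exponent_ge hz hρ1 (by linarith : -(wi + wj + wk) ≤ 0)
    rw [Real.rpow_zero] at h1
    exact h1
  -- a bound without the logarithm suffices
  have hfin : ∀ K : ℝ, 0 ≤ K → K ≤ 2 * M / ‖c - c₀‖ + C₁ + 2 * R * C₂ / ε ^ 2 →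
      K * ‖z - c‖ ^ (-(wi + wj + wk)) ≤
        (2 * M / ‖c - c₀‖ + C₁ + 2 * R * C₂ / ε ^ 2) * (-Real.log ‖z - c‖) * ‖z - c‖ ^ (-(wi + wj + wk)) := by
    intro K hK0 hK1
    refine mul_le_mul_of_nonneg_right ?_ (by linarith)
    calc K = K * 1 := (mul_one K).symm
      _ ≤ _ := mul_le_mul hK1 hlog zero_le_one hK.le
  by_cases hW : 1 ≤ wi + wj + wk
  · have h1 := (hQ z hz hz1).2 U s hs hzU (i, j, k) ht
    refine le_trans h1 ?_
    have h2 : C₁ * (-Real.log ‖z - c‖) / ‖z - c‖ = C₁ * (-Real.log ‖z - c‖) * ‖z - c‖ ^ (-1 : ℝ) := by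
      rw [Real.rpow_neg_one, div_eq_mul_inv]
    rw [h2]
    have h3 : ‖z - c‖ ^ (-1 : ℝ) ≤ ‖z - c‖ ^ (-(wi + wj + wk)) :=
      Real.rpow_le_rpow_of_exponent_ge hz hρ1 (by linarith)
    have h4 : C₁ * (-Real.log ‖z - c‖) ≤ (2 * M / ‖c - c₀‖ + C₁ + 2 * R * C₂ / ε ^ 2) * (-Real.log ‖z - c‖) :=
      mul_le_mul_of_nonneg_right (by linarith) (by linarith)
    refine mul_le_mul h4 h3 (Real.rpow_nonneg hz.le _) ?_
    exact mul_nonneg hK.le (by linarith)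
  · have hW' : wi + wj + wk < 1 := not_le.1 hW
    have hnear : ∀ l, wt (spec c F) ε (s l z) < 1 → ∃ P ∈ (spec c F).roots.toFinset, ‖s l z - P‖ < ε := by
      intro l hl
      rcases hdich l with h1 | h1
      · rw [wt_far hc.toClus0 h1] at hl
        exact absurd hl (lt_irrefl _)
      · exact h1
    obtain ⟨Pi, hPi, hni⟩ := hnear i (by linarith [hwi.1, hwj.1, hwk.1])
    obtain ⟨Pj, hPj, hnj⟩ := hnear j (by linarith [hwi.1, hwj.1, hwk.1])
    obtain ⟨Pk, hPk, hnk⟩ := hnear k (by linarith [hwi.1, hwj.1, hwk.1])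
    have hPij : Pi ≠ Pj := by
      rintro rfl
      have h1 := WtA_pair hc hz hzη hs hzU hij hPi hni hnj
      linarith [hwk.1]
    have hPik : Pi ≠ Pk := by
      rintro rfl
      have h1 := WtA_pair hc hz hzη hs hzU hik hPi hni hnk
      linarith [hwj.1]
    have hPjk : Pj ≠ Pk := by
      rintro rfl
      have h1 := WtA_pair hc hz hzη hs hzU hjk hPj hnj hnk
      linarith [hwi.1]
    by_cases hg : Zg s i j k z
    · have hzc : z ≠ c₀ := fun h1 => hc.nS z hz hzη (by rw [h1]; exact hc₀)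
      have h1 := hM U s hs z hzU (hc.nS z hz hzη) i j k hij hik hjk hg
      have h2 := Qt_zg_le hs hzU hzc hjk hg h1
      refine le_trans h2 ?_
      have h3 : ‖c - c₀‖ / 2 ≤ ‖z - c₀‖ := by
        have h4 : c - c₀ = (z - c₀) - (z - c) := by ring
        have h5 : ‖c - c₀‖ ≤ ‖z - c₀‖ + ‖z - c‖ := by
          rw [h4]
          exact norm_sub_le _ _
        linarith
      have h6 : M / ‖z - c₀‖ ≤ 2 * M / ‖c - c₀‖ := by
        have h7 : 2 * M / ‖c - c₀‖ = M / (‖c - c₀‖ / 2) := by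
          field_simp
        rw [h7]
        exact div_le_div_of_nonneg_left hM0.le (by linarith) h3
      refine le_trans ?_ (hfin (2 * M / ‖c - c₀‖) hM0' (by linarith))
      refine le_trans h6 ?_
      calc 2 * M / ‖c - c₀‖ = 2 * M / ‖c - c₀‖ * 1 := (mul_one _).symm
        _ ≤ _ := mul_le_mul_of_nonneg_left hpow1 hM0'
    · have hdij := WtA_sep hc.toClus0 hPi hPj hPij hni hnj
      have hdik := WtA_sep hc.toClus0 hPi hPk hPik hni hnk
      have hdjk := WtA_sep hc.toClus0 hPj hPk hPjk hnj hnk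
      have hder : ∀ l P, P ∈ (spec c F).roots.toFinset → ‖s l z - P‖ < ε → wt (spec c F) ε (s l z) ≤ wi + wj + wk →
          ‖deriv (s l) z‖ ≤ C₂ * ‖z - c‖ ^ (-(wi + wj + wk)) := by
        intro l P hP hl hle
        have h1 := hD z hz hz2 U s hs hzU l P hP hl
        rw [← wt_near hc.toClus0 hP hl] at h1
        refine le_trans h1 (mul_le_mul_of_nonneg_left ?_ hC₂.le)
        exact Real.rpow_le_rpow_of_exponent_ge hz hρ1 (by linarith)
      have hdi := hder i Pi hPi hni (by rw [← hwi']; linarith [hwj.1, hwk.1])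
      have hdj := hder j Pj hPj hnj (by rw [← hwj']; linarith [hwi.1, hwk.1])
      have hdk := hder k Pk hPk hnk (by rw [← hwk']; linarith [hwi.1, hwj.1])
      have hL1 := WtA_Lq hε hdij hdi hdj
      have hL2 := WtA_Lq hε hdik hdi hdk
      have hQe : Qt c₀ s (i, j, k) z = qq s i j k z := if_neg hg
      have hqq : ‖qq s i j k z‖ ≤ C₂ * ‖z - c‖ ^ (-(wi + wj + wk)) / ε ^ 2 := by
        unfold qq
        rw [norm_div]
        have h1 : ‖Lq s i j z - Lq s i k z‖ ≤ 2 * (C₂ * ‖z - c‖ ^ (-(wi + wj + wk)) / ε) := by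
          have := norm_sub_le (Lq s i j z) (Lq s i k z)
          linarith
        have h0 : 0 ≤ C₂ * ‖z - c‖ ^ (-(wi + wj + wk)) / ε := le_trans (norm_nonneg _) hL1
        have h2 : C₂ * ‖z - c‖ ^ (-(wi + wj + wk)) / ε ^ 2 =
            2 * (C₂ * ‖z - c‖ ^ (-(wi + wj + wk)) / ε) / (2 * ε) := by
          field_simp
        rw [h2]
        exact div_le_div₀ (by linarith) h1 (by linarith) hdjk
      have hni' := WtA_norm hc.toClus0 hPi hni
      have hnj' := WtA_norm hc.toClus0 hPj hnj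
      have hnk' := WtA_norm hc.toClus0 hPk hnk
      have hdm : dm (fun l => s l z) (i, j, k) ≤ 2 * R := by
        unfold dm
        refine max_le ?_ (max_le ?_ ?_)
        · have := norm_sub_le (s i z) (s j z)
          linarith
        · have := norm_sub_le (s i z) (s k z)
          linarith
        · have := norm_sub_le (s j z) (s k z)
          linarith
      have hdm0 : 0 ≤ dm (fun l => s l z) (i, j, k) := by
        unfold dm
        exact le_trans (norm_nonneg _) (le_max_left _ _)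
      rw [hQe]
      refine le_trans ?_ (hfin (2 * R * C₂ / ε ^ 2) hR0' (by linarith))
      calc ‖qq s i j k z‖ * dm (fun l => s l z) (i, j, k)
          ≤ C₂ * ‖z - c‖ ^ (-(wi + wj + wk)) / ε ^ 2 * (2 * R) :=
            mul_le_mul hqq hdm hdm0 (le_trans (norm_nonneg _) hqq)
        _ = 2 * R * C₂ / ε ^ 2 * ‖z - c‖ ^ (-(wi + wj + wk)) := by ring

end Pool.Agent.LZ
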