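import Pool.Agent.Lib.MP_79da24_ag.StA
import Pool.Agent.Lib.MP_79da24_ag.TrB
import Pool.Agent.Lib.MP_79da24_ag.WtA

set_option autoImplicit false

namespace Pool.Agent.LZ

open Polynomial Filter Topology Metric

/-- (PbB) bound of `Psi` near a point `c ≠ c₀`.
Proof. As PbA, but with `Qt_wt h hc₀ hcc hc` (constants `C₁, η₁`) instead of `Qt_near`. `∏_t (‖Qt‖ dm) ≤ ∏_t C₁ (-log ρ) ρ^{-(w_i + w_j + w_k)}
= (C₁ (-log ρ))^W ρ^{-∑_t (...)}` (`Real.rpow_sum_of_pos` or induction) and by `sum_T3` and `sum_wt`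
`∑_t (w_i + w_j + w_k) = 3 (n-1)(n-2) (n - nr g)`, `g = spec c F`, a natural number (`nr g ≤ n`: `nr g ≤ natDegree g ≤ n`), so
`ρ^{-∑} = (ρ^{3(n-1)(n-2)(n - nr g)})⁻¹` (`Real.rpow_neg`, `Real.rpow_natCast`, casts of subtractions). -/
theorem Psi_near {F : Polynomial (Polynomial ℂ)} {S : Finset ℂ} (h : Std F S) {c₀ : ℂ} (hc₀ : c₀ ∈ S) {c : ℂ}
    (hcc : c ≠ c₀) {ε R C η : ℝ} (hc : Clus F S c ε R C η) {p : ℕ} (hp2 : 2 ≤ p) (hpn : p ≤ F.natDegree)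
    (hp : ∀ P ∈ (spec c F).roots.toFinset, (spec c F).rootMultiplicity P ≤ p)
    (hf : F.natDegree - (spec c F).natDegree ≤ p) :
    ∃ C' η' : ℝ, 0 < η' ∧ η' < 1 / 3 ∧ ∀ z, 0 < ‖z - c‖ → ‖z - c‖ < η' →
      ∀ (U : Set ℂ) (s : Fin F.natDegree → ℂ → ℂ), HSec F F.natDegree U s → z ∈ U →
        ‖Psi c₀ (p - 2) s z‖ ≤ C' * (-Real.log ‖z - c‖) ^ (T3 F.natDegree).card *
          (‖z - c‖ ^ (3 * (F.natDegree - 1) * (F.natDegree - 2) * (F.natDegree - nr (spec c F))))⁻¹ := by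
  have hnr : nr (spec c F) ≤ F.natDegree := by
    have h1 : nr (spec c F) ≤ Multiset.card (spec c F).roots := Multiset.toFinset_card_le _
    have h2 : Multiset.card (spec c F).roots ≤ (spec c F).natDegree := (spec c F).card_roots'
    have h3 : (spec c F).natDegree ≤ F.natDegree := by
      unfold spec
      exact natDegree_map_le
    exact h1.trans (h2.trans h3)
  obtain ⟨C₁, η₁, hC₁, hη₁, hη₁le, hQ⟩ := Qt_wt h hc₀ hcc hc
  have hη3 : η₁ < 1 / 3 := lt_of_le_of_lt hη₁le hc.ηlt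
  have hεp : 0 < (ε / 2) ^ (F.natDegree ^ 3) := pow_pos (by linarith [hc.εpos]) _
  refine ⟨C₁ ^ (T3 F.natDegree).card * ((ε / 2) ^ (F.natDegree ^ 3))⁻¹, η₁, hη₁, hη3, ?_⟩
  intro z hz hz' U s hs hzU
  have hρη : ‖z - c‖ < η := lt_of_lt_of_le hz' hη₁le
  have hst : ∀ i, (Finset.univ.filter fun k => ‖s i z - s k z‖ < ε).card ≤ p :=
    fun i => star hc hp hf hz hρη hs hzU i
  have hinj : Function.Injective (fun l : Fin F.natDegree => s l z) :=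
    fun i j hij => hs.inj z hzU i j hij
  have hdm := prod_dm_ge (fun l : Fin F.natDegree => s l z) hinj hc.εpos hc.εle hp2 hpn hst
  have hdm0 : ∀ t : Fin F.natDegree × Fin F.natDegree × Fin F.natDegree, 0 ≤ dm (fun l => s l z) t :=
    fun t => le_max_of_le_left (norm_nonneg _)
  have hL : 0 ≤ -Real.log ‖z - c‖ := by
    have : Real.log ‖z - c‖ ≤ 0 := Real.log_nonpos hz.le (by linarith)
    linarith
  have hsum : ∑ t ∈ T3 F.natDegree, (-(wt (spec c F) ε (s t.1 z) + wt (spec c F) ε (s t.2.1 z) +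
      wt (spec c F) ε (s t.2.2 z))) =
      -((3 * (F.natDegree - 1) * (F.natDegree - 2) * (F.natDegree - nr (spec c F)) : ℕ) : ℝ) := by
    have e1 := sum_T3 F.natDegree (fun i => wt (spec c F) ε (s i z))
    have e2 := sum_wt hc hz hρη hs hzU
    rw [Finset.sum_neg_distrib]
    rw [e1, e2]
    push_cast [Nat.cast_sub hnr]
    ring
  have hA : ∏ t ∈ T3 F.natDegree, (‖Qt c₀ s t z‖ * dm (fun l => s l z) t) ≤
      (C₁ * (-Real.log ‖z - c‖)) ^ (T3 F.natDegree).card *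
        (‖z - c‖ ^ (3 * (F.natDegree - 1) * (F.natDegree - 2) * (F.natDegree - nr (spec c F))))⁻¹ := by
    calc ∏ t ∈ T3 F.natDegree, (‖Qt c₀ s t z‖ * dm (fun l => s l z) t)
        ≤ ∏ t ∈ T3 F.natDegree, (C₁ * (-Real.log ‖z - c‖) *
          ‖z - c‖ ^ (-(wt (spec c F) ε (s t.1 z) + wt (spec c F) ε (s t.2.1 z) +
            wt (spec c F) ε (s t.2.2 z)))) :=
          Finset.prod_le_prod (fun t _ => mul_nonneg (norm_nonneg _) (hdm0 t))
            (fun t ht => hQ z hz hz' U s hs hzU t ht)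
      _ = (C₁ * (-Real.log ‖z - c‖)) ^ (T3 F.natDegree).card *
          ∏ t ∈ T3 F.natDegree, ‖z - c‖ ^ (-(wt (spec c F) ε (s t.1 z) + wt (spec c F) ε (s t.2.1 z) +
            wt (spec c F) ε (s t.2.2 z))) := by
          rw [Finset.prod_mul_distrib, Finset.prod_const]
      _ = (C₁ * (-Real.log ‖z - c‖)) ^ (T3 F.natDegree).card *
          (‖z - c‖ ^ (3 * (F.natDegree - 1) * (F.natDegree - 2) * (F.natDegree - nr (spec c F))))⁻¹ := by
          rw [← Real.rpow_sum_of_pos hz, hsum, Real.rpow_neg hz.le, Real.rpow_natCast]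
  have hPsi : ‖Psi c₀ (p - 2) s z‖ = (∏ t ∈ T3 F.natDegree, ‖Qt c₀ s t z‖) *
      (∏ t ∈ P2 F.natDegree, ‖s t.1 z - s t.2 z‖) ^ (p - 2) := by
    unfold Psi Ps
    rw [norm_mul, norm_pow, norm_prod, norm_prod]
  have hQ0 : 0 ≤ ∏ t ∈ T3 F.natDegree, ‖Qt c₀ s t z‖ := Finset.prod_nonneg fun t _ => norm_nonneg _
  have hfin : (ε / 2) ^ (F.natDegree ^ 3) * ‖Psi c₀ (p - 2) s z‖ ≤
      (C₁ * (-Real.log ‖z - c‖)) ^ (T3 F.natDegree).card *
        (‖z - c‖ ^ (3 * (F.natDegree - 1) * (F.natDegree - 2) * (F.natDegree - nr (spec c F))))⁻¹ := by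
    refine le_trans ?_ hA
    rw [hPsi, Finset.prod_mul_distrib]
    calc (ε / 2) ^ (F.natDegree ^ 3) * ((∏ t ∈ T3 F.natDegree, ‖Qt c₀ s t z‖) *
          (∏ t ∈ P2 F.natDegree, ‖s t.1 z - s t.2 z‖) ^ (p - 2))
        = (∏ t ∈ T3 F.natDegree, ‖Qt c₀ s t z‖) * ((ε / 2) ^ (F.natDegree ^ 3) *
          (∏ t ∈ P2 F.natDegree, ‖s t.1 z - s t.2 z‖) ^ (p - 2)) := by ring
      _ ≤ (∏ t ∈ T3 F.natDegree, ‖Qt c₀ s t z‖) * ∏ t ∈ T3 F.natDegree, dm (fun l => s l z) t :=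
          mul_le_mul_of_nonneg_left hdm hQ0
  have hfin2 : ‖Psi c₀ (p - 2) s z‖ ≤ ((ε / 2) ^ (F.natDegree ^ 3))⁻¹ *
      ((C₁ * (-Real.log ‖z - c‖)) ^ (T3 F.natDegree).card *
        (‖z - c‖ ^ (3 * (F.natDegree - 1) * (F.natDegree - 2) * (F.natDegree - nr (spec c F))))⁻¹) := by
    rw [inv_mul_eq_div, le_div_iff₀ hεp, mul_comm]
    exact hfin
  refine hfin2.trans (le_of_eq ?_)
  rw [mul_pow]
  ring

end Pool.Agent.LZ
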