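import Pool.Agent.Lib.MP_79da24_ag.TrB
import Pool.Agent.Lib.MP_79da24_ag.QbB
import Pool.Agent.Lib.MP_79da24_ag.GrC

set_option autoImplicit false

namespace Pool.Agent.LZ

open Polynomial Filter Topology Metric

/-- (PbC) bound of `Psi` near infinity.
Proof. `C₁, R₁` from `Qt_infty h hc₀`, `κ, R₂` from `Ps_lower_infty h D hD`; `‖z‖ > max R₁ R₂`, `W = (T3 n).card`, `y l = s l z`, `d = ∏_{P2} ‖y t.1 - y t.2‖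
= ‖Ps s z‖ > 0`. `prod_dm_ge'`: `d^{n-2} ≤ ∏ dm`. So `‖Psi‖ d^{n-2} ≤ ∏ (‖Qt‖ dm) d^{p-2} ≤ (C₁ log‖z‖/‖z‖)^W d^{p-2}`, i.e.
`‖Psi‖ d^{n-p} ≤ (C₁ log‖z‖ / ‖z‖)^W` (`n - 2 = (p - 2) + (n - p)`, cancel `d^{p-2} > 0`), and `d ≥ κ‖z‖^D`:
`‖Psi‖ ≤ C₁^W κ^{-(n-p)} (log‖z‖)^W / ‖z‖^{W + (n-p) D}`. -/
theorem Psi_infty {F : Polynomial (Polynomial ℂ)} {S : Finset ℂ} (h : Std F S) {c₀ : ℂ} (hc₀ : c₀ ∈ S) (D : ℕ)
    (hD : F.discr.natDegree = D + 2 * (F.natDegree - 1) * F.leadingCoeff.natDegree)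
    {p : ℕ} (hp2 : 2 ≤ p) (hpn : p ≤ F.natDegree) :
    ∃ C' R : ℝ, 3 < R ∧ ∀ z, R < ‖z‖ →
      ∀ (U : Set ℂ) (s : Fin F.natDegree → ℂ → ℂ), HSec F F.natDegree U s → z ∈ U →
        ‖Psi c₀ (p - 2) s z‖ ≤ C' * (Real.log ‖z‖) ^ (T3 F.natDegree).card *
          (‖z‖ ^ ((T3 F.natDegree).card + (F.natDegree - p) * D))⁻¹ := by
  obtain ⟨C₁, R₁, hC₁, hR₁, H₁⟩ := Qt_infty h hc₀
  obtain ⟨κ, R₂, hκ, hR₂, H₂⟩ := Ps_lower_infty h D hD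
  refine ⟨C₁ ^ (T3 F.natDegree).card * (κ ^ (F.natDegree - p))⁻¹, max R₁ R₂, lt_of_lt_of_le hR₁ (le_max_left _ _), ?_⟩
  intro z hz U s hs hzU
  have hz1 : R₁ < ‖z‖ := lt_of_le_of_lt (le_max_left _ _) hz
  have hz2 : R₂ < ‖z‖ := lt_of_le_of_lt (le_max_right _ _) hz
  have hz0 : 0 < ‖z‖ := by linarith
  have hlog : 0 ≤ Real.log ‖z‖ := Real.log_nonneg (by linarith)
  obtain ⟨-, H1⟩ := H₁ z hz1
  have hQ := H1 U s hs hzU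
  have hP := H₂ z hz2 U s hs hzU
  have hPs : ‖Ps s z‖ = ∏ t ∈ P2 F.natDegree, ‖s t.1 z - s t.2 z‖ := by
    rw [Ps, norm_prod]
  have hdm := prod_dm_ge' (n := F.natDegree) (fun l => s l z)
  rw [← hPs] at hdm
  have hd0 : 0 < ‖Ps s z‖ := lt_of_lt_of_le (by positivity) hP
  have hQ0 : 0 ≤ ∏ t ∈ T3 F.natDegree, ‖Qt c₀ s t z‖ := Finset.prod_nonneg fun t _ => norm_nonneg _
  have hdm0 : ∀ t, 0 ≤ dm (fun l => s l z) t := fun t => le_trans (norm_nonneg _) (le_max_left _ _)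
  have h1 : (∏ t ∈ T3 F.natDegree, ‖Qt c₀ s t z‖) * ‖Ps s z‖ ^ (F.natDegree - 2) ≤
      (C₁ * Real.log ‖z‖ / ‖z‖) ^ (T3 F.natDegree).card := by
    calc (∏ t ∈ T3 F.natDegree, ‖Qt c₀ s t z‖) * ‖Ps s z‖ ^ (F.natDegree - 2)
        ≤ (∏ t ∈ T3 F.natDegree, ‖Qt c₀ s t z‖) * ∏ t ∈ T3 F.natDegree, dm (fun l => s l z) t :=
          mul_le_mul_of_nonneg_left hdm hQ0
      _ = ∏ t ∈ T3 F.natDegree, (‖Qt c₀ s t z‖ * dm (fun l => s l z) t) := by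
          rw [Finset.prod_mul_distrib]
      _ ≤ ∏ t ∈ T3 F.natDegree, (C₁ * Real.log ‖z‖ / ‖z‖) :=
          Finset.prod_le_prod (fun t _ => mul_nonneg (norm_nonneg _) (hdm0 t)) (fun t ht => hQ t ht)
      _ = (C₁ * Real.log ‖z‖ / ‖z‖) ^ (T3 F.natDegree).card := by
          rw [Finset.prod_const]
  have h2 : ‖Psi c₀ (p - 2) s z‖ = (∏ t ∈ T3 F.natDegree, ‖Qt c₀ s t z‖) * ‖Ps s z‖ ^ (p - 2) := by
    rw [Psi, norm_mul, norm_prod, norm_pow]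
  have h3 : ‖Psi c₀ (p - 2) s z‖ * ‖Ps s z‖ ^ (F.natDegree - p) ≤
      (C₁ * Real.log ‖z‖ / ‖z‖) ^ (T3 F.natDegree).card := by
    have he : p - 2 + (F.natDegree - p) = F.natDegree - 2 := by omega
    rw [h2, mul_assoc, ← pow_add, he]
    exact h1
  have h4 : ‖Psi c₀ (p - 2) s z‖ * (κ * ‖z‖ ^ D) ^ (F.natDegree - p) ≤
      (C₁ * Real.log ‖z‖ / ‖z‖) ^ (T3 F.natDegree).card :=
    le_trans (mul_le_mul_of_nonneg_left (pow_le_pow_left₀ (by positivity) hP _) (norm_nonneg _)) h3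
  have h5 : 0 < (κ * ‖z‖ ^ D) ^ (F.natDegree - p) := by positivity
  have h6 : ‖Psi c₀ (p - 2) s z‖ ≤
      (C₁ * Real.log ‖z‖ / ‖z‖) ^ (T3 F.natDegree).card / (κ * ‖z‖ ^ D) ^ (F.natDegree - p) := by
    rw [le_div_iff₀ h5]
    exact h4
  refine le_trans h6 (le_of_eq ?_)
  have hz0' : ‖z‖ ≠ 0 := hz0.ne'
  have hκ' : κ ≠ 0 := hκ.ne'
  rw [div_pow, mul_pow, mul_pow, ← pow_mul, pow_add, Nat.mul_comm (F.natDegree - p) D]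
  field_simp

end Pool.Agent.LZ
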