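import Pool.Agent.Lib.MP_79da24_ag.GlC
import Pool.Agent.Lib.MP_79da24_ag.ClC
import Pool.Agent.Lib.MP_79da24_ag.PbA
import Pool.Agent.Lib.MP_79da24_ag.PbB
import Pool.Agent.Lib.MP_79da24_ag.PbC
import Pool.Agent.Lib.MP_79da24_ag.LiA

set_option autoImplicit false

namespace Pool.Agent.LZ

open Polynomial Filter Topology Metric

/-- (MiA) the inequality of abc type for the roots.
Proof. Suppose not. `n = F.natDegree`, `W = (T3 n).card`, `b = p - 2`. `Ψ` from `exists_global F n S hc₀ b (fun z hz => h.exists_hsec' hz)`.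
`k c = if c = c₀ then W else 3 (n-1)(n-2)(n - nr (spec c F))`, `m = W + (n - p) D`. `liouville_log` with these: `hnear c`: `exists_clus h c`, `Psi_near₀` if
`c = c₀`, `Psi_near` otherwise (`hp c hc`); for `z` near `c`, `z ∉ S` (`hc.nS`; shrink `η'` to `min η η'`), take sections near `z` by `h.exists_hsec'` and
`Ψ z = Psi c₀ b s z`. `hinf`: `Psi_infty` (and `z ∉ S` for large `‖z‖`: from `Qt_infty` or `growth_infty`, enlarge `R`). `hlt`: `∑_{S} k = W + ∑_{S.erase c₀}`
(`Finset.add_sum_erase`). So `Ψ = 0` on `Sᶜ`, a contradiction to the nonvanishing of `Ψ`. -/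
theorem main_ineq {F : Polynomial (Polynomial ℂ)} {S : Finset ℂ} (h : Std F S) {c₀ : ℂ} (hc₀ : c₀ ∈ S) (D : ℕ)
    (hD : F.discr.natDegree = D + 2 * (F.natDegree - 1) * F.leadingCoeff.natDegree)
    {p : ℕ} (hp2 : 2 ≤ p) (hpn : p ≤ F.natDegree)
    (hp : ∀ c ∈ S, (∀ P ∈ (spec c F).roots.toFinset, (spec c F).rootMultiplicity P ≤ p) ∧
      F.natDegree - (spec c F).natDegree ≤ p) :
    (F.natDegree - p) * D ≤
      ∑ c ∈ S.erase c₀, 3 * (F.natDegree - 1) * (F.natDegree - 2) * (F.natDegree - nr (spec c F)) := by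
  by_contra hcon
  rw [not_le] at hcon
  obtain ⟨Ψ, hΨd, ⟨z₀, hz₀, hz₀'⟩, hΨs⟩ :=
    exists_global F F.natDegree S hc₀ (p - 2) (fun z hz => h.exists_hsec' hz)
  refine hz₀' (liouville_log hΨd (T3 F.natDegree).card ((T3 F.natDegree).card + (F.natDegree - p) * D)
    (fun c => if c = c₀ then (T3 F.natDegree).card
      else 3 * (F.natDegree - 1) * (F.natDegree - 2) * (F.natDegree - nr (spec c F))) ?_ ?_ ?_ z₀ hz₀)
  · intro c hcS
    obtain ⟨ε, R, C, η, hc⟩ := exists_clus h c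
    by_cases hcc : c = c₀
    · obtain ⟨C', η', h1, h2, h3⟩ := Psi_near₀ h hc₀ hc hp2 hpn (hp c hcS).1 (hp c hcS).2
      refine ⟨C', min η' η, lt_min h1 hc.ηpos, lt_of_le_of_lt (min_le_left _ _) h2, ?_⟩
      intro z hz hz'
      have hzS : z ∉ S := hc.nS z hz (lt_of_lt_of_le hz' (min_le_right _ _))
      obtain ⟨r, hr, _, s, hs⟩ := h.exists_hsec' hzS
      rw [hΨs (ball z r) s hs z (mem_ball_self hr) hzS]
      have := h3 z hz (lt_of_lt_of_le hz' (min_le_left _ _)) (ball z r) s hs (mem_ball_self hr)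
      simpa only [if_pos hcc] using this
    · obtain ⟨C', η', h1, h2, h3⟩ := Psi_near h hc₀ hcc hc hp2 hpn (hp c hcS).1 (hp c hcS).2
      refine ⟨C', min η' η, lt_min h1 hc.ηpos, lt_of_le_of_lt (min_le_left _ _) h2, ?_⟩
      intro z hz hz'
      have hzS : z ∉ S := hc.nS z hz (lt_of_lt_of_le hz' (min_le_right _ _))
      obtain ⟨r, hr, _, s, hs⟩ := h.exists_hsec' hzS
      rw [hΨs (ball z r) s hs z (mem_ball_self hr) hzS]
      have := h3 z hz (lt_of_lt_of_le hz' (min_le_left _ _)) (ball z r) s hs (mem_ball_self hr)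
      simpa only [if_neg hcc] using this
  · obtain ⟨C', R, h1, h2⟩ := Psi_infty h hc₀ D hD hp2 hpn
    obtain ⟨K, R₂, _, h4⟩ := growth_infty h
    refine ⟨C', max R R₂, lt_of_lt_of_le h1 (le_max_left _ _), ?_⟩
    intro z hz
    have hzS : z ∉ S := (h4 z (lt_of_le_of_lt (le_max_right _ _) hz)).1
    obtain ⟨r, hr, _, s, hs⟩ := h.exists_hsec' hzS
    rw [hΨs (ball z r) s hs z (mem_ball_self hr) hzS]
    exact h2 z (lt_of_le_of_lt (le_max_left _ _) hz) (ball z r) s hs (mem_ball_self hr)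
  · rw [← Finset.add_sum_erase S _ hc₀]
    simp only [if_true]
    refine Nat.add_lt_add_left (lt_of_eq_of_lt ?_ hcon) _
    refine Finset.sum_congr rfl fun c hc => ?_
    rw [if_neg (Finset.ne_of_mem_erase hc)]

end Pool.Agent.LZ
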