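import Pool.Agent.Lib.MP_79da24_ag.TD

set_option autoImplicit false

namespace Pool.Agent.LZ

open Polynomial Filter Topology Metric

theorem TrA_card_I {n : ℕ} {i j : Fin n} (h : i ≠ j) :
    (Finset.univ.filter (fun k : Fin n => i ≠ k ∧ j ≠ k)).card = n - 2 := by
  have h1 : (Finset.univ.filter (fun k : Fin n => i ≠ k ∧ j ≠ k)) = Finset.univ \ {i, j} := by
    ext k
    simp only [Finset.mem_filter, Finset.mem_univ, true_and, Finset.mem_sdiff, Finset.mem_insert,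
      Finset.mem_singleton, not_or]
    exact ⟨fun hk => ⟨fun e => hk.1 e.symm, fun e => hk.2 e.symm⟩,
      fun hk => ⟨fun e => hk.1 e.symm, fun e => hk.2 e.symm⟩⟩
  rw [h1, Finset.card_sdiff_of_subset (Finset.subset_univ _), Finset.card_pair h, Finset.card_univ,
    Fintype.card_fin]

theorem TrA_card_P2 (n : ℕ) : (P2 n).card = n * (n - 1) := by
  have h1 : P2 n = (Finset.univ : Finset (Fin n)).offDiag := by
    ext ⟨i, j⟩
    simp [P2, Finset.mem_offDiag]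
  rw [h1, Finset.offDiag_card, Finset.card_univ, Fintype.card_fin, Nat.mul_sub, Nat.mul_one]

theorem TrA_sum (n : ℕ) (f : Fin n × Fin n × Fin n → ℝ) :
    ∑ t ∈ T3 n, f t = ∑ a ∈ P2 n, ∑ k ∈ Finset.univ.filter (fun k => a.1 ≠ k ∧ a.2 ≠ k), f (a.1, a.2, k) := by
  rw [Finset.sum_sigma']
  refine Finset.sum_nbij' (fun t => ⟨(t.1, t.2.1), t.2.2⟩) (fun s => (s.1.1, s.1.2, s.2)) ?_ ?_ ?_ ?_ ?_
  · intro t ht
    obtain ⟨i, j, k⟩ := t
    rw [mem_T3] at ht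
    simp only [Finset.mem_sigma, mem_P2, Finset.mem_filter, Finset.mem_univ, true_and]
    exact ⟨ht.1, ht.2.1, ht.2.2⟩
  · intro s hs
    obtain ⟨⟨i, j⟩, k⟩ := s
    simp only [Finset.mem_sigma, mem_P2, Finset.mem_filter, Finset.mem_univ, true_and] at hs
    exact mem_T3.mpr ⟨hs.1, hs.2.1, hs.2.2⟩
  · intro t _
    rfl
  · intro s _
    rfl
  · intro t _
    rfl

/-- (TrA1) Proof. Count: `n (n-1) (n-2)` (e.g. as a sigma type: `T3 n` is the disjoint union over `(i, j)` with `i ≠ j` of the `n - 2` indices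
`k ∉ {i, j}`). -/
theorem card_T3 (n : ℕ) : (T3 n).card = n * (n - 1) * (n - 2) := by
  have h : (((T3 n).card : ℕ) : ℝ) = ((n * (n - 1) * (n - 2) : ℕ) : ℝ) := by
    have h1 : (((T3 n).card : ℕ) : ℝ) = ∑ t ∈ T3 n, (1 : ℝ) := by simp
    rw [h1, TrA_sum n (fun _ => (1 : ℝ))]
    have h2 : ∀ a ∈ P2 n, ∑ k ∈ Finset.univ.filter (fun k => a.1 ≠ k ∧ a.2 ≠ k), (1 : ℝ) = ((n - 2 : ℕ) : ℝ) := by
      intro a ha
      obtain ⟨i, j⟩ := a
      rw [mem_P2] at ha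
      rw [Finset.sum_const, TrA_card_I ha, nsmul_eq_mul, mul_one]
    rw [Finset.sum_congr rfl h2, Finset.sum_const, TrA_card_P2, nsmul_eq_mul]
    push_cast
    ring
  exact_mod_cast h

theorem TrA_sum_fst (n : ℕ) (w : Fin n → ℝ) :
    ∑ t ∈ T3 n, w t.1 = ((n - 1 : ℕ) : ℝ) * ((n - 2 : ℕ) : ℝ) * ∑ i, w i := by
  rw [TrA_sum n (fun t => w t.1)]
  have h2 : ∀ a ∈ P2 n, ∑ k ∈ Finset.univ.filter (fun k => a.1 ≠ k ∧ a.2 ≠ k), w a.1 = ((n - 2 : ℕ) : ℝ) * w a.1 := by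
    intro a ha
    obtain ⟨i, j⟩ := a
    rw [mem_P2] at ha
    rw [Finset.sum_const, TrA_card_I ha, nsmul_eq_mul]
  rw [Finset.sum_congr rfl h2]
  unfold P2
  rw [Finset.sum_filter, Fintype.sum_prod_type, Finset.mul_sum]
  refine Finset.sum_congr rfl fun i _ => ?_
  rw [← Finset.sum_filter]
  change ∑ _a ∈ Finset.univ.filter (fun a : Fin n => i ≠ a), ((n - 2 : ℕ) : ℝ) * w i = _
  rw [Finset.sum_const, nsmul_eq_mul]
  have h3 : (Finset.univ.filter (fun a : Fin n => i ≠ a)).card = n - 1 := by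
    rw [Finset.filter_ne, Finset.card_erase_of_mem (Finset.mem_univ i), Finset.card_univ, Fintype.card_fin]
  rw [h3]
  ring

theorem TrA_sum_snd (n : ℕ) (w : Fin n → ℝ) :
    ∑ t ∈ T3 n, w t.2.1 = ∑ t ∈ T3 n, w t.1 := by
  refine Finset.sum_nbij' (fun t => (t.2.1, t.1, t.2.2)) (fun t => (t.2.1, t.1, t.2.2)) ?_ ?_ ?_ ?_ ?_
  · rintro ⟨i, j, k⟩ ht
    rw [mem_T3] at ht
    exact mem_T3.mpr ⟨ht.1.symm, ht.2.2, ht.2.1⟩
  · rintro ⟨i, j, k⟩ ht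
    rw [mem_T3] at ht
    exact mem_T3.mpr ⟨ht.1.symm, ht.2.2, ht.2.1⟩
  · rintro ⟨i, j, k⟩ _
    rfl
  · rintro ⟨i, j, k⟩ _
    rfl
  · rintro ⟨i, j, k⟩ _
    rfl

theorem TrA_sum_thd (n : ℕ) (w : Fin n → ℝ) :
    ∑ t ∈ T3 n, w t.2.2 = ∑ t ∈ T3 n, w t.1 := by
  refine Finset.sum_nbij' (fun t => (t.2.2, t.2.1, t.1)) (fun t => (t.2.2, t.2.1, t.1)) ?_ ?_ ?_ ?_ ?_
  · rintro ⟨i, j, k⟩ ht
    rw [mem_T3] at ht
    exact mem_T3.mpr ⟨ht.2.2.symm, ht.2.1.symm, ht.1.symm⟩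
  · rintro ⟨i, j, k⟩ ht
    rw [mem_T3] at ht
    exact mem_T3.mpr ⟨ht.2.2.symm, ht.2.1.symm, ht.1.symm⟩
  · rintro ⟨i, j, k⟩ _
    rfl
  · rintro ⟨i, j, k⟩ _
    rfl
  · rintro ⟨i, j, k⟩ _
    rfl

/-- (TrA2) Proof. Each of the three sums `∑ t, w t.1`, `∑ t, w t.2.1`, `∑ t, w t.2.2` is `(n-1)(n-2) ∑ w` (the number of the triples with a given
component is `(n-1)(n-2)`; truncated subtraction is harmless for `n ≤ 2`, both sides are `0`). -/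
theorem sum_T3 (n : ℕ) (w : Fin n → ℝ) :
    ∑ t ∈ T3 n, (w t.1 + w t.2.1 + w t.2.2) = 3 * ((n - 1 : ℕ) : ℝ) * ((n - 2 : ℕ) : ℝ) * ∑ i, w i := by
  rw [Finset.sum_add_distrib, Finset.sum_add_distrib, TrA_sum_snd, TrA_sum_thd, TrA_sum_fst]
  ring

/-- (TrA3) the product over the triples as an iterated product. -/
theorem prod_T3 (n : ℕ) (f : Fin n × Fin n × Fin n → ℝ) :
    ∏ t ∈ T3 n, f t = ∏ a ∈ P2 n, ∏ k ∈ Finset.univ.filter (fun k => a.1 ≠ k ∧ a.2 ≠ k), f (a.1, a.2, k) := by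
  rw [Finset.prod_sigma']
  refine Finset.prod_nbij' (fun t => ⟨(t.1, t.2.1), t.2.2⟩) (fun s => (s.1.1, s.1.2, s.2)) ?_ ?_ ?_ ?_ ?_
  · intro t ht
    obtain ⟨i, j, k⟩ := t
    rw [mem_T3] at ht
    simp only [Finset.mem_sigma, mem_P2, Finset.mem_filter, Finset.mem_univ, true_and]
    exact ⟨ht.1, ht.2.1, ht.2.2⟩
  · intro s hs
    obtain ⟨⟨i, j⟩, k⟩ := s
    simp only [Finset.mem_sigma, mem_P2, Finset.mem_filter, Finset.mem_univ, true_and] at hs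
    exact mem_T3.mpr ⟨hs.1, hs.2.1, hs.2.2⟩
  · intro t _
    rfl
  · intro s _
    rfl
  · intro t _
    rfl

end Pool.Agent.LZ
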