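import Pool.Agent.Lib.MP_79da24_ag.ClS
import Pool.Agent.Lib.MP_79da24_ag.StA
import Pool.Agent.Lib.MP_79da24_ag.TrA

set_option autoImplicit false

namespace Pool.Agent.LZ

open Polynomial Filter Topology Metric

/-- (SumS1) Proof. As `sum_wt` (StA.lean): `∑_i wt2 = n - ∑_P #{i near P} om P = n - ∑_P e_P om P`, and `e om = 1` for `P` not singular,
`e om = e/(e-1) = 1 + 1/(e-1)` for `P` singular (`e ≥ 2`, `SgP.two_le`); `sg F c` is the filter of the singular roots. -/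
theorem sum_wt2 {F : Polynomial (Polynomial ℂ)} {S : Finset ℂ} (h : Std F S) {c : ℂ} {ε R C η : ℝ}
    (hc : Clus F S c ε R C η) {z : ℂ} (hz : 0 < ‖z - c‖) (hz' : ‖z - c‖ < η) {U : Set ℂ}
    {s : Fin F.natDegree → ℂ → ℂ} (hs : HSec F F.natDegree U s) (hzU : z ∈ U) :
    ∑ i, wt2 F c ε (s i z) = (F.natDegree : ℝ) - (nr (spec c F) : ℝ) -
      ∑ P ∈ sg F c, 1 / (((spec c F).rootMultiplicity P : ℝ) - 1) := by
  classical
  unfold wt2
  rw [Finset.sum_sub_distrib]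
  have e1 : ∑ _i : Fin F.natDegree, (1 : ℝ) = (F.natDegree : ℝ) := by
    rw [Finset.sum_const, Finset.card_univ, Fintype.card_fin, nsmul_eq_mul, mul_one]
  rw [e1]
  have e2 : ∑ i : Fin F.natDegree, ∑ P ∈ (spec c F).roots.toFinset.filter (fun P => ‖s i z - P‖ < ε),
      om F c P = ∑ P ∈ (spec c F).roots.toFinset, ((spec c F).rootMultiplicity P : ℝ) * om F c P := by
    have e3 : ∀ i : Fin F.natDegree, ∑ P ∈ (spec c F).roots.toFinset.filter (fun P => ‖s i z - P‖ < ε),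
      om F c P = ∑ P ∈ (spec c F).roots.toFinset, if ‖s i z - P‖ < ε then om F c P else 0 := by
      intro i
      rw [Finset.sum_filter]
    rw [Finset.sum_congr rfl fun i _ => e3 i, Finset.sum_comm]
    refine Finset.sum_congr rfl fun P hP => ?_
    rw [← Finset.sum_filter, Finset.sum_const, hc.count z hz hz' U s hs hzU P hP, nsmul_eq_mul]
  have e4 : ∀ P ∈ (spec c F).roots.toFinset, ((spec c F).rootMultiplicity P : ℝ) * om F c P =
      1 + (if SgP F c P then 1 / (((spec c F).rootMultiplicity P : ℝ) - 1) else 0) := by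
    intro P hP
    have h6 : P ∈ (spec c F).roots := Multiset.mem_toFinset.1 hP
    have hne : spec c F ≠ 0 := fun h0 => by
      rw [h0, Polynomial.roots_zero] at h6
      exact Multiset.notMem_zero _ h6
    have h7 : (spec c F).rootMultiplicity P ≠ 0 := by
      rw [← Polynomial.count_roots]
      exact (Multiset.count_pos.2 h6).ne'
    have h8 : ((spec c F).rootMultiplicity P : ℝ) ≠ 0 := by exact_mod_cast h7
    unfold om
    by_cases hS : SgP F c P
    · rw [if_pos hS, if_pos hS]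
      have h9 : (2 : ℝ) ≤ ((spec c F).rootMultiplicity P : ℝ) := by
        exact_mod_cast SgP.two_le hne hS
      have h10 : ((spec c F).rootMultiplicity P : ℝ) - 1 ≠ 0 := by
        intro h0
        linarith
      field_simp
      ring
    · rw [if_neg hS, if_neg hS]
      field_simp
      ring
  rw [e2, Finset.sum_congr rfl e4, Finset.sum_add_distrib, Finset.sum_const, nsmul_eq_mul, mul_one,
    ← Finset.sum_filter]
  unfold nr sg
  ring

/-- (SumS2) Proof. `vv` is the number of `P ∈ sg2` near both; exchange the sums: `∑_{P ∈ sg2} #{(i, j) ∈ P2 | both near P} = ∑_{P ∈ sg2} e_P (e_P - 1) = 2 #sg2`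
(`count` with `e_P = 2`; the ordered pairs of distinct elements of a two-element set: `Finset.offDiag_card`). -/
theorem sum_vv {F : Polynomial (Polynomial ℂ)} {S : Finset ℂ} {c : ℂ} {ε R C η : ℝ}
    (hc : Clus F S c ε R C η) {z : ℂ} (hz : 0 < ‖z - c‖) (hz' : ‖z - c‖ < η) {U : Set ℂ}
    {s : Fin F.natDegree → ℂ → ℂ} (hs : HSec F F.natDegree U s) (hzU : z ∈ U) :
    ∑ t ∈ P2 F.natDegree, vv F c ε (s t.1 z) (s t.2 z) = 2 * ((sg2 F c).card : ℝ) := by
  classical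
  unfold vv
  have e1 : ∀ t : Fin F.natDegree × Fin F.natDegree,
      ((((sg2 F c).filter fun P => ‖s t.1 z - P‖ < ε ∧ ‖s t.2 z - P‖ < ε).card : ℕ) : ℝ) =
      ∑ P ∈ sg2 F c, if ‖s t.1 z - P‖ < ε ∧ ‖s t.2 z - P‖ < ε then (1 : ℝ) else 0 := by
    intro t
    rw [Finset.sum_ite, Finset.sum_const_zero, add_zero, Finset.sum_const, nsmul_eq_mul, mul_one]
  rw [Finset.sum_congr rfl fun t _ => e1 t, Finset.sum_comm]
  have e2 : ∀ P ∈ sg2 F c, ∑ t ∈ P2 F.natDegree,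
      (if ‖s t.1 z - P‖ < ε ∧ ‖s t.2 z - P‖ < ε then (1 : ℝ) else 0) = 2 := by
    intro P hP
    have hP' : P ∈ (spec c F).roots.toFinset ∧ SgP F c P ∧ (spec c F).rootMultiplicity P = 2 := by
      unfold sg2 at hP
      exact Finset.mem_filter.1 hP
    rw [Finset.sum_ite, Finset.sum_const_zero, add_zero, Finset.sum_const, nsmul_eq_mul, mul_one]
    have h1 : (P2 F.natDegree).filter (fun t => ‖s t.1 z - P‖ < ε ∧ ‖s t.2 z - P‖ < ε) =
        (Finset.univ.filter fun i => ‖s i z - P‖ < ε).offDiag := by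
      ext ⟨i, j⟩
      simp only [Finset.mem_filter, mem_P2, Finset.mem_offDiag, Finset.mem_univ, true_and]
      tauto
    rw [h1, Finset.offDiag_card, hc.count z hz hz' U s hs hzU P hP'.1, hP'.2.2]
    norm_num
  rw [Finset.sum_congr rfl e2, Finset.sum_const, nsmul_eq_mul]
  ring

/-- (SumS3) Proof. Each of the three sums is `(n-2) ∑_{P2} v` (the third index has `n - 2` possibilities, cf. `prod_T3` in TrA.lean). -/
theorem sum_T3_pair (n : ℕ) (v : Fin n → Fin n → ℝ) :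
    ∑ t ∈ T3 n, (v t.1 t.2.1 + v t.1 t.2.2 + v t.2.1 t.2.2) = 3 * ((n - 2 : ℕ) : ℝ) * ∑ a ∈ P2 n, v a.1 a.2 := by
  have h1 : ∑ t ∈ T3 n, v t.1 t.2.1 = ((n - 2 : ℕ) : ℝ) * ∑ a ∈ P2 n, v a.1 a.2 := by
    rw [TrA_sum n (fun t => v t.1 t.2.1), Finset.mul_sum]
    refine Finset.sum_congr rfl ?_
    rintro ⟨i, j⟩ ha
    rw [mem_P2] at ha
    dsimp only
    rw [Finset.sum_const, TrA_card_I ha, nsmul_eq_mul]
  have h2 : ∑ t ∈ T3 n, v t.1 t.2.2 = ∑ t ∈ T3 n, v t.1 t.2.1 := by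
    refine Finset.sum_nbij' (fun t => (t.1, t.2.2, t.2.1)) (fun t => (t.1, t.2.2, t.2.1)) ?_ ?_ ?_ ?_ ?_
    · rintro ⟨i, j, k⟩ ht
      rw [mem_T3] at ht
      exact mem_T3.mpr ⟨ht.2.1, ht.1, ht.2.2.symm⟩
    · rintro ⟨i, j, k⟩ ht
      rw [mem_T3] at ht
      exact mem_T3.mpr ⟨ht.2.1, ht.1, ht.2.2.symm⟩
    · rintro ⟨i, j, k⟩ _
      rfl
    · rintro ⟨i, j, k⟩ _
      rfl
    · rintro ⟨i, j, k⟩ _
      rfl
  have h3 : ∑ t ∈ T3 n, v t.2.1 t.2.2 = ∑ t ∈ T3 n, v t.1 t.2.1 := by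
    refine Finset.sum_nbij' (fun t => (t.2.1, t.2.2, t.1)) (fun t => (t.2.2, t.1, t.2.1)) ?_ ?_ ?_ ?_ ?_
    · rintro ⟨i, j, k⟩ ht
      rw [mem_T3] at ht
      exact mem_T3.mpr ⟨ht.2.2, ht.1.symm, ht.2.1.symm⟩
    · rintro ⟨i, j, k⟩ ht
      rw [mem_T3] at ht
      exact mem_T3.mpr ⟨ht.2.1.symm, ht.2.2.symm, ht.1⟩
    · rintro ⟨i, j, k⟩ _
      rfl
    · rintro ⟨i, j, k⟩ _
      rfl
    · rintro ⟨i, j, k⟩ _
      rfl
  rw [Finset.sum_add_distrib, Finset.sum_add_distrib, h2, h3, h1]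
  ring

/-- (SumS4) Proof. `sum_T3`, SumS1, SumS3, SumS2 and the definition of `EE`. -/
theorem sum_w3 {F : Polynomial (Polynomial ℂ)} {S : Finset ℂ} (h : Std F S) {c : ℂ} {ε R C η : ℝ}
    (hc : Clus F S c ε R C η) {z : ℂ} (hz : 0 < ‖z - c‖) (hz' : ‖z - c‖ < η) {U : Set ℂ}
    {s : Fin F.natDegree → ℂ → ℂ} (hs : HSec F F.natDegree U s) (hzU : z ∈ U) :
    ∑ t ∈ T3 F.natDegree, w3 F c ε (fun l => s l z) t = EE F c := by
  unfold w3
  rw [Finset.sum_add_distrib]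
  have h1 := sum_T3 F.natDegree (fun i => wt2 F c ε (s i z))
  have h2 := sum_T3_pair F.natDegree (fun i j => vv F c ε (s i z) (s j z))
  have h3 := sum_wt2 h hc hz hz' hs hzU
  have h4 := sum_vv hc hz hz' hs hzU
  dsimp only at h1 h2 ⊢
  rw [h1, h2, h3, h4]
  unfold EE
  ring

end Pool.Agent.LZ
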