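import Pool.Agent.Lib.MP_79da24_ag.ClS
import Pool.Agent.Lib.MP_79da24_ag.DbS
import Pool.Agent.Lib.MP_79da24_ag.QbB
import Pool.Agent.Lib.MP_79da24_ag.ZgA
import Pool.Agent.Lib.MP_79da24_ag.StA

set_option autoImplicit false

namespace Pool.Agent.LZ

open Polynomial Filter Topology Metric

/-- (WtS1) values of the weights. Proof. `sep`, `bd` as in `wt_near`, `wt_far` (WtA.lean): the filter is `{P}` or empty. -/
theorem wt2_near {F : Polynomial (Polynomial ℂ)} {c : ℂ} {ε R C η : ℝ} (hc : Clus0 F c ε R C η) {y P : ℂ}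
    (hP : P ∈ (spec c F).roots.toFinset) (hy : ‖y - P‖ < ε) : wt2 F c ε y = 1 - om F c P := by
  unfold wt2
  have hfil : (spec c F).roots.toFinset.filter (fun Q => ‖y - Q‖ < ε) = {P} := by
    ext Q
    rw [Finset.mem_filter, Finset.mem_singleton]
    constructor
    · rintro ⟨hQ, hyQ⟩
      by_contra hne
      have h1 := hc.sep Q hQ P hP hne
      have h2 : ‖Q - P‖ ≤ ‖y - P‖ + ‖y - Q‖ := by
        have h3 : Q - P = (y - P) - (y - Q) := by ring
        rw [h3]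
        exact norm_sub_le _ _
      have h4 := hc.εpos
      linarith
    · intro h
      rw [h]
      exact ⟨hP, hy⟩
  rw [hfil, Finset.sum_singleton]

theorem wt2_far {F : Polynomial (Polynomial ℂ)} {c : ℂ} {ε R C η : ℝ} (hc : Clus0 F c ε R C η) {y : ℂ}
    (hy : R + 1 < ‖y‖) : wt2 F c ε y = 1 := by
  unfold wt2
  have hfil : (spec c F).roots.toFinset.filter (fun Q => ‖y - Q‖ < ε) = ∅ := by
    refine Finset.filter_eq_empty_iff.2 ?_
    intro Q hQ hyQ
    have h1 := hc.bd Q hQ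
    have h2 : ‖y‖ ≤ ‖y - Q‖ + ‖Q‖ := by
      have h3 : y = (y - Q) + Q := by ring
      calc ‖y‖ = ‖(y - Q) + Q‖ := by rw [← h3]
        _ ≤ _ := norm_add_le _ _
    have h4 := hc.εle
    linarith
  rw [hfil, Finset.sum_empty, sub_zero]

private theorem WtS_mult_pos {g : Polynomial ℂ} {P : ℂ} (hP : P ∈ g.roots.toFinset) : 1 ≤ g.rootMultiplicity P := by
  rw [Multiset.mem_toFinset] at hP
  rw [← count_roots]
  exact Multiset.one_le_count_iff_mem.2 hP

/-- (WtS2) Proof. `0 ≤ om ≤ 1`: `e ≥ 1` for a root, `e ≥ 2` at a singular point (`SgP.two_le`, `hne`). -/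
theorem om_mem {F : Polynomial (Polynomial ℂ)} {c P : ℂ} (hne : spec c F ≠ 0)
    (hP : P ∈ (spec c F).roots.toFinset) : 0 ≤ om F c P ∧ om F c P ≤ 1 := by
  have h1 : 1 ≤ (spec c F).rootMultiplicity P := WtS_mult_pos hP
  have h1' : (1 : ℝ) ≤ ((spec c F).rootMultiplicity P : ℝ) := by exact_mod_cast h1
  unfold om
  split_ifs with hs
  · have h2 : (2 : ℝ) ≤ ((spec c F).rootMultiplicity P : ℝ) := by exact_mod_cast SgP.two_le hne hs
    constructor
    · exact div_nonneg zero_le_one (by linarith)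
    · rw [div_le_one (by linarith)]
      linarith
  · constructor
    · exact div_nonneg zero_le_one (by linarith)
    · rw [div_le_one (by linarith)]
      linarith

private theorem WtS_bd1 {F : Polynomial (Polynomial ℂ)} {c : ℂ} {ε R C η : ℝ} (hne : spec c F ≠ 0)
    (hc : Clus0 F c ε R C η) {y : ℂ}
    (hy : R + 1 < ‖y‖ ∨ ∃ P ∈ (spec c F).roots.toFinset, ‖y - P‖ < ε) :
    0 ≤ wt2 F c ε y ∧ wt2 F c ε y ≤ 1 := by
  rcases hy with hy | ⟨P, hP, hy⟩
  · rw [wt2_far hc hy]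
    exact ⟨zero_le_one, le_refl _⟩
  · rw [wt2_near hc hP hy]
    have h1 := om_mem hne hP
    exact ⟨by linarith [h1.2], by linarith [h1.1]⟩

private theorem WtS_vv_nonneg (F : Polynomial (Polynomial ℂ)) (c : ℂ) (ε : ℝ) (y y' : ℂ) : 0 ≤ vv F c ε y y' := by
  unfold vv
  exact Nat.cast_nonneg _

/-- two roots near the same point have weights of sum at least one -/
private theorem WtS_pair {F : Polynomial (Polynomial ℂ)} {S : Finset ℂ} {c : ℂ} {ε R C η : ℝ} (hne : spec c F ≠ 0)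
    (hc : Clus F S c ε R C η)
    {z : ℂ} (hz : 0 < ‖z - c‖) (hz' : ‖z - c‖ < η) {U : Set ℂ} {s : Fin F.natDegree → ℂ → ℂ}
    (hs : HSec F F.natDegree U s) (hzU : z ∈ U) {i j : Fin F.natDegree} (hij : i ≠ j) {P : ℂ}
    (hP : P ∈ (spec c F).roots.toFinset) (hi : ‖s i z - P‖ < ε) (hj : ‖s j z - P‖ < ε) :
    1 ≤ wt2 F c ε (s i z) + wt2 F c ε (s j z) + vv F c ε (s i z) (s j z) := by
  have hom := om_mem hne hP
  have hv := WtS_vv_nonneg F c ε (s i z) (s j z)
  rw [wt2_near hc.toClus0 hP hi, wt2_near hc.toClus0 hP hj]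
  have h1 := hc.count z hz hz' U s hs hzU P hP
  have h2 : 2 ≤ (spec c F).rootMultiplicity P := by
    rw [← h1]
    have h3 : ({i, j} : Finset (Fin F.natDegree)) ⊆ Finset.univ.filter fun l => ‖s l z - P‖ < ε := by
      intro l hl
      rw [Finset.mem_insert, Finset.mem_singleton] at hl
      rw [Finset.mem_filter]
      rcases hl with rfl | rfl
      · exact ⟨Finset.mem_univ _, hi⟩
      · exact ⟨Finset.mem_univ _, hj⟩
    have h4 := Finset.card_le_card h3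
    rw [Finset.card_pair hij] at h4
    exact h4
  have h5 : (2 : ℝ) ≤ ((spec c F).rootMultiplicity P : ℝ) := by exact_mod_cast h2
  by_cases hsg : SgP F c P
  · rcases Nat.eq_or_lt_of_le h2 with h6 | h6
    · have hmem : P ∈ (sg2 F c).filter fun P => ‖s i z - P‖ < ε ∧ ‖s j z - P‖ < ε := by
        rw [Finset.mem_filter]
        refine ⟨?_, hi, hj⟩
        unfold sg2
        classical exact Finset.mem_filter.2 ⟨hP, hsg, h6.symm⟩
      have h7 : (1 : ℝ) ≤ vv F c ε (s i z) (s j z) := by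
        unfold vv
        exact_mod_cast Finset.card_pos.2 ⟨P, hmem⟩
      linarith [hom.2]
    · have h7 : (3 : ℝ) ≤ ((spec c F).rootMultiplicity P : ℝ) := by exact_mod_cast h6
      have h8 : om F c P ≤ 1 / 2 := by
        unfold om
        rw [if_pos hsg]
        exact one_div_le_one_div_of_le (by norm_num) (by linarith)
      linarith
  · have h8 : om F c P ≤ 1 / 2 := by
      unfold om
      rw [if_neg hsg]
      exact one_div_le_one_div_of_le (by norm_num) h5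
    linarith

private theorem WtS_log {ρ : ℝ} (h0 : 0 < ρ) (h1 : ρ < 1 / 3) : 1 ≤ -Real.log ρ := by
  have h2 : Real.log ρ ≤ Real.log (1 / 3) := Real.log_le_log h0 h1.le
  have h3 : Real.log (1 / 3) = -Real.log 3 := by
    rw [one_div, Real.log_inv]
  have h4 : (1 : ℝ) < Real.log 3 := by
    rw [Real.lt_log_iff_exp_lt (by norm_num)]
    have h5 := Real.exp_one_lt_d9
    linarith
  linarith

/-- lower bound for the distance of two roots near different points -/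
private theorem WtS_sep {F : Polynomial (Polynomial ℂ)} {c : ℂ} {ε R C η : ℝ} (hc : Clus0 F c ε R C η) {y y' P P' : ℂ}
    (hP : P ∈ (spec c F).roots.toFinset) (hP' : P' ∈ (spec c F).roots.toFinset) (hne : P ≠ P')
    (hy : ‖y - P‖ < ε) (hy' : ‖y' - P'‖ < ε) : 2 * ε ≤ ‖y - y'‖ := by
  have h1 := hc.sep P hP P' hP' hne
  have h2 : P - P' = (y - y') - ((y - P) - (y' - P')) := by ring
  have h3 : ‖P - P'‖ ≤ ‖y - y'‖ + ‖(y - P) - (y' - P')‖ := by
    rw [h2]
    exact norm_sub_le _ _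
  have h4 : ‖(y - P) - (y' - P')‖ ≤ ‖y - P‖ + ‖y' - P'‖ := norm_sub_le _ _
  linarith

private theorem WtS_norm {F : Polynomial (Polynomial ℂ)} {c : ℂ} {ε R C η : ℝ} (hc : Clus0 F c ε R C η) {y P : ℂ}
    (hP : P ∈ (spec c F).roots.toFinset) (hy : ‖y - P‖ < ε) : ‖y‖ ≤ R := by
  have h1 := hc.bd P hP
  have h2 := hc.εle
  have h3 : ‖y‖ ≤ ‖y - P‖ + ‖P‖ := by
    calc ‖y‖ = ‖(y - P) + P‖ := by rw [sub_add_cancel]
      _ ≤ _ := norm_add_le _ _
  linarith

/-- the estimate of `Lq` -/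
private theorem WtS_Lq {n : ℕ} {s : Fin n → ℂ → ℂ} {z : ℂ} {i j : Fin n} {ε B : ℝ} (hε : 0 < ε)
    (hd : 2 * ε ≤ ‖s i z - s j z‖) (hi : ‖deriv (s i) z‖ ≤ B) (hj : ‖deriv (s j) z‖ ≤ B) :
    ‖Lq s i j z‖ ≤ B / ε := by
  unfold Lq
  rw [norm_div]
  have h1 : ‖deriv (s i) z - deriv (s j) z‖ ≤ 2 * B := by
    have := norm_sub_le (deriv (s i) z) (deriv (s j) z)
    linarith
  have h0 : 0 ≤ B := le_trans (norm_nonneg _) hi
  have h2 : B / ε = (2 * B) / (2 * ε) := by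
    rw [mul_div_mul_left _ _ (by norm_num : (2 : ℝ) ≠ 0)]
  rw [h2]
  exact div_le_div₀ (by linarith) h1 (by linarith) hd

/-- (WtS3) the modified factors near a point `c ≠ c₀`, improved weights.
Proof. As `Qt_wt` (WtA.lean, take MP_79da24_ag_WtA.lean of the store as a model). `W = w3 F c ε (fun l => s l z) t ≥ 0` (all terms are `≥ 0` by WtS1, WtS2).
Case `Zg`: `≤ M / ‖z - c₀‖ ≤ 2M/‖c - c₀‖`. Case `¬ Zg` and (one root far, or two roots near the same `P`): then `W ≥ 1`: far: `wt2 = 1`. Two distinct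
indices `i, j` near the same `P`, `e ≥ 2` (`hc.count`: the filter has two elements): if `P` is not singular: `2 (1 - 1/e) ≥ 1`; if `P` is singular and
`e ≥ 3`: `2 (1 - 1/(e-1)) ≥ 1`; if `P` is singular and `e = 2`: `P ∈ sg2 F c` so `vv F c ε (s i z) (s j z) ≥ 1`. So by `Qt_near`:
`≤ C₁ (-log ρ)/ρ ≤ C₁ (-log ρ) ρ^{-W}`. Case `¬ Zg` and three roots near three different `P`: differences `≥ 2ε`, `dm ≤ 2R`, and with `deriv_le2`
`‖s l'‖ ≤ C₂ ρ^{-(1 - om)} = C₂ ρ^{-w_l} ≤ C₂ ρ^{-W}`; conclude as in `Qt_wt`. -/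
theorem Qt_wt2 {F : Polynomial (Polynomial ℂ)} {S : Finset ℂ} (h : Std F S) {c₀ : ℂ} (hc₀ : c₀ ∈ S) {c : ℂ}
    (hcc : c ≠ c₀) {ε R C η : ℝ} (hc : Clus F S c ε R C η) :
    ∃ C' η' : ℝ, 0 < C' ∧ 0 < η' ∧ η' ≤ η ∧ ∀ z, 0 < ‖z - c‖ → ‖z - c‖ < η' →
      ∀ (U : Set ℂ) (s : Fin F.natDegree → ℂ → ℂ), HSec F F.natDegree U s → z ∈ U → ∀ t ∈ T3 F.natDegree,
        ‖Qt c₀ s t z‖ * dm (fun l => s l z) t ≤ C' * (-Real.log ‖z - c‖) *
          ‖z - c‖ ^ (-(w3 F c ε (fun l => s l z) t)) := by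
  obtain ⟨M, hM0, hM⟩ := exists_zg_bound F F.natDegree S (fun z hz => h.exists_hsec' hz)
  obtain ⟨C₁, η₁, hC₁, hη₁, hη₁', hQ⟩ := Qt_near h hc₀ c
  obtain ⟨C₂, η₂, hC₂, hη₂, hη₂', hD⟩ := deriv_le2 h hc
  have hcc0 : 0 < ‖c - c₀‖ := norm_pos_iff.2 (sub_ne_zero.2 hcc)
  have hε := hc.εpos
  have hR := hc.Rpos
  have hK : 0 < 2 * M / ‖c - c₀‖ + C₁ + 2 * R * C₂ / ε ^ 2 := by positivity
  refine ⟨2 * M / ‖c - c₀‖ + C₁ + 2 * R * C₂ / ε ^ 2, min (min η₁ η₂) (‖c - c₀‖ / 2), hK,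
    lt_min (lt_min hη₁ hη₂) (by linarith), le_trans (min_le_left _ _) (le_trans (min_le_right _ _) hη₂'), ?_⟩
  rintro z hz hz' U s hs hzU ⟨i, j, k⟩ ht
  obtain ⟨hij, hik, hjk⟩ := mem_T3.1 ht
  have hz1 : ‖z - c‖ < η₁ := lt_of_lt_of_le hz' (le_trans (min_le_left _ _) (min_le_left _ _))
  have hz2 : ‖z - c‖ < η₂ := lt_of_lt_of_le hz' (le_trans (min_le_left _ _) (min_le_right _ _))
  have hz3 : ‖z - c‖ < ‖c - c₀‖ / 2 := lt_of_lt_of_le hz' (min_le_right _ _)
  have hzη : ‖z - c‖ < η := lt_of_lt_of_le hz2 hη₂'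
  have hρ3 : ‖z - c‖ < 1 / 3 := lt_trans hz1 hη₁'
  have hρ1 : ‖z - c‖ ≤ 1 := by linarith
  have hlog := WtS_log hz hρ3
  have hdich : ∀ l, R + 1 < ‖s l z‖ ∨ ∃ P ∈ (spec c F).roots.toFinset, ‖s l z - P‖ < ε := fun l => by
    rcases hc.dich z (s l z) hzη ((hs.mem_iff z hzU (s l z)).2 ⟨l, rfl⟩) with h1 | ⟨P, hP, h1, -⟩
    · exact Or.inl h1
    · exact Or.inr ⟨P, hP, h1⟩
  have hwi := WtS_bd1 (h.ne c) hc.toClus0 (hdich i)
  have hwj := WtS_bd1 (h.ne c) hc.toClus0 (hdich j)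
  have hwk := WtS_bd1 (h.ne c) hc.toClus0 (hdich k)
  have hv1 := WtS_vv_nonneg F c ε (s i z) (s j z)
  have hv2 := WtS_vv_nonneg F c ε (s i z) (s k z)
  have hv3 := WtS_vv_nonneg F c ε (s j z) (s k z)
  obtain ⟨W, hWd⟩ : ∃ W : ℝ, W = w3 F c ε (fun l => s l z) (i, j, k) := ⟨_, rfl⟩
  have hWe : W = (wt2 F c ε (s i z) + wt2 F c ε (s j z) + wt2 F c ε (s k z)) +
      (vv F c ε (s i z) (s j z) + vv F c ε (s i z) (s k z) + vv F c ε (s j z) (s k z)) := hWd
  rw [← hWd]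
  set wi := wt2 F c ε (s i z) with hwi'
  set wj := wt2 F c ε (s j z) with hwj'
  set wk := wt2 F c ε (s k z) with hwk'
  have hwi0 := hwi.1
  have hwj0 := hwj.1
  have hwk0 := hwk.1
  have hM0' : 0 ≤ 2 * M / ‖c - c₀‖ := by positivity
  have hR0' : 0 ≤ 2 * R * C₂ / ε ^ 2 := by positivity
  have hpow1 : (1 : ℝ) ≤ ‖z - c‖ ^ (-W) := by
    have h1 := Real.rpow_le_rpow_of_exponent_ge hz hρ1 (by linarith : -W ≤ 0)
    rw [Real.rpow_zero] at h1
    exact h1
  -- a bound without the logarithm suffices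
  have hfin : ∀ K : ℝ, 0 ≤ K → K ≤ 2 * M / ‖c - c₀‖ + C₁ + 2 * R * C₂ / ε ^ 2 →
      K * ‖z - c‖ ^ (-W) ≤
        (2 * M / ‖c - c₀‖ + C₁ + 2 * R * C₂ / ε ^ 2) * (-Real.log ‖z - c‖) * ‖z - c‖ ^ (-W) := by
    intro K hK0 hK1
    refine mul_le_mul_of_nonneg_right ?_ (by linarith)
    calc K = K * 1 := (mul_one K).symm
      _ ≤ _ := mul_le_mul hK1 hlog zero_le_one hK.le
  by_cases hW : 1 ≤ W
  · have h1 := (hQ z hz hz1).2 U s hs hzU (i, j, k) ht
    refine le_trans h1 ?_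
    have h2 : C₁ * (-Real.log ‖z - c‖) / ‖z - c‖ = C₁ * (-Real.log ‖z - c‖) * ‖z - c‖ ^ (-1 : ℝ) := by
      rw [Real.rpow_neg_one, div_eq_mul_inv]
    rw [h2]
    have h3 : ‖z - c‖ ^ (-1 : ℝ) ≤ ‖z - c‖ ^ (-W) :=
      Real.rpow_le_rpow_of_exponent_ge hz hρ1 (by linarith)
    have h4 : C₁ * (-Real.log ‖z - c‖) ≤ (2 * M / ‖c - c₀‖ + C₁ + 2 * R * C₂ / ε ^ 2) * (-Real.log ‖z - c‖) :=
      mul_le_mul_of_nonneg_right (by linarith) (by linarith)
    refine mul_le_mul h4 h3 (Real.rpow_nonneg hz.le _) ?_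
    exact mul_nonneg hK.le (by linarith)
  · have hW' : W < 1 := not_le.1 hW
    have hnear : ∀ l, wt2 F c ε (s l z) < 1 → ∃ P ∈ (spec c F).roots.toFinset, ‖s l z - P‖ < ε := by
      intro l hl
      rcases hdich l with h1 | h1
      · rw [wt2_far hc.toClus0 h1] at hl
        exact absurd hl (lt_irrefl _)
      · exact h1
    obtain ⟨Pi, hPi, hni⟩ := hnear i (by linarith [hwi.1, hwj.1, hwk.1])
    obtain ⟨Pj, hPj, hnj⟩ := hnear j (by linarith [hwi.1, hwj.1, hwk.1])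
    obtain ⟨Pk, hPk, hnk⟩ := hnear k (by linarith [hwi.1, hwj.1, hwk.1])
    have hPij : Pi ≠ Pj := by
      rintro rfl
      have h1 := WtS_pair (h.ne c) hc hz hzη hs hzU hij hPi hni hnj
      linarith [hwk.1]
    have hPik : Pi ≠ Pk := by
      rintro rfl
      have h1 := WtS_pair (h.ne c) hc hz hzη hs hzU hik hPi hni hnk
      linarith [hwj.1]
    have hPjk : Pj ≠ Pk := by
      rintro rfl
      have h1 := WtS_pair (h.ne c) hc hz hzη hs hzU hjk hPj hnj hnk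
      linarith [hwi.1]
    by_cases hg : Zg s i j k z
    · have hzc : z ≠ c₀ := fun h1 => hc.nS z hz hzη (by rw [h1]; exact hc₀)
      have h1 := hM U s hs z hzU (hc.nS z hz hzη) i j k hij hik hjk hg
      have h2 := Qt_zg_le hs hzU hzc hjk hg h1
      refine le_trans h2 ?_
      have h3 : ‖c - c₀‖ / 2 ≤ ‖z - c₀‖ := by
        have h4 : c - c₀ = (z - c₀) - (z - c) := by ring
        have h5 : ‖c - c₀‖ ≤ ‖z - c₀‖ + ‖z - c‖ := by
          rw [h4]
          exact norm_sub_le _ _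
        linarith
      have h6 : M / ‖z - c₀‖ ≤ 2 * M / ‖c - c₀‖ := by
        have h7 : 2 * M / ‖c - c₀‖ = M / (‖c - c₀‖ / 2) := by
          field_simp
        rw [h7]
        exact div_le_div_of_nonneg_left hM0.le (by linarith) h3
      refine le_trans ?_ (hfin (2 * M / ‖c - c₀‖) hM0' (by linarith))
      refine le_trans h6 ?_
      calc 2 * M / ‖c - c₀‖ = 2 * M / ‖c - c₀‖ * 1 := (mul_one _).symm
        _ ≤ _ := mul_le_mul_of_nonneg_left hpow1 hM0'
    · have hdij := WtS_sep hc.toClus0 hPi hPj hPij hni hnj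
      have hdik := WtS_sep hc.toClus0 hPi hPk hPik hni hnk
      have hdjk := WtS_sep hc.toClus0 hPj hPk hPjk hnj hnk
      have hder : ∀ l P, P ∈ (spec c F).roots.toFinset → ‖s l z - P‖ < ε → wt2 F c ε (s l z) ≤ W →
          ‖deriv (s l) z‖ ≤ C₂ * ‖z - c‖ ^ (-W) := by
        intro l P hP hl hle
        have h1 := hD z hz hz2 U s hs hzU l P hP hl
        rw [← wt2_near hc.toClus0 hP hl] at h1
        refine le_trans h1 (mul_le_mul_of_nonneg_left ?_ hC₂.le)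
        exact Real.rpow_le_rpow_of_exponent_ge hz hρ1 (by linarith)
      have hdi := hder i Pi hPi hni (by rw [← hwi']; linarith [hwj.1, hwk.1])
      have hdj := hder j Pj hPj hnj (by rw [← hwj']; linarith [hwi.1, hwk.1])
      have hdk := hder k Pk hPk hnk (by rw [← hwk']; linarith [hwi.1, hwj.1])
      have hL1 := WtS_Lq hε hdij hdi hdj
      have hL2 := WtS_Lq hε hdik hdi hdk
      have hQe : Qt c₀ s (i, j, k) z = qq s i j k z := if_neg hg
      have hqq : ‖qq s i j k z‖ ≤ C₂ * ‖z - c‖ ^ (-W) / ε ^ 2 := by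
        unfold qq
        rw [norm_div]
        have h1 : ‖Lq s i j z - Lq s i k z‖ ≤ 2 * (C₂ * ‖z - c‖ ^ (-W) / ε) := by
          have := norm_sub_le (Lq s i j z) (Lq s i k z)
          linarith
        have h0 : 0 ≤ C₂ * ‖z - c‖ ^ (-W) / ε := le_trans (norm_nonneg _) hL1
        have h2 : C₂ * ‖z - c‖ ^ (-W) / ε ^ 2 =
            2 * (C₂ * ‖z - c‖ ^ (-W) / ε) / (2 * ε) := by
          field_simp
        rw [h2]
        exact div_le_div₀ (by linarith) h1 (by linarith) hdjk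
      have hni' := WtS_norm hc.toClus0 hPi hni
      have hnj' := WtS_norm hc.toClus0 hPj hnj
      have hnk' := WtS_norm hc.toClus0 hPk hnk
      have hdm : dm (fun l => s l z) (i, j, k) ≤ 2 * R := by
        unfold dm
        refine max_le ?_ (max_le ?_ ?_)
        · have := norm_sub_le (s i z) (s j z)
          linarith
        · have := norm_sub_le (s i z) (s k z)
          linarith
        · have := norm_sub_le (s j z) (s k z)
          linarith
      have hdm0 : 0 ≤ dm (fun l => s l z) (i, j, k) := by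
        unfold dm
        exact le_trans (norm_nonneg _) (le_max_left _ _)
      rw [hQe]
      refine le_trans ?_ (hfin (2 * R * C₂ / ε ^ 2) hR0' (by linarith))
      calc ‖qq s i j k z‖ * dm (fun l => s l z) (i, j, k)
          ≤ C₂ * ‖z - c‖ ^ (-W) / ε ^ 2 * (2 * R) :=
            mul_le_mul hqq hdm hdm0 (le_trans (norm_nonneg _) hqq)
        _ = 2 * R * C₂ / ε ^ 2 * ‖z - c‖ ^ (-W) := by ring

end Pool.Agent.LZ
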