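import Pool.Agent.Lib.MP_79da24_ag.StA
import Pool.Agent.Lib.MP_79da24_ag.TrB
import Pool.Agent.Lib.MP_79da24_ag.WtS
import Pool.Agent.Lib.MP_79da24_ag.SumS

set_option autoImplicit false

namespace Pool.Agent.LZ

open Polynomial Filter Topology Metric

/-- (PbS) bound of `Psi` near a point `c ≠ c₀`, improved exponent. Proof. As `Psi_near` (PbB.lean; model: MP_79da24_ag_PbB.lean of the store) with `Qt_wt2` and `sum_w3`:
`∏_t (‖Qt‖ dm) ≤ (C₁ (-log ρ))^W ρ^{-∑ w3} = (C₁ (-log ρ))^W ρ^{-EE}` (`Real.rpow_sum_of_pos`), and `star`, `prod_dm_ge` as in PbA. -/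
theorem Psi_near2 {F : Polynomial (Polynomial ℂ)} {S : Finset ℂ} (h : Std F S) {c₀ : ℂ} (hc₀ : c₀ ∈ S) {c : ℂ}
    (hcc : c ≠ c₀) {ε R C η : ℝ} (hc : Clus F S c ε R C η) {p : ℕ} (hp2 : 2 ≤ p) (hpn : p ≤ F.natDegree)
    (hp : ∀ P ∈ (spec c F).roots.toFinset, (spec c F).rootMultiplicity P ≤ p)
    (hf : F.natDegree - (spec c F).natDegree ≤ p) :
    ∃ C' η' : ℝ, 0 < η' ∧ η' < 1 / 3 ∧ ∀ z, 0 < ‖z - c‖ → ‖z - c‖ < η' →
      ∀ (U : Set ℂ) (s : Fin F.natDegree → ℂ → ℂ), HSec F F.natDegree U s → z ∈ U →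
        ‖Psi c₀ (p - 2) s z‖ ≤ C' * (-Real.log ‖z - c‖) ^ (T3 F.natDegree).card *
          ‖z - c‖ ^ (-(EE F c)) := by
  obtain ⟨C₁, η₁, hC₁, hη₁, hη₁le, hQ⟩ := Qt_wt2 h hc₀ hcc hc
  have hη3 : η₁ < 1 / 3 := lt_of_le_of_lt hη₁le hc.ηlt
  have hεp : 0 < (ε / 2) ^ (F.natDegree ^ 3) := pow_pos (by linarith [hc.εpos]) _
  refine ⟨C₁ ^ (T3 F.natDegree).card * ((ε / 2) ^ (F.natDegree ^ 3))⁻¹, η₁, hη₁, hη3, ?_⟩
  intro z hz hz' U s hs hzU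
  have hρη : ‖z - c‖ < η := lt_of_lt_of_le hz' hη₁le
  have hst : ∀ i, (Finset.univ.filter fun k => ‖s i z - s k z‖ < ε).card ≤ p :=
    fun i => star hc hp hf hz hρη hs hzU i
  have hinj : Function.Injective (fun l : Fin F.natDegree => s l z) :=
    fun i j hij => hs.inj z hzU i j hij
  have hdm := prod_dm_ge (fun l : Fin F.natDegree => s l z) hinj hc.εpos hc.εle hp2 hpn hst
  have hdm0 : ∀ t : Fin F.natDegree × Fin F.natDegree × Fin F.natDegree, 0 ≤ dm (fun l => s l z) t :=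
    fun t => le_max_of_le_left (norm_nonneg _)
  have hsum : ∑ t ∈ T3 F.natDegree, (-(w3 F c ε (fun l => s l z) t)) = -(EE F c) := by
    rw [Finset.sum_neg_distrib, sum_w3 h hc hz hρη hs hzU]
  have hA : ∏ t ∈ T3 F.natDegree, (‖Qt c₀ s t z‖ * dm (fun l => s l z) t) ≤
      (C₁ * (-Real.log ‖z - c‖)) ^ (T3 F.natDegree).card * ‖z - c‖ ^ (-(EE F c)) := by
    calc ∏ t ∈ T3 F.natDegree, (‖Qt c₀ s t z‖ * dm (fun l => s l z) t)
        ≤ ∏ t ∈ T3 F.natDegree, (C₁ * (-Real.log ‖z - c‖) *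
          ‖z - c‖ ^ (-(w3 F c ε (fun l => s l z) t))) :=
          Finset.prod_le_prod (fun t _ => mul_nonneg (norm_nonneg _) (hdm0 t))
            (fun t ht => hQ z hz hz' U s hs hzU t ht)
      _ = (C₁ * (-Real.log ‖z - c‖)) ^ (T3 F.natDegree).card *
          ∏ t ∈ T3 F.natDegree, ‖z - c‖ ^ (-(w3 F c ε (fun l => s l z) t)) := by
          rw [Finset.prod_mul_distrib, Finset.prod_const]
      _ = (C₁ * (-Real.log ‖z - c‖)) ^ (T3 F.natDegree).card * ‖z - c‖ ^ (-(EE F c)) := by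
          rw [← Real.rpow_sum_of_pos hz, hsum]
  have hPsi : ‖Psi c₀ (p - 2) s z‖ = (∏ t ∈ T3 F.natDegree, ‖Qt c₀ s t z‖) *
      (∏ t ∈ P2 F.natDegree, ‖s t.1 z - s t.2 z‖) ^ (p - 2) := by
    unfold Psi Ps
    rw [norm_mul, norm_pow, norm_prod, norm_prod]
  have hQ0 : 0 ≤ ∏ t ∈ T3 F.natDegree, ‖Qt c₀ s t z‖ := Finset.prod_nonneg fun t _ => norm_nonneg _
  have hfin : (ε / 2) ^ (F.natDegree ^ 3) * ‖Psi c₀ (p - 2) s z‖ ≤
      (C₁ * (-Real.log ‖z - c‖)) ^ (T3 F.natDegree).card * ‖z - c‖ ^ (-(EE F c)) := by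
    refine le_trans ?_ hA
    rw [hPsi, Finset.prod_mul_distrib]
    calc (ε / 2) ^ (F.natDegree ^ 3) * ((∏ t ∈ T3 F.natDegree, ‖Qt c₀ s t z‖) *
          (∏ t ∈ P2 F.natDegree, ‖s t.1 z - s t.2 z‖) ^ (p - 2))
        = (∏ t ∈ T3 F.natDegree, ‖Qt c₀ s t z‖) * ((ε / 2) ^ (F.natDegree ^ 3) *
          (∏ t ∈ P2 F.natDegree, ‖s t.1 z - s t.2 z‖) ^ (p - 2)) := by ring
      _ ≤ (∏ t ∈ T3 F.natDegree, ‖Qt c₀ s t z‖) * ∏ t ∈ T3 F.natDegree, dm (fun l => s l z) t :=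
          mul_le_mul_of_nonneg_left hdm hQ0
  have hfin2 : ‖Psi c₀ (p - 2) s z‖ ≤ ((ε / 2) ^ (F.natDegree ^ 3))⁻¹ *
      ((C₁ * (-Real.log ‖z - c‖)) ^ (T3 F.natDegree).card * ‖z - c‖ ^ (-(EE F c))) := by
    rw [inv_mul_eq_div, le_div_iff₀ hεp, mul_comm]
    exact hfin
  refine hfin2.trans (le_of_eq ?_)
  rw [mul_pow]
  ring

end Pool.Agent.LZ
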