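import Pool.Agent.Lib.MP_79da24_ag.GlC
import Pool.Agent.Lib.MP_79da24_ag.ClC
import Pool.Agent.Lib.MP_79da24_ag.PbA
import Pool.Agent.Lib.MP_79da24_ag.PbS
import Pool.Agent.Lib.MP_79da24_ag.PbC
import Pool.Agent.Lib.MP_79da24_ag.LiS
import Pool.Agent.Lib.MP_79da24_ag.FcA

set_option autoImplicit false

namespace Pool.Agent.LZ

open Polynomial Filter Topology Metric

/-- (MiS1) Proof. `EE = ∑_t w3 ≥ 0` is not available without sections, so directly: `n - nr g - ∑_{P∈sg} 1/(e_P - 1) ≥ 0`, `g = spec c F`, because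
`n - nr g ≥ natDegree g - nr g = ∑_P (e_P - 1) ≥ ∑_{P ∈ sg} (e_P - 1) ≥ ∑_{P∈sg} 1/(e_P - 1)` (`e_P ≥ 2` on `sg`, `SgP.two_le`, `t ≥ 1/t` for `t ≥ 1`). -/
theorem EE_nonneg {F : Polynomial (Polynomial ℂ)} {S : Finset ℂ} (h : Std F S) (c : ℂ) : 0 ≤ EE F c := by
  classical
  set g := spec c F with hg
  have hne : g ≠ 0 := h.ne c
  have hdeg : g.natDegree ≤ F.natDegree := by
    rw [hg]
    exact natDegree_map_le
  have hsum := FcA_sum (g := g)
  have hmul : ∀ P ∈ g.roots.toFinset, 1 ≤ g.rootMultiplicity P := by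
    intro P hP
    have h1 : P ∈ g.roots := Multiset.mem_toFinset.mp hP
    rw [← count_roots]
    exact Multiset.count_pos.mpr h1
  have h1 : ∑ P ∈ sg F c, 1 / ((g.rootMultiplicity P : ℝ) - 1) ≤
      ∑ P ∈ sg F c, ((g.rootMultiplicity P : ℝ) - 1) := by
    refine Finset.sum_le_sum fun P hP => ?_
    have h2 : 2 ≤ g.rootMultiplicity P := SgP.two_le hne (Finset.mem_filter.mp hP).2
    have h3 : (2 : ℝ) ≤ (g.rootMultiplicity P : ℝ) := by exact_mod_cast h2
    have h4 : (1 : ℝ) ≤ (g.rootMultiplicity P : ℝ) - 1 := by linarith only [h3]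
    rw [div_le_iff₀ (by linarith only [h4])]
    nlinarith only [h4]
  have h2 : ∑ P ∈ sg F c, ((g.rootMultiplicity P : ℝ) - 1) ≤
      ∑ P ∈ g.roots.toFinset, ((g.rootMultiplicity P : ℝ) - 1) := by
    refine Finset.sum_le_sum_of_subset_of_nonneg (Finset.filter_subset _ _) fun P hP _ => ?_
    have h3 : (1 : ℝ) ≤ (g.rootMultiplicity P : ℝ) := by exact_mod_cast hmul P hP
    linarith only [h3]
  have h3 : ∑ P ∈ g.roots.toFinset, ((g.rootMultiplicity P : ℝ) - 1) =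
      ((∑ P ∈ g.roots.toFinset, g.rootMultiplicity P : ℕ) : ℝ) - (nr g : ℝ) := by
    rw [Finset.sum_sub_distrib, Finset.sum_const, nsmul_eq_mul, mul_one]
    push_cast
    rfl
  have h4 : ((∑ P ∈ g.roots.toFinset, g.rootMultiplicity P : ℕ) : ℝ) ≤ (F.natDegree : ℝ) := by
    exact_mod_cast hsum.trans hdeg
  have h5 : 0 ≤ (F.natDegree : ℝ) - (nr g : ℝ) - ∑ P ∈ sg F c, 1 / ((g.rootMultiplicity P : ℝ) - 1) := by
    linarith only [h1, h2, h3, h4]
  unfold EE
  rw [← hg]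
  positivity

/-- (MiS2) Proof. As `main_ineq` (MiA.lean; model MP_79da24_ag_MiA.lean in the store) with `Psi_near2`, `liouville_log2`,
`κ c = if c = c₀ then W else EE F c` (near `c₀`: `Psi_near₀`, `(ρ^W)⁻¹ = ρ^{-W}` as a real power). -/
theorem main_ineq2 {F : Polynomial (Polynomial ℂ)} {S : Finset ℂ} (h : Std F S) {c₀ : ℂ} (hc₀ : c₀ ∈ S) (D : ℕ)
    (hD : F.discr.natDegree = D + 2 * (F.natDegree - 1) * F.leadingCoeff.natDegree)
    {p : ℕ} (hp2 : 2 ≤ p) (hpn : p ≤ F.natDegree)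
    (hp : ∀ c ∈ S, (∀ P ∈ (spec c F).roots.toFinset, (spec c F).rootMultiplicity P ≤ p) ∧
      F.natDegree - (spec c F).natDegree ≤ p) :
    ((F.natDegree - p : ℕ) : ℝ) * (D : ℝ) ≤ ∑ c ∈ S.erase c₀, EE F c := by
  by_contra hcon
  rw [not_le] at hcon
  obtain ⟨Ψ, hΨd, ⟨z₀, hz₀, hz₀'⟩, hΨs⟩ :=
    exists_global F F.natDegree S hc₀ (p - 2) (fun z hz => h.exists_hsec' hz)
  refine hz₀' (liouville_log2 hΨd (T3 F.natDegree).card
    ((T3 F.natDegree).card + (F.natDegree - p) * D)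
    (fun c => if c = c₀ then ((T3 F.natDegree).card : ℝ) else EE F c) ?_ ?_ ?_ ?_ z₀ hz₀)
  · intro c _
    by_cases hcc : c = c₀
    · simp only [if_pos hcc]
      positivity
    · simp only [if_neg hcc]
      exact EE_nonneg h c
  · intro c hcS
    obtain ⟨ε, R, C, η, hc⟩ := exists_clus h c
    by_cases hcc : c = c₀
    · obtain ⟨C', η', h1, h2, h3⟩ := Psi_near₀ h hc₀ hc hp2 hpn (hp c hcS).1 (hp c hcS).2
      refine ⟨C', min η' η, lt_min h1 hc.ηpos, lt_of_le_of_lt (min_le_left _ _) h2, ?_⟩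
      intro z hz hz'
      have hzS : z ∉ S := hc.nS z hz (lt_of_lt_of_le hz' (min_le_right _ _))
      obtain ⟨r, hr, _, s, hs⟩ := h.exists_hsec' hzS
      rw [hΨs (ball z r) s hs z (mem_ball_self hr) hzS]
      have := h3 z hz (lt_of_lt_of_le hz' (min_le_left _ _)) (ball z r) s hs (mem_ball_self hr)
      simp only [if_pos hcc]
      rw [Real.rpow_neg hz.le, Real.rpow_natCast]
      exact this
    · obtain ⟨C', η', h1, h2, h3⟩ := Psi_near2 h hc₀ hcc hc hp2 hpn (hp c hcS).1 (hp c hcS).2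
      refine ⟨C', min η' η, lt_min h1 hc.ηpos, lt_of_le_of_lt (min_le_left _ _) h2, ?_⟩
      intro z hz hz'
      have hzS : z ∉ S := hc.nS z hz (lt_of_lt_of_le hz' (min_le_right _ _))
      obtain ⟨r, hr, _, s, hs⟩ := h.exists_hsec' hzS
      rw [hΨs (ball z r) s hs z (mem_ball_self hr) hzS]
      have := h3 z hz (lt_of_lt_of_le hz' (min_le_left _ _)) (ball z r) s hs (mem_ball_self hr)
      simpa only [if_neg hcc] using this
  · obtain ⟨C', R, h1, h2⟩ := Psi_infty h hc₀ D hD hp2 hpn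
    obtain ⟨K, R₂, _, h4⟩ := growth_infty h
    refine ⟨C', max R R₂, lt_of_lt_of_le h1 (le_max_left _ _), ?_⟩
    intro z hz
    have hzS : z ∉ S := (h4 z (lt_of_le_of_lt (le_max_right _ _) hz)).1
    obtain ⟨r, hr, _, s, hs⟩ := h.exists_hsec' hzS
    rw [hΨs (ball z r) s hs z (mem_ball_self hr) hzS]
    exact h2 z (lt_of_le_of_lt (le_max_left _ _) hz) (ball z r) s hs (mem_ball_self hr)
  · rw [← Finset.add_sum_erase S _ hc₀]
    simp only [if_true]
    push_cast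
    have h1 : ∑ c ∈ S.erase c₀, (if c = c₀ then ((T3 F.natDegree).card : ℝ) else EE F c) =
        ∑ c ∈ S.erase c₀, EE F c := by
      refine Finset.sum_congr rfl fun c hc => ?_
      rw [if_neg (Finset.ne_of_mem_erase hc)]
    rw [h1]
    exact (add_lt_add_iff_left _).mpr hcon

end Pool.Agent.LZ
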