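import Pool.Agent.Lib.MP_79da24_ag.Geo

set_option autoImplicit false

namespace Pool.Agent.LZ

open Polynomial

/-- The specialisation `F(z, ·)` of a bivariate polynomial `F(x, Y) ∈ ℂ[x][Y]`. -/
noncomputable def spec (z : ℂ) (F : Polynomial (Polynomial ℂ)) : Polynomial ℂ :=
  F.map (evalRingHom z)

/-- The number of distinct roots. -/
noncomputable def nr (p : Polynomial ℂ) : ℕ := p.roots.toFinset.card

/-- The affine plane curve `F = 0`. -/
def curve (F : Polynomial (Polynomial ℂ)) : Set (ℂ × ℂ) := {p | F.evalEval p.1 p.2 = 0}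

theorem eval_spec (z y : ℂ) (F : Polynomial (Polynomial ℂ)) :
    (spec z F).eval y = F.evalEval z y := by
  simp [spec, map_evalRingHom_eval]

end Pool.Agent.LZ
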