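import Pool.Agent.Lib.MP_79da24_ag.Poly

set_option autoImplicit false

/-!
# The Riemann-Hurwitz count for a pencil of polynomials.
-/

namespace Pool.Agent.LZ


open Polynomial

/-- The members of the pencil spanned by `a` and `c`. -/
noncomputable def pen (a c : Polynomial ℂ) : Option ℂ → Polynomial ℂ
  | none => c
  | some t => a - C t * c




open Polynomial



/-- If `c = 0`, `IsCoprime a 0` makes `a` a unit, so both natDegrees are `0`, contradiction with `1 ≤ m`. If `a = C t * c` then
`c ∣ a`, so `c` is a unit (coprime), so `c` and `a` have natDegree 0, contradiction. -/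
theorem pen_ne_zero (a c : Polynomial ℂ) (hco : IsCoprime a c) (m : ℕ)
    (hm : m = max a.natDegree c.natDegree) (hm1 : 1 ≤ m) (t : Option ℂ) : pen a c t ≠ 0 := by
  intro h0
  have key : IsUnit c → ∀ s : ℂ, a = C s * c → False := by
    intro hc s ha
    have h1 : c.natDegree = 0 := natDegree_eq_zero_of_isUnit hc
    have h2 : a.natDegree ≤ c.natDegree := by
      rw [ha]
      exact natDegree_C_mul_le _ _
    omega
  cases t with
  | none =>
    change c = 0 at h0
    rw [h0, isCoprime_zero_right] at hco
    have h1 : a.natDegree = 0 := natDegree_eq_zero_of_isUnit hco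
    rw [h0, natDegree_zero] at hm
    omega
  | some t =>
    change a - C t * c = 0 at h0
    have ha : a = C t * c := sub_eq_zero.1 h0
    have hd : c ∣ a := ⟨C t, by rw [ha, mul_comm]⟩
    have hu : IsUnit c := by
      have := hco.symm
      exact this.isUnit_of_dvd hd
    exact key hu t ha

theorem pen_natDegree_le (a c : Polynomial ℂ) (m : ℕ)
    (hm : m = max a.natDegree c.natDegree) (t : Option ℂ) : (pen a c t).natDegree ≤ m := by
  cases t with
  | none =>
    change c.natDegree ≤ m
    omega
  | some t =>
    change (a - C t * c).natDegree ≤ m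
    have h1 := natDegree_sub_le a (C t * c)
    have h2 : (C t * c).natDegree ≤ c.natDegree := natDegree_C_mul_le _ _
    omega

theorem nr_le_natDegree (p : Polynomial ℂ) : nr p ≤ p.natDegree :=
  (Multiset.toFinset_card_le _).trans (card_roots' p)

/-- If `c.eval z = 0` then `a.eval z ≠ 0` (coprime) and `t = none` is the only solution. Otherwise `t = some (a.eval z / c.eval z)`. -/
theorem pen_unique (a c : Polynomial ℂ) (hco : IsCoprime a c) (z : ℂ) :
    ∃! t, (pen a c t).eval z = 0 := by
  obtain ⟨u, v, huv⟩ := hco
  have h1 : u.eval z * a.eval z + v.eval z * c.eval z = 1 := by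
    rw [← eval_mul, ← eval_mul, ← eval_add, huv, eval_one]
  by_cases hc : c.eval z = 0
  · refine ⟨none, hc, fun t ht => ?_⟩
    cases t with
    | none => rfl
    | some t =>
      change (a - C t * c).eval z = 0 at ht
      rw [eval_sub, eval_mul, eval_C, hc, mul_zero, sub_zero] at ht
      rw [hc, ht, mul_zero, mul_zero, add_zero] at h1
      exact absurd h1 zero_ne_one
  · refine ⟨some (a.eval z / c.eval z), ?_, fun t ht => ?_⟩
    · change (a - C (a.eval z / c.eval z) * c).eval z = 0
      rw [eval_sub, eval_mul, eval_C, div_mul_cancel₀ _ hc, sub_self]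
    · cases t with
      | none => exact absurd ht hc
      | some t =>
        change (a - C t * c).eval z = 0 at ht
        rw [eval_sub, eval_mul, eval_C, sub_eq_zero] at ht
        rw [ht, mul_div_cancel_right₀ _ hc]

/-- the general computation -/
private theorem RH1_aux (P q : Polynomial ℂ) (hP : P ≠ 0) (z : ℂ) (hz : P.eval z = 0) (hq : q.eval z ≠ 0) :
    rootMultiplicity z (derivative P * q - P * derivative q) + 1 = rootMultiplicity z P := by
  obtain ⟨R, hR, hRn⟩ := exists_eq_pow_rootMultiplicity_mul_and_not_dvd P hP z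
  obtain ⟨k, hk⟩ : ∃ k, k + 1 = rootMultiplicity z P := by
    have := (rootMultiplicity_pos hP).2 hz
    exact ⟨rootMultiplicity z P - 1, by omega⟩
  rw [← hk] at hR ⊢
  have hRz : R.eval z ≠ 0 := fun h => hRn (dvd_iff_isRoot.2 h)
  have hW : derivative P * q - P * derivative q = (X - C z) ^ k *
      (((k : Polynomial ℂ) + 1) * (R * q) + (X - C z) * (derivative R * q - R * derivative q)) := by
    have hd : derivative P = ((k : Polynomial ℂ) + 1) * (X - C z) ^ k * R + (X - C z) ^ (k + 1) * derivative R := by
      rw [hR, derivative_mul, derivative_X_sub_C_pow]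
      push_cast
      simp
    rw [hd]
    conv_lhs => rw [hR]
    ring
  have hS : (((k : Polynomial ℂ) + 1) * (R * q) + (X - C z) * (derivative R * q - R * derivative q)).eval z ≠ 0 := by
    simp only [eval_add, eval_mul, eval_sub, eval_X, eval_C, sub_self, zero_mul, add_zero, eval_natCast, eval_one]
    exact mul_ne_zero (Nat.cast_add_one_ne_zero k) (mul_ne_zero hRz hq)
  have hS0 : (((k : Polynomial ℂ) + 1) * (R * q) + (X - C z) * (derivative R * q - R * derivative q)) ≠ 0 := by
    intro h
    rw [h, eval_zero] at hS
    exact hS rfl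
  rw [hW, rootMultiplicity_mul (mul_ne_zero (pow_ne_zero _ (X_sub_C_ne_zero z)) hS0), rootMultiplicity_X_sub_C_pow,
    rootMultiplicity_eq_zero hS]

/-- (RH-2) Let `P = pen a c t` and `W = derivative a * c - a * derivative c`.
There is `q` (`q = c` if `t = some _`, `q = -a` if `t = none`) with `W = derivative P * q - P * derivative q` and `q.eval z ≠ 0` (coprimality, as
`P.eval z = 0`). `P ≠ 0` (pen_ne_zero). Let `k = rootMultiplicity z P ≥ 1`, `P = (X - C z)^k * R`, `R.eval z ≠ 0`. Then
`W = (X - C z)^(k-1) * (k R q + (X - C z) (derivative R * q - R * derivative q))` and the second factor does not vanish at `z`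
(`k ≠ 0` in `ℂ`), so `rootMultiplicity z W = k - 1`. (Mathlib: `rootMultiplicity_mul`, `rootMultiplicity_X_sub_C_pow`, `rootMultiplicity_eq_zero`,
or `derivative_rootMultiplicity_of_root`.) -/
theorem rootMultiplicity_wronskian (a c : Polynomial ℂ) (hco : IsCoprime a c) (m : ℕ)
    (hm : m = max a.natDegree c.natDegree) (hm1 : 1 ≤ m) (t : Option ℂ) (z : ℂ)
    (hz : (pen a c t).eval z = 0) :
    rootMultiplicity z (derivative a * c - a * derivative c) + 1 =
      rootMultiplicity z (pen a c t) := by
  have hP := pen_ne_zero a c hco m hm hm1 t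
  obtain ⟨u, v, huv⟩ := hco
  have h1 : u.eval z * a.eval z + v.eval z * c.eval z = 1 := by
    rw [← eval_mul, ← eval_mul, ← eval_add, huv, eval_one]
  cases t with
  | none =>
    change c.eval z = 0 at hz
    change _ = rootMultiplicity z c
    have ha : (-a).eval z ≠ 0 := by
      intro h0
      rw [eval_neg, neg_eq_zero] at h0
      rw [h0, hz, mul_zero, mul_zero, add_zero] at h1
      exact zero_ne_one h1
    rw [← RH1_aux c (-a) hP z hz ha, derivative_neg]
    congr 2
    ring
  | some t =>
    change (a - C t * c).eval z = 0 at hz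
    change _ = rootMultiplicity z (a - C t * c)
    have hc : c.eval z ≠ 0 := by
      intro h0
      rw [eval_sub, eval_mul, h0, mul_zero, sub_zero] at hz
      rw [h0, hz, mul_zero, mul_zero, add_zero] at h1
      exact zero_ne_one h1
    rw [← RH1_aux (a - C t * c) c hP z hz hc, derivative_sub, derivative_C_mul]
    congr 2
    ring




open Polynomial

private theorem RH3_aux1 (P Q : Polynomial ℂ) (h : 1 ≤ P.natDegree + Q.natDegree) :
    (derivative P * Q).natDegree ≤ P.natDegree + Q.natDegree - 1 ∧
      (derivative P * Q).coeff (P.natDegree + Q.natDegree - 1) =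
        (P.natDegree : ℂ) * (P.leadingCoeff * Q.leadingCoeff) := by
  rcases Nat.eq_zero_or_pos P.natDegree with h0 | h0
  · have h1 : derivative P = 0 := derivative_of_natDegree_zero h0
    rw [h1, zero_mul, h0]
    simp
  · have h1 : P.natDegree + Q.natDegree - 1 = (P.natDegree - 1) + Q.natDegree := by omega
    refine ⟨?_, ?_⟩
    · rw [h1]
      exact natDegree_mul_le_of_le (natDegree_derivative_le P) le_rfl
    · rw [h1, coeff_mul_add_eq_of_natDegree_le (natDegree_derivative_le P) le_rfl, coeff_derivative]
      have h2 : P.natDegree - 1 + 1 = P.natDegree := by omega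
      have h3 : (((P.natDegree - 1 : ℕ) : ℂ) + 1) = (P.natDegree : ℂ) := by
        rw [← Nat.cast_add_one, h2]
      rw [h3, h2, coeff_natDegree, coeff_natDegree]
      ring

private theorem RH3_aux2 (P Q : Polynomial ℂ) (hP : P ≠ 0) (hQ : Q ≠ 0)
    (hne : P.natDegree ≠ Q.natDegree) :
    derivative P * Q - P * derivative Q ≠ 0 ∧
      (derivative P * Q - P * derivative Q).natDegree + 1 = P.natDegree + Q.natDegree := by
  have h : 1 ≤ P.natDegree + Q.natDegree := by omega
  obtain ⟨h1, h2⟩ := RH3_aux1 P Q h
  obtain ⟨h3, h4⟩ := RH3_aux1 Q P (by omega)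
  have hc : P * derivative Q = derivative Q * P := mul_comm _ _
  have hd : Q.natDegree + P.natDegree - 1 = P.natDegree + Q.natDegree - 1 := by omega
  rw [hd] at h3 h4
  have h5 : (derivative P * Q - P * derivative Q).coeff (P.natDegree + Q.natDegree - 1) =
      ((P.natDegree : ℂ) - Q.natDegree) * (P.leadingCoeff * Q.leadingCoeff) := by
    rw [coeff_sub, h2, hc, h4]
    ring
  have h6 : ((P.natDegree : ℂ) - Q.natDegree) * (P.leadingCoeff * Q.leadingCoeff) ≠ 0 := by
    refine mul_ne_zero ?_ (mul_ne_zero (leadingCoeff_ne_zero.2 hP) (leadingCoeff_ne_zero.2 hQ))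
    rw [sub_ne_zero]
    exact_mod_cast hne
  have h7 : (derivative P * Q - P * derivative Q).coeff (P.natDegree + Q.natDegree - 1) ≠ 0 := by
    rw [h5]
    exact h6
  have h8 : (derivative P * Q - P * derivative Q).natDegree ≤ P.natDegree + Q.natDegree - 1 := by
    rw [hc]
    exact (natDegree_sub_le _ _).trans (max_le h1 h3)
  have h9 := le_natDegree_of_ne_zero h7
  refine ⟨fun h0 => h7 (by rw [h0, coeff_zero]), ?_⟩
  omega

/-- (RH-3) `W = derivative a * c - a * derivative c`.
Proof. Case 1: `c.natDegree < m` (so `a.natDegree = m`). `t₀ = none`: for `t = some s`, `(a - C s * c).natDegree = m`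
(`natDegree_sub_eq_left_of_natDegree_lt`). With `k = c.natDegree < m` (`c ≠ 0`), the coefficient of `W` at `m + k - 1` is
`m * lc(a) * lc(c) - lc(a) * k * lc(c) = (m - k) lc(a) lc(c) ≠ 0` and `W.natDegree ≤ m + k - 1`; so `W.natDegree = m + k - 1`
(`m ≥ 1`), that is `W.natDegree + m + 1 = 2m + k`.
Case 2: `c.natDegree = m`. Put `s₀ = a.coeff m / c.coeff m`, `t₀ = some s₀`, `P = a - C s₀ * c`, whose coefficient at `m` is zero, so
`k := P.natDegree < m` (`P ≠ 0` by `pen_ne_zero`, and natDegree ≤ m with vanishing `m`-th coefficient, `m ≥ 1`). For `t = none`, `natDegree c = m`; for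
`t = some s`, `s ≠ s₀`, the `m`-th coefficient `a_m - s c_m ≠ 0`. `W = derivative P * c - P * derivative c` (expand), coefficient at `m + k - 1`:
`(k - m) lc(P) lc(c) ≠ 0`; the same computation as in case 1 with the roles `(P, c)`. It is convenient to prove first the lemma: for `P, Q` nonzero
with `natDegree P ≠ natDegree Q`, `derivative P * Q - P * derivative Q ≠ 0` and its natDegree `+ 1 = natDegree P + natDegree Q`. (If one of the
degrees is 0, fine: the other is positive.) -/
theorem natDegree_wronskian (a c : Polynomial ℂ) (hco : IsCoprime a c) (m : ℕ)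
    (hm : m = max a.natDegree c.natDegree) (hm1 : 1 ≤ m) :
    derivative a * c - a * derivative c ≠ 0 ∧
    ∃ t₀ : Option ℂ, (∀ t, t ≠ t₀ → (pen a c t).natDegree = m) ∧
      (derivative a * c - a * derivative c).natDegree + m + 1 =
        2 * m + (pen a c t₀).natDegree := by
  have hcm : c.natDegree ≤ m := by rw [hm]; exact le_max_right _ _
  have ham : a.natDegree ≤ m := by rw [hm]; exact le_max_left _ _
  have hc0 : c ≠ 0 := pen_ne_zero a c hco m hm hm1 none
  rcases lt_or_eq_of_le hcm with h | h
  · have ha : a.natDegree = m := by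
      rcases le_total a.natDegree c.natDegree with h1 | h1
      · rw [max_eq_right h1] at hm
        omega
      · rw [max_eq_left h1] at hm
        exact hm.symm
    have ha0 : a ≠ 0 := by
      intro h0
      rw [h0, natDegree_zero] at ha
      omega
    obtain ⟨h1, h2⟩ := RH3_aux2 a c ha0 hc0 (by omega)
    refine ⟨h1, none, fun t ht => ?_, ?_⟩
    · match t with
      | none => exact (ht rfl).elim
      | some s =>
        show (a - C s * c).natDegree = m
        rw [natDegree_sub_eq_left_of_natDegree_lt, ha]
        exact lt_of_le_of_lt (natDegree_C_mul_le s c) (by omega)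
    · show _ = 2 * m + c.natDegree
      omega
  · have hcc : c.coeff m ≠ 0 := by
      rw [← h, coeff_natDegree]
      exact leadingCoeff_ne_zero.2 hc0
    set s₀ : ℂ := a.coeff m / c.coeff m with hs₀
    have hP0 : a - C s₀ * c ≠ 0 := pen_ne_zero a c hco m hm hm1 (some s₀)
    have hPm : (a - C s₀ * c).natDegree ≤ m := pen_natDegree_le a c m hm (some s₀)
    have hPc : (a - C s₀ * c).coeff m = 0 := by
      rw [coeff_sub, coeff_C_mul, hs₀, div_mul_cancel₀ _ hcc, sub_self]
    have hPlt : (a - C s₀ * c).natDegree < m := by
      refine lt_of_le_of_ne hPm fun h0 => ?_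
      have h1 : (a - C s₀ * c).leadingCoeff = 0 := by
        rw [← coeff_natDegree, h0]
        exact hPc
      exact hP0 (leadingCoeff_eq_zero.1 h1)
    obtain ⟨h1, h2⟩ := RH3_aux2 (a - C s₀ * c) c hP0 hc0 (by omega)
    have h3 : derivative (a - C s₀ * c) * c - (a - C s₀ * c) * derivative c =
        derivative a * c - a * derivative c := by
      rw [derivative_sub, derivative_C_mul]
      ring
    rw [h3] at h1 h2
    refine ⟨h1, some s₀, fun t ht => ?_, ?_⟩
    · match t with
      | none => exact h
      | some s =>
        have hs : s ≠ s₀ := fun h0 => ht (by rw [h0])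
        show (a - C s * c).natDegree = m
        have h4 : (a - C s * c).coeff m ≠ 0 := by
          rw [coeff_sub, coeff_C_mul]
          intro h5
          apply hs
          rw [hs₀, eq_div_iff hcc]
          linear_combination -h5
        exact le_antisymm (pen_natDegree_le a c m hm (some s)) (le_natDegree_of_ne_zero h4)
    · show _ = 2 * m + (a - C s₀ * c).natDegree
      omega




open Polynomial

/-- (RH-4)
Proof. `W = derivative a * c - a * derivative c ≠ 0`, `t₀` from RH-3. For `z : ℂ` let `τ z` be the unique `t` with `(pen a c t).eval z = 0`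
(`pen_unique`). Put `T₀ = insert t₀ (W.roots.toFinset.image τ)`.
(i) If `t ∉ T₀`: `natDegree (pen t) = m` and every root `z` of `P_t = pen a c t` has `τ z = t`, so is not a root of `W`, so
`rootMultiplicity z P_t = 1` (RH-2 with `rootMultiplicity z W = 0`); so `roots.Nodup` and `nr P_t = card roots = natDegree = m` (`ℂ` algebraically closed).
(ii) For every `t`: `m - nr P_t = (m - natDegree P_t) + ∑ z ∈ P_t.roots.toFinset, (rootMultiplicity z P_t - 1)`, because
`natDegree P_t = card roots = ∑ z ∈ roots.toFinset, rootMultiplicity z P_t` (`Multiset.toFinset_sum_count_eq`, `count_roots`) and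
`nr P_t = ∑ z ∈ roots.toFinset, 1`; and by RH-2 `rootMultiplicity z P_t - 1 = rootMultiplicity z W`.
(iii) Sum over `t ∈ T₀`: `∑ (m - natDegree P_t) = m - natDegree P_{t₀}` (only `t₀` contributes) and
`∑_{t ∈ T₀} ∑_{z ∈ roots P_t} rootMultiplicity z W = ∑_{z ∈ W.roots.toFinset} rootMultiplicity z W = natDegree W`: the sets `P_t.roots.toFinset` are
disjoint for different `t` (`τ z = t` on them), the union over `T₀` contains all roots of `W` (each root `z` of `W` lies over `τ z ∈ T₀`),
and the points that are not roots of `W` contribute 0 (`Finset.sum_biUnion`, `Finset.sum_subset`; `card_roots` of an algebraically closed field).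
Total: `m - natDegree P_{t₀} + natDegree W = 2m - 1` by RH-3. -/
theorem riemann_hurwitz (a c : Polynomial ℂ) (hco : IsCoprime a c) (m : ℕ)
    (hm : m = max a.natDegree c.natDegree) (hm1 : 1 ≤ m) :
    ∃ T₀ : Finset (Option ℂ), (∀ t, t ∉ T₀ → nr (pen a c t) = m) ∧
      ∑ t ∈ T₀, (m - nr (pen a c t)) = 2 * m - 1 := by
  classical
  obtain ⟨hW, t₀, hdeg, hWdeg⟩ := natDegree_wronskian a c hco m hm hm1
  have hrm := fun t z hz => rootMultiplicity_wronskian a c hco m hm hm1 t z hz
  revert hW hWdeg hrm
  generalize derivative a * c - a * derivative c = W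
  intro hW hWdeg hrm
  choose τ hτ hτu using fun z => pen_unique a c hco z
  have hne := pen_ne_zero a c hco m hm hm1
  have hle := pen_natDegree_le a c m hm
  have hmem : ∀ t z, z ∈ (pen a c t).roots.toFinset ↔ (pen a c t).eval z = 0 := by
    intro t z
    rw [Multiset.mem_toFinset, mem_roots (hne t)]
    exact Iff.rfl
  have hsumc : ∀ p : Polynomial ℂ, p.natDegree =
      ∑ z ∈ p.roots.toFinset, rootMultiplicity z p := by
    intro p
    have h1 : p.roots.card = p.natDegree :=
      (IsAlgClosed.splits p).natDegree_eq_card_roots.symm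
    rw [← h1, ← Multiset.toFinset_sum_count_eq]
    exact Finset.sum_congr rfl fun z _ => count_roots p
  have hkey : ∀ t, (pen a c t).natDegree = nr (pen a c t) +
      ∑ z ∈ (pen a c t).roots.toFinset, rootMultiplicity z W := by
    intro t
    have h1 : (pen a c t).natDegree =
        ∑ z ∈ (pen a c t).roots.toFinset, (1 + rootMultiplicity z W) := by
      rw [hsumc (pen a c t)]
      refine Finset.sum_congr rfl fun z hz => ?_
      have := hrm t z ((hmem t z).1 hz)
      omega
    rw [h1, Finset.sum_add_distrib, Finset.sum_const, smul_eq_mul, mul_one, nr]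
  have hmemW : ∀ z, z ∈ W.roots.toFinset ↔ W.eval z = 0 := by
    intro z
    rw [Multiset.mem_toFinset, mem_roots hW]
    exact Iff.rfl
  have hzero : ∀ z, z ∉ W.roots.toFinset → rootMultiplicity z W = 0 := by
    intro z hz
    refine rootMultiplicity_eq_zero ?_
    intro h
    exact hz ((hmemW z).2 h)
  refine ⟨insert t₀ (W.roots.toFinset.image τ), ?_, ?_⟩
  · intro t ht
    rw [Finset.mem_insert, not_or] at ht
    have h0 : ∑ z ∈ (pen a c t).roots.toFinset, rootMultiplicity z W = 0 := by
      refine Finset.sum_eq_zero fun z hz => hzero z fun hzW => ht.2 ?_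
      rw [hτu z t ((hmem t z).1 hz)]
      exact Finset.mem_image_of_mem τ hzW
    have h1 := hkey t
    rw [h0, hdeg t ht.1, add_zero] at h1
    exact h1.symm
  · have hterm : ∀ t, m - nr (pen a c t) = (m - (pen a c t).natDegree) +
        ∑ z ∈ (pen a c t).roots.toFinset, rootMultiplicity z W := by
      intro t
      have h1 := hkey t
      have h2 := hle t
      omega
    rw [Finset.sum_congr rfl fun t _ => hterm t, Finset.sum_add_distrib]
    have hA : ∑ t ∈ insert t₀ (W.roots.toFinset.image τ), (m - (pen a c t).natDegree) =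
        m - (pen a c t₀).natDegree := by
      refine Finset.sum_eq_single t₀ ?_ ?_
      · intro t _ ht
        rw [hdeg t ht, Nat.sub_self]
      · intro h
        exact absurd (Finset.mem_insert_self _ _) h
    have hB : ∑ t ∈ insert t₀ (W.roots.toFinset.image τ),
        ∑ z ∈ (pen a c t).roots.toFinset, rootMultiplicity z W = W.natDegree := by
      rw [← Finset.sum_biUnion]
      · rw [hsumc W]
        symm
        refine Finset.sum_subset ?_ ?_
        · intro z hz
          rw [Finset.mem_biUnion]
          exact ⟨τ z, Finset.mem_insert_of_mem (Finset.mem_image_of_mem τ hz),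
            (hmem _ _).2 (hτ z)⟩
        · intro z _ hz
          exact hzero z hz
      · intro t _ t' _ htt
        rw [Function.onFun, Finset.disjoint_left]
        intro z hz hz'
        refine htt ?_
        rw [hτu z t ((hmem t z).1 hz), hτu z t' ((hmem t' z).1 hz')]
    rw [hA, hB]
    have := hle t₀
    omega



end Pool.Agent.LZ
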