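import Pool.Agent.Lib.MP_79da24_ag.SH1

set_option autoImplicit false

/-!
# The rank bound and the graph bound.
-/

namespace Pool.Agent.LZ

theorem rank_bound {X : Type} [TopologicalSpace X] {E : Type} [Fintype E]
    (φ : E → C(X, Circle)) (W : Submodule ℝ (E → ℝ))
    (hW : ∀ k : E → ℝ, (∀ (γ : C(unitInterval, X)), γ 0 = γ 1 →
      ∀ L : E → C(unitInterval, ℝ), (∀ e, IsLift (φ e) γ (L e)) →
        ∑ e, k e * (L e 1 - L e 0) = 0) → k ∈ W) :
    (Fintype.card E : Cardinal) ≤ Module.rank ℚ (H1Q X) + (Module.finrank ℝ W : Cardinal) := by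
  classical
  rcases le_or_gt Cardinal.aleph0 (Module.rank ℚ (H1Q X)) with hinf | hfin
  · exact (Cardinal.natCast_lt_aleph0.le.trans hinf).trans le_self_add
  have hf : Module.Finite ℚ (H1Q X) := Module.rank_lt_aleph0_iff.mp hfin
  choose Λ hΛ using fun e => exists_functional (φ e)
  let T : (E → ℝ) →ₗ[ℝ] (H1Q X →ₗ[ℚ] ℝ) := Fintype.linearCombination ℝ Λ
  have hT : ∀ k v, T k v = ∑ e, k e * Λ e v := by
    intro k v
    simp [T, Fintype.linearCombination_apply]
  have hker : LinearMap.ker T ≤ W := by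
    intro k hk
    apply hW
    intro γ hγ L hL
    have h1 : T k (cls γ hγ) = 0 := by
      rw [LinearMap.mem_ker.mp hk]
      rfl
    rw [hT] at h1
    rw [← h1]
    refine Finset.sum_congr rfl fun e _ => ?_
    rw [hΛ e γ hγ (L e) (hL e)]
  have h2 := T.finrank_range_add_finrank_ker
  have h3 : Module.finrank ℝ (LinearMap.ker T) ≤ Module.finrank ℝ W := Submodule.finrank_mono hker
  have h5 : Module.finrank ℝ (H1Q X →ₗ[ℚ] ℝ) = Module.finrank ℚ (H1Q X) :=
    Module.finrank_linearMap_self ℚ ℝ (H1Q X)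
  have h4 : Module.finrank ℝ (LinearMap.range T) ≤ Module.finrank ℚ (H1Q X) := by
    rw [← h5]
    have : Module.Finite ℝ (H1Q X →ₗ[ℚ] ℝ) := inferInstance
    exact Submodule.finrank_le _
  have h6 : Module.finrank ℝ (E → ℝ) = Fintype.card E := Module.finrank_fintype_fun_eq_card ℝ
  rw [← Module.finrank_eq_rank ℚ (H1Q X)]
  have h7 : Fintype.card E ≤ Module.finrank ℚ (H1Q X) + Module.finrank ℝ W := by omega
  exact_mod_cast h7

end Pool.Agent.LZ
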