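import Mathlib

set_option autoImplicit false

/-!
# A cocycle on the 1-simplices of a simplicial set gives a functional on `H_1`.
-/

namespace Pool.Agent.LZ

open CategoryTheory Limits Simplicial

/-- `ℚ` as an object of the category of rational vector spaces. -/
noncomputable abbrev QQ : ModuleCat.{0} ℚ := ModuleCat.of ℚ ℚ

/-- `H_1(S; ℚ)` for a simplicial set `S`. -/
noncomputable abbrev H1S (S : SSet.{0}) : ModuleCat.{0} ℚ := S.homology QQ 1

/-- The morphism `ℚ ⟶ H_1(S; ℚ)` given by a 1-simplex with equal end points. -/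
noncomputable def loopHom (S : SSet.{0}) (x : S _⦋1⦌) (hx : S.δ 0 x = S.δ 1 x) :
    QQ ⟶ H1S S :=
  (S.chainComplex QQ).liftCycles (S.ιChainComplex x) 0 (by simp)
    (by simp [Fin.sum_univ_two, hx]) ≫ (S.chainComplex QQ).homologyπ 1

/-- The class in `H_1(S; ℚ)` of a 1-simplex with equal end points. -/
noncomputable def loopCls (S : SSet.{0}) (x : S _⦋1⦌) (hx : S.δ 0 x = S.δ 1 x) :
    H1S S :=
  (loopHom S x hx).hom (1 : ℚ)

/-- The functional on 1-chains defined by `w`. -/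
noncomputable def chainFun (S : SSet.{0}) (w : S _⦋1⦌ → ℝ) :
    (S.chainComplex QQ).X 1 ⟶ ModuleCat.of ℚ ℝ :=
  Limits.Sigma.desc (fun x : S _⦋1⦌ => ModuleCat.ofHom ((LinearMap.toSpanSingleton ℚ ℝ (w x))))

theorem ι_chainFun (S : SSet.{0}) (w : S _⦋1⦌ → ℝ) (x : S _⦋1⦌) :
    S.ιChainComplex x ≫ chainFun S w = ModuleCat.ofHom ((LinearMap.toSpanSingleton ℚ ℝ (w x))) := by
  unfold chainFun SSet.ιChainComplex
  exact Limits.Sigma.ι_desc _ _

theorem d_chainFun (S : SSet.{0}) (w : S _⦋1⦌ → ℝ)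
    (hw : ∀ τ : S _⦋2⦌, w (S.δ 0 τ) - w (S.δ 1 τ) + w (S.δ 2 τ) = 0) :
    (S.chainComplex QQ).d 2 1 ≫ chainFun S w = 0 := by
  apply SSet.chainComplex_hom_ext
  intro τ
  rw [← Category.assoc, SSet.ιChainComplex_d]
  simp only [Preadditive.sum_comp, Preadditive.zsmul_comp, ι_chainFun]
  have h3 := Fin.sum_univ_three (fun i : Fin 3 => (-1 : ℤ) ^ (i : ℕ) •
    ModuleCat.ofHom ((LinearMap.toSpanSingleton ℚ ℝ (w (S.δ i τ)))))
  refine h3.trans ?_
  rw [comp_zero]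
  ext
  have := hw τ
  simp
  linarith

theorem exists_functional_of_cocycle (S : SSet.{0}) (w : S _⦋1⦌ → ℝ)
    (hw : ∀ τ : S _⦋2⦌, w (S.δ 0 τ) - w (S.δ 1 τ) + w (S.δ 2 τ) = 0) :
    ∃ Λ : H1S S →ₗ[ℚ] ℝ,
      ∀ (x : S _⦋1⦌) (hx : S.δ 0 x = S.δ 1 x), Λ (loopCls S x hx) = w x := by
  let K := S.chainComplex QQ
  have hd : K.d 2 1 ≫ chainFun S w = 0 := d_chainFun S w hw
  let Λ : K.homology 1 ⟶ ModuleCat.of ℚ ℝ :=
    K.homologyι 1 ≫ K.descOpcycles (chainFun S w) 2 (by simp) hd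
  refine ⟨Λ.hom, fun x hx => ?_⟩
  have h1 : loopHom S x hx ≫ Λ = S.ιChainComplex x ≫ chainFun S w := by
    simp only [loopHom, Λ, K, Category.assoc]
    rw [HomologicalComplex.homology_π_ι_assoc]
    rw [HomologicalComplex.liftCycles_i_assoc]
    rw [HomologicalComplex.p_descOpcycles]
  have h2 : Λ.hom (loopCls S x hx) = (loopHom S x hx ≫ Λ).hom (1 : ℚ) := rfl
  rw [h2, h1, ι_chainFun]
  simp

end Pool.Agent.LZ
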