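import Pool.Agent.Lib.MP_79da24_ag.Defs
import Pool.Agent.Lib.MP_79da24_ag.SH2

set_option autoImplicit false

/-!
# Lifts of circle valued functions on simplices and the winding cocycle.
-/

namespace Pool.Agent.LZ

open CategoryTheory Limits Simplicial

theorem lift_diff {T : Type} [TopologicalSpace T] [PreconnectedSpace T] (L L' : C(T, ℝ))
    (h : ∀ x, Circle.exp (L x) = Circle.exp (L' x)) (x y : T) : L x - L y = L' x - L' y := by
  have key : (fun z => L z) = (fun z => L' z + (L y - L' y)) := by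
    apply Circle.isCoveringMap_exp.eq_of_comp_eq L.continuous (by fun_prop) (a := y)
    · funext z
      simp only [Function.comp_apply]
      rw [Circle.exp_add, Circle.exp_sub, h z, h y]
      simp
    · show L y = L' y + (L y - L' y)
      ring
  have := congrFun key x
  linarith

theorem exists_lift_simplex (n : ℕ) (g : C(stdSimplex ℝ (Fin (n + 1)), Circle)) :
    ∃ L : C(stdSimplex ℝ (Fin (n + 1)), ℝ), ∀ x, Circle.exp (L x) = g x := by
  let v0 : stdSimplex ℝ (Fin (n + 1)) := stdSimplex.vertex (S := ℝ) (0 : Fin (n + 1))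
  have hc := convex_stdSimplex ℝ (Fin (n + 1))
  let c : unitInterval × stdSimplex ℝ (Fin (n + 1)) → stdSimplex ℝ (Fin (n + 1)) := fun q =>
    ⟨(1 - (q.1 : ℝ)) • (v0 : Fin (n + 1) → ℝ) + (q.1 : ℝ) • (q.2 : Fin (n + 1) → ℝ),
      hc v0.2 q.2.2 (by linarith [q.1.2.2]) q.1.2.1 (by ring)⟩
  have hcc : Continuous c := by
    refine Continuous.subtype_mk ?_ _
    have h1 : Continuous (fun q : unitInterval × stdSimplex ℝ (Fin (n + 1)) =>
      (q.2 : Fin (n + 1) → ℝ)) := continuous_subtype_val.comp continuous_snd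
    have h2 : Continuous (fun q : unitInterval × stdSimplex ℝ (Fin (n + 1)) => (q.1 : ℝ)) :=
      continuous_subtype_val.comp continuous_fst
    exact ((continuous_const.sub h2).smul continuous_const).add (h2.smul h1)
  obtain ⟨a, ha⟩ := Circle.exp_surjective (g v0)
  let H : C(unitInterval × stdSimplex ℝ (Fin (n + 1)), Circle) := g.comp ⟨c, hcc⟩
  have hc0 : ∀ x, c (0, x) = v0 := by
    intro x
    apply Subtype.ext
    simp [c]
    rfl
  have hc1 : ∀ x, c (1, x) = x := by
    intro x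
    apply Subtype.ext
    simp [c]
    rfl
  have H0 : ∀ x, H (0, x) = Circle.exp ((ContinuousMap.const _ a : C(stdSimplex ℝ (Fin (n + 1)), ℝ)) x) := by
    intro x
    show g (c (0, x)) = _
    rw [hc0]
    exact ha.symm
  let H' := Circle.isCoveringMap_exp.liftHomotopy H (ContinuousMap.const _ a) H0
  have hH' : Circle.exp ∘ H' = H := Circle.isCoveringMap_exp.liftHomotopy_lifts _ _ _
  refine ⟨H'.comp ⟨fun x => (1, x), by fun_prop⟩, fun x => ?_⟩
  have := congrFun hH' (1, x)
  show Circle.exp (H' (1, x)) = g x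
  rw [show Circle.exp (H' (1, x)) = (Circle.exp ∘ H') (1, x) from rfl, this]
  show g (c (1, x)) = g x
  rw [hc1]

/-- The continuous map underlying a singular simplex. -/
noncomputable def toC {X : Type} [TopologicalSpace X] {n : ℕ}
    (x : (TopCat.toSSet.obj (TopCat.of X)) _⦋n⦌) : C(stdSimplex ℝ (Fin (n + 1)), X) :=
  TopCat.toSSetObjEquiv (TopCat.of X) (Opposite.op ⦋n⦌) x

theorem toC_δ {X : Type} [TopologicalSpace X] {n : ℕ}
    (x : (TopCat.toSSet.obj (TopCat.of X)) _⦋n + 1⦌) (i : Fin (n + 2))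
    (s : stdSimplex ℝ (Fin (n + 1))) :
    toC ((TopCat.toSSet.obj (TopCat.of X)).δ i x) s = toC x (stdSimplex.map (Fin.succAbove i) s) := by
  rfl

/-- A chosen lift of `φ ∘ σ` for a singular simplex `σ`. -/
noncomputable def liftC {X : Type} [TopologicalSpace X] (φ : C(X, Circle)) {n : ℕ}
    (x : (TopCat.toSSet.obj (TopCat.of X)) _⦋n⦌) : C(stdSimplex ℝ (Fin (n + 1)), ℝ) :=
  (exists_lift_simplex n (φ.comp (toC x))).choose

theorem liftC_spec {X : Type} [TopologicalSpace X] (φ : C(X, Circle)) {n : ℕ}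
    (x : (TopCat.toSSet.obj (TopCat.of X)) _⦋n⦌) (s : stdSimplex ℝ (Fin (n + 1))) :
    Circle.exp (liftC φ x s) = φ (toC x s) :=
  (exists_lift_simplex n (φ.comp (toC x))).choose_spec s

/-- The vertices of the standard simplex. -/
noncomputable def vx (n : ℕ) (i : Fin (n + 1)) : stdSimplex ℝ (Fin (n + 1)) :=
  stdSimplex.vertex (S := ℝ) i

/-- The winding cocycle of a circle valued function. -/
noncomputable def wind {X : Type} [TopologicalSpace X] (φ : C(X, Circle))
    (x : (TopCat.toSSet.obj (TopCat.of X)) _⦋1⦌) : ℝ :=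
  liftC φ x (vx 1 1) - liftC φ x (vx 1 0)

theorem wind_eq {X : Type} [TopologicalSpace X] (φ : C(X, Circle))
    (x : (TopCat.toSSet.obj (TopCat.of X)) _⦋1⦌) (L : C(stdSimplex ℝ (Fin (1 + 1)), ℝ))
    (hL : ∀ s, Circle.exp (L s) = φ (toC x s)) : wind φ x = L (vx 1 1) - L (vx 1 0) := by
  have : PreconnectedSpace (stdSimplex ℝ (Fin (1 + 1))) :=
    isPreconnected_iff_preconnectedSpace.mp
      (isPathConnected_stdSimplex (Fin (1 + 1))).isConnected.isPreconnected
  exact lift_diff _ _ (fun s => by rw [liftC_spec, hL]) _ _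

theorem wind_cocycle {X : Type} [TopologicalSpace X] (φ : C(X, Circle))
    (τ : (TopCat.toSSet.obj (TopCat.of X)) _⦋2⦌) :
    wind φ ((TopCat.toSSet.obj (TopCat.of X)).δ 0 τ) -
      wind φ ((TopCat.toSSet.obj (TopCat.of X)).δ 1 τ) +
      wind φ ((TopCat.toSSet.obj (TopCat.of X)).δ 2 τ) = 0 := by
  have key : ∀ i : Fin 3, wind φ ((TopCat.toSSet.obj (TopCat.of X)).δ i τ) =
      liftC φ τ (stdSimplex.map (Fin.succAbove i) (vx 1 1)) -
        liftC φ τ (stdSimplex.map (Fin.succAbove i) (vx 1 0)) := by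
    intro i
    exact wind_eq φ _ ((liftC φ τ).comp ⟨stdSimplex.map (Fin.succAbove i),
      stdSimplex.continuous_map _⟩) (fun s => liftC_spec φ τ _)
  have hv : ∀ (i : Fin 3) (j : Fin 2), stdSimplex.map (Fin.succAbove i) (vx 1 j) =
      vx 2 (Fin.succAbove i j) := fun i j => stdSimplex.map_vertex _ _
  rw [key 0, key 1, key 2]
  simp only [hv]
  have e1 : Fin.succAbove (0 : Fin 3) (1 : Fin 2) = 2 := by decide
  have e2 : Fin.succAbove (0 : Fin 3) (0 : Fin 2) = 1 := by decide
  have e3 : Fin.succAbove (1 : Fin 3) (1 : Fin 2) = 2 := by decide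
  have e4 : Fin.succAbove (1 : Fin 3) (0 : Fin 2) = 0 := by decide
  have e5 : Fin.succAbove (2 : Fin 3) (1 : Fin 2) = 1 := by decide
  have e6 : Fin.succAbove (2 : Fin 3) (0 : Fin 2) = 0 := by decide
  rw [e1, e2, e3, e4, e5, e6]
  ring

/-- The singular 1-simplex of a path. -/
noncomputable def ofPath {X : Type} [TopologicalSpace X] (γ : C(unitInterval, X)) :
    (TopCat.toSSet.obj (TopCat.of X)) _⦋1⦌ :=
  (TopCat.toSSetObjEquiv (TopCat.of X) (Opposite.op ⦋1⦌)).symm
    (γ.comp ⟨stdSimplexHomeomorphUnitInterval, stdSimplexHomeomorphUnitInterval.continuous⟩)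

theorem toC_ofPath {X : Type} [TopologicalSpace X] (γ : C(unitInterval, X))
    (s : stdSimplex ℝ (Fin (1 + 1))) : toC (ofPath γ) s = γ (stdSimplexHomeomorphUnitInterval s) := by
  unfold toC ofPath
  rw [Equiv.apply_symm_apply]
  rfl

theorem toC_injective {X : Type} [TopologicalSpace X] {n : ℕ} :
    Function.Injective (toC (X := X) (n := n)) :=
  (TopCat.toSSetObjEquiv (TopCat.of X) (Opposite.op ⦋n⦌)).injective

theorem ofPath_loop {X : Type} [TopologicalSpace X] (γ : C(unitInterval, X)) (h : γ 0 = γ 1) :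
    (TopCat.toSSet.obj (TopCat.of X)).δ 0 (ofPath γ) =
      (TopCat.toSSet.obj (TopCat.of X)).δ 1 (ofPath γ) := by
  apply toC_injective
  ext s
  have hs : s = vx 0 0 := Subsingleton.elim (α := stdSimplex ℝ (Fin 1)) _ _
  subst hs
  rw [toC_δ, toC_δ, toC_ofPath, toC_ofPath]
  have hv : ∀ (i : Fin 2), stdSimplex.map (Fin.succAbove i) (vx 0 0) =
      vx 1 (Fin.succAbove i 0) := fun i => stdSimplex.map_vertex _ _
  rw [hv, hv]
  have e1 : Fin.succAbove (0 : Fin 2) (0 : Fin 1) = 1 := by decide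
  have e2 : Fin.succAbove (1 : Fin 2) (0 : Fin 1) = 0 := by decide
  rw [e1, e2]
  have h0 : stdSimplexHomeomorphUnitInterval (vx 1 0) = 0 := stdSimplexHomeomorphUnitInterval_zero
  have h1 : stdSimplexHomeomorphUnitInterval (vx 1 1) = 1 := stdSimplexHomeomorphUnitInterval_one
  rw [h0, h1, h]

theorem wind_ofPath {X : Type} [TopologicalSpace X] (φ : C(X, Circle)) (γ : C(unitInterval, X))
    (L : C(unitInterval, ℝ)) (hL : IsLift φ γ L) : wind φ (ofPath γ) = L 1 - L 0 := by
  have h0 : stdSimplexHomeomorphUnitInterval (vx 1 0) = 0 := stdSimplexHomeomorphUnitInterval_zero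
  have h1 : stdSimplexHomeomorphUnitInterval (vx 1 1) = 1 := stdSimplexHomeomorphUnitInterval_one
  have := wind_eq φ (ofPath γ) (L.comp ⟨stdSimplexHomeomorphUnitInterval,
    stdSimplexHomeomorphUnitInterval.continuous⟩) (fun s => by
      rw [toC_ofPath]
      exact hL _)
  rw [this]
  show L (stdSimplexHomeomorphUnitInterval (vx 1 1)) - L (stdSimplexHomeomorphUnitInterval (vx 1 0)) = _
  rw [h0, h1]

/-- The class of a loop in `H_1(X; ℚ)`. -/
noncomputable def cls {X : Type} [TopologicalSpace X] (γ : C(unitInterval, X)) (h : γ 0 = γ 1) :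
    H1Q X :=
  loopCls (TopCat.toSSet.obj (TopCat.of X)) (ofPath γ) (ofPath_loop γ h)

theorem exists_functional {X : Type} [TopologicalSpace X] (φ : C(X, Circle)) :
    ∃ Λ : H1Q X →ₗ[ℚ] ℝ, ∀ (γ : C(unitInterval, X)) (h : γ 0 = γ 1) (L : C(unitInterval, ℝ)),
      IsLift φ γ L → Λ (cls γ h) = L 1 - L 0 := by
  obtain ⟨Λ, hΛ⟩ := exists_functional_of_cocycle (TopCat.toSSet.obj (TopCat.of X)) (wind φ)
    (wind_cocycle φ)
  refine ⟨Λ, fun γ h L hL => ?_⟩
  rw [← wind_ofPath φ γ L hL]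
  exact hΛ _ _

end Pool.Agent.LZ
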