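import Pool.Agent.Lib.MP_79da24_ag.ClD

set_option autoImplicit false

namespace Pool.Agent.LZ

open Polynomial Filter Topology Metric

/-- `(c, P)` is a singular point of the curve `F = 0`. -/
def SgP (F : Polynomial (Polynomial ℂ)) (c P : ℂ) : Prop :=
  F.evalEval c P = 0 ∧ (derivative F).evalEval c P = 0 ∧ deriv (fun x => F.evalEval x P) c = 0

open Classical in
/-- The reciprocal of the multiplicity `e` in the fibre, or of `e - 1` at a singular point. -/
noncomputable def om (F : Polynomial (Polynomial ℂ)) (c P : ℂ) : ℝ :=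
  if SgP F c P then 1 / (((spec c F).rootMultiplicity P : ℝ) - 1) else 1 / ((spec c F).rootMultiplicity P : ℝ)

/-- The improved weight of a root `y`. -/
noncomputable def wt2 (F : Polynomial (Polynomial ℂ)) (c : ℂ) (ε : ℝ) (y : ℂ) : ℝ :=
  1 - ∑ P ∈ (spec c F).roots.toFinset.filter (fun P => ‖y - P‖ < ε), om F c P

open Classical in
/-- The singular points over `c` which are double points of the fibre. -/
noncomputable def sg2 (F : Polynomial (Polynomial ℂ)) (c : ℂ) : Finset ℂ :=
  (spec c F).roots.toFinset.filter fun P => SgP F c P ∧ (spec c F).rootMultiplicity P = 2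

open Classical in
/-- The singular points over `c`. -/
noncomputable def sg (F : Polynomial (Polynomial ℂ)) (c : ℂ) : Finset ℂ :=
  (spec c F).roots.toFinset.filter fun P => SgP F c P

/-- The weight of a pair of roots: `1` if both are near the same singular double point. -/
noncomputable def vv (F : Polynomial (Polynomial ℂ)) (c : ℂ) (ε : ℝ) (y y' : ℂ) : ℝ :=
  (((sg2 F c).filter fun P => ‖y - P‖ < ε ∧ ‖y' - P‖ < ε).card : ℝ)

/-- The weight of a triple. -/
noncomputable def w3 (F : Polynomial (Polynomial ℂ)) (c : ℂ) (ε : ℝ) {n : ℕ} (y : Fin n → ℂ)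
    (t : Fin n × Fin n × Fin n) : ℝ :=
  (wt2 F c ε (y t.1) + wt2 F c ε (y t.2.1) + wt2 F c ε (y t.2.2)) +
    (vv F c ε (y t.1) (y t.2.1) + vv F c ε (y t.1) (y t.2.2) + vv F c ε (y t.2.1) (y t.2.2))

/-- The total weight of the fibre over `c`. -/
noncomputable def EE (F : Polynomial (Polynomial ℂ)) (c : ℂ) : ℝ :=
  3 * ((F.natDegree - 1 : ℕ) : ℝ) * ((F.natDegree - 2 : ℕ) : ℝ) *
    ((F.natDegree : ℝ) - (nr (spec c F) : ℝ) -
      ∑ P ∈ sg F c, 1 / (((spec c F).rootMultiplicity P : ℝ) - 1)) +
    6 * ((F.natDegree - 2 : ℕ) : ℝ) * ((sg2 F c).card : ℝ)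

end Pool.Agent.LZ
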