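import Pool.Agent.Lib.MP_79da24_ag.Geo

set_option autoImplicit false

/-!
# Slit domains: contractibility and connectedness.
-/

namespace Pool.Agent.LZ


private theorem Slit1_A (S : Finset ℂ) (δ : ℝ) : ∃ A : ℝ, ∀ c ∈ S, A + δ < c.re := by
  refine ⟨-(∑ c ∈ S, |c.re|) - δ - 1, fun c hc => ?_⟩
  have h1 : |c.re| ≤ ∑ c ∈ S, |c.re| :=
    Finset.single_le_sum (f := fun c : ℂ => |c.re|) (fun i _ => abs_nonneg _) hc
  have h2 := neg_abs_le c.re
  linarith

private theorem Slit1_line {X : Type} [TopologicalSpace X] (U : Set ℂ) (f g : C(X, U))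
    (h : ∀ (t : unitInterval) (x : X),
      (1 - ((t : ℝ) : ℂ)) * (f x : ℂ) + ((t : ℝ) : ℂ) * (g x : ℂ) ∈ U) : f.Homotopic g := by
  refine ⟨{ toFun := fun q => ⟨_, h q.1 q.2⟩
            continuous_toFun := ?_
            map_zero_left := ?_
            map_one_left := ?_ }⟩
  · refine Continuous.subtype_mk ?_ _
    have h1 : Continuous fun q : unitInterval × X => (((q.1 : unitInterval) : ℝ) : ℂ) :=
      Complex.continuous_ofReal.comp (continuous_subtype_val.comp continuous_fst)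
    have h2 : Continuous fun q : unitInterval × X => (f q.2 : ℂ) :=
      continuous_subtype_val.comp (f.continuous.comp continuous_snd)
    have h3 : Continuous fun q : unitInterval × X => (g q.2 : ℂ) :=
      continuous_subtype_val.comp (g.continuous.comp continuous_snd)
    exact ((continuous_const.sub h1).mul h2).add (h1.mul h3)
  · intro x
    refine Subtype.ext ?_
    simp
  · intro x
    refine Subtype.ext ?_
    simp

private theorem Slit1_half {S : Finset ℂ} {A : ℝ} (hA : ∀ c ∈ S, A + 0 < c.re) {z : ℂ}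
    (hz : z.re ≤ A) : z ∈ Om S := by
  intro c hc
  have h1 := re_le_rho c z
  have h2 := hA c hc
  linarith

private theorem Slit1_left {S : Finset ℂ} {z : ℂ} (hz : z ∈ Om S) (s : ℝ) (hs : 0 ≤ s) :
    z - (s : ℂ) ∈ Om S :=
  fun c hc => (hz c hc).trans_le (rho_sub_left c s hs z)

/-- (SLIT-1) The slit domain `Om S` is contractible (definitions of `rho`, `Om`, `Om0`, `Bx`, `Sep` in Geo.lean).
Proof. Choose a real `A` with `A < c.re` for all `c ∈ S` (finite set). The homotopy
`H₁ (t, z) = z - t * max 0 (z.re - A)` (t ∈ [0,1]) stays in `Om S`: by `rho_sub_left`,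
`rho c (z - s) ≥ rho c z > 0` for real `s ≥ 0`. At `t = 1` the real part is `min z.re A ≤ A`.
The half plane `{z | z.re ≤ A}` is contained in `Om S` (there `rho c z ≥ c.re - z.re > 0`, `re_le_rho`), so
the second homotopy is the straight line homotopy from `z - max 0 (z.re - A)` to the point `(A : ℂ)`:
all its points have real part `≤ A`. Concatenate (`ContinuousMap.Homotopy.trans`/`Homotopic.trans`) and use
`contractible_iff_id_nullhomotopic` (`ContinuousMap.Nullhomotopic`). The set is nonempty (contains `(A : ℂ)`). -/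
theorem contractible_Om (S : Finset ℂ) : ContractibleSpace (Om S) := by
  obtain ⟨A, hA⟩ := Slit1_A S 0
  rw [contractible_iff_id_nullhomotopic]
  have hm : ∀ z : ℂ, 0 ≤ max 0 (z.re - A) := fun z => le_max_left _ _
  have hcont : Continuous fun z : ℂ => z - ((max 0 (z.re - A) : ℝ) : ℂ) := by
    have h1 : Continuous fun z : ℂ => max 0 (z.re - A) :=
      continuous_const.max (Complex.continuous_re.sub continuous_const)
    exact continuous_id.sub (Complex.continuous_ofReal.comp h1)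
  set g : C(Om S, Om S) := ⟨fun z => ⟨(z : ℂ) - ((max 0 ((z : ℂ).re - A) : ℝ) : ℂ),
    Slit1_left z.2 _ (hm z)⟩, (hcont.comp continuous_subtype_val).subtype_mk _⟩ with hg
  have hAm : (A : ℂ) ∈ Om S := Slit1_half hA (by simp)
  have hgz : ∀ z : Om S, ((g z : Om S) : ℂ).re ≤ A := by
    intro z
    show ((z : ℂ) - ((max 0 ((z : ℂ).re - A) : ℝ) : ℂ)).re ≤ A
    rw [Complex.sub_re, Complex.ofReal_re]
    have := le_max_right 0 ((z : ℂ).re - A)
    linarith
  refine ⟨⟨(A : ℂ), hAm⟩, ?_⟩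
  have h1 : (ContinuousMap.id (Om S)).Homotopic g := by
    refine Slit1_line (Om S) _ _ fun t z => ?_
    have e : (1 - ((t : ℝ) : ℂ)) * ((ContinuousMap.id (Om S) z : Om S) : ℂ) +
        ((t : ℝ) : ℂ) * ((g z : Om S) : ℂ) =
        (z : ℂ) - (((t : ℝ) * max 0 ((z : ℂ).re - A) : ℝ) : ℂ) := by
      show (1 - ((t : ℝ) : ℂ)) * (z : ℂ) + ((t : ℝ) : ℂ) *
        ((z : ℂ) - ((max 0 ((z : ℂ).re - A) : ℝ) : ℂ)) = _
      push_cast
      ring
    rw [e]
    exact Slit1_left z.2 _ (mul_nonneg t.2.1 (hm z))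
  have h2 : g.Homotopic (ContinuousMap.const (Om S) (⟨(A : ℂ), hAm⟩ : Om S)) := by
    refine Slit1_line (Om S) _ _ fun t z => Slit1_half hA ?_
    show ((1 - ((t : ℝ) : ℂ)) * ((g z : Om S) : ℂ) + ((t : ℝ) : ℂ) * (A : ℂ)).re ≤ A
    have e : ((1 - ((t : ℝ) : ℂ)) * ((g z : Om S) : ℂ) + ((t : ℝ) : ℂ) * (A : ℂ)).re =
        (1 - (t : ℝ)) * ((g z : Om S) : ℂ).re + (t : ℝ) * A := by
      have e1 : (1 - ((t : ℝ) : ℂ)) = ((1 - (t : ℝ) : ℝ) : ℂ) := by push_cast; rfl
      rw [e1, Complex.add_re, Complex.re_ofReal_mul, Complex.re_ofReal_mul, Complex.ofReal_re]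
    rw [e]
    have h3 := hgz z
    have h4 := t.2.2
    have h5 := t.2.1
    nlinarith
  exact h1.trans h2

/-- If `A < c.re` for all `c ∈ S`, then `(A : ℂ) ∈ Om S`. -/
theorem nonempty_Om (S : Finset ℂ) : (Om S).Nonempty := by
  obtain ⟨A, hA⟩ := Slit1_A S 0
  exact ⟨(A : ℂ), Slit1_half hA (by simp)⟩

/-- Convex (`convex_Bx`) and nonempty (contains `c + ε`), `Convex.contractibleSpace`. -/
theorem contractible_Bx (c : ℂ) (ε : ℝ) (hε : 0 < ε) : ContractibleSpace (Bx c ε) := by
  refine Convex.contractibleSpace (convex_Bx c ε) ⟨c + (ε : ℂ), ?_, ?_⟩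
  · simpa using hε
  · simpa using hε

/-- (SLIT-2) Any two points of `Om0 S ε` are joined in `Om0 S ε`. (ε may be arbitrary.)
Proof. Choose `A` with `A + max ε 0 ≤ c.re` for all `c ∈ S`. A point `z ∈ Om0 S ε` is joined to
`z - max 0 (z.re - A)` by the segment `t ↦ z - t * max 0 (z.re - A)` (`rho_sub_left` gives `ε ≤ rho c z ≤ rho c (z - s)`).
The half plane `{z.re ≤ A}` is convex and contained in `Om0 S ε` because `rho c z ≥ c.re - z.re ≥ ε` (`re_le_rho`);
two points of it are joined by a segment (`JoinedIn.of_segment_subset` or `Convex.isPathConnected`). Compose with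
`JoinedIn.trans` and `JoinedIn.symm`. -/
theorem joinedIn_Om0 (S : Finset ℂ) (ε : ℝ) {z z' : ℂ} (hz : z ∈ Om0 S ε) (hz' : z' ∈ Om0 S ε) :
    JoinedIn (Om0 S ε) z z' := by
  obtain ⟨A, hA⟩ := Slit1_A S (max ε 0)
  have hhalf : ∀ w : ℂ, w.re ≤ A → w ∈ Om0 S ε := by
    intro w hw c hc
    have h1 := re_le_rho c w
    have h2 := hA c hc
    have h3 := le_max_left ε 0
    linarith
  have key : ∀ w ∈ Om0 S ε, JoinedIn (Om0 S ε) w (w - ((max 0 (w.re - A) : ℝ) : ℂ)) := by
    intro w hw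
    refine JoinedIn.of_segment_subset ?_
    rw [segment_eq_image]
    rintro _ ⟨t, ht, rfl⟩
    have e : (1 - t) • w + t • (w - ((max 0 (w.re - A) : ℝ) : ℂ)) =
        w - ((t * max 0 (w.re - A) : ℝ) : ℂ) := by
      simp only [Complex.real_smul]
      push_cast
      ring
    show (1 - t) • w + t • (w - ((max 0 (w.re - A) : ℝ) : ℂ)) ∈ Om0 S ε
    rw [e]
    intro c hc
    exact (hw c hc).trans (rho_sub_left c _ (mul_nonneg ht.1 (le_max_left _ _)) w)
  have hre : ∀ w : ℂ, (w - ((max 0 (w.re - A) : ℝ) : ℂ)).re ≤ A := by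
    intro w
    rw [Complex.sub_re, Complex.ofReal_re]
    have := le_max_right 0 (w.re - A)
    linarith
  have hmid : JoinedIn (Om0 S ε) (z - ((max 0 (z.re - A) : ℝ) : ℂ))
      (z' - ((max 0 (z'.re - A) : ℝ) : ℂ)) := by
    refine JoinedIn.of_segment_subset ?_
    rw [segment_eq_image]
    rintro _ ⟨t, ht, rfl⟩
    refine hhalf _ ?_
    have h1 := hre z
    have h2 := hre z'
    show ((1 - t) • (z - ((max 0 (z.re - A) : ℝ) : ℂ)) +
      t • (z' - ((max 0 (z'.re - A) : ℝ) : ℂ))).re ≤ A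
    rw [Complex.add_re, Complex.real_smul, Complex.real_smul, Complex.re_ofReal_mul,
      Complex.re_ofReal_mul]
    have h3 := ht.1
    have h4 := ht.2
    nlinarith
  exact ((key z hz).trans hmid).trans (key z' hz').symm




private theorem Slit2_aux {c z : ℂ} {δ : ℝ} (hz : z ∈ Metric.ball c δ) :
    |z.re - c.re| < δ ∧ |z.im - c.im| < δ := by
  rw [Metric.mem_ball, dist_eq_norm] at hz
  refine ⟨?_, ?_⟩
  · have := Complex.abs_re_le_norm (z - c)
    rw [Complex.sub_re] at this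
    exact this.trans_lt hz
  · have := Complex.abs_im_le_norm (z - c)
    rw [Complex.sub_im] at this
    exact this.trans_lt hz

private theorem Slit2_mem (c : ℂ) {δ : ℝ} (hδ : 0 < δ) (a b : ℝ) (ha : |a| ≤ δ / 3) (hb : |b| ≤ δ / 3) :
    (⟨c.re + a, c.im + b⟩ : ℂ) ∈ Metric.ball c δ := by
  rw [Metric.mem_ball, dist_eq_norm]
  have h := Complex.norm_le_abs_re_add_abs_im ((⟨c.re + a, c.im + b⟩ : ℂ) - c)
  rw [Complex.sub_re, Complex.sub_im] at h
  simp only [add_sub_cancel_left] at h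
  linarith

/-- (SLIT-3) The slit ball is (pre)connected.
Proof. For `z ∈ ball c δ` and `c' ∈ S`, `c' ≠ c`: `|z.im - c.im| ≤ ‖z - c‖ < δ ≤ 2 ε`, so `Sep.im_far` gives
`2 ε < |z.im - c'.im| ≤ rho c' z`, so `0 < rho c' z`. Hence `ball c δ ∩ Om S = ball c δ ∩ {z | 0 < rho c z}`, and
`0 < rho c z` means `z.re < c.re` or `z.im ≠ c.im` (`lt_max_iff`). So the set is the union of the three convex sets
`U₁ = ball ∩ {z.re < c.re}`, `U₂ = ball ∩ {c.im < z.im}`, `U₃ = ball ∩ {z.im < c.im}`; `U₁ ∩ U₂` contains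
`c - δ/3 + (δ/3) i` and `U₁ ∩ U₃` contains `c - δ/3 - (δ/3) i`. Use `IsPreconnected.union` twice
(`Convex.isPreconnected`, `convex_halfSpace_re_lt`, `convex_halfSpace_im_gt`, `convex_halfSpace_im_lt`, `convex_ball`). -/
theorem preconnected_slitBall {S : Finset ℂ} {ε : ℝ} (h : Sep S ε) {c : ℂ} (hc : c ∈ S) {δ : ℝ}
    (hδ : 0 < δ) (hδε : δ ≤ 2 * ε) : IsPreconnected (Metric.ball c δ ∩ Om S) := by
  have heq : Metric.ball c δ ∩ Om S = (Metric.ball c δ ∩ {z : ℂ | z.re < c.re}) ∪
      ((Metric.ball c δ ∩ {z : ℂ | c.im < z.im}) ∪ (Metric.ball c δ ∩ {z : ℂ | z.im < c.im})) := by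
    ext z
    constructor
    · rintro ⟨hz, hO⟩
      have h1 := hO c hc
      unfold rho at h1
      rcases lt_max_iff.mp h1 with h2 | h2
      · exact Or.inl ⟨hz, by rw [Set.mem_ofPred_eq]; linarith⟩
      · right
        have h3 : z.im - c.im ≠ 0 := abs_pos.mp h2
        rcases lt_or_gt_of_ne h3 with h4 | h4
        · exact Or.inr ⟨hz, by rw [Set.mem_ofPred_eq]; linarith⟩
        · exact Or.inl ⟨hz, by rw [Set.mem_ofPred_eq]; linarith⟩
    · intro hz
      have hball : z ∈ Metric.ball c δ := by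
        rcases hz with hz | hz | hz
        · exact hz.1
        · exact hz.1
        · exact hz.1
      have hcr : 0 < rho c z := by
        unfold rho
        rcases hz with hz | hz | hz
        · have h1 : z.re < c.re := hz.2
          exact lt_max_of_lt_left (by linarith)
        · have h1 : c.im < z.im := hz.2
          exact lt_max_of_lt_right (abs_pos.mpr (by linarith))
        · have h1 : z.im < c.im := hz.2
          exact lt_max_of_lt_right (abs_pos.mpr (by linarith))
      refine ⟨hball, fun c' hc' => ?_⟩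
      by_cases hne : c = c'
      · rw [← hne]
        exact hcr
      · have h1 := (Slit2_aux hball).2
        have h2 := h.im_far hc hc' hne (z := z) (h1.trans_le hδε)
        have h3 := abs_im_le_rho c' z
        linarith [h.1]
  rw [heq]
  have hb := convex_ball (E := ℂ) c δ
  have p1 : IsPreconnected (Metric.ball c δ ∩ {z : ℂ | z.re < c.re}) :=
    (hb.inter (convex_halfSpace_re_lt _)).isPreconnected
  have p2 : IsPreconnected (Metric.ball c δ ∩ {z : ℂ | c.im < z.im}) :=
    (hb.inter (convex_halfSpace_im_gt _)).isPreconnected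
  have p3 : IsPreconnected (Metric.ball c δ ∩ {z : ℂ | z.im < c.im}) :=
    (hb.inter (convex_halfSpace_im_lt _)).isPreconnected
  have hd : |-(δ / 3)| ≤ δ / 3 := by rw [abs_neg, abs_of_pos (by linarith)]
  have hd' : |δ / 3| ≤ δ / 3 := by rw [abs_of_pos (by linarith)]
  have m1 := Slit2_mem c hδ (-(δ / 3)) (δ / 3) hd hd'
  have m2 := Slit2_mem c hδ (-(δ / 3)) (-(δ / 3)) hd hd
  have h12 : IsPreconnected ((Metric.ball c δ ∩ {z : ℂ | z.re < c.re}) ∪
      (Metric.ball c δ ∩ {z : ℂ | c.im < z.im})) := by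
    refine IsPreconnected.union (⟨c.re + -(δ / 3), c.im + δ / 3⟩ : ℂ) ⟨m1, ?_⟩ ⟨m1, ?_⟩ p1 p2
    · rw [Set.mem_ofPred_eq]
      show c.re + -(δ / 3) < c.re
      linarith
    · rw [Set.mem_ofPred_eq]
      show c.im < c.im + δ / 3
      linarith
  rw [← Set.union_assoc]
  refine IsPreconnected.union (⟨c.re + -(δ / 3), c.im + -(δ / 3)⟩ : ℂ) (Or.inl ⟨m2, ?_⟩)
    ⟨m2, ?_⟩ h12 p3
  · rw [Set.mem_ofPred_eq]
    show c.re + -(δ / 3) < c.re
    linarith
  · rw [Set.mem_ofPred_eq]
    show c.im + -(δ / 3) < c.im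
    linarith


end Pool.Agent.LZ
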