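import Pool.Agent.Lib.MP_79da24_ag.Poly
import Pool.Agent.Lib.MP_79da24_ag.Sect

set_option autoImplicit false

/-!
# Holomorphic sections, second divided differences of the velocity, the product `Psi`.
-/

namespace Pool.Agent.LZ

open Polynomial Filter Topology

/-- `s` is a family of `n` disjoint holomorphic sections describing `F = 0` over the open set `U`. -/
structure HSec (F : Polynomial (Polynomial ℂ)) (n : ℕ) (U : Set ℂ) (s : Fin n → ℂ → ℂ) : Prop where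
  isOpen : IsOpen U
  diff : ∀ i, DifferentiableOn ℂ (s i) U
  inj : ∀ z ∈ U, ∀ i j, s i z = s j z → i = j
  mem_iff : ∀ z ∈ U, ∀ y, F.evalEval z y = 0 ↔ ∃ i, s i z = y

/-- First divided difference of the velocities. -/
noncomputable def Lq {n : ℕ} (s : Fin n → ℂ → ℂ) (i j : Fin n) (z : ℂ) : ℂ :=
  (deriv (s i) z - deriv (s j) z) / (s i z - s j z)

/-- Second divided difference of the velocities. -/
noncomputable def qq {n : ℕ} (s : Fin n → ℂ → ℂ) (i j k : Fin n) (z : ℂ) : ℂ :=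
  (Lq s i j z - Lq s i k z) / (s j z - s k z)

/-- The germ at `z` of the second divided difference vanishes. -/
def Zg {n : ℕ} (s : Fin n → ℂ → ℂ) (i j k : Fin n) (z : ℂ) : Prop :=
  ∀ᶠ w in 𝓝 z, qq s i j k w = 0

open Classical in
/-- The modified second divided difference. -/
noncomputable def Qt {n : ℕ} (c₀ : ℂ) (s : Fin n → ℂ → ℂ) (t : Fin n × Fin n × Fin n) (z : ℂ) : ℂ :=
  if Zg s t.1 t.2.1 t.2.2 z then 1 / ((z - c₀) * (s t.2.1 z - s t.2.2 z))
  else qq s t.1 t.2.1 t.2.2 z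

/-- Ordered triples of distinct indices. -/
def T3 (n : ℕ) : Finset (Fin n × Fin n × Fin n) :=
  Finset.univ.filter fun t => t.1 ≠ t.2.1 ∧ t.1 ≠ t.2.2 ∧ t.2.1 ≠ t.2.2

/-- Ordered pairs of distinct indices. -/
def P2 (n : ℕ) : Finset (Fin n × Fin n) := Finset.univ.filter fun t => t.1 ≠ t.2

/-- The product of the differences. -/
noncomputable def Ps {n : ℕ} (s : Fin n → ℂ → ℂ) (z : ℂ) : ℂ := ∏ t ∈ P2 n, (s t.1 z - s t.2 z)

/-- The product of the modified second divided differences, times a power of the product of the differences. -/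
noncomputable def Psi {n : ℕ} (c₀ : ℂ) (b : ℕ) (s : Fin n → ℂ → ℂ) (z : ℂ) : ℂ :=
  (∏ t ∈ T3 n, Qt c₀ s t z) * Ps s z ^ b

/-- The diameter of a triple. -/
noncomputable def dm {n : ℕ} (y : Fin n → ℂ) (t : Fin n × Fin n × Fin n) : ℝ :=
  max ‖y t.1 - y t.2.1‖ (max ‖y t.1 - y t.2.2‖ ‖y t.2.1 - y t.2.2‖)

/-- The weight of a root `y`: `1` if it is far from the roots of `g`, `1 - 1/e` if it is near a root of multiplicity `e`. -/
noncomputable def wt (g : Polynomial ℂ) (ε : ℝ) (y : ℂ) : ℝ :=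
  1 - ∑ P ∈ g.roots.toFinset.filter (fun P => ‖y - P‖ < ε), 1 / (g.rootMultiplicity P : ℝ)

theorem HSec.sub_ne {F : Polynomial (Polynomial ℂ)} {n : ℕ} {U : Set ℂ} {s : Fin n → ℂ → ℂ}
    (h : HSec F n U s) {z : ℂ} (hz : z ∈ U) {i j : Fin n} (hij : i ≠ j) : s i z - s j z ≠ 0 :=
  fun h0 => hij (h.inj z hz i j (sub_eq_zero.mp h0))

theorem HSec.mono {F : Polynomial (Polynomial ℂ)} {n : ℕ} {U V : Set ℂ} {s : Fin n → ℂ → ℂ}
    (h : HSec F n U s) (hV : IsOpen V) (hVU : V ⊆ U) : HSec F n V s :=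
  ⟨hV, fun i => (h.diff i).mono hVU, fun z hz => h.inj z (hVU hz), fun z hz => h.mem_iff z (hVU hz)⟩

theorem HSec.isSec {F : Polynomial (Polynomial ℂ)} {n : ℕ} {U : Set ℂ} {s : Fin n → ℂ → ℂ}
    (h : HSec F n U s) : IsSec (curve F) U n s :=
  ⟨fun i => (h.diff i).continuousOn, h.inj, h.mem_iff⟩

theorem mem_T3 {n : ℕ} {i j k : Fin n} : (i, j, k) ∈ T3 n ↔ i ≠ j ∧ i ≠ k ∧ j ≠ k := by
  simp [T3]

theorem mem_P2 {n : ℕ} {i j : Fin n} : (i, j) ∈ P2 n ↔ i ≠ j := by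
  simp [P2]

end Pool.Agent.LZ
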